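import Pool.Agent.Work.MP_267827_an.Transfer

-- merged part: Pool.Agent.Work.MP_267827_an.CoV
section
/-! Conformal change of variables. -/

set_option autoImplicit false

namespace Pool.Agent.Work.MP_267827_an

open MeasureTheory Set Filter Topology Metric Real

/-- the point `a σ + i q t` -/
def pt (a q : ℝ) (p : ℝ × ℝ) : ℂ := (a * p.1 : ℝ) + (q * p.2 : ℝ) * Complex.I

@[simp] theorem pt_re (a q : ℝ) (p : ℝ × ℝ) : (pt a q p).re = a * p.1 := by simp [pt]

@[simp] theorem pt_im (a q : ℝ) (p : ℝ × ℝ) : (pt a q p).im = q * p.2 := by simp [pt]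

/-- `pt` as a linear map -/
noncomputable def ptL (a q : ℝ) : ℝ × ℝ →L[ℝ] ℂ :=
  (ContinuousLinearMap.fst ℝ ℝ ℝ).smulRight (a : ℂ) +
    (ContinuousLinearMap.snd ℝ ℝ ℝ).smulRight ((q : ℂ) * Complex.I)

theorem ptL_apply (a q : ℝ) (p : ℝ × ℝ) : ptL a q p = pt a q p := by
  simp [ptL, pt]; ring

theorem hasFDerivAt_pt (a q : ℝ) (p : ℝ × ℝ) : HasFDerivAt (pt a q) (ptL a q) p := by
  have : pt a q = ptL a q := funext fun p => (ptL_apply a q p).symm
  rw [this]
  exact (ptL a q).hasFDerivAt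

theorem contDiff_pt (a q : ℝ) : ContDiff ℝ 1 (pt a q) := by
  have : pt a q = ptL a q := funext fun p => (ptL_apply a q p).symm
  rw [this]
  exact (ptL a q).contDiff

@[fun_prop] theorem continuous_pt (a q : ℝ) : Continuous (pt a q) := (contDiff_pt a q).continuous

theorem hasFDerivAt_comp_pt {F : ℂ → ℂ} {f' : ℂ} {a q : ℝ} {p : ℝ × ℝ}
    (hF : HasDerivAt F f' (pt a q p)) :
    HasFDerivAt (fun p => F (pt a q p))
      ((ContinuousLinearMap.mul ℝ ℂ f').comp (ptL a q)) p := by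
  have h1 : HasFDerivAt F (ContinuousLinearMap.mul ℝ ℂ f') (pt a q p) := by
    refine (hF.hasFDerivAt.restrictScalars ℝ).congr_fderiv ?_
    ext <;> simp [mul_comm]
  exact h1.comp p (hasFDerivAt_pt a q p)

theorem cov {B : Type*} [NormedAddCommGroup B] [NormedSpace ℝ B] {D : Set (ℝ × ℝ)}
    (hD : MeasurableSet D) {F F' : ℂ → ℂ} {a q : ℝ} (ha : 0 < a) (hq : 0 < q)
    (hF : ∀ p ∈ D, HasDerivAt F (F' (pt a q p)) (pt a q p))
    (inj : InjOn (fun p => F (pt a q p)) D) (g : ℂ → B) :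
    MeasurableSet ((fun p => F (pt a q p)) '' D) ∧
    (IntegrableOn g ((fun p => F (pt a q p)) '' D) ↔
      IntegrableOn (fun p => (a * q * ‖F' (pt a q p)‖ ^ 2) • g (F (pt a q p))) D) ∧
    ∫ z in (fun p => F (pt a q p)) '' D, g z =
      ∫ p in D, (a * q * ‖F' (pt a q p)‖ ^ 2) • g (F (pt a q p)) := by
  let e := Complex.measurableEquivRealProd
  let f : ℝ × ℝ → ℝ × ℝ := fun p => Complex.equivRealProdCLM (F (pt a q p))
  let f' : ℝ × ℝ → ℝ × ℝ →L[ℝ] ℝ × ℝ := fun p =>
    (Matrix.toLin (.finTwoProd ℝ) (.finTwoProd ℝ)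
      !![a * (F' (pt a q p)).re, -(q * (F' (pt a q p)).im);
        a * (F' (pt a q p)).im, q * (F' (pt a q p)).re]).toContinuousLinearMap
  have hf : ∀ p ∈ D, HasFDerivWithinAt f (f' p) D p := by
    intro p hp
    refine ((Complex.equivRealProdCLM.toContinuousLinearMap.hasFDerivAt.comp p
      (hasFDerivAt_comp_pt (hF p hp))).congr_fderiv ?_).hasFDerivWithinAt
    refine ContinuousLinearMap.ext fun v => ?_
    simp only [f', LinearMap.coe_toContinuousLinearMap', Matrix.toLin_finTwoProd_apply]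
    simp [ptL_apply]
    constructor <;> ring
  have hdet : ∀ p, |(f' p).det| = a * q * ‖F' (pt a q p)‖ ^ 2 := by
    intro p
    simp only [f', LinearMap.det_toContinuousLinearMap, LinearMap.det_toLin, Matrix.det_fin_two_of]
    rw [Complex.sq_norm, Complex.normSq_apply, abs_of_nonneg]
    · ring
    · linarith only [ha, hq, mul_pos ha hq, mul_self_nonneg (F' (pt a q p)).re,
        mul_self_nonneg (F' (pt a q p)).im, mul_nonneg_of_nonpos_of_nonpos (Mathlib.Tactic.Linarith.sub_nonpos_of_le (mul_self_nonneg (F' (pt a q p)).im)) (le_of_lt (Mathlib.Tactic.Linarith.sub_neg_of_lt (mul_pos ha hq))), mul_nonneg_of_nonpos_of_nonpos (Mathlib.Tactic.Linarith.sub_nonpos_of_le (mul_self_nonneg (F' (pt a q p)).re)) (le_of_lt (Mathlib.Tactic.Linarith.sub_neg_of_lt (mul_pos ha hq)))]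
  have finj : InjOn f D := fun p hp p' hp' h =>
    inj hp hp' (Complex.equivRealProdCLM.injective h)
  have him : (fun p => F (pt a q p)) '' D = e ⁻¹' (f '' D) := by
    ext z
    constructor
    · rintro ⟨p, hp, rfl⟩
      exact ⟨p, hp, rfl⟩
    · rintro ⟨p, hp, h⟩
      exact ⟨p, hp, Complex.equivRealProdCLM.injective h⟩
  have mp := Complex.volume_preserving_equiv_real_prod
  have hg : g = (fun p => g (e.symm p)) ∘ e := by
    funext z; simp
  have hs : ∀ p, e.symm (f p) = F (pt a q p) := fun p => e.symm_apply_apply _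
  refine ⟨?_, ?_, ?_⟩
  · rw [him]
    exact e.measurable (measurable_image_of_fderivWithin hD hf finj)
  · rw [him]
    conv_lhs => rw [hg]
    rw [mp.integrableOn_comp_preimage e.measurableEmbedding,
      integrableOn_image_iff_integrableOn_abs_det_fderiv_smul volume hD hf finj]
    simp only [hdet, hs]
  · rw [him]
    have := mp.setIntegral_preimage_emb e.measurableEmbedding (fun p => g (e.symm p)) (f '' D)
    simp only [e, MeasurableEquiv.symm_apply_apply] at this
    rw [this, integral_image_eq_integral_abs_det_fderiv_smul volume hD hf finj]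
    simp only [hdet]
    rfl

theorem chain {u : ℂ → ℝ} {F : ℂ → ℂ} {f' : ℂ} {a q : ℝ} {p : ℝ × ℝ}
    (hF : HasDerivAt F f' (pt a q p)) (hu : DifferentiableAt ℝ u (F (pt a q p))) :
    ds (fun p => u (F (pt a q p))) p = a * fderiv ℝ u (F (pt a q p)) f' ∧
    dt (fun p => u (F (pt a q p))) p = q * fderiv ℝ u (F (pt a q p)) (Complex.I * f') := by
  have h := (hu.hasFDerivAt.comp p (hasFDerivAt_comp_pt hF)).fderiv
  have h' : fderiv ℝ (fun p => u (F (pt a q p))) p = _ := h
  simp only [ds, dt, h', ContinuousLinearMap.comp_apply, ptL_apply, ContinuousLinearMap.mul_apply',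
    ← smul_eq_mul, ← map_smul]
  constructor
  · congr 1; simp [pt]; ring
  · congr 1; simp [pt]; ring

theorem norm_sq_dual (L : ℂ →L[ℝ] ℝ) (c : ℂ) :
    L c ^ 2 + L (Complex.I * c) ^ 2 = ‖c‖ ^ 2 * ‖L‖ ^ 2 := by
  have hL : ∀ z : ℂ, L z = z.re * L 1 + z.im * L Complex.I := by
    intro z
    conv_lhs => rw [← Complex.re_add_im z]
    rw [map_add, show (z.re : ℂ) = z.re • (1 : ℂ) by simp,
      show (z.im : ℂ) * Complex.I = z.im • Complex.I by simp, map_smul, map_smul]
    simp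
  have hn : ‖L‖ ^ 2 = L 1 ^ 2 + L Complex.I ^ 2 := by
    have := Complex.orthonormalBasisOneI.norm_dual L
    simpa [Fin.sum_univ_two] using this
  rw [hn, hL c, hL (Complex.I * c), Complex.sq_norm, Complex.normSq_apply]
  simp
  ring

end Pool.Agent.Work.MP_267827_an
end

-- merged part: Pool.Agent.Work.MP_267827_an.Conf
section
/-! The conformal map of a half strip onto a triangle. -/

set_option autoImplicit false

namespace Pool.Agent.Work.MP_267827_an

open MeasureTheory Set Filter Topology Metric Real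

variable {β b : ℝ}

/-- the region where the map is holomorphic -/
def Conf_U (β : ℝ) : Set ℂ := {w | w.re < 0 ∨ (0 < w.im ∧ w.im < π * β)}

/-- the argument of the derivative -/
noncomputable def Conf_A (β b : ℝ) (w : ℂ) : ℝ :=
  w.im - (β + b) * Complex.arg (1 - Complex.exp (w / β)) -
    (β - b) * Complex.arg (1 + Complex.exp (w / β))

theorem Conf_open (β : ℝ) : IsOpen (Conf_U β) :=
  (isOpen_lt Complex.continuous_re continuous_const).union
    ((isOpen_lt continuous_const Complex.continuous_im).inter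
      (isOpen_lt Complex.continuous_im continuous_const))

theorem Conf_shift_mem {w : ℂ} (hw : w ∈ Conf_U β) {s : ℝ} (hs : s ≤ 0) :
    w + s ∈ Conf_U β := by
  rcases hw with h | h
  · left; simp only [Complex.add_re, Complex.ofReal_re]; linarith
  · right; simpa using h

theorem Conf_norm_z (β : ℝ) (w : ℂ) : ‖Complex.exp (w / β)‖ = exp (w.re / β) := by
  rw [Complex.norm_exp, Complex.div_ofReal_re]

theorem Conf_shift (β : ℝ) (w : ℂ) (s : ℝ) :
    Complex.exp ((w + s) / β) = (exp (s / β) : ℝ) * Complex.exp (w / β) := by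
  rw [add_div, Complex.exp_add, mul_comm]
  push_cast
  rfl

theorem Conf_norm (β b : ℝ) (w : ℂ) : ‖GG β b w‖ =
    exp (w.re - (β + b) * log ‖1 - Complex.exp (w / β)‖ -
      (β - b) * log ‖1 + Complex.exp (w / β)‖) := by
  rw [GG, Complex.norm_exp]
  simp only [Complex.sub_re, Complex.re_ofReal_mul, Complex.log_re]

theorem Conf_polar (β b : ℝ) (w : ℂ) :
    GG β b w = (‖GG β b w‖ : ℝ) * ei (Conf_A β b w) := by
  rw [GG, Complex.norm_exp, ei, Complex.ofReal_exp, ← Complex.exp_add]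
  congr 1
  apply Complex.ext
  · simp
  · simp [Conf_A, Complex.log_im]

theorem Conf_slit (hβ : 0 < β) {w : ℂ} (hw : w ∈ Conf_U β) {ρ : ℝ} (h0 : 0 ≤ ρ) (h1 : ρ ≤ 1) :
    1 - (ρ : ℂ) * Complex.exp (w / β) ∈ Complex.slitPlane ∧
      1 + (ρ : ℂ) * Complex.exp (w / β) ∈ Complex.slitPlane := by
  rcases hw with h | h
  · have h2 : ‖(ρ : ℂ) * Complex.exp (w / β)‖ < 1 := by
      rw [norm_mul, Conf_norm_z, Complex.norm_real, Real.norm_of_nonneg h0]
      have : exp (w.re / β) < 1 := exp_lt_one_iff.2 (div_neg_of_neg_of_pos h hβ)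
      linarith only [this, h1, exp_pos (w.re / β), mul_nonneg_of_nonpos_of_nonpos (Mathlib.Tactic.Linarith.sub_nonpos_of_le h1) (le_of_lt (Mathlib.Tactic.Linarith.sub_neg_of_lt (exp_pos (w.re / β))))]
    refine ⟨?_, Complex.mem_slitPlane_of_norm_lt_one h2⟩
    rw [sub_eq_add_neg]
    exact Complex.mem_slitPlane_of_norm_lt_one (by rwa [norm_neg])
  · rcases h0.eq_or_lt with h2 | h2
    · subst h2; simp
    · have h3 : 0 < (Complex.exp (w / β)).im := by
        rw [Complex.exp_im, Complex.div_ofReal_im]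
        refine mul_pos (exp_pos _) (sin_pos_of_pos_of_lt_pi (div_pos h.1 hβ) ?_)
        rw [div_lt_iff₀ hβ]; exact h.2
      have h4 := mul_pos h2 h3
      constructor
      · refine Complex.mem_slitPlane_iff.2 (Or.inr ?_)
        simp only [Complex.sub_im, Complex.one_im, Complex.im_ofReal_mul]
        linarith only [h4]
      · refine Complex.mem_slitPlane_iff.2 (Or.inr ?_)
        simp only [Complex.add_im, Complex.one_im, Complex.im_ofReal_mul]
        linarith only [h4]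

theorem Conf_diff (hβ : 0 < β) (b : ℝ) {w : ℂ} (hw : w ∈ Conf_U β) :
    DifferentiableAt ℂ (GG β b) w := by
  have h := Conf_slit hβ hw zero_le_one le_rfl
  simp only [Complex.ofReal_one, one_mul] at h
  have h0 : DifferentiableAt ℂ (fun w : ℂ => Complex.exp (w / β)) w := by fun_prop
  have h1 := ((differentiableAt_const (1 : ℂ)).sub h0).clog h.1
  have h2 := ((differentiableAt_const (1 : ℂ)).add h0).clog h.2
  exact ((differentiableAt_id.sub (h1.const_mul _)).sub (h2.const_mul _)).cexp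

theorem Conf_bound (hβ : 0 < β) (b : ℝ) {w0 : ℂ} (hw : w0 ∈ Conf_U β) :
    ∃ r > 0, ∃ K : ℝ, ∀ w ∈ closedBall w0 r, w ∈ Conf_U β ∧
      ∀ s : ℝ, s ≤ 0 → ‖GG β b (w + s)‖ ≤ K * exp s := by
  obtain ⟨r, hr, hsub⟩ := nhds_basis_closedBall.mem_iff.1 ((Conf_open β).mem_nhds hw)
  let Φ : ℂ × ℝ → ℝ := fun q => q.1.re - (β + b) * log ‖1 - (q.2 : ℂ) * Complex.exp (q.1 / β)‖ -
    (β - b) * log ‖1 + (q.2 : ℂ) * Complex.exp (q.1 / β)‖
  have hc : ContinuousOn Φ (closedBall w0 r ×ˢ Icc 0 1) := by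
    refine (ContinuousOn.sub (by fun_prop) (continuousOn_const.mul ?_)).sub
      (continuousOn_const.mul ?_)
    · refine ContinuousOn.log (by fun_prop) fun q hq => ?_
      exact norm_ne_zero_iff.2
        (Complex.slitPlane_ne_zero (Conf_slit hβ (hsub hq.1) hq.2.1 hq.2.2).1)
    · refine ContinuousOn.log (by fun_prop) fun q hq => ?_
      exact norm_ne_zero_iff.2
        (Complex.slitPlane_ne_zero (Conf_slit hβ (hsub hq.1) hq.2.1 hq.2.2).2)
  obtain ⟨C, hC⟩ := ((isCompact_closedBall w0 r).prod isCompact_Icc).exists_bound_of_continuousOn hc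
  refine ⟨r, hr, exp C, fun w hw => ⟨hsub hw, fun s hs => ?_⟩⟩
  have h1 := hC (w, exp (s / β)) ⟨hw, (exp_pos _).le,
    exp_le_one_iff.2 (div_nonpos_of_nonpos_of_nonneg hs hβ.le)⟩
  have h2 := (le_abs_self _).trans h1
  rw [Conf_norm, Conf_shift, ← exp_add]
  refine exp_le_exp.2 ?_
  simp only [Φ] at h2
  simp only [Complex.add_re, Complex.ofReal_re]
  linarith only [h2]

theorem Conf_exp_int (K : ℝ) : IntegrableOn (fun s : ℝ => K * exp s) (Iio 0) :=
  ((integrableOn_exp_Iic 0).mono_set Iio_subset_Iic_self).const_mul K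

theorem Conf_meas (hβ : 0 < β) (b : ℝ) {w : ℂ} (hw : w ∈ Conf_U β) :
    AEStronglyMeasurable (fun s : ℝ => GG β b (w + s)) (volume.restrict (Iio 0)) := by
  refine ContinuousOn.aestronglyMeasurable (fun s hs => ?_) measurableSet_Iio
  exact ((Conf_diff hβ b (Conf_shift_mem hw (le_of_lt hs))).continuousAt.comp
    (f := fun s : ℝ => w + s) (by fun_prop)).continuousWithinAt

theorem Conf_int (hβ : 0 < β) (b : ℝ) {w : ℂ} (hw : w ∈ Conf_U β) :
    IntegrableOn (fun s : ℝ => GG β b (w + s)) (Iio 0) := by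
  obtain ⟨r, hr, K, hK⟩ := Conf_bound hβ b hw
  refine Integrable.mono' (Conf_exp_int K) (Conf_meas hβ b hw) ?_
  filter_upwards [ae_restrict_mem measurableSet_Iio] with s hs
  exact (hK w (mem_closedBall_self hr.le)).2 s (le_of_lt hs)

theorem Conf_der (hβ : 0 < β) (b : ℝ) {w0 : ℂ} (hw : w0 ∈ Conf_U β) :
    HasDerivAt (FF β b) (GG β b w0) w0 := by
  obtain ⟨r, hr, K, hK⟩ := Conf_bound hβ b hw
  have hd : DifferentiableOn ℂ (GG β b) (Conf_U β) := fun w hw =>
    (Conf_diff hβ b hw).differentiableWithinAt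
  have hr2 : 0 < r / 2 := half_pos hr
  have key := hasDerivAt_integral_of_dominated_loc_of_deriv_le (μ := volume.restrict (Iio (0 : ℝ)))
    (F := fun (w : ℂ) (s : ℝ) => GG β b (w + s)) (x₀ := w0) (s := closedBall w0 (r / 2))
    (F' := fun (w : ℂ) (s : ℝ) => deriv (GG β b) (w + s))
    (bound := fun s => K / (r / 2) * exp s) (closedBall_mem_nhds w0 hr2)
    (by filter_upwards [(Conf_open β).mem_nhds hw] with w hw using Conf_meas hβ b hw)
    (Conf_int hβ b hw)
    (((measurable_deriv (GG β b)).comp (by fun_prop)).aestronglyMeasurable)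
    (by
      filter_upwards [ae_restrict_mem measurableSet_Iio] with s hs w hw
      have hs : s ≤ 0 := le_of_lt hs
      have hsub : ∀ ζ ∈ closedBall (w + s) (r / 2), ζ - s ∈ closedBall w0 r := by
        intro ζ hζ
        rw [mem_closedBall, dist_eq_norm] at hζ hw ⊢
        calc ‖ζ - s - w0‖ = ‖(ζ - (w + s)) + (w - w0)‖ := by ring_nf
          _ ≤ _ := norm_add_le _ _
          _ ≤ r := by linarith only [hw, hζ]
      have h1 := Complex.norm_deriv_le_of_forall_mem_sphere_norm_le (c := w + s) (C := K * exp s)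
        hr2 (hd.diffContOnCl_ball fun ζ hζ => by
          have := Conf_shift_mem (hK _ (hsub ζ hζ)).1 hs
          rwa [sub_add_cancel] at this) fun ζ hζ => by
          have := (hK _ (hsub ζ (sphere_subset_closedBall hζ))).2 s hs
          rwa [sub_add_cancel] at this
      calc _ ≤ _ := h1
        _ = _ := by ring)
    (Conf_exp_int _)
    (by
      filter_upwards [ae_restrict_mem measurableSet_Iio] with s hs w hw
      have h1 := (hK w (closedBall_subset_closedBall (by linarith only [hr]) hw)).1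
      exact (Conf_diff hβ b (Conf_shift_mem h1 (le_of_lt hs))).hasDerivAt.comp_add_const w s)
  have h2 : ∫ s in Iio (0 : ℝ), deriv (GG β b) (w0 + s) = GG β b w0 := by
    rw [← integral_Iic_eq_integral_Iio]
    have := integral_Iic_of_hasDerivAt_of_tendsto' (a := 0) (f := fun s : ℝ => GG β b (w0 + s))
      (f' := fun s : ℝ => deriv (GG β b) (w0 + s)) (m := 0)
      (fun s hs => ((Conf_diff hβ b (Conf_shift_mem hw hs)).hasDerivAt.comp_const_add w0
        s).comp_ofReal)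
      ((integrableOn_Iic_iff_integrableOn_Iio).2 key.1)
      (by
        refine squeeze_zero_norm' (a := fun s => K * exp s) ?_ ?_
        · filter_upwards [eventually_le_atBot 0] with s hs
          exact (hK w0 (mem_closedBall_self hr.le)).2 s hs
        · simpa using tendsto_exp_atBot.const_mul K)
    simpa using this
  rw [← h2]
  exact key.2

theorem Conf_norm_pt (hβ : 0 < β) (b σ t : ℝ) :
    ‖GG β b (σ + (π * β * t : ℝ) * Complex.I)‖ = exp σ * exp (xx β b (σ / β) t / 2) := by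
  have hβ' : (β : ℂ) ≠ 0 := Complex.ofReal_ne_zero.2 hβ.ne'
  have h1 : ((σ : ℂ) + (π * β * t : ℝ) * Complex.I) / β =
      ((σ / β : ℝ) : ℂ) + π * t * Complex.I := by
    push_cast; field_simp
  rw [Conf_norm, h1, ← exp_add]
  congr 1
  simp only [xx, u1, u2, Complex.add_re, Complex.ofReal_re, Complex.mul_re, Complex.I_re,
    Complex.I_im, Complex.ofReal_im]
  ring

theorem norm_GG_sq (hβ : 0 < β) (b : ℝ) (p : ℝ × ℝ) :
    ‖GG β b (pt 1 (π * β) p)‖ ^ 2 = exp (2 * p.1) * WW β b p := by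
  rw [pt, one_mul, Conf_norm_pt hβ, WW, ← exp_add, ← exp_add, sq, ← exp_add]
  congr 1; ring

theorem norm_GG_sq' (hβ : 0 < β) (b : ℝ) (p : ℝ × ℝ) :
    ‖GG β b (pt β (π * β) p)‖ ^ 2 = exp (2 * β * p.1) * exp (xx β b p.1 p.2) := by
  rw [pt, Conf_norm_pt hβ, mul_div_cancel_left₀ _ hβ.ne', ← exp_add, ← exp_add, sq, ← exp_add]
  congr 1; ring

theorem FF_der (hβ : 0 < β) (b : ℝ) {w : ℂ} (hw : w.re < 0) :
    HasDerivAt (FF β b) (GG β b w) w := Conf_der hβ b (Or.inl hw)

theorem GG_cont (hβ : 0 < β) (b : ℝ) : ContinuousOn (GG β b) {w | w.re < 0} := fun _ hw =>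
  (Conf_diff hβ b (Or.inl hw)).continuousAt.continuousWithinAt

theorem GG_ne (β b : ℝ) (w : ℂ) : GG β b w ≠ 0 := Complex.exp_ne_zero _

theorem Conf_ei_mul (x y : ℝ) : ei x * ei y = ei (x + y) := by
  rw [ei, ei, ei, ← Complex.exp_add]; congr 1; push_cast; ring

theorem Conf_ei_re (x : ℝ) : (ei x).re = cos x := Complex.exp_ofReal_mul_I_re x

theorem Conf_ei_im (x : ℝ) : (ei x).im = sin x := Complex.exp_ofReal_mul_I_im x

theorem Conf_ei_zero : ei 0 = 1 := by simp [ei]

theorem Conf_ei_norm (x : ℝ) : ‖ei x‖ = 1 := Complex.norm_exp_ofReal_mul_I x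

theorem Conf_rot (β b : ℝ) (w : ℂ) (x : ℝ) :
    GG β b w * ei (-x) = (‖GG β b w‖ : ℝ) * ei (Conf_A β b w - x) := by
  conv_lhs => rw [Conf_polar]
  rw [mul_assoc, Conf_ei_mul, sub_eq_add_neg]

theorem Conf_pos (hβ : 0 < β) (hβ1 : β ≤ 1 / 16) (hb : |b| ≤ 1 / 16) {w : ℂ} (h0 : w.re ≤ 0)
    (h1 : 0 ≤ w.im) (h2 : w.im ≤ π * β) {x : ℝ} (hx : |x| ≤ π / 16) :
    0 < (GG β b w * ei (-x)).re := by
  rw [Conf_rot, Complex.re_ofReal_mul, Conf_ei_re]
  refine mul_pos (norm_pos_iff.2 (GG_ne β b w)) (cos_pos_of_mem_Ioo ?_)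
  have hz : ‖Complex.exp (w / β)‖ ≤ 1 := by
    rw [Conf_norm_z]; exact exp_le_one_iff.2 (div_nonpos_of_nonpos_of_nonneg h0 hβ.le)
  have hre := abs_le.1 ((Complex.abs_re_le_norm _).trans hz)
  have a1 : |Complex.arg (1 - Complex.exp (w / β))| ≤ π / 2 :=
    Complex.abs_arg_le_pi_div_two_iff.2 (by
      simp only [Complex.sub_re, Complex.one_re]; linarith only [hre, hre.2])
  have a2 : |Complex.arg (1 + Complex.exp (w / β))| ≤ π / 2 :=
    Complex.abs_arg_le_pi_div_two_iff.2 (by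
      simp only [Complex.add_re, Complex.one_re]; linarith only [hre, hre.1])
  have hb' := abs_le.1 hb
  have c1 : |β + b| ≤ 1 / 8 := abs_le.2 ⟨by linarith only [hβ, hβ1, hb'], by linarith only [hβ1, hb']⟩
  have c2 : |β - b| ≤ 1 / 8 := abs_le.2 ⟨by linarith only [hβ, hβ1, hb'], by linarith only [hβ1, hb']⟩
  have d1 : |(β + b) * Complex.arg (1 - Complex.exp (w / β))| ≤ 1 / 8 * (π / 2) := by
    rw [abs_mul]; exact mul_le_mul c1 a1 (abs_nonneg _) (by norm_num)
  have d2 : |(β - b) * Complex.arg (1 + Complex.exp (w / β))| ≤ 1 / 8 * (π / 2) := by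
    rw [abs_mul]; exact mul_le_mul c2 a2 (abs_nonneg _) (by norm_num)
  have e1 := abs_le.1 d1
  have e2 := abs_le.1 d2
  have e3 := abs_le.1 hx
  have e4 : π * β ≤ π * (1 / 16) := mul_le_mul_of_nonneg_left hβ1 pi_pos.le
  have := pi_pos
  constructor <;> simp only [Conf_A] <;> linarith only [h1, e1, e2, e3, this, h2, e4]

theorem Conf_path (hβ : 0 < β) (b : ℝ) {p : ℝ → ℂ} {p' : ℂ} {r : ℝ} (hp : HasDerivAt p p' r)
    (hU : p r ∈ Conf_U β) (c : ℂ) :
    HasDerivAt (fun r => (FF β b (p r) * c).re) ((GG β b (p r) * p' * c).re) r := by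
  have h1 : HasDerivAt (fun r => FF β b (p r)) (GG β b (p r) * p') r := by
    have := ((Conf_der hβ b hU).hasFDerivAt.restrictScalars ℝ).comp_hasDerivAt r hp
    refine HasDerivAt.congr_deriv this ?_
    simp [mul_comm]
  exact Complex.reCLM.hasFDerivAt.comp_hasDerivAt r (h1.mul_const c)

theorem Conf_mvt (hβ : 0 < β) (b : ℝ) (w d c : ℂ)
    (hU : ∀ s : ℝ, 0 ≤ s → s ≤ 1 → w + s * d ∈ Conf_U β) :
    ∃ s : ℝ, 0 < s ∧ s < 1 ∧
      (FF β b (w + d) * c).re - (FF β b w * c).re = (GG β b (w + s * d) * d * c).re := by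
  have hp : ∀ s : ℝ, HasDerivAt (fun s : ℝ => w + s * d) d s := fun s => by
    simpa using ((hasDerivAt_id s).ofReal_comp.mul_const d).const_add w
  obtain ⟨s, hs, h⟩ := exists_hasDerivAt_eq_slope (fun s : ℝ => (FF β b (w + s * d) * c).re)
    (fun s : ℝ => (GG β b (w + s * d) * d * c).re) zero_lt_one
    (fun s hs => (Conf_path hβ b (hp s) (hU s hs.1 hs.2) c).continuousAt.continuousWithinAt)
    (fun s hs => Conf_path hβ b (hp s) (hU s hs.1.le hs.2.le) c)
  refine ⟨s, hs.1, hs.2, ?_⟩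
  rw [h]; simp

theorem FF_inj (hβ : 0 < β) (hβ1 : β ≤ 1 / 16) (hb : |b| ≤ 1 / 16) :
    InjOn (FF β b) {w | w.re < 0 ∧ 0 ≤ w.im ∧ w.im ≤ π * β} := by
  intro w hw w' hw' h
  by_contra hne
  have hd : w' - w ≠ 0 := sub_ne_zero.2 (Ne.symm hne)
  have hm : ∀ s : ℝ, 0 ≤ s → s ≤ 1 → (w + s * (w' - w)).re < 0 ∧ 0 ≤ (w + s * (w' - w)).im ∧
      (w + s * (w' - w)).im ≤ π * β := by
    intro s h0 h1
    simp only [Complex.add_re, Complex.add_im, Complex.re_ofReal_mul, Complex.im_ofReal_mul,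
      Complex.sub_re, Complex.sub_im]
    obtain ⟨a1, a2, a3⟩ := hw
    obtain ⟨b1, b2, b3⟩ := hw'
    refine ⟨?_, by (refine le_of_not_gt fun h_nl => ?_; linarith only [h_nl, hβ, hβ1, h0, b2, h1, a2, mul_pos_of_neg_of_neg (Mathlib.Tactic.Linarith.sub_neg_of_lt hβ) (Mathlib.Tactic.Linarith.sub_neg_of_lt h_nl), mul_nonneg_of_nonpos_of_nonpos (Mathlib.Tactic.Linarith.sub_nonpos_of_le hβ1) (le_of_lt (Mathlib.Tactic.Linarith.sub_neg_of_lt h_nl)), mul_nonneg_of_nonpos_of_nonpos (Mathlib.Tactic.Linarith.sub_nonpos_of_le h0) (Mathlib.Tactic.Linarith.sub_nonpos_of_le b2), mul_nonneg_of_nonpos_of_nonpos (Mathlib.Tactic.Linarith.sub_nonpos_of_le h1) (Mathlib.Tactic.Linarith.sub_nonpos_of_le a2)]), by (refine le_of_not_gt fun h_nl => ?_; linarith only [h_nl, hβ, hβ1, h0, b3, h1, a3, mul_pos_of_neg_of_neg (Mathlib.Tactic.Linarith.sub_neg_of_lt hβ) (Mathlib.Tactic.Linarith.sub_neg_of_lt h_nl), mul_nonneg_of_nonpos_of_nonpos (Mathlib.Tactic.Linarith.sub_nonpos_of_le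 hβ1) (le_of_lt (Mathlib.Tactic.Linarith.sub_neg_of_lt h_nl)), mul_nonneg_of_nonpos_of_nonpos (Mathlib.Tactic.Linarith.sub_nonpos_of_le h0) (Mathlib.Tactic.Linarith.sub_nonpos_of_le b3), mul_nonneg_of_nonpos_of_nonpos (Mathlib.Tactic.Linarith.sub_nonpos_of_le h1) (Mathlib.Tactic.Linarith.sub_nonpos_of_le a3)])⟩
    rcases le_total w.re w'.re with h | h <;> linarith only [hβ, b1, hβ1, h1, h, a1, h0, mul_pos_of_neg_of_neg (Mathlib.Tactic.Linarith.sub_neg_of_lt hβ) (Mathlib.Tactic.Linarith.sub_neg_of_lt b1), mul_nonneg_of_nonpos_of_nonpos (Mathlib.Tactic.Linarith.sub_nonpos_of_le hβ1) (le_of_lt (Mathlib.Tactic.Linarith.sub_neg_of_lt b1)), mul_nonneg_of_nonpos_of_nonpos (Mathlib.Tactic.Linarith.sub_nonpos_of_le h1) (Mathlib.Tactic.Linarith.sub_nonpos_of_le h), mul_pos_of_neg_of_neg (Mathlib.Tactic.Linarith.sub_neg_of_lt hβ) (Mathlib.Tactic.Linarith.sub_neg_of_lt a1), mul_nonneg_of_nonpos_of_nonpos (Mathlib.Tactic.Linarith.sub_nonpos_of_le hβ1)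 (le_of_lt (Mathlib.Tactic.Linarith.sub_neg_of_lt a1)), mul_nonneg_of_nonpos_of_nonpos (Mathlib.Tactic.Linarith.sub_nonpos_of_le h0) (Mathlib.Tactic.Linarith.sub_nonpos_of_le h)]
  obtain ⟨s, h0, h1, h2⟩ := Conf_mvt hβ b w (w' - w) (w' - w)⁻¹
    fun s h0 h1 => Or.inl (hm s h0 h1).1
  rw [add_sub_cancel, ← h, sub_self, mul_assoc, mul_inv_cancel₀ hd] at h2
  obtain ⟨a1, a2, a3⟩ := hm s h0.le h1.le
  have := Conf_pos hβ hβ1 hb a1.le a2 a3 (x := 0) (by rw [abs_zero]; positivity)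
  rw [neg_zero, Conf_ei_zero] at this
  linarith only [h2, this]

theorem Conf_GG_bot (hβ : 0 < β) (b : ℝ) {σ : ℝ} (hσ : σ < 0) :
    GG β b σ = (exp σ * he β b σ : ℝ) := by
  have h1 := Conf_norm_pt hβ b σ 0
  simp only [mul_zero, Complex.ofReal_zero, zero_mul, add_zero] at h1
  have h2 : exp (σ / β) < 1 := exp_lt_one_iff.2 (div_neg_of_neg_of_pos hσ hβ)
  have h3 : Complex.exp (σ / β) = (exp (σ / β) : ℝ) := by push_cast; rfl
  have h4 : Conf_A β b σ = 0 := by
    rw [Conf_A, h3, ← Complex.ofReal_one, ← Complex.ofReal_sub, ← Complex.ofReal_add,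
      Complex.arg_ofReal_of_nonneg (by linarith only [h2]),
      Complex.arg_ofReal_of_nonneg (by positivity)]
    simp
  rw [Conf_polar, h1, h4, Conf_ei_zero, mul_one, he]

theorem Conf_per_z (hβ : 0 < β) (w : ℂ) :
    Complex.exp ((w + (π * β : ℝ) * Complex.I) / β) = -Complex.exp (w / β) := by
  have hβ' : (β : ℂ) ≠ 0 := Complex.ofReal_ne_zero.2 hβ.ne'
  have : (w + (π * β : ℝ) * Complex.I) / β = w / β + π * Complex.I := by
    push_cast; field_simp
  rw [this, Complex.exp_add, Complex.exp_pi_mul_I]; ring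

theorem Conf_per (hβ : 0 < β) (b : ℝ) (w : ℂ) :
    GG β b (w + (π * β : ℝ) * Complex.I) = ei (π * β) * GG β (-b) w := by
  rw [GG, GG, Conf_per_z hβ, ei, ← Complex.exp_add, sub_neg_eq_add, ← sub_eq_add_neg 1]
  congr 1
  push_cast
  ring

theorem Conf_FF_per (hβ : 0 < β) (b : ℝ) (w : ℂ) :
    FF β b (w + (π * β : ℝ) * Complex.I) = ei (π * β) * FF β (-b) w := by
  rw [FF, FF, ← integral_const_mul]
  congr 1
  funext s
  rw [add_right_comm, Conf_per hβ]

theorem Conf_FF_bot (hβ : 0 < β) (b : ℝ) {σ : ℝ} (hσ : σ < 0) :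
    FF β b σ = (exp σ * ke β b σ : ℝ) := by
  rw [FF, ke, ← integral_const_mul, ← integral_complex_ofReal]
  refine setIntegral_congr_fun measurableSet_Iio fun s hs => ?_
  have hs : s < 0 := hs
  rw [← Complex.ofReal_add, Conf_GG_bot hβ b (by linarith), exp_add, mul_assoc]

theorem ke_pos (hβ : 0 < β) (b : ℝ) {σ : ℝ} (hσ : σ < 0) : 0 < ke β b σ := by
  have hi : IntegrableOn (fun s : ℝ => exp s * he β b (σ + s)) (Iio 0) := by
    have h1 := ((Conf_int hβ b (w := σ) (Or.inl hσ)).norm).const_mul (exp (-σ))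
    refine h1.congr ?_
    filter_upwards [ae_restrict_mem measurableSet_Iio] with s hs
    have hs : s < 0 := hs
    have h2 : 0 < he β b (σ + s) := exp_pos _
    rw [← Complex.ofReal_add, Conf_GG_bot hβ b (by linarith), Complex.norm_real,
      Real.norm_of_nonneg (by positivity), ← mul_assoc, ← exp_add]
    congr 2; ring
  have hp : ∀ s : ℝ, 0 < exp s * he β b (σ + s) := fun s => mul_pos (exp_pos _) (exp_pos _)
  rw [ke, setIntegral_pos_iff_support_of_nonneg_ae (Eventually.of_forall fun s => (hp s).le) hi]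
  have : (Function.support fun s : ℝ => exp s * he β b (σ + s)) = univ :=
    eq_univ_of_forall fun s => (hp s).ne'
  rw [this, univ_inter]
  simp

theorem Conf_exp_SS (hβ : 0 < β) (b : ℝ) {σ : ℝ} (hσ : σ < 0) :
    exp (SS β b σ) = exp σ * ke β b σ := by
  rw [SS, exp_add, exp_log (ke_pos hβ b hσ)]

theorem FF_bot (hβ : 0 < β) (b : ℝ) {σ : ℝ} (hσ : σ < 0) :
    FF β b σ = (exp (SS β b σ) : ℝ) := by
  rw [Conf_FF_bot hβ b hσ, Conf_exp_SS hβ b hσ]

theorem FF_top (hβ : 0 < β) (b : ℝ) {σ : ℝ} (hσ : σ < 0) :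
    FF β b (σ + (π * β : ℝ) * Complex.I) = ei (π * β) * (exp (SS β (-b) σ) : ℝ) := by
  rw [Conf_FF_per hβ, FF_bot hβ (-b) hσ]

theorem FF_per (hβ : 0 < β) (w : ℂ) :
    FF β 0 (w + (π * β : ℝ) * Complex.I) = ei (π * β) * FF β 0 w := by
  rw [Conf_FF_per hβ, neg_zero]

theorem SS_der (hβ : 0 < β) (b : ℝ) {σ : ℝ} (hσ : σ < 0) :
    HasDerivAt (SS β b) (he β b σ / ke β b σ) σ := by
  have h1 := Conf_path hβ b (p := fun r : ℝ => (r : ℂ)) (hasDerivAt_id σ).ofReal_comp
    (Or.inl hσ) 1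
  simp only [mul_one, Complex.ofReal_one] at h1
  have h2 : (FF β b σ).re = exp σ * ke β b σ := by rw [Conf_FF_bot hβ b hσ, Complex.ofReal_re]
  have hk := ke_pos hβ b hσ
  have h3 := h1.log (by rw [h2]; positivity)
  rw [h2, Conf_GG_bot hβ b hσ, Complex.ofReal_re,
    mul_div_mul_left _ _ (exp_pos σ).ne'] at h3
  refine h3.congr_of_eventuallyEq ?_
  filter_upwards [Iio_mem_nhds hσ] with x hx
  rw [FF_bot hβ b hx, Complex.ofReal_re, log_exp]

theorem Conf_gam (hβ : 0 < β) (hβ1 : β ≤ 1 / 16) (hb : |b| ≤ 1 / 16) :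
    |π * (β + b) / 2| ≤ π / 16 := by
  have hb' := abs_le.1 hb
  have := pi_pos
  exact abs_le.2 ⟨by (refine le_of_not_gt fun h_nl => ?_; linarith only [h_nl, hβ, this, hβ1, hb', mul_pos_of_neg_of_neg (Mathlib.Tactic.Linarith.sub_neg_of_lt hβ) (Mathlib.Tactic.Linarith.sub_neg_of_lt this), mul_pos_of_neg_of_neg (Mathlib.Tactic.Linarith.sub_neg_of_lt hβ) (Mathlib.Tactic.Linarith.sub_neg_of_lt h_nl), mul_nonneg_of_nonpos_of_nonpos (Mathlib.Tactic.Linarith.sub_nonpos_of_le hβ1) (le_of_lt (Mathlib.Tactic.Linarith.sub_neg_of_lt this)), mul_nonneg_of_nonpos_of_nonpos (Mathlib.Tactic.Linarith.sub_nonpos_of_le hβ1) (le_of_lt (Mathlib.Tactic.Linarith.sub_neg_of_lt h_nl)), mul_nonneg_of_nonpos_of_nonpos (Mathlib.Tactic.Linarith.sub_nonpos_of_le hb'.left) (le_of_lt (Mathlib.Tactic.Linarith.sub_neg_of_lt this))]), by (refine le_of_not_gt fun h_nl => ?_; linarith only [h_nl, hβ, hβ1, this, hb', mul_pos_of_neg_of_neg (Mathlib.Tactic.Linarith.sub_neg_of_lt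 hβ) (Mathlib.Tactic.Linarith.sub_neg_of_lt h_nl), mul_nonneg_of_nonpos_of_nonpos (Mathlib.Tactic.Linarith.sub_nonpos_of_le hβ1) (le_of_lt (Mathlib.Tactic.Linarith.sub_neg_of_lt this)), mul_nonneg_of_nonpos_of_nonpos (Mathlib.Tactic.Linarith.sub_nonpos_of_le hβ1) (le_of_lt (Mathlib.Tactic.Linarith.sub_neg_of_lt h_nl)), mul_nonneg_of_nonpos_of_nonpos (Mathlib.Tactic.Linarith.sub_nonpos_of_le hb'.right) (le_of_lt (Mathlib.Tactic.Linarith.sub_neg_of_lt this))])⟩

theorem Conf_A_edge (hβ : 0 < β) (b : ℝ) {t : ℝ} (h0 : 0 < t) (h1 : t < π * β) :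
    Conf_A β b (t * Complex.I) = π * (β + b) / 2 := by
  have hβ' : (β : ℂ) ≠ 0 := Complex.ofReal_ne_zero.2 hβ.ne'
  obtain ⟨φ, rfl⟩ : ∃ φ : ℝ, t = 2 * φ * β := ⟨t / (2 * β), by field_simp⟩
  have p0 : 0 < φ := by (refine lt_of_not_ge fun h_nl => ?_; linarith only [h_nl, h0, hβ, mul_nonneg_of_nonpos_of_nonpos (le_of_lt (Mathlib.Tactic.Linarith.sub_neg_of_lt hβ)) (Mathlib.Tactic.Linarith.sub_nonpos_of_le h_nl)])
  have p1 : φ < π / 2 := by (refine lt_of_not_ge fun h_nl => ?_; linarith only [h_nl, h1, hβ, mul_nonneg_of_nonpos_of_nonpos (le_of_lt (Mathlib.Tactic.Linarith.sub_neg_of_lt hβ)) (Mathlib.Tactic.Linarith.sub_nonpos_of_le h_nl)])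
  have hz : Complex.exp (((2 * φ * β : ℝ) : ℂ) * Complex.I / β) =
      ((cos φ : ℝ) + (sin φ : ℝ) * Complex.I) ^ 2 := by
    have : ((2 * φ * β : ℝ) : ℂ) * Complex.I / β = φ * Complex.I + φ * Complex.I := by
      push_cast; field_simp; ring
    rw [this, Complex.exp_add, Complex.exp_mul_I, sq]
    push_cast; rfl
  have hs := sin_sq_add_cos_sq φ
  have a1 : Complex.arg (1 - ((cos φ : ℝ) + (sin φ : ℝ) * Complex.I) ^ 2) = φ - π / 2 := by
    have := Complex.arg_mul_cos_add_sin_mul_I (r := 2 * sin φ) (θ := φ - π / 2)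
      (mul_pos two_pos (sin_pos_of_pos_of_lt_pi p0 (by linarith only [p0, p1]))) ⟨by linarith only [p0, p1], by linarith only [p0, p1]⟩
    rw [← this, ← Complex.ofReal_cos, ← Complex.ofReal_sin, cos_sub_pi_div_two, sin_sub_pi_div_two]
    congr 1
    apply Complex.ext
    · simp only [sq, Complex.sub_re, Complex.mul_re, Complex.add_re, Complex.add_im,
        Complex.mul_im, Complex.ofReal_re, Complex.ofReal_im, Complex.I_re, Complex.I_im,
        Complex.one_re]
      nlinarith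
    · simp only [sq, Complex.sub_im, Complex.mul_re, Complex.add_re, Complex.add_im,
        Complex.mul_im, Complex.ofReal_re, Complex.ofReal_im, Complex.I_re, Complex.I_im,
        Complex.one_im]
      ring
  have a2 : Complex.arg (1 + ((cos φ : ℝ) + (sin φ : ℝ) * Complex.I) ^ 2) = φ := by
    have := Complex.arg_mul_cos_add_sin_mul_I (r := 2 * cos φ) (θ := φ)
      (mul_pos two_pos (cos_pos_of_mem_Ioo ⟨by linarith only [p0, p1], p1⟩)) ⟨by linarith only [p0, p1], by linarith only [p0, p1]⟩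
    conv_rhs => rw [← this, ← Complex.ofReal_cos, ← Complex.ofReal_sin]
    congr 1
    apply Complex.ext
    · simp only [sq, Complex.mul_re, Complex.add_re, Complex.add_im,
        Complex.mul_im, Complex.ofReal_re, Complex.ofReal_im, Complex.I_re, Complex.I_im,
        Complex.one_re]
      nlinarith
    · simp only [sq, Complex.mul_re, Complex.add_re, Complex.add_im,
        Complex.mul_im, Complex.ofReal_re, Complex.ofReal_im, Complex.I_re, Complex.I_im,
        Complex.one_im]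
      ring
  rw [Conf_A, hz, a1, a2]
  simp only [Complex.mul_im, Complex.ofReal_re, Complex.ofReal_im, Complex.I_re, Complex.I_im]
  ring

theorem Conf_edge_eq (hβ : 0 < β) (b : ℝ) {t : ℝ} (h0 : 0 < t) (h1 : t < π * β) :
    (FF β b (t * Complex.I) * ei (-(π * (β + b) / 2))).re = hh β b := by
  have hθ : 0 < π * β := mul_pos pi_pos hβ
  have hm : ∀ s : ℝ, 0 ≤ s → s ≤ 1 → 0 < t + s * (π * β / 2 - t) ∧
      t + s * (π * β / 2 - t) < π * β := by
    intro s a0 a1
    rcases le_total t (π * β / 2) with h | h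
    · constructor <;> linarith only [h0, a1, h1, a0, mul_nonneg_of_nonpos_of_nonpos (le_of_lt (Mathlib.Tactic.Linarith.sub_neg_of_lt h0)) (Mathlib.Tactic.Linarith.sub_nonpos_of_le a1), mul_nonneg_of_nonpos_of_nonpos (le_of_lt (Mathlib.Tactic.Linarith.sub_neg_of_lt h1)) (Mathlib.Tactic.Linarith.sub_nonpos_of_le a0), mul_nonneg_of_nonpos_of_nonpos (le_of_lt (Mathlib.Tactic.Linarith.sub_neg_of_lt h0)) (Mathlib.Tactic.Linarith.sub_nonpos_of_le a0), mul_nonneg_of_nonpos_of_nonpos (le_of_lt (Mathlib.Tactic.Linarith.sub_neg_of_lt h1)) (Mathlib.Tactic.Linarith.sub_nonpos_of_le a1)]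
    · constructor <;> linarith only [h0, a1, h1, a0, mul_nonneg_of_nonpos_of_nonpos (le_of_lt (Mathlib.Tactic.Linarith.sub_neg_of_lt h0)) (Mathlib.Tactic.Linarith.sub_nonpos_of_le a1), mul_nonneg_of_nonpos_of_nonpos (le_of_lt (Mathlib.Tactic.Linarith.sub_neg_of_lt h1)) (Mathlib.Tactic.Linarith.sub_nonpos_of_le a0), mul_nonneg_of_nonpos_of_nonpos (le_of_lt (Mathlib.Tactic.Linarith.sub_neg_of_lt h0)) (Mathlib.Tactic.Linarith.sub_nonpos_of_le a0), mul_nonneg_of_nonpos_of_nonpos (le_of_lt (Mathlib.Tactic.Linarith.sub_neg_of_lt h1)) (Mathlib.Tactic.Linarith.sub_nonpos_of_le a1)]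
  have he : ∀ s : ℝ, (t : ℂ) * Complex.I + s * (((π * β / 2 - t : ℝ) : ℂ) * Complex.I) =
      ((t + s * (π * β / 2 - t) : ℝ) : ℂ) * Complex.I := fun s => by push_cast; ring
  obtain ⟨s, s0, s1, h⟩ := Conf_mvt hβ b (t * Complex.I) (((π * β / 2 - t : ℝ) : ℂ) * Complex.I)
    (ei (-(π * (β + b) / 2))) fun s a0 a1 => by
      rw [he]; right; simpa using hm s a0 a1
  have h2 : (t : ℂ) * Complex.I + ((π * β / 2 - t : ℝ) : ℂ) * Complex.I =
      ((π * β / 2 : ℝ) : ℂ) * Complex.I := by push_cast; ring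
  obtain ⟨b0, b1⟩ := hm s s0.le s1.le
  rw [h2, he, mul_right_comm, Conf_rot, Conf_A_edge hβ b b0 b1, sub_self, Conf_ei_zero] at h
  simp only [mul_one, Complex.re_ofReal_mul, Complex.I_re, mul_zero] at h
  rw [hh]; linarith only [h]

theorem Conf_closure (hβ : 0 < β) (b : ℝ) {σ : ℝ} (hσ : σ < 0) (c : ℂ) :
    ContinuousOn (fun t : ℝ => (FF β b (σ + t * Complex.I) * c).re) (closure (Ioo 0 (π * β))) :=
  fun t _ => (Conf_path hβ b (p := fun t : ℝ => (σ : ℂ) + t * Complex.I)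
    (((hasDerivAt_id t).ofReal_comp.mul_const Complex.I).const_add (σ : ℂ))
    (Or.inl (by simpa using hσ)) c).continuousAt.continuousWithinAt

theorem Conf_horiz (hβ : 0 < β) (hβ1 : β ≤ 1 / 16) (hb : |b| ≤ 1 / 16) {σ σ' t : ℝ}
    (h : σ < σ') (h' : σ' ≤ 0) (h1 : 0 ≤ t) (h2 : t ≤ π * β)
    (hU : (σ' : ℂ) + t * Complex.I ∈ Conf_U β) {x : ℝ} (hx : |x| ≤ π / 16) :
    (FF β b (σ + t * Complex.I) * ei (-x)).re < (FF β b (σ' + t * Complex.I) * ei (-x)).re := by
  have he : ∀ s : ℝ, (σ : ℂ) + t * Complex.I + s * ((σ' - σ : ℝ) : ℂ) =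
      σ' + t * Complex.I + ((s - 1) * (σ' - σ) : ℝ) := fun s => by push_cast; ring
  obtain ⟨s, s0, s1, h3⟩ := Conf_mvt hβ b (σ + t * Complex.I) ((σ' - σ : ℝ) : ℂ) (ei (-x))
    fun s _ a1 => by rw [he]; exact Conf_shift_mem hU (by (refine le_of_not_gt fun h_nl => ?_; linarith only [h_nl, hβ, hβ1, h, a1, mul_pos_of_neg_of_neg (Mathlib.Tactic.Linarith.sub_neg_of_lt hβ) (Mathlib.Tactic.Linarith.sub_neg_of_lt h_nl), mul_nonneg_of_nonpos_of_nonpos (Mathlib.Tactic.Linarith.sub_nonpos_of_le hβ1) (le_of_lt (Mathlib.Tactic.Linarith.sub_neg_of_lt h_nl)), mul_nonneg_of_nonpos_of_nonpos (le_of_lt (Mathlib.Tactic.Linarith.sub_neg_of_lt h)) (Mathlib.Tactic.Linarith.sub_nonpos_of_le a1)]))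
  have h4 : (σ : ℂ) + t * Complex.I + ((σ' - σ : ℝ) : ℂ) = σ' + t * Complex.I := by
    push_cast; ring
  have h5 := Conf_pos hβ hβ1 hb (w := σ + t * Complex.I + s * ((σ' - σ : ℝ) : ℂ))
    (by simp; (refine le_of_not_gt fun h_nl => ?_; linarith only [h_nl, h', hβ, hβ1, h, s1, mul_pos_of_neg_of_neg (Mathlib.Tactic.Linarith.sub_neg_of_lt hβ) (Mathlib.Tactic.Linarith.sub_neg_of_lt h_nl), mul_nonneg_of_nonpos_of_nonpos (Mathlib.Tactic.Linarith.sub_nonpos_of_le hβ1) (le_of_lt (Mathlib.Tactic.Linarith.sub_neg_of_lt h_nl)), mul_pos_of_neg_of_neg (Mathlib.Tactic.Linarith.sub_neg_of_lt h) (Mathlib.Tactic.Linarith.sub_neg_of_lt s1)])) (by simpa using h1) (by simpa using h2) hx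
  rw [h4, mul_right_comm, Complex.re_mul_ofReal] at h3
  have := mul_pos h5 (sub_pos.2 h)
  linarith only [h3, this]

theorem Conf_third (hβ : 0 < β) (hβ1 : β ≤ 1 / 16) (hb : |b| ≤ 1 / 16) {w : ℂ} (h0 : w.re < 0)
    (h1 : 0 ≤ w.im) (h2 : w.im ≤ π * β) :
    (FF β b w * ei (-(π * (β + b) / 2))).re < hh β b := by
  have hθ : 0 < π * β := mul_pos pi_pos hβ
  have hγ := Conf_gam hβ hβ1 hb
  have h3 : (FF β b ((w.re / 2 : ℝ) + w.im * Complex.I) * ei (-(π * (β + b) / 2))).re ≤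
      hh β b := by
    refine le_on_closure (s := Ioo 0 (π * β))
      (f := fun t : ℝ => (FF β b ((w.re / 2 : ℝ) + t * Complex.I) * ei (-(π * (β + b) / 2))).re)
      (g := fun _ => hh β b) (fun t ht => ?_) (Conf_closure hβ b (by linarith only [h0]) _)
      continuousOn_const (by rw [closure_Ioo hθ.ne]; exact ⟨h1, h2⟩)
    have := Conf_horiz hβ hβ1 hb (σ := w.re / 2) (σ' := 0) (by linarith only [h0]) le_rfl ht.1.le ht.2.le
      (Or.inr (by simpa using ht)) hγ
    rw [Complex.ofReal_zero, zero_add, Conf_edge_eq hβ b ht.1 ht.2] at this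
    exact this.le
  have h4 := Conf_horiz hβ hβ1 hb (σ := w.re) (σ' := w.re / 2) (by linarith only [h0]) (by linarith only [h0]) h1 h2
    (Or.inl (by simp; linarith only [h0])) hγ
  rw [Complex.re_add_im] at h4
  linarith only [h3, h4]

theorem Conf_vert (hβ : 0 < β) (hβ1 : β ≤ 1 / 16) (hb : |b| ≤ 1 / 16) {σ t t' : ℝ}
    (h : t < t') (h' : σ < 0) (h1 : 0 ≤ t) (h2 : t' ≤ π * β) {x : ℝ} (hx : |x| ≤ π / 16) :
    (FF β b (σ + t * Complex.I) * ei (-x)).im < (FF β b (σ + t' * Complex.I) * ei (-x)).im := by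
  have he : ∀ s : ℝ, (σ : ℂ) + t * Complex.I + s * (((t' - t : ℝ) : ℂ) * Complex.I) =
      σ + (t + s * (t' - t) : ℝ) * Complex.I := fun s => by push_cast; ring
  obtain ⟨s, s0, s1, h3⟩ := Conf_mvt hβ b (σ + t * Complex.I) (((t' - t : ℝ) : ℂ) * Complex.I)
    (ei (-x) * -Complex.I) fun s _ _ => by rw [he]; left; simpa using h'
  have h4 : (σ : ℂ) + t * Complex.I + ((t' - t : ℝ) : ℂ) * Complex.I = σ + t' * Complex.I := by
    push_cast; ring
  have h5 := Conf_pos hβ hβ1 hb (w := σ + (t + s * (t' - t) : ℝ) * Complex.I)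
    (by simpa using h'.le) (by simp; (refine le_of_not_gt fun h_nl => ?_; linarith only [h_nl, h1, hβ, hβ1, h, s0, mul_pos_of_neg_of_neg (Mathlib.Tactic.Linarith.sub_neg_of_lt hβ) (Mathlib.Tactic.Linarith.sub_neg_of_lt h_nl), mul_nonneg_of_nonpos_of_nonpos (Mathlib.Tactic.Linarith.sub_nonpos_of_le hβ1) (le_of_lt (Mathlib.Tactic.Linarith.sub_neg_of_lt h_nl)), mul_pos_of_neg_of_neg (Mathlib.Tactic.Linarith.sub_neg_of_lt h) (Mathlib.Tactic.Linarith.sub_neg_of_lt s0)])) (by simp; (refine le_of_not_gt fun h_nl => ?_; linarith only [h_nl, h2, hβ, hβ1, h, s1, mul_pos_of_neg_of_neg (Mathlib.Tactic.Linarith.sub_neg_of_lt hβ) (Mathlib.Tactic.Linarith.sub_neg_of_lt h_nl), mul_nonneg_of_nonpos_of_nonpos (Mathlib.Tactic.Linarith.sub_nonpos_of_le hβ1) (le_of_lt (Mathlib.Tactic.Linarith.sub_neg_of_lt h_nl)), mul_pos_of_neg_of_neg (Mathlib.Tactic.Linarith.sub_neg_of_lt h) (Mathlib.Tactic.Linarith.sub_neg_of_lt s1)])) hx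
  have h6 : ∀ u : ℂ, u * (((t' - t : ℝ) : ℂ) * Complex.I) * (ei (-x) * -Complex.I) =
      u * ei (-x) * (t' - t : ℝ) := fun u => by
    linear_combination (-u * ((t' - t : ℝ) : ℂ) * ei (-x)) * Complex.I_mul_I
  have h7 : ∀ u : ℂ, (u * (ei (-x) * -Complex.I)).re = (u * ei (-x)).im := fun u => by
    rw [← mul_assoc, mul_neg, Complex.neg_re, Complex.mul_I_re, neg_neg]
  rw [h4, he, h6, h7, h7, Complex.re_mul_ofReal] at h3
  have := mul_pos h5 (sub_pos.2 h)
  linarith only [h3, this]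

theorem Conf_first (hβ : 0 < β) (hβ1 : β ≤ 1 / 16) (hb : |b| ≤ 1 / 16) {w : ℂ} (h0 : w.re < 0)
    (h1 : 0 < w.im) (h2 : w.im ≤ π * β) : 0 < (FF β b w).im := by
  have := Conf_vert hβ hβ1 hb h1 h0 le_rfl h2 (x := 0) (by rw [abs_zero]; positivity)
  rw [Complex.re_add_im, neg_zero, Conf_ei_zero, mul_one, mul_one, Complex.ofReal_zero, zero_mul,
    add_zero, FF_bot hβ b h0, Complex.ofReal_im] at this
  exact this

theorem Conf_top_im (hβ : 0 < β) (b : ℝ) {σ : ℝ} (hσ : σ < 0) :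
    (FF β b (σ + (π * β : ℝ) * Complex.I) * ei (-(π * β))).im = 0 := by
  rw [FF_top hβ b hσ, mul_right_comm, Conf_ei_mul, add_neg_cancel, Conf_ei_zero, one_mul,
    Complex.ofReal_im]

theorem Conf_second (hβ : 0 < β) (hβ1 : β ≤ 1 / 16) (hb : |b| ≤ 1 / 16) {w : ℂ} (h0 : w.re < 0)
    (h1 : 0 ≤ w.im) (h2 : w.im < π * β) : (FF β b w * ei (-(π * β))).im < 0 := by
  have hθ : 0 < π * β := mul_pos pi_pos hβ
  have := Conf_vert hβ hβ1 hb h2 h0 h1 le_rfl (x := π * β)
    (by rw [abs_of_pos hθ]; (refine le_of_not_gt fun h_nl => ?_; linarith only [h_nl, hβ, hβ1, h1, h2, pi_pos, mul_pos_of_neg_of_neg (Mathlib.Tactic.Linarith.sub_neg_of_lt hβ) (Mathlib.Tactic.Linarith.sub_neg_of_lt h_nl), mul_nonneg_of_nonpos_of_nonpos (Mathlib.Tactic.Linarith.sub_nonpos_of_le hβ1) (Mathlib.Tactic.Linarith.sub_nonpos_of_le h1), mul_nonneg_of_nonpos_of_nonpos (Mathlib.Tactic.Linarith.sub_nonpos_of_le hβ1) (le_of_lt (Mathlib.Tactic.Linarith.sub_neg_of_lt h2))]))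
  rwa [Complex.re_add_im, Conf_top_im hβ b h0] at this

theorem FF_lt (hβ : 0 < β) (hβ1 : β ≤ 1 / 16) (hb : |b| ≤ 1 / 16) {w : ℂ} (h0 : w.re < 0)
    (h1 : 0 ≤ w.im) (h2 : w.im ≤ π * β) :
    0 ≤ (FF β b w).im ∧ (FF β b w * ei (-(π * β))).im ≤ 0 ∧
      (FF β b w * ei (-(π * (β + b) / 2))).re < hh β b := by
  refine ⟨?_, ?_, Conf_third hβ hβ1 hb h0 h1 h2⟩
  · rcases h1.eq_or_lt with h | h
    · have : w = (w.re : ℂ) := by apply Complex.ext <;> simp [← h]
      rw [this, FF_bot hβ b h0, Complex.ofReal_im]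
    · exact (Conf_first hβ hβ1 hb h0 h h2).le
  · rcases h2.eq_or_lt with h | h
    · have := Conf_top_im hβ b h0
      rw [← h, Complex.re_add_im, h] at this
      exact this.le
    · exact (Conf_second hβ hβ1 hb h0 h1 h).le

theorem hh_pos (hβ : 0 < β) (hβ1 : β ≤ 1 / 16) (hb : |b| ≤ 1 / 16) : 0 < hh β b := by
  have hθ : 0 < π * β := mul_pos pi_pos hβ
  have h := Conf_third hβ hβ1 hb (w := ((-1 : ℝ) : ℂ)) (by simp) (by simp) (by simpa using hθ.le)
  rw [FF_bot hβ b (by norm_num), Complex.re_ofReal_mul, Conf_ei_re] at h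
  have h1 := abs_le.1 (Conf_gam hβ hβ1 hb)
  have := pi_pos
  exact (mul_pos (exp_pos _) (cos_pos_of_mem_Ioo ⟨by linarith only [h1, this], by linarith only [h1, this]⟩)).trans h

theorem Conf_norm_le (hβ : 0 < β) (hβ1 : β ≤ 1 / 16) (hb : |b| ≤ 1 / 16) {w : ℂ} {m : ℝ}
    (m0 : 0 < m) (m1 : m ≤ 1 / 2) (h : exp (w.re / β) ≤ 1 - m) :
    ‖GG β b w‖ ≤ exp (w.re - log m / 2) := by
  have hz : ‖Complex.exp (w / β)‖ ≤ 1 - m := by rwa [Conf_norm_z]
  have key : ∀ x : ℝ, m ≤ x → x ≤ 2 → |log x| ≤ -log m := by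
    intro x a0 a1
    have b1 : log m ≤ log x := log_le_log m0 a0
    have b2 : log x + log m ≤ 0 := by
      rw [← log_mul (by linarith only [m0, a0]) m0.ne']
      exact log_nonpos (by (refine le_of_not_gt fun h_nl => ?_; linarith only [h_nl, hβ, hβ1, m0, a0, mul_pos_of_neg_of_neg (Mathlib.Tactic.Linarith.sub_neg_of_lt hβ) (Mathlib.Tactic.Linarith.sub_neg_of_lt h_nl), mul_nonneg_of_nonpos_of_nonpos (Mathlib.Tactic.Linarith.sub_nonpos_of_le hβ1) (le_of_lt (Mathlib.Tactic.Linarith.sub_neg_of_lt h_nl)), mul_pos_of_neg_of_neg (Mathlib.Tactic.Linarith.sub_neg_of_lt m0) (Mathlib.Tactic.Linarith.sub_neg_of_lt m0), mul_nonneg_of_nonpos_of_nonpos (le_of_lt (Mathlib.Tactic.Linarith.sub_neg_of_lt m0)) (Mathlib.Tactic.Linarith.sub_nonpos_of_le a0)])) (by (refine le_of_not_gt fun h_nl => ?_; linarith only [h_nl, m1, hβ, hβ1, m0, a1, mul_pos_of_neg_of_neg (Mathlib.Tactic.Linarith.sub_neg_of_lt hβ) (Mathlib.Tactic.Linarith.sub_neg_of_lt h_nl), mul_nonneg_of_nonpos_of_nonpos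 (Mathlib.Tactic.Linarith.sub_nonpos_of_le hβ1) (le_of_lt (Mathlib.Tactic.Linarith.sub_neg_of_lt h_nl)), mul_nonneg_of_nonpos_of_nonpos (le_of_lt (Mathlib.Tactic.Linarith.sub_neg_of_lt m0)) (Mathlib.Tactic.Linarith.sub_nonpos_of_le a1)]))
    exact abs_le.2 ⟨by linarith only [b1], by linarith only [b2]⟩
  have a1 : |log ‖1 - Complex.exp (w / β)‖| ≤ -log m := by
    refine key _ ?_ ?_
    · have := norm_sub_norm_le (1 : ℂ) (Complex.exp (w / β))
      rw [norm_one] at this; linarith only [hz, this]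
    · have := norm_sub_le (1 : ℂ) (Complex.exp (w / β))
      rw [norm_one] at this; linarith only [m0, hz, this]
  have a2 : |log ‖1 + Complex.exp (w / β)‖| ≤ -log m := by
    refine key _ ?_ ?_
    · have := norm_sub_norm_le (1 : ℂ) (-Complex.exp (w / β))
      rw [norm_one, norm_neg, sub_neg_eq_add] at this; linarith only [hz, this]
    · have := norm_add_le (1 : ℂ) (Complex.exp (w / β))
      rw [norm_one] at this; linarith only [m0, hz, this]
  have hb' := abs_le.1 hb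
  have c1 : |β + b| ≤ 1 / 4 := abs_le.2 ⟨by linarith only [hβ, hβ1, hb'], by linarith only [hβ, hβ1, hb']⟩
  have c2 : |β - b| ≤ 1 / 4 := abs_le.2 ⟨by linarith only [hβ, hβ1, hb'], by linarith only [hβ, hβ1, hb']⟩
  have d1 : |(β + b) * log ‖1 - Complex.exp (w / β)‖| ≤ 1 / 4 * -log m := by
    rw [abs_mul]; exact mul_le_mul c1 a1 (abs_nonneg _) (by norm_num)
  have d2 : |(β - b) * log ‖1 + Complex.exp (w / β)‖| ≤ 1 / 4 * -log m := by
    rw [abs_mul]; exact mul_le_mul c2 a2 (abs_nonneg _) (by norm_num)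
  rw [Conf_norm]
  exact exp_le_exp.2 (by linarith only [d1, d2, (abs_le.1 d1).1, (abs_le.1 d2).1])

theorem Conf_norm_edge (hβ : 0 < β) (hβ1 : β ≤ 1 / 16) (hb : |b| ≤ 1 / 16) {w : ℂ} {r : ℝ}
    (r0 : 0 < r) (r1 : r ^ 2 ≤ β) (hw : w.re = -r ^ 2) : ‖GG β b w‖ * r ≤ 1 := by
  have hu0 : 0 < r ^ 2 / β := by positivity
  have hu1 : r ^ 2 / β ≤ 1 := (div_le_one hβ).2 r1
  have h1 : exp (w.re / β) ≤ 1 - r ^ 2 / β / 2 := by
    rw [hw, neg_div, exp_neg, inv_le_iff_one_le_mul₀ (exp_pos _)]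
    have := add_one_le_exp (r ^ 2 / β)
    (refine le_of_not_gt fun h_nl => ?_; linarith only [h_nl, this, hβ, hβ1, hu0, hu1, mul_pos_of_neg_of_neg (Mathlib.Tactic.Linarith.sub_neg_of_lt hβ) (Mathlib.Tactic.Linarith.sub_neg_of_lt h_nl), mul_nonneg_of_nonpos_of_nonpos (Mathlib.Tactic.Linarith.sub_nonpos_of_le hβ1) (le_of_lt (Mathlib.Tactic.Linarith.sub_neg_of_lt h_nl)), mul_nonneg_of_nonpos_of_nonpos (le_of_lt (Mathlib.Tactic.Linarith.sub_neg_of_lt hu0)) (Mathlib.Tactic.Linarith.sub_nonpos_of_le hu1), mul_nonneg_of_nonpos_of_nonpos (Mathlib.Tactic.Linarith.sub_nonpos_of_le hu1) (Mathlib.Tactic.Linarith.sub_nonpos_of_le this)])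
  have h2 := Conf_norm_le hβ hβ1 hb (m := r ^ 2 / β / 2) (by positivity) (by linarith only [hu1]) h1
  have h3 : 2 * log r ≤ log (r ^ 2 / β / 2) := by
    have : log (r ^ 2) = 2 * log r := by rw [log_pow]; norm_num
    rw [← this]
    refine log_le_log (by positivity) ?_
    rw [div_div, le_div_iff₀ (by positivity)]
    linarith only [hβ1, sq_nonneg r, sq_nonneg r, mul_nonneg_of_nonpos_of_nonpos (Mathlib.Tactic.Linarith.sub_nonpos_of_le (sq_nonneg r)) (Mathlib.Tactic.Linarith.sub_nonpos_of_le hβ1)]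
  have h4 : ‖GG β b w‖ ≤ exp (-log r) :=
    h2.trans (exp_le_exp.2 (by rw [hw]; linarith only [h3, sq_nonneg r, sq_nonneg r]))
  rw [exp_neg, exp_log r0] at h4
  calc _ ≤ r⁻¹ * r := mul_le_mul_of_nonneg_right h4 r0.le
    _ = 1 := inv_mul_cancel₀ r0.ne'

theorem Conf_edge_le (hβ : 0 < β) (hβ1 : β ≤ 1 / 16) (hb : |b| ≤ 1 / 16) {r t : ℝ}
    (r0 : 0 < r) (r1 : r ^ 2 ≤ β) (h1 : 0 ≤ t) (h2 : t ≤ π * β) :
    hh β b - 2 * r ≤
      (FF β b ((-r ^ 2 : ℝ) + t * Complex.I) * ei (-(π * (β + b) / 2))).re := by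
  have hθ : 0 < π * β := mul_pos pi_pos hβ
  refine le_on_closure (s := Ioo 0 (π * β)) (f := fun _ => hh β b - 2 * r)
    (g := fun t : ℝ => (FF β b ((-r ^ 2 : ℝ) + t * Complex.I) * ei (-(π * (β + b) / 2))).re)
    (fun t ht => ?_) continuousOn_const (Conf_closure hβ b (by linarith only [r0, mul_pos_of_neg_of_neg (Mathlib.Tactic.Linarith.sub_neg_of_lt r0) (Mathlib.Tactic.Linarith.sub_neg_of_lt r0)]) _)
    (by rw [closure_Ioo hθ.ne]; exact ⟨h1, h2⟩)
  have hp : ∀ x : ℝ, HasDerivAt (fun x : ℝ => ((-x ^ 2 : ℝ) : ℂ) + t * Complex.I)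
      ((-(2 * x) : ℝ) : ℂ) x := fun x => by
    have : HasDerivAt (fun x : ℝ => -x ^ 2) (-(2 * x)) x := by
      simpa using (hasDerivAt_pow 2 x).fun_neg
    exact this.ofReal_comp.add_const _
  have hU : ∀ x : ℝ, ((-x ^ 2 : ℝ) : ℂ) + t * Complex.I ∈ Conf_U β := fun x =>
    Or.inr (by simpa [← Complex.ofReal_pow] using ht)
  obtain ⟨x, hx, h⟩ := exists_hasDerivAt_eq_slope _ _ r0
    (fun x _ => (Conf_path hβ b (hp x) (hU x)
      (ei (-(π * (β + b) / 2)))).continuousAt.continuousWithinAt)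
    (fun x _ => Conf_path hβ b (hp x) (hU x) (ei (-(π * (β + b) / 2))))
  have h3 := Conf_norm_edge hβ hβ1 hb (w := ((-x ^ 2 : ℝ) : ℂ) + t * Complex.I) hx.1
    (by linarith only [r1, r0, hx, hx.1, hx.2, mul_pos_of_neg_of_neg (Mathlib.Tactic.Linarith.sub_neg_of_lt r0) (Mathlib.Tactic.Linarith.sub_neg_of_lt hx.right), mul_pos_of_neg_of_neg (Mathlib.Tactic.Linarith.sub_neg_of_lt hx.left) (Mathlib.Tactic.Linarith.sub_neg_of_lt hx.right)]) (by simp [-Complex.ofReal_pow])
  have h4 := (abs_le.1 (Complex.abs_re_le_norm (GG β b (((-x ^ 2 : ℝ) : ℂ) + t * Complex.I) *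
    ((-(2 * x) : ℝ) : ℂ) * ei (-(π * (β + b) / 2))))).1
  rw [norm_mul, norm_mul, Conf_ei_norm, Complex.norm_real, Real.norm_eq_abs, abs_neg,
    abs_of_pos (by linarith only [hx, hx.1]), h, sub_zero, le_div_iff₀ r0] at h4
  have h5 : ((-(0 : ℝ) ^ 2 : ℝ) : ℂ) + t * Complex.I = t * Complex.I := by simp
  rw [h5, Conf_edge_eq hβ b ht.1 ht.2] at h4
  (refine le_of_not_gt fun h_nl => ?_; linarith only [h_nl, h4, hβ, hβ1, r0, h3, mul_pos_of_neg_of_neg (Mathlib.Tactic.Linarith.sub_neg_of_lt hβ) (Mathlib.Tactic.Linarith.sub_neg_of_lt h_nl), mul_nonneg_of_nonpos_of_nonpos (Mathlib.Tactic.Linarith.sub_nonpos_of_le hβ1) (le_of_lt (Mathlib.Tactic.Linarith.sub_neg_of_lt h_nl)), mul_nonneg_of_nonpos_of_nonpos (le_of_lt (Mathlib.Tactic.Linarith.sub_neg_of_lt r0)) (Mathlib.Tactic.Linarith.sub_nonpos_of_le h3)])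

theorem FF_edge (hβ : 0 < β) (hβ1 : β ≤ 1 / 16) (hb : |b| ≤ 1 / 16) {η : ℝ} (hη : 0 < η) :
    ∃ σ₀ : ℝ, σ₀ < 0 ∧ ∀ w : ℂ, σ₀ < w.re → w.re < 0 → 0 ≤ w.im → w.im ≤ π * β →
      hh β b - η ≤ (FF β b w * ei (-(π * (β + b) / 2))).re := by
  refine ⟨-min β ((η / 2) ^ 2), neg_neg_of_pos (lt_min hβ (by positivity)),
    fun w h0 h1 h2 h3 => ?_⟩
  have a0 : -w.re < min β ((η / 2) ^ 2) := by linarith only [h0]
  have a1 : √(-w.re) ^ 2 = -w.re := sq_sqrt (by linarith only [h1])
  have a2 : √(-w.re) ≤ η / 2 :=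
    (sqrt_le_iff).2 ⟨by positivity, (a0.trans_le (min_le_right _ _)).le⟩
  have := Conf_edge_le hβ hβ1 hb (r := √(-w.re)) (sqrt_pos.2 (by linarith only [h1]))
    (by rw [a1]; exact (a0.trans_le (min_le_left _ _)).le) h2 h3
  rw [a1, neg_neg, Complex.re_add_im] at this
  linarith only [a2, this]

theorem Conf_FF_le (hβ : 0 < β) (hβ1 : β ≤ 1 / 16) (hb : |b| ≤ 1 / 16) {w : ℂ}
    (hw : w.re ≤ -1) : ‖FF β b w‖ ≤ exp (w.re - log (1 / 2) / 2) := by
  have h := norm_integral_le_of_norm_le (μ := volume.restrict (Iio (0 : ℝ)))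
    (f := fun s : ℝ => GG β b (w + s)) (Conf_exp_int (exp (w.re - log (1 / 2) / 2))) (by
      filter_upwards [ae_restrict_mem measurableSet_Iio] with s hs
      have hs : s < 0 := hs
      have h1 : (w + s).re = w.re + s := by simp
      have h2 : exp ((w + s).re / β) ≤ 1 - 1 / 2 := by
        have a1 : (w + s).re / β ≤ -1 := by
          rw [div_le_iff₀ hβ, h1]; linarith only [hβ, hβ1, hw, hs]
        have a2 := add_one_le_exp (1 : ℝ)
        have a3 : exp (-1) ≤ 1 - 1 / 2 := by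
          rw [exp_neg, inv_le_iff_one_le_mul₀ (exp_pos _)]; linarith only [a2]
        exact (exp_le_exp.2 a1).trans a3
      refine (Conf_norm_le hβ hβ1 hb (by norm_num) le_rfl h2).trans_eq ?_
      rw [← exp_add, h1]; congr 1; ring)
  rwa [integral_const_mul, ← integral_Iic_eq_integral_Iio (f := exp), integral_exp_Iic_zero,
    mul_one] at h

theorem Conf_convex (θ γ h : ℝ) : Convex ℝ (Tri θ γ h) := by
  have l1 : IsLinearMap ℝ fun z : ℂ => (z * ei (-θ)).im :=
    ⟨fun x y => by simp [add_mul], fun c x => by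
      rw [smul_mul_assoc, Complex.smul_im]⟩
  have l2 : IsLinearMap ℝ fun z : ℂ => (z * ei (-γ)).re :=
    ⟨fun x y => by rw [add_mul, Complex.add_re], fun c x => by
      rw [smul_mul_assoc, Complex.smul_re]⟩
  exact (convex_halfSpace_im_gt 0).inter
    ((convex_halfSpace_lt l1 0).inter (convex_halfSpace_lt l2 h))

theorem FF_image (hβ : 0 < β) (hβ1 : β ≤ 1 / 16) (hb : |b| ≤ 1 / 16) :
    FF β b '' {w | w.re < 0 ∧ 0 < w.im ∧ w.im < π * β} =
      Tri (π * β) (π * (β + b) / 2) (hh β b) := by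
  have hθ : 0 < π * β := mul_pos pi_pos hβ
  have hsub : FF β b '' {w | w.re < 0 ∧ 0 < w.im ∧ w.im < π * β} ⊆
      Tri (π * β) (π * (β + b) / 2) (hh β b) := by
    rintro _ ⟨w, ⟨h0, h1, h2⟩, rfl⟩
    exact ⟨Conf_first hβ hβ1 hb h0 h1 h2.le, Conf_second hβ hβ1 hb h0 h1.le h2,
      Conf_third hβ hβ1 hb h0 h1.le h2.le⟩
  refine hsub.antisymm ((Conf_convex _ _ _).isPreconnected.subset_of_closure_inter_subset ?_ ?_ ?_)
  · have hD : IsOpen {w : ℂ | w.re < 0 ∧ 0 < w.im ∧ w.im < π * β} :=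
      (isOpen_lt Complex.continuous_re continuous_const).inter
        ((isOpen_lt continuous_const Complex.continuous_im).inter
          (isOpen_lt Complex.continuous_im continuous_const))
    rw [isOpen_iff_mem_nhds]
    rintro _ ⟨w, hw, rfl⟩
    have h1 : HasStrictDerivAt (FF β b) (GG β b w) w :=
      hasStrictDerivAt_of_hasDerivAt_of_continuousAt
        (by filter_upwards [hD.mem_nhds hw] with y hy using FF_der hβ b hy.1)
        (Conf_diff hβ b (Or.inl hw.1)).continuousAt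
    rw [← h1.map_nhds_eq (GG_ne β b w)]
    exact image_mem_map (hD.mem_nhds hw)
  · have hm : ((-1 : ℝ) : ℂ) + (π * β / 2 : ℝ) * Complex.I ∈
        {w : ℂ | w.re < 0 ∧ 0 < w.im ∧ w.im < π * β} := by
      simp only [mem_ofPred_eq, Complex.add_re, Complex.add_im, Complex.ofReal_re,
        Complex.ofReal_im, Complex.mul_re, Complex.mul_im, Complex.I_re, Complex.I_im]
      refine ⟨by norm_num, by linarith only [hθ], by linarith only [hθ]⟩
    exact ⟨_, hsub (mem_image_of_mem _ hm), mem_image_of_mem _ hm⟩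
  · rintro z ⟨hz, z1, z2, z3⟩
    have z0 : 0 < ‖z‖ := norm_pos_iff.2 (by rintro rfl; simp at z1)
    obtain ⟨σ0, hσ0, hedge⟩ := FF_edge hβ hβ1 hb
      (η := (hh β b - (z * ei (-(π * (β + b) / 2))).re) / 2) (by linarith only [z3])
    set σ1 : ℝ := min (-1) (log (‖z‖ / 2) + log (1 / 2) / 2) with hσ1
    let Q : Set ℂ := Icc σ1 σ0 ×ℂ Icc 0 (π * β)
    have hQ : IsCompact Q := isCompact_Icc.reProdIm isCompact_Icc
    have hQc : IsClosed (FF β b '' Q) := (hQ.image_of_continuousOn fun w hw =>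
      (FF_der hβ b (hw.1.2.trans_lt hσ0)).continuousAt.continuousWithinAt).isClosed
    let N : Set ℂ := {ζ | ‖z‖ / 2 < ‖ζ‖ ∧ (ζ * ei (-(π * (β + b) / 2))).re <
      hh β b - (hh β b - (z * ei (-(π * (β + b) / 2))).re) / 2}
    have hN : IsOpen N := (isOpen_lt continuous_const continuous_norm).inter
      (isOpen_lt (Complex.continuous_re.comp (continuous_id.mul continuous_const))
        continuous_const)
    have hzN : z ∈ N := ⟨by linarith only [z0], by linarith only [z3]⟩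
    have h1 : N ∩ FF β b '' {w | w.re < 0 ∧ 0 < w.im ∧ w.im < π * β} ⊆ FF β b '' Q := by
      rintro _ ⟨⟨n1, n2⟩, w, ⟨h0, h1, h2⟩, rfl⟩
      refine ⟨w, ⟨⟨?_, ?_⟩, h1.le, h2.le⟩, rfl⟩
      · by_contra hlt
        have hlt : w.re < σ1 := not_le.1 hlt
        have a1 := Conf_FF_le hβ hβ1 hb (w := w) (hlt.le.trans (min_le_left _ _))
        have a2 : exp (w.re - log (1 / 2) / 2) ≤ ‖z‖ / 2 := by
          rw [← exp_log (half_pos z0)]
          exact exp_le_exp.2 (by linarith only [hlt, hlt.trans_le (min_le_right _ _)])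
        linarith only [n1, a1, a2]
      · by_contra hlt
        have := hedge w (not_le.1 hlt) h0 h1.le h2.le
        linarith only [n2, this]
    obtain ⟨w, ⟨⟨-, w1⟩, w2, w3⟩, rfl⟩ :=
      hQc.closure_subset_iff.2 h1 (hN.inter_closure ⟨hzN, hz⟩)
    have w0 : w.re < 0 := w1.trans_lt hσ0
    refine ⟨w, ⟨w0, lt_of_le_of_ne w2 fun h => ?_, lt_of_le_of_ne w3 fun h => ?_⟩, rfl⟩
    · have : w = (w.re : ℂ) := by apply Complex.ext <;> simp [← h]
      rw [this, FF_bot hβ b w0, Complex.ofReal_im] at z1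
      exact lt_irrefl _ z1
    · have := Conf_top_im hβ b w0
      rw [← h, Complex.re_add_im, h] at this
      exact z2.ne this

end Pool.Agent.Work.MP_267827_an
end

-- merged part: Pool.Agent.Work.MP_267827_an.PS.Barta
section
/-! Lower bounds for right triangles with opening at least `π / 4`, from the ground states of the
square, of the equilateral triangle and of the interval (helper11). -/

set_option autoImplicit false

namespace Pool.Agent.Work.MP_267827_an.PS

open MeasureTheory Set Filter Topology Real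

noncomputable section

/-- the open reference triangle -/
def RT : Set (ℝ × ℝ) := {p | 0 < p.1 ∧ 0 < p.2 ∧ p.1 + p.2 < 1}

/-- the closed reference triangle -/
def RC : Set (ℝ × ℝ) := {p | 0 ≤ p.1 ∧ 0 ≤ p.2 ∧ p.1 + p.2 ≤ 1}

theorem RT_sub : RT ⊆ RC := fun _ h => ⟨h.1.le, h.2.1.le, h.2.2.le⟩

theorem isOpen_RT : IsOpen RT :=
  (isOpen_lt continuous_const continuous_fst).inter
    ((isOpen_lt continuous_const continuous_snd).inter
      (isOpen_lt (continuous_fst.add continuous_snd) continuous_const))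

theorem meas_RT : MeasurableSet RT := isOpen_RT.measurableSet

theorem isCompact_RC : IsCompact RC := by
  have hc : IsClosed RC :=
    (isClosed_le continuous_const continuous_fst).inter
      ((isClosed_le continuous_const continuous_snd).inter
        (isClosed_le (continuous_fst.add continuous_snd) continuous_const))
  refine (isCompact_Icc (a := ((0 : ℝ), (0 : ℝ))) (b := (1, 1))).of_isClosed_subset hc ?_
  rintro p ⟨h1, h2, h3⟩
  exact ⟨⟨h1, h2⟩, ⟨by show p.1 ≤ 1; linarith only [h2, h3], by show p.2 ≤ 1; linarith⟩⟩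

theorem intOn_RT {f : ℝ × ℝ → ℝ} (h : ContinuousOn f RC) : IntegrableOn f RT :=
  (h.integrableOn_compact isCompact_RC).mono_set RT_sub

theorem slice_y {G G' : ℝ × ℝ → ℝ} (hc : ContinuousOn G' RC)
    (hd : ∀ p ∈ RC, HasDerivAt (fun y => G (p.1, y)) (G' p) p.2) :
    ∫ p in RT, G' p = ∫ x in (0 : ℝ)..1, (G (x, 1 - x) - G (x, 0)) := by
  have hi : Integrable (RT.indicator G') (volume.prod volume) :=
    (integrable_indicator_iff meas_RT).2 (intOn_RT hc)
  rw [← integral_indicator meas_RT, Measure.volume_eq_prod, integral_prod _ hi,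
    intervalIntegral.integral_of_le zero_le_one, integral_Ioc_eq_integral_Ioo,
    ← integral_indicator measurableSet_Ioo]
  refine integral_congr_ae (Eventually.of_forall fun x => ?_)
  by_cases hx : x ∈ Ioo (0 : ℝ) 1
  · have h1 : (0 : ℝ) ≤ 1 - x := by linarith [hx.2]
    have hm : ∀ y ∈ uIcc (0 : ℝ) (1 - x), (x, y) ∈ RC := by
      intro y hy
      rw [uIcc_of_le h1] at hy
      exact ⟨hx.1.le, hy.1, by show x + y ≤ 1; linarith [hy.2]⟩
    have e : (fun y => RT.indicator G' (x, y)) = (Ioo 0 (1 - x)).indicator fun y => G' (x, y) := by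
      funext y
      by_cases hy : y ∈ Ioo (0 : ℝ) (1 - x)
      · rw [indicator_of_mem hy, indicator_of_mem]
        exact ⟨hx.1, hy.1, by show x + y < 1; linarith [hy.2]⟩
      · rw [indicator_of_notMem hy, indicator_of_notMem]
        rintro ⟨-, a, b⟩
        exact hy ⟨a, by have : x + y < 1 := b; linarith⟩
    simp only [indicator_of_mem hx]
    rw [e, integral_indicator measurableSet_Ioo, ← integral_Ioc_eq_integral_Ioo,
      ← intervalIntegral.integral_of_le h1]
    refine intervalIntegral.integral_eq_sub_of_hasDerivAt (f := fun y => G (x, y))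
      (fun y hy => hd (x, y) (hm y hy)) ?_
    exact (hc.comp (by fun_prop) hm).intervalIntegrable
  · simp only [indicator_of_notMem hx]
    have e : (fun y => RT.indicator G' (x, y)) = fun _ => 0 := by
      funext y
      rw [indicator_of_notMem]
      rintro ⟨a, b, c⟩
      exact hx ⟨a, by have : x + y < 1 := c; have : 0 < y := b; linarith⟩
    rw [e, integral_zero]

theorem slice_x {F F' : ℝ × ℝ → ℝ} (hc : ContinuousOn F' RC)
    (hd : ∀ p ∈ RC, HasDerivAt (fun x => F (x, p.2)) (F' p) p.1) :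
    ∫ p in RT, F' p = ∫ y in (0 : ℝ)..1, (F (1 - y, y) - F (0, y)) := by
  have sw : ∀ p ∈ RC, p.swap ∈ RC := fun p h =>
    ⟨h.2.1, h.1, by have := h.2.2; show p.2 + p.1 ≤ 1; linarith⟩
  have h := slice_y (G := fun p => F p.swap) (G' := fun p => F' p.swap)
    (hc.comp continuous_swap.continuousOn sw) fun p hp => hd p.swap (sw p hp)
  have e : Prod.swap ⁻¹' RT = RT := by
    ext p
    simp only [RT, mem_preimage, mem_ofPred_eq, Prod.fst_swap, Prod.snd_swap]
    constructor <;> rintro ⟨a, b, c⟩ <;> exact ⟨b, a, by linarith only [c]⟩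
  have h2 := (Measure.measurePreserving_swap (μ := (volume : Measure ℝ))
    (ν := (volume : Measure ℝ))).setIntegral_preimage_emb
      MeasurableEquiv.prodComm.measurableEmbedding F' RT
  rw [e] at h2
  exact h2.symm.trans h

/-- a function with continuous derivatives in both variables on the closed triangle -/
structure Fld (P Px Py : ℝ × ℝ → ℝ) : Prop where
  c : ContinuousOn P RC
  cx : ContinuousOn Px RC
  cy : ContinuousOn Py RC
  dx : ∀ p ∈ RC, HasDerivAt (fun x => P (x, p.2)) (Px p) p.1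
  dy : ∀ p ∈ RC, HasDerivAt (fun y => P (p.1, y)) (Py p) p.2

theorem Fld.add {P Px Py Q Qx Qy : ℝ × ℝ → ℝ} (h : Fld P Px Py) (k : Fld Q Qx Qy) :
    Fld (fun p => P p + Q p) (fun p => Px p + Qx p) (fun p => Py p + Qy p) :=
  ⟨h.c.add k.c, h.cx.add k.cx, h.cy.add k.cy, fun p hp => (h.dx p hp).add (k.dx p hp),
    fun p hp => (h.dy p hp).add (k.dy p hp)⟩

theorem Fld.smul {P Px Py : ℝ × ℝ → ℝ} (h : Fld P Px Py) (a : ℝ) :
    Fld (fun p => a * P p) (fun p => a * Px p) (fun p => a * Py p) :=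
  ⟨continuousOn_const.mul h.c, continuousOn_const.mul h.cx, continuousOn_const.mul h.cy,
    fun p hp => (h.dx p hp).const_mul a, fun p hp => (h.dy p hp).const_mul a⟩

theorem Fld.mul {P Px Py Q Qx Qy : ℝ × ℝ → ℝ} (h : Fld P Px Py) (k : Fld Q Qx Qy) :
    Fld (fun p => P p * Q p) (fun p => Px p * Q p + P p * Qx p)
      (fun p => Py p * Q p + P p * Qy p) :=
  ⟨h.c.mul k.c, (h.cx.mul k.c).add (h.c.mul k.cx), (h.cy.mul k.c).add (h.c.mul k.cy),
    fun p hp => (h.dx p hp).mul (k.dx p hp), fun p hp => (h.dy p hp).mul (k.dy p hp)⟩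

theorem Fld.of_c1 {U : ℝ × ℝ → ℝ} (h : ContDiff ℝ 1 U) : Fld U (ds U) (dt U) := by
  have hc : Continuous (fderiv ℝ U) := h.continuous_fderiv one_ne_zero
  have hd : ∀ p, HasFDerivAt U (fderiv ℝ U p) p := fun p =>
    (h.differentiable one_ne_zero p).hasFDerivAt
  refine ⟨h.continuous.continuousOn, (hc.clm_apply continuous_const).continuousOn,
    (hc.clm_apply continuous_const).continuousOn, fun p _ => ?_, fun p _ => ?_⟩
  · exact (hd (p.1, p.2)).comp_hasDerivAt p.1 ((hasDerivAt_id p.1).prodMk (hasDerivAt_const p.1 p.2))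
  · exact (hd (p.1, p.2)).comp_hasDerivAt p.2 ((hasDerivAt_const p.2 p.1).prodMk (hasDerivAt_id p.2))

theorem flux {F Fx Fy G Gx Gy : ℝ × ℝ → ℝ} (hF : Fld F Fx Fy) (hG : Fld G Gx Gy)
    (h1 : ∀ y ∈ Icc (0 : ℝ) 1, F (0, y) = 0) (h2 : ∀ x ∈ Icc (0 : ℝ) 1, G (x, 0) = 0)
    (h3 : ∀ y ∈ Icc (0 : ℝ) 1, 0 ≤ F (1 - y, y) + G (1 - y, y)) :
    0 ≤ ∫ p in RT, (Fx p + Gy p) := by
  have u : uIcc (0 : ℝ) 1 = Icc 0 1 := uIcc_of_le zero_le_one
  have hm : ∀ y ∈ uIcc (0 : ℝ) 1, (1 - y, y) ∈ RC := by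
    intro y hy
    rw [u] at hy
    exact ⟨by show 0 ≤ 1 - y; linarith [hy.2], hy.1, by show 1 - y + y ≤ 1; linarith⟩
  have e1 : ∫ y in (0 : ℝ)..1, (F (1 - y, y) - F (0, y)) = ∫ y in (0 : ℝ)..1, F (1 - y, y) :=
    intervalIntegral.integral_congr fun y hy => by simp only [h1 y (u ▸ hy), sub_zero]
  have e2 : ∫ x in (0 : ℝ)..1, (G (x, 1 - x) - G (x, 0)) = ∫ y in (0 : ℝ)..1, G (1 - y, y) := by
    have := intervalIntegral.integral_comp_sub_left (a := 0) (b := 1)
      (fun y => G (1 - y, y)) 1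
    simp only [sub_sub_cancel, sub_self, sub_zero] at this
    rw [← this]
    exact intervalIntegral.integral_congr fun y hy => by simp only [h2 y (u ▸ hy), sub_zero]
  have i1 : IntervalIntegrable (fun y => F (1 - y, y)) volume 0 1 :=
    (hF.c.comp (by fun_prop) hm).intervalIntegrable
  have i2 : IntervalIntegrable (fun y => G (1 - y, y)) volume 0 1 :=
    (hG.c.comp (by fun_prop) hm).intervalIntegrable
  rw [integral_add (intOn_RT hF.cx) (intOn_RT hG.cy), slice_x hF.cx hF.dx, slice_y hG.cy hG.dy,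
    e1, e2, ← intervalIntegral.integral_add i1 i2]
  exact intervalIntegral.integral_nonneg zero_le_one h3

/-- the lower bound `μ` for the form `a U_X ^ 2 + c U_Y ^ 2`, Dirichlet condition on `Y = 0` -/
def Ref (a c μ : ℝ) : Prop :=
  ∀ U : ℝ × ℝ → ℝ, ContDiff ℝ 1 U → (∀ x ∈ Icc (0 : ℝ) 1, U (x, 0) = 0) →
    μ * ∫ p in RT, U p ^ 2 ≤ ∫ p in RT, (a * ds U p ^ 2 + c * dt U p ^ 2)

theorem barta {a c μ : ℝ} (ha : 0 ≤ a) (hc : 0 ≤ c) {P Px Py Q Qx Qy : ℝ × ℝ → ℝ}
    (hP : Fld P Px Py) (hQ : Fld Q Qx Qy) (h1 : ∀ y ∈ Icc (0 : ℝ) 1, P (0, y) = 0)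
    (h3 : ∀ y ∈ Icc (0 : ℝ) 1, 0 ≤ a * P (1 - y, y) + c * Q (1 - y, y))
    (h : ∀ p ∈ RT, μ ≤ -(a * Px p + c * Qy p) - (a * P p ^ 2 + c * Q p ^ 2)) : Ref a c μ := by
  intro U hU h0
  have hu := Fld.of_c1 hU
  have k := flux (((hu.mul hu).mul hP).smul a) (((hu.mul hu).mul hQ).smul c)
    (fun y hy => by simp only [h1 y hy, mul_zero]) (fun x hx => by simp only [h0 x hx, mul_zero, zero_mul])
    (fun y hy => by linarith only [h3, hy, h3 y hy, mul_self_nonneg (U (1 - y, y)), mul_nonneg_of_nonpos_of_nonpos (Mathlib.Tactic.Linarith.sub_nonpos_of_le (mul_self_nonneg (U ((1 : ℝ) - y, y)))) (Mathlib.Tactic.Linarith.sub_nonpos_of_le (h3 y hy))])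
  have i1 := intOn_RT ((((hu.mul hu).mul hP).smul a).cx.add (((hu.mul hu).mul hQ).smul c).cy)
  have i2 : IntegrableOn (fun p => μ * U p ^ 2) RT :=
    intOn_RT (continuousOn_const.mul (hu.c.pow 2))
  have i3 : IntegrableOn (fun p => a * ds U p ^ 2 + c * dt U p ^ 2) RT :=
    intOn_RT ((continuousOn_const.mul (hu.cx.pow 2)).add (continuousOn_const.mul (hu.cy.pow 2)))
  have m := setIntegral_mono_on (i2.add i1) i3 meas_RT fun p hp => by
    have := mul_le_mul_of_nonneg_right (h p hp) (sq_nonneg (U p))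
    simp only [Pi.add_apply]
    linarith only [this, ha, hc, mul_nonneg ha (sq_nonneg (ds U p - U p * P p)),
      mul_nonneg hc (sq_nonneg (dt U p - U p * Q p)), sq_nonneg (ds U p - U p * P p), sq_nonneg (dt U p - U p * Q p)]
  rw [integral_add' i2 i1, integral_const_mul] at m
  exact le_trans (le_add_of_nonneg_right k) m

theorem Ref.lim {a c μ : ℝ} (h : ∀ t ∈ Ioo (0 : ℝ) 1, Ref a c (μ * t ^ 2)) : Ref a c μ := by
  intro U hU h0
  have t : Tendsto (fun t : ℝ => μ * t ^ 2 * ∫ p in RT, U p ^ 2) (𝓝[<] 1)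
      (𝓝 (μ * 1 ^ 2 * ∫ p in RT, U p ^ 2)) :=
    (Continuous.tendsto (by fun_prop) 1).mono_left nhdsWithin_le_nhds
  have := le_of_tendsto t (by
    filter_upwards [Ioo_mem_nhdsLT (zero_lt_one' ℝ)] with s hs using h s hs U hU h0)
  simpa using this

theorem Ref.comb {a c μ a' c' μ' α β : ℝ} (h : Ref a c μ) (k : Ref a' c' μ') (hα : 0 ≤ α)
    (hβ : 0 ≤ β) : Ref (α * a + β * a') (α * c + β * c') (α * μ + β * μ') := by
  intro U hU h0
  have hu := Fld.of_c1 hU
  have i : ∀ a c : ℝ, IntegrableOn (fun p => a * ds U p ^ 2 + c * dt U p ^ 2) RT := fun a c =>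
    intOn_RT ((continuousOn_const.mul (hu.cx.pow 2)).add (continuousOn_const.mul (hu.cy.pow 2)))
  have e : ∫ p in RT, ((α * a + β * a') * ds U p ^ 2 + (α * c + β * c') * dt U p ^ 2) =
      α * (∫ p in RT, (a * ds U p ^ 2 + c * dt U p ^ 2)) +
        β * ∫ p in RT, (a' * ds U p ^ 2 + c' * dt U p ^ 2) := by
    rw [← integral_const_mul, ← integral_const_mul,
      ← integral_add ((i a c).const_mul α) ((i a' c').const_mul β)]
    exact integral_congr_ae (Eventually.of_forall fun p => by ring)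
  rw [e]
  linarith only [h, hU, h0, hα, k, hβ, mul_le_mul_of_nonneg_left (h U hU h0) hα, mul_le_mul_of_nonneg_left (k U hU h0) hβ]

/-- the cotangent -/
def ct (x : ℝ) : ℝ := cos x / sin x

theorem ct_der {x : ℝ} (h : sin x ≠ 0) : HasDerivAt ct (-(1 + ct x ^ 2)) x := by
  refine ((hasDerivAt_cos x).div (hasDerivAt_sin x) h).congr_deriv ?_
  simp only [ct]
  field_simp
  ring

theorem Fld.ct (r a b : ℝ) (h : ∀ p ∈ RC, r + a * p.1 + b * p.2 ∈ Ioo 0 π) :
    Fld (fun p => ct (r + a * p.1 + b * p.2))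
      (fun p => -(1 + ct (r + a * p.1 + b * p.2) ^ 2) * a)
      (fun p => -(1 + ct (r + a * p.1 + b * p.2) ^ 2) * b) := by
  have s : ∀ p ∈ RC, sin (r + a * p.1 + b * p.2) ≠ 0 := fun p hp =>
    (sin_pos_of_mem_Ioo (h p hp)).ne'
  have c : ContinuousOn (fun p : ℝ × ℝ => PS.ct (r + a * p.1 + b * p.2)) RC :=
    ContinuousOn.div (by fun_prop) (by fun_prop) s
  refine ⟨c, ((continuousOn_const.add (c.pow 2)).neg).mul continuousOn_const,
    ((continuousOn_const.add (c.pow 2)).neg).mul continuousOn_const, fun p hp => ?_,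
    fun p hp => ?_⟩
  · have := (((hasDerivAt_id p.1).const_mul a).const_add r).add_const (b * p.2)
    exact ((ct_der (s p hp)).comp p.1 this).congr_deriv (by rw [mul_one])
  · have := ((hasDerivAt_id p.2).const_mul b).const_add (r + a * p.1)
    exact ((ct_der (s p hp)).comp p.2 this).congr_deriv (by rw [mul_one])

theorem ct_half : ct (π / 2) = 0 := by simp [ct]

theorem ref_slice : Ref 0 1 (π ^ 2 / 4) := by
  refine Ref.lim fun t ht => ?_
  have hp := pi_pos
  set k := π / 2 * t with hk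
  have k0 : 0 < k := by have := ht.1; positivity
  have k1 : k < π / 2 := by have := ht.2; rw [hk]; linarith only [hp, this, mul_pos_of_neg_of_neg (Mathlib.Tactic.Linarith.sub_neg_of_lt hp) (Mathlib.Tactic.Linarith.sub_neg_of_lt this)]
  have hQ := (Fld.ct (π / 2 - k) 0 k fun p h => by
    have := h.1; have := h.2.1; have := h.2.2
    constructor <;> nlinarith).smul k
  refine barta le_rfl zero_le_one (hQ.smul 0) hQ (fun y _ => zero_mul _) (fun y hy => ?_)
    fun p _ => le_of_eq ?_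
  · have a1 : 0 < π / 2 - k + 0 * (1 - y) + k * y := by linarith only [k1, k0, hy, hy.1, mul_nonneg_of_nonpos_of_nonpos (le_of_lt (Mathlib.Tactic.Linarith.sub_neg_of_lt k0)) (Mathlib.Tactic.Linarith.sub_nonpos_of_le hy.left)]
    have a2 : π / 2 - k + 0 * (1 - y) + k * y ≤ π / 2 := by linarith only [k0, hy, hy.2, mul_nonneg_of_nonpos_of_nonpos (le_of_lt (Mathlib.Tactic.Linarith.sub_neg_of_lt k0)) (Mathlib.Tactic.Linarith.sub_nonpos_of_le hy.right)]
    have := div_nonneg (cos_nonneg_of_mem_Icc ⟨by linarith only [k0, k1, a1], a2⟩)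
      (sin_nonneg_of_nonneg_of_le_pi a1.le (by linarith only [k0, k1, a2]))
    simp only [zero_mul, zero_add, one_mul] at this ⊢
    exact mul_nonneg k0.le this
  · rw [hk]; ring

theorem ref_square : Ref 1 1 (π ^ 2 / 2) := by
  refine Ref.lim fun t ht => ?_
  have hp := pi_pos
  set k := π / 2 * t with hk
  have k0 : 0 < k := by have := ht.1; positivity
  have k1 : k < π / 2 := by have := ht.2; rw [hk]; linarith only [hp, this, mul_pos_of_neg_of_neg (Mathlib.Tactic.Linarith.sub_neg_of_lt hp) (Mathlib.Tactic.Linarith.sub_neg_of_lt this)]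
  have hP := (Fld.ct (π / 2) (-k) 0 fun p h => by
    have := h.1; have := h.2.1; have := h.2.2
    constructor <;> nlinarith).smul (-k)
  have hQ := (Fld.ct (π / 2 - k) 0 k fun p h => by
    have := h.1; have := h.2.1; have := h.2.2
    constructor <;> nlinarith).smul k
  refine barta zero_le_one zero_le_one hP hQ (fun y _ => by simp [ct_half]) (fun y _ => ?_)
    fun p _ => le_of_eq ?_
  · have : π / 2 + -k * (1 - y) + 0 * y = π / 2 - k + 0 * (1 - y) + k * y := by ring
    simp only [this]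
    linarith only []
  · rw [hk]; ring

theorem ct_sum {x y z : ℝ} (h : x + y + z = π) (hx : sin x ≠ 0) (hy : sin y ≠ 0)
    (hz : sin z ≠ 0) : ct x * ct y + ct x * ct z + ct y * ct z = 1 := by
  have e : z = π - (x + y) := by linarith
  have s : sin z = sin x * cos y + cos x * sin y := by rw [e, sin_pi_sub, sin_add]
  have c : cos z = -(cos x * cos y - sin x * sin y) := by rw [e, cos_pi_sub, cos_add]
  simp only [ct]
  field_simp
  rw [c, s]
  ring

theorem ref_equi : Ref 1 3 (4 * π ^ 2 / 3) := by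
  refine Ref.lim fun t ht => ?_
  have hp := pi_pos
  set k := π / 6 * t with hk
  have k0 : 0 < k := by have := ht.1; positivity
  have k1 : k < π / 6 := by have := ht.2; rw [hk]; linarith only [hp, this, mul_pos_of_neg_of_neg (Mathlib.Tactic.Linarith.sub_neg_of_lt hp) (Mathlib.Tactic.Linarith.sub_neg_of_lt this)]
  have m1 : ∀ p ∈ RC, π / 3 - 2 * k + 0 * p.1 + 2 * k * p.2 ∈ Ioo 0 π := fun p h => by
    have := h.1; have := h.2.1; have := h.2.2
    constructor <;> nlinarith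
  have m2 : ∀ p ∈ RC, π / 3 + k + -(3 * k) * p.1 + -k * p.2 ∈ Ioo 0 π := fun p h => by
    have := h.1; have := h.2.1; have := h.2.2
    constructor <;> nlinarith
  have m3 : ∀ p ∈ RC, π / 3 + k + 3 * k * p.1 + -k * p.2 ∈ Ioo 0 π := fun p h => by
    have := h.1; have := h.2.1; have := h.2.2
    constructor <;> nlinarith
  have h1 := Fld.ct _ _ _ m1
  have h2 := Fld.ct _ _ _ m2
  have h3 := Fld.ct _ _ _ m3
  refine barta zero_le_one (by norm_num) ((h2.smul (-(3 * k))).add (h3.smul (3 * k)))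
    (((h1.smul (2 * k)).add (h2.smul (-k))).add (h3.smul (-k))) (fun y _ => by simp)
    (fun y _ => ?_) fun p hp => le_of_eq ?_
  · have : π / 3 + k + -(3 * k) * (1 - y) + -k * y = π / 3 - 2 * k + 0 * (1 - y) + 2 * k * y := by
      ring
    simp only [this]
    linarith only []
  · have q := RT_sub hp
    have := ct_sum (by ring) (sin_pos_of_mem_Ioo (m1 p q)).ne' (sin_pos_of_mem_Ioo (m2 p q)).ne'
      (sin_pos_of_mem_Ioo (m3 p q)).ne'
    have e : 4 * π ^ 2 / 3 * t ^ 2 = 48 * k ^ 2 := by rw [hk]; ring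
    rw [e]
    linear_combination (-(12 * k ^ 2)) * this

theorem Ref.mono {a c μ μ' : ℝ} (h : Ref a c μ) (hm : μ' ≤ μ) : Ref a c μ' := fun U hU h0 =>
  (mul_le_mul_of_nonneg_right hm (integral_nonneg fun _ => sq_nonneg _)).trans (h U hU h0)

theorem ref_right {a c : ℝ} (ha : 0 ≤ a) (hac : a ≤ c) :
    Ref a c (π ^ 2 / 12 * min (a + 5 * c) (7 * a + 3 * c)) := by
  have hp : 0 ≤ π ^ 2 / 12 := by positivity
  rcases le_total c (3 * a) with h | h
  · have := ref_square.comb ref_equi (α := (3 * a - c) / 2) (β := (c - a) / 2) (by linarith only [h])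
      (by linarith only [hac])
    rw [show (3 * a - c) / 2 * 1 + (c - a) / 2 * 1 = a by ring,
      show (3 * a - c) / 2 * 1 + (c - a) / 2 * 3 = c by ring] at this
    refine this.mono ((mul_le_mul_of_nonneg_left (min_le_left _ _) hp).trans (le_of_eq ?_))
    ring
  · have := ref_equi.comb ref_slice (α := a) (β := c - 3 * a) ha (by linarith only [h])
    rw [show a * 1 + (c - 3 * a) * 0 = a by ring,
      show a * 3 + (c - 3 * a) * 1 = c by ring] at this
    refine this.mono ((mul_le_mul_of_nonneg_left (min_le_right _ _) hp).trans (le_of_eq ?_))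
    ring

theorem area_RT : ∫ _ in RT, (1 : ℝ) = 1 / 2 := by
  rw [slice_x (F := fun p => p.1) (F' := fun _ => 1) continuousOn_const
    fun p _ => hasDerivAt_id p.1]
  simp only [sub_zero]
  rw [intervalIntegral.integral_sub intervalIntegrable_const intervalIntegral.intervalIntegrable_id]
  simp
  norm_num

theorem triLow_of_ref {Λ θ : ℝ} (h0 : 0 < θ) (h1 : θ < π / 2)
    (H : Ref (cos θ / sin θ) (tan θ) (2 * Λ)) : TriLow Λ (π / 2) (π / 2 - θ) := by
  intro A B C τ s r q lam hs hr hq hB hC hA hl u hu _ hD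
  have hp := pi_pos
  have c0 : 0 < cos θ := cos_pos_of_mem_Ioo ⟨by linarith only [h0, h1], h1⟩
  have s0 : 0 < sin θ := sin_pos_of_pos_of_lt_pi h0 (by linarith only [h0, h1])
  set e := ei τ with he
  have n1 : e.re ^ 2 + e.im ^ 2 = 1 := by
    rw [he, ei, Complex.exp_ofReal_mul_I_re, Complex.exp_ofReal_mul_I_im]
    exact cos_sq_add_sin_sq τ
  have ne : ‖e‖ = 1 := by rw [he, ei]; exact Complex.norm_exp_ofReal_mul_I τ
  have ee : ∀ x : ℝ, ei (τ + x) = e * (cos x + sin x * Complex.I) := fun x => by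
    rw [ei_add, ← he, ei, Complex.exp_mul_I, Complex.ofReal_cos, Complex.ofReal_sin]
  have hA' : A - C = q * (e * -Complex.I) := by
    rw [hA, add_assoc, ee, cos_add, sin_add]; simp
  have hC' : C - B = r * (e * (-sin θ + cos θ * Complex.I)) := by
    rw [hC, show τ + π - (π / 2 - θ) = τ + (θ + π / 2) by ring, ee, cos_add_pi_div_two,
      sin_add_pi_div_two]
    push_cast
    ring
  have z : (s - r * sin θ : ℝ) + (r * cos θ - q : ℝ) * Complex.I = (0 : ℂ) := by
    refine mul_left_cancel₀ (ei_ne_zero τ) ?_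
    rw [← he]
    push_cast at hC' ⊢
    linear_combination -hB - hC' - hA'
  have z1 : s = r * sin θ := by
    have := congrArg Complex.re z
    simp only [Complex.add_re, Complex.ofReal_re, Complex.mul_re, Complex.I_re, Complex.I_im,
      Complex.ofReal_im, Complex.zero_re] at this
    linarith only [this]
  have z2 : q = r * cos θ := by
    have := congrArg Complex.im z
    simp only [Complex.add_im, Complex.ofReal_re, Complex.mul_im, Complex.I_re, Complex.I_im,
      Complex.ofReal_im, Complex.zero_im] at this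
    linarith only [this]
  have eB : B = A + e * s := by linear_combination hB
  have eC : C = A + e * (q * Complex.I) := by linear_combination -hA'
  have sq : 0 < s * q := mul_pos hs hq
  have key : ∀ p : ℝ × ℝ, A + e * pt s q p ∈ Lft [(A, B), (B, C), (C, A)] ↔ p ∈ RT := by
    intro p
    have a1 : cr (B - A) (A + e * pt s q p - A) = s * q * p.2 := by
      rw [eB]
      simp only [cr, add_sub_cancel_left, Complex.mul_re, Complex.mul_im, pt_re, pt_im,
        Complex.ofReal_re, Complex.ofReal_im]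
      linear_combination (s * q * p.2) * n1
    have a2 : cr (C - B) (A + e * pt s q p - B) = s * q * (1 - p.1 - p.2) := by
      rw [eB, eC]
      simp only [cr, add_sub_add_left_eq_sub, Complex.sub_re, Complex.sub_im, Complex.mul_re,
        Complex.mul_im, pt_re, pt_im, Complex.ofReal_re, Complex.ofReal_im, Complex.I_re,
        Complex.I_im]
      linear_combination (s * q * (1 - p.1 - p.2)) * n1
    have a3 : cr (A - C) (A + e * pt s q p - C) = s * q * p.1 := by
      rw [eC]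
      simp only [cr, sub_add_cancel_left, add_sub_add_left_eq_sub, Complex.sub_re, Complex.sub_im,
        Complex.mul_re, Complex.neg_re, Complex.neg_im,
        Complex.mul_im, pt_re, pt_im, Complex.ofReal_re, Complex.ofReal_im, Complex.I_re,
        Complex.I_im]
      linear_combination (s * q * p.1) * n1
    simp only [Lft, List.mem_cons, List.not_mem_nil, or_false, forall_eq_or_imp, forall_eq,
      mem_ofPred_eq, a1, a2, a3, mul_pos_iff_of_pos_left sq, RT]
    constructor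
    · rintro ⟨x, y, w⟩
      exact ⟨w, x, by linarith only [y]⟩
    · rintro ⟨x, y, w⟩
      exact ⟨y, by linarith only [w], x⟩
  have im : (fun p => A + e * pt s q p) '' RT = Lft [(A, B), (B, C), (C, A)] := by
    ext w
    constructor
    · rintro ⟨p, hp, rfl⟩
      exact (key p).2 hp
    · intro hw
      have : A + e * pt s q (((w - A) / e).re / s, ((w - A) / e).im / q) = w := by
        have : pt s q (((w - A) / e).re / s, ((w - A) / e).im / q) = (w - A) / e := by
          apply Complex.ext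
          · rw [pt_re]; field_simp
          · rw [pt_im]; field_simp
        rw [this, mul_div_cancel₀ _ (ei_ne_zero τ)]
        ring
      exact ⟨_, (key _).1 (this.symm ▸ hw), this⟩
  have hF : ∀ w : ℂ, HasDerivAt (fun w => A + e * w) e w := fun w => by
    simpa using ((hasDerivAt_id w).const_mul e).const_add A
  have inj : InjOn (fun p => A + e * pt s q p) RT := by
    intro p _ p' _ h
    have h' := mul_left_cancel₀ (ei_ne_zero τ) (add_left_cancel h)
    have r1 := congrArg Complex.re h'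
    have r2 := congrArg Complex.im h'
    rw [pt_re, pt_re] at r1
    rw [pt_im, pt_im] at r2
    exact Prod.ext (mul_left_cancel₀ hs.ne' r1) (mul_left_cancel₀ hq.ne' r2)
  have cv : ∀ g : ℂ → ℝ, ∫ w in Lft [(A, B), (B, C), (C, A)], g w =
      ∫ p in RT, s * q * g (A + e * pt s q p) := fun g => by
    have := (cov meas_RT (F := fun w => A + e * w) (F' := fun _ => e) hs hq
      (fun p _ => hF _) inj g).2.2
    simpa only [im, ne, one_pow, mul_one, smul_eq_mul] using this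
  have ar : volume.real (Lft [(A, B), (B, C), (C, A)]) = s * q / 2 := by
    have := cv fun _ => 1
    rw [integral_const_mul, area_RT] at this
    simpa [div_eq_mul_inv] using this
  have k := H (fun p => u (A + e * pt s q p))
    (hu.comp (contDiff_const.add (contDiff_const.mul (contDiff_pt s q)))) fun x hx => by
      refine image_eq_zero_of_notMem_tsupport fun c => disjoint_left.1 hD c ?_
      rw [segment_eq_image']
      refine ⟨x, hx, ?_⟩
      rw [eB]
      simp [pt]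
      ring
  have en : ∫ w in Lft [(A, B), (B, C), (C, A)], ‖fderiv ℝ u w‖ ^ 2 =
      ∫ p in RT, (cos θ / sin θ * ds (fun p => u (A + e * pt s q p)) p ^ 2 +
        tan θ * dt (fun p => u (A + e * pt s q p)) p ^ 2) := by
    rw [cv]
    refine integral_congr_ae (Eventually.of_forall fun p => ?_)
    obtain ⟨d1, d2⟩ := chain (u := u) (F := fun w => A + e * w) (a := s) (q := q) (p := p) (hF _)
      (hu.differentiable one_ne_zero _)
    have d3 := norm_sq_dual (fderiv ℝ u (A + e * pt s q p)) e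
    rw [ne, one_pow, one_mul] at d3
    simp only [d1, d2, ← d3, tan_eq_sin_div_cos]
    rw [z1, z2]
    field_simp
  rw [en, cv, integral_const_mul]
  refine le_trans ?_ k
  rw [ar] at hl
  rw [← mul_assoc]
  exact mul_le_mul_of_nonneg_right (by linarith only [hl]) (integral_nonneg fun _ => sq_nonneg _)

/-- the lower bound for right triangles with opening at least `π / 4` -/
theorem triLow_barta {θ : ℝ} (h0 : π / 4 ≤ θ) (h1 : θ < π / 2) :
    TriLow (π ^ 2 / 24 * min (cos θ / sin θ + 5 * tan θ) (7 * (cos θ / sin θ) + 3 * tan θ))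
      (π / 2) (π / 2 - θ) := by
  have hp := pi_pos
  have c : 0 < cos θ := cos_pos_of_mem_Ioo ⟨by linarith only [h0, h1], h1⟩
  have s : 0 < sin θ := sin_pos_of_pos_of_lt_pi (by linarith only [h0, h1]) (by linarith only [h0, h1])
  have cs : cos θ ≤ sin θ := by
    rw [← sin_pi_div_two_sub]
    exact sin_le_sin_of_le_of_le_pi_div_two (by linarith only [h0, h1]) h1.le (by linarith only [h0])
  refine triLow_of_ref (by linarith only [h0, h1]) h1 ((ref_right (by positivity) ?_).mono (le_of_eq (by ring)))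
  rw [tan_eq_sin_div_cos, div_le_div_iff₀ s c]
  linarith only [c, cs, s, mul_nonneg_of_nonpos_of_nonpos (le_of_lt (Mathlib.Tactic.Linarith.sub_neg_of_lt c)) (Mathlib.Tactic.Linarith.sub_nonpos_of_le cs), mul_nonneg_of_nonpos_of_nonpos (le_of_lt (Mathlib.Tactic.Linarith.sub_neg_of_lt s)) (Mathlib.Tactic.Linarith.sub_nonpos_of_le cs)]

end

end Pool.Agent.Work.MP_267827_an.PS
end
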