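import Pool.Agent.Work.MP_267827_an.Weight
import Pool.Agent.Work.MP_267827_an.Transfer
import Pool.Agent.Work.MP_267827_an.PS.Barta

-- merged part: Pool.Agent.Work.MP_267827_an.PS.SCLg
section
-- merged part: Pool.Agent.Work.MP_267827_an.TwoD
section
/-! Functions on the half strip. -/

set_option autoImplicit false

namespace Pool.Agent.Work.MP_267827_an

open MeasureTheory Set Filter Topology Metric Real

theorem TwoD_nu : nu = m0.prod m1 := rfl

instance TwoD_prob : IsProbabilityMeasure m1 := ⟨by simp⟩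

theorem TwoD_nu' : nu = (volume.prod volume).restrict (Iio 0 ×ˢ Ioo 0 1) :=
  Measure.prod_restrict _ _

theorem TwoD_open : IsOpen {p : ℝ × ℝ | p.1 < 0} := isOpen_lt continuous_fst continuous_const

theorem TwoD_ae1 {q : ℝ → Prop} (h : ∀ t ∈ Ioo (0 : ℝ) 1, q t) : ∀ᵐ t ∂m1, q t :=
  (ae_restrict_iff' measurableSet_Ioo).2 (Eventually.of_forall h)

theorem ae_nu {q : ℝ × ℝ → Prop} (h : ∀ p : ℝ × ℝ, p.1 < 0 → p.2 ∈ Ioo (0 : ℝ) 1 → q p) :
    ∀ᵐ p ∂nu, q p := by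
  rw [TwoD_nu']
  exact (ae_restrict_iff' (measurableSet_Iio.prod measurableSet_Ioo)).2
    (Eventually.of_forall fun p hp => h p hp.1 hp.2)

theorem nu_fub {F : ℝ × ℝ → ℝ} (h : Integrable F nu) :
    Integrable (fun t => ∫ σ, F (σ, t) ∂m0) m1 ∧
      ∫ p, F p ∂nu = ∫ t, (∫ σ, F (σ, t) ∂m0) ∂m1 :=
  ⟨Integrable.integral_prod_right (μ := m0) (ν := m1) h, integral_prod_symm F h⟩

theorem nu_fub' {F : ℝ × ℝ → ℝ} (h : Integrable F nu) :
    Integrable (fun σ => ∫ t, F (σ, t) ∂m1) m0 ∧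
      ∫ p, F p ∂nu = ∫ σ, (∫ t, F (σ, t) ∂m1) ∂m0 :=
  ⟨Integrable.integral_prod_left (μ := m0) (ν := m1) h, integral_prod F h⟩

theorem nu_fst (f : ℝ → ℝ) : ∫ p, f p.1 ∂nu = ∫ σ, f σ ∂m0 := by
  rw [TwoD_nu, integral_fun_fst, probReal_univ, one_smul]

theorem int_fst {f : ℝ → ℝ} (h : Integrable f m0) : Integrable (fun p : ℝ × ℝ => f p.1) nu :=
  h.comp_fst m1

theorem nu_refl (F : ℝ × ℝ → ℝ) : ∫ p, F (p.1, 1 - p.2) ∂nu = ∫ p, F p ∂nu := by
  have h1 : MeasurePreserving (fun t : ℝ => 1 - t) m1 m1 := by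
    have h2 := (Measure.measurePreserving_sub_left (volume : Measure ℝ) 1).restrict_preimage
      (measurableSet_Ioo (a := (0 : ℝ)) (b := 1))
    have h3 : (fun t : ℝ => 1 - t) ⁻¹' Ioo 0 1 = Ioo 0 1 := by simp
    rwa [h3] at h2
  exact ((MeasurePreserving.id m0).prod h1).integral_comp
    (MeasurableEmbedding.id.prodMap (MeasurableEquiv.subLeft (1 : ℝ)).measurableEmbedding) F

theorem meas_nu {F : ℝ × ℝ → ℝ} (h : ContinuousOn F {p | p.1 < 0}) :
    AEStronglyMeasurable F nu := by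
  rw [TwoD_nu']
  exact (h.mono fun p hp => hp.1).aestronglyMeasurable (measurableSet_Iio.prod measurableSet_Ioo)

theorem TwoD_int {F : ℝ × ℝ → ℝ} (hm : AEStronglyMeasurable F nu) {g : ℝ → ℝ}
    (hg : Integrable g m0)
    (hb : ∀ p : ℝ × ℝ, p.1 < 0 → p.2 ∈ Ioo (0 : ℝ) 1 → |F p| ≤ g p.1) : Integrable F nu :=
  (int_fst hg).mono' hm (ae_nu hb)

theorem TwoD_mono {F G : ℝ × ℝ → ℝ} (hF : Integrable F nu) (hG : Integrable G nu)
    (h : ∀ t ∈ Ioo (0 : ℝ) 1, ∫ σ, F (σ, t) ∂m0 ≤ ∫ σ, G (σ, t) ∂m0) :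
    ∫ p, F p ∂nu ≤ ∫ p, G p ∂nu := by
  rw [(nu_fub hF).2, (nu_fub hG).2]
  exact integral_mono_ae (nu_fub hF).1 (nu_fub hG).1 (TwoD_ae1 h)

theorem V1.toVV {f f' : ℝ → ℝ} (h : V1 f f') : VV (fun p => f p.1) ∧
    ∀ p : ℝ × ℝ, p.1 < 0 → ds (fun p => f p.1) p = f' p.1 ∧ dt (fun p => f p.1) p = 0 := by
  have h1 : ∀ p : ℝ × ℝ, p.1 < 0 →
      ds (fun p => f p.1) p = f' p.1 ∧ dt (fun p => f p.1) p = 0 := fun p hp => by
    have e : fderiv ℝ (fun p : ℝ × ℝ => f p.1) p = _ :=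
      ((h.der _ hp).hasFDerivAt.comp p hasFDerivAt_fst).fderiv
    simp [ds, dt, e]
  have h2 : ContDiffOn ℝ 1 f (Iio 0) := by
    rw [show (1 : WithTop ℕ∞) = 0 + 1 from rfl, contDiffOn_succ_iff_deriv_of_isOpen isOpen_Iio]
    refine ⟨fun x hx => (h.der x hx).differentiableAt.differentiableWithinAt, by simp, ?_⟩
    exact contDiffOn_zero.2 (h.cont.congr fun x hx => (h.der x hx).deriv)
  obtain ⟨K, K0, hK⟩ := h.bd'
  refine ⟨⟨h2.comp contDiff_fst.contDiffOn fun p hp => hp, K, fun p hp _ => ?_⟩, h1⟩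
  rw [(h1 p hp).1, (h1 p hp).2, abs_zero]
  exact ⟨(hK _ hp).1, (hK _ hp).2.1, (hK _ hp).2.2, by positivity⟩

theorem V1.Ds_eq {f f' : ℝ → ℝ} (h : V1 f f') :
    Ds (fun p => f p.1) = ∫ σ, f' σ ^ 2 ∂m0 ∧ Dt (fun p => f p.1) = 0 := by
  refine ⟨?_, ?_⟩
  · rw [← nu_fst fun σ => f' σ ^ 2]
    exact integral_congr_ae (ae_nu fun p hp _ => by simp only [(h.toVV.2 p hp).1])
  · rw [← integral_zero (ℝ × ℝ) ℝ (μ := nu)]
    exact integral_congr_ae (ae_nu fun p hp _ => by simp [(h.toVV.2 p hp).2])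

theorem Ds_nonneg (V : ℝ × ℝ → ℝ) : 0 ≤ Ds V := integral_nonneg fun _ => sq_nonneg _

theorem Dt_nonneg (V : ℝ × ℝ → ℝ) : 0 ≤ Dt V := integral_nonneg fun _ => sq_nonneg _

theorem N0_nonneg (V : ℝ × ℝ → ℝ) : 0 ≤ N0 V :=
  integral_nonneg fun _ => mul_nonneg (exp_pos _).le (sq_nonneg _)

theorem NW_nonneg (β b : ℝ) (V : ℝ × ℝ → ℝ) : 0 ≤ NW β b V :=
  integral_nonneg fun _ => mul_nonneg (mul_pos (exp_pos _) (exp_pos _)).le (sq_nonneg _)

theorem OI_nonneg (M : ℝ) (V : ℝ × ℝ → ℝ) : 0 ≤ OI M V :=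
  integral_nonneg fun _ => mul_nonneg (Om_nonneg _ _) (sq_nonneg _)

theorem NJ_pos : 0 < NJ :=
  int_pos_m0 v1_JJ.intN fun _ hσ => mul_pos (exp_pos _) (pow_pos (JJ_pos hσ) 2)

theorem NJ_le : NJ ≤ 1 / 2 := by
  rw [← integral_exp0 two_pos]
  refine integral_mono v1_JJ.intN (int_exp two_pos) fun σ => ?_
  exact mul_le_of_le_one_right (exp_pos _).le ((sq_le_one_iff_abs_le_one _).2 (abs_JJ_le σ))

theorem DJ_eq : ∫ σ, ZZ σ ^ 2 ∂m0 = jj ^ 2 * NJ := by
  simpa only [NJ, pow_two] using v1_JJ.B_JJ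

theorem kap_pos : 0 < kap := by
  unfold kap
  positivity

theorem phiJ_pos {u0 K : ℝ} {φ φ' φ'' : ℝ → ℝ} (h : Wt u0 K φ φ' φ'') (h0 : 0 < u0) :
    0 < ∫ σ, φ σ * JJ σ ∂m0 := by
  rw [integral_pos_iff_support_of_nonneg_ae
    (ae_m0 fun σ hσ => mul_nonneg (h.nn σ) (JJ_pos hσ).le) (b0_JJ.int_mul (h.int h0)),
    Measure.restrict_apply' measurableSet_Iio]
  refine lt_of_lt_of_le ?_ (measure_mono (s := Iio (-(2 * u0))) fun σ hσ => ?_)
  · simp
  · have h1 : σ < -(2 * u0) := hσ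
    have h2 : σ < 0 := by linarith only [h0, h1]
    refine ⟨(mul_pos ?_ (JJ_pos h2)).ne', h2⟩
    rw [h.eq σ h1.le]
    exact ph0_pos σ

theorem kap_phi {u0 K : ℝ} {φ φ' φ'' : ℝ → ℝ} (h : Wt u0 K φ φ' φ'') (h0 : 0 < u0) :
    Integrable (fun σ => φ σ ^ 2) m0 ∧ kap * ∫ σ, φ σ ^ 2 ∂m0 ≤ 9 / 10 := by
  have b : ∀ {f : ℝ → ℝ}, Continuous f → (∀ σ, σ < 0 → |f σ| ≤ 11 * exp (2 * σ)) →
      Integrable (fun σ => f σ ^ 2) m0 := fun hf hb =>
    (b0_of_cont hf.continuousOn (K := 11) fun σ hσ => (hb σ hσ).trans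
      (mul_le_of_le_one_right (by norm_num) (exp_le_one' zero_le_two hσ))).sq_int
      (int_of_cont hf.continuousOn two_pos hb)
  have i1 := b h.cont fun σ _ => h.abs_le h0 σ
  refine ⟨i1, ?_⟩
  have h1 := integral_mono i1 (b continuous_ph0 abs_ph0_le) fun σ =>
    pow_le_pow_left₀ (h.nn σ) (h.le σ) 2
  rw [norm_ph0] at h1
  refine (mul_le_mul_of_nonneg_left h1 kap_pos.le).trans_eq (div_mul_cancel₀ _ ?_)
  positivity

namespace VV

variable {V V' : ℝ × ℝ → ℝ}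

theorem bd' (h : VV V) : ∃ K : ℝ, 0 ≤ K ∧ ∀ p : ℝ × ℝ, p.1 < 0 → p.2 ∈ Icc (0 : ℝ) 1 →
    |V p| ≤ K ∧ |V p| ≤ K * |p.1| ∧ |ds V p| ≤ K * exp p.1 ∧ |dt V p| ≤ K * exp p.1 := by
  obtain ⟨K, hK⟩ := h.bd
  exact ⟨K, (abs_nonneg _).trans (hK (-1, 0) (by norm_num) (by norm_num)).1, hK⟩

theorem cont (h : VV V) : ContinuousOn V {p | p.1 < 0} := h.c1.continuousOn

theorem cont_ds (h : VV V) : ContinuousOn (ds V) {p | p.1 < 0} :=
  (h.c1.continuousOn_fderiv_of_isOpen TwoD_open le_rfl).clm_apply continuousOn_const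

theorem cont_dt (h : VV V) : ContinuousOn (dt V) {p | p.1 < 0} :=
  (h.c1.continuousOn_fderiv_of_isOpen TwoD_open le_rfl).clm_apply continuousOn_const

theorem TwoD_fd (h : VV V) {p : ℝ × ℝ} (hp : p.1 < 0) : HasFDerivAt V (fderiv ℝ V p) p :=
  ((h.c1.contDiffAt (TwoD_open.mem_nhds hp)).differentiableAt one_ne_zero).hasFDerivAt

theorem der_s (h : VV V) {σ : ℝ} (hσ : σ < 0) (t : ℝ) :
    HasDerivAt (fun s => V (s, t)) (ds V (σ, t)) σ :=
  (h.TwoD_fd (p := (σ, t)) hσ).comp_hasDerivAt σ ((hasDerivAt_id σ).prodMk (hasDerivAt_const σ t))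

theorem der_t (h : VV V) {σ : ℝ} (hσ : σ < 0) (t : ℝ) :
    HasDerivAt (fun t => V (σ, t)) (dt V (σ, t)) t :=
  (h.TwoD_fd (p := (σ, t)) hσ).comp_hasDerivAt t ((hasDerivAt_const t σ).prodMk (hasDerivAt_id t))

theorem slice (h : VV V) {t : ℝ} (ht : t ∈ Icc (0 : ℝ) 1) :
    V1 (fun σ => V (σ, t)) (fun σ => ds V (σ, t)) := by
  obtain ⟨K, hK⟩ := h.bd
  refine ⟨fun σ hσ => h.der_s hσ t, h.cont_ds.comp (by fun_prop) fun σ hσ => hσ, K,
    fun σ hσ => ?_⟩
  obtain ⟨a1, a2, a3, -⟩ := hK (σ, t) hσ ht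
  exact ⟨a1, a2, a3⟩

theorem d_lin (a : ℝ) (h : VV V) (k : VV V') {p : ℝ × ℝ} (hp : p.1 < 0) :
    ds (fun p => a * V p + V' p) p = a * ds V p + ds V' p ∧
      dt (fun p => a * V p + V' p) p = a * dt V p + dt V' p := by
  have e : fderiv ℝ (fun p => a * V p + V' p) p = _ :=
    (((h.TwoD_fd hp).const_mul a).add (k.TwoD_fd hp)).fderiv
  simp [ds, dt, e]

theorem lin (a : ℝ) (h : VV V) (k : VV V') : VV fun p => a * V p + V' p := by
  obtain ⟨K, hK⟩ := h.bd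
  obtain ⟨K', hK'⟩ := k.bd
  refine ⟨(contDiffOn_const.mul h.c1).add k.c1, |a| * K + K', fun p hp ht => ?_⟩
  obtain ⟨a1, a2, a3, a4⟩ := hK p hp ht
  obtain ⟨b1, b2, b3, b4⟩ := hK' p hp ht
  have := abs_nonneg a
  rw [(d_lin a h k hp).1, (d_lin a h k hp).2]
  refine ⟨(abs_add_le _ _).trans ?_, (abs_add_le _ _).trans ?_, (abs_add_le _ _).trans ?_,
    (abs_add_le _ _).trans ?_⟩ <;> rw [abs_mul] <;> linarith only [b1, a1, this, b2, a2, b3, a3, b4, a4, mul_nonneg_of_nonpos_of_nonpos (Mathlib.Tactic.Linarith.sub_nonpos_of_le a1) (Mathlib.Tactic.Linarith.sub_nonpos_of_le this), mul_nonneg_of_nonpos_of_nonpos (Mathlib.Tactic.Linarith.sub_nonpos_of_le a2) (Mathlib.Tactic.Linarith.sub_nonpos_of_le this), mul_nonneg_of_nonpos_of_nonpos (Mathlib.Tactic.Linarith.sub_nonpos_of_le a3) (Mathlib.Tactic.Linarith.sub_nonpos_of_le this), mul_nonneg_of_nonpos_of_nonpos (Mathlib.Tactic.Linarith.sub_nonpos_of_le a4) (Mathlib.Tactic.Linarith.sub_nonpos_of_le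 this)]

theorem smul (a : ℝ) (h : VV V) : VV (fun p => a * V p) ∧ Ds (fun p => a * V p) = a ^ 2 * Ds V ∧
    Dt (fun p => a * V p) = a ^ 2 * Dt V ∧
    ∀ β b c lam : ℝ, QQ β b c lam (fun p => a * V p) = a ^ 2 * QQ β b c lam V := by
  have z : VV fun _ => 0 := ⟨contDiffOn_const, 0, fun p _ _ => by simp [ds, dt]⟩
  have e : ∀ p : ℝ × ℝ, p.1 < 0 → ds (fun p => a * V p) p = a * ds V p ∧
      dt (fun p => a * V p) p = a * dt V p := fun p hp => by
    have e : fderiv ℝ (fun p => a * V p) p = _ := ((h.TwoD_fd hp).const_mul a).fderiv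
    simp [ds, dt, e]
  have e1 : Ds (fun p => a * V p) = a ^ 2 * Ds V := by
    rw [Ds, Ds, ← integral_const_mul]
    exact integral_congr_ae (ae_nu fun p hp _ => by simp only [(e p hp).1, mul_pow])
  have e2 : Dt (fun p => a * V p) = a ^ 2 * Dt V := by
    rw [Dt, Dt, ← integral_const_mul]
    exact integral_congr_ae (ae_nu fun p hp _ => by simp only [(e p hp).2, mul_pow])
  refine ⟨by simpa only [add_zero] using lin a h z, e1, e2, fun β b c lam => ?_⟩
  have e3 : NW β b (fun p => a * V p) = a ^ 2 * NW β b V := by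
    rw [NW, NW, ← integral_const_mul]
    exact integral_congr_ae (Eventually.of_forall fun p => by simp only; ring)
  rw [QQ, QQ, e1, e2, e3]
  ring

theorem b0 (h : VV V) : B0 nu V := by
  obtain ⟨K, hK⟩ := h.bd
  exact ⟨meas_nu h.cont, K, ae_nu fun p hp ht => (hK p hp (Ioo_subset_Icc_self ht)).1⟩

theorem TwoD_mul {x y K K' σ : ℝ} (K0 : 0 ≤ K) (hx : |x| ≤ K * exp σ) (hy : |y| ≤ K' * exp σ) :
    |x * y| ≤ K * K' * exp (2 * σ) := by
  rw [abs_mul, ← exp_sq]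
  exact (mul_le_mul hx hy (abs_nonneg _) (by positivity)).trans_eq (by ring)

theorem int_ss (h : VV V) (k : VV V') : Integrable (fun p => ds V p * ds V' p) nu := by
  obtain ⟨K, K0, hK⟩ := h.bd'
  obtain ⟨K', -, hK'⟩ := k.bd'
  exact TwoD_int (meas_nu (h.cont_ds.mul k.cont_ds)) ((int_exp two_pos).const_mul (K * K'))
    fun p hp ht => TwoD_mul K0 (hK p hp (Ioo_subset_Icc_self ht)).2.2.1
      (hK' p hp (Ioo_subset_Icc_self ht)).2.2.1

theorem int_tt (h : VV V) (k : VV V') : Integrable (fun p => dt V p * dt V' p) nu := by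
  obtain ⟨K, K0, hK⟩ := h.bd'
  obtain ⟨K', -, hK'⟩ := k.bd'
  exact TwoD_int (meas_nu (h.cont_dt.mul k.cont_dt)) ((int_exp two_pos).const_mul (K * K'))
    fun p hp ht => TwoD_mul K0 (hK p hp (Ioo_subset_Icc_self ht)).2.2.2
      (hK' p hp (Ioo_subset_Icc_self ht)).2.2.2

theorem int_s (h : VV V) : Integrable (fun p => ds V p ^ 2) nu := by
  simpa only [pow_two] using h.int_ss h

theorem int_t (h : VV V) : Integrable (fun p => dt V p ^ 2) nu := by
  simpa only [pow_two] using h.int_tt h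

theorem int_H (h : VV V) : Integrable (fun p : ℝ × ℝ => (p.1 ^ 2)⁻¹ * V p ^ 2) nu := by
  obtain ⟨K, K0, hK⟩ := h.bd'
  refine TwoD_int ((by fun_prop : Measurable fun p : ℝ × ℝ => (p.1 ^ 2)⁻¹).aestronglyMeasurable.mul
    h.b0.sq.1) (V1.int_inv_sq.const_mul (2 * K ^ 2)) fun p hp ht => ?_
  obtain ⟨a1, a2, -⟩ := hK p hp (Ioo_subset_Icc_self ht)
  have s0 : 0 < p.1 ^ 2 := by have := hp.ne; positivity
  have b1 := pow_le_pow_left₀ (abs_nonneg _) a1 2
  have b2 := pow_le_pow_left₀ (abs_nonneg _) a2 2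
  rw [mul_pow, sq_abs, sq_abs] at b2
  rw [sq_abs] at b1
  rw [abs_of_nonneg (by positivity), ← div_eq_mul_inv, le_div_iff₀ (by positivity), mul_assoc,
    inv_mul_le_iff₀ s0]
  linarith only [b2, b1, mul_nonneg_of_nonpos_of_nonpos (Mathlib.Tactic.Linarith.sub_nonpos_of_le (sq_nonneg p.1)) (Mathlib.Tactic.Linarith.sub_nonpos_of_le b1)]

theorem TwoD_Om (M : ℝ) : Measurable fun p : ℝ × ℝ => Om M p.1 := by
  unfold Om
  fun_prop

theorem int_O (h : VV V) (M : ℝ) : Integrable (fun p : ℝ × ℝ => Om M p.1 * V p ^ 2) nu := by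
  refine (h.int_H.const_mul (M ^ 2)).mono' ((TwoD_Om M).aestronglyMeasurable.mul h.b0.sq.1)
    (Eventually.of_forall fun p => ?_)
  rw [Real.norm_of_nonneg (mul_nonneg (Om_nonneg _ _) (sq_nonneg _)), ← mul_assoc]
  exact mul_le_mul_of_nonneg_right (Om_le_two _ _) (sq_nonneg _)

theorem int_N (h : VV V) (k : VV V') :
    Integrable (fun p : ℝ × ℝ => exp (2 * p.1) * (V p * V' p)) nu :=
  (h.b0.mul k.b0).int_mul (int_fst (int_exp two_pos))

theorem int_N2 (h : VV V) : Integrable (fun p : ℝ × ℝ => exp (2 * p.1) * V p ^ 2) nu :=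
  h.b0.sq.int_mul (int_fst (int_exp two_pos))

theorem int_w (h : VV V) (k : VV V') {w : ℝ × ℝ → ℝ} (hw : AEStronglyMeasurable w nu) {C : ℝ}
    (hb : ∀ p : ℝ × ℝ, p.1 < 0 → p.2 ∈ Ioo (0 : ℝ) 1 → |w p| ≤ C * (1 + (p.1 ^ 2)⁻¹)) :
    Integrable (fun p : ℝ × ℝ => exp (2 * p.1) * w p * (V p * V' p)) nu := by
  obtain ⟨K, K0, hK⟩ := h.bd'
  obtain ⟨K', K0', hK'⟩ := k.bd'
  have C0 : 0 ≤ C := nonneg_of_mul_nonneg_left
    ((abs_nonneg _).trans (hb (-1, 1 / 2) (by norm_num) (by norm_num))) (by positivity)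
  refine TwoD_int (((int_fst (int_exp two_pos)).1.mul hw).mul (h.b0.mul k.b0).1)
    ((int_exp two_pos).const_mul (C * (2 * (K * K')))) fun p hp ht => ?_
  obtain ⟨a1, a2, -⟩ := hK p hp (Ioo_subset_Icc_self ht)
  obtain ⟨b1, b2, -⟩ := hK' p hp (Ioo_subset_Icc_self ht)
  have s0 : 0 < p.1 ^ 2 := by have := hp.ne; positivity
  have c1 : |V p * V' p| ≤ K * K' := by
    rw [abs_mul]
    exact mul_le_mul a1 b1 (abs_nonneg _) K0
  have c2 : (p.1 ^ 2)⁻¹ * |V p * V' p| ≤ K * K' := by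
    rw [inv_mul_le_iff₀ s0, abs_mul, ← sq_abs p.1]
    exact (mul_le_mul a2 b2 (abs_nonneg _) (by positivity)).trans_eq (by ring)
  rw [abs_mul, abs_mul, abs_of_pos (exp_pos _), mul_assoc, mul_comm]
  refine mul_le_mul_of_nonneg_right ?_ (exp_pos _).le
  refine (mul_le_mul_of_nonneg_right (hb p hp ht) (abs_nonneg _)).trans ?_
  rw [mul_assoc]
  exact mul_le_mul_of_nonneg_left (by linarith only [c1, c2]) C0

theorem int_W (h : VV V) (k : VV V') {β b : ℝ} (hβ : 0 < β) (hβ1 : β ≤ 1 / 64)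
    (hb : |b| ≤ 1 / 64) :
    Integrable (fun p : ℝ × ℝ => exp (2 * p.1) * WW β b p * (V p * V' p)) nu := by
  obtain ⟨K, K1, hK⟩ := weight_est
  refine h.int_w k (WW_meas β b).aestronglyMeasurable (C := 1 + K * (β + |b|) * β ^ 2)
    fun p hp _ => ?_
  have h1 : |WW β b p - 1| ≤ _ := (hK β b p.1 p.2 hβ hβ1 hb hp).1
  have h2 : 0 ≤ K * (β + |b|) := mul_nonneg (by linarith only [hβ, hβ1, K1]) (by positivity)
  have h3 := mul_le_mul_of_nonneg_left (Om_le_two β p.1) h2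
  have h4 : |WW β b p| ≤ |WW β b p - 1| + 1 := by
    simpa using abs_add_le (WW β b p - 1) 1
  have h5 : 0 ≤ (p.1 ^ 2)⁻¹ := by positivity
  have h6 : 0 ≤ K * (β + |b|) * β ^ 2 := by positivity
  linarith only [h1, h3, h4, h5, h6]

theorem int_W2 (h : VV V) {β b : ℝ} (hβ : 0 < β) (hβ1 : β ≤ 1 / 64) (hb : |b| ≤ 1 / 64) :
    Integrable (fun p : ℝ × ℝ => exp (2 * p.1) * WW β b p * V p ^ 2) nu := by
  simpa only [pow_two] using h.int_W h hβ hβ1 hb

/-- integrability against a weight in the first variable -/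
theorem int_ip (h : VV V) {w : ℝ → ℝ} (hw : AEStronglyMeasurable w m0) {C : ℝ}
    (hb : ∀ σ, σ < 0 → |w σ| ≤ C * exp (2 * σ)) :
    Integrable (fun p : ℝ × ℝ => V p * w p.1) nu :=
  h.b0.mul_int (int_fst (((int_exp two_pos).const_mul C).mono' hw (ae_m0 hb)))

theorem hardy (h : VV V) : ∫ p, (p.1 ^ 2)⁻¹ * V p ^ 2 ∂nu ≤ 4 * Ds V := by
  rw [Ds, ← integral_const_mul]
  refine TwoD_mono h.int_H (h.int_s.const_mul 4) fun t ht => ?_
  rw [integral_const_mul]
  exact (h.slice (Ioo_subset_Icc_self ht)).hardy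

theorem ground (h : VV V) : jj ^ 2 * N0 V ≤ Ds V := by
  rw [N0, ← integral_const_mul]
  refine TwoD_mono (h.int_N2.const_mul _) h.int_s fun t ht => ?_
  rw [integral_const_mul]
  exact (h.slice (Ioo_subset_Icc_self ht)).ground

theorem N_le (h : VV V) : N0 V ≤ Ds V :=
  TwoD_mono h.int_N2 h.int_s fun _ ht => (h.slice (Ioo_subset_Icc_self ht)).N_le_D

theorem O_le (h : VV V) (M : ℝ) : OI M V ≤ 4 * M ^ 2 * Ds V := by
  have h1 := integral_mono (h.int_O M) (h.int_H.const_mul (M ^ 2)) fun p => by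
    simp only
    rw [← mul_assoc]
    exact mul_le_mul_of_nonneg_right (Om_le_two _ _) (sq_nonneg _)
  rw [integral_const_mul] at h1
  have h2 := mul_le_mul_of_nonneg_left h.hardy (sq_nonneg M)
  exact h1.trans (h2.trans_eq (by ring))

theorem TwoD_OJ {M : ℝ} (hM : 0 ≤ M) : OI M (fun p => JJ p.1) ≤ 100 * M ^ 3 := by
  rcases hM.eq_or_lt with rfl | hM
  · simp [OI, Om]
  have i1 : Integrable (fun σ : ℝ => M ^ 2 * (1 + (σ / M) ^ 2)⁻¹) m0 :=
    ((integrable_inv_one_add_sq.comp_div hM.ne').const_mul _).restrict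
  have e := ftc0 (Φ := fun σ => M ^ 3 * arctan (σ / M))
    (Φ' := fun σ => M ^ 2 * (1 + (σ / M) ^ 2)⁻¹)
    (fun σ _ => ((((hasDerivAt_id σ).div_const M).arctan).const_mul (M ^ 3)).congr_deriv (by
      simp only [id]; field_simp)) i1
    (((tendsto_arctan_atBot.mono_right nhdsWithin_le_nhds).comp
      (tendsto_id.atBot_div_const hM)).const_mul (M ^ 3))
    (tendsto_left (by fun_prop))
  have h1 : OI M (fun p => JJ p.1) ≤ ∫ p, 49 * (M ^ 2 * (1 + (p.1 / M) ^ 2)⁻¹) ∂nu := by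
    refine integral_mono_ae (v1_JJ.toVV.1.int_O M) (int_fst (i1.const_mul 49))
      (ae_nu fun p hp _ => ?_)
    have h2 := pow_le_pow_left₀ (JJ_nonneg hp.le) (JJ_le_mul hp.le) 2
    rw [mul_pow, sq_abs] at h2
    refine (mul_le_mul_of_nonneg_left h2 (Om_nonneg _ _)).trans_eq ?_
    have := hp.ne
    simp only [Om]
    field_simp
    norm_num
  rw [nu_fst fun σ => 49 * (M ^ 2 * (1 + (σ / M) ^ 2)⁻¹), integral_const_mul, e] at h1
  simp only [zero_div, arctan_zero] at h1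
  have := mul_le_mul_of_nonneg_left pi_le_four (pow_pos hM 3).le
  have := pow_pos hM 3
  linarith

theorem O_le_J (h : VV V) {M : ℝ} (hM : 0 ≤ M) :
    OI M V ≤ 200 * M ^ 3 + 8 * M ^ 2 * Ds fun p => -1 * JJ p.1 + V p := by
  have j := v1_JJ.toVV.1
  have e := lin (-1) j h
  have h1 : OI M V ≤ ∫ p, (2 * (Om M p.1 * JJ p.1 ^ 2) +
      2 * (Om M p.1 * (-1 * JJ p.1 + V p) ^ 2)) ∂nu :=
    integral_mono (h.int_O M) (iadd ((j.int_O M).const_mul 2) ((e.int_O M).const_mul 2)) fun p => by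
      have := mul_nonneg (Om_nonneg M p.1) (sq_nonneg (2 * JJ p.1 - V p))
      simp only
      linarith
  rw [integral_add ((j.int_O M).const_mul 2) ((e.int_O M).const_mul 2), integral_const_mul,
    integral_const_mul] at h1
  have h2 := TwoD_OJ hM
  have h3 := e.O_le M
  simp only [OI] at h1 h2 h3 ⊢
  linarith only [h1, h2, h3]

theorem cs_s (h : VV V) (k : VV V') : |∫ p, ds V p * ds V' p ∂nu| ≤ √(Ds V) * √(Ds V') :=
  abs_le_sqrt_mul (Ds_nonneg V) (cs h.int_s k.int_s (h.int_ss k))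

theorem cs_t (h : VV V) (k : VV V') : |∫ p, dt V p * dt V' p ∂nu| ≤ √(Dt V) * √(Dt V') :=
  abs_le_sqrt_mul (Dt_nonneg V) (cs h.int_t k.int_t (h.int_tt k))

theorem cs_N (h : VV V) (k : VV V') :
    |∫ p, exp (2 * p.1) * (V p * V' p) ∂nu| ≤ √(Ds V) * √(Ds V') := by
  have e : ∀ p : ℝ × ℝ, exp p.1 * V p * (exp p.1 * V' p) = exp (2 * p.1) * (V p * V' p) :=
    fun p => by rw [← exp_sq]; ring
  have h1 := cs (μ := nu) (f := fun p => exp p.1 * V p) (g := fun p => exp p.1 * V' p)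
    (by simpa only [mul_pow, exp_sq] using h.int_N2)
    (by simpa only [mul_pow, exp_sq] using k.int_N2) (by simpa only [e] using h.int_N k)
  simp only [mul_pow, exp_sq, e] at h1
  exact abs_le_sqrt_mul (Ds_nonneg V)
    (h1.trans (mul_le_mul h.N_le k.N_le (N0_nonneg V') (Ds_nonneg V)))

theorem cs_O (h : VV V) (k : VV V') {w : ℝ × ℝ → ℝ} {C M : ℝ} (hC : 0 ≤ C)
    (hb : ∀ p : ℝ × ℝ, p.1 < 0 → p.2 ∈ Ioo (0 : ℝ) 1 → |w p| ≤ C * Om M p.1) :
    |∫ p, exp (2 * p.1) * w p * (V p * V' p) ∂nu| ≤ C * (√(OI M V) * √(OI M V')) := by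
  have e : ∀ p : ℝ × ℝ, √(Om M p.1) * |V p| * (√(Om M p.1) * |V' p|) =
      Om M p.1 * (|V p| * |V' p|) := fun p => by
    rw [mul_mul_mul_comm, mul_self_sqrt (Om_nonneg _ _)]
  have i1 : Integrable (fun p : ℝ × ℝ => Om M p.1 * (|V p| * |V' p|)) nu := by
    refine (iadd (h.int_O M) (k.int_O M)).mono'
      ((TwoD_Om M).aestronglyMeasurable.mul (h.b0.abs.mul k.b0.abs).1)
      (Eventually.of_forall fun p => ?_)
    have h0 := Om_nonneg M p.1
    rw [Real.norm_of_nonneg (by positivity), ← mul_add, ← sq_abs (V p), ← sq_abs (V' p)]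
    refine mul_le_mul_of_nonneg_left ?_ h0
    linarith only [sq_nonneg (|V p| - |V' p|), sq_nonneg |V p|, sq_nonneg |V' p|, sq_nonneg |V' p|, sq_nonneg |V p|, sq_nonneg (|V p| - |V' p|)]
  have h1 := cs (μ := nu) (f := fun p => √(Om M p.1) * |V p|) (g := fun p => √(Om M p.1) * |V' p|)
    (by simpa only [mul_pow, sq_sqrt (Om_nonneg _ _), sq_abs] using h.int_O M)
    (by simpa only [mul_pow, sq_sqrt (Om_nonneg _ _), sq_abs] using k.int_O M)
    (by simpa only [e] using i1)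
  simp only [mul_pow, sq_sqrt (Om_nonneg _ _), sq_abs, e] at h1
  have h2 : ‖∫ p, exp (2 * p.1) * w p * (V p * V' p) ∂nu‖ ≤
      ∫ p, C * (Om M p.1 * (|V p| * |V' p|)) ∂nu :=
    norm_integral_le_of_norm_le (i1.const_mul C) (ae_nu fun p hp ht => by
      rw [Real.norm_eq_abs, abs_mul, abs_mul, abs_mul, abs_of_pos (exp_pos _), ← mul_assoc C]
      refine mul_le_mul_of_nonneg_right ?_ (by positivity)
      exact (mul_le_of_le_one_left (abs_nonneg _) (exp_le_one' zero_le_two hp)).trans (hb p hp ht))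
  rw [integral_const_mul] at h2
  exact h2.trans (mul_le_mul_of_nonneg_left
    ((le_abs_self _).trans (abs_le_sqrt_mul (OI_nonneg M V) h1)) hC)

theorem Ds_add (a : ℝ) (h : VV V) (k : VV V') : Ds (fun p => a * V p + V' p) =
    a ^ 2 * Ds V + 2 * a * (∫ p, ds V p * ds V' p ∂nu) + Ds V' := by
  rw [Ds, Ds, Ds, ← int_sq_add' a h.int_s (h.int_ss k) k.int_s]
  exact integral_congr_ae (ae_nu fun p hp _ => by simp only [(d_lin a h k hp).1])

theorem TwoD_Dt_add (a : ℝ) (h : VV V) (k : VV V') : Dt (fun p => a * V p + V' p) =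
    a ^ 2 * Dt V + 2 * a * (∫ p, dt V p * dt V' p ∂nu) + Dt V' := by
  rw [Dt, Dt, Dt, ← int_sq_add' a h.int_t (h.int_tt k) k.int_t]
  exact integral_congr_ae (ae_nu fun p hp _ => by simp only [(d_lin a h k hp).2])

theorem Ds_add_le (a : ℝ) (h : VV V) (k : VV V') :
    Ds (fun p => a * V p + V' p) ≤ 2 * a ^ 2 * Ds V + 2 * Ds V' := by
  have h1 := Ds_nonneg fun p => -a * V p + V' p
  rw [Ds_add (-a) h k] at h1
  rw [Ds_add a h k]
  linarith

theorem N0_add (a : ℝ) (h : VV V) (k : VV V') : N0 (fun p => a * V p + V' p) =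
    a ^ 2 * N0 V + 2 * a * (∫ p, exp (2 * p.1) * (V p * V' p) ∂nu) + N0 V' :=
  int_sq_add (w := fun p : ℝ × ℝ => exp (2 * p.1)) a h.int_N2 (h.int_N k) k.int_N2

theorem QQ_add (a : ℝ) (h : VV V) (k : VV V') {β b : ℝ} (hβ : 0 < β) (hβ1 : β ≤ 1 / 64)
    (hb : |b| ≤ 1 / 64) (c lam : ℝ) : QQ β b c lam (fun p => a * V p + V' p) =
      a ^ 2 * QQ β b c lam V + 2 * a * BB β b c lam V V' + QQ β b c lam V' := by
  have e : NW β b (fun p => a * V p + V' p) = a ^ 2 * NW β b V +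
      2 * a * (∫ p, exp (2 * p.1) * WW β b p * (V p * V' p) ∂nu) + NW β b V' :=
    int_sq_add (w := fun p : ℝ × ℝ => exp (2 * p.1) * WW β b p) a (h.int_W2 hβ hβ1 hb)
      (h.int_W k hβ hβ1 hb) (k.int_W2 hβ hβ1 hb)
  rw [QQ, QQ, QQ, BB, Ds_add a h k, TwoD_Dt_add a h k, e]
  ring

theorem BB_sq (h : VV V) (k : VV V') {β b : ℝ} (hβ : 0 < β) (hβ1 : β ≤ 1 / 64)
    (hb : |b| ≤ 1 / 64) {c lam : ℝ} (pos : ∀ U, VV U → 0 ≤ QQ β b c lam U) :
    BB β b c lam V V' ^ 2 ≤ QQ β b c lam V * QQ β b c lam V' := by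
  have h1 := discrim_le_zero (a := QQ β b c lam V) (b := 2 * BB β b c lam V V')
    (c := QQ β b c lam V') fun t => by
      have := pos _ (lin t h k)
      rw [QQ_add t h k hβ hβ1 hb] at this
      linarith only [this]
  rw [discrim] at h1
  linarith only [h1]

theorem TwoD_par {U : ℝ × ℝ → ℝ} (hU : ContinuousOn U {p | p.1 < 0}) {K : ℝ}
    (hK : ∀ p : ℝ × ℝ, p.1 < 0 → p.2 ∈ Icc (0 : ℝ) 1 → |U p| ≤ K) {w : ℝ → ℝ}
    (hw : Integrable w m0) :
    (∀ t ∈ Icc (0 : ℝ) 1, B0 m0 fun σ => U (σ, t)) ∧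
      ContinuousOn (fun t => ∫ σ, U (σ, t) * w σ ∂m0) (Icc 0 1) := by
  have h1 : ∀ t ∈ Icc (0 : ℝ) 1, B0 m0 fun σ => U (σ, t) := fun t ht =>
    b0_of_cont (hU.comp (by fun_prop) fun σ hσ => hσ) fun σ hσ => hK (σ, t) hσ ht
  refine ⟨h1, continuousOn_of_dominated (fun t ht => (h1 t ht).1.mul hw.1)
    (fun t ht => ae_m0 fun σ hσ => ?_) (hw.norm.const_mul K) (ae_m0 fun σ hσ => ?_)⟩
  · rw [norm_mul]
    exact mul_le_mul_of_nonneg_right (hK (σ, t) hσ ht) (norm_nonneg _)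
  · exact (hU.comp (by fun_prop) fun t _ => hσ).mul continuousOn_const

theorem TwoD_osc {P P' : ℝ → ℝ} (hP : ContinuousOn P (Icc 0 1)) (hP' : ContinuousOn P' (Icc 0 1))
    (hd : ∀ t ∈ Ioo (0 : ℝ) 1, HasDerivAt P (P' t) t) {t : ℝ} (ht : t ∈ Icc (0 : ℝ) 1) :
    (P t - ∫ s, P s ∂m1) ^ 2 ≤ ∫ s, P' s ^ 2 ∂m1 := by
  have ii : ∀ {f : ℝ → ℝ}, ContinuousOn f (Icc 0 1) → Integrable f m1 := fun hf =>
    hf.integrableOn_Icc.mono_set Ioo_subset_Icc_self
  have h1 : ∀ a ∈ Icc (0 : ℝ) 1, ∀ b ∈ Icc (0 : ℝ) 1, a ≤ b → |P b - P a| ≤ ∫ s, |P' s| ∂m1 := by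
    intro a ha b hb hab
    have sub : Icc a b ⊆ Icc 0 1 := Icc_subset_Icc ha.1 hb.2
    rw [← intervalIntegral.integral_eq_sub_of_hasDerivAt_of_le hab (hP.mono sub)
      (fun x hx => hd x ⟨ha.1.trans_lt hx.1, hx.2.trans_le hb.2⟩)
      ((hP'.mono sub).intervalIntegrable_of_Icc hab), ← integral_Ioc_eq_integral_Ioo,
      ← intervalIntegral.integral_of_le zero_le_one]
    exact (intervalIntegral.abs_integral_le_integral_abs hab).trans
      (intervalIntegral.integral_mono_interval ha.1 hab hb.2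
        (Eventually.of_forall fun _ => abs_nonneg _)
        (hP'.abs.intervalIntegrable_of_Icc zero_le_one))
  have h2 : ‖∫ s, (P t - P s) ∂m1‖ ≤ (∫ s, |P' s| ∂m1) * m1.real univ :=
    norm_integral_le_of_norm_le_const (TwoD_ae1 fun s hs => by
      rcases le_total s t with c | c
      · exact h1 s (Ioo_subset_Icc_self hs) t ht c
      · rw [Real.norm_eq_abs, abs_sub_comm]
        exact h1 t ht s (Ioo_subset_Icc_self hs) c)
  rw [integral_sub (integrable_const _) (ii hP), integral_const, probReal_univ, one_smul,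
    mul_one] at h2
  have h3 := cs (μ := m1) (f := fun s => |P' s|) (g := fun _ => 1) (ii (hP'.abs.pow 2))
    (integrable_const _) (ii (hP'.abs.mul continuousOn_const))
  simp only [mul_one, sq_abs, one_pow, integral_const, probReal_univ, one_smul] at h3
  rw [← sq_abs]
  exact (pow_le_pow_left₀ (abs_nonneg _) h2 2).trans h3

/-- projection on a weight along the rays -/
theorem proj (h : VV V) {w : ℝ → ℝ} (hw : AEStronglyMeasurable w m0) {C : ℝ}
    (hb : ∀ σ, σ < 0 → |w σ| ≤ C * exp (2 * σ)) :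
    ContinuousOn (fun t => ∫ σ, V (σ, t) * w σ ∂m0) (Icc 0 1) ∧
    ContinuousOn (fun t => ∫ σ, dt V (σ, t) * w σ ∂m0) (Icc 0 1) ∧
    (∀ t ∈ Ioo (0 : ℝ) 1, HasDerivAt (fun t => ∫ σ, V (σ, t) * w σ ∂m0)
      (∫ σ, dt V (σ, t) * w σ ∂m0) t) ∧
    ∀ t ∈ Icc (0 : ℝ) 1, Integrable (fun σ => V (σ, t) * w σ) m0 ∧
      Integrable (fun σ => dt V (σ, t) * w σ) m0 ∧ Integrable (fun σ => dt V (σ, t) ^ 2) m0 ∧
      ((∫ σ, V (σ, t) * w σ ∂m0) - ∫ p, V p * w p.1 ∂nu) ^ 2 ≤ C ^ 2 * Dt V := by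
  obtain ⟨K, K0, hK⟩ := h.bd'
  have iw : Integrable w m0 := ((int_exp two_pos).const_mul C).mono' hw (ae_m0 hb)
  have hK' : ∀ p : ℝ × ℝ, p.1 < 0 → p.2 ∈ Icc (0 : ℝ) 1 → |dt V p| ≤ K := fun p hp ht =>
    (hK p hp ht).2.2.2.trans (mul_le_of_le_one_right K0 (exp_le_one_iff.2 hp.le))
  obtain ⟨b1, c1⟩ := TwoD_par h.cont (fun p hp ht => (hK p hp ht).1) iw
  obtain ⟨b2, c2⟩ := TwoD_par h.cont_dt hK' iw
  have hd : ∀ t ∈ Ioo (0 : ℝ) 1, HasDerivAt (fun t => ∫ σ, V (σ, t) * w σ ∂m0)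
      (∫ σ, dt V (σ, t) * w σ ∂m0) t := fun t ht => by
    have ht' := Ioo_subset_Icc_self ht
    refine (hasDerivAt_integral_of_dominated_loc_of_deriv_le (F := fun t σ => V (σ, t) * w σ)
      (F' := fun t σ => dt V (σ, t) * w σ) (Ioo_mem_nhds ht.1 ht.2) ?_ ((b1 t ht').mul_int iw)
      ((b2 t ht').1.mul hw) (ae_m0 fun σ hσ x hx => ?_) (iw.norm.const_mul K)
      (ae_m0 fun σ hσ x _ => (h.der_t hσ x).mul_const _)).2
    · filter_upwards [Ioo_mem_nhds ht.1 ht.2] with x hx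
      exact (b1 x (Ioo_subset_Icc_self hx)).1.mul hw
    · rw [norm_mul]
      exact mul_le_mul_of_nonneg_right (hK' (σ, x) hσ (Ioo_subset_Icc_self hx)) (norm_nonneg _)
  have i2 : ∀ t ∈ Icc (0 : ℝ) 1, Integrable (fun σ => dt V (σ, t) ^ 2) m0 := fun t ht =>
    (b2 t ht).sq_int (int_of_cont (h.cont_dt.comp (by fun_prop) fun σ hσ => hσ) (K := K) one_pos
      fun σ hσ => by simpa using (hK (σ, t) hσ ht).2.2.2)
  refine ⟨c1, c2, hd, fun t ht => ⟨(b1 t ht).mul_int iw, (b2 t ht).mul_int iw, i2 t ht, ?_⟩⟩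
  rw [(nu_fub (h.int_ip hw hb)).2, Dt, (nu_fub h.int_t).2, ← integral_const_mul]
  refine (TwoD_osc c1 c2 hd ht).trans (integral_mono_ae
    ((c2.pow 2).integrableOn_Icc.mono_set Ioo_subset_Icc_self)
    ((nu_fub h.int_t).1.const_mul _) (TwoD_ae1 fun s hs => ?_))
  have hs' := Ioo_subset_Icc_self hs
  have h1 := pow_le_pow_left₀ (abs_nonneg _) (ip_le_N (b2 s hs') hb) 2
  rw [sq_abs, mul_pow, sq_sqrt (integral_nonneg fun _ => by positivity)] at h1
  simp only [mul_comm (w _)] at h1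
  refine h1.trans (mul_le_mul_of_nonneg_left (integral_mono_ae
    ((b2 s hs').sq.int_mul (int_exp two_pos)) (i2 s hs') (ae_m0 fun σ hσ => ?_)) (sq_nonneg C))
  exact mul_le_of_le_one_left (sq_nonneg _) (exp_le_one' zero_le_two hσ)

end VV

theorem NW_est : ∃ K : ℝ, 1 ≤ K ∧ ∀ β b : ℝ, 0 < β → β ≤ 1 / 64 → |b| ≤ 1 / 64 →
    ∀ V, VV V → |NW β b V - N0 V| ≤ K * (β + |b|) * OI β V := by
  obtain ⟨K, K1, hK⟩ := weight_est
  refine ⟨K, K1, fun β b hβ hβ1 hb V h => ?_⟩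
  have h1 := h.cs_O h (w := fun p => WW β b p - 1) (C := K * (β + |b|)) (M := β)
    (mul_nonneg (by linarith only [K1, hβ, hβ1]) (by positivity)) fun p hp _ => (hK β b p.1 p.2 hβ hβ1 hb hp).1
  rw [mul_self_sqrt (OI_nonneg β V)] at h1
  rw [NW, N0, ← integral_sub (h.int_W2 hβ hβ1 hb) h.int_N2]
  refine le_of_eq_of_le (congrArg _ (integral_congr_ae (Eventually.of_forall fun p => ?_))) h1
  simp only
  ring

end Pool.Agent.Work.MP_267827_an
end

-- merged part: Pool.Agent.Work.MP_267827_an.PS.ADefs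
section
/-! Definitions for the analytic part of the proof for all `n ≥ 5` (helper81). -/

set_option autoImplicit false

namespace Pool.Agent.Work.MP_267827_an.PS

open MeasureTheory Set Filter Topology Real

noncomputable section

/-! ### The strip -/

/-- the strip in real coordinates `(s, t)` -/
def St : Set (ℝ × ℝ) := {p | 0 < p.2 ∧ p.2 < π}

/-- the strip in the complex coordinate `s + i t` -/
def Sc : Set ℂ := {w | 0 < w.im ∧ w.im < π}

/-- the doubled strip -/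
def Cy : Set (ℝ × ℝ) := {p | -π < p.2 ∧ p.2 < π}

/-- test functions: they vanish for large `|s|` and near `t = π` and `t = -π` -/
structure SV (V : ℝ × ℝ → ℝ) : Prop where
  c1 : ContDiff ℝ 1 V
  supp : ∃ S δ : ℝ, 0 < δ ∧ ∀ p : ℝ × ℝ, V p ≠ 0 → |p.1| ≤ S ∧ |p.2| ≤ π - δ

/-- the energy density -/
def en (V : ℝ × ℝ → ℝ) (p : ℝ × ℝ) : ℝ := ds V p ^ 2 + dt V p ^ 2

/-- the Schwarz-Christoffel weight: angle `b` at `s = -∞`, prevertices `s k`, exterior angles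
`π * p k` -/
def wtF (b : ℝ) (m : ℕ) (s p : ℕ → ℝ) (q : ℝ × ℝ) : ℝ :=
  exp (2 * b * q.1 / π) *
    ∏ k ∈ Finset.range m, ‖1 - Complex.exp (pt 1 1 q - (s k : ℝ))‖ ^ (-(2 * p k))

/-- the weight of the triangle with angle `b` at `s = -∞` and `a` at `s = +∞` -/
def wt1 (b a : ℝ) : ℝ × ℝ → ℝ := wtF b 1 (fun _ => 0) (fun _ => (a + b) / π)

/-- eigenvalue times area is at least `Λ` for the weight `w` on the strip -/
def SLow (Λ : ℝ) (w : ℝ × ℝ → ℝ) : Prop :=
  ∀ V : ℝ × ℝ → ℝ, SV V →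
    Λ * ∫ q in St, w q * V q ^ 2 ≤ (∫ q in St, w q) * ∫ q in St, en V q

/-- the same for the triangle -/
def StripLow (Λ b a : ℝ) : Prop := SLow Λ (wt1 b a)

/-- a convex cell: wall `y 0, …, y (m + 1)` with directions `φ k` and lengths `l k`, base from
`y (m + 1)` to `y 0` in the direction `τ` -/
structure CC (m : ℕ) (y : ℕ → ℂ) (φ l : ℕ → ℝ) (τ : ℝ) : Prop where
  step : ∀ k, k ≤ m → 0 < l k ∧ y (k + 1) - y k = l k * ei (φ k)
  mono : ∀ k, k < m → φ k ≤ φ (k + 1)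
  base : ∃ s : ℝ, 0 < s ∧ y 0 - y (m + 1) = s * ei τ
  lo : φ 0 < τ + π
  hi : τ + π < φ m
  tot : φ m - φ 0 < π

/-- the open cell -/
def KK (m : ℕ) (y : ℕ → ℂ) : Set ℂ :=
  {z | 0 < cr (y 0 - y (m + 1)) (z - y (m + 1)) ∧ ∀ k, k ≤ m → 0 < cr (y (k + 1) - y k) (z - y k)}

/-- a conformal map of the strip onto `K`; the line `t = π` and the two ends go to the base -/
structure SCMap (A B : ℂ) (K : Set ℂ) (w : ℝ × ℝ → ℝ) (F G : ℂ → ℂ) (c : ℝ) : Prop where
  pos : 0 < c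
  der : ∀ z ∈ Sc, HasDerivAt F (G z) z
  nrm : ∀ q ∈ St, ‖G (pt 1 1 q)‖ ^ 2 = c * w q
  inj : InjOn F Sc
  img : F '' Sc = K
  int : IntegrableOn w St
  low : ∀ S : ℝ, ∃ ε : ℝ, 0 < ε ∧ ∀ q ∈ St, |q.1| ≤ S → ε ≤ w q
  near : ∀ ε : ℝ, 0 < ε → ∃ S δ : ℝ, 0 < δ ∧ ∀ z ∈ Sc, (S ≤ |z.re| ∨ π - δ ≤ z.im) →
    Metric.infDist (F z) (segment ℝ A B) < ε
  far : ∀ S δ : ℝ, 0 < δ → ∃ ε : ℝ, 0 < ε ∧ ∀ z ∈ Sc, |z.re| ≤ S → z.im ≤ π - δ →
    ε ≤ cr (B - A) (F z - A)

/-! ### The half strip centred at the apex -/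

/-- the conformal area of the right triangle with opening `π x`, divided by `π x` -/
def NA (x : ℝ) : ℝ := ∫ p, exp (2 * p.1) * WW x x p ∂nu

/-- the normalised area -/
def AA (x : ℝ) : ℝ := 2 * x * NA x

/-- the normalised energy -/
def Dx (x : ℝ) (V : ℝ × ℝ → ℝ) : ℝ := Ds V + Dt V / (π ^ 2 * x ^ 2)

/-- eigenvalue times area of the right triangle with opening `π x` is at least `π jj ^ 2 M / 2` -/
def HH (x M : ℝ) : Prop := ∀ V : ℝ × ℝ → ℝ, VV V → M * jj ^ 2 * NW x x V ≤ AA x * Dx x V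

/-- the result of the perturbation argument at `x₀ = 1 / n` -/
structure Win (x₀ M₀ G : ℝ) : Prop where
  at0 : HH x₀ M₀
  near : ∀ η : ℝ, 0 < η → ∃ V : ℝ × ℝ → ℝ, VV V ∧ 0 < NW x₀ x₀ V ∧
    AA x₀ * Dx x₀ V ≤ (M₀ + η) * jj ^ 2 * NW x₀ x₀ V
  tan : ∀ x : ℝ, 0 < x → x ≤ 1 / 4 → x ≠ x₀ → ∃ M : ℝ, M₀ + G * (x - x₀) < M ∧ HH x M
  M_pos : 0 < M₀
  M_le : M₀ ≤ x₀ + 23 / 20 * x₀ ^ 3
  G_le : G ≤ 1 + 26 / 5 * x₀ ^ 2
  kap : M₀ < G * x₀

/-! ### Series for the weight of the right triangle -/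

/-- the coefficients of `(1 - z) ^ (-2 x)` -/
def b0 (x : ℝ) : ℕ → ℝ
  | 0 => 1
  | k + 1 => b0 x k * (2 * x + k) / (k + 1)

/-- their derivatives in `x` -/
def b1 (x : ℝ) : ℕ → ℝ
  | 0 => 0
  | k + 1 => (b1 x k * (2 * x + k) + 2 * b0 x k) / (k + 1)

/-- their second derivatives in `x` -/
def b2 (x : ℝ) : ℕ → ℝ
  | 0 => 0
  | k + 1 => (b2 x k * (2 * x + k) + 4 * b1 x k) / (k + 1)

/-- the coefficient `b0 x k * exp (k σ / x)` and its first two derivatives in `x` -/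
def TT (j : ℕ) (x σ : ℝ) (k : ℕ) : ℝ :=
  exp (k * σ / x) *
    (if j = 0 then b0 x k else if j = 1 then b1 x k - b0 x k * (k * σ) / x ^ 2 else
      b2 x k - 2 * (x * b1 x k - b0 x k) * (k * σ) / x ^ 3 + b0 x k * (k * σ) ^ 2 / x ^ 4)

/-- the series `(1 - ζ) ^ (-2 x) - 1` and its first two derivatives in `x` -/
def HT (j : ℕ) (x : ℝ) (p : ℝ × ℝ) : ℂ :=
  ∑' k : ℕ, (TT j x p.1 (k + 1) : ℝ) * ei ((k + 1 : ℕ) * π * p.2)

/-- the square of the norm of the series -/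
def ST (j : ℕ) (x σ : ℝ) : ℝ := ∑' k : ℕ, TT j x σ (k + 1) ^ 2

/-- the quadratic part of the weight and of its derivatives -/
def QT (j : ℕ) (x : ℝ) (p : ℝ × ℝ) : ℝ :=
  if j = 0 then ‖HT 0 x p‖ ^ 2
  else if j = 1 then 2 * ((starRingEnd ℂ) (HT 0 x p) * HT 1 x p).re
  else 2 * ‖HT 1 x p‖ ^ 2 + 2 * ((starRingEnd ℂ) (HT 0 x p) * HT 2 x p).re

/-- `WW x x - 1` and the first two derivatives of `WW x x` in `x` -/
def WT (j : ℕ) (x : ℝ) (p : ℝ × ℝ) : ℝ := 2 * (HT j x p).re + QT j x p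

/-- the bilinear form with weight `exp (2 σ) * Ω` -/
def nB (Ω U V : ℝ × ℝ → ℝ) : ℝ := ∫ p, exp (2 * p.1) * Ω p * (U p * V p) ∂nu

/-- the ground state of the disc as a function on the half strip -/
def JV (p : ℝ × ℝ) : ℝ := JJ p.1

/-- the three bounds for a weight -/
structure Pair (Ω : ℝ × ℝ → ℝ) (E α γ ω : ℝ) : Prop where
  int : ∀ U V, VV U → VV V → Integrable (fun p => exp (2 * p.1) * Ω p * (U p * V p)) nu
  JJ : |nB Ω JV JV| ≤ E * DD ^ 2
  Jw : ∀ w, VV w → |nB Ω JV w| ≤ DD * (α * √(Ds w) + γ * (√(Dt w) / π))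
  ww : ∀ u w, VV u → VV w → |nB Ω u w| ≤ ω * (√(Ds u) * √(Ds w))

/-- the terms of the series for the area and their derivatives -/
def a0 (x : ℝ) (k : ℕ) : ℝ := b0 x k ^ 2 * x ^ 2 / (x + k)

/-- the derivative of `a0` -/
def a1 (x : ℝ) (k : ℕ) : ℝ :=
  2 * b0 x k * b1 x k * x ^ 2 / (x + k) + b0 x k ^ 2 * (x ^ 2 + 2 * k * x) / (x + k) ^ 2

/-- the slope of the area -/
def A1 (x : ℝ) : ℝ := 1 + ∑' k : ℕ, a1 x (k + 1)

end

end Pool.Agent.Work.MP_267827_an.PS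
end

-- merged part: Pool.Agent.Work.MP_267827_an.PS.SCDefs
section
/-! Definitions for the Schwarz-Christoffel map of the strip (helper89). -/

set_option autoImplicit false

namespace Pool.Agent.Work.MP_267827_an.PS

open MeasureTheory Set Filter Topology Real

noncomputable section

/-- the point `x + i t` -/
def zz (x t : ℝ) : ℂ := (x : ℂ) + (t : ℂ) * Complex.I

@[simp] theorem zz_re (x t : ℝ) : (zz x t).re = x := by simp [zz]

@[simp] theorem zz_im (x t : ℝ) : (zz x t).im = t := by simp [zz]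

theorem zz_eta (w : ℂ) : zz w.re w.im = w := Complex.re_add_im w

theorem zz_zero (x : ℝ) : zz x 0 = (x : ℂ) := by simp [zz]

theorem zz_sub (x t s : ℝ) : zz x t - (s : ℂ) = zz (x - s) t := by
  simp only [zz]; push_cast; ring

theorem pt_zz (q : ℝ × ℝ) : pt 1 1 q = zz q.1 q.2 := by simp [pt, zz]

@[fun_prop] theorem continuous_zz : Continuous fun q : ℝ × ℝ => zz q.1 q.2 := by
  unfold zz; fun_prop

/-- the branch of `log (1 - exp z)` that is holomorphic near the closed strip minus `0` -/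
def Lg (z : ℂ) : ℂ :=
  Complex.log (Complex.I * (1 - Complex.exp z)) - ((π / 2 : ℝ) : ℂ) * Complex.I

/-- the derivative of the Schwarz-Christoffel map -/
def G0 (b : ℝ) (m : ℕ) (p s : ℕ → ℝ) (w : ℂ) : ℂ :=
  Complex.exp (((b / π : ℝ) : ℂ) * w - ∑ k ∈ Finset.range m, ((p k : ℝ) : ℂ) * Lg (w - (s k : ℝ)))

/-- the Schwarz-Christoffel map on the closed strip -/
def FB (b : ℝ) (m : ℕ) (p s : ℕ → ℝ) (w : ℂ) : ℂ :=
  (∫ u in Iic w.re, G0 b m p s (zz u π)) - Complex.I * ∫ t in w.im..π, G0 b m p s (zz w.re t)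

/-- its limit at the right end -/
def FA (b : ℝ) (m : ℕ) (p s : ℕ → ℝ) : ℂ := ∫ u : ℝ, G0 b m p s (zz u π)

/-- the direction of the side number `k` -/
def al (p : ℕ → ℝ) (k : ℕ) : ℝ := π * ∑ j ∈ Finset.range k, p j

/-- admissible angles -/
structure SAng (b a : ℝ) (m : ℕ) (p : ℕ → ℝ) : Prop where
  hb : 0 < b
  ha : 0 < a
  hab : a + b < π
  hp : ∀ k, k < m → 0 ≤ p k
  sum : al p m = a + b

end

end Pool.Agent.Work.MP_267827_an.PS
end

-- merged part: Pool.Agent.Work.MP_267827_an.PS.SCLg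
section
/-! Properties of `Lg` and elementary bounds for `‖1 - exp z‖`.

Plan.  With `z = x + i t`, `r = exp x`: `I * (1 - exp z) = r sin t + i (1 - r cos t)`.
* `Lg_diff`: this number is in `Complex.slitPlane` (real part positive for `0 < t < π`, imaginary
  part nonzero for `t = 0`, `x ≠ 0`, imaginary part positive for `π / 2 ≤ t ≤ 3 π / 2`).
* `Lg_im_mem`: `u = I * (1 - exp z)` has `0 ≤ u.re`, `u ≠ 0`, so `|arg u| ≤ π / 2`
  (`Complex.abs_arg_le_pi_div_two_iff`); with `θ = t - π / 2` one has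
  `‖u‖ * sin (arg u - θ) = (u * exp (-i θ)).im = sin t ≥ 0`, positive for `t < π`, and
  `-π < arg u - θ`, so `θ ≤ arg u` (for `t = π` use `Lg_im_top`).
* `‖1 - exp z‖ ^ 2 = 1 - 2 r cos t + r ^ 2 = sin t ^ 2 + (r - cos t) ^ 2`; `2 t / π ≤ sin t` on
  `[0, π / 2]` (`Real.mul_le_sin`), and `cos t ≤ 0` on `[π / 2, 3 π / 2]`. -/

set_option autoImplicit false

namespace Pool.Agent.Work.MP_267827_an.PS

open MeasureTheory Set Filter Topology Real

theorem SCLg_re (z : ℂ) : (Complex.I * (1 - Complex.exp z)).re = exp z.re * sin z.im := by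
  simp [Complex.exp_im]

theorem SCLg_im (z : ℂ) : (Complex.I * (1 - Complex.exp z)).im = 1 - exp z.re * cos z.im := by
  simp [Complex.exp_re]

theorem SCLg_arg (z : ℂ) :
    (Lg z).im = Complex.arg (Complex.I * (1 - Complex.exp z)) - π / 2 := by
  rw [Lg, Complex.sub_im, Complex.log_im, Complex.mul_I_im, Complex.ofReal_re]

theorem SCLg_sq (x t : ℝ) :
    ‖1 - Complex.exp (zz x t)‖ ^ 2 = 1 - 2 * exp x * cos t + exp x ^ 2 := by
  have h : ‖1 - Complex.exp (zz x t)‖ = ‖Complex.I * (1 - Complex.exp (zz x t))‖ := by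
    rw [norm_mul, Complex.norm_I, one_mul]
  rw [h, Complex.sq_norm, Complex.normSq_apply, SCLg_re, SCLg_im, zz_re, zz_im]
  linear_combination exp x ^ 2 * sin_sq_add_cos_sq t

theorem SCLg_alt {t : ℝ} (h0 : 0 < t) (h1 : t ≤ 3 * π / 2) :
    (t / 5) ^ 2 ≤ 1 - cos t ^ 2 ∨ (cos t ≤ 0 ∧ (t / 5) ^ 2 ≤ 1) := by
  have h3 := pi_lt_d2
  rcases le_total t (π / 2) with h | h
  · left
    rw [← sin_sq]
    refine pow_le_pow_left₀ (by positivity) (le_trans ?_ (mul_le_sin h0.le h)) 2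
    rw [div_mul_eq_mul_div, div_le_div_iff₀ (by norm_num) pi_pos]
    linarith only [h0, h3, mul_pos_of_neg_of_neg (Mathlib.Tactic.Linarith.sub_neg_of_lt h0) (Mathlib.Tactic.Linarith.sub_neg_of_lt h3)]
  · exact Or.inr ⟨cos_nonpos_of_pi_div_two_le_of_le h (by linarith only [h1]),
      pow_le_one₀ (by positivity) (by linarith only [h1, h3])⟩

theorem Lg_re (z : ℂ) : (Lg z).re = Real.log ‖1 - Complex.exp z‖ := by
  rw [Lg, Complex.sub_re, Complex.log_re, Complex.mul_I_re, Complex.ofReal_im, neg_zero, sub_zero,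
    norm_mul, Complex.norm_I, one_mul]

theorem Lg_diff {z : ℂ} (h0 : 0 ≤ z.im) (h1 : z.im < 3 * π / 2) (hz : z ≠ 0) :
    DifferentiableAt ℂ Lg z := by
  have hs : Complex.I * (1 - Complex.exp z) ∈ Complex.slitPlane := by
    rw [Complex.mem_slitPlane_iff, SCLg_re, SCLg_im]
    rcases h0.eq_or_lt with h | h
    · right
      rw [← h, cos_zero, mul_one]
      exact fun h2 => hz (Complex.ext ((exp_eq_one_iff _).1 (by linarith only [h2])) h.symm)
    rcases lt_or_ge z.im π with h2 | h2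
    · exact Or.inl (mul_pos (exp_pos _) (sin_pos_of_pos_of_lt_pi h h2))
    · right
      have h3 := mul_nonpos_of_nonneg_of_nonpos (exp_pos z.re).le
        (cos_nonpos_of_pi_div_two_le_of_le (x := z.im) (by linarith [pi_pos]) (by linarith))
      linarith
  exact (DifferentiableAt.clog (f := fun z => Complex.I * (1 - Complex.exp z)) (by fun_prop)
    hs).sub_const _

theorem Lg_im_neg {x : ℝ} (hx : x < 0) : (Lg (x : ℂ)).im = 0 := by
  rw [SCLg_arg, Complex.arg_eq_pi_div_two_iff.2, sub_self]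
  rw [SCLg_re, SCLg_im]
  simpa using hx

theorem Lg_im_pos {x : ℝ} (hx : 0 < x) : (Lg (x : ℂ)).im = -π := by
  rw [SCLg_arg, Complex.arg_eq_neg_pi_div_two_iff.2]
  · ring
  rw [SCLg_re, SCLg_im]
  simpa using hx

theorem Lg_im_top (x : ℝ) : (Lg (zz x π)).im = 0 := by
  rw [SCLg_arg, Complex.arg_eq_pi_div_two_iff.2, sub_self]
  rw [SCLg_re, SCLg_im, zz_re, zz_im, sin_pi, cos_pi]
  exact ⟨mul_zero _, by linarith [exp_pos x]⟩

theorem Lg_im_mem {z : ℂ} (h0 : 0 < z.im) (h1 : z.im ≤ π) :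
    z.im - π ≤ (Lg z).im ∧ (Lg z).im ≤ 0 := by
  rcases h1.eq_or_lt with h | h
  · have h2 := Lg_im_top z.re
    rw [← h, zz_eta] at h2
    rw [h2, h, sub_self]
    exact ⟨le_rfl, le_rfl⟩
  have hs := sin_pos_of_pos_of_lt_pi h0 h
  have h2 := abs_le.1 (Complex.abs_arg_le_pi_div_two_iff.2
    ((SCLg_re z).symm ▸ (mul_pos (exp_pos z.re) hs).le))
  rw [SCLg_arg]
  refine ⟨?_, by linarith only [h2, h2.2]⟩
  by_contra h3
  have h4 := sin_neg_of_neg_of_neg_pi_lt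
    (x := Complex.arg (Complex.I * (1 - Complex.exp z)) - (z.im - π / 2)) (by linarith only [h3])
    (by linarith only [h, h2, h2.1])
  have h5 := mul_nonpos_of_nonneg_of_nonpos (norm_nonneg (Complex.I * (1 - Complex.exp z))) h4.le
  rw [sin_sub, cos_sub_pi_div_two, sin_sub_pi_div_two, mul_sub, ← mul_assoc, ← mul_assoc,
    Complex.norm_mul_sin_arg, Complex.norm_mul_cos_arg, SCLg_re, SCLg_im] at h5
  linarith only [hs, h5]

theorem nb_lb (x : ℝ) {t : ℝ} (h0 : 0 < t) (h1 : t ≤ 3 * π / 2) :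
    t / 5 ≤ ‖1 - Complex.exp (zz x t)‖ := by
  refine (pow_le_pow_iff_left₀ (by positivity) (norm_nonneg _) two_ne_zero).1 ?_
  rw [SCLg_sq]
  rcases SCLg_alt h0 h1 with h | ⟨h, h'⟩
  · linarith only [h, sq_nonneg (exp x - cos t), sq_nonneg (rexp x - cos t)]
  · linarith only [h', h, exp_pos x, sq_nonneg ((1 : ℝ) * rexp x), mul_nonneg_of_nonpos_of_nonpos (Mathlib.Tactic.Linarith.sub_nonpos_of_le h) (le_of_lt (Mathlib.Tactic.Linarith.sub_neg_of_lt (exp_pos x)))]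

theorem nb_lb' (x : ℝ) {t : ℝ} (h0 : 0 < t) (h1 : t ≤ 3 * π / 2) :
    exp x * (t / 5) ≤ ‖1 - Complex.exp (zz x t)‖ := by
  refine (pow_le_pow_iff_left₀ (by positivity) (norm_nonneg _) two_ne_zero).1 ?_
  rw [SCLg_sq, mul_pow]
  have h2 := sq_nonneg (exp x)
  rcases SCLg_alt h0 h1 with h | ⟨h, h'⟩
  · linarith only [h, h2, sq_nonneg (exp x * cos t - 1), mul_le_mul_of_nonneg_left h h2, sq_nonneg (rexp x * cos t - (1 : ℝ))]
  · linarith only [h', h2, h, exp_pos x, mul_le_mul_of_nonneg_left h' h2, mul_nonneg_of_nonpos_of_nonpos (Mathlib.Tactic.Linarith.sub_nonpos_of_le h) (le_of_lt (Mathlib.Tactic.Linarith.sub_neg_of_lt (exp_pos x)))]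

theorem nb_re (x t : ℝ) : ‖1 - Complex.exp (x : ℂ)‖ ≤ ‖1 - Complex.exp (zz x t)‖ := by
  refine (pow_le_pow_iff_left₀ (norm_nonneg _) (norm_nonneg _) two_ne_zero).1 ?_
  rw [← zz_zero, SCLg_sq, SCLg_sq, cos_zero]
  (refine le_of_not_gt fun h_nl => ?_; linarith only [h_nl, exp_pos x, cos_le_one t, mul_nonneg_of_nonpos_of_nonpos (Mathlib.Tactic.Linarith.sub_nonpos_of_le (sq_nonneg (rexp x))) (Mathlib.Tactic.Linarith.sub_nonpos_of_le (cos_le_one t)), mul_pos_of_neg_of_neg (Mathlib.Tactic.Linarith.sub_neg_of_lt h_nl) (Mathlib.Tactic.Linarith.sub_neg_of_lt (exp_pos x))])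

theorem nb_ub (x t : ℝ) : ‖1 - Complex.exp (zz x t)‖ ≤ 1 + exp x := by
  refine (norm_sub_le _ _).trans_eq ?_
  rw [norm_one, Complex.norm_exp, zz_re]

end Pool.Agent.Work.MP_267827_an.PS
end
end

-- merged part: Pool.Agent.Work.MP_267827_an.PS.ARef
section
-- merged part: Pool.Agent.Work.MP_267827_an.PS.AMob
section
/-! From the half strip centred at the apex to the strip.

Plan.  `ζ = exp (σ / x + i π τ)` lies in the upper half disc, `w = 2 log ((1 + ζ) / (1 - ζ))` maps it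
onto the strip (`Re ((1 + ζ) / (1 - ζ)) > 0` on the disc; the inverse is `ζ = tanh (w / 4)`).
`1 - exp w = -4 ζ / (1 - ζ) ^ 2`, `dw / dζ = 4 / (1 - ζ ^ 2)`, so
`wt1 (π / 2) (π / 2 - π x) (w) * ‖dw / dζ‖ ^ 2 * ‖ζ‖ ^ 2 = 16 ^ x * exp (2 σ) * WW x x (σ, τ)`.
For `SV V` the function `U = V ∘ w` is in `VV` (it vanishes for `σ` close to `0`, and
`‖ζ‖ = exp (σ / x) ≤ exp σ`).  `cov` and `chain` of CoV.lean with `pt (1 / x) π` give
`∫ en V = π x * Dx x U`, `∫ wt1 V ^ 2 = 16 ^ x (π / x) NW x x U`, `∫ wt1 = 16 ^ x (π / x) NA x`. -/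

set_option autoImplicit false

namespace Pool.Agent.Work.MP_267827_an.PS

open MeasureTheory Set Filter Topology Real

/-- the map of the half strip onto the strip -/
noncomputable def AMob_F (z : ℂ) : ℂ :=
  2 * Complex.log ((1 + Complex.exp z) / (1 - Complex.exp z))

/-- its derivative -/
noncomputable def AMob_F' (z : ℂ) : ℂ := 4 * Complex.exp z / (1 - Complex.exp z ^ 2)

/-- the inverse map to the disc -/
noncomputable def AMob_G (w : ℂ) : ℂ := (Complex.exp (w / 2) - 1) / (Complex.exp (w / 2) + 1)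

theorem AMob_nrm {z : ℂ} (h : z.re < 0) : ‖Complex.exp z‖ < 1 := by
  rw [Complex.norm_exp]
  exact Real.exp_lt_one_iff.2 h

theorem AMob_ne1 {ζ : ℂ} (h : ‖ζ‖ < 1) : 1 - ζ ≠ 0 := by
  intro h0
  have : ζ = 1 := by linear_combination -h0
  rw [this] at h
  simp at h

theorem AMob_ne2 {ζ : ℂ} (h : ‖ζ‖ < 1) : 1 + ζ ≠ 0 := by
  intro h0
  have : ζ = -1 := by linear_combination h0
  rw [this] at h
  simp at h

theorem AMob_re {ζ : ℂ} (h : ‖ζ‖ < 1) : 0 < ((1 + ζ) / (1 - ζ)).re := by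
  have h1 : 0 < Complex.normSq (1 - ζ) := Complex.normSq_pos.2 (AMob_ne1 h)
  have h2 : ζ.re * ζ.re + ζ.im * ζ.im < 1 := by
    rw [← Complex.normSq_apply, ← Complex.sq_norm]
    linarith only [h, norm_nonneg ζ, mul_nonneg_of_nonpos_of_nonpos (le_of_lt (Mathlib.Tactic.Linarith.sub_neg_of_lt h)) (Mathlib.Tactic.Linarith.sub_nonpos_of_le (norm_nonneg ζ))]
  rw [Complex.div_re, ← add_div]
  refine div_pos ?_ h1
  simp
  nlinarith

theorem AMob_imq {ζ : ℂ} (h : 1 - ζ ≠ 0) (hi : 0 < ζ.im) : 0 < ((1 + ζ) / (1 - ζ)).im := by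
  have h1 : 0 < Complex.normSq (1 - ζ) := Complex.normSq_pos.2 h
  rw [Complex.div_im, ← sub_div]
  refine div_pos ?_ h1
  simp
  linarith only [hi]

theorem AMob_der {z : ℂ} (h : z.re < 0) : HasDerivAt AMob_F (AMob_F' z) z := by
  have hn := AMob_nrm h
  have h1 := AMob_ne1 hn
  have h2 := AMob_ne2 hn
  have e := Complex.hasDerivAt_exp z
  have d := ((e.const_add 1).div (e.const_sub 1) h1).clog (Or.inl (AMob_re hn))
  have h3 : 1 - Complex.exp z ^ 2 ≠ 0 := by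
    rw [show 1 - Complex.exp z ^ 2 = (1 - Complex.exp z) * (1 + Complex.exp z) by ring]
    exact mul_ne_zero h1 h2
  refine (d.const_mul 2).congr_deriv ?_
  simp only [AMob_F', Pi.div_apply]
  field_simp
  ring

theorem AMob_exp {z : ℂ} (h : z.re < 0) :
    Complex.exp (AMob_F z / 2) = (1 + Complex.exp z) / (1 - Complex.exp z) := by
  have hn := AMob_nrm h
  rw [AMob_F, mul_div_cancel_left₀ _ two_ne_zero,
    Complex.exp_log (div_ne_zero (AMob_ne2 hn) (AMob_ne1 hn))]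

theorem AMob_GF {z : ℂ} (h : z.re < 0) : AMob_G (AMob_F z) = Complex.exp z := by
  have h1 := AMob_ne1 (AMob_nrm h)
  have h2 : (1 + Complex.exp z) / (1 - Complex.exp z) + 1 = 2 / (1 - Complex.exp z) := by
    field_simp
    ring
  rw [AMob_G, AMob_exp h, h2]
  field_simp
  ring

theorem AMob_mem {z : ℂ} (h : z.re < 0) (h0 : 0 < z.im) (h1 : z.im < π) : AMob_F z ∈ Sc := by
  have hn := AMob_nrm h
  have hi : 0 < (Complex.exp z).im := by
    rw [Complex.exp_im]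
    exact mul_pos (Real.exp_pos _) (Real.sin_pos_of_pos_of_lt_pi h0 h1)
  have hq := AMob_imq (AMob_ne1 hn) hi
  have a1 := Complex.abs_arg_lt_pi_div_two_iff.2 (Or.inl (AMob_re hn))
  have a2 := Complex.arg_nonneg_iff.2 hq.le
  have a3 : Complex.arg ((1 + Complex.exp z) / (1 - Complex.exp z)) ≠ 0 := fun h3 =>
    hq.ne' (Complex.arg_eq_zero_iff.1 h3).2
  have a4 := lt_of_le_of_ne a2 a3.symm
  have a5 := (abs_lt.1 a1).2
  have : (AMob_F z).im = 2 * Complex.arg ((1 + Complex.exp z) / (1 - Complex.exp z)) := by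
    simp [AMob_F, Complex.log_im]
  constructor <;> rw [this] <;> linarith only [a4, a5]

theorem AMob_yre {w : ℂ} (h : |w.im| < π) : 0 < (Complex.exp (w / 2)).re := by
  rw [Complex.exp_re]
  have := abs_lt.1 h
  refine mul_pos (Real.exp_pos _) (Real.cos_pos_of_mem_Ioo ?_)
  simp only [Complex.div_ofNat_im]
  constructor <;> linarith only [this]

theorem AMob_yne {w : ℂ} (h : |w.im| < π) : Complex.exp (w / 2) + 1 ≠ 0 := by
  intro h0
  have h1 := congrArg Complex.re h0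
  have := AMob_yre h
  simp only [Complex.add_re, Complex.one_re, Complex.zero_re] at h1
  linarith only [h1, this]

theorem AMob_G_lt {w : ℂ} (h : |w.im| < π) : ‖AMob_G w‖ < 1 := by
  have h1 := AMob_yre h
  rw [AMob_G, norm_div, div_lt_one (norm_pos_iff.2 (AMob_yne h))]
  refine lt_of_pow_lt_pow_left₀ 2 (norm_nonneg _) ?_
  rw [Complex.sq_norm, Complex.sq_norm, Complex.normSq_apply, Complex.normSq_apply]
  simp only [Complex.sub_re, Complex.add_re, Complex.one_re, Complex.sub_im, Complex.add_im,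
    Complex.one_im]
  linarith only [h1]

theorem AMob_surj {w : ℂ} (hw : w ∈ Sc) :
    ∃ z : ℂ, z.re < 0 ∧ 0 < z.im ∧ z.im < π ∧ AMob_F z = w := by
  have ha : |w.im| < π := abs_lt.2 ⟨by linarith [hw.1, pi_pos], hw.2⟩
  have hy := AMob_yne ha
  have hi : 0 < (Complex.exp (w / 2)).im := by
    rw [Complex.exp_im]
    refine mul_pos (Real.exp_pos _) (Real.sin_pos_of_pos_of_lt_pi ?_ ?_) <;>
      simp only [Complex.div_ofNat_im] <;> linarith only [hw, hw.1, hw.2]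
  have hG : 0 < (AMob_G w).im := by
    rw [AMob_G, Complex.div_im, ← sub_div]
    refine div_pos ?_ (Complex.normSq_pos.2 hy)
    simp only [Complex.sub_re, Complex.add_re, Complex.one_re, Complex.sub_im, Complex.add_im,
      Complex.one_im]
    linarith only [hi]
  have h0 : AMob_G w ≠ 0 := fun h => by rw [h] at hG; simp at hG
  refine ⟨Complex.log (AMob_G w), ?_, ?_, ?_, ?_⟩
  · rw [Complex.log_re]
    exact Real.log_neg (norm_pos_iff.2 h0) (AMob_G_lt ha)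
  · rw [Complex.log_im]
    refine lt_of_le_of_ne (Complex.arg_nonneg_iff.2 hG.le) fun h3 => ?_
    exact hG.ne' (Complex.arg_eq_zero_iff.1 h3.symm).2
  · rw [Complex.log_im]
    exact Complex.arg_lt_pi_iff.2 (Or.inr hG.ne')
  · have e1 : 1 - AMob_G w = 2 / (Complex.exp (w / 2) + 1) := by
      rw [AMob_G]
      field_simp
      ring
    have e2 : (1 + AMob_G w) / (1 - AMob_G w) = Complex.exp (w / 2) := by
      rw [e1, AMob_G]
      field_simp
      ring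
    rw [AMob_F, Complex.exp_log h0, e2, Complex.log_exp]
    · ring
    · simp only [Complex.div_ofNat_im]
      linarith only [hw, hw.1, pi_pos]
    · simp only [Complex.div_ofNat_im]
      linarith only [hw, hw.2, pi_pos]

theorem AMob_neg {x : ℝ} (hx : 0 < x) {p : ℝ × ℝ} (hp : p.1 < 0) : (pt (1 / x) π p).re < 0 := by
  rw [pt_re]
  exact mul_neg_of_pos_of_neg (by positivity) hp

theorem AMob_img {x : ℝ} (hx : 0 < x) :
    (fun p => AMob_F (pt (1 / x) π p)) '' (Iio 0 ×ˢ Ioo 0 1) = Sc := by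
  ext w
  constructor
  · rintro ⟨p, hp, rfl⟩
    refine AMob_mem (AMob_neg hx hp.1) ?_ ?_ <;> rw [pt_im]
    · exact mul_pos pi_pos hp.2.1
    · linarith only [hp, hp.2.2, pi_pos, mul_pos_of_neg_of_neg (Mathlib.Tactic.Linarith.sub_neg_of_lt hp.right.right) (Mathlib.Tactic.Linarith.sub_neg_of_lt pi_pos)]
  · intro hw
    obtain ⟨z, h1, h2, h3, h4⟩ := AMob_surj hw
    refine ⟨(x * z.re, z.im / π), ⟨mul_neg_of_pos_of_neg hx h1, div_pos h2 pi_pos,
      (div_lt_one pi_pos).2 h3⟩, ?_⟩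
    have : pt (1 / x) π (x * z.re, z.im / π) = z := by
      apply Complex.ext
      · rw [pt_re]
        field_simp
      · rw [pt_im]
        field_simp
    beta_reduce
    rw [this, h4]

theorem AMob_inj {x : ℝ} (hx : 0 < x) :
    InjOn (fun p => AMob_F (pt (1 / x) π p)) (Iio 0 ×ˢ Ioo 0 1) := by
  intro p hp p' hp' h
  have h1 := congrArg AMob_G h
  beta_reduce at h1
  rw [AMob_GF (AMob_neg hx hp.1), AMob_GF (AMob_neg hx hp'.1)] at h1
  have b : ∀ q : ℝ × ℝ, q.2 ∈ Ioo (0 : ℝ) 1 →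
      -π < (pt (1 / x) π q).im ∧ (pt (1 / x) π q).im ≤ π := by
    intro q hq
    rw [pt_im]
    constructor <;> nlinarith [hq.1, hq.2, pi_pos]
  have h2 := Complex.exp_inj_of_neg_pi_lt_of_le_pi (b p hp.2).1 (b p hp.2).2 (b p' hp'.2).1
    (b p' hp'.2).2 h1
  have h3 := congrArg Complex.re h2
  have h4 := congrArg Complex.im h2
  rw [pt_re, pt_re] at h3
  rw [pt_im, pt_im] at h4
  exact Prod.ext (mul_left_cancel₀ (by positivity) h3) (mul_left_cancel₀ pi_pos.ne' h4)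

theorem AMob_cov {x : ℝ} (hx : 0 < x) (g : ℝ × ℝ → ℝ) :
    ∫ q in St, g q = ∫ p, π / x * ‖AMob_F' (pt (1 / x) π p)‖ ^ 2 *
      g ((AMob_F (pt (1 / x) π p)).re, (AMob_F (pt (1 / x) π p)).im) ∂nu := by
  have hSt : MeasurableSet St :=
    ((isOpen_lt continuous_const continuous_snd).inter
      (isOpen_lt continuous_snd continuous_const)).measurableSet
  have c1 := (cov (D := St) hSt (F := id) (F' := fun _ => 1) one_pos one_pos
    (fun p _ => hasDerivAt_id _) (fun p _ p' _ h => by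
      have h3 := congrArg Complex.re h
      have h4 := congrArg Complex.im h
      simp only [id, pt_re, pt_im, one_mul] at h3 h4
      exact Prod.ext h3 h4) (fun w : ℂ => g (w.re, w.im))).2.2
  have c2 := (cov (measurableSet_Iio.prod measurableSet_Ioo) (F := AMob_F) (F' := AMob_F')
    (one_div_pos.2 hx) pi_pos (fun p hp => AMob_der (AMob_neg hx hp.1)) (AMob_inj hx)
    (fun w : ℂ => g (w.re, w.im))).2.2
  have him : (fun p => id (pt 1 1 p)) '' St = Sc := by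
    ext w
    constructor
    · rintro ⟨p, hp, rfl⟩
      simpa [Sc, St] using hp
    · intro hw
      exact ⟨(w.re, w.im), hw, by apply Complex.ext <;> simp⟩
  rw [him] at c1
  rw [AMob_img hx, c1] at c2
  simp only [id, pt_re, pt_im, one_mul, norm_one, one_pow, smul_eq_mul, Prod.mk.eta] at c2
  rw [c2, TwoD_nu']
  refine integral_congr_ae (Eventually.of_forall fun p => ?_)
  beta_reduce
  ring

theorem AMob_wt {x : ℝ} (hx : 0 < x) {p : ℝ × ℝ} (hp : p.1 < 0) :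
    ‖AMob_F' (pt (1 / x) π p)‖ ^ 2 * wt1 (π / 2) (π / 2 - π * x)
      ((AMob_F (pt (1 / x) π p)).re, (AMob_F (pt (1 / x) π p)).im) =
      exp (2 * x * log 4) * (exp (2 * p.1) * WW x x p) := by
  obtain ⟨z, hz⟩ : ∃ z, z = pt (1 / x) π p := ⟨_, rfl⟩
  have hre : z.re < 0 := hz ▸ AMob_neg hx hp
  have hn := AMob_nrm hre
  have h1 := AMob_ne1 hn
  have h2 := AMob_ne2 hn
  have hW : WW x x p = exp (-(4 * x) * log ‖1 - Complex.exp z‖) := by
    have : ((p.1 / x : ℝ) : ℂ) + π * p.2 * Complex.I = z := by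
      rw [hz, pt]
      push_cast
      ring
    rw [WW, xx, u1, this]
    congr 1
    ring
  rw [← hz, hW]
  have e1 : pt 1 1 ((AMob_F z).re, (AMob_F z).im) - ((0 : ℝ) : ℂ) = AMob_F z := by
    apply Complex.ext <;> simp
  have e2 : Complex.exp (AMob_F z) = ((1 + Complex.exp z) / (1 - Complex.exp z)) ^ 2 := by
    rw [← AMob_exp hre, ← Complex.exp_nat_mul]
    congr 1
    push_cast
    ring
  have e3 : 1 - Complex.exp (AMob_F z) = -4 * Complex.exp z / (1 - Complex.exp z) ^ 2 := by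
    rw [e2]
    field_simp
    ring
  have e4 : exp (AMob_F z).re = (‖1 + Complex.exp z‖ / ‖1 - Complex.exp z‖) ^ 2 := by
    rw [← Complex.norm_exp, e2, norm_pow, norm_div]
  have e5 : ‖AMob_F' z‖ = 4 * ‖Complex.exp z‖ / (‖1 - Complex.exp z‖ * ‖1 + Complex.exp z‖) := by
    rw [AMob_F', show 1 - Complex.exp z ^ 2 = (1 - Complex.exp z) * (1 + Complex.exp z) by ring,
      norm_div, norm_mul, norm_mul]
    simp
  have e6 : ‖1 - Complex.exp (AMob_F z)‖ = 4 * ‖Complex.exp z‖ / ‖1 - Complex.exp z‖ ^ 2 := by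
    rw [e3, norm_div, norm_mul, norm_pow]
    simp
  have e7 : ‖Complex.exp z‖ = exp (1 / x * p.1) := by rw [Complex.norm_exp, hz, pt_re]
  have e8 : 2 * (π / 2) * (AMob_F z).re / π = (AMob_F z).re := by field_simp
  have e9 : -(2 * ((π / 2 - π * x + π / 2) / π)) = 2 * x - 2 := by
    field_simp
    ring
  rw [wt1, wtF, Finset.prod_range_one, e1, e8, e9, e4, e5, e6]
  have hb := norm_pos_iff.2 h1
  have hc := norm_pos_iff.2 h2
  have ha : 0 < ‖Complex.exp z‖ := norm_pos_iff.2 (Complex.exp_ne_zero z)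
  generalize ‖1 - Complex.exp z‖ = b at hb ⊢
  generalize ‖1 + Complex.exp z‖ = c at hc ⊢
  have ht : 0 < 4 * ‖Complex.exp z‖ / b ^ 2 := by positivity
  have e10 : (4 * ‖Complex.exp z‖ / b ^ 2) ^ (2 * x) =
      exp (2 * x * log 4) * (exp (2 * p.1) * exp (-(4 * x) * log b)) := by
    rw [Real.rpow_def_of_pos ht, ← Real.exp_add, ← Real.exp_add, Real.log_div (by positivity)
      (by positivity), Real.log_mul (by norm_num) ha.ne', e7, Real.log_exp, Real.log_pow]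
    congr 1
    push_cast
    field_simp
    ring
  rw [Real.rpow_sub ht, e10, Real.rpow_two]
  field_simp

theorem AMob_VV {x : ℝ} (hx : 0 < x) (hx' : x < 1 / 2) {u : ℂ → ℝ} (hu : ContDiff ℝ 1 u)
    {S δ : ℝ} (hδ : 0 < δ) (hs : ∀ w, u w ≠ 0 → |w.re| ≤ S ∧ |w.im| ≤ π - δ) :
    VV fun p => u (AMob_F (pt (1 / x) π p)) := by
  have hcl : IsClosed {w : ℂ | |w.re| ≤ S ∧ |w.im| ≤ π - δ} :=
    (isClosed_le Complex.continuous_re.abs continuous_const).inter
      (isClosed_le Complex.continuous_im.abs continuous_const)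
  have hK : IsCompact {w : ℂ | |w.re| ≤ S ∧ |w.im| ≤ π - δ} := by
    refine Metric.isCompact_of_isClosed_isBounded hcl ?_
    refine (Metric.isBounded_closedBall (x := (0 : ℂ)) (r := S + (π - δ))).subset fun w hw => ?_
    rw [mem_closedBall_zero_iff]
    linarith only [hw, Complex.norm_le_abs_re_add_abs_im w, hw.1, hw.2]
  have hts : tsupport u ⊆ {w : ℂ | |w.re| ≤ S ∧ |w.im| ≤ π - δ} := closure_minimal hs hcl
  have hcs : HasCompactSupport u := hK.of_isClosed_subset (isClosed_tsupport u) hts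
  obtain ⟨C0, hC0⟩ := hcs.exists_bound_of_continuous hu.continuous
  obtain ⟨C1, hC1⟩ := (hcs.fderiv (𝕜 := ℝ)).exists_bound_of_continuous
    (hu.continuous_fderiv one_ne_zero)
  have p0 : 0 ≤ C0 := (norm_nonneg _).trans (hC0 0)
  have p1 : 0 ≤ C1 := (norm_nonneg _).trans (hC1 0)
  have hGc : ContinuousOn (fun w => 1 - ‖AMob_G w‖) {w : ℂ | |w.re| ≤ S ∧ |w.im| ≤ π - δ} := by
    clear * - S δ hδ
    refine continuousOn_const.sub (ContinuousOn.norm ?_)
    exact ContinuousOn.div (by fun_prop) (by fun_prop) fun w hw =>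
      AMob_yne (by linarith [hw.2])
  obtain ⟨ε, hε, hG⟩ := hK.exists_forall_le' hGc (a := 0) fun w hw => by
    have := AMob_G_lt (w := w) (by linarith only [hδ, hw, hw.2])
    linarith
  have hd := hu.differentiable one_ne_zero
  constructor
  · refine hu.comp_contDiffOn ?_
    have hF : ContDiffOn ℂ 1 AMob_F {z : ℂ | z.re < 0} :=
      DifferentiableOn.contDiffOn
        (fun z hz => (AMob_der hz).differentiableAt.differentiableWithinAt)
        (isOpen_lt Complex.continuous_re continuous_const)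
    exact (hF.restrict_scalars ℝ).comp (contDiff_pt _ _).contDiffOn fun p hp => AMob_neg hx hp
  · refine ⟨C0 + C0 / (x * ε) + 1 / x * (C1 * (4 / ε)) + π * (C1 * (4 / ε)), fun p hp _ => ?_⟩
    have hre := AMob_neg hx hp
    obtain ⟨c1, c2⟩ := chain (u := u) (AMob_der hre) (hd _)
    have q1 : 0 ≤ C0 / (x * ε) := by positivity
    have q2 : 0 ≤ 1 / x * (C1 * (4 / ε)) := by positivity
    have q3 : 0 ≤ π * (C1 * (4 / ε)) := by positivity
    have ep := Real.exp_pos p.1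
    rw [c1, c2]
    by_cases hm : AMob_F (pt (1 / x) π p) ∈ tsupport u
    · have g1 := hG _ (hts hm)
      rw [AMob_GF hre] at g1
      have g2 : ‖Complex.exp (pt (1 / x) π p)‖ = exp (1 / x * p.1) := by
        rw [Complex.norm_exp, pt_re]
      have g3 : x * ε ≤ |p.1| := by
        clear * - x ε p hp g1 g2 hx
        rw [abs_of_neg hp]
        have := Real.add_one_le_exp (1 / x * p.1)
        have h5 : 1 / x * p.1 ≤ -ε := by linarith only [g1, g2, this]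
        have h6 := mul_le_mul_of_nonneg_left h5 hx.le
        rw [← mul_assoc, mul_one_div_cancel hx.ne'] at h6
        linarith only [h6]
      have g4 : ‖Complex.exp (pt (1 / x) π p)‖ ≤ exp p.1 := by
        clear * - x p g2 hx hx' hp
        rw [g2]
        refine Real.exp_le_exp.2 ?_
        have : 1 ≤ 1 / x := by
          rw [le_div_iff₀ hx]
          linarith only [hx, hx']
        (refine le_of_not_gt fun h_nl => ?_; linarith only [h_nl, hx, hx', hp, this, mul_pos_of_neg_of_neg (Mathlib.Tactic.Linarith.sub_neg_of_lt hx) (Mathlib.Tactic.Linarith.sub_neg_of_lt h_nl), mul_pos_of_neg_of_neg (Mathlib.Tactic.Linarith.sub_neg_of_lt hx') (Mathlib.Tactic.Linarith.sub_neg_of_lt h_nl), mul_nonneg_of_nonpos_of_nonpos (le_of_lt (Mathlib.Tactic.Linarith.sub_neg_of_lt hp)) (Mathlib.Tactic.Linarith.sub_nonpos_of_le this)])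
      have g5 : ε ≤ ‖1 - Complex.exp (pt (1 / x) π p) ^ 2‖ := by
        clear * - x p ε g1 hx hx' hε hre
        have h5 := norm_sub_norm_le (1 : ℂ) (Complex.exp (pt (1 / x) π p) ^ 2)
        rw [norm_one, norm_pow] at h5
        (refine le_of_not_gt fun h_nl => ?_; linarith only [h_nl, g1, h5, hx, hx', hε, norm_nonneg (Complex.exp (pt (1 / x) π p)), AMob_nrm hre, mul_pos_of_neg_of_neg (Mathlib.Tactic.Linarith.sub_neg_of_lt hx) (Mathlib.Tactic.Linarith.sub_neg_of_lt h_nl), mul_pos_of_neg_of_neg (Mathlib.Tactic.Linarith.sub_neg_of_lt hx') (Mathlib.Tactic.Linarith.sub_neg_of_lt h_nl), mul_nonneg_of_nonpos_of_nonpos (le_of_lt (Mathlib.Tactic.Linarith.sub_neg_of_lt hε)) (Mathlib.Tactic.Linarith.sub_nonpos_of_le (norm_nonneg (Complex.exp (pt ((1 : ℝ) / x) π p)))), mul_nonneg_of_nonpos_of_nonpos (Mathlib.Tactic.Linarith.sub_nonpos_of_le g1) (Mathlib.Tactic.Linarith.sub_nonpos_of_le (norm_nonneg (Complex.exp (pt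 ((1 : ℝ) / x) π p))))])
      have g6 : ‖AMob_F' (pt (1 / x) π p)‖ ≤ 4 / ε * exp p.1 := by
        rw [AMob_F', norm_div, norm_mul, div_mul_eq_mul_div]
        refine div_le_div₀ (by positivity) ?_ hε g5
        simp only [Complex.norm_ofNat]
        linarith only [g4]
      have g7 : ∀ c : ℂ, ‖c‖ ≤ 4 / ε * exp p.1 →
          |fderiv ℝ u (AMob_F (pt (1 / x) π p)) c| ≤ C1 * (4 / ε) * exp p.1 := by
        intro c hc
        have := (fderiv ℝ u (AMob_F (pt (1 / x) π p))).le_opNorm c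
        rw [mul_assoc]
        exact this.trans (mul_le_mul (hC1 _) hc (norm_nonneg _) p1)
      have g8 := g7 _ g6
      have g9 := g7 (Complex.I * AMob_F' (pt (1 / x) π p)) (by simpa using g6)
      have g10 : |u (AMob_F (pt (1 / x) π p))| ≤ C0 := hC0 _
      refine ⟨by linarith only [q1, q2, q3, g10], ?_, ?_, ?_⟩
      · have h5 : C0 ≤ C0 / (x * ε) * |p.1| := by
          rw [div_mul_eq_mul_div, le_div_iff₀ (by positivity)]
          exact mul_le_mul_of_nonneg_left g3 p0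
        linarith only [g10, h5, p0, q2, q3, abs_nonneg p.1, mul_nonneg (add_nonneg (add_nonneg p0 q2) q3) (abs_nonneg p.1)]
      · rw [abs_mul, abs_of_pos (one_div_pos.2 hx)]
        have h5 := mul_le_mul_of_nonneg_left g8 (one_div_pos.2 hx).le
        clear * - x u p C0 ε C1 h5 p0 q1 q3 ep
        linarith only [h5, p0, q1, q3, ep, mul_nonneg (add_nonneg (add_nonneg p0 q1) q3) ep.le]
      · rw [abs_mul, abs_of_pos pi_pos]
        have h5 := mul_le_mul_of_nonneg_left g9 pi_pos.le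
        clear * - u x p C0 ε C1 h5 p0 q1 q2 ep
        linarith only [h5, p0, q1, q2, ep, mul_nonneg (add_nonneg (add_nonneg p0 q1) q2) ep.le]
    · rw [image_eq_zero_of_notMem_tsupport hm, fderiv_of_notMem_tsupport ℝ hm]
      simp only [zero_apply, mul_zero, abs_zero]
      refine ⟨?_, ?_, ?_, ?_⟩ <;> positivity

theorem mob {x M : ℝ} (hx : 0 < x) (hx' : x < 1 / 2) (h : HH x M) :
    StripLow (π * jj ^ 2 * M / 2) (π / 2) (π / 2 - π * x) := by
  intro V hV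
  obtain ⟨S, δ, hδ, hs⟩ := hV.supp
  obtain ⟨u, hu⟩ : ∃ u : ℂ → ℝ, u = fun w => V (w.re, w.im) := ⟨_, rfl⟩
  have huc : ContDiff ℝ 1 u := by
    rw [hu]
    exact hV.c1.comp Complex.equivRealProdCLM.contDiff
  have hd := huc.differentiable one_ne_zero
  have hU := AMob_VV hx hx' huc (S := S) hδ fun w hw => hs (w.re, w.im) (by rwa [hu] at hw)
  have hH := h _ hU
  have hVu : V = fun p => u (id (pt 1 1 p)) := by
    funext p
    simp [hu]
  have hen : ∀ w : ℂ, en V (w.re, w.im) = ‖fderiv ℝ u w‖ ^ 2 := by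
    intro w
    obtain ⟨c1, c2⟩ := chain (u := u) (F := id) (a := 1) (q := 1) (p := (w.re, w.im))
      (hasDerivAt_id _) (hd _)
    have e : id (pt 1 1 (w.re, w.im)) = w := by apply Complex.ext <;> simp
    rw [en, hVu, c1, c2, e, one_mul, one_mul, norm_sq_dual]
    simp
  have i1 : ∫ q in St, wt1 (π / 2) (π / 2 - π * x) q * V q ^ 2 =
      π / x * exp (2 * x * log 4) * NW x x fun p => u (AMob_F (pt (1 / x) π p)) := by
    rw [AMob_cov hx, NW, ← integral_const_mul]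
    refine integral_congr_ae (ae_nu fun p hp _ => ?_)
    have := AMob_wt hx hp
    simp only [hu]
    linear_combination π / x * V ((AMob_F (pt (1 / x) π p)).re,
      (AMob_F (pt (1 / x) π p)).im) ^ 2 * this
  have i2 : ∫ q in St, wt1 (π / 2) (π / 2 - π * x) q = π / x * exp (2 * x * log 4) * NA x := by
    rw [AMob_cov hx, NA, ← integral_const_mul]
    refine integral_congr_ae (ae_nu fun p hp _ => ?_)
    have := AMob_wt hx hp
    beta_reduce
    linear_combination π / x * this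
  have i3 : ∫ q in St, en V q = π * x * Dx x fun p => u (AMob_F (pt (1 / x) π p)) := by
    clear * - V x u hx hU hd hen
    rw [AMob_cov hx, Dx, Ds, Dt, ← integral_div, ← integral_add hU.int_s (hU.int_t.div_const _),
      ← integral_const_mul]
    refine integral_congr_ae (ae_nu fun p hp _ => ?_)
    obtain ⟨c1, c2⟩ := chain (u := u) (AMob_der (AMob_neg hx hp)) (hd _)
    beta_reduce
    rw [hen, c1, c2, mul_assoc, ← norm_sq_dual]
    field_simp
  rw [i1, i2, i3]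
  have hc : 0 ≤ π ^ 2 * exp (2 * x * log 4) / (2 * x) := by positivity
  have := mul_le_mul_of_nonneg_left hH hc
  rw [AA] at this
  refine le_of_eq_of_le ?_ (this.trans_eq ?_) <;> field_simp

end Pool.Agent.Work.MP_267827_an.PS
end

-- merged part: Pool.Agent.Work.MP_267827_an.PS.JJ
section
/-! Two-sided polynomial bounds for the Bessel function and its first zero (helper11). -/

set_option autoImplicit false

namespace Pool.Agent.Work.MP_267827_an.PS

open MeasureTheory Set Filter Topology Real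

noncomputable section

/-- coefficients of the Bessel series -/
def cJ (k : ℕ) : ℝ := (-1) ^ k / (4 ^ k * (k.factorial : ℝ) ^ 2)

/-- sums of the Bessel series -/
def SJ (n : ℕ) (x : ℝ) : ℝ := ∑ k ∈ Finset.range (n + 1), cJ k * x ^ (2 * k)

/-- their derivatives -/
def DJ (n : ℕ) (x : ℝ) : ℝ := ∑ k ∈ Finset.range n, cJ (k + 1) * (2 * k + 2) * x ^ (2 * k + 1)

theorem cJ_succ (k : ℕ) : cJ (k + 1) * (2 * k + 2) ^ 2 = -cJ k := by
  have : (k.factorial : ℝ) ≠ 0 := by positivity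
  simp only [cJ, Nat.factorial_succ, pow_succ]
  push_cast
  field_simp
  ring

theorem SJ_der (n : ℕ) (x : ℝ) : HasDerivAt (SJ n) (DJ n x) x := by
  induction n with
  | zero =>
    have : SJ 0 = fun _ => 1 := by funext y; simp [SJ, cJ]
    rw [this]
    simpa [DJ] using hasDerivAt_const x (1 : ℝ)
  | succ n ih =>
    have : SJ (n + 1) = fun y => SJ n y + cJ (n + 1) * y ^ (2 * (n + 1)) := by
      funext y; simp only [SJ]; rw [Finset.sum_range_succ]
    rw [this]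
    refine (ih.add ((hasDerivAt_pow _ x).const_mul _)).congr_deriv ?_
    simp only [DJ]
    rw [Finset.sum_range_succ, show 2 * (n + 1) - 1 = 2 * n + 1 by omega]
    push_cast
    ring

theorem xDJ_der (n : ℕ) (x : ℝ) : HasDerivAt (fun y => y * DJ (n + 1) y) (-(x * SJ n x)) x := by
  have e : (fun y => y * DJ (n + 1) y) = fun y => ∑ k ∈ Finset.range (n + 1),
      cJ (k + 1) * (2 * k + 2) * y ^ (2 * k + 2) := by
    funext y
    simp only [DJ, Finset.mul_sum]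
    exact Finset.sum_congr rfl fun k _ => by ring
  rw [e]
  refine (HasDerivAt.fun_sum fun k _ => (hasDerivAt_pow (2 * k + 2) x).const_mul
    (cJ (k + 1) * (2 * k + 2))).congr_deriv ?_
  simp only [SJ, Finset.mul_sum, ← Finset.sum_neg_distrib]
  refine Finset.sum_congr rfl fun k _ => ?_
  rw [show 2 * k + 2 - 1 = 2 * k + 1 by omega]
  push_cast
  linear_combination (x ^ (2 * k + 1)) * cJ_succ k

theorem nonneg_of_der {f f' : ℝ → ℝ} (h : ∀ x, HasDerivAt f (f' x) x) (h0 : f 0 = 0)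
    (hp : ∀ x, 0 < x → 0 ≤ f' x) {x : ℝ} (hx : 0 ≤ x) : 0 ≤ f x := by
  have m : MonotoneOn f (Ici 0) := monotoneOn_of_deriv_nonneg (convex_Ici 0)
    (fun y _ => (h y).continuousAt.continuousWithinAt)
    (fun y _ => (h y).differentiableAt.differentiableWithinAt)
    fun y hy => by rw [(h y).deriv]; exact hp y (by simpa using hy)
  simpa [h0] using m (mem_Ici.2 le_rfl) hx hx

theorem SJ_zero (n : ℕ) : SJ n 0 = 1 := by
  simp [SJ, Finset.sum_range_succ', cJ]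

theorem J1_step {n : ℕ} (ih : ∀ x, 0 ≤ x → 0 ≤ (-1) ^ n * (SJ n x - J0 x)) {x : ℝ} (hx : 0 < x) :
    0 ≤ (-1) ^ (n + 1) * (DJ (n + 1) x - J1 x) := by
  have := nonneg_of_der (f := fun y => (-1) ^ (n + 1) * (y * DJ (n + 1) y - y * J1 y))
    (fun y => ((xDJ_der n y).sub (xJ1_der y)).const_mul _) (by simp)
    (fun y hy => by
      have := mul_nonneg hy.le (ih y hy.le)
      rw [pow_succ]
      linarith) hx.le
  refine nonneg_of_mul_nonneg_right (a := x) ?_ hx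
  linarith

/-- the sums of the series enclose the Bessel function -/
theorem J0_alt (n : ℕ) : ∀ x, 0 ≤ x → 0 ≤ (-1) ^ n * (SJ n x - J0 x) := by
  induction n with
  | zero =>
    intro x _
    have := (abs_le.1 (abs_J0_le x)).2
    simpa [SJ, cJ] using this
  | succ n ih =>
    intro x hx
    exact nonneg_of_der (f := fun y => (-1) ^ (n + 1) * (SJ (n + 1) y - J0 y))
      (fun y => ((SJ_der (n + 1) y).sub (J0_der y)).const_mul _) (by simp [SJ_zero, J0_zero])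
      (fun y hy => J1_step ih hy) hx

/-- the same for the derivative -/
theorem J1_alt (n : ℕ) {x : ℝ} (hx : 0 < x) : 0 ≤ (-1) ^ (n + 1) * (DJ (n + 1) x - J1 x) :=
  J1_step (J0_alt n) hx

theorem jj_lt : jj < 2.40483 := by
  have h := J0_alt 6 2.40483 (by norm_num)
  have s : SJ 6 2.40483 < 0 := by
    simp only [SJ, cJ, Finset.sum_range_succ, Finset.sum_range_zero, Nat.factorial]
    norm_num
  by_contra c
  rcases (not_lt.1 c).eq_or_lt with e | e
  · rw [e, jj_mem.2] at h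
    rw [e] at s
    norm_num at h
    linarith only [s, h]
  · have := J0_pos (by norm_num) e
    norm_num at h
    norm_num at this s
    linarith only [h, this, s]

theorem lt_jj : 2.40482 < jj := by
  by_contra c
  have c := not_lt.1 c
  have h := J0_alt 7 2.40482 (by norm_num)
  have s : 0 < SJ 7 2.40482 := by
    simp only [SJ, cJ, Finset.sum_range_succ, Finset.sum_range_zero, Nat.factorial]
    norm_num
  have m : AntitoneOn J0 (Icc 0 2.5) := antitoneOn_of_deriv_nonpos (convex_Icc _ _)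
    continuous_J0.continuousOn (fun y _ => (J0_der y).differentiableAt.differentiableWithinAt)
    fun y hy => by
      rw [interior_Icc] at hy
      have := J1_alt 1 hy.1
      simp only [DJ, cJ, Finset.sum_range_succ, Finset.sum_range_zero, Nat.factorial] at this
      norm_num at this
      rw [(J0_der y).deriv]
      have y2 : y ^ 2 ≤ 8 := by linarith only [hy, hy.1, hy.2, mul_pos_of_neg_of_neg (Mathlib.Tactic.Linarith.sub_neg_of_lt hy.left) (Mathlib.Tactic.Linarith.sub_neg_of_lt hy.right)]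
      linarith only [this, hy, y2, mul_nonneg hy.1.le (sub_nonneg.2 y2)]
  have := m ⟨jj_pos.le, by linarith⟩ ⟨by norm_num, by norm_num⟩ c
  rw [jj_mem.2] at this
  norm_num at h this s
  linarith only [h, this, s]

theorem jj_le' : jj ≤ 2.405 := by linarith only [jj_lt]

theorem abs_J2_le (x : ℝ) : |J2 x| ≤ 1 := by
  have h := intervalIntegral.norm_integral_le_of_norm_le_const (a := 0) (b := π) (C := 1)
    (f := fun τ => sin τ ^ 2 * cos (x * sin τ)) fun τ _ => by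
      rw [norm_mul]
      refine mul_le_one₀ ?_ (norm_nonneg _) (abs_cos_le_one _)
      rw [Real.norm_of_nonneg (sq_nonneg _)]
      exact sin_sq_le_one τ
  rw [J2, abs_div, abs_neg, abs_of_pos pi_pos, div_le_one pi_pos]
  simpa [abs_of_pos pi_pos] using h

/-- the derivative at the first zero -/
theorem J1_jj : -0.51916 < J1 jj ∧ J1 jj < -0.51913 := by
  have l := convex_univ.norm_image_sub_le_of_norm_hasDerivWithin_le (f := J1) (f' := J2) (C := 1)
    (fun x _ => (J1_der x).hasDerivWithinAt) (fun x _ => abs_J2_le x) (mem_univ 2.404825)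
    (mem_univ jj)
  have d : ‖jj - 2.404825‖ ≤ 0.000005 := abs_le.2 ⟨by linarith only [lt_jj], by linarith only [jj_lt]⟩
  have l2 := abs_le.1 (l.trans ((one_mul _).le.trans d))
  have a := J1_alt 6 (x := 2.404825) (by norm_num)
  have b := J1_alt 7 (x := 2.404825) (by norm_num)
  have a' : -0.519152 < DJ 7 2.404825 := by
    simp only [DJ, cJ, Finset.sum_range_succ, Finset.sum_range_zero, Nat.factorial]
    norm_num
  have b' : DJ 8 2.404825 < -0.519142 := by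
    simp only [DJ, cJ, Finset.sum_range_succ, Finset.sum_range_zero, Nat.factorial]
    norm_num
  norm_num at a b a' b' l2 ⊢
  constructor <;> linarith only [a, b, a', b', l2, l2.1, l2.2]

end

end Pool.Agent.Work.MP_267827_an.PS
end

-- merged part: Pool.Agent.Work.MP_267827_an.PS.ARef
section
/-! Right triangles with opening at least `π / 4` (owner helper11).

Affine image of `{X, Y > 0, X + Y < 1}` with base `Y = 0` (right angle at the origin, base length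
`T = tan θ` times the height): eigenvalue times area is the infimum of
the quotient of `UX ^ 2 / T + T * UY ^ 2` by `2 U ^ 2`.  Three inequalities by Barta's argument:
`UX ^ 2 + UY ^ 2 ≥ π ^ 2 / 2 * U ^ 2` (square, `T = 1`), the equilateral triangle (`T = √3`), and
`UY ^ 2 ≥ π ^ 2 / 4 * U ^ 2`; positive combinations give the bound. -/

set_option autoImplicit false

namespace Pool.Agent.Work.MP_267827_an.PS

open MeasureTheory Set Filter Topology Real

theorem jj_sq_le : jj ^ 2 ≤ 579 / 100 := by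
  linarith only [jj_le', jj_pos, mul_nonneg_of_nonpos_of_nonpos (Mathlib.Tactic.Linarith.sub_nonpos_of_le jj_le') (le_of_lt (Mathlib.Tactic.Linarith.sub_neg_of_lt jj_pos))]

theorem ref_tri {θ : ℝ} (h1 : π / 4 ≤ θ) (h2 : θ < π / 2) :
    TriLow (π ^ 2 / 24 * min (1 / tan θ + 5 * tan θ) (7 / tan θ + 3 * tan θ)) (π / 2)
      (π / 2 - θ) := by
  have h := triLow_barta h1 h2
  have e : cos θ / sin θ = 1 / tan θ := by rw [tan_eq_sin_div_cos, one_div_div]
  rwa [e, mul_one_div] at h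

theorem ref_num {x₀ θ : ℝ} (h0 : 0 < x₀) (h5 : x₀ ≤ 1 / 5) (h1 : π / 4 ≤ θ) (h2 : θ < π / 2) :
    π * jj ^ 2 * (x₀ + 23 / 20 * x₀ ^ 3 + (1 + 26 / 5 * x₀ ^ 2) * (θ / π - x₀)) / 2 <
      π ^ 2 / 24 * min (1 / tan θ + 5 * tan θ) (7 / tan θ + 3 * tan θ) := by
  have hp := pi_pos
  have p3 := pi_gt_d4
  have c : 0 < cos θ := cos_pos_of_mem_Ioo ⟨by linarith only [h0, h5, h1, p3], h2⟩
  have s : 0 < sin θ := sin_pos_of_pos_of_lt_pi (by linarith only [h0, h5, h1, p3]) (by linarith only [h0, h5, h2, p3])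
  have cs : cos θ ≤ sin θ := by
    rw [← sin_pi_div_two_sub]
    exact sin_le_sin_of_le_of_le_pi_div_two (by linarith only [h0, h5, h2, p3]) h2.le (by linarith only [h1])
  have T1 : 1 ≤ tan θ := by rw [tan_eq_sin_div_cos, le_div_iff₀ c]; linarith only [cs]
  have e : tan (θ - π / 4) = (tan θ - 1) / (tan θ + 1) := by
    rw [tan_eq_sin_div_cos, tan_eq_sin_div_cos, sin_sub, cos_sub, sin_pi_div_four, cos_pi_div_four]
    field_simp
    ring
  have a := le_tan (x := θ - π / 4) (by linarith only [h1]) (by linarith only [h0, h5, h2, p3])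
  rw [e] at a
  generalize tan θ = T at *
  set t := (T - 1) / (T + 1) with ht
  have t0 : 0 ≤ t := div_nonneg (by linarith only [T1]) (by linarith only [h0, h5, T1])
  have x1 : 1 / 4 ≤ θ / π := by rw [le_div_iff₀ hp]; linarith only [h1]
  have x2 : θ / π ≤ 1 / 4 + 0.31832 * t := by clear * - θ t hp x₀ T h1 h0 h5 p3 a h2; rw [div_le_iff₀ hp]; (refine le_of_not_gt fun h_nl => ?_; linarith only [h_nl, h1, h0, h5, p3, a, h2, mul_pos_of_neg_of_neg (Mathlib.Tactic.Linarith.sub_neg_of_lt h0) (Mathlib.Tactic.Linarith.sub_neg_of_lt h_nl), mul_nonneg_of_nonpos_of_nonpos (Mathlib.Tactic.Linarith.sub_nonpos_of_le h5) (le_of_lt (Mathlib.Tactic.Linarith.sub_neg_of_lt h_nl)), mul_nonneg_of_nonpos_of_nonpos (Mathlib.Tactic.Linarith.sub_nonpos_of_le h1) (le_of_lt (Mathlib.Tactic.Linarith.sub_neg_of_lt p3)), mul_nonneg_of_nonpos_of_nonpos (Mathlib.Tactic.Linarith.sub_nonpos_of_le h1) (Mathlib.Tactic.Linarith.sub_nonpos_of_le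 a), mul_nonneg_of_nonpos_of_nonpos (le_of_lt (Mathlib.Tactic.Linarith.sub_neg_of_lt h2)) (Mathlib.Tactic.Linarith.sub_nonpos_of_le a)])
  generalize θ / π = x at *
  have y : x₀ + 23 / 20 * x₀ ^ 3 + (1 + 26 / 5 * x₀ ^ 2) * (x - x₀) ≤ 1.208 * x - 0.0324 := by
    clear * - x₀ h5 x x1 h0
    have d := sub_nonneg.2 h5
    have k : 0 ≤ 26 / 5 * (1 / 5 + x₀) * x - 81 / 20 * (1 / 25 + x₀ / 5 + x₀ ^ 2) := by linarith only [h5, x1, h0, mul_pos_of_neg_of_neg (Mathlib.Tactic.Linarith.sub_neg_of_lt h0) (Mathlib.Tactic.Linarith.sub_neg_of_lt h0), mul_nonneg_of_nonpos_of_nonpos (le_of_lt (Mathlib.Tactic.Linarith.sub_neg_of_lt h0)) (Mathlib.Tactic.Linarith.sub_nonpos_of_le h5), mul_nonneg_of_nonpos_of_nonpos (le_of_lt (Mathlib.Tactic.Linarith.sub_neg_of_lt h0)) (Mathlib.Tactic.Linarith.sub_nonpos_of_le x1)]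
    linarith only [d, k, mul_nonneg d k]
  have y2 : jj ^ 2 * (x₀ + 23 / 20 * x₀ ^ 3 + (1 + 26 / 5 * x₀ ^ 2) * (x - x₀)) ≤
      579 / 100 * (0.2696 + 0.38454 * t) :=
    (mul_le_mul_of_nonneg_left y (sq_nonneg _)).trans
      (mul_le_mul jj_sq_le (by clear * - x t θ T h1 a x2; linarith only [h1, a, x2]) (by clear * - x x₀ h0 h5 x1; linarith only [h0, h5, x1]) (by norm_num))
  have T0 : 0 < T := by clear * - T x₀ h0 h5 T1; linarith
  have m : 579 / 100 * (0.2696 + 0.38454 * t) <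
      3.1415 / 12 * min (1 / T + 5 * T) (7 / T + 3 * T) := by
    clear * - t T ht T1 T0 x₀ h0 h5
    rw [mul_min_of_nonneg _ _ (by norm_num), lt_min_iff, ht]
    constructor
    · rw [← sub_pos]
      field_simp
      rw [zero_mul]
      linarith only [h0, h5, T1, mul_nonneg (sub_nonneg.2 T1) (sq_nonneg (T - 1)), sq_nonneg (T - 1.1), sq_nonneg ((10 : ℝ) * T - (1 : ℝ) * (11 : ℝ)), sq_nonneg (T - (1 : ℝ)), sq_nonneg (T - (1 : ℝ))]
    · rw [← sub_pos]
      field_simp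
      rw [zero_mul]
      linarith only [h0, h5, T0, mul_nonneg T0.le (sq_nonneg (T - 2.2)), sq_nonneg (T - 2), sq_nonneg (T - (2 : ℝ)), sq_nonneg ((1 : ℝ) * T), sq_nonneg (T - 2.2)]
  have m0 : 0 < min (1 / T + 5 * T) (7 / T + 3 * T) := by positivity
  have m2 := mul_lt_mul_of_pos_left (y2.trans_lt (m.trans
    (mul_lt_mul_of_pos_right (show 3.1415 / 12 < π / 12 by clear * - p3 hp m0; linarith only [p3]) m0))) (half_pos hp)
  clear * - x₀ x T m2
  linarith only [m2]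

end Pool.Agent.Work.MP_267827_an.PS
end
end

-- merged part: Pool.Agent.Work.MP_267827_an.PS.WB
section
-- merged part: Pool.Agent.Work.MP_267827_an.PS.WA
section
/-! The binomial coefficients of the weight and their derivatives (helper80). -/

set_option autoImplicit false

namespace Pool.Agent.Work.MP_267827_an.PS

open MeasureTheory Set Filter Topology Real

variable {x σ : ℝ}

theorem b0_succ (x : ℝ) (k : ℕ) : b0 x (k + 1) = b0 x k * (2 * x + k) / (k + 1) := rfl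

theorem b1_succ (x : ℝ) (k : ℕ) :
    b1 x (k + 1) = (b1 x k * (2 * x + k) + 2 * b0 x k) / (k + 1) := rfl

theorem b2_succ (x : ℝ) (k : ℕ) :
    b2 x (k + 1) = (b2 x k * (2 * x + k) + 4 * b1 x k) / (k + 1) := rfl

theorem b0_zero (x : ℝ) : b0 x 0 = 1 := rfl

theorem b1_zero (x : ℝ) : b1 x 0 = 0 := rfl

theorem b2_zero (x : ℝ) : b2 x 0 = 0 := rfl

theorem b0_one (x : ℝ) : b0 x 1 = 2 * x := by simp [b0]

theorem b1_one (x : ℝ) : b1 x 1 = 2 := by simp [b0, b1]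

theorem b2_one (x : ℝ) : b2 x 1 = 0 := by simp [b1, b2]

theorem WA_k (k : ℕ) : (0 : ℝ) < k + 1 := by positivity

theorem b0_nonneg (hx : 0 ≤ x) : ∀ k, 0 ≤ b0 x k
  | 0 => zero_le_one
  | k + 1 => by
    have := b0_nonneg hx k
    rw [b0_succ]; positivity

theorem b0_pos (hx : 0 < x) : ∀ k, 0 < b0 x k
  | 0 => zero_lt_one
  | k + 1 => by
    have := b0_pos hx k
    rw [b0_succ]; positivity

theorem b1_nonneg (hx : 0 ≤ x) : ∀ k, 0 ≤ b1 x k
  | 0 => le_rfl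
  | k + 1 => by
    have := b1_nonneg hx k
    have := b0_nonneg hx k
    rw [b1_succ]; positivity

theorem b2_nonneg (hx : 0 ≤ x) : ∀ k, 0 ≤ b2 x k
  | 0 => le_rfl
  | k + 1 => by
    have := b2_nonneg hx k
    have := b1_nonneg hx k
    rw [b2_succ]; positivity

theorem b0_anti (hx : 0 ≤ x) (h : x ≤ 1 / 2) (k : ℕ) : b0 x (k + 1) ≤ b0 x k := by
  have := b0_nonneg hx k
  rw [b0_succ, div_le_iff₀ (WA_k k)]
  linarith only [h, this, mul_nonneg_of_nonpos_of_nonpos (Mathlib.Tactic.Linarith.sub_nonpos_of_le h) (Mathlib.Tactic.Linarith.sub_nonpos_of_le this)]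

theorem b0_le_of_le (hx : 0 ≤ x) (h : x ≤ 1 / 2) {k l : ℕ} (hkl : k ≤ l) : b0 x l ≤ b0 x k :=
  antitone_nat_of_succ_le (b0_anti hx h) hkl

theorem b0_le_one (hx : 0 ≤ x) (h : x ≤ 1 / 2) (k : ℕ) : b0 x k ≤ 1 :=
  b0_le_of_le hx h (Nat.zero_le k)

theorem b0_le (hx : 0 ≤ x) (h : x ≤ 1 / 2) (k : ℕ) : b0 x (k + 1) ≤ 2 * x :=
  (b0_le_of_le hx h (Nat.le_add_left 1 k)).trans (b0_one x).le

theorem b0_two (x : ℝ) : b0 x 2 = x * (1 + 2 * x) := by
  rw [b0_succ, b0_one]; push_cast; ring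

theorem b1_two (x : ℝ) : b1 x 2 = 1 + 4 * x := by
  rw [b1_succ, b0_one, b1_one]; push_cast; ring

theorem b2_two (x : ℝ) : b2 x 2 = 4 := by
  rw [b2_succ, b2_one, b1_one]; push_cast; ring

theorem b0_le_two (hx : 0 ≤ x) (h : x ≤ 1 / 2) (k : ℕ) : b0 x (k + 2) ≤ x * (1 + 2 * x) :=
  (b0_le_of_le hx h (Nat.le_add_left 2 k)).trans (b0_two x).le

/-- the lower bound by the coefficients of the logarithm -/
theorem le_b0 (hx : 0 ≤ x) : ∀ k : ℕ, 2 * x / (k + 1) ≤ b0 x (k + 1)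
  | 0 => by simp [b0_one]
  | k + 1 => by
    have ih := le_b0 hx k
    have h0 := b0_nonneg hx (k + 1)
    rw [div_le_iff₀ (WA_k k)] at ih
    rw [b0_succ x (k + 1)]
    push_cast
    refine div_le_div_of_nonneg_right ?_ (by positivity)
    (refine le_of_not_gt fun h_nl => ?_; linarith only [h_nl, ih, hx, mul_nonneg_of_nonpos_of_nonpos (Mathlib.Tactic.Linarith.sub_nonpos_of_le (Mathlib.Tactic.Linarith.natCast_nonneg ℝ k)) (Mathlib.Tactic.Linarith.sub_nonpos_of_le ih), mul_nonneg_of_nonpos_of_nonpos (Mathlib.Tactic.Linarith.sub_nonpos_of_le (Mathlib.Tactic.Linarith.natCast_nonneg ℝ k)) (le_of_lt (Mathlib.Tactic.Linarith.sub_neg_of_lt h_nl)), mul_nonneg_of_nonpos_of_nonpos (Mathlib.Tactic.Linarith.sub_nonpos_of_le hx) (Mathlib.Tactic.Linarith.sub_nonpos_of_le hx), mul_nonneg_of_nonpos_of_nonpos (Mathlib.Tactic.Linarith.sub_nonpos_of_le hx) (Mathlib.Tactic.Linarith.sub_nonpos_of_le ih)])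

theorem b1_crude (hx : 0 ≤ x) (h : x ≤ 1 / 2) : ∀ k : ℕ, b1 x k ≤ 2 * k
  | 0 => by simp [b1]
  | k + 1 => by
    have ih := b1_crude hx h k
    have h1 := b1_nonneg hx k
    have h2 := b0_le_one hx h k
    have hk : (0 : ℝ) ≤ k := k.cast_nonneg
    rw [b1_succ, div_le_iff₀ (WA_k k)]
    push_cast
    linarith only [ih, h2, h, h1, mul_le_mul_of_nonneg_left (show 2 * x + k ≤ k + 1 by linarith) h1, mul_nonneg_of_nonpos_of_nonpos (Mathlib.Tactic.Linarith.sub_nonpos_of_le (Mathlib.Tactic.Linarith.natCast_nonneg ℝ k)) (Mathlib.Tactic.Linarith.sub_nonpos_of_le ih)]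

theorem b2_crude (hx : 0 ≤ x) (h : x ≤ 1 / 2) : ∀ k : ℕ, b2 x k ≤ 8 * k
  | 0 => by simp [b2]
  | k + 1 => by
    have ih := b2_crude hx h k
    have h1 := b2_nonneg hx k
    have h2 := b1_crude hx h k
    have hk : (0 : ℝ) ≤ k := k.cast_nonneg
    rw [b2_succ, div_le_iff₀ (WA_k k)]
    push_cast
    linarith only [ih, h2, h, h1, mul_le_mul_of_nonneg_left (show 2 * x + k ≤ k + 1 by linarith) h1, mul_nonneg_of_nonpos_of_nonpos (Mathlib.Tactic.Linarith.sub_nonpos_of_le (Mathlib.Tactic.Linarith.natCast_nonneg ℝ k)) (Mathlib.Tactic.Linarith.sub_nonpos_of_le ih)]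

theorem b0_le_b1 (hx : 0 ≤ x) : ∀ k : ℕ, b0 x (k + 1) ≤ x * b1 x (k + 1)
  | 0 => by rw [b0_one, b1_one]; linarith
  | k + 1 => by
    have ih := b0_le_b1 hx k
    have h0 := b0_nonneg hx (k + 1)
    rw [b0_succ x (k + 1), b1_succ x (k + 1), ← mul_div_assoc]
    refine div_le_div_of_nonneg_right ?_ (by positivity)
    have : 0 ≤ 2 * x + ((k + 1 : ℕ) : ℝ) := by positivity
    linarith only [ih, this, hx, h0, mul_le_mul_of_nonneg_right ih this, mul_nonneg hx h0]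

theorem b1_le (hx : 0 ≤ x) (h : x ≤ 1 / 4) : ∀ k : ℕ, b1 x k ≤ 2
  | 0 => by simp [b1]
  | 1 => (b1_one x).le
  | k + 2 => by
    have ih := b1_le hx h (k + 1)
    have h2 := b0_le hx (by linarith only [h]) k
    have hk : (0 : ℝ) ≤ ((k + 1 : ℕ) : ℝ) := Nat.cast_nonneg _
    rw [b1_succ x (k + 1), div_le_iff₀ (WA_k _)]
    linarith only [h, h2, ih, hx, mul_le_mul_of_nonneg_right ih (show 0 ≤ 2 * x + ((k + 1 : ℕ) : ℝ) by positivity)]

theorem b1_sub_le (hx : 0 ≤ x) (h : x ≤ 1 / 4) :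
    ∀ k : ℕ, x * b1 x (k + 1) - b0 x (k + 1) ≤ 8 * x ^ 2
  | 0 => by rw [b0_one, b1_one]; linarith only [sq_nonneg x]
  | k + 1 => by
    have ih := b1_sub_le hx h k
    have h2 := b0_le hx (by linarith only [h]) k
    have hk : (0 : ℝ) ≤ ((k + 1 : ℕ) : ℝ) := Nat.cast_nonneg _
    rw [b0_succ x (k + 1), b1_succ x (k + 1), ← mul_div_assoc, ← sub_div, div_le_iff₀ (WA_k _)]
    linarith only [ih, hx, h2, h, mul_le_mul_of_nonneg_right ih (show 0 ≤ 2 * x + ((k + 1 : ℕ) : ℝ) by positivity),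
      mul_le_mul_of_nonneg_left h2 hx, mul_nonneg (sq_nonneg x) (sub_nonneg.2 h), sq_nonneg x]

theorem b2_le (hx : 0 ≤ x) (h : x ≤ 1 / 4) : ∀ k : ℕ, b2 x k ≤ 16
  | 0 => by simp [b2]
  | k + 1 => by
    have ih := b2_le hx h k
    have h2 := b1_le hx h k
    have hk : (0 : ℝ) ≤ k := k.cast_nonneg
    rw [b2_succ, div_le_iff₀ (WA_k _)]
    linarith only [h, h2, ih, hx, mul_le_mul_of_nonneg_right ih (show 0 ≤ 2 * x + (k : ℝ) by positivity)]

theorem WA_lin (k : ℕ) (x : ℝ) : HasDerivAt (fun x : ℝ => 2 * x + (k : ℝ)) 2 x := by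
  simpa using ((hasDerivAt_id x).const_mul 2).add_const (k : ℝ)

theorem b0_der : ∀ (k : ℕ) (x : ℝ), HasDerivAt (fun x => b0 x k) (b1 x k) x
  | 0, x => hasDerivAt_const x _
  | k + 1, x => by
    have := ((b0_der k x).mul (WA_lin k x)).div_const ((k : ℝ) + 1)
    refine this.congr_deriv ?_
    rw [b1_succ]; ring

theorem b1_der : ∀ (k : ℕ) (x : ℝ), HasDerivAt (fun x => b1 x k) (b2 x k) x
  | 0, x => hasDerivAt_const x _
  | k + 1, x => by
    have := (((b1_der k x).mul (WA_lin k x)).add ((b0_der k x).const_mul 2)).div_const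
      ((k : ℝ) + 1)
    refine this.congr_deriv ?_
    rw [b2_succ]; ring

theorem TT_zero (x σ : ℝ) (k : ℕ) : TT 0 x σ k = exp (k * σ / x) * b0 x k := by simp [TT]

theorem TT_one (x σ : ℝ) (k : ℕ) :
    TT 1 x σ k = exp (k * σ / x) * (b1 x k - b0 x k * (k * σ) / x ^ 2) := by simp [TT]

theorem TT_two (x σ : ℝ) (k : ℕ) : TT 2 x σ k = exp (k * σ / x) *
    (b2 x k - 2 * (x * b1 x k - b0 x k) * (k * σ) / x ^ 3 + b0 x k * (k * σ) ^ 2 / x ^ 4) := by
  simp [TT]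

theorem TT_ge_two {j : ℕ} (hj : 2 ≤ j) (x σ : ℝ) (k : ℕ) : TT j x σ k = TT 2 x σ k := by
  have h0 : j ≠ 0 := by omega
  have h1 : j ≠ 1 := by omega
  simp [TT, h0, h1]

theorem WA_exp_der (c : ℝ) (hx : x ≠ 0) :
    HasDerivAt (fun x => exp (c / x)) (exp (c / x) * (-c / x ^ 2)) x := by
  have := ((hasDerivAt_inv hx).const_mul c).exp
  simp only [← div_eq_mul_inv] at this
  refine this.congr_deriv ?_
  ring

theorem TT0_der (hx : x ≠ 0) (σ : ℝ) (k : ℕ) :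
    HasDerivAt (fun x => TT 0 x σ k) (TT 1 x σ k) x := by
  simp only [TT_zero, TT_one]
  refine ((WA_exp_der (k * σ) hx).mul (b0_der k x)).congr_deriv ?_
  ring

theorem TT1_der (hx : x ≠ 0) (σ : ℝ) (k : ℕ) :
    HasDerivAt (fun x => TT 1 x σ k) (TT 2 x σ k) x := by
  simp only [TT_one, TT_two]
  have h2 : HasDerivAt (fun x : ℝ => x ^ 2) (2 * x) x := by simpa using hasDerivAt_pow 2 x
  have h3 := ((b0_der k x).mul_const (k * σ)).div h2 (pow_ne_zero 2 hx)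
  refine ((WA_exp_der (k * σ) hx).mul ((b1_der k x).sub h3)).congr_deriv ?_
  simp only [Pi.sub_apply, Pi.div_apply]
  field_simp
  ring

/-- the terms in the boundary layer variable `y = k |σ| / x` -/
theorem TT_eq (hx : 0 < x) (σ : ℝ) (k : ℕ) {y : ℝ} (hy : y = -(k * σ / x)) :
    TT 0 x σ k = exp (-y) * b0 x k ∧ TT 1 x σ k = exp (-y) * (b1 x k + b0 x k / x * y) ∧
    TT 2 x σ k = exp (-y) *
      (b2 x k + 2 * ((x * b1 x k - b0 x k) / x ^ 2) * y + b0 x k / x ^ 2 * y ^ 2) := by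
  subst hy
  rw [TT_zero, TT_one, TT_two, neg_neg]
  refine ⟨rfl, ?_, ?_⟩ <;> congr 1 <;> field_simp <;> ring

theorem WA_y (hx : 0 < x) (hσ : σ ≤ 0) (k : ℕ) : 0 ≤ -(k * σ / x) := by
  have : (k : ℝ) * σ ≤ 0 := mul_nonpos_of_nonneg_of_nonpos k.cast_nonneg hσ
  exact neg_nonneg.2 (div_nonpos_of_nonpos_of_nonneg this hx.le)

theorem TT_nonneg (hx : 0 < x) (hσ : σ ≤ 0) (j k : ℕ) : 0 ≤ TT j x σ (k + 1) := by
  obtain ⟨e0, e1, e2⟩ := TT_eq hx σ (k + 1) rfl
  have hy := WA_y hx hσ (k + 1)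
  have h0 := b0_nonneg hx.le (k + 1)
  have h1 := b1_nonneg hx.le (k + 1)
  have h2 := b2_nonneg hx.le (k + 1)
  have h3 := sub_nonneg.2 (b0_le_b1 hx.le k)
  rcases j with _ | _ | j
  · rw [e0]; positivity
  · rw [zero_add, e1]; positivity
  · rw [TT_ge_two (by omega), e2]; positivity

/-- the explicit bounds for `x ≤ 1 / 4` -/
theorem TT_le (hx : 0 < x) (h : x ≤ 1 / 4) (hσ : σ ≤ 0) (k : ℕ) {y : ℝ}
    (hy : y = -((k + 1 : ℕ) * σ / x)) :
    TT 0 x σ (k + 1) ≤ exp (-y) * (2 * x) ∧ TT 1 x σ (k + 1) ≤ exp (-y) * (2 + 2 * y) ∧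
    TT 2 x σ (k + 1) ≤ exp (-y) * (16 + 16 * y + 2 / x * y ^ 2) := by
  obtain ⟨e0, e1, e2⟩ := TT_eq hx σ (k + 1) hy
  have hy0 : 0 ≤ y := hy ▸ WA_y hx hσ (k + 1)
  have h0 := b0_le hx.le (by linarith only [hx, h]) k
  have h1 := b1_le hx.le h (k + 1)
  have h2 := b2_le hx.le h (k + 1)
  have h3 := b1_sub_le hx.le h k
  have a0 : b0 x (k + 1) / x ≤ 2 := by rw [div_le_iff₀ hx]; exact h0
  have a1 : (x * b1 x (k + 1) - b0 x (k + 1)) / x ^ 2 ≤ 8 := by
    rw [div_le_iff₀ (by positivity)]; exact h3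
  have a2 : b0 x (k + 1) / x ^ 2 ≤ 2 / x := by
    clear * - x k hx h0
    rw [div_le_div_iff₀ (by positivity) hx]; linarith only [hx, h0, mul_nonneg_of_nonpos_of_nonpos (le_of_lt (Mathlib.Tactic.Linarith.sub_neg_of_lt hx)) (Mathlib.Tactic.Linarith.sub_nonpos_of_le h0)]
  rw [e0, e1, e2]
  refine ⟨?_, ?_, ?_⟩ <;> refine mul_le_mul_of_nonneg_left ?_ (exp_pos _).le
  · exact h0
  · clear * - x k y h1 a0 hy0
    linarith only [h1, a0, hy0, mul_le_mul_of_nonneg_right a0 hy0]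
  · clear * - x k y h2 a1 hy0 a2
    linarith only [h2, a1, hy0, a2, mul_le_mul_of_nonneg_right a1 hy0, mul_le_mul_of_nonneg_right a2 (sq_nonneg y), sq_nonneg y]

/-- the first terms are exact -/
theorem TT_first (hx : 0 < x) (σ : ℝ) {y : ℝ} (hy : y = -(σ / x)) :
    TT 0 x σ 1 = exp (-y) * (2 * x) ∧ TT 1 x σ 1 = exp (-y) * (2 + 2 * y) ∧
    TT 2 x σ 1 = exp (-y) * (2 / x * y ^ 2) := by
  obtain ⟨e0, e1, e2⟩ := TT_eq hx σ 1 (y := y) (by simpa using hy)
  rw [e0, e1, e2, b0_one, b1_one, b2_one]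
  refine ⟨rfl, ?_, ?_⟩ <;> congr 1 <;> field_simp <;> ring

/-- a crude bound, locally uniform in `x` and `σ` -/
theorem TT_crude {a : ℝ} (ha : 0 < a) (hx : a ≤ x) (h : x ≤ 1 / 2) (hσ : σ ≤ 0) (j k : ℕ) :
    TT j x σ (k + 1) ≤ 40 / a ^ 2 * ((k + 1) * exp ((k + 1) * σ)) := by
  have hx0 : 0 < x := ha.trans_le hx
  obtain ⟨y, hy⟩ : ∃ y, y = -((k + 1 : ℕ) * σ / x) := ⟨_, rfl⟩
  obtain ⟨e0, e1, e2⟩ := TT_eq hx0 σ (k + 1) hy
  have hy0 : 0 ≤ y := hy ▸ WA_y hx0 hσ (k + 1)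
  have h0 := b0_le_one hx0.le h (k + 1)
  have h0' := b0_nonneg hx0.le (k + 1)
  have h1 := b1_crude hx0.le h (k + 1)
  have h2 := b2_crude hx0.le h (k + 1)
  have k1 : (1 : ℝ) ≤ ((k + 1 : ℕ) : ℝ) := by exact_mod_cast Nat.le_add_left 1 k
  obtain ⟨n, hn⟩ : ∃ n : ℝ, n = ((k + 1 : ℕ) : ℝ) := ⟨_, rfl⟩
  have hn' : (k : ℝ) + 1 = n := by rw [hn]; push_cast; ring
  rw [← hn] at h1 h2 k1 hy
  rw [hn']
  obtain ⟨r, hr⟩ : ∃ r, r = 1 / a ^ 2 := ⟨_, rfl⟩
  have r4 : 4 ≤ r := by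
    clear * - r a hr ha x hx h
    rw [hr, le_div_iff₀ (by positivity)]; linarith only [hx, h, ha, mul_nonneg_of_nonpos_of_nonpos (le_of_lt (Mathlib.Tactic.Linarith.sub_neg_of_lt ha)) (Mathlib.Tactic.Linarith.sub_nonpos_of_le hx), mul_nonneg_of_nonpos_of_nonpos (le_of_lt (Mathlib.Tactic.Linarith.sub_neg_of_lt ha)) (Mathlib.Tactic.Linarith.sub_nonpos_of_le h)]
  have i2 : 1 / x ^ 2 ≤ r := by
    clear * - x r a hr ha hx
    rw [hr]; exact one_div_le_one_div_of_le (by positivity) (by nlinarith)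
  have i1 : 1 / x ≤ r := by
    clear * - x r hx0 a hx h ha i2
    refine le_trans ?_ i2
    exact one_div_le_one_div_of_le (by positivity) (by (refine le_of_not_gt fun h_nl => ?_; linarith only [h_nl, hx, h, ha, mul_nonneg_of_nonpos_of_nonpos (Mathlib.Tactic.Linarith.sub_nonpos_of_le (sq_nonneg x)) (Mathlib.Tactic.Linarith.sub_nonpos_of_le hx), mul_nonneg_of_nonpos_of_nonpos (Mathlib.Tactic.Linarith.sub_nonpos_of_le (sq_nonneg x)) (Mathlib.Tactic.Linarith.sub_nonpos_of_le h), mul_pos_of_neg_of_neg (Mathlib.Tactic.Linarith.sub_neg_of_lt ha) (Mathlib.Tactic.Linarith.sub_neg_of_lt ha), mul_nonneg_of_nonpos_of_nonpos (le_of_lt (Mathlib.Tactic.Linarith.sub_neg_of_lt ha)) (Mathlib.Tactic.Linarith.sub_nonpos_of_le hx), mul_nonneg_of_nonpos_of_nonpos (le_of_lt (Mathlib.Tactic.Linarith.sub_neg_of_lt ha)) (Mathlib.Tactic.Linarith.sub_nonpos_of_le h), mul_pos_of_neg_of_neg (Mathlib.Tactic.Linarith.sub_neg_of_lt ha)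 (Mathlib.Tactic.Linarith.sub_neg_of_lt h_nl), mul_nonneg_of_nonpos_of_nonpos (Mathlib.Tactic.Linarith.sub_nonpos_of_le hx) (Mathlib.Tactic.Linarith.sub_nonpos_of_le h)]))
  have hE : exp (-y) ≤ exp (n * σ) * exp (-(y / 2)) := by
    clear * - y n σ x hy hx0 k1 h hy0
    rw [← exp_add]
    refine exp_le_exp.2 ?_
    have : y * x = -(n * σ) := by rw [hy]; field_simp
    linarith only [this, h, hy0, mul_nonneg_of_nonpos_of_nonpos (Mathlib.Tactic.Linarith.sub_nonpos_of_le h) (Mathlib.Tactic.Linarith.sub_nonpos_of_le hy0)]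
  have hP : exp (-(y / 2)) * (1 + y + y ^ 2) ≤ 8 := by
    clear * - y hy0 a x ha hx h
    have := quadratic_le_exp_of_nonneg (show 0 ≤ y / 2 by positivity)
    rw [exp_neg, inv_mul_le_iff₀ (exp_pos _)]
    linarith only [ha, hx, h, hy0, this]
  have key : ∀ A : ℝ, 0 ≤ A → A ≤ 5 * r * n * (1 + y + y ^ 2) →
      exp (-y) * A ≤ 40 / a ^ 2 * (n * exp (n * σ)) := by
    intro A hA0 hA
    have e : 40 / a ^ 2 = 40 * r := by rw [hr]; ring
    have p0 := exp_pos (n * σ)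
    have p1 := exp_pos (-(y / 2))
    calc exp (-y) * A ≤ exp (n * σ) * exp (-(y / 2)) * (5 * r * n * (1 + y + y ^ 2)) :=
          mul_le_mul hE hA hA0 (by positivity)
      _ = 5 * r * n * exp (n * σ) * (exp (-(y / 2)) * (1 + y + y ^ 2)) := by ring
      _ ≤ 5 * r * n * exp (n * σ) * 8 := mul_le_mul_of_nonneg_left hP (by positivity)
      _ = _ := by rw [e]; ring
  have rn : r ≤ r * n := by clear * - r n a x k1 ha hx h r4; (refine le_of_not_gt fun h_nl => ?_; linarith only [h_nl, k1, ha, hx, h, r4, mul_pos_of_neg_of_neg (Mathlib.Tactic.Linarith.sub_neg_of_lt ha) (Mathlib.Tactic.Linarith.sub_neg_of_lt h_nl), mul_nonneg_of_nonpos_of_nonpos (Mathlib.Tactic.Linarith.sub_nonpos_of_le hx) (le_of_lt (Mathlib.Tactic.Linarith.sub_neg_of_lt h_nl)), mul_nonneg_of_nonpos_of_nonpos (Mathlib.Tactic.Linarith.sub_nonpos_of_le h) (le_of_lt (Mathlib.Tactic.Linarith.sub_neg_of_lt h_nl)), mul_nonneg_of_nonpos_of_nonpos (Mathlib.Tactic.Linarith.sub_nonpos_of_le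 k1) (Mathlib.Tactic.Linarith.sub_nonpos_of_le r4)])
  have q0 : 0 ≤ r * n * y := by positivity
  have q1 : 0 ≤ r * n * y ^ 2 := by positivity
  have hT := TT_nonneg hx0 hσ j k
  rcases j with _ | _ | j
  · rw [e0]; exact key _ h0' (by clear * - x k r n y a ha hx h h0 r4 rn q0 q1 e0 h0' key; linarith only [ha, hx, h, h0, r4, rn, q0, q1])
  · rw [zero_add, e1] at hT ⊢
    refine key _ (nonneg_of_mul_nonneg_right hT (exp_pos _)) ?_
    have a0 : b0 x (k + 1) / x ≤ r * n :=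
      ((div_le_div_of_nonneg_right h0 hx0.le).trans i1).trans rn
    clear * - x k y r n a hx h h1 r4 rn q0 q1 a0 hy0 ha k1
    (refine le_of_not_gt fun h_nl => ?_; linarith only [h_nl, h1, r4, q0, q1, a0, hy0, ha, hx, h, rn, k1, mul_le_mul_of_nonneg_right a0 hy0, mul_pos_of_neg_of_neg (Mathlib.Tactic.Linarith.sub_neg_of_lt ha) (Mathlib.Tactic.Linarith.sub_neg_of_lt ha), mul_nonneg_of_nonpos_of_nonpos (le_of_lt (Mathlib.Tactic.Linarith.sub_neg_of_lt ha)) (Mathlib.Tactic.Linarith.sub_nonpos_of_le hx), mul_nonneg_of_nonpos_of_nonpos (le_of_lt (Mathlib.Tactic.Linarith.sub_neg_of_lt ha)) (Mathlib.Tactic.Linarith.sub_nonpos_of_le h), mul_nonneg_of_nonpos_of_nonpos (le_of_lt (Mathlib.Tactic.Linarith.sub_neg_of_lt ha)) (Mathlib.Tactic.Linarith.sub_nonpos_of_le h1), mul_nonneg_of_nonpos_of_nonpos (le_of_lt (Mathlib.Tactic.Linarith.sub_neg_of_lt ha)) (Mathlib.Tactic.Linarith.sub_nonpos_of_le r4), mul_nonneg_of_nonpos_of_nonpos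 (le_of_lt (Mathlib.Tactic.Linarith.sub_neg_of_lt ha)) (Mathlib.Tactic.Linarith.sub_nonpos_of_le rn), mul_nonneg_of_nonpos_of_nonpos (le_of_lt (Mathlib.Tactic.Linarith.sub_neg_of_lt ha)) (Mathlib.Tactic.Linarith.sub_nonpos_of_le q0), mul_nonneg_of_nonpos_of_nonpos (le_of_lt (Mathlib.Tactic.Linarith.sub_neg_of_lt ha)) (Mathlib.Tactic.Linarith.sub_nonpos_of_le q1), mul_pos_of_neg_of_neg (Mathlib.Tactic.Linarith.sub_neg_of_lt ha) (Mathlib.Tactic.Linarith.sub_neg_of_lt h_nl), mul_nonneg_of_nonpos_of_nonpos (le_of_lt (Mathlib.Tactic.Linarith.sub_neg_of_lt ha)) (Mathlib.Tactic.Linarith.sub_nonpos_of_le (mul_le_mul_of_nonneg_right a0 hy0)), mul_nonneg_of_nonpos_of_nonpos (Mathlib.Tactic.Linarith.sub_nonpos_of_le hx) (Mathlib.Tactic.Linarith.sub_nonpos_of_le k1), mul_nonneg_of_nonpos_of_nonpos (Mathlib.Tactic.Linarith.sub_nonpos_of_le hx) (le_of_lt (Mathlib.Tactic.Linarith.sub_neg_of_lt h_nl)), mul_nonneg_of_nonpos_of_nonpos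 (Mathlib.Tactic.Linarith.sub_nonpos_of_le h) (Mathlib.Tactic.Linarith.sub_nonpos_of_le k1), mul_nonneg_of_nonpos_of_nonpos (Mathlib.Tactic.Linarith.sub_nonpos_of_le h) (le_of_lt (Mathlib.Tactic.Linarith.sub_neg_of_lt h_nl)), mul_nonneg_of_nonpos_of_nonpos (Mathlib.Tactic.Linarith.sub_nonpos_of_le k1) (Mathlib.Tactic.Linarith.sub_nonpos_of_le r4)])
  · rw [TT_ge_two (by omega), e2] at hT ⊢
    refine key _ (nonneg_of_mul_nonneg_right hT (exp_pos _)) ?_
    have a0 : b0 x (k + 1) / x ^ 2 ≤ r * n :=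
      ((div_le_div_of_nonneg_right h0 (by positivity)).trans i2).trans rn
    have a1 : (x * b1 x (k + 1) - b0 x (k + 1)) / x ^ 2 ≤ r * n := by
      clear * - x k n h hx0 h0' h1 r i2 a ha hx k1
      have : x * b1 x (k + 1) - b0 x (k + 1) ≤ n := by
        have := mul_le_mul_of_nonneg_right h (b1_nonneg hx0.le (k + 1))
        linarith only [h0', h1, this]
      calc _ ≤ n / x ^ 2 := div_le_div_of_nonneg_right this (by positivity)
        _ = 1 / x ^ 2 * n := by ring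
        _ ≤ r * n := mul_le_mul_of_nonneg_right i2 (by linarith)
    have c0 := mul_le_mul_of_nonneg_right a0 (sq_nonneg y)
    have c1 := mul_le_mul_of_nonneg_right a1 hy0
    have c2 : 4 * n ≤ r * n := mul_le_mul_of_nonneg_right r4 (by linarith only [ha, hx, h, k1])
    have e : 5 * r * n * (1 + y + y ^ 2) = 5 * (r * n) + 5 * (r * n * y) + 5 * (r * n * y ^ 2) := by
      ring
    rw [e, mul_assoc 2]
    clear * - x k y r n a ha hx h h2 r4 rn q0 q1 c0 c1 c2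
    linarith only [ha, hx, h, h2, r4, rn, q0, q1, c0, c1, c2]

end Pool.Agent.Work.MP_267827_an.PS
end

-- merged part: Pool.Agent.Work.MP_267827_an.PS.WB
section
/-! The series of the weight, its derivatives in the angle, and differentiation under the
integral (helper80). -/

set_option autoImplicit false

namespace Pool.Agent.Work.MP_267827_an.PS

open MeasureTheory Set Filter Topology Real

variable {x σ : ℝ}

theorem WB_b1 (hx : 0 ≤ x) (h : x ≤ 1 / 3) : ∀ k : ℕ, b1 x k ≤ 6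
  | 0 => by simp [b1]
  | k + 1 => by
    have ih := WB_b1 hx h k
    have h2 := b0_le_one hx (by linarith only [h]) k
    have hk : (0 : ℝ) ≤ k := k.cast_nonneg
    rw [b1_succ, div_le_iff₀ (WA_k _)]
    linarith only [h, h2, ih, hx, mul_le_mul_of_nonneg_right ih (show 0 ≤ 2 * x + (k : ℝ) by positivity)]

theorem WB_b2 (hx : 0 ≤ x) (h : x ≤ 1 / 3) : ∀ k : ℕ, b2 x k ≤ 72
  | 0 => by simp [b2]
  | k + 1 => by
    have ih := WB_b2 hx h k
    have h2 := WB_b1 hx h k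
    have hk : (0 : ℝ) ≤ k := k.cast_nonneg
    rw [b2_succ, div_le_iff₀ (WA_k _)]
    linarith only [h, h2, ih, hx, mul_le_mul_of_nonneg_right ih (show 0 ≤ 2 * x + (k : ℝ) by positivity)]

/-- a geometric bound, locally uniform in `x` and `σ` -/
theorem TT_geo {a : ℝ} (ha : 0 < a) (hx : a ≤ x) (h : x ≤ 1 / 3) (hσ : σ ≤ 0) (j k : ℕ) :
    TT j x σ (k + 1) ≤ 64 / a ^ 2 * exp σ ^ (k + 1) := by
  have hx0 : 0 < x := ha.trans_le hx
  obtain ⟨y, hy⟩ : ∃ y, y = -((k + 1 : ℕ) * σ / x) := ⟨_, rfl⟩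
  obtain ⟨e0, e1, e2⟩ := TT_eq hx0 σ (k + 1) hy
  have hy0 : 0 ≤ y := hy ▸ WA_y hx0 hσ (k + 1)
  have h0 := b0_le_one hx0.le (by linarith only [ha, hx, h]) (k + 1)
  have h0' := b0_nonneg hx0.le (k + 1)
  have h1 := WB_b1 hx0.le h (k + 1)
  have h2 := WB_b2 hx0.le h (k + 1)
  rw [← exp_nat_mul]
  obtain ⟨n, hn⟩ : ∃ n : ℝ, n = ((k + 1 : ℕ) : ℝ) := ⟨_, rfl⟩
  have n0 : 0 ≤ n := hn ▸ Nat.cast_nonneg _
  rw [← hn] at hy ⊢
  obtain ⟨r, hr⟩ : ∃ r, r = 1 / a ^ 2 := ⟨_, rfl⟩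
  have r4 : 9 ≤ r := by
    clear * - r a hr ha x hx h
    rw [hr, le_div_iff₀ (by positivity)]; linarith only [hx, h, ha, mul_nonneg_of_nonpos_of_nonpos (le_of_lt (Mathlib.Tactic.Linarith.sub_neg_of_lt ha)) (Mathlib.Tactic.Linarith.sub_nonpos_of_le hx), mul_nonneg_of_nonpos_of_nonpos (le_of_lt (Mathlib.Tactic.Linarith.sub_neg_of_lt ha)) (Mathlib.Tactic.Linarith.sub_nonpos_of_le h)]
  have i2 : 1 / x ^ 2 ≤ r := by
    clear * - x r a hr ha hx
    rw [hr]; exact one_div_le_one_div_of_le (by positivity) (by nlinarith)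
  have i1 : 1 / x ≤ r := by
    clear * - x r hx0 a hx h ha i2
    refine le_trans ?_ i2
    exact one_div_le_one_div_of_le (by positivity) (by (refine le_of_not_gt fun h_nl => ?_; linarith only [h_nl, hx, h, ha, mul_nonneg_of_nonpos_of_nonpos (Mathlib.Tactic.Linarith.sub_nonpos_of_le (sq_nonneg x)) (Mathlib.Tactic.Linarith.sub_nonpos_of_le hx), mul_nonneg_of_nonpos_of_nonpos (Mathlib.Tactic.Linarith.sub_nonpos_of_le (sq_nonneg x)) (Mathlib.Tactic.Linarith.sub_nonpos_of_le h), mul_pos_of_neg_of_neg (Mathlib.Tactic.Linarith.sub_neg_of_lt ha) (Mathlib.Tactic.Linarith.sub_neg_of_lt ha), mul_nonneg_of_nonpos_of_nonpos (le_of_lt (Mathlib.Tactic.Linarith.sub_neg_of_lt ha)) (Mathlib.Tactic.Linarith.sub_nonpos_of_le hx), mul_nonneg_of_nonpos_of_nonpos (le_of_lt (Mathlib.Tactic.Linarith.sub_neg_of_lt ha)) (Mathlib.Tactic.Linarith.sub_nonpos_of_le h), mul_pos_of_neg_of_neg (Mathlib.Tactic.Linarith.sub_neg_of_lt ha)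 (Mathlib.Tactic.Linarith.sub_neg_of_lt h_nl), mul_nonneg_of_nonpos_of_nonpos (Mathlib.Tactic.Linarith.sub_nonpos_of_le hx) (Mathlib.Tactic.Linarith.sub_nonpos_of_le h)]))
  have hE : exp (-y) ≤ exp (n * σ) * exp (-(y / 2)) := by
    clear * - y n σ x hy hx0 hy0 h
    rw [← exp_add]
    refine exp_le_exp.2 ?_
    have : y * x = -(n * σ) := by rw [hy]; field_simp
    linarith only [hy0, this, h, mul_nonneg_of_nonpos_of_nonpos (Mathlib.Tactic.Linarith.sub_nonpos_of_le h) (Mathlib.Tactic.Linarith.sub_nonpos_of_le hy0)]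
  have hP : exp (-(y / 2)) * (1 + y + y ^ 2) ≤ 8 := by
    clear * - y hy0 a x ha hx h
    have := quadratic_le_exp_of_nonneg (show 0 ≤ y / 2 by positivity)
    rw [exp_neg, inv_mul_le_iff₀ (exp_pos _)]
    linarith only [ha, hx, h, hy0, this]
  have key : ∀ A : ℝ, 0 ≤ A → A ≤ 8 * r + 8 * (r * y) + 8 * (r * y ^ 2) →
      exp (-y) * A ≤ 64 / a ^ 2 * exp (n * σ) := by
    clear * - r y a hr n σ hE hP r4
    intro A hA0 hA
    have e : 64 / a ^ 2 = 64 * r := by rw [hr]; ring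
    have p0 := exp_pos (n * σ)
    have p1 := exp_pos (-(y / 2))
    calc exp (-y) * A ≤ exp (n * σ) * exp (-(y / 2)) * (8 * r + 8 * (r * y) + 8 * (r * y ^ 2)) :=
          mul_le_mul hE hA hA0 (by positivity)
      _ = 8 * r * exp (n * σ) * (exp (-(y / 2)) * (1 + y + y ^ 2)) := by ring
      _ ≤ 8 * r * exp (n * σ) * 8 := mul_le_mul_of_nonneg_left hP (by positivity)
      _ = _ := by rw [e]; ring
  have q0 : 0 ≤ r * y := by positivity
  have q1 : 0 ≤ r * y ^ 2 := by positivity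
  have hT := TT_nonneg hx0 hσ j k
  rcases j with _ | _ | j
  · rw [e0]; exact key _ h0' (by linarith only [ha, hx, h, h0, r4, q0, q1])
  · rw [zero_add, e1] at hT ⊢
    refine key _ (nonneg_of_mul_nonneg_right hT (exp_pos _)) ?_
    have a0 : b0 x (k + 1) / x ≤ r := (div_le_div_of_nonneg_right h0 hx0.le).trans i1
    have := mul_le_mul_of_nonneg_right a0 hy0
    linarith only [ha, hx, h, h1, r4, q0, q1, this]
  · rw [TT_ge_two (by omega), e2] at hT ⊢
    refine key _ (nonneg_of_mul_nonneg_right hT (exp_pos _)) ?_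
    have a0 : b0 x (k + 1) / x ^ 2 ≤ r :=
      (div_le_div_of_nonneg_right h0 (by positivity)).trans i2
    have a1 : (x * b1 x (k + 1) - b0 x (k + 1)) / x ^ 2 ≤ 2 * r := by
      clear * - x k h hx0 h0' h1 r i2
      have : x * b1 x (k + 1) - b0 x (k + 1) ≤ 2 := by
        have := mul_le_mul_of_nonneg_right h (b1_nonneg hx0.le (k + 1))
        linarith only [h0', h1, this]
      calc _ ≤ 2 / x ^ 2 := div_le_div_of_nonneg_right this (by positivity)
        _ = 2 * (1 / x ^ 2) := by ring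
        _ ≤ 2 * r := by linarith only [i2]
    have c0 := mul_le_mul_of_nonneg_right a0 (sq_nonneg y)
    have c1 := mul_le_mul_of_nonneg_right a1 hy0
    rw [mul_assoc 2]
    clear * - x k y r h2 r4 q0 q1 c0 c1
    linarith only [h2, r4, q0, q1, c0, c1]

theorem WB_geo (C : ℝ) (hσ : σ < 0) :
    HasSum (fun k : ℕ => C * exp σ ^ (k + 1)) (C * (exp σ / (1 - exp σ))) := by
  have := (hasSum_geometric_of_lt_one (exp_pos σ).le (exp_lt_one_iff.2 hσ)).mul_left (C * exp σ)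
  rw [div_eq_mul_inv, ← mul_assoc]
  simpa only [pow_succ', mul_assoc] using this

theorem TT_summable (hx : 0 < x) (h : x ≤ 1 / 3) (hσ : σ < 0) (j : ℕ) :
    Summable fun k => TT j x σ (k + 1) :=
  .of_nonneg_of_le (TT_nonneg hx hσ.le j) (TT_geo hx le_rfl h hσ.le j) (WB_geo _ hσ).summable

theorem WB_norm (hx : 0 < x) (hσ : σ ≤ 0) (j k : ℕ) (y : ℝ) :
    ‖((TT j x σ (k + 1) : ℝ) : ℂ) * ei y‖ = TT j x σ (k + 1) := by
  rw [norm_mul, Conf_ei_norm, mul_one, Complex.norm_real, norm_eq_abs,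
    abs_of_nonneg (TT_nonneg hx hσ j k)]

theorem HT_hasSum (hx : 0 < x) (h : x ≤ 1 / 3) {p : ℝ × ℝ} (hp : p.1 < 0) (j : ℕ) :
    HasSum (fun k : ℕ => ((TT j x p.1 (k + 1) : ℝ) : ℂ) * ei ((k + 1 : ℕ) * π * p.2))
      (HT j x p) :=
  (Summable.of_norm (by simp only [WB_norm hx hp.le]; exact TT_summable hx h hp j)).hasSum

theorem HT_norm_le (hx : 0 < x) (h : x ≤ 1 / 3) {p : ℝ × ℝ} (hp : p.1 < 0) (j : ℕ) :
    ‖HT j x p‖ ≤ ∑' k, TT j x p.1 (k + 1) :=
  (HT_hasSum hx h hp j).norm_le_of_bounded (TT_summable hx h hp j).hasSum fun k =>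
    (WB_norm hx hp.le j k _).le

theorem HT_crude {a : ℝ} (ha : 0 < a) (hx : a ≤ x) (h : x ≤ 1 / 3) {p : ℝ × ℝ} (hp : p.1 < 0)
    (j : ℕ) : ‖HT j x p‖ * |p.1| ≤ 64 / a ^ 2 := by
  have h1 : ‖HT j x p‖ ≤ 64 / a ^ 2 * (exp p.1 / (1 - exp p.1)) :=
    (HT_hasSum (ha.trans_le hx) h hp j).norm_le_of_bounded (WB_geo _ hp) fun k =>
      (WB_norm (ha.trans_le hx) hp.le j k _).le.trans (TT_geo ha hx h hp.le j k)
  have h2 := (Weight_m0 hp).2
  rw [Weight_m] at h2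
  rw [abs_of_neg hp]
  calc _ ≤ 64 / a ^ 2 * (exp p.1 / (1 - exp p.1)) * -p.1 :=
        mul_le_mul_of_nonneg_right h1 (by linarith only [hp])
    _ = 64 / a ^ 2 * (-p.1 * (exp p.1 / (1 - exp p.1))) := by ring
    _ ≤ _ := mul_le_of_le_one_right (by positivity) h2

theorem WB_choose (x : ℝ) (k : ℕ) :
    Ring.choose (((2 * x : ℝ) : ℂ) + k - 1) k = (b0 x k : ℝ) := by
  rw [← Ring.multichoose_eq]
  have h : ∀ k : ℕ, (ascPochhammer ℕ k).smeval ((2 * x : ℝ) : ℂ) = k.factorial * (b0 x k : ℝ) := by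
    intro k
    induction k with
    | zero => simp [b0]
    | succ k ih =>
      rw [ascPochhammer_succ_right, Polynomial.smeval_mul, ih, Polynomial.smeval_add,
        Polynomial.smeval_X, Polynomial.smeval_natCast, b0_succ, Nat.factorial_succ]
      have : (k : ℂ) + 1 ≠ 0 := by exact_mod_cast k.succ_ne_zero
      push_cast
      field_simp
      simp
  have h2 := Ring.factorial_nsmul_multichoose_eq_ascPochhammer ((2 * x : ℝ) : ℂ) k
  rw [h, nsmul_eq_mul] at h2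
  exact mul_left_cancel₀ (by exact_mod_cast k.factorial_ne_zero) h2

theorem WB_binom (x : ℝ) {z : ℂ} (hz : ‖z‖ < 1) :
    HasSum (fun k : ℕ => ((b0 x k : ℝ) : ℂ) * z ^ k) (1 / (1 - z) ^ ((2 * x : ℝ) : ℂ)) := by
  have := (Complex.one_div_one_sub_cpow_hasFPowerSeriesOnBall_zero ((2 * x : ℝ) : ℂ)).hasSum
    (y := z) (by
      rw [← ENNReal.ofReal_one, Metric.eball_ofReal]; simpa using hz)
  simpa only [FormalMultilinearSeries.ofScalars_apply_eq, WB_choose, smul_eq_mul, zero_add]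
    using this

theorem HT_zero (hx : 0 < x) (h : x ≤ 1 / 3) {p : ℝ × ℝ} (hp : p.1 < 0) :
    1 + HT 0 x p =
      1 / (1 - Complex.exp ((p.1 / x : ℝ) + π * p.2 * Complex.I)) ^ ((2 * x : ℝ) : ℂ) := by
  have hz : ‖Complex.exp ((p.1 / x : ℝ) + π * p.2 * Complex.I)‖ < 1 := by
    rw [Complex.norm_exp]
    simpa using div_neg_of_neg_of_pos hp hx
  have h1 := (hasSum_nat_add_iff' 1).2 (WB_binom x hz)
  have h2 := HT_hasSum hx h hp 0
  have e : (fun k : ℕ => ((TT 0 x p.1 (k + 1) : ℝ) : ℂ) * ei ((k + 1 : ℕ) * π * p.2)) =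
      fun k : ℕ => ((b0 x (k + 1) : ℝ) : ℂ) *
        Complex.exp ((p.1 / x : ℝ) + π * p.2 * Complex.I) ^ (k + 1) := by
    ext k
    rw [TT_zero, ← Complex.exp_nat_mul, ei, Complex.ofReal_mul, Complex.ofReal_exp, mul_comm
      (Complex.exp _), mul_assoc, ← Complex.exp_add]
    congr 2
    push_cast
    ring
  rw [e] at h2
  rw [h2.unique h1]
  simp [b0]

theorem WW_eq_norm (hx : 0 < x) (h : x ≤ 1 / 3) {p : ℝ × ℝ} (hp : p.1 < 0) :
    WW x x p = ‖1 + HT 0 x p‖ ^ 2 := by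
  have hz : ‖Complex.exp ((p.1 / x : ℝ) + π * p.2 * Complex.I)‖ < 1 := by
    rw [Complex.norm_exp]
    simpa using div_neg_of_neg_of_pos hp hx
  have h0 : 0 < ‖1 - Complex.exp ((p.1 / x : ℝ) + π * p.2 * Complex.I)‖ := by
    rw [norm_pos_iff, sub_ne_zero]
    intro e
    rw [← e] at hz
    simp at hz
  rw [HT_zero hx h hp, norm_div, norm_one, Complex.norm_cpow_real, rpow_def_of_pos h0, one_div,
    ← exp_neg, ← exp_nat_mul, WW, xx, u1]
  congr 1
  push_cast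
  ring

theorem WB_sq (z : ℂ) : ‖z‖ ^ 2 = z.re ^ 2 + z.im ^ 2 := by
  rw [Complex.sq_norm, Complex.normSq_apply]; ring

theorem QT_zero (x : ℝ) (p : ℝ × ℝ) : QT 0 x p = ‖HT 0 x p‖ ^ 2 := by simp [QT]

theorem QT_one (x : ℝ) (p : ℝ × ℝ) :
    QT 1 x p = 2 * ((starRingEnd ℂ) (HT 0 x p) * HT 1 x p).re := by simp [QT]

theorem QT_two (x : ℝ) (p : ℝ × ℝ) : QT 2 x p =
    2 * ‖HT 1 x p‖ ^ 2 + 2 * ((starRingEnd ℂ) (HT 0 x p) * HT 2 x p).re := by simp [QT]

theorem WW_eq (hx : 0 < x) (h : x ≤ 1 / 3) {p : ℝ × ℝ} (hp : p.1 < 0) :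
    WW x x p = 1 + WT 0 x p := by
  rw [WW_eq_norm hx h hp, WT, QT_zero, WB_sq, WB_sq]
  simp only [Complex.add_re, Complex.add_im, Complex.one_re, Complex.one_im]
  ring

theorem WB_der {i j : ℕ} (hd : ∀ y : ℝ, y ≠ 0 → ∀ σ k, HasDerivAt (fun y => TT i y σ k)
    (TT j y σ k) y) (hx : 0 < x) (h : x < 1 / 3) {p : ℝ × ℝ} (hp : p.1 < 0) :
    HasDerivAt (fun x => HT i x p) (HT j x p) x := by
  have hm : x ∈ Ioo (x / 2) (1 / 3) := ⟨by linarith only [hx], h⟩
  refine hasDerivAt_tsum_of_isPreconnected (t := Ioo (x / 2) (1 / 3))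
    (g := fun k y => ((TT i y p.1 (k + 1) : ℝ) : ℂ) * ei ((k + 1 : ℕ) * π * p.2))
    (g' := fun k y => ((TT j y p.1 (k + 1) : ℝ) : ℂ) * ei ((k + 1 : ℕ) * π * p.2))
    (WB_geo (64 / (x / 2) ^ 2) hp).summable isOpen_Ioo isPreconnected_Ioo
    (fun k y hy => ?_) (fun k y hy => ?_) hm (HT_hasSum hx h.le hp i).summable hm
  · exact (hd y (by linarith only [hx, hy, hy.1] : 0 < y).ne' _ _).ofReal_comp.mul_const _
  · exact (WB_norm (by linarith only [hx, hy, hy.1]) hp.le j k _).le.trans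
      (TT_geo (half_pos hx) hy.1.le hy.2.le hp.le j k)

theorem HT0_der (hx : 0 < x) (h : x < 1 / 3) {p : ℝ × ℝ} (hp : p.1 < 0) :
    HasDerivAt (fun x => HT 0 x p) (HT 1 x p) x :=
  WB_der (fun _ hy => TT0_der hy) hx h hp

theorem HT1_der (hx : 0 < x) (h : x < 1 / 3) {p : ℝ × ℝ} (hp : p.1 < 0) :
    HasDerivAt (fun x => HT 1 x p) (HT 2 x p) x :=
  WB_der (fun _ hy => TT1_der hy) hx h hp

theorem WB_re {f : ℝ → ℂ} {f' : ℂ} (h : HasDerivAt f f' x) :
    HasDerivAt (fun x => (f x).re) f'.re x ∧ HasDerivAt (fun x => (f x).im) f'.im x :=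
  ⟨Complex.reCLM.hasFDerivAt.comp_hasDerivAt x h, Complex.imCLM.hasFDerivAt.comp_hasDerivAt x h⟩

theorem WT_zero (x : ℝ) (p : ℝ × ℝ) : WT 0 x p =
    2 * (HT 0 x p).re + ((HT 0 x p).re * (HT 0 x p).re + (HT 0 x p).im * (HT 0 x p).im) := by
  rw [WT, QT_zero, WB_sq]; ring

theorem WT_one (x : ℝ) (p : ℝ × ℝ) : WT 1 x p =
    2 * (HT 1 x p).re + 2 * ((HT 0 x p).re * (HT 1 x p).re + (HT 0 x p).im * (HT 1 x p).im) := by
  rw [WT, QT_one]; simp

theorem WT_two (x : ℝ) (p : ℝ × ℝ) : WT 2 x p =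
    2 * (HT 2 x p).re + (2 * ((HT 1 x p).re * (HT 1 x p).re + (HT 1 x p).im * (HT 1 x p).im) +
      2 * ((HT 0 x p).re * (HT 2 x p).re + (HT 0 x p).im * (HT 2 x p).im)) := by
  rw [WT, QT_two, WB_sq]; simp; ring

theorem WT0_der (hx : 0 < x) (h : x < 1 / 3) {p : ℝ × ℝ} (hp : p.1 < 0) :
    HasDerivAt (fun x => WT 0 x p) (WT 1 x p) x := by
  obtain ⟨a, b⟩ := WB_re (HT0_der hx h hp)
  simp only [WT_zero, WT_one]
  refine ((a.const_mul 2).add ((a.mul a).add (b.mul b))).congr_deriv ?_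
  ring

theorem WT1_der (hx : 0 < x) (h : x < 1 / 3) {p : ℝ × ℝ} (hp : p.1 < 0) :
    HasDerivAt (fun x => WT 1 x p) (WT 2 x p) x := by
  obtain ⟨a, b⟩ := WB_re (HT0_der hx h hp)
  obtain ⟨c, d⟩ := WB_re (HT1_der hx h hp)
  simp only [WT_one, WT_two]
  refine ((c.const_mul 2).add (((a.mul c).add (b.mul d)).const_mul 2)).congr_deriv ?_
  ring

theorem TT_cont (j : ℕ) (x : ℝ) (k : ℕ) : Continuous fun σ => TT j x σ k := by
  unfold TT
  split_ifs <;> fun_prop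

theorem HT_cont (hx : 0 < x) (h : x ≤ 1 / 3) (j : ℕ) : ContinuousOn (HT j x) {p | p.1 < 0} := by
  intro p hp
  have hp' : p.1 / 2 < 0 := by linarith only [hp, show p.1 < 0 from hp]
  have hc : ContinuousOn (HT j x) {q | q.1 < p.1 / 2} := by
    refine continuousOn_tsum (fun k => ?_) (WB_geo (64 / x ^ 2) hp').summable fun k q hq => ?_
    · have := TT_cont j x (k + 1)
      exact Continuous.continuousOn (by fun_prop)
    · have hq' : q.1 < p.1 / 2 := hq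
      refine (WB_norm hx (by linarith only [hp', hq']) j k _).le.trans
        ((TT_geo hx le_rfl h (by linarith only [hp', hq']) j k).trans ?_)
      gcongr
  refine (hc.continuousAt ((isOpen_lt continuous_fst continuous_const).mem_nhds ?_)).continuousWithinAt
  show p.1 < p.1 / 2
  linarith only [hp', show p.1 < 0 from hp]

theorem QT_cont (hx : 0 < x) (h : x ≤ 1 / 3) (j : ℕ) : ContinuousOn (QT j x) {p | p.1 < 0} := by
  have h0 := HT_cont hx h 0
  have h1 := HT_cont hx h 1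
  have h2 := HT_cont hx h 2
  have hs : ContinuousOn (fun p => (starRingEnd ℂ) (HT 0 x p)) {p | p.1 < 0} :=
    Complex.continuous_conj.comp_continuousOn h0
  unfold QT
  split_ifs
  · exact h0.norm.pow 2
  · exact continuousOn_const.mul (Complex.continuous_re.comp_continuousOn (hs.mul h1))
  · exact (continuousOn_const.mul (h1.norm.pow 2)).add
      (continuousOn_const.mul (Complex.continuous_re.comp_continuousOn (hs.mul h2)))

theorem WT_cont (hx : 0 < x) (h : x ≤ 1 / 3) (j : ℕ) : ContinuousOn (WT j x) {p | p.1 < 0} :=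
  (continuousOn_const.mul (Complex.continuous_re.comp_continuousOn (HT_cont hx h j))).add
    (QT_cont hx h j)

theorem WB_re_le (u v : ℂ) : |((starRingEnd ℂ) u * v).re| ≤ ‖u‖ * ‖v‖ :=
  (Complex.abs_re_le_norm _).trans (by simp)

theorem QT_abs (x : ℝ) (p : ℝ × ℝ) : |QT 0 x p| = ‖HT 0 x p‖ ^ 2 ∧
    |QT 1 x p| ≤ 2 * (‖HT 0 x p‖ * ‖HT 1 x p‖) ∧
    |QT 2 x p| ≤ 2 * ‖HT 1 x p‖ ^ 2 + 2 * (‖HT 0 x p‖ * ‖HT 2 x p‖) := by
  have h1 := abs_le.1 (WB_re_le (HT 0 x p) (HT 1 x p))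
  have h2 := abs_le.1 (WB_re_le (HT 0 x p) (HT 2 x p))
  rw [QT_zero, QT_one, QT_two]
  refine ⟨abs_of_nonneg (sq_nonneg _), abs_le.2 ⟨?_, ?_⟩, abs_le.2 ⟨?_, ?_⟩⟩ <;>
    linarith only [h1, h2, sq_nonneg ‖HT 1 x p‖, sq_nonneg ‖HT (1 : ℕ) x p‖]

theorem QT_crude {a : ℝ} (ha : 0 < a) (hx : a ≤ x) (h : x ≤ 1 / 3) {p : ℝ × ℝ} (hp : p.1 < 0)
    (j : ℕ) : |QT j x p| ≤ 4 * (64 / a ^ 2) ^ 2 * (p.1 ^ 2)⁻¹ := by
  obtain ⟨C, hC⟩ : ∃ C, C = 64 / a ^ 2 := ⟨_, rfl⟩
  have s0 : 0 < |p.1| := abs_pos.2 hp.ne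
  have b : ∀ i, ‖HT i x p‖ ≤ C / |p.1| := fun i => by
    rw [le_div_iff₀ s0, hC]; exact HT_crude ha hx h hp i
  have bb : ∀ i k, ‖HT i x p‖ * ‖HT k x p‖ ≤ C ^ 2 * (p.1 ^ 2)⁻¹ := fun i k => by
    calc _ ≤ C / |p.1| * (C / |p.1|) :=
          mul_le_mul (b i) (b k) (norm_nonneg _) ((norm_nonneg _).trans (b i))
      _ = _ := by rw [← sq_abs p.1]; field_simp
  obtain ⟨q0, q1, q2⟩ := QT_abs x p
  have p0 : 0 ≤ C ^ 2 * (p.1 ^ 2)⁻¹ := by positivity
  rw [← hC, mul_assoc]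
  rcases j with _ | _ | j
  · rw [q0]; linarith only [p0, bb, bb 0 0]
  · rw [zero_add]; linarith only [q1, p0, bb, bb 0 1]
  · have e : QT (j + 1 + 1) x p = QT 2 x p := by simp [QT]
    rw [e]; linarith only [q2, bb, bb 1 1, bb 0 2]

theorem WT_crude {a : ℝ} (ha : 0 < a) (hx : a ≤ x) (h : x ≤ 1 / 3) {p : ℝ × ℝ} (hp : p.1 < 0)
    (j : ℕ) : |WT j x p| ≤ 5 * (64 / a ^ 2) ^ 2 * (1 + (p.1 ^ 2)⁻¹) := by
  have h1 := QT_crude ha hx h hp j
  have h2 := HT_crude ha hx h hp j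
  obtain ⟨C, hC⟩ : ∃ C, C = 64 / a ^ 2 := ⟨_, rfl⟩
  have C1 : 1 ≤ C := by
    clear * - C a hC ha x hx h
    rw [hC, le_div_iff₀ (by positivity)]; linarith only [ha, hx, h, mul_nonneg_of_nonpos_of_nonpos (le_of_lt (Mathlib.Tactic.Linarith.sub_neg_of_lt ha)) (Mathlib.Tactic.Linarith.sub_nonpos_of_le hx), mul_nonneg_of_nonpos_of_nonpos (le_of_lt (Mathlib.Tactic.Linarith.sub_neg_of_lt ha)) (Mathlib.Tactic.Linarith.sub_nonpos_of_le h)]
  rw [← hC] at h1 h2 ⊢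
  have s0 : 0 < |p.1| := abs_pos.2 hp.ne
  have h3 : ‖HT j x p‖ ^ 2 ≤ C ^ 2 * (p.1 ^ 2)⁻¹ := by
    rw [← div_eq_mul_inv, ← sq_abs p.1, le_div_iff₀ (by positivity), ← mul_pow]
    exact pow_le_pow_left₀ (by positivity) h2 2
  have h4 := abs_le.1 (Complex.abs_re_le_norm (HT j x p))
  have h5 := abs_le.1 h1
  have h6 : 1 ≤ C ^ 2 := one_le_pow₀ C1
  rw [WT, abs_le]
  constructor <;> linarith only [ha, hx, h, h3, h4, h5, h6, sq_nonneg (‖HT j x p‖ - 1), sq_nonneg (‖HT j x p‖ - (1 : ℝ))]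

variable {U V : ℝ × ℝ → ℝ}

theorem WT_int (hx : 0 < x) (h : x ≤ 1 / 3) (j : ℕ) (hU : VV U) (hV : VV V) :
    Integrable (fun p => exp (2 * p.1) * WT j x p * (U p * V p)) nu :=
  hU.int_w hV (meas_nu (WT_cont hx h j)) fun _ hp _ => WT_crude hx le_rfl h hp j

theorem QT_int (hx : 0 < x) (h : x ≤ 1 / 3) (j : ℕ) (hU : VV U) (hV : VV V) :
    Integrable (fun p => exp (2 * p.1) * QT j x p * (U p * V p)) nu :=
  hU.int_w hV (meas_nu (QT_cont hx h j)) (C := 4 * (64 / x ^ 2) ^ 2) fun _ hp _ =>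
    (QT_crude hx le_rfl h hp j).trans
      (mul_le_mul_of_nonneg_left (le_add_of_nonneg_left zero_le_one) (by positivity))

theorem WW_int (hx : 0 < x) (h : x ≤ 1 / 3) (hU : VV U) (hV : VV V) :
    Integrable (fun p => exp (2 * p.1) * WW x x p * (U p * V p)) nu := by
  refine ((hU.int_N hV).add (WT_int hx h 0 hU hV)).congr (ae_nu fun p hp _ => ?_)
  simp only [Pi.add_apply, WW_eq hx h hp]
  ring

theorem nB_WW (hx : 0 < x) (h : x ≤ 1 / 3) (hU : VV U) (hV : VV V) :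
    nB (WW x x) U V = (∫ p, exp (2 * p.1) * (U p * V p) ∂nu) + nB (WT 0 x) U V := by
  rw [nB, nB, ← integral_add (hU.int_N hV) (WT_int hx h 0 hU hV)]
  refine integral_congr_ae (ae_nu fun p hp _ => ?_)
  simp only [WW_eq hx h hp]
  ring

theorem NW_eq (x : ℝ) (V : ℝ × ℝ → ℝ) : NW x x V = nB (WW x x) V V := by
  simp only [NW, nB, sq]

theorem WB_nB {i j : ℕ} (hd : ∀ y : ℝ, 0 < y → y < 1 / 3 → ∀ p : ℝ × ℝ, p.1 < 0 →
    HasDerivAt (fun y => WT i y p) (WT j y p) y) (hx : 0 < x) (h : x < 1 / 3) (hU : VV U)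
    (hV : VV V) : HasDerivAt (fun x => nB (WT i x) U V) (nB (WT j x) U V) x := by
  have hs : Ioo (x / 2) (1 / 3) ∈ 𝓝 x := Ioo_mem_nhds (by linarith only [hx]) h
  have hb : Integrable (fun p : ℝ × ℝ => exp (2 * p.1) *
      (5 * (64 / (x / 2) ^ 2) ^ 2 * (1 + (p.1 ^ 2)⁻¹)) * (U p * V p)) nu :=
    hU.int_w hV (Measurable.aestronglyMeasurable (by fun_prop))
      (C := 5 * (64 / (x / 2) ^ 2) ^ 2) fun p _ _ => (abs_of_nonneg (by positivity)).le
  refine (hasDerivAt_integral_of_dominated_loc_of_deriv_le (μ := nu)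
    (F := fun y p => exp (2 * p.1) * WT i y p * (U p * V p))
    (F' := fun y p => exp (2 * p.1) * WT j y p * (U p * V p)) hs ?_ (WT_int hx h.le i hU hV)
    (WT_int hx h.le j hU hV).1 (ae_nu fun p hp _ y hy => ?_) hb.norm
    (ae_nu fun p hp _ y hy => ?_)).2
  · filter_upwards [hs] with y hy
    exact (WT_int (by linarith only [hx, hy, hy.1]) hy.2.le i hU hV).1
  · rw [norm_mul, norm_mul, norm_mul _ (U p * V p), norm_mul (exp (2 * p.1))]
    exact mul_le_mul_of_nonneg_right (mul_le_mul_of_nonneg_left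
      ((WT_crude (half_pos hx) hy.1.le hy.2.le hp j).trans (le_abs_self _)) (norm_nonneg _))
      (norm_nonneg _)
  · exact ((hd y (by linarith only [hx, hy, hy.1]) hy.2 p hp).const_mul _).mul_const _

theorem nB0_der (hx : 0 < x) (h : x < 1 / 3) (hU : VV U) (hV : VV V) :
    HasDerivAt (fun x => nB (WT 0 x) U V) (nB (WT 1 x) U V) x :=
  WB_nB (fun _ h0 h1 _ hp => WT0_der h0 h1 hp) hx h hU hV

theorem nB1_der (hx : 0 < x) (h : x < 1 / 3) (hU : VV U) (hV : VV V) :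
    HasDerivAt (fun x => nB (WT 1 x) U V) (nB (WT 2 x) U V) x :=
  WB_nB (fun _ h0 h1 _ hp => WT1_der h0 h1 hp) hx h hU hV

end Pool.Agent.Work.MP_267827_an.PS
end
end

-- merged part: Pool.Agent.Work.MP_267827_an.PS.WN
section
-- merged part: Pool.Agent.Work.MP_267827_an.PS.WC
section
/-! Trigonometric series on the unit interval: orthogonality, integration by parts and the
Poincare inequality (helper80). -/

set_option autoImplicit false

namespace Pool.Agent.Work.MP_267827_an.PS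

open MeasureTheory Set Filter Topology Real

/-- the cosine system -/
noncomputable def ck (k : ℕ) (t : ℝ) : ℝ := cos ((k + 1 : ℕ) * π * t)

/-- the sine system -/
noncomputable def sk (k : ℕ) (t : ℝ) : ℝ := sin ((k + 1 : ℕ) * π * t)

/-- a series in a system of functions -/
noncomputable def Sr (φ : ℕ → ℝ → ℝ) (a : ℕ → ℝ) (t : ℝ) : ℝ := ∑' k, a k * φ k t

/-- a bounded orthogonal system -/
structure Sys (φ : ℕ → ℝ → ℝ) : Prop where
  cont : ∀ k, Continuous (φ k)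
  bd : ∀ k t, |φ k t| ≤ 1
  orth : ∀ k l, ∫ t, φ k t * φ l t ∂m1 = if k = l then 1 / 2 else 0

theorem m1_eq (f : ℝ → ℝ) : ∫ t, f t ∂m1 = ∫ t in (0 : ℝ)..1, f t := by
  rw [intervalIntegral.integral_of_le zero_le_one, integral_Ioc_eq_integral_Ioo]

theorem m1_int {f : ℝ → ℝ} (h : ContinuousOn f (Icc 0 1)) : Integrable f m1 :=
  (h.integrableOn_Icc).mono_set Ioo_subset_Icc_self

theorem m1_int' {f : ℝ → ℝ} (h : Continuous f) : Integrable f m1 := m1_int h.continuousOn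

theorem m1_ftc {f f' : ℝ → ℝ} (hc : ContinuousOn f (Icc 0 1))
    (hd : ∀ t ∈ Ioo (0 : ℝ) 1, HasDerivAt f (f' t) t) (hi : Integrable f' m1) :
    ∫ t, f' t ∂m1 = f 1 - f 0 := by
  rw [m1_eq]
  exact intervalIntegral.integral_eq_sub_of_hasDerivAt_of_le zero_le_one hc hd
    ((intervalIntegrable_iff_integrableOn_Ioo_of_le zero_le_one).2 hi)

theorem WC_cos (m : ℤ) : ∫ t, cos (m * π * t) ∂m1 = if m = 0 then 1 else 0 := by
  split_ifs with h
  · simp [h]
  · have hm : (m : ℝ) * π ≠ 0 := mul_ne_zero (Int.cast_ne_zero.2 h) pi_ne_zero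
    have := m1_ftc (f := fun t => sin (m * π * t) / (m * π)) (f' := fun t => cos (m * π * t))
      (by fun_prop) (fun t _ => by
        have := (((hasDerivAt_id t).const_mul (m * π)).sin).div_const (m * π)
        refine this.congr_deriv ?_
        simp only [id]
        field_simp) (m1_int' (by fun_prop))
    rw [this]
    simp [sin_int_mul_pi]

theorem WC_two (k l : ℕ) :
    ∫ t, cos (((k : ℤ) - l : ℤ) * π * t) / 2 ∂m1 = (if k = l then 1 / 2 else 0) ∧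
    ∫ t, cos (((k : ℤ) + l + 2 : ℤ) * π * t) / 2 ∂m1 = 0 := by
  rw [integral_div, integral_div, WC_cos, WC_cos, if_neg (by omega : (k : ℤ) + l + 2 ≠ 0)]
  refine ⟨?_, by simp⟩
  by_cases h : k = l
  · simp [h]
  · rw [if_neg h, if_neg (by omega)]; simp

theorem sys_ck : Sys ck where
  cont k := by unfold ck; fun_prop
  bd k t := abs_cos_le_one _
  orth k l := by
    obtain ⟨a, b⟩ := WC_two k l
    rw [← add_zero (if k = l then (1 : ℝ) / 2 else 0), ← a, ← b,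
      ← integral_add (m1_int' (by fun_prop)) (m1_int' (by fun_prop))]
    congr 1
    ext t
    have e1 : (((k : ℤ) - l : ℤ) : ℝ) * π * t = (k + 1 : ℕ) * π * t - (l + 1 : ℕ) * π * t := by
      push_cast; ring
    have e2 : (((k : ℤ) + l + 2 : ℤ) : ℝ) * π * t = (k + 1 : ℕ) * π * t + (l + 1 : ℕ) * π * t := by
      push_cast; ring
    rw [e1, e2, cos_sub, cos_add, ck, ck]
    ring

theorem sys_sk : Sys sk where
  cont k := by unfold sk; fun_prop
  bd k t := abs_sin_le_one _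
  orth k l := by
    obtain ⟨a, b⟩ := WC_two k l
    rw [← sub_zero (if k = l then (1 : ℝ) / 2 else 0), ← a, ← b,
      ← integral_sub (m1_int' (by fun_prop)) (m1_int' (by fun_prop))]
    congr 1
    ext t
    have e1 : (((k : ℤ) - l : ℤ) : ℝ) * π * t = (k + 1 : ℕ) * π * t - (l + 1 : ℕ) * π * t := by
      push_cast; ring
    have e2 : (((k : ℤ) + l + 2 : ℤ) : ℝ) * π * t = (k + 1 : ℕ) * π * t + (l + 1 : ℕ) * π * t := by
      push_cast; ring
    rw [e1, e2, cos_sub, cos_add, sk, sk]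
    ring

theorem HasSum.congr_fun' {f g : ℕ → ℝ} {s : ℝ} (h : HasSum f s) (e : ∀ k, g k = f k) :
    HasSum g s := (funext e : g = f) ▸ h

namespace Sys

variable {φ : ℕ → ℝ → ℝ} {a b : ℕ → ℝ}

theorem le (h : Sys φ) (a : ℕ → ℝ) (k : ℕ) (t : ℝ) : ‖a k * φ k t‖ ≤ |a k| := by
  rw [norm_eq_abs, abs_mul]
  exact mul_le_of_le_one_right (abs_nonneg _) (h.bd k t)

theorem hasSum (h : Sys φ) (ha : Summable a) (t : ℝ) :
    HasSum (fun k => a k * φ k t) (Sr φ a t) :=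
  (Summable.of_norm_bounded ha.abs fun k => h.le a k t).hasSum

theorem cont_Sr (h : Sys φ) (ha : Summable a) : Continuous (Sr φ a) :=
  continuous_tsum (fun k => continuous_const.mul (h.cont k)) ha.abs (h.le a)

theorem pair (h : Sys φ) (ha : Summable a) {g : ℝ → ℝ} (hg : Integrable g m1) :
    HasSum (fun k => a k * ∫ t, φ k t * g t ∂m1) (∫ t, Sr φ a t * g t ∂m1) := by
  have hi : ∀ k, Integrable (fun t => a k * φ k t * g t) m1 := fun k =>
    hg.bdd_mul (c := |a k|) (continuous_const.mul (h.cont k)).aestronglyMeasurable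
      (Eventually.of_forall (h.le a k))
  have := hasSum_integral_of_summable_integral_norm hi
    (.of_nonneg_of_le (fun k => integral_nonneg fun t => norm_nonneg _) (fun k => ?_)
      (ha.abs.mul_right (∫ t, ‖g t‖ ∂m1)))
  · simp only [tsum_mul_right] at this
    simpa only [mul_assoc, integral_const_mul, Sr] using this
  · rw [← integral_const_mul]
    refine integral_mono (hi k).norm (hg.norm.const_mul _) fun t => ?_
    simp only [norm_mul (a k * φ k t)]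
    exact mul_le_mul_of_nonneg_right (h.le a k t) (norm_nonneg _)

theorem coef (h : Sys φ) (hb : Summable b) (k : ℕ) : ∫ t, φ k t * Sr φ b t ∂m1 = b k / 2 := by
  have h1 := h.pair hb (m1_int' (h.cont k))
  simp only [h.orth] at h1
  have h2 : HasSum (fun l => b l * if l = k then (1 : ℝ) / 2 else 0) (b k / 2) := by
    have := hasSum_ite_eq k (b k / 2)
    convert this using 2 with l
    split_ifs with e
    · rw [e]; ring
    · simp
  rw [← h1.unique h2]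
  simp only [mul_comm]

theorem parseval (h : Sys φ) (ha : Summable a) (hb : Summable b) :
    HasSum (fun k => a k * b k / 2) (∫ t, Sr φ a t * Sr φ b t ∂m1) := by
  have := h.pair ha (m1_int' (h.cont_Sr hb))
  simpa only [h.coef hb, mul_div_assoc] using this

end Sys

theorem ck_mean (k : ℕ) : ∫ t, ck k t ∂m1 = 0 := by
  have := WC_cos ((k + 1 : ℕ) : ℤ)
  rw [if_neg (by omega)] at this
  simpa only [Int.cast_natCast, ck] using this

theorem Sr_mean {a : ℕ → ℝ} (ha : Summable a) : ∫ t, Sr ck a t ∂m1 = 0 := by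
  have := sys_ck.pair ha (integrable_const (1 : ℝ))
  simp only [mul_one, ck_mean, mul_zero] at this
  exact this.unique hasSum_zero

theorem WC_div {a : ℕ → ℝ} (ha : Summable a) : Summable fun k => a k / ((k + 1 : ℕ) * π) := by
  refine .of_norm_bounded ha.abs fun k => ?_
  have k1 : (1 : ℝ) ≤ (k + 1 : ℕ) := by exact_mod_cast Nat.le_add_left 1 k
  have : (1 : ℝ) ≤ (k + 1 : ℕ) * π := by linarith only [k1, pi_gt_three, mul_nonneg_of_nonpos_of_nonpos (Mathlib.Tactic.Linarith.sub_nonpos_of_le (Mathlib.Tactic.Linarith.natCast_nonneg ℝ (k + (1 : ℕ)))) (le_of_lt (Mathlib.Tactic.Linarith.sub_neg_of_lt pi_gt_three))]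
  rw [norm_eq_abs, abs_div, abs_of_pos (by linarith : (0 : ℝ) < (k + 1 : ℕ) * π)]
  exact div_le_self (abs_nonneg _) this

/-- integration by parts for a cosine series -/
theorem Sr_ibp {a : ℕ → ℝ} (ha : Summable a) {w w' : ℝ → ℝ} (hc : ContinuousOn w (Icc 0 1))
    (hc' : ContinuousOn w' (Icc 0 1)) (hd : ∀ t ∈ Ioo (0 : ℝ) 1, HasDerivAt w (w' t) t) :
    ∫ t, Sr ck a t * w t ∂m1 = -∫ t, Sr sk (fun k => a k / ((k + 1 : ℕ) * π)) t * w' t ∂m1 := by
  have h1 := sys_ck.pair ha (m1_int hc)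
  have h2 := (sys_sk.pair (WC_div ha) (m1_int hc')).neg
  refine h1.unique (HasSum.congr_fun' h2 (fun k => by
    have k0 : ((k + 1 : ℕ) : ℝ) * π ≠ 0 := by positivity
    have c1 := (sys_ck.cont k).continuousOn (s := Icc 0 1)
    have c2 := (sys_sk.cont k).continuousOn (s := Icc 0 1)
    have := m1_ftc (f := fun t => sk k t * w t)
      (f' := fun t => (k + 1 : ℕ) * π * (ck k t * w t) + sk k t * w' t) (c2.mul hc)
      (fun t ht => by
        have := (((hasDerivAt_id t).const_mul ((k + 1 : ℕ) * π)).sin).mul (hd t ht)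
        refine this.congr_deriv ?_
        simp only [id, ck, sk]
        ring) (m1_int ((continuousOn_const.mul (c1.mul hc)).add (c2.mul hc')))
    rw [integral_add (m1_int (by fun_prop)) (m1_int (by fun_prop)), integral_const_mul] at this
    have e1 : sk k 1 = 0 := by rw [sk, mul_one, sin_nat_mul_pi]
    have e0 : sk k 0 = 0 := by rw [sk, mul_zero, sin_zero]
    rw [e1, e0] at this
    field_simp
    linear_combination a k * this))

/-- the pairing of a cosine series with a function is controlled by its derivative -/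
theorem Sr_pair_le {a : ℕ → ℝ} (ha : Summable a) {w w' : ℝ → ℝ} (hc : ContinuousOn w (Icc 0 1))
    (hc' : ContinuousOn w' (Icc 0 1)) (hd : ∀ t ∈ Ioo (0 : ℝ) 1, HasDerivAt w (w' t) t) :
    (Summable fun k => (a k / (k + 1)) ^ 2) ∧
    (∫ t, Sr ck a t * w t ∂m1) ^ 2 ≤
      (∑' k, (a k / (k + 1)) ^ 2) / 2 * ((∫ t, w' t ^ 2 ∂m1) / π ^ 2) := by
  have h1 := (sys_sk.parseval (WC_div ha) (WC_div ha)).mul_left (2 * π ^ 2)
  have e : (fun k : ℕ => 2 * π ^ 2 * (a k / ((k + 1 : ℕ) * π) * (a k / ((k + 1 : ℕ) * π)) / 2)) =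
      fun k : ℕ => (a k / (k + 1)) ^ 2 := by
    ext k
    have := pi_pos
    push_cast
    field_simp
  rw [e] at h1
  have c1 := (sys_sk.cont_Sr (WC_div ha)).continuousOn (s := Icc 0 1)
  refine ⟨h1.summable, ?_⟩
  rw [Sr_ibp ha hc hc' hd, neg_sq, h1.tsum_eq]
  refine (cs (m1_int (c1.pow 2)) (m1_int (hc'.pow 2)) (m1_int (c1.mul hc'))).trans (le_of_eq ?_)
  have := pi_pos
  simp only [← sq]
  generalize (∫ t, Sr sk (fun k => a k / ((k + 1 : ℕ) * π)) t ^ 2 ∂m1) = A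
  field_simp

theorem WC_dir {W W' : ℝ → ℝ} (hc : ContinuousOn W (Icc 0 1)) (hc' : ContinuousOn W' (Icc 0 1))
    (hd : ∀ t ∈ Ioo (0 : ℝ) 1, HasDerivAt W (W' t) t) (h0 : W 0 = 0) (h1 : W 1 = 0) :
    π ^ 2 * ∫ t, W t ^ 2 ∂m1 ≤ ∫ t, W' t ^ 2 ∂m1 := by
  have key : ∀ ρ : ℝ, 0 < ρ → ρ < π → ρ ^ 2 * ∫ t, W t ^ 2 ∂m1 ≤ ∫ t, W' t ^ 2 ∂m1 := by
    intro ρ r0 r1
    have hcos : ∀ t ∈ Icc (0 : ℝ) 1, cos (ρ * (t - 1 / 2)) ≠ 0 := fun t ht =>
      (cos_pos_of_mem_Ioo ⟨by linarith only [mul_nonneg r0.le ht.1, r1],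
        by linarith only [mul_le_mul_of_nonneg_left ht.2 r0.le, r1]⟩).ne'
    obtain ⟨g, hg⟩ : ∃ g : ℝ → ℝ, g = fun t => ρ * tan (ρ * (t - 1 / 2)) := ⟨_, rfl⟩
    have gd : ∀ t ∈ Icc (0 : ℝ) 1, HasDerivAt g (ρ ^ 2 + g t ^ 2) t := fun t ht => by
      have := ((hasDerivAt_tan (hcos t ht)).comp t
        (((hasDerivAt_id t).sub_const (1 / 2)).const_mul ρ)).const_mul ρ
      rw [hg]
      refine this.congr_deriv ?_
      have h3 := hcos t ht
      simp only [tan_eq_sin_div_cos]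
      generalize ρ * (t - 1 / 2) = y at h3
      field_simp
      linear_combination -(sin_sq_add_cos_sq y)
    have gc : ContinuousOn g (Icc 0 1) := fun t ht => (gd t ht).continuousAt.continuousWithinAt
    have i1 : Integrable (fun t => (ρ ^ 2 + g t ^ 2) * W t ^ 2 + g t * (2 * W t * W' t)) m1 :=
      m1_int (by fun_prop)
    have := m1_ftc (f := fun t => g t * W t ^ 2) (gc.mul (hc.pow 2)) (fun t ht =>
      ((gd t (Ioo_subset_Icc_self ht)).mul ((hd t ht).pow 2)).congr_deriv (by simp)) i1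
    rw [h0, h1] at this
    have i2 : Integrable (fun t => ρ ^ 2 * W t ^ 2) m1 := m1_int (by fun_prop)
    have i3 : Integrable (fun t => W' t ^ 2) m1 := m1_int (by fun_prop)
    have h4 := integral_mono i2 (iadd i3 i1 |>.sub (i2.const_mul 0)) (g := fun t =>
      W' t ^ 2 + ((ρ ^ 2 + g t ^ 2) * W t ^ 2 + g t * (2 * W t * W' t)) - 0 * (ρ ^ 2 * W t ^ 2))
      fun t => by linarith only [sq_nonneg (W' t + g t * W t)]
    simp only [zero_mul, sub_zero] at h4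
    rw [integral_add i3 i1, this, integral_const_mul] at h4
    linarith only [h4]
  have hlim : Tendsto (fun ρ : ℝ => ρ ^ 2 * ∫ t, W t ^ 2 ∂m1) (𝓝[<] π)
      (𝓝 (π ^ 2 * ∫ t, W t ^ 2 ∂m1)) :=
    (Continuous.tendsto (by fun_prop) π).mono_left nhdsWithin_le_nhds
  refine le_of_tendsto hlim ?_
  filter_upwards [Ioo_mem_nhdsLT pi_pos] with ρ hρ using key ρ hρ.1 hρ.2

/-- the Poincare inequality on the unit interval -/
theorem poincare {P P' : ℝ → ℝ} (hc : ContinuousOn P (Icc 0 1)) (hc' : ContinuousOn P' (Icc 0 1))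
    (hd : ∀ t ∈ Ioo (0 : ℝ) 1, HasDerivAt P (P' t) t) (h0 : ∫ t, P t ∂m1 = 0) :
    ∫ t, P t ^ 2 ∂m1 ≤ (∫ t, P' t ^ 2 ∂m1) / π ^ 2 := by
  obtain ⟨W, hW⟩ : ∃ W : ℝ → ℝ, W = fun t => ∫ s in (0 : ℝ)..t, P s := ⟨_, rfl⟩
  have hI : IntervalIntegrable P volume 0 1 := by
    apply ContinuousOn.intervalIntegrable; rwa [uIcc_of_le zero_le_one]
  have Wc : ContinuousOn W (Icc 0 1) := by
    have := intervalIntegral.continuousOn_primitive_interval' hI left_mem_uIcc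
    rwa [uIcc_of_le zero_le_one, ← hW] at this
  have Wd : ∀ t ∈ Ioo (0 : ℝ) 1, HasDerivAt W (P t) t := fun t ht => by
    rw [hW]
    exact intervalIntegral.integral_hasDerivAt_right
      (hI.mono_set (by
        rw [uIcc_of_le zero_le_one, uIcc_of_le ht.1.le]; exact Icc_subset_Icc_right ht.2.le))
      ((hc.mono Ioo_subset_Icc_self).stronglyMeasurableAtFilter isOpen_Ioo t ht)
      (hc.continuousAt (Icc_mem_nhds ht.1 ht.2))
  have W0 : W 0 = 0 := by simp [hW]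
  have W1 : W 1 = 0 := by rw [m1_eq] at h0; rw [hW]; exact h0
  have h1 := WC_dir Wc hc Wd W0 W1
  have i1 : Integrable (fun t => P t ^ 2) m1 := m1_int (by fun_prop)
  have i2 : Integrable (fun t => W t * P' t) m1 := m1_int (by fun_prop)
  have h2 := m1_ftc (f := fun t => W t * P t) (f' := fun t => P t ^ 2 + W t * P' t) (Wc.mul hc)
    (fun t ht => ((Wd t ht).mul (hd t ht)).congr_deriv (by ring)) (iadd i1 i2)
  rw [W0, W1, integral_add i1 i2] at h2
  have h3 := cs (μ := m1) (f := W) (g := P') (m1_int (by fun_prop)) (m1_int (by fun_prop)) i2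
  have p0 : 0 ≤ ∫ t, P t ^ 2 ∂m1 := integral_nonneg fun _ => sq_nonneg _
  have p1 : 0 ≤ ∫ t, P' t ^ 2 ∂m1 := integral_nonneg fun _ => sq_nonneg _
  have e : ∫ t, W t * P' t ∂m1 = -∫ t, P t ^ 2 ∂m1 := by linarith only [h2]
  rw [e, neg_sq] at h3
  rw [le_div_iff₀ (by positivity)]
  rcases p0.eq_or_lt with z | z
  · rw [← z, zero_mul]; exact p1
  · refine le_of_mul_le_mul_left ?_ z
    linarith only [h1, p1, h3, mul_le_mul_of_nonneg_right h1 p1, mul_le_mul_of_nonneg_left h3 (sq_nonneg π), sq_nonneg π]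

variable {x σ : ℝ}

theorem HT_re_im (hx : 0 < x) (h : x ≤ 1 / 3) (hσ : σ < 0) (j : ℕ) (t : ℝ) :
    (HT j x (σ, t)).re = Sr ck (fun k => TT j x σ (k + 1)) t ∧
    (HT j x (σ, t)).im = Sr sk (fun k => TT j x σ (k + 1)) t := by
  have h1 := HT_hasSum hx h (p := (σ, t)) hσ j
  have h2 := Complex.hasSum_re h1
  have h3 := Complex.hasSum_im h1
  simp only [Complex.re_ofReal_mul, Complex.im_ofReal_mul, ei_re, ei_im] at h2 h3
  exact ⟨h2.tsum_eq.symm, h3.tsum_eq.symm⟩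

theorem HT_cont_t (hx : 0 < x) (h : x ≤ 1 / 3) (hσ : σ < 0) (j : ℕ) :
    Continuous fun t => HT j x (σ, t) :=
  (HT_cont hx h j).comp_continuous (by fun_prop) fun _ => hσ

theorem HT_mean (hx : 0 < x) (h : x ≤ 1 / 3) (hσ : σ < 0) (j : ℕ) :
    ∫ t, (HT j x (σ, t)).re ∂m1 = 0 := by
  simp only [fun t => (HT_re_im hx h hσ j t).1]
  exact Sr_mean (TT_summable hx h hσ j)

theorem HT_polar (hx : 0 < x) (h : x ≤ 1 / 3) (hσ : σ < 0) (i j : ℕ) :
    HasSum (fun k => TT i x σ (k + 1) * TT j x σ (k + 1))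
      (∫ t, ((starRingEnd ℂ) (HT i x (σ, t)) * HT j x (σ, t)).re ∂m1) := by
  have a := TT_summable hx h hσ i
  have b := TT_summable hx h hσ j
  have := (sys_ck.parseval a b).add (sys_sk.parseval a b)
  have c1 := sys_ck.cont_Sr a
  have c2 := sys_ck.cont_Sr b
  have c3 := sys_sk.cont_Sr a
  have c4 := sys_sk.cont_Sr b
  rw [← integral_add (m1_int' (by fun_prop)) (m1_int' (by fun_prop))] at this
  convert this using 1
  · ext k; ring
  · congr 1
    ext t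
    simp [(HT_re_im hx h hσ i t).1, (HT_re_im hx h hσ i t).2, (HT_re_im hx h hσ j t).1,
      (HT_re_im hx h hσ j t).2]

theorem HT_parseval (hx : 0 < x) (h : x ≤ 1 / 3) (hσ : σ < 0) (j : ℕ) :
    HasSum (fun k => TT j x σ (k + 1) ^ 2) (∫ t, ‖HT j x (σ, t)‖ ^ 2 ∂m1) := by
  have := HT_polar hx h hσ j j
  convert this using 1
  · ext k; ring
  · congr 1
    ext t
    rw [WB_sq]; simp; ring

theorem ST_eq (hx : 0 < x) (h : x ≤ 1 / 3) (hσ : σ < 0) (j : ℕ) :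
    ∫ t, ‖HT j x (σ, t)‖ ^ 2 ∂m1 = ST j x σ := (HT_parseval hx h hσ j).tsum_eq.symm

theorem HT_re_sq (hx : 0 < x) (h : x ≤ 1 / 3) (hσ : σ < 0) (j : ℕ) :
    ∫ t, (HT j x (σ, t)).re ^ 2 ∂m1 = ST j x σ / 2 := by
  have a := TT_summable hx h hσ j
  have := (sys_ck.parseval a a).mul_left 2
  simp only [fun t => (HT_re_im hx h hσ j t).1, ST, sq]
  rw [eq_div_iff two_ne_zero, mul_comm, ← this.tsum_eq]
  congr 1
  ext k; ring

theorem HT_pair_le (hx : 0 < x) (h : x ≤ 1 / 3) (hσ : σ < 0) (j : ℕ) {w w' : ℝ → ℝ}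
    (hc : ContinuousOn w (Icc 0 1)) (hc' : ContinuousOn w' (Icc 0 1))
    (hd : ∀ t ∈ Ioo (0 : ℝ) 1, HasDerivAt w (w' t) t) :
    (Summable fun k : ℕ => (TT j x σ (k + 1) / (k + 1)) ^ 2) ∧
    (∫ t, (HT j x (σ, t)).re * w t ∂m1) ^ 2 ≤
      (∑' k : ℕ, (TT j x σ (k + 1) / (k + 1)) ^ 2) / 2 * ((∫ t, w' t ^ 2 ∂m1) / π ^ 2) := by
  simp only [fun t => (HT_re_im hx h hσ j t).1]
  exact Sr_pair_le (TT_summable hx h hσ j) hc hc' hd

/-- the means of the weight and of its derivatives -/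
theorem WT_mean (hx : 0 < x) (h : x ≤ 1 / 3) (hσ : σ < 0) (j : ℕ) :
    ∫ t, WT j x (σ, t) ∂m1 = ∫ t, QT j x (σ, t) ∂m1 := by
  have c1 : Continuous fun t => (HT j x (σ, t)).re :=
    Complex.continuous_re.comp (HT_cont_t hx h hσ j)
  have c2 : Continuous fun t => QT j x (σ, t) :=
    (QT_cont hx h j).comp_continuous (by fun_prop) fun _ => hσ
  simp only [WT]
  rw [integral_add ((m1_int' c1).const_mul 2) (m1_int' c2), integral_const_mul, HT_mean hx h hσ]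
  simp

theorem QT_mean (hx : 0 < x) (h : x ≤ 1 / 3) (hσ : σ < 0) :
    HasSum (fun k => TT 0 x σ (k + 1) ^ 2) (∫ t, QT 0 x (σ, t) ∂m1) ∧
    HasSum (fun k => 2 * (TT 0 x σ (k + 1) * TT 1 x σ (k + 1))) (∫ t, QT 1 x (σ, t) ∂m1) ∧
    HasSum (fun k => 2 * TT 1 x σ (k + 1) ^ 2 + 2 * (TT 0 x σ (k + 1) * TT 2 x σ (k + 1)))
      (∫ t, QT 2 x (σ, t) ∂m1) := by
  refine ⟨?_, ?_, ?_⟩
  · simpa only [QT_zero] using HT_parseval hx h hσ 0
  · simpa only [QT_one, integral_const_mul] using (HT_polar hx h hσ 0 1).mul_left 2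
  · have c1 : Continuous fun t => ‖HT 1 x (σ, t)‖ ^ 2 := (HT_cont_t hx h hσ 1).norm.pow 2
    have c2 : Continuous fun t => ((starRingEnd ℂ) (HT 0 x (σ, t)) * HT 2 x (σ, t)).re :=
      Complex.continuous_re.comp
      ((Complex.continuous_conj.comp (HT_cont_t hx h hσ 0)).mul (HT_cont_t hx h hσ 2))
    simp only [QT_two]
    rw [integral_add ((m1_int' c1).const_mul 2) ((m1_int' c2).const_mul 2), integral_const_mul,
      integral_const_mul]
    exact ((HT_parseval hx h hσ 1).mul_left 2).add ((HT_polar hx h hσ 0 2).mul_left 2)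

end Pool.Agent.Work.MP_267827_an.PS
end

-- merged part: Pool.Agent.Work.MP_267827_an.PS.WDefs
section
/-! Definitions for the perturbation argument in the window `0 < x ≤ 1 / 4` (helper81). -/

set_option autoImplicit false

namespace Pool.Agent.Work.MP_267827_an.PS

open MeasureTheory Set Filter Topology Real

noncomputable section

/-- integrals of the series of squares -/
def Iw (c : ℝ) (j : ℕ) (x : ℝ) : ℝ := ∫ σ, exp (c * σ) * σ ^ 2 * ST j x σ ∂m0

/-- orthogonality to the ground state of the disc -/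
def Ort (w : ℝ × ℝ → ℝ) : Prop := ∫ p, exp (2 * p.1) * (JV p * w p) ∂nu = 0

/-- the ground state plus a perturbation -/
def vs (e : ℝ × ℝ → ℝ) (p : ℝ × ℝ) : ℝ := 1 * JV p + e p

/-- the quadratic form -/
def PX (x L : ℝ) (V : ℝ × ℝ → ℝ) : ℝ := AA x * Dx x V - L * jj ^ 2 * NW x x V

/-- the bilinear form -/
def BX (x L : ℝ) (U V : ℝ × ℝ → ℝ) : ℝ :=
  AA x * ((∫ p, ds U p * ds V p ∂nu) + (∫ p, dt U p * dt V p ∂nu) / (π ^ 2 * x ^ 2)) -
    L * jj ^ 2 * nB (WW x x) U V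

/-- a normalised almost minimiser -/
structure Nr (x₀ M₀ η : ℝ) (e : ℝ × ℝ → ℝ) : Prop where
  vv : VV e
  ort : Ort e
  near : PX x₀ M₀ (vs e) ≤ η

/-- the slope that cancels the first order term -/
def Gv (x₀ M₀ : ℝ) (v : ℝ × ℝ → ℝ) : ℝ :=
  (A1 x₀ * Ds v + (A1 x₀ - 2 * AA x₀ / x₀) * (Dt v / (π ^ 2 * x₀ ^ 2)) -
    M₀ * jj ^ 2 * nB (WT 1 x₀) v v) / (jj ^ 2 * NW x₀ x₀ v)

/-- the bottom of the spectrum at `x₀` -/
structure Bt (x₀ M₀ : ℝ) : Prop where
  pos : 0 < x₀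
  le : x₀ ≤ 1 / 5
  hh : HH x₀ M₀
  low : AA x₀ * (1 - 3 * x₀ ^ 4) ≤ M₀
  up : M₀ ≤ AA x₀

/-- the perturbation is small -/
structure Sm (x₀ : ℝ) (e : ℝ × ℝ → ℝ) : Prop where
  vv : VV e
  ort : Ort e
  es : √(Ds e) ≤ 31 / 10 * x₀ ^ 3 * DD
  et : √(Dt e) / π ≤ 7 / 2 * x₀ ^ 4 * DD

/-- all the data for the comparison of `x` with `x₀` -/
structure Dat (x₀ M₀ G x : ℝ) (e : ℝ × ℝ → ℝ) : Prop where
  bt : Bt x₀ M₀
  sm : Sm x₀ e
  Geq : G = Gv x₀ M₀ (vs e)
  Glo : 1 + 13 * x₀ ^ 3 ≤ G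
  Ghi : G ≤ 1 + 26 / 5 * x₀ ^ 2
  lo : x₀ / 2 ≤ x
  hi : x ≤ 1 / 4

/-- the second order gain divided by `(x - x₀) ^ 2` -/
def gain (x₀ x : ℝ) : ℝ :=
  2 * (x ^ 2 + 2 * x * x₀ + 3 * x₀ ^ 2) -
    151 / 200 * (x ^ 3 + 2 * x ^ 2 * x₀ + 3 * x * x₀ ^ 2 + 4 * x₀ ^ 3) -
    175 / 3 * x₀ ^ 4 * (x + 2 * x₀)

/-- the radial coupling divided by `|x - x₀|` -/
def cpS (x₀ x : ℝ) : ℝ :=
  43 / 25 * (31 / 10 * x₀ ^ 3) +
    63 / 10 * (x ^ 4 + x ^ 3 * x₀ + x ^ 2 * x₀ ^ 2 + x * x₀ ^ 3 + x₀ ^ 4) +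
    32 / 3 * (31 / 10 * x₀ ^ 3) * (x ^ 2 + x * x₀ + x₀ ^ 2)

/-- the angular coupling divided by `|x - x₀|` -/
def cpT (x₀ x : ℝ) : ℝ := 29 / 25 * (7 / 2 * x₀ ^ 3) + 10 / 3 * x * (x ^ 2 + x * x₀ + x₀ ^ 2)

end

end Pool.Agent.Work.MP_267827_an.PS
end

-- merged part: Pool.Agent.Work.MP_267827_an.PS.WN
section
/-! The final numerical inequalities.  The largest ratios are `0.541` and `0.319` instead of
`11 / 20` and `7 / 20`, both at `x₀ = 1 / 5`, `x = 1 / 4`. -/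

set_option autoImplicit false

namespace Pool.Agent.Work.MP_267827_an.PS

open MeasureTheory Set Filter Topology Real

variable {x x₀ : ℝ}

theorem WN_SA {y : ℝ} (h0 : 0 ≤ y) (h1 : y ≤ 1 / 5) :
    cpS y (1 / 4) ^ 2 ≤ 11 / 20 * (119 / 250 * (1 / 4)) * gain y (1 / 4) := by
  have key : ∀ u v : ℝ, 0 ≤ u → 0 ≤ v → 0 ≤
      17417019375 / 262144 * u ^ 0 * v ^ 10 + 101018712375 / 131072 * u ^ 1 * v ^ 9 +
      1068011628075 / 262144 * u ^ 2 * v ^ 8 + 418263368285 / 32768 * u ^ 3 * v ^ 7 +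
      10225912584965 / 393216 * u ^ 4 * v ^ 6 + 7020526558255 / 196608 * u ^ 5 * v ^ 5 +
      976535505175807 / 29491200 * u ^ 6 * v ^ 4 + 148053643631597 / 7372800 * u ^ 7 * v ^ 3 +
      142995884495681 / 19660800 * u ^ 8 * v ^ 2 +
      35792143872887 / 29491200 * u ^ 9 * v ^ 1 + 272398878839 / 58982400 * u ^ 10 * v ^ 0 := by
    intro u v hu hv
    positivity
  refine sub_nonneg.1 ((key y (1 / 5 - y) (by linarith only [h0]) (by linarith only [h1])).trans_eq ?_)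
  unfold cpS gain
  ring

theorem WN_TA {y : ℝ} (h0 : 0 ≤ y) (h1 : y ≤ 1 / 5) :
    cpT y (1 / 4) ^ 2 ≤ 7 / 20 * (749 / 1000 * (1 / 4)) * gain y (1 / 4) := by
  have key : ∀ u v : ℝ, 0 ≤ u → 0 ≤ v → 0 ≤
      43373963 / 589824 * u ^ 0 * v ^ 6 + 824105297 / 1474560 * u ^ 1 * v ^ 5 +
      27021978949 / 14745600 * u ^ 2 * v ^ 4 + 56975044327 / 18432000 * u ^ 3 * v ^ 3 +
      197607903329 / 73728000 * u ^ 4 * v ^ 2 + 36572950457 / 36864000 * u ^ 5 * v ^ 1 +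
      14482483811 / 368640000 * u ^ 6 * v ^ 0 := by
    intro u v hu hv
    positivity
  refine sub_nonneg.1 ((key y (1 / 5 - y) (by linarith only [h0]) (by linarith only [h1])).trans_eq ?_)
  unfold cpT gain
  ring

theorem WN_SB {y : ℝ} (h0 : 1 / 10 ≤ y) (h1 : y ≤ 1 / 4) :
    cpS (1 / 5) y ^ 2 ≤ 11 / 20 * (119 / 250 * y) * gain (1 / 5) y := by
  have key : ∀ u v : ℝ, 0 ≤ u → 0 ≤ v → 0 ≤
      227991808 / 295245 * u ^ 0 * v ^ 8 + 253037687936 / 7381125 * u ^ 1 * v ^ 7 +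
      8073578731424 / 36905625 * u ^ 2 * v ^ 6 + 23016075253792 / 36905625 * u ^ 3 * v ^ 5 +
      35908183441724 / 36905625 * u ^ 4 * v ^ 4 + 32115556980856 / 36905625 * u ^ 5 * v ^ 3 +
      15675891578684 / 36905625 * u ^ 6 * v ^ 2 + 671779311494 / 7381125 * u ^ 7 * v ^ 1 +
      272398878839 / 147622500 * u ^ 8 * v ^ 0 := by
    intro u v hu hv
    positivity
  refine sub_nonneg.1 ((key (y - 1 / 10) (1 / 4 - y) (by linarith only [h0]) (by linarith only [h1])).trans_eq ?_)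
  unfold cpS gain
  ring

theorem WN_TB {y : ℝ} (h0 : 1 / 10 ≤ y) (h1 : y ≤ 1 / 4) :
    cpT (1 / 5) y ^ 2 ≤ 7 / 20 * (749 / 1000 * y) * gain (1 / 5) y := by
  have key : ∀ u v : ℝ, 0 ≤ u → 0 ≤ v → 0 ≤
      1297721243 / 4100625 * u ^ 0 * v ^ 6 + 3508552754 / 1366875 * u ^ 1 * v ^ 5 +
      1460451323 / 182250 * u ^ 2 * v ^ 4 + 50646016411 / 4100625 * u ^ 3 * v ^ 3 +
      211093669817 / 21870000 * u ^ 4 * v ^ 2 + 4005031753 / 1215000 * u ^ 5 * v ^ 1 +
      14482483811 / 65610000 * u ^ 6 * v ^ 0 := by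
    intro u v hu hv
    positivity
  refine sub_nonneg.1 ((key (y - 1 / 10) (1 / 4 - y) (by linarith only [h0]) (by linarith only [h1])).trans_eq ?_)
  unfold cpT gain
  ring

theorem WN_scale (h0 : 0 < x₀) (h5 : x₀ ≤ 1 / 5) (h1 : x₀ / 2 ≤ x) (h2 : x ≤ 1 / 4) :
    ∃ t Y X : ℝ, 0 < t ∧ t ≤ 1 ∧ 0 ≤ Y ∧ 0 ≤ X ∧ x₀ = t * Y ∧ x = t * X ∧
      ((X = 1 / 4 ∧ Y ≤ 1 / 5) ∨ (Y = 1 / 5 ∧ 1 / 10 ≤ X ∧ X ≤ 1 / 4)) := by
  have hx : 0 < x := by linarith only [h0, h1]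
  rcases le_total x₀ (4 / 5 * x) with h | h
  · refine ⟨4 * x, x₀ / (4 * x), 1 / 4, by linarith only [h0, h], by linarith only [h2], by positivity, by norm_num,
      by field_simp, by ring, Or.inl ⟨rfl, ?_⟩⟩
    rw [div_le_iff₀ (by linarith only [h0, h])]
    linarith only [h]
  · refine ⟨5 * x₀, 1 / 5, x / (5 * x₀), by linarith only [h0], by linarith only [h5], by norm_num, by positivity,
      by ring, by field_simp, Or.inr ⟨rfl, ?_, ?_⟩⟩
    · rw [le_div_iff₀ (by linarith only [h0])]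
      linarith only [h1]
    · rw [div_le_iff₀ (by linarith only [h0])]
      linarith only [h]

theorem WN_gain {t Y X : ℝ} (h0 : 0 < t) (h1 : t ≤ 1) (hY : 0 ≤ Y) (hX : 0 ≤ X) :
    t ^ 2 * gain Y X ≤ gain (t * Y) (t * X) := by
  have h3 : 0 ≤ 1 - t := by linarith
  have key : 0 ≤ t ^ 2 * (1 - t) * (151 / 200 * (X ^ 3 + 2 * X ^ 2 * Y + 3 * X * Y ^ 2 + 4 * Y ^ 3) +
      (1 + t + t ^ 2) * (175 / 3 * Y ^ 4 * (X + 2 * Y))) := by positivity
  refine sub_nonneg.1 (key.trans_eq ?_)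
  unfold gain
  ring

theorem WN_cpS {t Y X : ℝ} (h0 : 0 < t) (h1 : t ≤ 1) (hY : 0 ≤ Y) (hX : 0 ≤ X) :
    cpS (t * Y) (t * X) ^ 2 ≤ (t ^ 3 * cpS Y X) ^ 2 := by
  have h3 : 0 ≤ 1 - t := by linarith
  refine pow_le_pow_left₀ (by unfold cpS; positivity) ?_ 2
  have key : 0 ≤ t ^ 3 * (1 - t) *
      (63 / 10 * (X ^ 4 + X ^ 3 * Y + X ^ 2 * Y ^ 2 + X * Y ^ 3 + Y ^ 4) +
      (1 + t) * (32 / 3 * (31 / 10 * Y ^ 3) * (X ^ 2 + X * Y + Y ^ 2))) := by positivity
  refine sub_nonneg.1 (key.trans_eq ?_)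
  unfold cpS
  ring

theorem WN_fin {t X a b c G g : ℝ} (h0 : 0 < t) (h1 : t ≤ 1) (hc : 0 ≤ c * X)
    (ha : a ^ 2 ≤ (t ^ 3 * b) ^ 2) (hb : b ^ 2 ≤ c * X * G) (hg : t ^ 2 * G ≤ g) :
    a ^ 2 ≤ c * (t * X) * g := by
  have h3 : t ^ 3 ≤ 1 := pow_le_one₀ h0.le h1
  calc a ^ 2 ≤ (t ^ 3 * b) ^ 2 := ha
    _ = t ^ 3 * (t ^ 3 * b ^ 2) := by ring
    _ ≤ 1 * (t ^ 3 * b ^ 2) := mul_le_mul_of_nonneg_right h3 (by positivity)
    _ ≤ 1 * (t ^ 3 * (c * X * G)) := by gcongr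
    _ = t * (c * X) * (t ^ 2 * G) := by ring
    _ ≤ t * (c * X) * g := mul_le_mul_of_nonneg_left hg (by positivity)
    _ = c * (t * X) * g := by ring

theorem WN_S (h0 : 0 < x₀) (h5 : x₀ ≤ 1 / 5) (h1 : x₀ / 2 ≤ x) (h2 : x ≤ 1 / 4) :
    cpS x₀ x ^ 2 ≤ 11 / 20 * (119 / 250 * x) * gain x₀ x := by
  obtain ⟨t, Y, X, t0, t1, hY, hX, rfl, rfl, h⟩ := WN_scale h0 h5 h1 h2
  have hb : cpS Y X ^ 2 ≤ 11 / 20 * (119 / 250 * X) * gain Y X := by
    rcases h with ⟨rfl, h⟩ | ⟨rfl, h, h'⟩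
    · exact WN_SA hY h
    · exact WN_SB h h'
  have := WN_fin (X := X) (c := 11 / 20 * (119 / 250)) t0 t1 (by positivity) (WN_cpS t0 t1 hY hX)
    (by rw [mul_assoc (11 / 20 : ℝ)]; exact hb) (WN_gain t0 t1 hY hX)
  rwa [mul_assoc (11 / 20 : ℝ)] at this

theorem gain_pos (h0 : 0 < x₀) (h5 : x₀ ≤ 1 / 5) (h1 : x₀ / 2 ≤ x) (h2 : x ≤ 1 / 4) :
    0 < gain x₀ x := by
  have hx : 0 < x := by linarith only [h0, h1]
  have h := WN_S h0 h5 h1 h2
  have hc : 0 < cpS x₀ x ^ 2 := by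
    unfold cpS
    positivity
  exact pos_of_mul_pos_right (hc.trans_le h) (by positivity)

theorem cpS_le (h0 : 0 < x₀) (h5 : x₀ ≤ 1 / 5) (h1 : x₀ / 2 ≤ x) (h2 : x ≤ 1 / 4) :
    cpS x₀ x ^ 2 ≤ 11 / 20 * (119 / 250 * x) * gain x₀ x := by
  exact WN_S h0 h5 h1 h2

theorem cpT_le (h0 : 0 < x₀) (h5 : x₀ ≤ 1 / 5) (h1 : x₀ / 2 ≤ x) (h2 : x ≤ 1 / 4) :
    cpT x₀ x ^ 2 ≤ 7 / 20 * (749 / 1000 * x) * gain x₀ x := by
  obtain ⟨t, Y, X, t0, t1, hY, hX, rfl, rfl, h⟩ := WN_scale h0 h5 h1 h2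
  have hb : cpT Y X ^ 2 ≤ 7 / 20 * (749 / 1000 * X) * gain Y X := by
    rcases h with ⟨rfl, h⟩ | ⟨rfl, h, h'⟩
    · exact WN_TA hY h
    · exact WN_TB h h'
  have ha : cpT (t * Y) (t * X) ^ 2 ≤ (t ^ 3 * cpT Y X) ^ 2 := by
    refine le_of_eq ?_
    unfold cpT
    ring
  have := WN_fin (X := X) (c := 7 / 20 * (749 / 1000)) t0 t1 (by positivity) ha
    (by rw [mul_assoc (7 / 20 : ℝ)]; exact hb) (WN_gain t0 t1 hY hX)
  rwa [mul_assoc (7 / 20 : ℝ)] at this

end Pool.Agent.Work.MP_267827_an.PS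
end
end
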