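import Pool.Agent.Work.MP_267827_an.Transfer
import Pool.Agent.Work.MP_267827_an.PS.Barta
import Pool.Agent.Work.MP_a6a438_an.Miranda
import Pool.Agent.Work.MP_267827_an.PS.WN

-- merged part: Pool.Agent.Work.MP_267827_an.PS.GTripod
section
-- merged part: Pool.Agent.Work.MP_267827_an.PS.GList
section
/-! Cross product, paths and loops: list lemmas (skeleton helper49).

Plan.  `cr`: unfold and `ring` (`simp [cr]` first for products with real scalars).
`Ed`: induction on lists (use `Ed.induct` or `List.twoStepInduction`-like pattern matching).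
Permutation invariance: `List.Perm.mem_iff`, `List.Perm.map`, `List.Perm.sum_eq`,
`List.Perm.nodup_iff`. -/

set_option autoImplicit false

namespace Pool.Agent.Work.MP_267827_an.PS

open MeasureTheory Set Filter Topology Real

/-! ### the cross product -/

theorem cr_self (a : ℂ) : cr a a = 0 := by unfold cr; ring

theorem cr_swap (a b : ℂ) : cr a b = -cr b a := by unfold cr; ring

theorem cr_add_left (a b c : ℂ) : cr (a + b) c = cr a c + cr b c := by simp [cr]; ring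

theorem cr_add_right (a b c : ℂ) : cr a (b + c) = cr a b + cr a c := by simp [cr]; ring

theorem cr_sub_left (a b c : ℂ) : cr (a - b) c = cr a c - cr b c := by simp [cr]; ring

theorem cr_sub_right (a b c : ℂ) : cr a (b - c) = cr a b - cr a c := by simp [cr]; ring

theorem cr_neg_left (a b : ℂ) : cr (-a) b = -cr a b := by simp [cr]; ring

theorem cr_neg_right (a b : ℂ) : cr a (-b) = -cr a b := by simp [cr]; ring

theorem cr_zero_left (a : ℂ) : cr 0 a = 0 := by simp [cr]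

theorem cr_zero_right (a : ℂ) : cr a 0 = 0 := by simp [cr]

theorem cr_mul_left (s : ℝ) (a b : ℂ) : cr (s * a) b = s * cr a b := by simp [cr]; ring

theorem cr_mul_right (s : ℝ) (a b : ℂ) : cr a (s * b) = s * cr a b := by simp [cr]; ring

theorem cr_smul_left (s : ℝ) (a b : ℂ) : cr (s • a) b = s * cr a b := by simp [cr]; ring

theorem cr_smul_right (s : ℝ) (a b : ℂ) : cr a (s • b) = s * cr a b := by simp [cr]; ring

theorem ei_re (x : ℝ) : (ei x).re = cos x := Complex.exp_ofReal_mul_I_re x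

theorem ei_im (x : ℝ) : (ei x).im = sin x := Complex.exp_ofReal_mul_I_im x

theorem norm_ei' (x : ℝ) : ‖ei x‖ = 1 := Complex.norm_exp_ofReal_mul_I x

theorem ei_add_pi (x : ℝ) : ei (x + π) = -ei x := by
  apply Complex.ext <;> simp only [ei_re, ei_im, Complex.neg_re, Complex.neg_im, Complex.conj_re,
    Complex.conj_im] <;> simp

theorem ei_sub_pi (x : ℝ) : ei (x - π) = -ei x := by
  apply Complex.ext <;> simp only [ei_re, ei_im, Complex.neg_re, Complex.neg_im, Complex.conj_re,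
    Complex.conj_im] <;> simp

theorem ei_conj (x : ℝ) : (starRingEnd ℂ) (ei x) = ei (-x) := by
  apply Complex.ext <;> simp only [ei_re, ei_im, Complex.neg_re, Complex.neg_im, Complex.conj_re,
    Complex.conj_im] <;> simp

theorem cr_ei (x y : ℝ) : cr (ei x) (ei y) = sin (y - x) := by
  rw [cr, ei_re, ei_im, ei_re, ei_im, sin_sub]; ring

theorem cr_conj (a b : ℂ) : cr ((starRingEnd ℂ) a) ((starRingEnd ℂ) b) = -cr a b := by
  simp [cr]; ring

theorem cr_rot (a b : ℂ) (x : ℝ) : cr (a * ei x) (b * ei x) = cr a b := by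
  simp only [cr, Complex.mul_re, Complex.mul_im, ei_re, ei_im]
  linear_combination (a.re * b.im - a.im * b.re) * sin_sq_add_cos_sq x

theorem div_im_cr (a b : ℂ) : (b / a).im = cr a b / Complex.normSq a := by
  rw [Complex.div_im, cr]; ring

@[fun_prop]
theorem continuous_cr {X : Type*} [TopologicalSpace X] {f g : X → ℂ} (hf : Continuous f)
    (hg : Continuous g) : Continuous fun x => cr (f x) (g x) := by
  unfold cr; fun_prop

/-- parallel vectors -/
theorem cr_eq_zero {a b : ℂ} (ha : a ≠ 0) (h : cr a b = 0) : ∃ r : ℝ, b = r * a := by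
  refine ⟨(b / a).re, ?_⟩
  have h1 : (b / a).im = 0 := by rw [div_im_cr, h, zero_div]
  rw [Complex.conj_eq_iff_re.1 (Complex.conj_eq_iff_im.2 h1), div_mul_cancel₀ _ ha]

/-- coordinates in a basis -/
theorem cr_coord (a b z : ℂ) : (cr a b : ℂ) * z = (cr z b : ℂ) * a + (cr a z : ℂ) * b := by
  apply Complex.ext <;> simp [cr] <;> ring

theorem mem_openSegment_iff' {p q z : ℂ} :
    z ∈ openSegment ℝ p q ↔ ∃ t : ℝ, 0 < t ∧ t < 1 ∧ z = p + t * (q - p) := by
  rw [openSegment_eq_image']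
  simp only [mem_image, mem_Ioo, Complex.real_smul, and_assoc, eq_comm]

theorem mem_segment_iff' {p q z : ℂ} :
    z ∈ segment ℝ p q ↔ ∃ t : ℝ, 0 ≤ t ∧ t ≤ 1 ∧ z = p + t * (q - p) := by
  rw [segment_eq_image']
  simp only [mem_image, mem_Icc, Complex.real_smul, and_assoc, eq_comm]

theorem seg_cases {p q z : ℂ} (h : z ∈ segment ℝ p q) :
    z = p ∨ z = q ∨ z ∈ openSegment ℝ p q := by
  rw [← insert_endpoints_openSegment] at h
  exact h

/-- membership in an open triangle by barycentric coordinates -/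
theorem mem_tri {a b c z : ℂ} (h : 0 < cr (b - a) (c - a)) :
    z ∈ Lft [(a, b), (b, c), (c, a)] ↔
      ∃ s t : ℝ, 0 < s ∧ 0 < t ∧ s + t < 1 ∧ z = a + s * (b - a) + t * (c - a) := by
  have key : ∀ s t : ℝ, z = a + s * (b - a) + t * (c - a) →
      cr (b - a) (z - a) = t * cr (b - a) (c - a) ∧
      cr (c - b) (z - b) = (1 - s - t) * cr (b - a) (c - a) ∧
      cr (a - c) (z - c) = s * cr (b - a) (c - a) := by
    rintro s t rfl
    refine ⟨?_, ?_, ?_⟩ <;> simp [cr] <;> ring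
  simp only [Lft, mem_ofPred_eq, List.mem_cons, List.not_mem_nil, or_false, forall_eq_or_imp,
    forall_eq]
  constructor
  · rintro ⟨h1, h2, h3⟩
    have hz : z = a + (cr (z - a) (c - a) / cr (b - a) (c - a) : ℝ) * (b - a) +
        (cr (b - a) (z - a) / cr (b - a) (c - a) : ℝ) * (c - a) := by
      have h4 : (cr (b - a) (c - a) : ℂ) ≠ 0 := Complex.ofReal_ne_zero.2 h.ne'
      have h5 := cr_coord (b - a) (c - a) (z - a)
      push_cast
      field_simp
      linear_combination h5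
    obtain ⟨k1, k2, k3⟩ := key _ _ hz
    rw [k1] at h1
    rw [k2] at h2
    rw [k3] at h3
    exact ⟨_, _, (mul_pos_iff_of_pos_right h).1 h3, (mul_pos_iff_of_pos_right h).1 h1,
      by linarith only [h, h2, (mul_pos_iff_of_pos_right h).1 h2], hz⟩
  · rintro ⟨s, t, h1, h2, h3, hz⟩
    obtain ⟨k1, k2, k3⟩ := key s t hz
    rw [k1, k2, k3]
    exact ⟨mul_pos h2 h, mul_pos (by linarith) h, mul_pos h1 h⟩

theorem convex_Lft (es : List (ℂ × ℂ)) : Convex ℝ (Lft es) := by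
  intro x hx y hy s t hs ht hst e he
  have h1 := hx e he
  have h2 := hy e he
  have h3 : s • x + t • y - e.1 = s • (x - e.1) + t • (y - e.1) := by
    rw [smul_sub, smul_sub, ← add_sub_add_comm, ← add_smul, hst, one_smul]
  rw [h3, cr_add_right, cr_smul_right, cr_smul_right]
  rcases hs.eq_or_lt with rfl | hs'
  · rw [zero_add] at hst
    rw [hst]
    linarith
  · exact add_pos_of_pos_of_nonneg (mul_pos hs' h1) (mul_nonneg ht h2.le)

theorem isOpen_Lft (es : List (ℂ × ℂ)) : IsOpen (Lft es) := by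
  have h : Lft es = ⋂ e ∈ {e | e ∈ es}, {z | 0 < cr (e.2 - e.1) (z - e.1)} := by
    ext z
    simp [Lft]
  rw [h]
  exact es.finite_toSet.isOpen_biInter fun e _ => isOpen_lt continuous_const (by fun_prop)

theorem Lft_disjoint (es : List (ℂ × ℂ)) : Disjoint (Lft es) (GC es) := by
  refine Set.disjoint_left.2 fun z hz ⟨e, he, h⟩ => ?_
  obtain ⟨t, -, -, rfl⟩ := mem_segment_iff'.1 h
  have h1 := hz e he
  rw [add_sub_cancel_left, cr_mul_right, cr_self, mul_zero] at h1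
  exact lt_irrefl _ h1

/-! ### paths -/

@[simp] theorem Ed_nil : Ed [] = [] := rfl

@[simp] theorem Ed_one (a : ℂ) : Ed [a] = [] := rfl

@[simp] theorem Ed_cons (a b : ℂ) (l : List ℂ) : Ed (a :: b :: l) = (a, b) :: Ed (b :: l) := rfl

theorem GList_ind {p : List ℂ → Prop} (nil : p []) (one : ∀ a, p [a])
    (cons : ∀ a b l, p (b :: l) → p (a :: b :: l)) : ∀ l, p l
  | [] => nil
  | [a] => one a
  | a :: b :: l => cons a b l (GList_ind nil one cons (b :: l))

theorem GList_map (f : ℂ → ℂ) (l : List ℂ) : Ed (l.map f) = (Ed l).map (Prod.map f f) := by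
  induction l using GList_ind with
  | nil => rfl
  | one => rfl
  | cons a b l ih => exact congrArg (List.cons _) ih

theorem Ed_append (l : List ℂ) (a : ℂ) (l' : List ℂ) :
    Ed (l ++ a :: l') = Ed (l ++ [a]) ++ Ed (a :: l') := by
  induction l using GList_ind with
  | nil => rfl
  | one => rfl
  | cons b c l ih => exact congrArg (List.cons (b, c)) ih

theorem Ed_append₂ (l : List ℂ) (a b : ℂ) (l' : List ℂ) :
    Ed (l ++ a :: b :: l') = Ed (l ++ [a]) ++ (a, b) :: Ed (b :: l') := by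
  rw [Ed_append, Ed_cons]

theorem Ed_length (l : List ℂ) : (Ed l).length = l.length - 1 := by
  induction l using GList_ind with
  | nil => rfl
  | one => rfl
  | cons a b l ih => simp [ih]

theorem Ed_fst (l : List ℂ) : (Ed l).map Prod.fst = l.dropLast := by
  induction l using GList_ind with
  | nil => rfl
  | one => rfl
  | cons a b l ih => simp [ih]

theorem Ed_snd (l : List ℂ) : (Ed l).map Prod.snd = l.tail := by
  induction l using GList_ind with
  | nil => rfl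
  | one => rfl
  | cons a b l ih => simp [ih]

theorem Ed_reverse (l : List ℂ) : Ed l.reverse = ((Ed l).map Prod.swap).reverse := by
  induction l using GList_ind with
  | nil => rfl
  | one => rfl
  | cons a b l ih =>
    rw [List.reverse_cons, List.reverse_cons, List.append_assoc, List.singleton_append,
      Ed_append, ← List.reverse_cons, ih]
    simp

theorem Ed_mir (l : List ℂ) : Ed (mirL l) = ((Ed l).map mirE).reverse := by
  rw [mirL, Ed_reverse, GList_map, List.map_map]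
  rfl

theorem mirL_mirL (l : List ℂ) : mirL (mirL l) = l := by
  simp [mirL, List.map_reverse, Function.comp_def]

theorem mirE_mirE (e : ℂ × ℂ) : mirE (mirE e) = e := by
  simp [mirE]

theorem mem_Ed {p q : ℂ} {l : List ℂ} : (p, q) ∈ Ed l ↔ ∃ l₁ l₂, l = l₁ ++ p :: q :: l₂ := by
  constructor
  · induction l using GList_ind with
    | nil => simp
    | one => simp
    | cons a b l ih =>
      intro h
      rcases List.mem_cons.1 h with h | h
      · obtain ⟨rfl, rfl⟩ := Prod.mk.inj h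
        exact ⟨[], l, rfl⟩
      · obtain ⟨l₁, l₂, e⟩ := ih h
        exact ⟨a :: l₁, l₂, by rw [e]; rfl⟩
  · rintro ⟨l₁, l₂, rfl⟩
    simp [Ed_append₂]

theorem two_le_iff {l : List ℂ} : 2 ≤ l.length ↔ ∃ a k b, l = a :: k ++ [b] := by
  constructor
  · intro h
    rcases l with _ | ⟨a, l⟩
    · simp at h
    · rcases l.eq_nil_or_concat' with rfl | ⟨k, b, rfl⟩
      · simp at h
      · exact ⟨a, k, b, rfl⟩
  · rintro ⟨a, k, b, rfl⟩
    simp

/-- the vertices of a path with at least one edge lie on the curve -/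
theorem mem_GC_Ed {l : List ℂ} (h : 2 ≤ l.length) {x : ℂ} (hx : x ∈ l) : x ∈ GC (Ed l) := by
  rcases l with _ | ⟨a, _ | ⟨b, l⟩⟩
  · simp at h
  · simp at h
  · rcases List.mem_cons.1 hx with rfl | hx
    · exact ⟨(x, b), by simp, left_mem_segment _ _ _⟩
    · have h1 : x ∈ (Ed (a :: b :: l)).map Prod.snd := by rwa [Ed_snd]
      obtain ⟨e, he, rfl⟩ := List.mem_map.1 h1
      exact ⟨e, he, right_mem_segment _ _ _⟩

/-! ### invariance and additivity -/

theorem GC_perm {es es' : List (ℂ × ℂ)} (h : es.Perm es') : GC es = GC es' := by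
  simp only [GC, h.mem_iff]

theorem wn_perm {es es' : List (ℂ × ℂ)} (h : es.Perm es') : wn es = wn es' := by
  funext z
  rw [wn, wn, (h.map _).sum_eq]

theorem IL_perm {es es' : List (ℂ × ℂ)} (h : es.Perm es') : IL es = IL es' := by
  rw [IL, IL, GC_perm h, wn_perm h]

theorem sh_perm {es es' : List (ℂ × ℂ)} (h : es.Perm es') : sh es = sh es' := by
  rw [sh, sh, (h.map _).sum_eq]

theorem Lft_perm {es es' : List (ℂ × ℂ)} (h : es.Perm es') : Lft es = Lft es' := by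
  simp only [Lft, h.mem_iff]

theorem Loop.perm {es es' : List (ℂ × ℂ)} (h : Loop es) (hp : es.Perm es') : Loop es' := by
  obtain ⟨a, l, k⟩ := h
  exact ⟨a, l, hp.symm.trans k⟩

theorem Simp.perm {es es' : List (ℂ × ℂ)} (h : Simp es) (hp : es.Perm es') : Simp es' := by
  exact ⟨(hp.map _).nodup_iff.1 h.nodup,
    fun e he f hf => h.vert e (hp.mem_iff.2 he) f (hp.mem_iff.2 hf),
    fun e he f hf => h.disj e (hp.mem_iff.2 he) f (hp.mem_iff.2 hf)⟩

theorem SP.perm {es es' : List (ℂ × ℂ)} (h : SP es) (hp : es.Perm es') : SP es' := by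
  refine ⟨h.loop.perm hp, h.simp.perm hp, ?_⟩
  rw [← GC_perm hp, ← wn_perm hp]
  exact h.pos

theorem Free.perm {es es' : List (ℂ × ℂ)} {p q : ℂ} (h : Free es p q) (hp : es.Perm es') :
    Free es' p q := by
  rwa [Free, ← IL_perm hp]

theorem Free.symm {es : List (ℂ × ℂ)} {p q : ℂ} (h : Free es p q) : Free es q p := by
  rwa [Free, openSegment_symm]

theorem Free.mono {es es' : List (ℂ × ℂ)} {p q : ℂ} (h : Free es p q) (hs : IL es ⊆ IL es') :
    Free es' p q := fun _ hz => hs (h hz)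

theorem GC_nil : GC [] = ∅ := by
  simp [GC]

theorem GC_cons (e : ℂ × ℂ) (es : List (ℂ × ℂ)) : GC (e :: es) = segment ℝ e.1 e.2 ∪ GC es := by
  ext z
  simp only [GC, mem_ofPred_eq, List.mem_cons, exists_eq_or_imp, mem_union]

theorem GC_append (es es' : List (ℂ × ℂ)) : GC (es ++ es') = GC es ∪ GC es' := by
  ext z
  simp only [GC, mem_ofPred_eq, List.mem_append, mem_union, or_and_right, exists_or]

theorem GC_swap (es : List (ℂ × ℂ)) : GC (es.map Prod.swap) = GC es := by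
  induction es with
  | nil => rfl
  | cons e es ih => rw [List.map_cons, GC_cons, GC_cons, ih, segment_symm]; rfl

theorem GC_mir (es : List (ℂ × ℂ)) : GC (es.map mirE) = (starRingEnd ℂ) '' GC es := by
  induction es with
  | nil => simp [GC_nil]
  | cons e es ih =>
    rw [List.map_cons, GC_cons, GC_cons, ih, image_union, segment_symm]
    exact congrArg (· ∪ _) (image_segment ℝ Complex.conjAe.toLinearMap.toAffineMap e.1 e.2).symm

theorem Lft_mir (es : List (ℂ × ℂ)) : Lft (es.map mirE) = (starRingEnd ℂ) '' Lft es := by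
  have h : ∀ (e : ℂ × ℂ) (z : ℂ), cr ((mirE e).2 - (mirE e).1) ((starRingEnd ℂ) z - (mirE e).1) =
      cr (e.2 - e.1) (z - e.1) := fun e z => by
    simp [mirE, cr]
    ring
  ext z
  obtain ⟨z, rfl⟩ : ∃ y, (starRingEnd ℂ) y = z := ⟨_, Complex.conj_conj z⟩
  rw [(RingHom.injective _).mem_set_image]
  simp only [Lft, mem_ofPred_eq, List.forall_mem_map, h]

theorem wn_append (es es' : List (ℂ × ℂ)) (z : ℂ) : wn (es ++ es') z = wn es z + wn es' z := by
  rw [wn, wn, wn, List.map_append, List.sum_append, add_div]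

theorem sh_nil : sh [] = 0 := by
  simp [sh]

theorem sh_cons (e : ℂ × ℂ) (es : List (ℂ × ℂ)) : sh (e :: es) = cr e.1 e.2 / 2 + sh es := by
  rw [sh, sh, List.map_cons, List.sum_cons, add_div]

theorem sh_append (es es' : List (ℂ × ℂ)) : sh (es ++ es') = sh es + sh es' := by
  rw [sh, sh, sh, List.map_append, List.sum_append, add_div]

theorem sh_swap (es : List (ℂ × ℂ)) : sh (es.map Prod.swap) = -sh es := by
  induction es with
  | nil => simp [sh_nil]
  | cons e es ih =>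
    rw [List.map_cons, sh_cons, sh_cons, ih, cr_swap e.1, Prod.fst_swap, Prod.snd_swap]
    ring

theorem sh_mir (es : List (ℂ × ℂ)) : sh (es.map mirE) = sh es := by
  induction es with
  | nil => rfl
  | cons e es ih => rw [List.map_cons, sh_cons, sh_cons, ih, mirE, cr_conj, ← cr_swap]

theorem isCompact_GC (es : List (ℂ × ℂ)) : IsCompact (GC es) := by
  induction es with
  | nil => rw [GC_nil]; exact isCompact_empty
  | cons e es ih =>
    rw [GC_cons, segment_eq_image']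
    exact (isCompact_Icc.image (by fun_prop)).union ih

theorem fst_mem_GC {es : List (ℂ × ℂ)} {e : ℂ × ℂ} (he : e ∈ es) : e.1 ∈ GC es :=
  ⟨e, he, left_mem_segment _ _ _⟩

theorem snd_mem_GC {es : List (ℂ × ℂ)} {e : ℂ × ℂ} (he : e ∈ es) : e.2 ∈ GC es :=
  ⟨e, he, right_mem_segment _ _ _⟩

end Pool.Agent.Work.MP_267827_an.PS
end

-- merged part: Pool.Agent.Work.MP_267827_an.Reg
section
/-! Triangles and the regular polygon. -/

set_option autoImplicit false

namespace Pool.Agent.Work.MP_267827_an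

open MeasureTheory Set Filter Topology Metric Real

theorem Reg_re (ρ t a : ℝ) : ((ρ : ℂ) * ei t * ei (-a)).re = ρ * cos (t - a) := by
  rw [mul_assoc, ← ei_add, Complex.re_ofReal_mul, ei_re, sub_eq_add_neg]

theorem Reg_im (ρ t a : ℝ) : ((ρ : ℂ) * ei t * ei (-a)).im = ρ * sin (t - a) := by
  rw [mul_assoc, ← ei_add, Complex.im_ofReal_mul, ei_im, sub_eq_add_neg]

theorem Reg_im0 (ρ t : ℝ) : ((ρ : ℂ) * ei t).im = ρ * sin t := by
  rw [Complex.im_ofReal_mul, ei_im]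

theorem Reg_arg (z : ℂ) : z = (‖z‖ : ℂ) * ei z.arg := (Complex.norm_mul_exp_arg_mul_I z).symm

theorem Reg_exp (p : ℝ × ℝ) : Complex.exp (pt 1 1 p) = (exp p.1 : ℝ) * ei p.2 := by
  simp [pt, ei, Complex.exp_add]

/-- polar form of a point in an open sector -/
theorem Reg_sector {θ : ℝ} (hθ : 0 < θ) {z : ℂ} (h1 : 0 < z.im) (h2 : (z * ei (-θ)).im < 0) :
    ∃ ρ t : ℝ, 0 < ρ ∧ t ∈ Ioo 0 θ ∧ z = ρ * ei t := by
  have h0 : 0 < ‖z‖ := norm_pos_iff.2 fun c => by simp [c] at h1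
  refine ⟨‖z‖, z.arg, h0, ⟨?_, ?_⟩, Reg_arg z⟩
  · refine lt_of_le_of_ne (Complex.arg_nonneg_iff.2 h1.le) fun c => ?_
    exact h1.ne' (Complex.arg_eq_zero_iff.1 c.symm).2
  · by_contra c
    rw [Reg_arg z, Reg_im] at h2
    have := sin_nonneg_of_nonneg_of_le_pi (x := z.arg - θ) (by linarith)
      (by linarith [Complex.arg_le_pi z])
    linarith only [h2, h0, this, mul_nonneg_of_nonpos_of_nonpos (le_of_lt (Mathlib.Tactic.Linarith.sub_neg_of_lt h0)) (Mathlib.Tactic.Linarith.sub_nonpos_of_le this)]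

theorem tri_polar {θ γ h : ℝ} (hθ : 0 < θ) (hθ' : θ < π) (hh : 0 < h)
    (hγ : ∀ x ∈ Ioo 0 θ, |x - γ| < π / 2) :
    Tri θ γ h = (fun p : ℝ × ℝ => Complex.exp (pt 1 1 p)) ''
      {p | p.2 ∈ Ioo 0 θ ∧ p.1 < log (h / cos (p.2 - γ))} := by
  have hc : ∀ x ∈ Ioo 0 θ, 0 < cos (x - γ) := fun x hx => cos_pos_of_mem_Ioo (abs_lt.1 (hγ x hx))
  ext z
  constructor
  · rintro ⟨h1, h2, h3⟩
    obtain ⟨ρ, t, h0, ht, rfl⟩ := Reg_sector hθ h1 h2
    rw [Reg_re] at h3
    refine ⟨(log ρ, t), ⟨ht, log_lt_log h0 ((lt_div_iff₀ (hc t ht)).2 h3)⟩, ?_⟩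
    simp only [Reg_exp, exp_log h0]
  · rintro ⟨⟨s, t⟩, ⟨ht, hs⟩, rfl⟩
    simp only [Reg_exp, Tri, mem_ofPred_eq, Reg_re, Reg_im, Reg_im0]
    refine ⟨mul_pos (exp_pos s) (sin_pos_of_pos_of_lt_pi ht.1 (ht.2.trans hθ')),
      mul_neg_of_pos_of_neg (exp_pos s) (sin_neg_of_neg_of_neg_pi_lt (by linarith only [ht, ht.2])
        (by linarith only [hθ', ht, ht.1])), ?_⟩
    rw [← lt_div_iff₀ (hc t ht), ← lt_log_iff_exp_lt (div_pos hh (hc t ht))]
    exact hs

theorem Reg_mp : MeasurePreserving (fun z : ℂ => (z.im, z.re)) volume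
    ((volume : Measure ℝ).prod (volume : Measure ℝ)) :=
  Measure.measurePreserving_swap.comp Complex.volume_preserving_equiv_real_prod

theorem tri_vol {θ γ h : ℝ} (hθ : 0 < θ) (hh : 0 < h) (h1 : |γ| < π / 2) (h2 : |θ - γ| < π / 2) :
    volume (Tri θ γ h) = ENNReal.ofReal (h ^ 2 * (tan γ + tan (θ - γ)) / 2) := by
  have c1 : 0 < cos γ := cos_pos_of_mem_Ioo (abs_lt.1 h1)
  have c2 : 0 < cos (θ - γ) := cos_pos_of_mem_Ioo (abs_lt.1 h2)
  have s1 : 0 < sin θ := sin_pos_of_pos_of_lt_pi hθ (by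
    linarith only [h1, h2, (abs_lt.1 h1).2, (abs_lt.1 h2).2])
  set Y := h * sin θ / cos (θ - γ) with hY
  have hY0 : 0 < Y := by positivity
  have key : ∀ y : ℝ, (h - y * sin γ) / cos γ - y * cos θ / sin θ =
      cos (θ - γ) / (cos γ * sin θ) * (Y - y) := by
    intro y
    rw [hY]
    field_simp
    rw [cos_sub]
    ring
  have hB : 0 < cos (θ - γ) / (cos γ * sin θ) := by positivity
  have e : Tri θ γ h = (fun z : ℂ => (z.im, z.re)) ⁻¹' regionBetween
      (fun y => y * cos θ / sin θ) (fun y => (h - y * sin γ) / cos γ) (Ioo 0 Y) := by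
    ext z
    simp only [Tri, mem_ofPred_eq, Complex.mul_im, Complex.mul_re, ei_re, ei_im, cos_neg, sin_neg,
      mem_preimage, regionBetween, mem_Ioo]
    constructor
    · rintro ⟨a, b, c⟩
      have d1 : z.im * cos θ / sin θ < z.re := by rw [div_lt_iff₀ s1]; linarith only [b]
      have d2 : z.re < (h - z.im * sin γ) / cos γ := by rw [lt_div_iff₀ c1]; linarith only [c]
      refine ⟨⟨a, ?_⟩, d1, d2⟩
      have := key z.im
      by_contra d
      linarith only [d1, d2, this, hB, d, mul_nonneg hB.le (sub_nonneg.2 (not_lt.1 d))]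
    · rintro ⟨⟨a, -⟩, d1, d2⟩
      rw [div_lt_iff₀ s1] at d1
      rw [lt_div_iff₀ c1] at d2
      exact ⟨a, by linarith only [d1], by linarith only [d2]⟩
  have i1 : ∀ f : ℝ → ℝ, Continuous f → IntegrableOn f (Ioo 0 Y) := fun f hf =>
    hf.integrableOn_Icc.mono_set Ioo_subset_Icc_self
  rw [e, Reg_mp.measure_preimage (measurableSet_regionBetween (by fun_prop) (by fun_prop)
    measurableSet_Ioo).nullMeasurableSet, volume_regionBetween_eq_integral (i1 _ (by fun_prop))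
      (i1 _ (by fun_prop)) measurableSet_Ioo fun y hy => by
        have := key y
        linarith only [this, hB, hy, mul_nonneg hB.le (sub_nonneg.2 hy.2.le)]]
  congr 1
  simp only [Pi.sub_apply, key]
  rw [← integral_Ioc_eq_integral_Ioo, ← intervalIntegral.integral_of_le hY0.le,
    intervalIntegral.integral_const_mul, intervalIntegral.integral_sub (by simp) (by simp),
    integral_id, intervalIntegral.integral_const, tan_eq_sin_div_cos, tan_eq_sin_div_cos, hY]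
  have : sin θ = sin γ * cos (θ - γ) + cos γ * sin (θ - γ) := by rw [← sin_add]; congr 1; ring
  simp only [smul_eq_mul]
  field_simp
  rw [this]
  ring

/-- the linear form of the `j`-th side -/
noncomputable def RegL (n j : ℕ) (w : ℂ) : ℝ := (w * ei (-((2 * j + 1) * (π / n)))).re

theorem Reg_cos {a x : ℝ} (ha : 0 ≤ a) (h1 : a ≤ |x|) (h2 : |x| ≤ 2 * π - a) : cos x ≤ cos a := by
  rw [← cos_abs x]
  rcases le_total |x| π with c | c
  · exact cos_le_cos_of_nonneg_of_le_pi ha c h1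
  · rw [← cos_two_pi_sub]
    exact cos_le_cos_of_nonneg_of_le_pi ha (by linarith) (by linarith)

theorem Reg_self (n k : ℕ) (ρ t : ℝ) :
    RegL n k (ρ * ei (2 * π * k / n + t)) = ρ * cos (t - π / n) := by
  rw [RegL, Reg_re]; congr 2; ring

theorem Reg_other {n j k : ℕ} (hj : j < n) (hk : k < n) (hjk : j ≠ k) {ρ t : ℝ} (hρ : 0 ≤ ρ)
    (ht : t ∈ Icc 0 (2 * π / n)) : RegL n j (ρ * ei (2 * π * k / n + t)) ≤ ρ * cos (π / n) := by
  have hn : (0 : ℝ) < n := by exact_mod_cast (by omega : 0 < n)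
  have ha : 0 < π / n := by positivity
  have e : π = n * (π / n) := by field_simp
  have e1 : 2 * π * k / n = 2 * k * (π / n) := by ring
  have e2 : 2 * π / n = 2 * (π / n) := by ring
  obtain ⟨t0, t1⟩ := ht
  rw [RegL, Reg_re, e1]
  rw [e2] at t1
  generalize π / n = a at *
  have j1 : (j : ℝ) + 1 ≤ n := by exact_mod_cast hj
  have k1 : (k : ℝ) + 1 ≤ n := by exact_mod_cast hk
  have j0 : (0 : ℝ) ≤ j := Nat.cast_nonneg j
  have k0 : (0 : ℝ) ≤ k := Nat.cast_nonneg k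
  refine mul_le_mul_of_nonneg_left (Reg_cos ha.le ?_ (abs_le.2 ⟨by linarith only [t0, e, ha, j1, mul_nonneg_of_nonpos_of_nonpos (Mathlib.Tactic.Linarith.sub_nonpos_of_le (Mathlib.Tactic.Linarith.natCast_nonneg ℝ k)) (le_of_lt (Mathlib.Tactic.Linarith.sub_neg_of_lt ha)), mul_nonneg_of_nonpos_of_nonpos (le_of_lt (Mathlib.Tactic.Linarith.sub_neg_of_lt ha)) (Mathlib.Tactic.Linarith.sub_nonpos_of_le j1)], by linarith only [e, t1, ha, k1, mul_nonneg_of_nonpos_of_nonpos (Mathlib.Tactic.Linarith.sub_nonpos_of_le (Mathlib.Tactic.Linarith.natCast_nonneg ℝ j)) (le_of_lt (Mathlib.Tactic.Linarith.sub_neg_of_lt ha)), mul_nonneg_of_nonpos_of_nonpos (le_of_lt (Mathlib.Tactic.Linarith.sub_neg_of_lt ha)) (Mathlib.Tactic.Linarith.sub_nonpos_of_le k1)]⟩)) hρ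
  rcases lt_or_gt_of_ne hjk with c | c
  · have : (j : ℝ) + 1 ≤ k := by exact_mod_cast c
    exact le_abs.2 (Or.inl (by linarith only [t0, ha, this, mul_nonneg_of_nonpos_of_nonpos (le_of_lt (Mathlib.Tactic.Linarith.sub_neg_of_lt ha)) (Mathlib.Tactic.Linarith.sub_nonpos_of_le this)]))
  · have : (k : ℝ) + 1 ≤ j := by exact_mod_cast c
    exact le_abs.2 (Or.inr (by linarith only [t1, ha, this, mul_nonneg_of_nonpos_of_nonpos (le_of_lt (Mathlib.Tactic.Linarith.sub_neg_of_lt ha)) (Mathlib.Tactic.Linarith.sub_nonpos_of_le this)]))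

theorem Reg_le {n : ℕ} (hn : 5 ≤ n) {t : ℝ} (ht : t ∈ Icc 0 (2 * π / n)) :
    cos (π / n) ≤ cos (t - π / n) := by
  have hn' : (5 : ℝ) ≤ n := by exact_mod_cast hn
  have e2 : 2 * π / n = 2 * (π / n) := by ring
  rw [← cos_abs (t - _)]
  exact cos_le_cos_of_nonneg_of_le_pi (abs_nonneg _) (div_le_self pi_pos.le (by linarith only [hn']))
    (abs_le.2 ⟨by linarith only [ht, ht.1], by linarith only [e2, ht, ht.2]⟩)

theorem Reg_max {n j k : ℕ} (hn : 5 ≤ n) (hj : j < n) (hk : k < n) {ρ t : ℝ} (hρ : 0 ≤ ρ)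
    (ht : t ∈ Icc 0 (2 * π / n)) :
    RegL n j (ρ * ei (2 * π * k / n + t)) ≤ ρ * cos (t - π / n) := by
  rcases eq_or_ne j k with rfl | c
  · exact (Reg_self _ _ _ _).le
  · exact (Reg_other hj hk c hρ ht).trans (mul_le_mul_of_nonneg_left (Reg_le hn ht) hρ)

theorem Reg_mod {n : ℕ} (hn : 0 < n) (k : ℕ) :
    ei (2 * π * k / n) = ei (2 * π * (k % n : ℕ) / n) := by
  have hn' : (n : ℝ) ≠ 0 := by exact_mod_cast hn.ne'
  have e : (k : ℝ) = n * (k / n : ℕ) + (k % n : ℕ) := by exact_mod_cast (Nat.div_add_mod k n).symm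
  have h : ∀ m : ℕ, ei (2 * π * m) = 1 := by
    intro m
    induction m with
    | zero => simp
    | succ m ih => rw [Nat.cast_succ, mul_add, ei_add, ih, one_mul, mul_one, ei_two_pi]
  rw [← one_mul (ei (2 * π * (k % n : ℕ) / n)), ← h (k / n), ← ei_add]
  congr 1
  rw [e]
  field_simp

theorem Reg_dec {n : ℕ} (hn : 0 < n) (w : ℂ) :
    ∃ k < n, ∃ t ∈ Ico 0 (2 * π / n), w = (‖w‖ : ℂ) * ei (2 * π * k / n + t) := by
  have hn' : (0 : ℝ) < n := by exact_mod_cast hn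
  obtain ⟨a, ⟨a0, a1⟩, ha⟩ : ∃ a ∈ Ico 0 (2 * π), w = (‖w‖ : ℂ) * ei a := by
    rcases le_or_gt 0 w.arg with c | c
    · exact ⟨_, ⟨c, by linarith only [Complex.arg_le_pi w, pi_pos]⟩, Reg_arg w⟩
    · refine ⟨w.arg + 2 * π, ⟨by linarith only [c, Complex.neg_pi_lt_arg w, pi_pos], by linarith only [c]⟩, ?_⟩
      rw [ei_add, ei_two_pi, mul_one]
      exact Reg_arg w
  have hp : 0 < 2 * π / n := by positivity
  have h0 : 0 ≤ a / (2 * π / n) := by positivity
  have h1 := Nat.floor_le h0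
  have h2 := Nat.lt_floor_add_one (a / (2 * π / n))
  rw [le_div_iff₀ hp] at h1
  rw [div_lt_iff₀ hp] at h2
  have e : ∀ x : ℝ, 2 * π * x / n = x * (2 * π / n) := fun x => by ring
  refine ⟨⌊a / (2 * π / n)⌋₊, ?_, a - 2 * π * ⌊a / (2 * π / n)⌋₊ / n,
    ⟨by rw [e]; linarith only [h1], by rw [e]; linarith only [h2]⟩, by rwa [add_sub_cancel]⟩
  rw [Nat.floor_lt h0, div_lt_iff₀ hp]
  rwa [mul_div_cancel₀ _ hn'.ne']

theorem Reg_edge {n : ℕ} (r : ℝ) (i : Fin n) : edge (reg n r) i =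
    segment ℝ ((r : ℂ) * ei (2 * π * i / n + 0)) (r * ei (2 * π * i / n + 2 * π / n)) := by
  have h : ((finRotate n i : Fin n) : ℕ) = (i + 1) % n := by
    obtain ⟨m, rfl⟩ : ∃ m, n = m + 1 := ⟨n - 1, by have := i.pos; omega⟩
    rw [finRotate_apply, Fin.val_add]
    simp
  rw [edge, reg, reg, h, ← Reg_mod i.pos, add_zero]
  congr 3
  push_cast
  ring

theorem Reg_lin (n j : ℕ) (a b : ℝ) (x y : ℂ) :
    RegL n j (a • x + b • y) = a * RegL n j x + b * RegL n j y := by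
  simp only [RegL, add_mul, Complex.real_smul, mul_assoc, Complex.add_re, Complex.re_ofReal_mul]

theorem Reg_gam {n : ℕ} (hn : 5 ≤ n) {r : ℝ} (hr : 0 < r) {w : ℂ} (hw : w ∈ Gam (reg n r)) :
    (∀ j < n, RegL n j w ≤ r * cos (π / n)) ∧ ∃ j < n, RegL n j w = r * cos (π / n) := by
  obtain ⟨i, hi⟩ := mem_iUnion.1 hw
  rw [Reg_edge] at hi
  obtain ⟨a, b, ha, hb, hab, rfl⟩ := hi
  have hp : 0 ≤ 2 * π / n := by positivity
  have e1 : cos (0 - π / n) = cos (π / n) := by rw [zero_sub, cos_neg]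
  have e2 : cos (2 * π / n - π / n) = cos (π / n) := by congr 1; ring
  refine ⟨fun j hj => ?_, i, i.2, ?_⟩
  · have h1 := Reg_max hn hj i.2 hr.le (t := 0) ⟨le_rfl, hp⟩
    have h2 := Reg_max hn hj i.2 hr.le (t := 2 * π / n) ⟨hp, le_rfl⟩
    rw [e1] at h1
    rw [e2] at h2
    rw [Reg_lin, ← one_mul (r * cos _), ← hab, add_mul]
    gcongr
  · rw [Reg_lin, Reg_self, Reg_self, e1, e2, ← add_mul, hab, one_mul]

theorem Reg_ang {n : ℕ} (hn : 5 ≤ n) : 0 < π / n ∧ π / n < π / 2 := by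
  have hn' : (5 : ℝ) ≤ n := by exact_mod_cast hn
  exact ⟨by positivity, div_lt_div_of_pos_left pi_pos two_pos (by linarith only [hn'])⟩

theorem Reg_on {n : ℕ} (hn : 5 ≤ n) {r : ℝ} (hr : 0 < r) {k : ℕ} (hk : k < n) {ρ t : ℝ}
    (hρ : 0 ≤ ρ) (ht : t ∈ Icc 0 (2 * π / n)) (h : ρ * cos (t - π / n) = r * cos (π / n)) :
    (ρ : ℂ) * ei (2 * π * k / n + t) ∈ Gam (reg n r) := by
  refine edge_subset_Gam _ ⟨k, hk⟩ ?_
  rw [Reg_edge]
  obtain ⟨a0, a1⟩ := Reg_ang hn
  have e2 : 2 * π / n = 2 * (π / n) := by ring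
  obtain ⟨t0, t1⟩ := ht
  rw [e2] at t1 ⊢
  generalize π / n = a at *
  have c : 0 < cos a := cos_pos_of_mem_Ioo ⟨by linarith only [a0, a1], a1⟩
  have s : 0 < sin a := sin_pos_of_pos_of_lt_pi a0 (by linarith only [a0, a1])
  have s1 := sin_nonneg_of_nonneg_of_le_pi (x := a + (t - a)) (by linarith only [t0]) (by linarith only [a1, t1])
  have s2 := sin_nonneg_of_nonneg_of_le_pi (x := a - (t - a)) (by linarith only [t1]) (by linarith only [t0, a1])
  rw [sin_add] at s1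
  rw [sin_sub] at s2
  have d : 0 < r * sin a := mul_pos hr s
  have b1 : -(r * sin a) ≤ ρ * sin (t - a) := le_of_mul_le_mul_right (by linarith only [hρ, s1, h, s, mul_nonneg_of_nonpos_of_nonpos (Mathlib.Tactic.Linarith.sub_nonpos_of_le hρ) (Mathlib.Tactic.Linarith.sub_nonpos_of_le s1), Mathlib.Tactic.Linarith.zero_mul_eq (sub_eq_zero_of_eq h) (Mathlib.Tactic.Linarith.sub_neg_of_lt s)]) c
  have b2 : ρ * sin (t - a) ≤ r * sin a := le_of_mul_le_mul_right (by linarith only [hρ, s2, h, s, mul_nonneg_of_nonpos_of_nonpos (Mathlib.Tactic.Linarith.sub_nonpos_of_le hρ) (Mathlib.Tactic.Linarith.sub_nonpos_of_le s2), Mathlib.Tactic.Linarith.zero_mul_eq (sub_eq_zero_of_eq h) (Mathlib.Tactic.Linarith.sub_neg_of_lt s)]) c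
  refine ⟨(r * sin a - ρ * sin (t - a)) / (2 * (r * sin a)),
    (r * sin a + ρ * sin (t - a)) / (2 * (r * sin a)), div_nonneg (by linarith only [b2]) (by linarith only [d]),
    div_nonneg (by linarith only [b1]) (by linarith only [d]), by field_simp; ring, ?_⟩
  refine mul_right_cancel₀ (ei_ne_zero (-(2 * π * k / n + a))) ?_
  have f1 : 2 * π * k / n + 0 - (2 * π * k / n + a) = -a := by ring
  have f2 : 2 * π * k / n + 2 * a - (2 * π * k / n + a) = a := by ring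
  have f3 : 2 * π * k / n + t - (2 * π * k / n + a) = t - a := by ring
  rw [add_mul, smul_mul_assoc, smul_mul_assoc]
  refine Complex.ext ?_ ?_
  · simp only [Complex.add_re, Complex.smul_re, Reg_re, f1, f2, f3, cos_neg, h, smul_eq_mul]
    field_simp
    ring
  · simp only [Complex.add_im, Complex.smul_im, Reg_im, f1, f2, f3, sin_neg, smul_eq_mul]
    field_simp
    ring

theorem Reg_ins {n : ℕ} (hn : 5 ≤ n) {r : ℝ} (hr : 0 < r) :
    Ins (Gam (reg n r)) = {w | ∀ j < n, RegL n j w < r * cos (π / n)} := by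
  obtain ⟨a0, a1⟩ := Reg_ang hn
  have c : 0 < cos (π / n) := cos_pos_of_mem_Ioo ⟨by linarith only [a0, a1], a1⟩
  have hc : ∀ j, Continuous (RegL n j) := fun j => by unfold RegL; fun_prop
  have hcov : ∀ w ∉ Gam (reg n r), (∀ j < n, RegL n j w < r * cos (π / n)) ∨
      ∃ j < n, r * cos (π / n) < RegL n j w := by
    intro w hw
    obtain ⟨k, hk, t, ht, e⟩ := Reg_dec (by omega : 0 < n) w
    have ht' := Ico_subset_Icc_self ht
    rcases lt_trichotomy (‖w‖ * cos (t - π / n)) (r * cos (π / n)) with d | d | d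
    · exact Or.inl fun j hj => e ▸ (Reg_max hn hj hk (norm_nonneg w) ht').trans_lt d
    · exact (hw (e ▸ Reg_on hn hr hk (norm_nonneg w) ht' d)).elim
    · exact Or.inr ⟨k, hk, by rw [e, Reg_self]; exact d⟩
  ext w
  constructor
  · intro hw
    refine (hcov w hw.1).resolve_right ?_
    rintro ⟨j, hj, d⟩
    have d0 : 0 < RegL n j w := (mul_pos hr c).trans d
    have w0 : 0 < ‖w‖ := norm_pos_iff.2 fun e => by simp [e, RegL] at d0
    refine not_mem_Ins (S := (fun s : ℝ => s • w) '' Ici 1)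
      (isPreconnected_Ici.image _ (by fun_prop)) ?_ ?_ ⟨1, self_mem_Ici, one_smul _ _⟩ hw
    · rw [disjoint_left]
      rintro _ ⟨s, hs, rfl⟩ hg
      have h1 := (Reg_gam hn hr hg).1 j hj
      have h2 := Reg_lin n j s 0 w 0
      rw [zero_smul, add_zero, zero_mul, add_zero] at h2
      have hs' : 1 ≤ s := hs
      simp only [h2] at h1
      linarith only [d, h1, d0, hs', mul_nonneg_of_nonpos_of_nonpos (le_of_lt (Mathlib.Tactic.Linarith.sub_neg_of_lt d0)) (Mathlib.Tactic.Linarith.sub_nonpos_of_le hs')]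
    · intro hb
      obtain ⟨R, hR⟩ := hb.exists_norm_le
      have := hR _ ⟨|R| / ‖w‖ + 1, mem_Ici.2 (le_add_of_nonneg_left (by positivity)), rfl⟩
      simp only [norm_smul, Real.norm_eq_abs] at this
      rw [abs_of_pos (by positivity), add_mul, div_mul_cancel₀ _ w0.ne'] at this
      linarith only [w0, this, le_abs_self R]
  · intro hw
    have hw' : w ∉ Gam (reg n r) := fun hg => by
      obtain ⟨j, hj, e⟩ := (Reg_gam hn hr hg).2
      exact (hw j hj).ne e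
    refine ⟨hw', (isBounded_closedBall (x := (0 : ℂ)) (r := r)).subset ?_⟩
    have o1 : IsOpen {w | ∀ j < n, RegL n j w < r * cos (π / n)} := by
      simp only [ofPred_forall]
      exact (finite_lt_nat n).isOpen_biInter fun j _ => isOpen_lt (hc j) continuous_const
    have o2 : IsOpen {w | ∃ j < n, r * cos (π / n) < RegL n j w} := by
      simp only [ofPred_exists, ofPred_and]
      exact isOpen_iUnion fun j => isOpen_const.inter (isOpen_lt continuous_const (hc j))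
    refine (isPreconnected_connectedComponentIn.subset_left_of_subset_union o1 o2 ?_
      (fun x hx => hcov x (connectedComponentIn_subset _ _ hx))
      ⟨w, mem_connectedComponentIn hw', hw⟩).trans fun x hx => ?_
    · rw [disjoint_left]
      rintro x h1 ⟨j, hj, h2⟩
      exact (h1 j hj).not_gt h2
    · obtain ⟨k, hk, t, ht, e⟩ := Reg_dec (by omega : 0 < n) x
      have h1 := hx k hk
      rw [e, Reg_self] at h1
      have h2 := mul_le_mul_of_nonneg_left (Reg_le hn (Ico_subset_Icc_self ht)) (norm_nonneg x)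
      rw [mem_closedBall_zero_iff]
      exact (lt_of_mul_lt_mul_right (h2.trans_lt h1) c.le).le

theorem reg_mem {n : ℕ} (hn : 5 ≤ n) {r : ℝ} (hr : 0 < r) (k : ℕ) {z : ℂ} (h1 : 0 ≤ z.im)
    (h2 : (z * ei (-(2 * π / n))).im ≤ 0) (h3 : (z * ei (-(π / n))).re < r * cos (π / n)) :
    ei (2 * π * k / n) * z ∈ Ins (Gam (reg n r)) := by
  obtain ⟨a0, a1⟩ := Reg_ang hn
  have e2 : 2 * π / n = 2 * (π / n) := by ring
  have ht : z.arg ∈ Icc 0 (2 * π / n) := by
    refine ⟨Complex.arg_nonneg_iff.2 h1, ?_⟩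
    rcases eq_or_ne z 0 with rfl | h0
    · rw [Complex.arg_zero]; linarith only [a0, e2]
    · by_contra c
      rw [Reg_arg z, Reg_im] at h2
      have := sin_pos_of_pos_of_lt_pi (x := z.arg - 2 * π / n) (by linarith only [c])
        (by linarith only [a0, e2, Complex.arg_le_pi z])
      linarith only [h2, this, h0, norm_pos_iff.2 h0, mul_pos_of_neg_of_neg (Mathlib.Tactic.Linarith.sub_neg_of_lt this) (Mathlib.Tactic.Linarith.sub_neg_of_lt (norm_pos_iff.mpr h0))]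
  rw [Reg_ins hn hr, Reg_mod (by omega), Reg_arg z, mul_left_comm, ← ei_add]
  rw [Reg_arg z, Reg_re] at h3
  exact fun j hj => (Reg_max hn hj (Nat.mod_lt _ (by omega)) (norm_nonneg z) ht).trans_lt h3

theorem Reg_rot (x : ℝ) : MeasurePreserving (fun z : ℂ => z * ei x) volume volume := by
  have : (fun z : ℂ => z * ei x) = rotation (Circle.exp x) := by
    ext z
    rw [rotation_apply, Circle.coe_exp, mul_comm, ei]
  rw [this]
  exact (rotation (Circle.exp x)).measurePreserving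

theorem reg_vol {n : ℕ} (hn : 5 ≤ n) {r : ℝ} (hr : 0 < r) :
    volume (Ins (Gam (reg n r))) = ENNReal.ofReal (n * (r ^ 2 * sin (2 * π / n) / 2)) := by
  obtain ⟨a0, a1⟩ := Reg_ang hn
  have c : 0 < cos (π / n) := cos_pos_of_mem_Ioo ⟨by linarith only [a0, a1], a1⟩
  have e2 : 2 * π / n = 2 * (π / n) := by ring
  have hθ : 0 < 2 * π / n := by linarith only [a0, e2]
  set T := Tri (2 * π / n) (π / n) (r * cos (π / n)) with hT
  have hTm : MeasurableSet T := by
    refine IsOpen.measurableSet ?_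
    simp only [hT, Tri, ofPred_and]
    exact (isOpen_lt (by fun_prop) (by fun_prop)).inter
      ((isOpen_lt (by fun_prop) (by fun_prop)).inter (isOpen_lt (by fun_prop) (by fun_prop)))
  have hv : volume T = ENNReal.ofReal (r ^ 2 * sin (2 * π / n) / 2) := by
    have e3 : 2 * π / n - π / n = π / n := by ring
    rw [hT, tri_vol hθ (mul_pos hr c) (by rwa [abs_of_pos a0]) (by rwa [e3, abs_of_pos a0]), e3,
      e2, sin_two_mul, tan_eq_sin_div_cos]
    congr 1
    field_simp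
    ring
  set S : ℕ → Set ℂ := fun k => (fun z : ℂ => z * ei (-(2 * π * k / n))) ⁻¹' T with hS
  have back : ∀ (k : ℕ) (z : ℂ), z = ei (2 * π * k / n) * (z * ei (-(2 * π * k / n))) := by
    intro k z
    rw [mul_left_comm, ei_mul_neg, mul_one]
  have hlt : ∀ j < n, ∀ k < n, j ≠ k → ∀ z ∈ S k, RegL n j z < RegL n k z := by
    intro j hj k hk hjk z hz
    obtain ⟨ρ, t, h0, ht, e⟩ := Reg_sector hθ hz.1 hz.2.1
    have e' := back k z
    simp only at e
    rw [e, mul_left_comm, ← ei_add] at e'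
    rw [e', Reg_self]
    refine (Reg_other hj hk hjk h0.le (Ioo_subset_Icc_self ht)).trans_lt
      (mul_lt_mul_of_pos_left ?_ h0)
    rw [← cos_abs (t - _)]
    exact cos_lt_cos_of_nonneg_of_le_pi (abs_nonneg _) (by linarith only [a0, a1])
      (abs_lt.2 ⟨by linarith only [ht, ht.1], by linarith only [e2, ht, ht.2]⟩)
  have hU : volume (⋃ k ∈ Finset.range n, S k) =
      ENNReal.ofReal (n * (r ^ 2 * sin (2 * π / n) / 2)) := by
    rw [measure_biUnion_finset ?_ fun k _ => (Reg_rot _).measurable hTm,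
      Finset.sum_congr rfl fun k _ => (Reg_rot _).measure_preimage hTm.nullMeasurableSet,
      Finset.sum_const, Finset.card_range, hv, nsmul_eq_mul,
      ENNReal.ofReal_mul (Nat.cast_nonneg n), ENNReal.ofReal_natCast]
    intro j hj k hk hjk
    refine disjoint_left.2 fun z h1 h2 => ?_
    have hj' := Finset.mem_range.1 hj
    have hk' := Finset.mem_range.1 hk
    exact (hlt j hj' k hk' hjk z h2).not_gt (hlt k hk' j hj' hjk.symm z h1)
  have hN : volume {z : ℂ | z.im = 0} = 0 := by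
    have : {z : ℂ | z.im = 0} = (fun z : ℂ => (z.im, z.re)) ⁻¹' ({0} ×ˢ univ) := by ext; simp
    rw [this, Reg_mp.measure_preimage
      ((measurableSet_singleton _).prod MeasurableSet.univ).nullMeasurableSet, Measure.prod_prod]
    simp
  have hN' : volume (⋃ k : ℕ, (fun z : ℂ => z * ei (-(2 * π * k / n))) ⁻¹' {z | z.im = 0}) = 0 :=
    measure_iUnion_null fun k => (Reg_rot _).quasiMeasurePreserving.preimage_null hN
  rw [← hU]
  refine le_antisymm ?_ (measure_mono (iUnion₂_subset fun k _ z hz => ?_))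
  · refine (measure_mono fun z hz => ?_).trans ((measure_union_le _ _).trans
      ((add_le_add_right hN'.le _).trans (add_zero _).le))
    rw [mem_union, or_iff_not_imp_right]
    intro h
    simp only [mem_iUnion, not_exists, mem_preimage, mem_ofPred_eq] at h
    obtain ⟨k, hk, t, ht, e⟩ := Reg_dec (by omega : 0 < n) z
    have e' : z * ei (-(2 * π * k / n)) = (‖z‖ : ℂ) * ei t := by
      conv_lhs => rw [e]
      rw [mul_assoc, ← ei_add]
      congr 2
      ring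
    have h1 := h k
    rw [e', Reg_im0] at h1
    have h2 : 0 < ‖z‖ := (norm_nonneg z).lt_of_ne' (left_ne_zero_of_mul h1)
    have h3 : 0 < t := ht.1.lt_of_ne' fun d => by simp [d] at h1
    rw [Reg_ins hn hr] at hz
    have h4 := hz k hk
    rw [e, Reg_self] at h4
    refine mem_iUnion₂.2 ⟨k, Finset.mem_range.2 hk, ?_⟩
    simp only [hS, hT, mem_preimage, e', Tri, mem_ofPred_eq, Reg_im0, Reg_im, Reg_re]
    exact ⟨mul_pos h2 (sin_pos_of_pos_of_lt_pi h3 (by linarith only [a1, e2, ht, ht.2])),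
      mul_neg_of_pos_of_neg h2 (sin_neg_of_neg_of_neg_pi_lt (by linarith only [ht, ht.2])
        (by linarith only [a1, e2, h3])), h4⟩
  · rw [back k z]
    exact reg_mem hn hr k hz.1.le hz.2.1.le hz.2.2

end Pool.Agent.Work.MP_267827_an
end

-- merged part: Pool.Agent.Work.MP_267827_an.Upper
section
/-! Test functions on the regular polygon. -/

set_option autoImplicit false

namespace Pool.Agent.Work.MP_267827_an

open MeasureTheory Set Filter Topology Metric Real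

/-- the conformal map in the strip coordinates -/
noncomputable def Upper_P (β : ℝ) (p : ℝ × ℝ) : ℂ := FF β 0 (pt 1 (π * β) p)

theorem Upper_pt_re (q : ℝ) (p : ℝ × ℝ) : (pt 1 q p).re = p.1 := by simp [pt]

theorem Upper_pt_im (q : ℝ) (p : ℝ × ℝ) : (pt 1 q p).im = q * p.2 := by simp [pt]

theorem Upper_succ {β : ℝ} (hβ : 0 < β) (σ t : ℝ) :
    Upper_P β (σ, t + 1) = ei (π * β) * Upper_P β (σ, t) := by
  rw [Upper_P, Upper_P, ← FF_per hβ]
  congr 1
  simp only [pt]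
  push_cast
  ring

theorem Upper_int {β : ℝ} (hβ : 0 < β) (σ t : ℝ) (k : ℤ) :
    Upper_P β (σ, t + k) = ei (π * β * k) * Upper_P β (σ, t) := by
  induction k using Int.induction_on with
  | zero => simp
  | succ k ih =>
    push_cast at ih ⊢
    rw [← add_assoc, Upper_succ hβ, ih, ← mul_assoc, ← ei_add]
    congr 2
    ring
  | pred k ih =>
    push_cast at ih ⊢
    have h := Upper_succ hβ σ (t + (-k - 1))
    rw [show t + (-(k : ℝ) - 1) + 1 = t + -k by ring, ih] at h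
    apply mul_left_cancel₀ (ei_ne_zero (π * β))
    rw [← h, ← mul_assoc, ← ei_add]
    congr 2
    ring

theorem Upper_zero {β : ℝ} (hβ : 0 < β) {σ : ℝ} (hσ : σ < 0) :
    Upper_P β (σ, 0) = (exp (SS β 0 σ) : ℝ) := by
  rw [← FF_bot hβ 0 hσ, Upper_P]
  simp [pt]

theorem Upper_polar {β : ℝ} (hβ : 0 < β) (hβ1 : β ≤ 1 / 16) {σ t : ℝ} (hσ : σ < 0) (h0 : 0 ≤ t)
    (h1 : t < 1) : ∃ r α : ℝ, 0 < r ∧ 0 ≤ α ∧ α < π * β ∧ Upper_P β (σ, t) = r * ei α := by
  have hθ : 0 < π * β := mul_pos pi_pos hβ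
  rcases h0.eq_or_lt with h0 | h0
  · exact ⟨exp (SS β 0 σ), 0, exp_pos _, le_rfl, hθ, by
      rw [← h0, Upper_zero hβ hσ, ei_zero, mul_one]⟩
  have hm : Upper_P β (σ, t) ∈ Tri (π * β) (π * (β + 0) / 2) (hh β 0) := by
    rw [← FF_image hβ hβ1 (by norm_num)]
    refine ⟨_, ⟨?_, ?_, ?_⟩, rfl⟩
    · rwa [Upper_pt_re]
    · rw [Upper_pt_im]
      positivity
    · rw [Upper_pt_im]
      linarith only [h1, hθ, mul_pos_of_neg_of_neg (Mathlib.Tactic.Linarith.sub_neg_of_lt h1) (Mathlib.Tactic.Linarith.sub_neg_of_lt hθ)]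
  obtain ⟨a1, a2, -⟩ := hm
  set z := Upper_P β (σ, t)
  have hz : z ≠ 0 := fun h => by simp [h] at a1
  have e : z = (‖z‖ : ℝ) * ei (Complex.arg z) := (Complex.norm_mul_exp_arg_mul_I z).symm
  refine ⟨‖z‖, Complex.arg z, norm_pos_iff.2 hz, Complex.arg_nonneg_iff.2 a1.le, ?_, e⟩
  by_contra c
  rw [e, mul_assoc, ← ei_add, Complex.im_ofReal_mul, ei_im] at a2
  have := sin_nonneg_of_nonneg_of_le_pi (x := Complex.arg z + -(π * β)) (by linarith only [c, not_lt.1 c])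
    (by linarith only [hθ, Complex.arg_le_pi z])
  linarith only [hβ, a2, hβ1, this, norm_nonneg z, mul_pos_of_neg_of_neg (Mathlib.Tactic.Linarith.sub_neg_of_lt hβ) (Mathlib.Tactic.Linarith.sub_neg_of_lt a2), mul_nonneg_of_nonpos_of_nonpos (Mathlib.Tactic.Linarith.sub_nonpos_of_le hβ1) (le_of_lt (Mathlib.Tactic.Linarith.sub_neg_of_lt a2)), mul_nonneg_of_nonpos_of_nonpos (Mathlib.Tactic.Linarith.sub_nonpos_of_le this) (Mathlib.Tactic.Linarith.sub_nonpos_of_le (norm_nonneg z))]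

theorem Upper_inj {β : ℝ} {n : ℕ} (hβ : 0 < β) (hβ1 : β ≤ 1 / 16) (hn : β * n = 2)
    {p q : ℝ × ℝ} (hp : p.1 < 0) (hq : q.1 < 0) (h : Upper_P β p = Upper_P β q) :
    p.1 = q.1 ∧ ∃ m : ℤ, p.2 = q.2 + n * m := by
  obtain ⟨σ, t⟩ := p
  obtain ⟨σ', t'⟩ := q
  have hθ : 0 < π * β := mul_pos pi_pos hβ
  simp only at hp hq ⊢
  obtain ⟨r, α, r0, a0, a1, e⟩ := Upper_polar hβ hβ1 hp (Int.fract_nonneg t) (Int.fract_lt_one t)
  obtain ⟨r', α', r0', a0', a1', e'⟩ :=
    Upper_polar hβ hβ1 hq (Int.fract_nonneg t') (Int.fract_lt_one t')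
  rw [← Int.fract_add_floor t, ← Int.fract_add_floor t', Upper_int hβ, Upper_int hβ, e, e'] at h
  have hr : r = r' := by
    have := congrArg norm h
    simpa [abs_of_pos r0, abs_of_pos r0'] using this
  subst hr
  have h2 : ei (π * β * ⌊t⌋ + α) = ei (π * β * ⌊t'⌋ + α') := by
    apply mul_left_cancel₀ (Complex.ofReal_ne_zero.2 r0.ne')
    rw [ei_add, ei_add]
    linear_combination h
  obtain ⟨m, hm⟩ := Complex.exp_eq_exp_iff_exists_int.1 h2
  have h3 : π * β * ⌊t⌋ + α = π * β * ⌊t'⌋ + α' + m * (2 * π) := by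
    have := congrArg Complex.im hm
    simpa using this
  have h4 : α - α' = π * β * ((⌊t'⌋ + n * m - ⌊t⌋ : ℤ) : ℝ) := by
    push_cast
    rw [← hn] at h3
    linarith only [h3]
  have h5 : (⌊t'⌋ + n * m - ⌊t⌋ : ℤ) = 0 := by
    have b1 : ((⌊t'⌋ + n * m - ⌊t⌋ : ℤ) : ℝ) < 1 := by (refine lt_of_not_ge fun h_nl => ?_; linarith only [h_nl, a1, a0', h4, hθ, mul_nonneg_of_nonpos_of_nonpos (le_of_lt (Mathlib.Tactic.Linarith.sub_neg_of_lt hθ)) (Mathlib.Tactic.Linarith.sub_nonpos_of_le h_nl)])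
    have b2 : (-1 : ℝ) < ((⌊t'⌋ + n * m - ⌊t⌋ : ℤ) : ℝ) := by (refine lt_of_not_ge fun h_nl => ?_; linarith only [h_nl, a0, a1', h4, hθ, mul_nonneg_of_nonpos_of_nonpos (le_of_lt (Mathlib.Tactic.Linarith.sub_neg_of_lt hθ)) (Mathlib.Tactic.Linarith.sub_nonpos_of_le h_nl)])
    have c1 : (⌊t'⌋ + n * m - ⌊t⌋ : ℤ) < 1 := by exact_mod_cast b1
    have c2 : (-1 : ℤ) < ⌊t'⌋ + n * m - ⌊t⌋ := by exact_mod_cast b2
    omega
  have h6 : α = α' := by
    rw [h5] at h4
    simp only [Int.cast_zero, mul_zero] at h4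
    linarith only [h4]
  subst h6
  have h7 := FF_inj (b := 0) hβ hβ1 (by norm_num) (x₁ := pt 1 (π * β) (σ, Int.fract t))
    (x₂ := pt 1 (π * β) (σ', Int.fract t'))
    ⟨by rwa [Upper_pt_re], by rw [Upper_pt_im]; exact mul_nonneg hθ.le (Int.fract_nonneg _),
      by rw [Upper_pt_im]; (refine le_of_not_gt fun h_nl => ?_; linarith only [h_nl, hβ, hβ1, hθ, Int.fract_lt_one t, mul_pos_of_neg_of_neg (Mathlib.Tactic.Linarith.sub_neg_of_lt hβ) (Mathlib.Tactic.Linarith.sub_neg_of_lt h_nl), mul_nonneg_of_nonpos_of_nonpos (Mathlib.Tactic.Linarith.sub_nonpos_of_le hβ1) (le_of_lt (Mathlib.Tactic.Linarith.sub_neg_of_lt h_nl)), mul_pos_of_neg_of_neg (Mathlib.Tactic.Linarith.sub_neg_of_lt hθ) (Mathlib.Tactic.Linarith.sub_neg_of_lt (Int.fract_lt_one t))])⟩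
    ⟨by rwa [Upper_pt_re], by rw [Upper_pt_im]; exact mul_nonneg hθ.le (Int.fract_nonneg _),
      by rw [Upper_pt_im]; (refine le_of_not_gt fun h_nl => ?_; linarith only [h_nl, hβ, hβ1, hθ, Int.fract_lt_one t', mul_pos_of_neg_of_neg (Mathlib.Tactic.Linarith.sub_neg_of_lt hβ) (Mathlib.Tactic.Linarith.sub_neg_of_lt h_nl), mul_nonneg_of_nonpos_of_nonpos (Mathlib.Tactic.Linarith.sub_nonpos_of_le hβ1) (le_of_lt (Mathlib.Tactic.Linarith.sub_neg_of_lt h_nl)), mul_pos_of_neg_of_neg (Mathlib.Tactic.Linarith.sub_neg_of_lt hθ) (Mathlib.Tactic.Linarith.sub_neg_of_lt (Int.fract_lt_one t'))])⟩ (e.trans e'.symm)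
  have h8 := congrArg Complex.re h7
  have h9 := congrArg Complex.im h7
  rw [Upper_pt_re, Upper_pt_re] at h8
  rw [Upper_pt_im, Upper_pt_im] at h9
  refine ⟨h8, m, ?_⟩
  have h10 : Int.fract t = Int.fract t' := mul_left_cancel₀ hθ.ne' h9
  have h11 : ((⌊t'⌋ + n * m - ⌊t⌋ : ℤ) : ℝ) = 0 := by exact_mod_cast h5
  push_cast at h11
  linarith only [h10, h11, Int.fract_add_floor t, Int.fract_add_floor t']

theorem Upper_full {β : ℝ} {n : ℕ} (hβ : 0 < β) (hn : β * n = 2) (σ t : ℝ) (m : ℤ) :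
    Upper_P β (σ, t + n * m) = Upper_P β (σ, t) := by
  have h := Upper_int hβ σ t (n * m)
  push_cast at h
  rw [h, show π * β * (n * m) = m * (2 * π) by rw [← hn]; ring, ei]
  push_cast
  rw [mul_assoc, Complex.exp_int_mul_two_pi_mul_I, one_mul]

theorem Upper_contAt {β : ℝ} (hβ : 0 < β) {p : ℝ × ℝ} (hp : p.1 < 0) :
    ContinuousAt (Upper_P β) p := by
  have h1 : ContinuousAt (pt 1 (π * β)) p := by
    unfold pt
    fun_prop
  exact (FF_der hβ 0 (by rwa [Upper_pt_re])).continuousAt.comp h1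

/-- a function whose pull back is smooth is smooth -/
theorem Upper_smooth {β : ℝ} (hβ : 0 < β) {u : ℂ → ℝ} {V : ℝ × ℝ → ℝ}
    (hV : ContDiffOn ℝ 1 V {p | p.1 < 0}) (huV : ∀ p : ℝ × ℝ, p.1 < 0 → u (Upper_P β p) = V p)
    {p : ℝ × ℝ} (hp : p.1 < 0) : ContDiffAt ℝ 1 u (Upper_P β p) := by
  have hθ : 0 < π * β := mul_pos pi_pos hβ
  set w := pt 1 (π * β) p with hw
  have hw0 : w.re < 0 := by rwa [hw, Upper_pt_re]
  have ho : IsOpen {w : ℂ | w.re < 0} := isOpen_lt Complex.continuous_re continuous_const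
  have hd : DifferentiableOn ℂ (FF β 0) {w : ℂ | w.re < 0} := fun w hw =>
    (FF_der hβ 0 hw).differentiableAt.differentiableWithinAt
  have hc : ContDiffAt ℂ 1 (FF β 0) w := (hd.contDiffOn ho).contDiffAt (ho.mem_nhds hw0)
  have hf' := (FF_der hβ 0 hw0).hasFDerivAt_equiv (GG_ne β 0 w)
  have g1 := hc.to_localInverse hf' one_ne_zero
  have g2 : ∀ᶠ z in 𝓝 (FF β 0 w), FF β 0 (hc.localInverse hf' one_ne_zero z) = z :=
    (hc.hasStrictFDerivAt' hf' one_ne_zero).eventually_right_inverse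
  have g3 : hc.localInverse hf' one_ne_zero (FF β 0 w) = w := hc.localInverse_apply_image _ _
  set g := hc.localInverse hf' one_ne_zero
  have g4 : ∀ᶠ z in 𝓝 (FF β 0 w), (g z).re < 0 :=
    g1.continuousAt.eventually (ho.mem_nhds (by rw [g3]; exact hw0))
  have hT : ContDiff ℝ 1 fun w : ℂ => (w.re, w.im / (π * β)) :=
    Complex.reCLM.contDiff.prodMk (Complex.imCLM.contDiff.div_const _)
  have hV' : ContDiffAt ℝ 1 V ((g (FF β 0 w)).re, (g (FF β 0 w)).im / (π * β)) :=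
    hV.contDiffAt ((isOpen_lt continuous_fst continuous_const).mem_nhds
      (by rw [g3]; exact hw0))
  have g5 : ContDiffAt ℝ 1 (fun z => V ((g z).re, (g z).im / (π * β))) (FF β 0 w) :=
    hV'.comp (FF β 0 w) (f := fun z => ((g z).re, (g z).im / (π * β)))
      (hT.contDiffAt.comp _ (g1.restrict_scalars ℝ))
  refine g5.congr_of_eventuallyEq ?_
  filter_upwards [g2, g4] with z h2 h4
  rw [← huV _ h4, Upper_P]
  have : pt 1 (π * β) ((g z).re, (g z).im / (π * β)) = g z := by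
    apply Complex.ext
    · rw [Upper_pt_re]
    · rw [Upper_pt_im, mul_div_cancel₀ _ hθ.ne']
  rw [this, h2]

theorem Upper_period {n : ℕ} (hn : 1 ≤ n) {h : ℝ × ℝ → ℝ} (per : ∀ σ t, h (σ, t + 1) = h (σ, t))
    (hi : IntegrableOn h (Iio 0 ×ˢ Ioo 0 (n : ℝ))) :
    Integrable h nu ∧ ∫ p in Iio 0 ×ˢ Ioo 0 (n : ℝ), h p = n * ∫ p, h p ∂nu := by
  have hn' : (1 : ℝ) ≤ n := by exact_mod_cast hn
  have h1 : IntegrableOn h (Iio 0 ×ˢ Ioo 0 1) :=
    hi.mono_set (prod_mono le_rfl (Ioo_subset_Ioo le_rfl hn'))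
  rw [IntegrableOn, Measure.volume_eq_prod, ← Measure.prod_restrict] at hi h1
  refine ⟨h1, ?_⟩
  rw [nu, Measure.volume_eq_prod, ← Measure.prod_restrict, integral_prod_symm _ hi,
    integral_prod_symm _ h1]
  have hH : Function.Periodic (fun t => ∫ σ in Iio (0 : ℝ), h (σ, t)) 1 := fun t => by
    simp only [per]
  have h2 : IntervalIntegrable (fun t => ∫ σ in Iio (0 : ℝ), h (σ, t)) volume 0 1 :=
    (intervalIntegrable_iff_integrableOn_Ioo_of_le zero_le_one).2 h1.integral_prod_right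
  have h3 := hH.intervalIntegral_add_zsmul_eq n 0 (hH.intervalIntegrable₀ one_ne_zero h2)
  simp only [zero_add, zsmul_eq_mul, Int.cast_natCast, mul_one] at h3
  rw [intervalIntegral.integral_of_le (by linarith only [hn']), intervalIntegral.integral_of_le zero_le_one,
    integral_Ioc_eq_integral_Ioo, integral_Ioc_eq_integral_Ioo] at h3
  exact h3

theorem Upper_null : volume {z : ℂ | z.im = 0} = 0 := by
  refine Measure.addHaar_submodule volume (LinearMap.ker Complex.imLm) fun h => ?_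
  have : Complex.I ∈ LinearMap.ker Complex.imLm := by
    rw [h]
    trivial
  simp at this

theorem Upper_WW (β σ t : ℝ) : WW β 0 (σ, t + 1) = WW β 0 (σ, t) := by
  have e (a : ℝ) : Complex.exp (a + π * ((t + 1 : ℝ) : ℂ) * Complex.I) =
      -Complex.exp (a + π * (t : ℂ) * Complex.I) := by
    rw [← mul_neg_one, ← Complex.exp_pi_mul_I, ← Complex.exp_add]
    congr 1
    push_cast
    ring
  simp only [WW, xx, u1, u2, e, sub_neg_eq_add, ← sub_eq_add_neg, add_zero, sub_zero]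
  rw [add_comm]

/-- change of variables for functions supported in the image of the strip -/
theorem Upper_cov {β : ℝ} {n : ℕ} (hβ : 0 < β) (hβ1 : β ≤ 1 / 16) (hn : β * n = 2) {g : ℂ → ℝ}
    (hg : Integrable g)
    (h0 : ∀ z, g z ≠ 0 → ∃ p : ℝ × ℝ, p.1 < 0 ∧ p.2 ∈ Icc (0 : ℝ) n ∧ Upper_P β p = z)
    {h : ℝ × ℝ → ℝ} (per : ∀ σ t, h (σ, t + 1) = h (σ, t))
    (hh : ∀ p : ℝ × ℝ, p.1 < 0 →
      π * β * ‖GG β 0 (pt 1 (π * β) p)‖ ^ 2 * g (Upper_P β p) = h p) :
    Integrable h nu ∧ ∫ z, g z = n * ∫ p, h p ∂nu := by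
  have hθ : 0 < π * β := mul_pos pi_pos hβ
  have hn1 : 1 ≤ n := Nat.pos_of_ne_zero fun c => by simp [c] at hn
  have hD : MeasurableSet (Iio (0 : ℝ) ×ˢ Ioo (0 : ℝ) n) := measurableSet_Iio.prod measurableSet_Ioo
  obtain ⟨-, c1, c2⟩ := cov hD (F := FF β 0) (F' := GG β 0) one_pos hθ
    (fun p hp => FF_der hβ 0 (by rw [Upper_pt_re]; exact hp.1)) (fun p hp q hq e => by
      obtain ⟨e1, m, e2⟩ := Upper_inj hβ hβ1 hn hp.1 hq.1 e
      have hn0 : (0 : ℝ) < n := by exact_mod_cast hn1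
      have b1 : (m : ℝ) < 1 := by (refine lt_of_not_ge fun h_nl => ?_; linarith only [h_nl, e2, hp, hq, hp.2.2, hq.2.1, mul_nonneg_of_nonpos_of_nonpos (Mathlib.Tactic.Linarith.sub_nonpos_of_le (Mathlib.Tactic.Linarith.natCast_nonneg ℝ n)) (Mathlib.Tactic.Linarith.sub_nonpos_of_le h_nl)])
      have b2 : (-1 : ℝ) < m := by (refine lt_of_not_ge fun h_nl => ?_; linarith only [h_nl, e2, hp, hq, hp.2.1, hq.2.2, mul_nonneg_of_nonpos_of_nonpos (Mathlib.Tactic.Linarith.sub_nonpos_of_le (Mathlib.Tactic.Linarith.natCast_nonneg ℝ n)) (Mathlib.Tactic.Linarith.sub_nonpos_of_le h_nl)])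
      have c1 : m < 1 := by exact_mod_cast b1
      have c2 : -1 < m := by exact_mod_cast b2
      have : m = 0 := by omega
      subst this
      exact Prod.ext e1 (by simpa using e2)) g
  have e : EqOn (fun p => (1 * (π * β) * ‖GG β 0 (pt 1 (π * β) p)‖ ^ 2) •
      g (FF β 0 (pt 1 (π * β) p))) h (Iio (0 : ℝ) ×ˢ Ioo (0 : ℝ) n) := fun p hp => by
    rw [← hh p hp.1]
    simp only [one_mul, smul_eq_mul, Upper_P]
  obtain ⟨d1, d2⟩ := Upper_period hn1 per ((c1.1 hg.integrableOn).congr_fun e hD)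
  refine ⟨d1, ?_⟩
  rw [← d2, ← setIntegral_congr_fun hD e, ← c2]
  refine (setIntegral_eq_integral_of_ae_compl_eq_zero ?_).symm
  filter_upwards [measure_eq_zero_iff_ae_notMem.1 Upper_null] with z hz hz'
  by_contra c
  obtain ⟨⟨σ, t⟩, p1, p2, rfl⟩ := h0 z c
  have z0 : (Upper_P β (σ, 0)).im = 0 := by rw [Upper_zero hβ p1, Complex.ofReal_im]
  rcases p2.1.eq_or_lt with p3 | p3
  · simp only at p3
    exact hz (by rw [← p3]; exact z0)
  rcases p2.2.eq_or_lt with p4 | p4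
  · simp only at p4
    have := Upper_full hβ hn σ 0 1
    simp only [zero_add, Int.cast_one, mul_one] at this
    exact hz (by rw [p4, this]; exact z0)
  exact hz' ⟨(σ, t), ⟨p1, p3, p4⟩, rfl⟩

theorem upper {n : ℕ} (hn : 32 ≤ n) {V : ℝ × ℝ → ℝ} (hV : ContDiffOn ℝ 1 V {p | p.1 < 0})
    (per : ∀ σ t, V (σ, t + 1) = V (σ, t)) {A B : ℝ} (hB : B < 0)
    (supp : ∀ p : ℝ × ℝ, p.1 < 0 → V p ≠ 0 → A ≤ p.1 ∧ p.1 ≤ B) :
    ∃ u : ℂ → ℝ, Test (Ins (Gam (reg n (rr n)))) u ∧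
      EE u = n * (π * (2 / n) * Ds V + Dt V / (π * (2 / n))) ∧
      NN u = n * (π * (2 / n) * NW (2 / n) 0 V) := by
  classical
  have hn' : (32 : ℝ) ≤ n := by exact_mod_cast hn
  have hn0 : (0 : ℝ) < n := by linarith only [hn']
  set β : ℝ := 2 / n with hβd
  have hβ : 0 < β := by positivity
  have hβ1 : β ≤ 1 / 16 := by
    rw [hβd, div_le_div_iff₀ hn0 (by norm_num)]
    linarith only [hn']
  have hβn : β * n = 2 := div_mul_cancel₀ _ hn0.ne'
  have hθ : 0 < π * β := mul_pos pi_pos hβ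
  have perZ : ∀ (σ t : ℝ) (k : ℤ), V (σ, t + k) = V (σ, t) := fun σ t k => by
    have hp : Function.Periodic (fun t => V (σ, t)) 1 := per σ
    simpa using hp.int_mul k t
  obtain ⟨u, hu⟩ : ∃ u : ℂ → ℝ, u = fun z =>
    if h : ∃ p : ℝ × ℝ, p.1 < 0 ∧ Upper_P β p = z then V h.choose else 0 := ⟨_, rfl⟩
  have huV : ∀ p : ℝ × ℝ, p.1 < 0 → u (Upper_P β p) = V p := fun p hp => by
    have h : ∃ q : ℝ × ℝ, q.1 < 0 ∧ Upper_P β q = Upper_P β p := ⟨p, hp, rfl⟩
    rw [hu]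
    simp only [dif_pos h]
    obtain ⟨e1, m, e2⟩ := Upper_inj hβ hβ1 hβn h.choose_spec.1 hp h.choose_spec.2
    have := perZ p.1 p.2 (n * m)
    push_cast at this
    rw [← this, ← e2, ← e1]
  set C : Set ℂ := Upper_P β '' (Icc A B ×ˢ Icc (0 : ℝ) n) with hC
  have hCc : IsCompact C := (isCompact_Icc.prod isCompact_Icc).image_of_continuousOn
    fun p hp => (Upper_contAt hβ (hp.1.2.trans_lt hB)).continuousWithinAt
  have hsupp : Function.support u ⊆ C := fun z hz => by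
    by_cases h : ∃ p : ℝ × ℝ, p.1 < 0 ∧ Upper_P β p = z
    · obtain ⟨⟨σ, t⟩, p1, rfl⟩ := h
      rw [Function.mem_support, huV _ p1] at hz
      have b1 := Int.fract_nonneg (t / n)
      have b2 := Int.fract_lt_one (t / n)
      have b3 : t = n * Int.fract (t / n) + n * ⌊t / n⌋ := by
        rw [← mul_add, Int.fract_add_floor, mul_div_cancel₀ _ hn0.ne']
      refine ⟨(σ, n * Int.fract (t / n)), ⟨supp (σ, t) p1 hz, by positivity,
        (mul_lt_of_lt_one_right hn0 b2).le⟩, ?_⟩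
      rw [← Upper_full hβ hβn σ _ ⌊t / n⌋, ← b3]
    · exact absurd (by rw [hu]; simp only [dif_neg h]) hz
  have hts : tsupport u ⊆ C := closure_minimal hsupp hCc.isClosed
  have hcs : HasCompactSupport u := hCc.of_isClosed_subset (isClosed_tsupport u) hts
  have hsm : ContDiff ℝ 1 u := contDiff_iff_contDiffAt.2 fun z => by
    by_cases h : z ∈ C
    · obtain ⟨p, hp, rfl⟩ := h
      exact Upper_smooth hβ hV huV (hp.1.2.trans_lt hB)
    · exact contDiffAt_const.congr_of_eventuallyEq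
        (notMem_tsupport_iff_eventuallyEq.1 fun c => h (hts c))
  have hC0 : ∀ z ∈ C, ∃ p : ℝ × ℝ, p.1 < 0 ∧ p.2 ∈ Icc (0 : ℝ) n ∧ Upper_P β p = z := by
    rintro _ ⟨p, hp, rfl⟩
    exact ⟨p, hp.1.2.trans_lt hB, hp.2, rfl⟩
  refine ⟨u, ⟨hsm, hcs, hts.trans ?_⟩, ?_, ?_⟩
  · rintro _ ⟨⟨σ, t⟩, hp, rfl⟩
    have hσ : σ < 0 := hp.1.2.trans_lt hB
    have hcos : 0 < cos (π / n) := by
      refine cos_pos_of_mem_Ioo ⟨by linarith only [hn0, div_pos pi_pos hn0, pi_pos], ?_⟩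
      exact div_lt_div_of_pos_left pi_pos two_pos (by linarith only [hn', hβ, hβ1])
    obtain ⟨l1, l2, l3⟩ := FF_lt (b := 0) hβ hβ1 (by norm_num)
      (w := pt 1 (π * β) (σ, Int.fract t)) (by rwa [Upper_pt_re])
      (by rw [Upper_pt_im]; exact mul_nonneg hθ.le (Int.fract_nonneg _))
      (by rw [Upper_pt_im]; (refine le_of_not_gt fun h_nl => ?_; linarith only [h_nl, hβ, hβ1, hθ, Int.fract_lt_one t, mul_pos_of_neg_of_neg (Mathlib.Tactic.Linarith.sub_neg_of_lt hβ) (Mathlib.Tactic.Linarith.sub_neg_of_lt h_nl), mul_nonneg_of_nonpos_of_nonpos (Mathlib.Tactic.Linarith.sub_nonpos_of_le hβ1) (le_of_lt (Mathlib.Tactic.Linarith.sub_neg_of_lt h_nl)), mul_pos_of_neg_of_neg (Mathlib.Tactic.Linarith.sub_neg_of_lt hθ) (Mathlib.Tactic.Linarith.sub_neg_of_lt (Int.fract_lt_one t))]))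
    have e1 : π * β = 2 * π / n := by rw [hβd]; ring
    have e2 : π * (β + 0) / 2 = π / n := by rw [hβd]; ring
    have hr : 0 < rr n := div_pos (hh_pos hβ hβ1 (by norm_num)) hcos
    have e3 : rr n * cos (π / n) = hh β 0 := div_mul_cancel₀ _ hcos.ne'
    have := reg_mem (n := n) (by omega) hr ⌊t⌋.toNat l1 (by rw [← e1]; exact l2)
      (by rw [e3, ← e2]; exact l3)
    have e4 : ((⌊t⌋.toNat : ℕ) : ℝ) = (⌊t⌋ : ℝ) := by
      have h1 : ((⌊t⌋.toNat : ℕ) : ℤ) = ⌊t⌋ := Int.toNat_of_nonneg (Int.floor_nonneg.2 hp.2.1)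
      exact_mod_cast congrArg (fun x : ℤ => (x : ℝ)) h1
    rw [← Int.fract_add_floor t, Upper_int hβ,
      show π * β * ⌊t⌋ = 2 * π * (⌊t⌋.toNat : ℕ) / n by rw [e4, e1]; ring]
    exact this
  · have hf : ∀ σ t, fderiv ℝ V (σ, t + 1) = fderiv ℝ V (σ, t) := fun σ t => by
      have e : (fun q : ℝ × ℝ => V (q + (0, 1))) = V := by
        funext q
        rw [← per q.1 q.2]
        congr 1
        ext <;> simp
      have := fderiv_comp_add_right (𝕜 := ℝ) (f := V) (x := (σ, t)) ((0, 1) : ℝ × ℝ)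
      rw [e] at this
      simpa using this.symm
    have k1 : Continuous fun z => ‖fderiv ℝ u z‖ ^ 2 :=
      (hsm.continuous_fderiv one_ne_zero).norm.fun_pow 2
    have k2 : HasCompactSupport fun z => ‖fderiv ℝ u z‖ ^ 2 :=
      (hcs.fderiv ℝ).comp_left (g := fun L : ℂ →L[ℝ] ℝ => ‖L‖ ^ 2) (by simp)
    obtain ⟨i1, i2⟩ := Upper_cov hβ hβ1 hβn (k1.integrable_of_hasCompactSupport k2)
      (fun z hz => hC0 z (hts (support_fderiv_subset ℝ fun c => hz (by simp [c]))))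
      (h := fun p => π * β * ds V p ^ 2 + dt V p ^ 2 / (π * β))
      (fun σ t => by simp only [ds, dt, hf]) (fun p hp => by
        obtain ⟨c1, c2⟩ := chain (u := u) (a := 1) (q := π * β) (p := p)
          (FF_der hβ 0 (by rwa [Upper_pt_re])) (hsm.differentiable one_ne_zero _)
        have e : (fun p => u (FF β 0 (pt 1 (π * β) p))) =ᶠ[𝓝 p] V := by
          filter_upwards [(isOpen_lt continuous_fst continuous_const).mem_nhds hp] with q hq
          exact huV q hq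
        rw [ds, e.fderiv_eq] at c1
        rw [dt, e.fderiv_eq] at c2
        simp only [ds, dt]
        rw [c1, c2, mul_assoc, Upper_P, ← norm_sq_dual]
        field_simp)
    have m1 : Measurable fun p => π * β * ds V p ^ 2 :=
      ((measurable_fderiv_apply_const ℝ V (1, 0)).pow_const 2).const_mul _
    have m2 : Measurable fun p => dt V p ^ 2 / (π * β) :=
      ((measurable_fderiv_apply_const ℝ V (0, 1)).pow_const 2).div_const _
    have j1 : Integrable (fun p => π * β * ds V p ^ 2) nu :=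
      i1.mono' m1.aestronglyMeasurable (Eventually.of_forall fun p => by
        rw [Real.norm_of_nonneg (by positivity)]
        exact le_add_of_nonneg_right (by positivity))
    have j2 : Integrable (fun p => dt V p ^ 2 / (π * β)) nu :=
      i1.mono' m2.aestronglyMeasurable (Eventually.of_forall fun p => by
        rw [Real.norm_of_nonneg (by positivity)]
        exact le_add_of_nonneg_left (by positivity))
    rw [EE, i2, integral_add j1 j2, integral_const_mul, integral_div, Ds, Dt]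
  · have k1 : Continuous fun z => u z ^ 2 := hsm.continuous.fun_pow 2
    have k2 : HasCompactSupport fun z => u z ^ 2 :=
      hcs.comp_left (g := fun x : ℝ => x ^ 2) (by simp)
    obtain ⟨-, i2⟩ := Upper_cov hβ hβ1 hβn (k1.integrable_of_hasCompactSupport k2)
      (fun z hz => hC0 z (hsupp fun c => hz (by simp [c])))
      (h := fun p => π * β * (exp (2 * p.1) * WW β 0 p * V p ^ 2))
      (fun σ t => by simp only [Upper_WW, per]) (fun p hp => by
        rw [norm_GG_sq hβ, huV p hp]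
        ring)
    rw [NN, i2, integral_const_mul, NW]

end Pool.Agent.Work.MP_267827_an
end

-- merged part: Pool.Agent.Work.MP_267827_an.PS.GLoop
section
/-! Loops and simple loops (skeleton helper49).

Plan.  `Loop.rotate`: from `es ~ Ed (a :: l ++ [a])` and `Ed_fst` the point `p` is in `a :: l`;
write `a :: l = l₁ ++ p :: l₂` and use `Ed_append` twice and `List.perm_append_comm`.
`Loop.split`: rotate to `p`, then `q ∈ l`.
`Simp.out_eq`: `List.inj_on_of_nodup_map`.  `Simp.in_eq`: the targets are a permutation of the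
sources, hence also without repetition.
`Loop.three`: rotate to `a`; the vertices `a :: l` are distinct, the edge out of a vertex is unique
(`Simp.out_eq`), so `l = b :: c :: l'`; if `l' = d :: _` then `d = a`, which contradicts `Nodup`.
`Loop.around`: `P` is constant along the list `Ed (a :: l ++ [a])` (induction on the list). -/

set_option autoImplicit false

namespace Pool.Agent.Work.MP_267827_an.PS

open MeasureTheory Set Filter Topology Real

theorem Loop.of_ends {c w : List ℂ} (lc : 2 ≤ c.length) (lw : 2 ≤ w.length)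
    (hA : c.head? = w.getLast?) (hB : c.getLast? = w.head?) : Loop (Ed c ++ Ed w) := by
  obtain ⟨a, k, b, rfl⟩ := two_le_iff.1 lc
  obtain ⟨a', k', b', rfl⟩ := two_le_iff.1 lw
  rw [List.getLast?_concat] at hA hB
  obtain rfl : a = b' := Option.some.inj hA
  obtain rfl : b = a' := Option.some.inj hB
  refine ⟨a, k ++ b :: k', .of_eq ?_⟩
  have := Ed_append (a :: k) b (k' ++ [a])
  simpa using this.symm

theorem Loop.ne_nil {es : List (ℂ × ℂ)} (h : Loop es) : es ≠ [] := by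
  obtain ⟨a, l, h⟩ := h
  rintro rfl
  have := h.length_eq
  rw [Ed_length] at this
  simp at this

theorem Loop.snd_perm {es : List (ℂ × ℂ)} (h : Loop es) :
    (es.map Prod.snd).Perm (es.map Prod.fst) := by
  obtain ⟨a, l, h⟩ := h
  refine (h.map _).trans (List.Perm.trans ?_ (h.map _).symm)
  rw [Ed_fst, Ed_snd, List.dropLast_concat]
  exact List.perm_append_singleton a l

theorem Loop.next {es : List (ℂ × ℂ)} (h : Loop es) {p q : ℂ} (he : (p, q) ∈ es) :
    ∃ r, (q, r) ∈ es := by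
  obtain ⟨⟨x, r⟩, h1, h2⟩ := List.mem_map.1
    (h.snd_perm.mem_iff.1 (List.mem_map_of_mem (f := Prod.snd) he))
  exact ⟨r, (show x = q from h2) ▸ h1⟩

theorem Loop.prev {es : List (ℂ × ℂ)} (h : Loop es) {p q : ℂ} (he : (p, q) ∈ es) :
    ∃ o, (o, p) ∈ es := by
  obtain ⟨⟨o, x⟩, h1, h2⟩ := List.mem_map.1
    (h.snd_perm.mem_iff.2 (List.mem_map_of_mem (f := Prod.fst) he))
  exact ⟨o, (show x = p from h2) ▸ h1⟩

theorem Loop.swap {es : List (ℂ × ℂ)} (h : Loop es) : Loop (es.map Prod.swap) := by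
  obtain ⟨a, l, h⟩ := h
  refine ⟨a, l.reverse, (h.map _).trans ((List.reverse_perm _).symm.trans (.of_eq ?_))⟩
  rw [← Ed_reverse]
  simp

theorem Loop.mir {es : List (ℂ × ℂ)} (h : Loop es) : Loop (es.map mirE) := by
  obtain ⟨a, l, h⟩ := h
  refine ⟨(starRingEnd ℂ) a, mirL l,
    (h.map _).trans ((List.reverse_perm _).symm.trans (.of_eq ?_))⟩
  rw [← Ed_mir]
  simp [mirL]

theorem Loop.rotate {es : List (ℂ × ℂ)} (h : Loop es) {p : ℂ} (hp : p ∈ es.map Prod.fst) :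
    ∃ l, es.Perm (Ed (p :: l ++ [p])) := by
  obtain ⟨a, l, h⟩ := h
  have h1 := (h.map Prod.fst).mem_iff.1 hp
  rw [Ed_fst, List.dropLast_concat] at h1
  rcases List.mem_cons.1 h1 with rfl | h1
  · exact ⟨l, h⟩
  · obtain ⟨l₁, l₂, rfl⟩ := List.append_of_mem h1
    refine ⟨l₂ ++ a :: l₁, h.trans ?_⟩
    have e1 := Ed_append (a :: l₁) p (l₂ ++ [a])
    have e2 := Ed_append (p :: l₂) a (l₁ ++ [p])
    simp only [List.cons_append, List.append_assoc] at e1 e2 ⊢
    rw [e1, e2]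
    exact List.perm_append_comm

theorem Loop.split {es : List (ℂ × ℂ)} (h : Loop es) {p q : ℂ} (hp : p ∈ es.map Prod.fst)
    (hq : q ∈ es.map Prod.fst) (hne : p ≠ q) :
    ∃ l l', es.Perm (Ed (p :: l ++ [q]) ++ Ed (q :: l' ++ [p])) := by
  obtain ⟨l, h1⟩ := h.rotate hp
  have h2 := (h1.map Prod.fst).mem_iff.1 hq
  rw [Ed_fst, List.dropLast_concat] at h2
  obtain ⟨l₁, l₂, rfl⟩ := List.append_of_mem ((List.mem_cons.1 h2).resolve_left hne.symm)
  refine ⟨l₁, l₂, h1.trans (.of_eq ?_)⟩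
  simpa using Ed_append (p :: l₁) q (l₂ ++ [p])

theorem Simp.nodup' {es : List (ℂ × ℂ)} (h : Simp es) : es.Nodup := by
  exact h.nodup.of_map _

theorem Simp.ne {es : List (ℂ × ℂ)} (h : Simp es) {p q : ℂ} (he : (p, q) ∈ es) : p ≠ q := by
  rintro rfl
  exact h.vert _ he _ he (by simp)

/-- an edge and its reverse do not both occur -/
theorem GLoop_two {es : List (ℂ × ℂ)} (h : Simp es) {p q : ℂ} (h1 : (p, q) ∈ es)
    (h2 : (q, p) ∈ es) : False := by
  have := h.disj _ h1 _ h2 fun a => h.ne h1 (congrArg Prod.fst a)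
  rw [openSegment_symm ℝ q p, disjoint_self] at this
  have m : p + (1 / 2 : ℝ) * (q - p) ∈ openSegment ℝ p q :=
    mem_openSegment_iff'.2 ⟨1 / 2, by norm_num, by norm_num, rfl⟩
  rw [this] at m
  exact m

theorem Simp.out_eq {es : List (ℂ × ℂ)} (h : Simp es) {p q q' : ℂ} (he : (p, q) ∈ es)
    (he' : (p, q') ∈ es) : q = q' := by
  exact congrArg Prod.snd (List.inj_on_of_nodup_map h.nodup he he' rfl)

theorem Simp.in_eq {es : List (ℂ × ℂ)} (h : Simp es) (hl : Loop es) {p p' q : ℂ}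
    (he : (p, q) ∈ es) (he' : (p', q) ∈ es) : p = p' := by
  exact congrArg Prod.fst
    (List.inj_on_of_nodup_map (hl.snd_perm.nodup_iff.2 h.nodup) he he' rfl)

theorem Simp.vert_snd {es : List (ℂ × ℂ)} (h : Simp es) (hl : Loop es) {e f : ℂ × ℂ}
    (he : e ∈ es) (hf : f ∈ es) : f.2 ∉ openSegment ℝ e.1 e.2 := by
  obtain ⟨r, hr⟩ := hl.next (p := f.1) (q := f.2) hf
  exact h.vert e he _ hr

/-- a vertex that lies on an edge is an end point -/
theorem Simp.vert_seg {es : List (ℂ × ℂ)} (h : Simp es) {e : ℂ × ℂ} (he : e ∈ es) {x : ℂ}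
    (hx : x ∈ es.map Prod.fst) (hs : x ∈ segment ℝ e.1 e.2) : x = e.1 ∨ x = e.2 := by
  obtain ⟨f, hf, rfl⟩ := List.mem_map.1 hx
  rcases seg_cases hs with a | a | a
  exacts [.inl a, .inr a, absurd a (h.vert e he f hf)]

/-- an inner point of an edge lies on no other edge -/
theorem Simp.open_seg {es : List (ℂ × ℂ)} (h : Simp es) (hl : Loop es) {e f : ℂ × ℂ}
    (he : e ∈ es) (hf : f ∈ es) (hne : e ≠ f) {x : ℂ} (hx : x ∈ openSegment ℝ e.1 e.2) :
    x ∉ segment ℝ f.1 f.2 := by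
  intro hs
  rcases seg_cases hs with rfl | rfl | a
  exacts [h.vert e he f hf hx, h.vert_snd hl he hf hx, disjoint_left.1 (h.disj e he f hf hne) hx a]

theorem Simp.swap {es : List (ℂ × ℂ)} (h : Simp es) (hl : Loop es) :
    Simp (es.map Prod.swap) := by
  refine ⟨?_, fun e he f hf => ?_, fun e he f hf hne => ?_⟩
  · rw [List.map_map]
    exact hl.snd_perm.nodup_iff.2 h.nodup
  · obtain ⟨e₁, ge, rfl⟩ := List.mem_map.1 he
    obtain ⟨f₁, gf, rfl⟩ := List.mem_map.1 hf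
    rw [openSegment_symm]
    exact h.vert_snd hl ge gf
  · obtain ⟨e₁, ge, rfl⟩ := List.mem_map.1 he
    obtain ⟨f₁, gf, rfl⟩ := List.mem_map.1 hf
    rw [openSegment_symm, openSegment_symm ℝ f₁.swap.1]
    exact h.disj _ ge _ gf fun a => hne (a ▸ rfl)

theorem GLoop_mir {e : ℂ × ℂ} {x : ℂ} (h : x ∈ openSegment ℝ (mirE e).1 (mirE e).2) :
    (starRingEnd ℂ) x ∈ openSegment ℝ e.1 e.2 := by
  rw [openSegment_symm] at h
  obtain ⟨t, h0, h1, rfl⟩ := mem_openSegment_iff'.1 h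
  exact mem_openSegment_iff'.2 ⟨t, h0, h1, by simp [mirE]⟩

theorem Simp.mir {es : List (ℂ × ℂ)} (h : Simp es) (hl : Loop es) : Simp (es.map mirE) := by
  refine ⟨?_, fun e he f hf => ?_, fun e he f hf hne => ?_⟩
  · have := (hl.snd_perm.nodup_iff.2 h.nodup).map (starRingEnd ℂ).injective
    rw [List.map_map] at this ⊢
    exact this
  · obtain ⟨e₁, ge, rfl⟩ := List.mem_map.1 he
    obtain ⟨f₁, gf, rfl⟩ := List.mem_map.1 hf
    intro a
    refine h.vert_snd hl ge gf ?_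
    simpa [mirE] using GLoop_mir a
  · obtain ⟨e₁, ge, rfl⟩ := List.mem_map.1 he
    obtain ⟨f₁, gf, rfl⟩ := List.mem_map.1 hf
    exact disjoint_left.2 fun x a b => disjoint_left.1 (h.disj _ ge _ gf fun c => hne (c ▸ rfl))
      (GLoop_mir a) (GLoop_mir b)

/-- no backtracking: collinear consecutive edges point in the same direction.  Otherwise
`q - p = r (p - o)` with `r < 0`; `r = -1` gives the two edges `(o, p)`, `(p, o)` with equal open
segments, `-1 < r` puts `q` in the open segment `o p`, `r < -1` puts `o` in the open segment `p q`. -/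
theorem Simp.straight {es : List (ℂ × ℂ)} (h : Simp es) (hl : Loop es) {o p q : ℂ}
    (h1 : (o, p) ∈ es) (h2 : (p, q) ∈ es) (hc : cr (p - o) (q - p) = 0) :
    ∃ r : ℝ, 0 < r ∧ q - p = r * (p - o) := by
  have n1 := h.ne h1
  obtain ⟨r, hr⟩ := cr_eq_zero (sub_ne_zero.2 n1.symm) hc
  refine ⟨r, lt_of_not_ge fun h0 => ?_, hr⟩
  have r0 : r < 0 := h0.lt_of_ne fun a => h.ne h2 (sub_eq_zero.1 (by simpa [a] using hr)).symm
  rcases lt_trichotomy r (-1) with a | a | a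
  · refine h.vert _ h2 _ h1 (mem_openSegment_iff'.2 ⟨-r⁻¹, neg_pos.2 (inv_lt_zero.2 r0), ?_, ?_⟩)
    · rw [← inv_neg]
      exact inv_lt_one_of_one_lt₀ (by linarith only [a])
    · have : (r : ℂ) ≠ 0 := Complex.ofReal_ne_zero.2 r0.ne
      simp only [hr]
      push_cast
      field_simp
      ring
  · obtain rfl : q = o := by
      rw [a] at hr
      push_cast at hr
      linear_combination hr
    exact GLoop_two h h1 h2
  · refine h.vert_snd hl h1 h2 (mem_openSegment_iff'.2 ⟨1 + r, by linarith, by linarith, ?_⟩)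
    push_cast
    linear_combination hr

theorem Loop.three {es : List (ℂ × ℂ)} (hl : Loop es) (h : Simp es) {a b c : ℂ}
    (h1 : (a, b) ∈ es) (h2 : (b, c) ∈ es) (h3 : (c, a) ∈ es) :
    es.Perm [(a, b), (b, c), (c, a)] := by
  obtain ⟨l, hp⟩ := hl.rotate (List.mem_map_of_mem (f := Prod.fst) h1)
  have hn := (hp.map Prod.fst).nodup_iff.1 h.nodup
  rw [Ed_fst, List.dropLast_concat] at hn
  have hm : ∀ e ∈ Ed (a :: l ++ [a]), e ∈ es := fun e he => hp.mem_iff.2 he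
  rcases l with _ | ⟨x, _ | ⟨y, l⟩⟩
  · exact absurd rfl (h.ne (hm (a, a) (by simp)))
  · exact (GLoop_two h (hm (a, x) (by simp)) (hm (x, a) (by simp))).elim
  · obtain rfl : x = b := h.out_eq (hm (a, x) (by simp)) h1
    obtain rfl : y = c := h.out_eq (hm (x, y) (by simp)) h2
    rcases l with _ | ⟨d, l⟩
    · exact hp
    · obtain rfl : d = a := h.out_eq (hm (y, d) (by simp)) h3
      simp at hn

/-- a simple loop has at least three edges (one edge `(a, a)` violates `vert`, two edges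
`(a, b)`, `(b, a)` violate `disj`) -/
theorem Loop.three_le {es : List (ℂ × ℂ)} (hl : Loop es) (h : Simp es) : 3 ≤ es.length := by
  obtain ⟨a, l, hp⟩ := hl
  have hm : ∀ e ∈ Ed (a :: l ++ [a]), e ∈ es := fun e he => hp.mem_iff.2 he
  rcases l with _ | ⟨x, _ | ⟨y, l⟩⟩
  · exact absurd rfl (h.ne (hm (a, a) (by simp)))
  · exact (GLoop_two h (hm (a, x) (by simp)) (hm (x, a) (by simp))).elim
  · rw [hp.length_eq, Ed_length]
    simp

/-- induction around a loop -/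
theorem Loop.around {es : List (ℂ × ℂ)} (hl : Loop es) {P : ℂ × ℂ → Prop} {e₀ : ℂ × ℂ}
    (h0 : e₀ ∈ es) (hP : P e₀)
    (hs : ∀ o p q, (o, p) ∈ es → (p, q) ∈ es → (P (o, p) ↔ P (p, q))) : ∀ e ∈ es, P e := by
  obtain ⟨a, l, hp⟩ := hl
  have key : ∀ (k : List ℂ) (x y : ℂ), (∀ e ∈ Ed (x :: y :: k), e ∈ es) →
      ∀ e ∈ Ed (x :: y :: k), (P e ↔ P (x, y)) := by
    intro k
    induction k with
    | nil =>
      intro x y _ e he
      obtain rfl : e = (x, y) := by simpa using he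
      rfl
    | cons z k ih =>
      intro x y hm e he
      rcases List.mem_cons.1 he with rfl | he
      · rfl
      · exact (ih y z (fun f hf => hm f (List.mem_cons_of_mem _ hf)) e he).trans
          (hs x y z (hm _ (by simp)) (hm _ (by simp))).symm
  obtain ⟨y, k, e⟩ : ∃ y k, a :: l ++ [a] = a :: y :: k := by
    rcases l with _ | ⟨y, l⟩
    exacts [⟨a, [], rfl⟩, ⟨y, l ++ [a], rfl⟩]
  rw [e] at hp
  have := key k a y fun f hf => hp.mem_iff.2 hf
  exact fun f hf => (this f (hp.mem_iff.1 hf)).2 ((this e₀ (hp.mem_iff.1 h0)).1 hP)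

end Pool.Agent.Work.MP_267827_an.PS
end

-- merged part: Pool.Agent.Work.MP_267827_an.PS.GWall
section
/-! Convex walls and directions (skeleton helper49).

Plan.  All wall lemmas go by induction on the predicate `Wall` or on the first part of the list
(generalize `lo`).
`Wall.cone_lo`: `x - a` is a sum of vectors `s * ei τ` with `lo ≤ τ ≤ hi ≤ lo + π`; `cr_ei`.
`Wall.cone_hi`: `b - x` is such a sum, `cr (ei hi) (x - b) = ∑ s * sin (hi - τ)`.
`Wall.conv`: `mem_Ed`, `Wall.split_edge`, then `cone_hi` for the vertices before and `cone_lo` for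
those after the edge.
`Wall.fwd`: the real part of `ei (τ - ω)` is positive for `|τ - ω| < π / 2`.
`Wall.sum`: with `ω = (lo + hi) / 2` the vector `(A - B) ei (-ω)` has positive real part, so
`A - B = s ei τ` with `|τ - ω| < π / 2`; `cone_lo` and `cone_hi` give `sin (τ - lo) ≥ 0` and
`sin (hi - τ) ≥ 0`.
`Wall.base`: split the wall at `x` with the angle `τ`; `x - B` and `A - x` are zero or have directions
`τ₁ ≤ τ ≤ τ₂` (`Wall.sum`), and `cr (B - A) (x - A) = cr (x - B) (A - x)`.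
`Wall.ahead`: `z ↦ (z * ei (-ω)).re` is at most its value at `A` on all vertices (`Wall.fwd`), hence on
all edges, and larger at `A + t (A - X₁)`.
`dirn_mem`: `dirn ω z - τ ∈ (-2 π, π)` and its sine is negative. -/

set_option autoImplicit false

namespace Pool.Agent.Work.MP_267827_an.PS

open MeasureTheory Set Filter Topology Real

variable {lo hi lo' hi' τ ω : ℝ} {w l l' : List ℂ} {a b x A B : ℂ}

theorem Wall.le (h : Wall lo hi w) : lo ≤ hi := by
  induction h with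
  | one a h => exact h
  | cons h1 _ _ _ ih => exact h1.trans ih

theorem Wall.ne_nil (h : Wall lo hi w) : w ≠ [] := by
  cases h <;> simp

theorem Wall.mono (h : Wall lo hi w) (h1 : lo' ≤ lo) (h2 : hi ≤ hi') : Wall lo' hi' w := by
  induction h generalizing lo' with
  | one a h => exact Wall.one a (h1.trans (h.trans h2))
  | cons h3 h4 h5 _ ih => exact Wall.cons (h1.trans h3) h4 h5 (ih le_rfl h2)

theorem GWall_inv (h : Wall lo hi (a :: b :: l)) :
    ∃ τ s : ℝ, lo ≤ τ ∧ 0 < s ∧ b - a = s * ei τ ∧ Wall τ hi (b :: l) := by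
  cases h with
  | cons h1 h2 h3 h4 => exact ⟨_, _, h1, h2, h3, h4⟩

theorem Wall.append (h1 : Wall lo τ (l ++ [a])) (h2 : Wall τ hi (a :: l')) :
    Wall lo hi (l ++ a :: l') := by
  induction l generalizing lo with
  | nil => exact h2.mono h1.le le_rfl
  | cons c l ih =>
    cases l with
    | nil =>
      obtain ⟨σ, s, k1, k2, k3, k4⟩ := GWall_inv h1
      exact Wall.cons k1 k2 k3 (ih k4)
    | cons d l =>
      obtain ⟨σ, s, k1, k2, k3, k4⟩ := GWall_inv h1
      exact Wall.cons k1 k2 k3 (ih k4)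

theorem Wall.split (h : Wall lo hi (l ++ a :: l')) :
    ∃ τ, Wall lo τ (l ++ [a]) ∧ Wall τ hi (a :: l') := by
  induction l generalizing lo with
  | nil => exact ⟨lo, Wall.one a le_rfl, h⟩
  | cons c l ih =>
    cases l with
    | nil =>
      obtain ⟨σ, s, k1, k2, k3, k4⟩ := GWall_inv h
      obtain ⟨τ, k5, k6⟩ := ih k4
      exact ⟨τ, Wall.cons k1 k2 k3 k5, k6⟩
    | cons d l =>
      obtain ⟨σ, s, k1, k2, k3, k4⟩ := GWall_inv h
      obtain ⟨τ, k5, k6⟩ := ih k4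
      exact ⟨τ, Wall.cons k1 k2 k3 k5, k6⟩

theorem Wall.split_edge (h : Wall lo hi (l ++ a :: b :: l')) :
    ∃ τ s : ℝ, 0 < s ∧ b - a = s * ei τ ∧ Wall lo τ (l ++ [a]) ∧ Wall τ hi (b :: l') := by
  obtain ⟨σ, k1, k2⟩ := h.split
  obtain ⟨τ, s, k3, k4, k5, k6⟩ := GWall_inv k2
  exact ⟨τ, s, k4, k5, k1.mono le_rfl k3, k6⟩

theorem Wall.pair {s : ℝ} (hs : 0 < s) (h : b - a = s * ei τ) : Wall τ τ [a, b] :=
  Wall.cons le_rfl hs h (Wall.one _ le_rfl)

theorem Wall.snoc {s : ℝ} (h : Wall lo τ (l ++ [a])) (hs : 0 < s) (hb : b - a = s * ei τ) :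
    Wall lo τ (l ++ [a, b]) := h.append (Wall.pair hs hb)

theorem Wall.insert (h : Wall lo hi (l ++ a :: b :: l')) (hx : x ∈ openSegment ℝ a b) :
    Wall lo hi (l ++ a :: x :: b :: l') := by
  obtain ⟨τ, s, k1, k2, k3, k4⟩ := h.split_edge
  obtain ⟨t, t0, t1, rfl⟩ := mem_openSegment_iff'.1 hx
  refine k3.append (Wall.cons (s := t * s) le_rfl (mul_pos t0 k1) ?_
    (Wall.cons (s := (1 - t) * s) le_rfl (mul_pos (sub_pos.2 t1) k1) ?_ k4))
  · push_cast
    linear_combination (t : ℂ) * k2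
  · push_cast
    linear_combination (1 - t : ℂ) * k2

theorem Wall.mir (h : Wall lo hi w) : Wall (-hi - π) (-lo - π) (mirL w) := by
  induction h with
  | one a h => exact Wall.one _ (by linarith)
  | @cons lo hi τ s a b l h1 h2 h3 _ ih =>
    have e1 : mirL (b :: l) = mirL l ++ [(starRingEnd ℂ) b] := by simp [mirL]
    have e2 : mirL (a :: b :: l) = mirL l ++ [(starRingEnd ℂ) b, (starRingEnd ℂ) a] := by
      simp [mirL]
    rw [e1] at ih
    rw [e2]
    refine (ih.snoc h2 ?_).mono le_rfl (by linarith)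
    have := congrArg (starRingEnd ℂ) h3
    rw [map_sub, map_mul, Complex.conj_ofReal, ei_conj] at this
    rw [ei_sub_pi]
    linear_combination -this

theorem Wall.shift (h : Wall lo hi w) : Wall (lo + 2 * π) (hi + 2 * π) w := by
  induction h with
  | one a h => exact Wall.one _ (by linarith)
  | cons h1 h2 h3 _ ih =>
    exact Wall.cons (by linarith) h2 (by rw [ei_add, ei_two_pi, mul_one]; exact h3) ih

theorem GWall_cone (h : Wall lo hi (a :: l)) (hω : ∀ τ, lo ≤ τ → τ ≤ hi → 0 ≤ sin (τ - ω))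
    (hx : x ∈ a :: l) : 0 ≤ cr (ei ω) (x - a) := by
  induction l generalizing a lo with
  | nil => rw [List.mem_singleton.1 hx, sub_self, cr_zero_right]
  | cons b l ih =>
    rcases List.mem_cons.1 hx with rfl | hx
    · rw [sub_self, cr_zero_right]
    obtain ⟨τ, s, k1, k2, k3, k4⟩ := GWall_inv h
    rw [← sub_add_sub_cancel x b a, cr_add_right, k3, cr_mul_right, cr_ei]
    exact add_nonneg (ih k4 (fun σ k => hω σ (k1.trans k)) hx)
      (mul_nonneg k2.le (hω τ k1 k4.le))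

theorem GWall_cone' (h : Wall lo hi (l ++ [b])) (hω : ∀ τ, lo ≤ τ → τ ≤ hi → 0 ≤ sin (τ - ω))
    (hx : x ∈ l ++ [b]) : 0 ≤ cr (ei ω) (b - x) := by
  rcases List.mem_append.1 hx with hx | hx
  · obtain ⟨l₁, l₂, rfl⟩ := List.append_of_mem hx
    rw [List.append_assoc, List.cons_append] at h
    obtain ⟨τ, k1, k2⟩ := h.split
    exact GWall_cone k2 (fun σ k => hω σ (k1.le.trans k)) (by simp)
  · rw [List.mem_singleton.1 hx, sub_self, cr_zero_right]

theorem Wall.cone_lo (h : Wall lo hi (a :: l)) (hπ : hi - lo ≤ π) (hx : x ∈ a :: l) :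
    0 ≤ cr (ei lo) (x - a) :=
  GWall_cone h (fun _ k1 k2 => sin_nonneg_of_nonneg_of_le_pi (by linarith) (by linarith)) hx

theorem Wall.cone_hi (h : Wall lo hi (l ++ [b])) (hπ : hi - lo ≤ π) (hx : x ∈ l ++ [b]) :
    0 ≤ cr (ei hi) (x - b) := by
  have := GWall_cone' (ω := hi - π) h
    (fun _ k1 k2 => sin_nonneg_of_nonneg_of_le_pi (by linarith) (by linarith)) hx
  rwa [ei_sub_pi, cr_neg_left, ← cr_neg_right, neg_sub] at this

theorem Wall.conv (h : Wall lo hi w) (hπ : hi - lo ≤ π) (he : (a, b) ∈ Ed w) (hx : x ∈ w) :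
    0 ≤ cr (b - a) (x - a) := by
  obtain ⟨l₁, l₂, rfl⟩ := mem_Ed.1 he
  obtain ⟨τ, s, k1, k2, k3, k4⟩ := h.split_edge
  have h1 := k3.le
  have h2 := k4.le
  rw [k2, cr_mul_left]
  refine mul_nonneg k1.le ?_
  rw [← List.singleton_append, ← List.append_assoc] at hx
  rcases List.mem_append.1 hx with hx | hx
  · exact k3.cone_hi (by linarith) hx
  · rw [← sub_add_sub_cancel x b a, cr_add_right, k2, cr_mul_right, cr_self, mul_zero, add_zero]
    exact k4.cone_lo (by linarith) hx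

theorem Wall.fwd (h : Wall lo hi (a :: l)) (h1 : ω - π / 2 < lo) (h2 : hi < ω + π / 2)
    (hx : x ∈ l) : 0 < ((x - a) * ei (-ω)).re := by
  have e : ∀ z : ℂ, (z * ei (-ω)).re = cr (ei (ω - π / 2)) z := fun z => by
    rw [cr, Complex.mul_re, ei_re, ei_im, ei_re, ei_im, cos_neg, sin_neg, cos_sub_pi_div_two,
      sin_sub_pi_div_two]
    ring
  rw [e]
  cases l with
  | nil => simp at hx
  | cons b l =>
    obtain ⟨τ, s, k1, k2, k3, k4⟩ := GWall_inv h
    have k5 := k4.le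
    rw [← sub_add_sub_cancel x b a, cr_add_right, k3, cr_mul_right, cr_ei]
    exact add_pos_of_nonneg_of_pos (GWall_cone k4
      (fun _ j1 j2 => sin_nonneg_of_nonneg_of_le_pi (by linarith only [h1, k1, j1]) (by linarith only [h2, j2])) hx)
      (mul_pos k2 (sin_pos_of_pos_of_lt_pi (by linarith only [h1, k1]) (by linarith only [h2, k5])))

theorem Wall.sum (h : Wall lo hi (B :: l ++ [A])) (hπ : hi - lo < π) :
    ∃ τ s : ℝ, 0 < s ∧ lo ≤ τ ∧ τ ≤ hi ∧ A - B = s * ei τ := by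
  have h0 := h.le
  have hp := pi_pos
  have h1 := Wall.fwd (a := B) (l := l ++ [A]) (ω := (lo + hi) / 2) (x := A) h (by linarith only [hπ])
    (by linarith only [hπ]) (by simp)
  have h2 := Wall.cone_lo (a := B) (l := l ++ [A]) (x := A) h hπ.le (by simp)
  have h3 := Wall.cone_hi (x := B) h hπ.le (by simp)
  obtain ⟨z, hz⟩ : ∃ z, z = (A - B) * ei (-((lo + hi) / 2)) := ⟨_, rfl⟩
  rw [← hz] at h1
  have h4 := abs_lt.1 (Complex.abs_arg_lt_pi_div_two_iff.2 (Or.inl h1))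
  have h5 : 0 < ‖z‖ := norm_pos_iff.2 fun k => by simp [k] at h1
  have h6 : A - B = (‖z‖ : ℝ) * ei (z.arg + (lo + hi) / 2) := by
    rw [ei_add, ← mul_assoc, show ((‖z‖ : ℝ) : ℂ) * ei z.arg = z from
      Complex.norm_mul_exp_arg_mul_I z, hz, mul_assoc, mul_comm (ei _), ei_mul_neg, mul_one]
  rw [← neg_sub, cr_neg_right] at h3
  rw [h6, cr_mul_right, cr_ei] at h2 h3
  refine ⟨_, _, h5, not_lt.1 fun k => ?_, not_lt.1 fun k => ?_, h6⟩
  · have := mul_neg_of_pos_of_neg h5 (sin_neg_of_neg_of_neg_pi_lt (sub_neg.2 k) (by linarith only [h0, h4, k]))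
    linarith only [h2, this]
  · have := mul_pos h5 (sin_pos_of_pos_of_lt_pi (sub_pos.2 k) (by linarith only [h0, h4, k]))
    linarith only [h3, this]

theorem Wall.base (h : Wall lo hi (B :: l ++ [A])) (hπ : hi - lo < π) (hx : x ∈ B :: l ++ [A]) :
    0 ≤ cr (B - A) (x - A) := by
  rcases List.mem_append.1 hx with hx | hx
  · rcases List.mem_cons.1 hx with rfl | hx
    · rw [cr_self]
    obtain ⟨l₁, l₂, rfl⟩ := List.append_of_mem hx
    rw [← List.cons_append, List.append_assoc] at h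
    obtain ⟨τ, k1, k2⟩ := h.split
    have j1 := k1.le
    have j2 := k2.le
    obtain ⟨τ₁, s₁, a1, a2, a3, a4⟩ := k1.sum (by linarith)
    obtain ⟨τ₂, s₂, b1, b2, b3, b4⟩ := Wall.sum (l := l₂) k2 (by linarith)
    have e : cr (B - A) (x - A) = cr (x - B) (A - x) := by
      simp only [cr, Complex.sub_re, Complex.sub_im]
      ring
    rw [e, a4, b4, cr_mul_left, cr_mul_right, cr_ei]
    exact mul_nonneg a1.le (mul_nonneg b1.le
      (sin_nonneg_of_nonneg_of_le_pi (by linarith) (by linarith)))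
  · rw [List.mem_singleton.1 hx, sub_self, cr_zero_right]

theorem Wall.ahead (h : Wall lo hi (l ++ [a, A])) (hπ : hi - lo < π) {t : ℝ} (ht : 0 < t) :
    A + t * (A - a) ∉ GC (Ed (l ++ [a, A])) := by
  rintro ⟨⟨p, q⟩, he, hz⟩
  obtain ⟨τ, s, k1, k2, k3, k4⟩ := h.split_edge
  have j1 := k3.le
  have j2 := k4.le
  have key : ∀ x ∈ l ++ [a, A], 0 ≤ cr (ei ((lo + hi) / 2 - π / 2)) (A - x) := fun x hx =>
    GWall_cone' (l := l ++ [a]) (by simpa using h)
      (fun _ i1 i2 => sin_nonneg_of_nonneg_of_le_pi (by linarith only [hπ, i1]) (by linarith only [hπ, i2]))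
      (by simpa using hx)
  obtain ⟨l₁, l₂, e⟩ := mem_Ed.1 he
  have hp := key p (by rw [e]; simp)
  have hq := key q (by rw [e]; simp)
  obtain ⟨r, r0, r1, e'⟩ := mem_segment_iff'.1 hz
  have e2 : ((1 - r : ℝ) : ℂ) * (A - p) + r * (A - q) = ((-t * s : ℝ) : ℂ) * ei τ := by
    push_cast
    simp only [] at e'
    linear_combination e' - (t : ℂ) * k2
  have h1 := add_nonneg (mul_nonneg (sub_nonneg.2 r1) hp) (mul_nonneg r0 hq)
  rw [← cr_mul_right, ← cr_mul_right, ← cr_add_right, e2, cr_mul_right, cr_ei] at h1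
  have h2 := mul_pos (mul_pos ht k1)
    (sin_pos_of_pos_of_lt_pi (x := τ - ((lo + hi) / 2 - π / 2)) (by linarith only [hπ, j1]) (by linarith only [hπ, j2]))
  linarith only [h1, h2]

end Pool.Agent.Work.MP_267827_an.PS
end

-- merged part: Pool.Agent.Work.MP_267827_an.PS.GDirn
section
/-! Convex walls and directions (skeleton helper49).

Plan.  All wall lemmas go by induction on the predicate `Wall` or on the first part of the list
(generalize `lo`).
`Wall.cone_lo`: `x - a` is a sum of vectors `s * ei τ` with `lo ≤ τ ≤ hi ≤ lo + π`; `cr_ei`.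
`Wall.cone_hi`: `b - x` is such a sum, `cr (ei hi) (x - b) = ∑ s * sin (hi - τ)`.
`Wall.conv`: `mem_Ed`, `Wall.split_edge`, then `cone_hi` for the vertices before and `cone_lo` for
those after the edge.
`Wall.fwd`: the real part of `ei (τ - ω)` is positive for `|τ - ω| < π / 2`.
`Wall.sum`: with `ω = (lo + hi) / 2` the vector `(A - B) ei (-ω)` has positive real part, so
`A - B = s ei τ` with `|τ - ω| < π / 2`; `cone_lo` and `cone_hi` give `sin (τ - lo) ≥ 0` and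
`sin (hi - τ) ≥ 0`.
`Wall.base`: split the wall at `x` with the angle `τ`; `x - B` and `A - x` are zero or have directions
`τ₁ ≤ τ ≤ τ₂` (`Wall.sum`), and `cr (B - A) (x - A) = cr (x - B) (A - x)`.
`Wall.ahead`: `z ↦ (z * ei (-ω)).re` is at most its value at `A` on all vertices (`Wall.fwd`), hence on
all edges, and larger at `A + t (A - X₁)`.
`dirn_mem`: `dirn ω z - τ ∈ (-2 π, π)` and its sine is negative. -/

set_option autoImplicit false

namespace Pool.Agent.Work.MP_267827_an.PS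

open MeasureTheory Set Filter Topology Real

variable {lo hi lo' hi' τ ω : ℝ} {w l l' : List ℂ} {a b x A B : ℂ}

/-- a vector to the left of two directions is to the left of the directions between them -/
theorem cr_between {p q r : ℝ} {z : ℂ} (h1 : p ≤ q) (h2 : q ≤ r) (h3 : r - p < π)
    (hp : 0 < cr (ei p) z) (hr : 0 < cr (ei r) z) : 0 < cr (ei q) z := by
  rcases h1.eq_or_lt with rfl | h1
  · exact hp
  rcases h2.eq_or_lt with rfl | h2
  · exact hr
  have e : sin (r - p) * cr (ei q) z = sin (r - q) * cr (ei p) z + sin (q - p) * cr (ei r) z := by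
    simp only [cr, ei_re, ei_im, sin_sub]
    ring
  have k1 : 0 < sin (r - p) := sin_pos_of_pos_of_lt_pi (by linarith) h3
  have k2 : 0 < sin (r - q) := sin_pos_of_pos_of_lt_pi (by linarith) (by linarith)
  have k3 : 0 < sin (q - p) := sin_pos_of_pos_of_lt_pi (by linarith) (by linarith)
  exact (mul_pos_iff_of_pos_left k1).1 (e ▸ add_pos (mul_pos k2 hp) (mul_pos k3 hr))

theorem dirn_eq (ω : ℝ) (z : ℂ) : z = (‖z‖ : ℝ) * ei (dirn ω z) := by
  have h : ((‖z * ei (-ω)‖ : ℝ) : ℂ) * ei (z * ei (-ω)).arg = z * ei (-ω) :=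
    Complex.norm_mul_exp_arg_mul_I _
  rw [norm_mul, norm_ei', mul_one] at h
  rw [dirn, ei_add, mul_left_comm, h, mul_left_comm, ei_mul_neg, mul_one]

theorem dirn_smul (ω : ℝ) (z : ℂ) {s : ℝ} (hs : 0 < s) : dirn ω (s * z) = dirn ω z := by
  rw [dirn, dirn, mul_assoc, Complex.arg_real_mul _ hs]

theorem dirn_mem {z : ℂ} (h1 : ω < τ) (h2 : τ < ω + π) (hz : cr (ei τ) z < 0) :
    τ - π < dirn ω z ∧ dirn ω z < τ := by
  have k1 : ω - π < dirn ω z := by
    have := Complex.neg_pi_lt_arg (z * ei (-ω))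
    unfold dirn
    linarith
  have k2 : dirn ω z ≤ ω + π := by
    have := Complex.arg_le_pi (z * ei (-ω))
    unfold dirn
    linarith
  rw [dirn_eq ω z, cr_mul_right, cr_ei] at hz
  have k3 : sin (dirn ω z - τ) < 0 := not_le.1 fun k => hz.not_ge (mul_nonneg (norm_nonneg z) k)
  refine ⟨not_le.1 fun k => k3.not_ge ?_, not_le.1 fun k => k3.not_ge ?_⟩
  · rw [← sin_add_two_pi]
    exact sin_nonneg_of_nonneg_of_le_pi (by linarith) (by linarith)
  · exact sin_nonneg_of_nonneg_of_le_pi (by linarith) (by linarith)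

theorem dirn_contAt {z : ℂ} (h1 : ω < τ) (h2 : τ < ω + π) (hz : cr (ei τ) z < 0) :
    ContinuousAt (dirn ω) z := by
  have k1 := (dirn_mem h1 h2 hz).2
  have k2 : z * ei (-ω) ∈ Complex.slitPlane := by
    refine Complex.mem_slitPlane_iff_arg.2 ⟨fun k => ?_, mul_ne_zero ?_ (ei_ne_zero _)⟩
    · rw [dirn, k] at k1
      linarith
    · rintro rfl
      rw [cr_zero_right] at hz
      exact lt_irrefl _ hz
  exact continuousAt_const.add ((Complex.continuousAt_arg k2).comp (f := fun z => z * ei (-ω))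
    (continuousAt_id.mul continuousAt_const))

theorem dirn_lt {z z' : ℂ} (h1 : ω < τ) (h2 : τ < ω + π) (hz : cr (ei τ) z < 0)
    (hz' : cr (ei τ) z' < 0) (h : 0 < cr z z') : dirn ω z < dirn ω z' := by
  obtain ⟨a1, a2⟩ := dirn_mem h1 h2 hz
  obtain ⟨b1, b2⟩ := dirn_mem h1 h2 hz'
  rw [dirn_eq ω z, dirn_eq ω z', cr_mul_left, cr_mul_right, cr_ei] at h
  refine not_le.1 fun k => h.not_ge (mul_nonpos_of_nonneg_of_nonpos (norm_nonneg _)
    (mul_nonpos_of_nonneg_of_nonpos (norm_nonneg _) ?_))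
  exact sin_nonpos_of_nonpos_of_neg_pi_le (by linarith only [k]) (by linarith)

/-- a wall with one left turn -/
theorem wall_two {O y : ℂ} (h : 0 < cr (O - x) (y - O)) :
    ∃ lo : ℝ, Wall lo (lo + Complex.arg ((y - O) / (O - x))) [x, O, y] ∧
      O - x = (‖O - x‖ : ℝ) * ei lo ∧
      y - O = (‖y - O‖ : ℝ) * ei (lo + Complex.arg ((y - O) / (O - x))) := by
  have h1 : O - x ≠ 0 := fun k => by
    rw [k, cr_zero_left] at h
    exact lt_irrefl _ h
  have h2 : y - O ≠ 0 := fun k => by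
    rw [k, cr_zero_right] at h
    exact lt_irrefl _ h
  have e1 : O - x = (‖O - x‖ : ℝ) * ei (O - x).arg := (Complex.norm_mul_exp_arg_mul_I _).symm
  have e2 : (y - O) / (O - x) = (‖(y - O) / (O - x)‖ : ℝ) * ei ((y - O) / (O - x)).arg :=
    (Complex.norm_mul_exp_arg_mul_I _).symm
  have e3 : y - O = (‖y - O‖ : ℝ) * ei ((O - x).arg + ((y - O) / (O - x)).arg) := by
    have k : ((‖O - x‖ : ℝ) : ℂ) ≠ 0 := Complex.ofReal_ne_zero.2 (norm_ne_zero_iff.2 h1)
    rw [norm_div, div_eq_iff h1, Complex.ofReal_div] at e2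
    rw [ei_add]
    calc y - O = (‖y - O‖ : ℝ) / (‖O - x‖ : ℝ) * ei ((y - O) / (O - x)).arg *
        ((‖O - x‖ : ℝ) * ei (O - x).arg) := by rw [← e1, ← e2]
      _ = _ := by field_simp
  have h3 : 0 ≤ ((y - O) / (O - x)).arg := by
    rw [Complex.arg_nonneg_iff, div_im_cr]
    exact div_nonneg h.le (Complex.normSq_nonneg _)
  exact ⟨(O - x).arg, Wall.cons le_rfl (norm_pos_iff.2 h1) e1 (Wall.cons (le_add_of_nonneg_right h3)
    (norm_pos_iff.2 h2) e3 (Wall.one _ le_rfl)), e1, e3⟩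

/-! ### rigid chains -/

variable {n : ℕ} {s₀ : ℝ} {e e' e'' : ℂ}

theorem RigC.append (h1 : RigC n s₀ e (l ++ [a]) e') (h2 : RigC n s₀ e' (a :: l') e'') :
    RigC n s₀ e (l ++ a :: l') e'' := by
  induction l generalizing e with
  | nil =>
    cases h1
    exact h2
  | cons c l ih =>
    cases l with
    | nil =>
      cases h1 with
      | cons k1 k2 k3 => exact RigC.cons k1 k2 (ih k3)
    | cons d l =>
      cases h1 with
      | cons k1 k2 k3 => exact RigC.cons k1 k2 (ih k3)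

theorem RigC.mir (h : RigC n s₀ e l e') :
    RigC n s₀ (-(starRingEnd ℂ) e' * ei (2 * π / n)) (mirL l)
      (-(starRingEnd ℂ) e * ei (2 * π / n)) := by
  induction h with
  | one e a => exact RigC.one _ _
  | @cons e e' a b l s h1 h2 _ ih =>
    have e1 : mirL (b :: l) = mirL l ++ [(starRingEnd ℂ) b] := by simp [mirL]
    have e2 : mirL (a :: b :: l) = mirL l ++ [(starRingEnd ℂ) b, (starRingEnd ℂ) a] := by
      simp [mirL]
    rw [e1, map_mul, ei_conj, neg_mul ((starRingEnd ℂ) e * _), mul_assoc, mul_comm (ei _),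
      ei_mul_neg, mul_one] at ih
    rw [e2]
    refine ih.append (RigC.cons h1 ?_ (RigC.one _ _))
    have := congrArg (starRingEnd ℂ) h2
    rw [map_sub, map_mul, Complex.conj_ofReal] at this
    linear_combination -this

end Pool.Agent.Work.MP_267827_an.PS
end

-- merged part: Pool.Agent.Work.MP_267827_an.PS.GTripod
section
/-! A point in a triangle that balances three budgets (skeleton helper49).

`Gt_sum`: the three quotients have positive imaginary part (`div_im_cr`), so their arguments are in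
`(0, π)`; their product is `-1`, so the sum of the arguments is an odd multiple of `π` in `(0, 3 π)`;
the three small triangles add up to the large one.
`Gt_contAt`: `Complex.continuousAt_arg` on the slit plane.
`tripod`: `O (s, t) = a + t ((1 - s) (b - a) + s (c - a))`, `u = Gt D₁ a b`, `f = Gt D₂ b c`,
`v = Gt D₃ c a`.  Choose `τ ∈ (0, 1)` with `f (O (s, τ)) < 0` for all `s ∈ [0, 1]` (continuity of `f` at
`a`).  For `t ∈ [τ, 1]` one has near `(0, t)` that `0 < u ∨ v < 0` (`t < 1`: `u` is continuous and equal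
to `g π - D₁` on the open side `a b`; `t = 1`: `v` is continuous and negative at `b`), so by
`IsCompact.eventually_forall_of_forall_eventually` this holds for all `t ∈ [τ, 1]` and all small `s`;
near `s = 1` in the same way `0 < v ∨ u < 0`.  Fix such a `σ ∈ (0, 1 / 2)`.  On `[σ, 1 - σ] × [τ, 1]` the
three functions are continuous.  Apply `miranda_fin` (after an affine change of variables) to
`F₀ = f` in the variable `t` (negative for `t = τ`, equal to `g π - D₂ > 0` for `t = 1`) and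
`F₁ = -((1 - r) * max u (-v) + r * min u (-v))`, `r = (s - σ) / (1 - 2 σ)`.  At a common zero `t < 1`,
`u + v = 0` by `Gt_sum`, so `max u (-v) = min u (-v) = u = 0`. -/

set_option autoImplicit false

namespace Pool.Agent.Work.MP_267827_an.PS

open MeasureTheory Set Filter Topology Real

/-- the budget of the piece over the side `x y` with the wall `y, O, x` -/
noncomputable def Gt (g lam D : ℝ) (x y O : ℂ) : ℝ :=
  g * (π - Complex.arg ((x - O) / (O - y))) - D - lam * (cr (x - O) (y - O) / 2)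

variable {g lam D D₁ D₂ D₃ : ℝ} {a b c x y O : ℂ}

theorem GTripod_im (h : 0 < cr (y - x) (O - x)) : O - y ≠ 0 ∧ 0 < ((x - O) / (O - y)).im := by
  have h0 : O - y ≠ 0 := fun e => by
    rw [sub_eq_zero.1 e, cr_self] at h
    exact lt_irrefl _ h
  refine ⟨h0, ?_⟩
  rw [div_im_cr]
  refine div_pos ?_ (Complex.normSq_pos.2 h0)
  have e : cr (O - y) (x - O) = cr (y - x) (O - x) := by
    simp only [cr, Complex.sub_re, Complex.sub_im]
    ring
  rwa [e]

theorem GTripod_arg {z : ℂ} (h : 0 < z.im) : 0 < Complex.arg z ∧ Complex.arg z < π :=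
  ⟨(Complex.arg_nonneg_iff.2 h.le).lt_of_ne fun e => h.ne' (Complex.arg_eq_zero_iff.1 e.symm).2,
    Complex.arg_lt_pi_iff.2 (Or.inr h.ne')⟩

theorem GTripod_seg (h : O ∈ openSegment ℝ x y) (hxy : x ≠ y) : O - y ≠ 0 ∧
    cr (x - O) (y - O) = 0 ∧ ∃ r : ℝ, 0 < r ∧ (x - O) / (O - y) = r := by
  obtain ⟨t, h0, h1, rfl⟩ := mem_openSegment_iff'.1 h
  have h2 : y - x ≠ 0 := sub_ne_zero.2 hxy.symm
  have h3 : ((1 : ℂ) - t) ≠ 0 := by exact_mod_cast (sub_pos.2 h1).ne'
  have e : x + t * (y - x) - y = -((1 - t) * (y - x)) := by ring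
  refine ⟨?_, ?_, t / (1 - t), div_pos h0 (sub_pos.2 h1), ?_⟩
  · rw [e]
    exact neg_ne_zero.2 (mul_ne_zero h3 h2)
  · simp only [cr, Complex.sub_re, Complex.sub_im, Complex.add_re, Complex.add_im, Complex.mul_re,
      Complex.mul_im, Complex.ofReal_re, Complex.ofReal_im]
    ring
  · rw [e]
    push_cast
    field_simp
    ring

theorem Gt_sum (hO : O ∈ Lft [(a, b), (b, c), (c, a)]) :
    Gt g lam D₁ a b O + Gt g lam D₂ b c O + Gt g lam D₃ c a O =
      2 * π * g - (D₁ + D₂ + D₃) - lam * (cr (b - a) (c - a) / 2) := by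
  obtain ⟨n1, i1⟩ := GTripod_im (hO (a, b) (by simp))
  obtain ⟨n2, i2⟩ := GTripod_im (hO (b, c) (by simp))
  obtain ⟨n3, i3⟩ := GTripod_im (hO (c, a) (by simp))
  simp only at n1 n2 n3 i1 i2 i3
  have z : ∀ {w : ℂ}, 0 < w.im → w ≠ 0 := fun h e => by simp [e] at h
  have e : (a - O) / (O - b) * ((b - O) / (O - c)) * ((c - O) / (O - a)) = -1 := by
    field_simp
    ring
  have k := Complex.arg_mul_coe_angle (mul_ne_zero (z i1) (z i2)) (z i3)
  rw [e, Complex.arg_mul_coe_angle (z i1) (z i2), Complex.arg_neg_one, ← Real.Angle.coe_add,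
    ← Real.Angle.coe_add, Real.Angle.angle_eq_iff_two_pi_dvd_sub] at k
  obtain ⟨m, hm⟩ := k
  obtain ⟨a1, a2⟩ := GTripod_arg i1
  obtain ⟨a3, a4⟩ := GTripod_arg i2
  obtain ⟨a5, a6⟩ := GTripod_arg i3
  have m1 : (m : ℝ) < 1 := by (refine lt_of_not_ge fun h_nl => ?_; linarith only [h_nl, hm, a1, a2, a3, a5, pi_pos, mul_nonneg_of_nonpos_of_nonpos (le_of_lt (Mathlib.Tactic.Linarith.sub_neg_of_lt a1)) (Mathlib.Tactic.Linarith.sub_nonpos_of_le h_nl), mul_nonneg_of_nonpos_of_nonpos (le_of_lt (Mathlib.Tactic.Linarith.sub_neg_of_lt a2)) (Mathlib.Tactic.Linarith.sub_nonpos_of_le h_nl)])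
  have m2 : (-1 : ℝ) < m := by (refine lt_of_not_ge fun h_nl => ?_; linarith only [h_nl, hm, a2, a4, a6, a1, pi_pos, mul_nonneg_of_nonpos_of_nonpos (le_of_lt (Mathlib.Tactic.Linarith.sub_neg_of_lt a1)) (Mathlib.Tactic.Linarith.sub_nonpos_of_le h_nl), mul_nonneg_of_nonpos_of_nonpos (le_of_lt (Mathlib.Tactic.Linarith.sub_neg_of_lt a2)) (Mathlib.Tactic.Linarith.sub_nonpos_of_le h_nl)])
  have m3 : m = 0 := by
    have k1 : m < 1 := by exact_mod_cast m1
    have k2 : -1 < m := by exact_mod_cast m2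
    omega
  rw [m3, Int.cast_zero, mul_zero] at hm
  have k : cr (a - O) (b - O) + cr (b - O) (c - O) + cr (c - O) (a - O) = cr (b - a) (c - a) := by
    simp only [cr, Complex.sub_re, Complex.sub_im]
    ring
  unfold Gt
  linear_combination g * hm - lam / 2 * k

theorem Gt_contAt (hxy : x ≠ y) (h : 0 < cr (y - x) (O - x) ∨ O ∈ openSegment ℝ x y) :
    ContinuousAt (Gt g lam D x y) O := by
  have k : O - y ≠ 0 ∧ (x - O) / (O - y) ∈ Complex.slitPlane := by
    rcases h with h | h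
    · exact ⟨(GTripod_im h).1, Or.inr (GTripod_im h).2.ne'⟩
    · obtain ⟨h1, -, r, h2, h3⟩ := GTripod_seg h hxy
      exact ⟨h1, Or.inl (by rwa [h3, Complex.ofReal_re])⟩
  have k1 : ContinuousAt (fun O : ℂ => (x - O) / (O - y)) O :=
    ContinuousAt.div (by fun_prop) (by fun_prop) k.1
  have k2 : ContinuousAt (fun O : ℂ => Complex.arg ((x - O) / (O - y))) O :=
    ContinuousAt.comp (f := fun O : ℂ => (x - O) / (O - y)) (Complex.continuousAt_arg k.2) k1
  have k3 : Continuous fun O : ℂ => cr (x - O) (y - O) := continuous_cr (by fun_prop) (by fun_prop)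
  exact ((continuousAt_const.mul (continuousAt_const.sub k2)).sub continuousAt_const).sub
    (continuousAt_const.mul (k3.continuousAt.div_const 2))

theorem Gt_side (h : O ∈ openSegment ℝ x y) (hxy : x ≠ y) : Gt g lam D x y O = g * π - D := by
  obtain ⟨-, h1, r, h2, h3⟩ := GTripod_seg h hxy
  rw [Gt, h1, h3, Complex.arg_ofReal_of_nonneg h2.le]
  ring

/-- points of the triangle -/
noncomputable def GTripod_P (a b c : ℂ) (s t : ℝ) : ℂ :=
  a + ((t * (1 - s) : ℝ) : ℂ) * (b - a) + ((t * s : ℝ) : ℂ) * (c - a)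

theorem GTripod_cont {X : Type*} [TopologicalSpace X] {s t : X → ℝ} (hs : Continuous s)
    (ht : Continuous t) : Continuous fun z => GTripod_P a b c (s z) (t z) := by
  unfold GTripod_P
  fun_prop

theorem GTripod_cr (a b c : ℂ) (s t : ℝ) :
    cr (b - a) (GTripod_P a b c s t - a) = t * s * cr (b - a) (c - a) ∧
    cr (c - b) (GTripod_P a b c s t - b) = (1 - t) * cr (b - a) (c - a) ∧
    cr (a - c) (GTripod_P a b c s t - c) = t * (1 - s) * cr (b - a) (c - a) := by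
  simp only [GTripod_P, cr, Complex.sub_re, Complex.sub_im, Complex.add_re, Complex.add_im,
    Complex.mul_re, Complex.mul_im, Complex.ofReal_re, Complex.ofReal_im]
  refine ⟨?_, ?_, ?_⟩ <;> ring

theorem GTripod_a (s : ℝ) : GTripod_P a b c s 0 = a := by simp [GTripod_P]

theorem GTripod_b : GTripod_P a b c 0 1 = b := by simp [GTripod_P]

theorem GTripod_c : GTripod_P a b c 1 1 = c := by simp [GTripod_P]

theorem GTripod_ab {t : ℝ} (h0 : 0 < t) (h1 : t < 1) : GTripod_P a b c 0 t ∈ openSegment ℝ a b :=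
  mem_openSegment_iff'.2 ⟨t, h0, h1, by simp [GTripod_P]⟩

theorem GTripod_bc {s : ℝ} (h0 : 0 < s) (h1 : s < 1) : GTripod_P a b c s 1 ∈ openSegment ℝ b c :=
  mem_openSegment_iff'.2 ⟨s, h0, h1, by
    simp only [GTripod_P]
    push_cast
    ring⟩

theorem GTripod_ca {t : ℝ} (h0 : 0 < t) (h1 : t < 1) : GTripod_P a b c 1 t ∈ openSegment ℝ c a :=
  mem_openSegment_iff'.2 ⟨1 - t, by linarith, by linarith, by
    simp only [GTripod_P]
    push_cast
    ring⟩

theorem GTripod_ev {G : ℂ → ℝ} {s t : ℝ × ℝ → ℝ} (hs : Continuous s) (ht : Continuous t)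
    {z : ℝ × ℝ} (h : ContinuousAt G (GTripod_P a b c (s z) (t z))) :
    ContinuousAt (fun w => G (GTripod_P a b c (s w) (t w))) z :=
  ContinuousAt.comp (f := fun w => GTripod_P a b c (s w) (t w)) h (GTripod_cont hs ht).continuousAt

theorem GTripod_box {u f v : ℝ → ℝ → ℝ} {τ σ ρ : ℝ} (hτ : τ ≤ 1) (hσ : σ ≤ ρ)
    (cu : ContinuousOn (fun z : ℝ × ℝ => u z.1 z.2) (Icc σ ρ ×ˢ Icc τ 1))
    (cf : ContinuousOn (fun z : ℝ × ℝ => f z.1 z.2) (Icc σ ρ ×ˢ Icc τ 1))
    (cv : ContinuousOn (fun z : ℝ × ℝ => v z.1 z.2) (Icc σ ρ ×ˢ Icc τ 1))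
    (h1 : ∀ s ∈ Icc σ ρ, f s τ ≤ 0) (h2 : ∀ s ∈ Icc σ ρ, 0 ≤ f s 1)
    (h3 : ∀ t ∈ Icc τ 1, 0 < u σ t ∨ v σ t < 0) (h4 : ∀ t ∈ Icc τ 1, 0 < v ρ t ∨ u ρ t < 0) :
    ∃ s ∈ Icc σ ρ, ∃ t ∈ Icc τ 1, f s t = 0 ∧ (u s t + v s t = 0 → u s t = 0) := by
  let r : (Fin 2 → MP_a6a438_an.Iv) → Fin 2 → ℝ := fun x i => ((x i : ℝ) + 1) / 2
  have r0 : ∀ x i, 0 ≤ r x i ∧ r x i ≤ 1 := fun x i =>
    ⟨by simp only [r]; linarith only [(x i).2.1], by simp only [r]; linarith only [(x i).2.2]⟩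
  have rc : ∀ i, Continuous fun x => r x i := fun i => by
    simp only [r]
    fun_prop
  let Z : (Fin 2 → MP_a6a438_an.Iv) → ℝ × ℝ :=
    fun x => (σ + (ρ - σ) * r x 1, τ + (1 - τ) * r x 0)
  have Zc : Continuous Z := by
    have := rc 0
    have := rc 1
    simp only [Z]
    fun_prop
  have Zm : ∀ x, Z x ∈ Icc σ ρ ×ˢ Icc τ 1 := fun x => by
    obtain ⟨k1, k2⟩ := r0 x 0
    obtain ⟨k3, k4⟩ := r0 x 1
    refine ⟨⟨?_, ?_⟩, ?_, ?_⟩ <;> simp only [Z] <;> linarith only [hσ, k3, k4, hτ, k1, k2, mul_nonneg_of_nonpos_of_nonpos (Mathlib.Tactic.Linarith.sub_nonpos_of_le hσ) (Mathlib.Tactic.Linarith.sub_nonpos_of_le k3), mul_nonneg_of_nonpos_of_nonpos (Mathlib.Tactic.Linarith.sub_nonpos_of_le hσ) (Mathlib.Tactic.Linarith.sub_nonpos_of_le k4), mul_nonneg_of_nonpos_of_nonpos (Mathlib.Tactic.Linarith.sub_nonpos_of_le hτ) (Mathlib.Tactic.Linarith.sub_nonpos_of_le k1), mul_nonneg_of_nonpos_of_nonpos (Mathlib.Tactic.Linarith.sub_nonpos_of_le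 hτ) (Mathlib.Tactic.Linarith.sub_nonpos_of_le k2)]
  have c1 := cu.comp_continuous Zc Zm
  have c2 := cf.comp_continuous Zc Zm
  have c3 := cv.comp_continuous Zc Zm
  obtain ⟨x, hx⟩ := MP_a6a438_an.miranda_fin (n := 2)
    ![fun x => f (Z x).1 (Z x).2, fun x => -((1 - r x 1) * max (u (Z x).1 (Z x).2)
      (-v (Z x).1 (Z x).2) + r x 1 * min (u (Z x).1 (Z x).2) (-v (Z x).1 (Z x).2))]
    (Fin.forall_fin_two.2 ⟨c2, (((continuous_const.sub (rc 1)).mul (c1.max c3.neg)).add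
      ((rc 1).mul (c1.min c3.neg))).neg⟩)
    (Fin.forall_fin_two.2 ⟨fun x hx => by
      have e : (Z x).2 = 1 := by simp only [Z, r, hx]; ring
      change 0 ≤ f (Z x).1 (Z x).2
      rw [e]
      exact h2 _ (Zm x).1, fun x hx => by
      have e : (Z x).1 = ρ := by simp only [Z, r, hx]; ring
      have e' : r x 1 = 1 := by simp only [r, hx]; ring
      change 0 ≤ -((1 - r x 1) * max (u (Z x).1 (Z x).2)
        (-v (Z x).1 (Z x).2) + r x 1 * min (u (Z x).1 (Z x).2) (-v (Z x).1 (Z x).2))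
      rw [e, e', sub_self, zero_mul, zero_add, one_mul, neg_nonneg, min_le_iff]
      rcases h4 _ (Zm x).2 with k | k
      exacts [Or.inr (by linarith), Or.inl k.le]⟩)
    (Fin.forall_fin_two.2 ⟨fun x hx => by
      have e : (Z x).2 = τ := by simp only [Z, r, hx]; ring
      change f (Z x).1 (Z x).2 ≤ 0
      rw [e]
      exact h1 _ (Zm x).1, fun x hx => by
      have e : (Z x).1 = σ := by simp only [Z, r, hx]; ring
      have e' : r x 1 = 0 := by simp only [r, hx]; ring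
      change -((1 - r x 1) * max (u (Z x).1 (Z x).2)
        (-v (Z x).1 (Z x).2) + r x 1 * min (u (Z x).1 (Z x).2) (-v (Z x).1 (Z x).2)) ≤ 0
      rw [e, e', sub_zero, zero_mul, add_zero, one_mul, neg_nonpos, le_max_iff]
      rcases h3 _ (Zm x).2 with k | k
      exacts [Or.inl k.le, Or.inr (by linarith)]⟩)
  refine ⟨_, (Zm x).1, _, (Zm x).2, hx 0, fun e => ?_⟩
  have k : -((1 - r x 1) * max (u (Z x).1 (Z x).2)
      (-v (Z x).1 (Z x).2) + r x 1 * min (u (Z x).1 (Z x).2) (-v (Z x).1 (Z x).2)) = 0 := hx 1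
  have e' : -v (Z x).1 (Z x).2 = u (Z x).1 (Z x).2 := by linarith only [e]
  rw [e', max_self, min_self] at k
  linarith only [k]

theorem tripod (hc : 0 < cr (b - a) (c - a)) (h1 : D₁ < g * π) (h2 : D₂ < g * π)
    (h3 : D₃ < g * π) (hs : D₁ + D₂ + D₃ + lam * (cr (b - a) (c - a) / 2) = 2 * π * g)
    (ha : Gt g lam D₂ b c a < 0) (hb : Gt g lam D₃ c a b < 0) (hc' : Gt g lam D₁ a b c < 0) :
    ∃ O ∈ Lft [(a, b), (b, c), (c, a)],
      Gt g lam D₁ a b O = 0 ∧ Gt g lam D₂ b c O = 0 ∧ Gt g lam D₃ c a O = 0 := by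
  have nab : a ≠ b := fun e => by
    rw [e, sub_self, cr_zero_left] at hc
    exact lt_irrefl _ hc
  have nca : c ≠ a := fun e => by
    rw [e, sub_self, cr_zero_right] at hc
    exact lt_irrefl _ hc
  have nbc : b ≠ c := fun e => by
    rw [e, cr_self] at hc
    exact lt_irrefl _ hc
  have cu : ∀ s t : ℝ, 0 < s → 0 < t → ContinuousAt (Gt g lam D₁ a b) (GTripod_P a b c s t) :=
    fun s t k1 k2 => Gt_contAt nab (Or.inl (by rw [(GTripod_cr a b c s t).1]; positivity))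
  have cf : ∀ s t : ℝ, t < 1 → ContinuousAt (Gt g lam D₂ b c) (GTripod_P a b c s t) :=
    fun s t k1 => Gt_contAt nbc (Or.inl (by
      rw [(GTripod_cr a b c s t).2.1]
      exact mul_pos (sub_pos.2 k1) hc))
  have cv : ∀ s t : ℝ, s < 1 → 0 < t → ContinuousAt (Gt g lam D₃ c a) (GTripod_P a b c s t) :=
    fun s t k1 k2 => Gt_contAt nca (Or.inl (by
      rw [(GTripod_cr a b c s t).2.2]
      exact mul_pos (mul_pos k2 (sub_pos.2 k1)) hc))
  have e1 : ∀ᶠ t in 𝓝 (0 : ℝ), ∀ s ∈ Icc (0 : ℝ) 1, Gt g lam D₂ b c (GTripod_P a b c s t) < 0 :=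
    isCompact_Icc.eventually_forall_of_forall_eventually fun s _ =>
      (GTripod_ev continuous_snd continuous_fst (z := (0, s)) (cf s 0 one_pos)).eventually_lt
        continuousAt_const (by simpa only [GTripod_a] using ha)
  obtain ⟨τ, t1, t2, t3⟩ := ((e1.filter_mono nhdsWithin_le_nhds).and
    (Ioo_mem_nhdsGT (zero_lt_one' ℝ))).exists
  have e2 : ∀ᶠ s in 𝓝 (0 : ℝ), ∀ t ∈ Icc τ 1, 0 < Gt g lam D₁ a b (GTripod_P a b c s t) ∨
      Gt g lam D₃ c a (GTripod_P a b c s t) < 0 :=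
    isCompact_Icc.eventually_forall_of_forall_eventually fun t ht => by
      rcases ht.2.eq_or_lt with rfl | k
      · exact ((GTripod_ev continuous_fst continuous_snd (z := (0, 1))
          (cv 0 1 one_pos one_pos)).eventually_lt continuousAt_const
            (by simpa only [GTripod_b] using hb)).mono fun _ => Or.inr
      · have k1 := GTripod_ab (a := a) (b := b) (c := c) (t2.trans_le ht.1) k
        exact (continuousAt_const.eventually_lt (GTripod_ev continuous_fst continuous_snd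
          (z := (0, t)) (Gt_contAt nab (Or.inr k1))) (by
            simp only [Gt_side k1 nab]
            linarith only [h1])).mono fun _ => Or.inl
  have e3 : ∀ᶠ s in 𝓝 (1 : ℝ), ∀ t ∈ Icc τ 1, 0 < Gt g lam D₃ c a (GTripod_P a b c s t) ∨
      Gt g lam D₁ a b (GTripod_P a b c s t) < 0 :=
    isCompact_Icc.eventually_forall_of_forall_eventually fun t ht => by
      rcases ht.2.eq_or_lt with rfl | k
      · exact ((GTripod_ev continuous_fst continuous_snd (z := (1, 1))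
          (cu 1 1 one_pos one_pos)).eventually_lt continuousAt_const
            (by simpa only [GTripod_c] using hc')).mono fun _ => Or.inr
      · have k1 := GTripod_ca (a := a) (b := b) (c := c) (t2.trans_le ht.1) k
        exact (continuousAt_const.eventually_lt (GTripod_ev continuous_fst continuous_snd
          (z := (1, t)) (Gt_contAt nca (Or.inr k1))) (by
            simp only [Gt_side k1 nca]
            linarith only [h3])).mono fun _ => Or.inl
  obtain ⟨σ, s1, s2, s3⟩ := ((e2.filter_mono nhdsWithin_le_nhds).and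
    (Ioo_mem_nhdsGT (one_half_pos (α := ℝ)))).exists
  obtain ⟨ρ, r1, r2, r3⟩ := ((e3.filter_mono nhdsWithin_le_nhds).and
    (Ioo_mem_nhdsLT (one_half_lt_one (α := ℝ)))).exists
  have e4 : ∀ s ∈ Icc σ ρ, Gt g lam D₂ b c (GTripod_P a b c s 1) = g * π - D₂ := fun s hs =>
    Gt_side (GTripod_bc (s2.trans_le hs.1) (hs.2.trans_lt r3)) nbc
  obtain ⟨s, hs', t, ht, k1, k2⟩ := GTripod_box
    (u := fun s t => Gt g lam D₁ a b (GTripod_P a b c s t))
    (f := fun s t => Gt g lam D₂ b c (GTripod_P a b c s t))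
    (v := fun s t => Gt g lam D₃ c a (GTripod_P a b c s t)) t3.le (s3.trans r2).le
    (fun z hz => (GTripod_ev continuous_fst continuous_snd
      (cu _ _ (s2.trans_le hz.1.1) (t2.trans_le hz.2.1))).continuousWithinAt)
    (fun z hz => (GTripod_ev continuous_fst continuous_snd (by
      rcases hz.2.2.eq_or_lt with k | k
      · rw [k]
        exact Gt_contAt nbc (Or.inr (GTripod_bc (s2.trans_le hz.1.1) (hz.1.2.trans_lt r3)))
      · exact cf _ _ k)).continuousWithinAt)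
    (fun z hz => (GTripod_ev continuous_fst continuous_snd
      (cv _ _ (hz.1.2.trans_lt r3) (t2.trans_le hz.2.1))).continuousWithinAt)
    (fun s hs => (t1 s ⟨s2.le.trans hs.1, hs.2.trans r3.le⟩).le)
    (fun s hs => by
      simp only [e4 s hs]
      linarith only [h2]) s1 r1
  have k3 : t < 1 := ht.2.lt_of_ne fun e => by
    rw [e, e4 s hs'] at k1
    linarith only [h2, k1]
  have k4 := s2.trans_le hs'.1
  have k5 := sub_pos.2 (hs'.2.trans_lt r3)
  have k6 := t2.trans_le ht.1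
  have hO : GTripod_P a b c s t ∈ Lft [(a, b), (b, c), (c, a)] :=
    (mem_tri hc).2 ⟨t * (1 - s), t * s, mul_pos k6 k5, mul_pos k6 k4, by linarith only [k3], rfl⟩
  have k7 := Gt_sum (g := g) (lam := lam) (D₁ := D₁) (D₂ := D₂) (D₃ := D₃) hO
  have k8 := k2 (by linarith only [hs, k1, k7])
  exact ⟨_, hO, k8, k1, by linarith only [hs, k1, k7, k8]⟩

end Pool.Agent.Work.MP_267827_an.PS
end
end

-- merged part: Pool.Agent.Work.MP_267827_an.PS.AUp
section
-- merged part: Pool.Agent.Work.MP_267827_an.Bot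
section
/-! The bottom of the spectrum of the reference triangle. -/

set_option autoImplicit false

namespace Pool.Agent.Work.MP_267827_an

open MeasureTheory Set Filter Topology Metric Real

theorem Bot_open : IsOpen {p : ℝ × ℝ | p.1 < 0} := isOpen_lt continuous_fst continuous_const

theorem Bot_ds {G : ℝ × ℝ → ℝ} (hG : ContDiffOn ℝ 1 G {p | p.1 < 0}) {p : ℝ × ℝ} (hp : p.1 < 0)
    {d : ℝ} (h : HasDerivAt (fun s => G (s, p.2)) d p.1) : ds G p = d := by
  have h1 := ((hG.contDiffAt (Bot_open.mem_nhds hp)).differentiableAt one_ne_zero).hasFDerivAt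
  exact (h1.comp_hasDerivAt p.1 ((hasDerivAt_id p.1).prodMk (hasDerivAt_const p.1 p.2))).unique h

theorem Bot_dt {G : ℝ × ℝ → ℝ} (hG : ContDiffOn ℝ 1 G {p | p.1 < 0}) {p : ℝ × ℝ} (hp : p.1 < 0)
    {d : ℝ} (h : HasDerivAt (fun t => G (p.1, t)) d p.2) : dt G p = d := by
  have h1 := ((hG.contDiffAt (Bot_open.mem_nhds hp)).differentiableAt one_ne_zero).hasFDerivAt
  exact (h1.comp_hasDerivAt p.2 ((hasDerivAt_const p.2 p.1).prodMk (hasDerivAt_id p.2))).unique h

theorem Bot_V1 : V1 (fun σ => 1 - exp σ) (fun σ => -exp σ) :=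
  ⟨fun σ _ => (hasDerivAt_exp σ).const_sub 1, by fun_prop, 1, fun σ hσ => by
    have h1 := add_one_le_exp σ
    have h2 := exp_pos σ
    have h3 := exp_le_one_iff.2 hσ.le
    rw [abs_of_nonneg (by linarith), abs_of_neg hσ, abs_neg, abs_of_pos h2]
    exact ⟨by linarith, by linarith, by linarith⟩⟩

theorem Bot_int_exp (C : ℝ) : Integrable (fun p : ℝ × ℝ => C * exp (2 * p.1)) nu :=
  (int_fst (int_exp two_pos)).const_mul C

section
variable {β lam : ℝ} (hβ : 0 < β) (hβ1 : β ≤ 1 / 64)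

/-- the spectral inequality -/
def Bot_P (β lam : ℝ) (V : ℝ × ℝ → ℝ) : Prop :=
  lam * (π * β) * NW β 0 V ≤ π * β * Ds V + Dt V / (π * β)

include hβ hβ1 in
theorem Bot_NW {ι : Type} {l : Filter ι} [l.IsCountablyGenerated] {G : ι → ℝ × ℝ → ℝ}
    {V : ℝ × ℝ → ℝ} {K : ℝ} (hG : ∀ᶠ k in l, VV (G k) ∧ ∀ p : ℝ × ℝ, p.1 < 0 →
      p.2 ∈ Ioo (0 : ℝ) 1 → |G k p| ≤ K ∧ |G k p| ≤ K * |p.1|)
    (h : ∀ p : ℝ × ℝ, p.1 < 0 → p.2 ∈ Ioo (0 : ℝ) 1 → Tendsto (fun k => G k p) l (𝓝 (V p))) :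
    Tendsto (fun k => NW β 0 (G k)) l (𝓝 (NW β 0 V)) := by
  refine tendsto_integral_filter_of_dominated_convergence _
    (hG.mono fun k hk => (hk.1.int_W2 hβ hβ1 (by norm_num)).1) (hG.mono fun k hk =>
      ae_nu fun p h1 h2 => ?_)
    (((Bot_V1.toVV.1.smul (2 * K)).1.int_W2 (b := 0) hβ hβ1 (by norm_num)))
    (ae_nu fun p h1 h2 => ((h p h1 h2).pow 2).const_mul _)
  have w : 0 < exp (2 * p.1) * WW β 0 p := mul_pos (exp_pos _) (exp_pos _)
  rw [Real.norm_of_nonneg (by positivity)]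
  refine mul_le_mul_of_nonneg_left (sq_le_sq.2 ((le_abs_self _).trans' ?_)) w.le
  obtain ⟨a1, a2⟩ := hk.2 p h1 h2
  rw [abs_of_neg h1] at a2
  have K0 := (abs_nonneg _).trans a1
  have e1 : exp p.1 * (1 - p.1) ≤ 1 := by
    have := add_one_le_exp (-p.1)
    have e : exp p.1 * exp (-p.1) = 1 := by rw [← exp_add]; simp
    (refine le_of_not_gt fun h_nl => ?_; linarith only [h_nl, this, e, hβ, hβ1, h1, exp_pos p.1, mul_pos_of_neg_of_neg (Mathlib.Tactic.Linarith.sub_neg_of_lt hβ) (Mathlib.Tactic.Linarith.sub_neg_of_lt h_nl), mul_nonneg_of_nonpos_of_nonpos (Mathlib.Tactic.Linarith.sub_nonpos_of_le hβ1) (le_of_lt (Mathlib.Tactic.Linarith.sub_neg_of_lt h_nl)), Mathlib.Tactic.Linarith.mul_zero_eq (Mathlib.Tactic.Linarith.sub_neg_of_lt h1) (sub_eq_zero_of_eq e), mul_pos_of_neg_of_neg (Mathlib.Tactic.Linarith.sub_neg_of_lt h1) (Mathlib.Tactic.Linarith.sub_neg_of_lt h_nl), mul_nonneg_of_nonpos_of_nonpos (Mathlib.Tactic.Linarith.sub_nonpos_of_le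 this) (le_of_lt (Mathlib.Tactic.Linarith.sub_neg_of_lt h_nl))])
  refine le_of_mul_le_mul_right (a := 1 - p.1) ?_ (by linarith only [hβ, hβ1, h1])
  (refine le_of_not_gt fun h_nl => ?_; linarith only [h_nl, a2, hβ, hβ1, h1, a1, K0, e1, mul_pos_of_neg_of_neg (Mathlib.Tactic.Linarith.sub_neg_of_lt hβ) (Mathlib.Tactic.Linarith.sub_neg_of_lt h_nl), mul_nonneg_of_nonpos_of_nonpos (Mathlib.Tactic.Linarith.sub_nonpos_of_le hβ1) (le_of_lt (Mathlib.Tactic.Linarith.sub_neg_of_lt h_nl)), mul_nonneg_of_nonpos_of_nonpos (le_of_lt (Mathlib.Tactic.Linarith.sub_neg_of_lt h1)) (Mathlib.Tactic.Linarith.sub_nonpos_of_le a1), mul_nonneg_of_nonpos_of_nonpos (Mathlib.Tactic.Linarith.sub_nonpos_of_le K0) (Mathlib.Tactic.Linarith.sub_nonpos_of_le e1)])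

include hβ in
theorem Bot_lim {ι : Type} {l : Filter ι} [l.NeBot] {G : ι → ℝ × ℝ → ℝ} {a b : ι → ℝ}
    {n a₀ b₀ : ℝ} (hG : ∀ᶠ k in l, Bot_P β lam (G k) ∧ Ds (G k) ≤ a k ∧ Dt (G k) ≤ b k)
    (hn : Tendsto (fun k => NW β 0 (G k)) l (𝓝 n)) (ha : Tendsto a l (𝓝 a₀))
    (hb : Tendsto b l (𝓝 b₀)) : lam * (π * β) * n ≤ π * β * a₀ + b₀ / (π * β) := by
  have θ : 0 < π * β := mul_pos pi_pos hβ
  refine le_of_tendsto_of_tendsto (hn.const_mul _) ((ha.const_mul _).add (hb.div_const _))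
    (hG.mono fun k hk => hk.1.trans ?_)
  exact add_le_add (mul_le_mul_of_nonneg_left hk.2.1 θ.le) (div_le_div_of_nonneg_right hk.2.2 θ.le)

theorem Bot_chi : ∃ (χ χ' : ℝ → ℝ) (C : ℝ), ContDiff ℝ 1 χ ∧ (∀ x, HasDerivAt χ (χ' x) x) ∧
    (∀ x, 0 ≤ χ x ∧ χ x ≤ 1) ∧ (∀ x, x < 1 → χ x = 0 ∧ χ' x = 0) ∧
    (∀ x, 2 < x → χ x = 1 ∧ χ' x = 0) ∧ ∀ x, |x * χ' x| ≤ C := by
  let χ : ℝ → ℝ := fun x => smoothTransition (x - 1)
  have c : ContDiff ℝ 1 χ := smoothTransition.contDiff.comp (by fun_prop)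
  have h0 : ∀ x, x < 1 → χ x = 0 ∧ deriv χ x = 0 := fun x hx =>
    ⟨smoothTransition.zero_of_nonpos (by linarith), by
      rw [(show χ =ᶠ[𝓝 x] fun _ => 0 from (Iio_mem_nhds hx : Iio 1 ∈ 𝓝 x) |> mem_of_superset <|
        fun y (hy : y < 1) => smoothTransition.zero_of_nonpos (by linarith)).deriv_eq]
      simp⟩
  have h1 : ∀ x, 2 < x → χ x = 1 ∧ deriv χ x = 0 := fun x hx =>
    ⟨smoothTransition.one_of_one_le (by linarith), by
      rw [(show χ =ᶠ[𝓝 x] fun _ => 1 from (Ioi_mem_nhds hx : Ioi 2 ∈ 𝓝 x) |> mem_of_superset <|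
        fun y (hy : 2 < y) => smoothTransition.one_of_one_le (by linarith)).deriv_eq]
      simp⟩
  obtain ⟨C, hC⟩ := (isCompact_Icc (a := (1 : ℝ)) (b := 2)).exists_bound_of_continuousOn
    (f := fun x => x * deriv χ x) (continuous_id.mul (c.continuous_deriv le_rfl)).continuousOn
  refine ⟨χ, deriv χ, C, c, fun x => (c.differentiable one_ne_zero x).hasDerivAt,
    fun x => ⟨smoothTransition.nonneg _, smoothTransition.le_one _⟩, h0, h1, fun x => ?_⟩
  have C0 : 0 ≤ C := (norm_nonneg _).trans (hC 1 ⟨le_rfl, by norm_num⟩)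
  rcases lt_or_ge x 1 with e | e
  · simpa [(h0 x e).2] using C0
  rcases lt_or_ge 2 x with e' | e'
  · simpa [(h1 x e').2] using C0
  · exact hC x ⟨e, e'⟩

theorem Bot_cut : ∃ (c c' : ℝ → ℝ → ℝ) (C : ℝ), (∀ k, 0 < k → ContDiff ℝ 1 (c k) ∧
    (∀ x, HasDerivAt (c k) (c' k x) x) ∧ (∀ x, |c k x| ≤ 1 ∧ |c' k x| * |x| ≤ C) ∧
    (∀ x, x < -(2 * k) → c k x = 0 ∧ c' k x = 0) ∧ ∀ x, -k⁻¹ < x → c k x = 0) ∧
    ∀ x, x < 0 → ∀ᶠ k in atTop, c k x = 1 ∧ c' k x = 0 := by
  obtain ⟨χ, χ', C, h1, h2, h3, h4, h5, h6⟩ := Bot_chi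
  refine ⟨fun k x => χ (-k * x) * (1 - χ (-k⁻¹ * x)), fun k x =>
    χ' (-k * x) * (-k) * (1 - χ (-k⁻¹ * x)) + χ (-k * x) * (-(χ' (-k⁻¹ * x) * (-k⁻¹))), 2 * C,
    fun k hk => ⟨by fun_prop, fun x => ?_, fun x => ⟨?_, ?_⟩, fun x hx => ?_, fun x hx => ?_⟩,
    fun x hx => ?_⟩
  · exact ((h2 _).comp x (hasDerivAt_const_mul (-k))).mul
      (((h2 _).comp x (hasDerivAt_const_mul (-k⁻¹))).const_sub 1)
  · have := h3 (-k * x)
    have := h3 (-k⁻¹ * x)
    rw [abs_le]
    constructor <;> nlinarith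
  · have a1 := h3 (-k * x)
    have a2 := h3 (-k⁻¹ * x)
    have a3 := abs_le.1 (h6 (-k * x))
    have a4 := abs_le.1 (h6 (-k⁻¹ * x))
    rw [← abs_mul, abs_le]
    constructor <;> linarith only [a3, a1, a4, a2, mul_nonneg_of_nonpos_of_nonpos (Mathlib.Tactic.Linarith.sub_nonpos_of_le a1.left) (Mathlib.Tactic.Linarith.sub_nonpos_of_le a4.right), mul_nonneg_of_nonpos_of_nonpos (Mathlib.Tactic.Linarith.sub_nonpos_of_le a1.right) (Mathlib.Tactic.Linarith.sub_nonpos_of_le a3.left), mul_nonneg_of_nonpos_of_nonpos (Mathlib.Tactic.Linarith.sub_nonpos_of_le a1.right) (Mathlib.Tactic.Linarith.sub_nonpos_of_le a3.right), mul_nonneg_of_nonpos_of_nonpos (Mathlib.Tactic.Linarith.sub_nonpos_of_le a2.left) (Mathlib.Tactic.Linarith.sub_nonpos_of_le a3.right), mul_nonneg_of_nonpos_of_nonpos (Mathlib.Tactic.Linarith.sub_nonpos_of_le a2.right) (Mathlib.Tactic.Linarith.sub_nonpos_of_le a3.left), mul_nonneg_of_nonpos_of_nonpos (Mathlib.Tactic.Linarith.sub_nonpos_of_le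 a1.left) (Mathlib.Tactic.Linarith.sub_nonpos_of_le a4.left), mul_nonneg_of_nonpos_of_nonpos (Mathlib.Tactic.Linarith.sub_nonpos_of_le a2.left) (Mathlib.Tactic.Linarith.sub_nonpos_of_le a3.left), mul_nonneg_of_nonpos_of_nonpos (Mathlib.Tactic.Linarith.sub_nonpos_of_le a2.right) (Mathlib.Tactic.Linarith.sub_nonpos_of_le a3.right)]
  · have : 2 < -k⁻¹ * x := by
      rw [neg_mul, ← mul_neg, lt_inv_mul_iff₀ hk]
      linarith
    simp only [h5 _ this]
    simp
  · have : -k * x < 1 := by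
      have := mul_lt_mul_of_pos_left hx hk
      rw [mul_neg, mul_inv_cancel₀ hk.ne'] at this
      linarith
    simp [(h4 _ this).1, -neg_mul]
  · filter_upwards [eventually_gt_atTop (2 / -x), eventually_gt_atTop (-x)] with k k1 k2
    have k0 : 0 < k := by linarith only [hx, k2]
    have a1 : 2 < -k * x := by
      rw [div_lt_iff₀ (by linarith only [hx])] at k1
      linarith
    have a2 : -k⁻¹ * x < 1 := by
      rw [neg_mul, ← mul_neg, inv_mul_lt_iff₀ k0]
      linarith only [k2]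
    simp only [h5 _ a1, h4 _ a2]
    simp

include hβ hβ1 in
theorem Bot_A {V : ℝ × ℝ → ℝ} (h : VV V) (per : ∀ σ t, V (σ, t + 1) = V (σ, t))
    (even : ∀ σ t, V (σ, 1 - t) = V (σ, t)) : ∃ G : ℝ → ℝ × ℝ → ℝ,
      (∀ᶠ k in atTop, VC (G k) ∧ Dt (G k) ≤ Dt V) ∧
      Tendsto (fun k => NW β 0 (G k)) atTop (𝓝 (NW β 0 V)) ∧
      Tendsto (fun k => Ds (G k)) atTop (𝓝 (Ds V)) := by
  obtain ⟨c, c', C, h1, h2⟩ := Bot_cut
  obtain ⟨K, K0, hK⟩ := h.bd'
  have C0 : 0 ≤ C := le_trans (by positivity) ((h1 1 one_pos).2.2.1 0).2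
  have a1 : ∀ k, 0 < k → ContDiffOn ℝ 1 (fun p : ℝ × ℝ => c k p.1 * V p) {p | p.1 < 0} :=
    fun k hk => ((h1 k hk).1.comp contDiff_fst).contDiffOn.mul h.c1
  have a2 : ∀ k, 0 < k → ∀ p : ℝ × ℝ, p.1 < 0 →
      ds (fun p : ℝ × ℝ => c k p.1 * V p) p = c' k p.1 * V p + c k p.1 * ds V p :=
    fun k hk p hp => Bot_ds (a1 k hk) hp (((h1 k hk).2.1 p.1).mul (h.der_s hp p.2))
  have a3 : ∀ k, 0 < k → ∀ p : ℝ × ℝ, p.1 < 0 →
      dt (fun p : ℝ × ℝ => c k p.1 * V p) p = c k p.1 * dt V p :=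
    fun k hk p hp => Bot_dt (a1 k hk) hp ((h.der_t hp p.2).const_mul (c k p.1))
  have a4 : ∀ k, 0 < k → ∀ x y : ℝ, |c k x * y| ≤ |y| := fun k hk x y => by
    rw [abs_mul]
    exact mul_le_of_le_one_left (abs_nonneg _) ((h1 k hk).2.2.1 x).1
  have a5 : ∀ k, 0 < k → VV fun p : ℝ × ℝ => c k p.1 * V p := fun k hk => by
    refine ⟨a1 k hk, K + C * K * exp (2 * k), fun p hp ht => ?_⟩
    obtain ⟨b1, b2, b3, b4⟩ := hK p hp ht
    have b5 : 0 ≤ C * K * exp (2 * k) := by positivity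
    have b6 : |c' k p.1 * V p| ≤ C * K * exp (2 * k) * exp p.1 := by
      rcases lt_or_ge p.1 (-(2 * k)) with e | e
      · rw [((h1 k hk).2.2.2.1 _ e).2, zero_mul, abs_zero]
        positivity
      · rw [abs_mul, mul_assoc, ← exp_add]
        calc _ ≤ |c' k p.1| * (K * |p.1|) := mul_le_mul_of_nonneg_left b2 (abs_nonneg _)
          _ = |c' k p.1| * |p.1| * K := by ring
          _ ≤ C * K := mul_le_mul_of_nonneg_right ((h1 k hk).2.2.1 _).2 K0
          _ ≤ _ := le_mul_of_one_le_right (by positivity) (one_le_exp (by linarith only [e]))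
    rw [a2 k hk p hp, a3 k hk p hp]
    refine ⟨(a4 k hk _ _).trans (by linarith only [b1, b5]), (a4 k hk _ _).trans ?_, (abs_add_le _ _).trans ?_,
      (a4 k hk _ _).trans ?_⟩
    · (refine le_of_not_gt fun h_nl => ?_; linarith only [h_nl, b2, hβ, hβ1, b5, abs_nonneg p.1, mul_pos_of_neg_of_neg (Mathlib.Tactic.Linarith.sub_neg_of_lt hβ) (Mathlib.Tactic.Linarith.sub_neg_of_lt h_nl), mul_nonneg_of_nonpos_of_nonpos (Mathlib.Tactic.Linarith.sub_nonpos_of_le hβ1) (le_of_lt (Mathlib.Tactic.Linarith.sub_neg_of_lt h_nl)), mul_nonneg_of_nonpos_of_nonpos (Mathlib.Tactic.Linarith.sub_nonpos_of_le b5) (Mathlib.Tactic.Linarith.sub_nonpos_of_le (abs_nonneg p.1))])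
    · linarith only [b3, b6, a4, hk, a4 k hk p.1 (ds V p)]
    · (refine le_of_not_gt fun h_nl => ?_; linarith only [h_nl, b4, hβ, hβ1, b5, exp_pos p.1, mul_pos_of_neg_of_neg (Mathlib.Tactic.Linarith.sub_neg_of_lt hβ) (Mathlib.Tactic.Linarith.sub_neg_of_lt h_nl), mul_nonneg_of_nonpos_of_nonpos (Mathlib.Tactic.Linarith.sub_nonpos_of_le hβ1) (le_of_lt (Mathlib.Tactic.Linarith.sub_neg_of_lt h_nl)), mul_nonneg_of_nonpos_of_nonpos (Mathlib.Tactic.Linarith.sub_nonpos_of_le b5) (le_of_lt (Mathlib.Tactic.Linarith.sub_neg_of_lt (exp_pos p.1)))])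
  refine ⟨fun k p => c k p.1 * V p, (eventually_gt_atTop 0).mono fun k hk =>
    ⟨⟨a5 k hk, fun σ t => by simp only [per], fun σ t => by simp only [even], -(2 * k), -k⁻¹,
      by simpa using hk, fun p _ hp => ⟨not_lt.1 fun e => hp ?_, not_lt.1 fun e => hp ?_⟩⟩, ?_⟩,
    Bot_NW hβ hβ1 (K := K) ((eventually_gt_atTop 0).mono fun k hk => ⟨a5 k hk, fun p hp ht =>
      ⟨(a4 k hk _ _).trans (hK p hp (Ioo_subset_Icc_self ht)).1,
        (a4 k hk _ _).trans (hK p hp (Ioo_subset_Icc_self ht)).2.1⟩⟩) fun p hp _ =>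
      tendsto_const_nhds.congr' ((h2 p.1 hp).mono fun k hk => by simp only [hk.1, one_mul]), ?_⟩
  · simp only [((h1 k hk).2.2.2.1 _ e).1, zero_mul]
  · simp only [(h1 k hk).2.2.2.2 _ e, zero_mul]
  · refine integral_mono_ae (a5 k hk).int_t h.int_t (ae_nu fun p hp _ => ?_)
    simp only [a3 k hk p hp]
    exact sq_le_sq.2 (a4 k hk _ _)
  · refine tendsto_integral_filter_of_dominated_convergence _
      ((eventually_gt_atTop 0).mono fun k hk => (a5 k hk).int_s.1)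
      ((eventually_gt_atTop 0).mono fun k hk => ae_nu fun p hp _ => ?_)
      ((h.int_H.const_mul (2 * C ^ 2)).add (h.int_s.const_mul 2)) (ae_nu fun p hp _ =>
        tendsto_const_nhds.congr' ?_)
    · have b1 := sq_le_sq.2 (a4 k hk p.1 (ds V p))
      have b2 := pow_le_pow_left₀ (by positivity) ((h1 k hk).2.2.1 p.1).2 2
      have b3 : 0 < p.1 ^ 2 := by have := hp.ne; positivity
      rw [mul_pow, sq_abs, sq_abs, ← le_div_iff₀ b3, div_eq_mul_inv] at b2
      have b4 := mul_le_mul_of_nonneg_right b2 (sq_nonneg (V p))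
      rw [Real.norm_of_nonneg (sq_nonneg _), a2 k hk p hp]
      simp only [Pi.add_apply]
      linarith only [b1, b4, sq_nonneg (c' k p.1 * V p - c k p.1 * ds V p), sq_nonneg (c' k p.1 * V p - c k p.1 * ds V p)]
    · filter_upwards [h2 p.1 hp, eventually_gt_atTop 0] with k hk k0
      rw [a2 k k0 p hp, hk.1, hk.2]
      ring

theorem Bot_tau : ∃ τ τ' : ℝ → ℝ → ℝ, (∀ r ∈ Ioo (0 : ℝ) 1, ContDiff ℝ 1 (τ r) ∧
    (∀ t, HasDerivAt (τ r) (τ' r t) t ∧ |τ' r t| ≤ 1 ∧ τ r t ∈ Icc (0 : ℝ) 1 ∧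
      τ r (t + 1) = 1 - τ r t ∧ τ r (1 - t) = 1 - τ r t)) ∧
    ∀ t ∈ Ioo (0 : ℝ) 1, Tendsto (fun r => τ r t) (𝓝[<] 1) (𝓝 t) := by
  refine ⟨fun r t => 1 / 2 - arcsin (r * cos (π * t)) / π, fun r t =>
    -(1 / √(1 - (r * cos (π * t)) ^ 2) * (r * (-sin (π * t) * π)) / π), fun r hr => ?_,
    fun t ht => ?_⟩
  · have a : ∀ t, |r * cos (π * t)| < 1 := fun t => by
      rw [abs_mul, abs_of_pos hr.1]
      exact (mul_le_of_le_one_right hr.1.le (abs_cos_le_one _)).trans_lt hr.2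
    refine ⟨contDiff_iff_contDiffAt.2 fun t => contDiffAt_const.sub (ContDiffAt.div_const
      (ContDiffAt.comp (g := arcsin) (f := fun t => r * cos (π * t)) t
        (contDiffAt_arcsin (abs_lt.1 (a t)).1.ne' (abs_lt.1 (a t)).2.ne) (by fun_prop)) _),
      fun t => ⟨?_, ?_, ?_, ?_, ?_⟩⟩
    · exact (((hasDerivAt_arcsin (abs_lt.1 (a t)).1.ne' (abs_lt.1 (a t)).2.ne).comp t
        (((hasDerivAt_cos _).comp t (hasDerivAt_const_mul π)).const_mul r)).div_const π).const_sub _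
    · have b : 0 < 1 - (r * cos (π * t)) ^ 2 := by
        have := abs_lt.1 (a t)
        linarith only [this, mul_pos_of_neg_of_neg (Mathlib.Tactic.Linarith.sub_neg_of_lt this.left) (Mathlib.Tactic.Linarith.sub_neg_of_lt this.right)]
      have b' := sqrt_pos.2 b
      beta_reduce
      rw [show -(1 / √(1 - (r * cos (π * t)) ^ 2) * (r * (-sin (π * t) * π)) / π) =
        r * sin (π * t) / √(1 - (r * cos (π * t)) ^ 2) by field_simp, abs_div, abs_of_pos b',
        div_le_one b']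
      refine abs_le_sqrt ?_
      have := pow_le_one₀ (n := 2) hr.1.le hr.2.le
      rw [mul_pow, mul_pow, sin_sq]
      linarith
    · have b1 := arcsin_le_pi_div_two (r * cos (π * t))
      have b2 := neg_pi_div_two_le_arcsin (r * cos (π * t))
      constructor
      · rw [sub_nonneg, div_le_iff₀ pi_pos]
        linarith only [b1]
      · rw [sub_le_comm, le_div_iff₀ pi_pos]
        linarith only [b2]
    · simp only [mul_add, mul_one, cos_add_pi, mul_neg, arcsin_neg]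
      ring
    · simp only [mul_sub, mul_one, cos_pi_sub, mul_neg, arcsin_neg]
      ring
  · have c : Continuous fun r : ℝ => 1 / 2 - arcsin (r * cos (π * t)) / π :=
      continuous_const.sub ((continuous_arcsin.comp (by fun_prop)).div_const _)
    refine tendsto_nhdsWithin_of_tendsto_nhds (c.tendsto' 1 t ?_)
    have := pi_pos
    rw [one_mul, arcsin_eq_pi_div_two_sub_arccos, arccos_cos (by nlinarith [ht.1])
      (by nlinarith [ht.2])]
    field_simp
    ring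

include hβ hβ1 in
theorem Bot_B (H : ∀ V, VV V → (∀ σ t, V (σ, t + 1) = V (σ, t)) →
    (∀ σ t, V (σ, 1 - t) = V (σ, t)) → Bot_P β lam V) {V : ℝ × ℝ → ℝ} (h : VV V)
    (even : ∀ σ t, V (σ, 1 - t) = V (σ, t)) : Bot_P β lam V := by
  obtain ⟨τ, τ', h1, h2⟩ := Bot_tau
  obtain ⟨K, K0, hK⟩ := h.bd'
  have ev : ∀ᶠ r in 𝓝[<] (1 : ℝ), r ∈ Ioo (0 : ℝ) 1 := Ioo_mem_nhdsLT one_pos
  have a0 : ∀ r ∈ Ioo (0 : ℝ) 1, ContDiff ℝ 1 fun p : ℝ × ℝ => (p.1, τ r p.2) :=
    fun r hr => contDiff_fst.prodMk ((h1 r hr).1.comp contDiff_snd)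
  have a1 : ∀ r ∈ Ioo (0 : ℝ) 1, ContDiffOn ℝ 1 (fun p : ℝ × ℝ => V (p.1, τ r p.2))
      {p | p.1 < 0} := fun r hr => h.c1.comp (a0 r hr).contDiffOn fun _ hp => hp
  have a2 : ∀ r ∈ Ioo (0 : ℝ) 1, ∀ p : ℝ × ℝ, p.1 < 0 →
      ds (fun p : ℝ × ℝ => V (p.1, τ r p.2)) p = ds V (p.1, τ r p.2) :=
    fun r hr p hp => Bot_ds (a1 r hr) hp (h.der_s hp (τ r p.2))
  have a3 : ∀ r ∈ Ioo (0 : ℝ) 1, ∀ p : ℝ × ℝ, p.1 < 0 →
      |dt (fun p : ℝ × ℝ => V (p.1, τ r p.2)) p| ≤ |dt V (p.1, τ r p.2)| := fun r hr p hp => by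
    rw [Bot_dt (a1 r hr) hp ((h.der_t hp _).comp p.2 ((h1 r hr).2 p.2).1), abs_mul]
    exact mul_le_of_le_one_right (abs_nonneg _) ((h1 r hr).2 p.2).2.1
  have a4 : ∀ r ∈ Ioo (0 : ℝ) 1, ∀ p : ℝ × ℝ, p.1 < 0 → _ := fun r hr p hp =>
    hK (p.1, τ r p.2) hp ((h1 r hr).2 p.2).2.2.1
  have a5 : ∀ r ∈ Ioo (0 : ℝ) 1, VV fun p : ℝ × ℝ => V (p.1, τ r p.2) := fun r hr =>
    ⟨a1 r hr, K, fun p hp _ => ⟨(a4 r hr p hp).1, (a4 r hr p hp).2.1,
      a2 r hr p hp ▸ (a4 r hr p hp).2.2.1, (a3 r hr p hp).trans (a4 r hr p hp).2.2.2⟩⟩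
  have lim : ∀ {F : ℝ × ℝ → ℝ}, ContinuousOn F {p | p.1 < 0} → ∀ p : ℝ × ℝ, p.1 < 0 →
      p.2 ∈ Ioo (0 : ℝ) 1 → Tendsto (fun r => F (p.1, τ r p.2)) (𝓝[<] 1) (𝓝 (F p)) :=
    fun hF p hp ht => (hF.continuousAt (Bot_open.mem_nhds hp)).tendsto.comp
      (tendsto_const_nhds.prodMk_nhds (h2 p.2 ht))
  have dom : ∀ {F : ℝ × ℝ → ℝ}, ContinuousOn F {p | p.1 < 0} → (∀ r ∈ Ioo (0 : ℝ) 1, ∀ p : ℝ × ℝ,
      p.1 < 0 → |F (p.1, τ r p.2)| ≤ K * exp p.1) →
      (∀ r ∈ Ioo (0 : ℝ) 1, Integrable (fun p : ℝ × ℝ => F (p.1, τ r p.2) ^ 2) nu) ∧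
      Tendsto (fun r => ∫ p, F (p.1, τ r p.2) ^ 2 ∂nu) (𝓝[<] 1) (𝓝 (∫ p, F p ^ 2 ∂nu)) :=
    fun {F} hF hb => by
      have m : ∀ r ∈ Ioo (0 : ℝ) 1, AEStronglyMeasurable
          (fun p : ℝ × ℝ => F (p.1, τ r p.2) ^ 2) nu := fun r hr =>
        meas_nu ((hF.comp (a0 r hr).continuous.continuousOn fun _ hp => hp).pow 2)
      have b : ∀ r ∈ Ioo (0 : ℝ) 1, ∀ᵐ p ∂nu, ‖F (p.1, τ r p.2) ^ 2‖ ≤ K ^ 2 * exp (2 * p.1) :=
        fun r hr => ae_nu fun p hp _ => by
          rw [Real.norm_of_nonneg (sq_nonneg _), ← exp_sq, ← mul_pow, ← sq_abs]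
          exact pow_le_pow_left₀ (abs_nonneg _) (hb r hr p hp) 2
      exact ⟨fun r hr => (Bot_int_exp _).mono' (m r hr) (b r hr),
        tendsto_integral_filter_of_dominated_convergence _ (ev.mono m) (ev.mono b) (Bot_int_exp _)
          (ae_nu fun p hp ht => (lim hF p hp ht).pow 2)⟩
  have d1 := dom h.cont_ds fun r hr p hp => (a4 r hr p hp).2.2.1
  have d2 := dom h.cont_dt fun r hr p hp => (a4 r hr p hp).2.2.2
  refine Bot_lim hβ (G := fun r p => V (p.1, τ r p.2)) (ev.mono fun r hr =>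
    ⟨H _ (a5 r hr) (fun σ t => ?_) fun σ t => ?_, le_of_eq ?_, ?_⟩) (Bot_NW hβ hβ1 (K := K)
      (ev.mono fun r hr => ⟨a5 r hr, fun p hp _ => ⟨(a4 r hr p hp).1, (a4 r hr p hp).2.1⟩⟩)
      (lim h.cont)) d1.2 d2.2
  · simp only [((h1 r hr).2 t).2.2.2.1, even]
  · simp only [((h1 r hr).2 t).2.2.2.2, even]
  · exact integral_congr_ae (ae_nu fun p hp _ => by simp only [a2 r hr p hp])
  · exact integral_mono_ae (a5 r hr).int_t (d2.1 r hr)
      (ae_nu fun p hp _ => sq_le_sq.2 (a3 r hr p hp))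

theorem Bot_cs {x y a b e : ℝ} (he : 0 < e) :
    ((2 * x * a + 2 * y * b) / 2 / (2 * √((x ^ 2 + y ^ 2) / 2 + e ^ 2))) ^ 2 ≤
      (a ^ 2 + b ^ 2) / 2 := by
  have h : 0 < (x ^ 2 + y ^ 2) / 2 + e ^ 2 := by positivity
  rw [div_pow, mul_pow, sq_sqrt h.le, div_le_iff₀ (by positivity)]
  linarith only [sq_nonneg (x * b - y * a), mul_nonneg (sq_nonneg e) (add_nonneg (sq_nonneg a)
    (sq_nonneg b)), sq_nonneg (x * b - y * a), sq_nonneg e, sq_nonneg a, sq_nonneg b]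

theorem Bot_le {x y z K : ℝ} (h : z ^ 2 ≤ (x ^ 2 + y ^ 2) / 2) (hx : |x| ≤ K) (hy : |y| ≤ K) :
    |z| ≤ K := by
  have := pow_le_pow_left₀ (abs_nonneg _) hx 2
  have := pow_le_pow_left₀ (abs_nonneg _) hy 2
  refine abs_le_of_sq_le_sq ?_ ((abs_nonneg _).trans hx)
  rw [sq_abs] at *
  linarith

include hβ hβ1 in
theorem Bot_C (H : ∀ V, VV V → (∀ σ t, V (σ, 1 - t) = V (σ, t)) → Bot_P β lam V)
    {V : ℝ × ℝ → ℝ} (h : VV V) : Bot_P β lam V := by
  obtain ⟨K, K0, hK⟩ := h.bd'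
  have hK' : ∀ p : ℝ × ℝ, p.1 < 0 → p.2 ∈ Icc (0 : ℝ) 1 → _ := fun p hp ht =>
    hK (p.1, 1 - p.2) hp ⟨by linarith only [ht, ht.2], by linarith [ht.1]⟩
  let F : ℝ → ℝ × ℝ → ℝ := fun e p => √((V p ^ 2 + V (p.1, 1 - p.2) ^ 2) / 2 + e ^ 2) - e
  have r1 : ContDiffOn ℝ 1 (fun p : ℝ × ℝ => V (p.1, 1 - p.2)) {p | p.1 < 0} :=
    h.c1.comp (by fun_prop) fun _ hp => hp
  have pos : ∀ {e : ℝ}, 0 < e → ∀ x y : ℝ, (x ^ 2 + y ^ 2) / 2 + e ^ 2 ≠ 0 := fun he x y => by
    positivity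
  have a1 : ∀ e, 0 < e → ContDiffOn ℝ 1 (F e) {p | p.1 < 0} := fun e he =>
    (((((h.c1.pow 2).add (r1.pow 2)).div_const 2).add contDiffOn_const).sqrt
      fun p _ => pos he _ _).sub contDiffOn_const
  have a2 : ∀ e, 0 < e → ∀ p : ℝ × ℝ, p.1 < 0 →
      ds (F e) p ^ 2 ≤ (ds V p ^ 2 + ds V (p.1, 1 - p.2) ^ 2) / 2 := fun e he p hp => by
    rw [Bot_ds (a1 e he) hp (((((((h.der_s hp p.2).fun_pow 2).fun_add
      ((h.der_s hp (1 - p.2)).fun_pow 2)).div_const 2).add_const (e ^ 2)).sqrt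
      (pos he _ _)).sub_const e)]
    simpa using Bot_cs he
  have a3 : ∀ e, 0 < e → ∀ p : ℝ × ℝ, p.1 < 0 →
      dt (F e) p ^ 2 ≤ (dt V p ^ 2 + dt V (p.1, 1 - p.2) ^ 2) / 2 := fun e he p hp => by
    rw [Bot_dt (a1 e he) hp (((((((h.der_t hp p.2).fun_pow 2).fun_add
      (((h.der_t hp (1 - p.2)).comp p.2 ((hasDerivAt_id p.2).const_sub 1)).fun_pow 2)).div_const
      2).add_const (e ^ 2)).sqrt (pos he _ _)).sub_const e)]
    simpa using Bot_cs (x := V p) (y := V (p.1, 1 - p.2)) (a := dt V p)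
      (b := -dt V (p.1, 1 - p.2)) he
  have a4 : ∀ e, 0 < e → ∀ p : ℝ × ℝ, F e p ^ 2 ≤ (V p ^ 2 + V (p.1, 1 - p.2) ^ 2) / 2 :=
    fun e he p => by
      have b1 := sq_sqrt (show 0 ≤ (V p ^ 2 + V (p.1, 1 - p.2) ^ 2) / 2 + e ^ 2 by positivity)
      have b2 : e ≤ √((V p ^ 2 + V (p.1, 1 - p.2) ^ 2) / 2 + e ^ 2) :=
        le_sqrt_of_sq_le (le_add_of_nonneg_left (by positivity))
      simp only [F]
      (refine le_of_not_gt fun h_nl => ?_; linarith only [h_nl, b1, hβ, hβ1, he, b2, mul_pos_of_neg_of_neg (Mathlib.Tactic.Linarith.sub_neg_of_lt hβ) (Mathlib.Tactic.Linarith.sub_neg_of_lt h_nl), mul_nonneg_of_nonpos_of_nonpos (Mathlib.Tactic.Linarith.sub_nonpos_of_le hβ1) (le_of_lt (Mathlib.Tactic.Linarith.sub_neg_of_lt h_nl)), mul_nonneg_of_nonpos_of_nonpos (le_of_lt (Mathlib.Tactic.Linarith.sub_neg_of_lt he)) (Mathlib.Tactic.Linarith.sub_nonpos_of_le b2)])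
  have a5 : ∀ e, 0 < e → VV (F e) := fun e he => ⟨a1 e he, K, fun p hp ht =>
    ⟨Bot_le (a4 e he p) (hK p hp ht).1 (hK' p hp ht).1,
      Bot_le (a4 e he p) (hK p hp ht).2.1 (hK' p hp ht).2.1,
      Bot_le (a2 e he p hp) (hK p hp ht).2.2.1 (hK' p hp ht).2.2.1,
      Bot_le (a3 e he p hp) (hK p hp ht).2.2.2 (hK' p hp ht).2.2.2⟩⟩
  have r2 : VV fun p : ℝ × ℝ => V (p.1, 1 - p.2) := ⟨r1, K, fun p hp ht => by
    rw [Bot_ds r1 hp (h.der_s hp (1 - p.2)), Bot_dt r1 hp ((h.der_t hp (1 - p.2)).comp p.2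
      ((hasDerivAt_id p.2).const_sub 1))]
    simpa using hK' p hp ht⟩
  have avg : ∀ {f : ℝ × ℝ → ℝ}, Integrable f nu → Integrable (fun p => f (p.1, 1 - p.2)) nu →
      ∫ p, (f p + f (p.1, 1 - p.2)) / 2 ∂nu = ∫ p, f p ∂nu := fun {f} i1 i2 => by
    rw [integral_div, integral_add i1 i2, nu_refl]
    ring
  have i1 : Integrable (fun p : ℝ × ℝ => ds V (p.1, 1 - p.2) ^ 2) nu :=
    r2.int_s.congr (ae_nu fun p hp _ => by simp only [Bot_ds r1 hp (h.der_s hp (1 - p.2))])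
  have i2 : Integrable (fun p : ℝ × ℝ => dt V (p.1, 1 - p.2) ^ 2) nu :=
    r2.int_t.congr (ae_nu fun p hp _ => by
      simp [Bot_dt r1 hp ((h.der_t hp (1 - p.2)).comp p.2 ((hasDerivAt_id p.2).const_sub 1))])
  have ev : ∀ᶠ e in 𝓝[>] (0 : ℝ), 0 < e := self_mem_nhdsWithin
  have w : ∀ p : ℝ × ℝ, WW β 0 (p.1, 1 - p.2) = WW β 0 p := fun p => by rw [WW_symm, neg_zero]
  have n : NW β 0 (fun p => √((V p ^ 2 + V (p.1, 1 - p.2) ^ 2) / 2)) = NW β 0 V := by
    rw [NW, NW, ← avg (h.int_W2 hβ hβ1 (b := 0) (by norm_num))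
      (by simpa only [w] using r2.int_W2 hβ hβ1 (b := 0) (by norm_num))]
    refine integral_congr_ae (Eventually.of_forall fun p => ?_)
    simp only [w]
    rw [sq_sqrt (by positivity)]
    ring
  refine Bot_lim hβ (G := F) (ev.mono fun e he => ⟨H _ (a5 e he) fun σ t => ?_, ?_, ?_⟩)
    (n ▸ Bot_NW hβ hβ1 (K := K) (ev.mono fun e he => ⟨a5 e he, fun p hp ht =>
      ⟨Bot_le (a4 e he p) (hK p hp (Ioo_subset_Icc_self ht)).1
        (hK' p hp (Ioo_subset_Icc_self ht)).1, Bot_le (a4 e he p)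
        (hK p hp (Ioo_subset_Icc_self ht)).2.1 (hK' p hp (Ioo_subset_Icc_self ht)).2.1⟩⟩)
      fun p _ _ => tendsto_nhdsWithin_of_tendsto_nhds (Continuous.tendsto' (by fun_prop) _ _
        (by simp [F]))) tendsto_const_nhds tendsto_const_nhds
  · simp only [F, sub_sub_cancel, add_comm]
  · rw [Ds, Ds, ← avg h.int_s i1]
    exact integral_mono_ae (a5 e he).int_s ((h.int_s.add i1).div_const 2)
      (ae_nu fun p hp _ => a2 e he p hp)
  · rw [Dt, Dt, ← avg h.int_t i2]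
    exact integral_mono_ae (a5 e he).int_t ((h.int_t.add i2).div_const 2)
      (ae_nu fun p hp _ => a3 e he p hp)

theorem Bot_norm {V : ℝ × ℝ → ℝ} (h : VC V) (hn : 0 < NW β 0 V) : ∃ U, VC U ∧ NW β 0 U = 1 ∧
    Ds U = Ds V / NW β 0 V ∧ Dt U = Dt V / NW β 0 V := by
  obtain ⟨h1, h2, h3, -⟩ := h.vv.smul (√(NW β 0 V))⁻¹
  obtain ⟨A, B, hB, hs⟩ := h.supp
  rw [inv_pow, sq_sqrt hn.le, ← div_eq_inv_mul] at h2 h3
  refine ⟨_, ⟨h1, fun σ t => by simp only [h.per], fun σ t => by simp only [h.even], A, B, hB,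
    fun p hp e => hs p hp (right_ne_zero_of_mul e)⟩, ?_, h2, h3⟩
  have : NW β 0 (fun p => (√(NW β 0 V))⁻¹ * V p) = (√(NW β 0 V))⁻¹ ^ 2 * NW β 0 V := by
    rw [NW, NW, ← integral_const_mul]
    exact integral_congr_ae (Eventually.of_forall fun p => by ring)
  rw [this, inv_pow, sq_sqrt hn.le, inv_mul_cancel₀ hn.ne']

include hβ hβ1 in
theorem Bot_ne : ∃ V, VC V ∧ 0 < NW β 0 V := by
  have h := Bot_V1.toVV.1
  obtain ⟨G, h1, h2, -⟩ := Bot_A hβ hβ1 h (fun _ _ => rfl) fun _ _ => rfl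
  have : 0 < NW β 0 fun p => 1 - exp p.1 := by
    refine (NW_nonneg _ _ _).lt_of_ne' fun e => ?_
    have h3 := (integral_eq_zero_iff_of_nonneg (fun p => mul_nonneg
      (mul_pos (exp_pos _) (exp_pos _)).le (sq_nonneg _))
      (h.int_W2 hβ hβ1 (b := 0) (by norm_num))).1 e
    have h4 : (fun p : ℝ × ℝ => exp (1 * p.1)) =ᵐ[nu] fun _ => 0 := by
      filter_upwards [h3, ae_nu (q := fun p => p.1 < 0) fun _ h _ => h] with p a b
      have := exp_lt_one_iff.2 b
      exact absurd a (mul_pos (mul_pos (exp_pos _) (exp_pos _)) (pow_pos (by linarith only [this]) 2)).ne'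
    have h5 := integral_congr_ae h4
    rw [nu_fst fun σ => exp (1 * σ), integral_exp0 one_pos] at h5
    simp at h5
  obtain ⟨k, a, b⟩ := (h1.and (h2.eventually (Ioi_mem_nhds this))).exists
  exact ⟨_, a.1, b⟩

end

theorem exists_bot {β : ℝ} (hβ : 0 < β) (hβ1 : β ≤ 1 / 64) : ∃ lam, Bot β lam := by
  have θ : 0 < π * β := mul_pos pi_pos hβ
  let S : Set ℝ := {x | ∃ V, VC V ∧ NW β 0 V = 1 ∧ x = (π * β * Ds V + Dt V / (π * β)) / (π * β)}
  have nn : ∀ V, 0 ≤ π * β * Ds V + Dt V / (π * β) := fun V => by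
    have := Ds_nonneg V
    have := Dt_nonneg V
    positivity
  have bd : BddBelow S := ⟨0, by
    rintro _ ⟨V, -, -, rfl⟩
    exact div_nonneg (nn V) θ.le⟩
  have ne : S.Nonempty := by
    obtain ⟨V, h, hn⟩ := Bot_ne hβ hβ1
    obtain ⟨U, h1, h2, -⟩ := Bot_norm h hn
    exact ⟨_, U, h1, h2, rfl⟩
  have P0 : ∀ V, VC V → Bot_P β (sInf S) V := fun V h => by
    rcases (NW_nonneg β 0 V).eq_or_lt with e | e
    · rw [Bot_P, ← e, mul_zero]
      exact nn V
    · obtain ⟨U, h1, h2, h3, h4⟩ := Bot_norm h e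
      have := csInf_le bd ⟨U, h1, h2, rfl⟩
      rw [le_div_iff₀ θ, h3, h4] at this
      rw [Bot_P, ← le_div_iff₀ e]
      refine this.trans (le_of_eq ?_)
      field_simp
  refine ⟨sInf S, fun V h => ?_, fun ε hε => ?_⟩
  · have := Bot_C hβ hβ1 (fun V h e => Bot_B hβ hβ1 (fun V h p e => by
      obtain ⟨G, h1, h2, h3⟩ := Bot_A hβ hβ1 h p e
      exact Bot_lim hβ (h1.mono fun k hk => ⟨P0 _ hk.1, le_rfl, hk.2⟩) h2 h3 tendsto_const_nhds)
      h e) h
    rw [QQ, mul_zero, exp_zero, mul_one, sub_nonneg]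
    exact this
  · obtain ⟨_, ⟨V, h1, h2, rfl⟩, h3⟩ := exists_lt_of_csInf_lt ne
      (lt_add_of_pos_right _ (div_pos hε θ))
    refine ⟨V, h1, h2, ?_⟩
    rw [div_lt_iff₀ θ, add_mul, div_mul_cancel₀ _ θ.ne'] at h3
    rw [QQ, h2, mul_zero, exp_zero]
    linarith only [h3]

end Pool.Agent.Work.MP_267827_an
end

-- merged part: Pool.Agent.Work.MP_267827_an.PS.UpA
section
/-! The conformal map onto an isosceles triangle with apex angle at most `2 π / 5`. -/

set_option autoImplicit false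

namespace Pool.Agent.Work.MP_267827_an.Up

open MeasureTheory Set Filter Topology Metric Real

variable {β b : ℝ}

theorem arg_le {c : ℂ} {a : ℝ} (h0 : 0 ≤ a) (h1 : Complex.arg c ≤ π / 2)
    (h2 : (c * ei (-a)).im ≤ 0) : Complex.arg c ≤ a := by
  by_contra hc
  have hc := not_le.1 hc
  have h3 : c ≠ 0 := fun h => by rw [h, Complex.arg_zero] at hc; linarith only [h0, hc]
  rw [Reg_arg c, Reg_im] at h2
  exact absurd h2 (not_le.2 (mul_pos (norm_pos_iff.2 h3)
    (sin_pos_of_pos_of_lt_pi (by linarith) (by linarith [pi_pos]))))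

theorem le_arg {c : ℂ} {a : ℝ} (h0 : a ≤ 0) (h1 : -(π / 2) ≤ Complex.arg c)
    (h2 : 0 ≤ (c * ei (-a)).im) : a ≤ Complex.arg c := by
  by_contra hc
  have hc := not_le.1 hc
  have h3 : c ≠ 0 := fun h => by rw [h, Complex.arg_zero] at hc; linarith only [h0, hc]
  rw [Reg_arg c, Reg_im] at h2
  exact absurd h2 (not_le.2 (mul_neg_of_pos_of_neg (norm_pos_iff.2 h3)
    (sin_neg_of_neg_of_neg_pi_lt (by linarith) (by linarith [pi_pos]))))

theorem Conf_pos (hβ : 0 < β) (hβ1 : β ≤ 2 / 5) (hb : b = 0) {w : ℂ} (h0 : w.re ≤ 0)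
    (h1 : 0 ≤ w.im) (h2 : w.im ≤ π * β) {x : ℝ} (hx : x ∈ Icc 0 (π * β)) :
    0 < (GG β b w * ei (-x)).re := by
  rw [Conf_rot, Complex.re_ofReal_mul, Conf_ei_re]
  refine mul_pos (norm_pos_iff.2 (GG_ne β b w)) (cos_pos_of_mem_Ioo ?_)
  have hρ : exp (w.re / β) ≤ 1 := exp_le_one_iff.2 (div_nonpos_of_nonpos_of_nonneg h0 hβ.le)
  have hz : ‖Complex.exp (w / β)‖ ≤ 1 := by rwa [Conf_norm_z]
  have hre := abs_le.1 ((Complex.abs_re_le_norm _).trans hz)
  have a1 := abs_le.1 (Complex.abs_arg_le_pi_div_two_iff.2 (show 0 ≤ (1 - Complex.exp (w / β)).re by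
      simp only [Complex.sub_re, Complex.one_re]; linarith only [hre, hre.2]))
  have a2 := abs_le.1 (Complex.abs_arg_le_pi_div_two_iff.2 (show 0 ≤ (1 + Complex.exp (w / β)).re by
      simp only [Complex.add_re, Complex.one_re]; linarith only [hre, hre.1]))
  obtain ⟨φ, hφ⟩ : ∃ φ : ℝ, w.im = 2 * φ * β := ⟨w.im / (2 * β), by field_simp⟩
  have p0 : 0 ≤ φ := by clear * - hφ h1 hβ; (refine le_of_not_gt fun h_nl => ?_; linarith only [h_nl, h1, hφ, hβ, mul_pos_of_neg_of_neg (Mathlib.Tactic.Linarith.sub_neg_of_lt hβ) (Mathlib.Tactic.Linarith.sub_neg_of_lt h_nl)])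
  have p1 : φ ≤ π / 2 := by clear * - hφ h2 hβ; (refine le_of_not_gt fun h_nl => ?_; linarith only [h_nl, h2, hφ, hβ, mul_pos_of_neg_of_neg (Mathlib.Tactic.Linarith.sub_neg_of_lt hβ) (Mathlib.Tactic.Linarith.sub_neg_of_lt h_nl)])
  have e : Complex.exp (w / β) = (exp (w.re / β) : ℝ) * ei (2 * φ) := by
    rw [ei, Complex.ofReal_exp, ← Complex.exp_add]
    congr 1
    apply Complex.ext
    · simp [Complex.div_ofReal_re]
    · simp [Complex.div_ofReal_im, hφ, hβ.ne']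
  have s0 := sin_nonneg_of_nonneg_of_le_pi p0 (by linarith only [a1, p1])
  have s1 := sin_nonneg_of_nonneg_of_le_pi (x := 2 * φ) (by linarith only [p0]) (by linarith only [p1])
  have c0 := cos_nonneg_of_mem_Icc (x := φ) ⟨by linarith only [a1, p0], p1⟩
  have r0 := exp_pos (w.re / β)
  have b1 := arg_le le_rfl a1.2 (by
    rw [e, sub_mul, Complex.sub_im, Reg_im, one_mul, ei_im, neg_zero, sin_zero, sub_zero, zero_sub]
    linarith only [mul_nonneg r0.le s1])
  have b2 := le_arg (a := φ - π / 2) (by linarith only [p1]) a1.1 (by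
    rw [e, sub_mul, Complex.sub_im, Reg_im, one_mul, ei_im, neg_sub, sin_pi_div_two_sub,
      show 2 * φ - (φ - π / 2) = φ + π / 2 by ring, sin_add_pi_div_two]
    linarith only [mul_le_mul_of_nonneg_right hρ c0])
  have b3 := le_arg le_rfl a2.1 (by
    rw [e, add_mul, Complex.add_im, Reg_im, one_mul, ei_im, neg_zero, sin_zero, sub_zero, zero_add]
    positivity)
  have b4 := arg_le p0 a2.2 (by
    rw [e, add_mul, Complex.add_im, Reg_im, one_mul, ei_im, sin_neg,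
      show 2 * φ - φ = φ by ring]
    linarith only [mul_le_mul_of_nonneg_right hρ s0])
  have e4 : π * β ≤ π * (2 / 5) := mul_le_mul_of_nonneg_left hβ1 pi_pos.le
  have := pi_pos
  subst hb
  clear * - hx hφ b1 b2 b3 b4 e4 this hβ hβ1 p0 p1
  constructor <;> simp only [Conf_A, hφ] <;> linarith only [e4, this, hx, hβ, p0, b1, b4, p1, b2, b3, hx.1, hx.2, mul_nonneg_of_nonpos_of_nonpos (le_of_lt (Mathlib.Tactic.Linarith.sub_neg_of_lt hβ)) (Mathlib.Tactic.Linarith.sub_nonpos_of_le p0), mul_nonneg_of_nonpos_of_nonpos (le_of_lt (Mathlib.Tactic.Linarith.sub_neg_of_lt hβ)) (Mathlib.Tactic.Linarith.sub_nonpos_of_le b1), mul_nonneg_of_nonpos_of_nonpos (le_of_lt (Mathlib.Tactic.Linarith.sub_neg_of_lt hβ)) (Mathlib.Tactic.Linarith.sub_nonpos_of_le b4), mul_nonneg_of_nonpos_of_nonpos (le_of_lt (Mathlib.Tactic.Linarith.sub_neg_of_lt hβ)) (Mathlib.Tactic.Linarith.sub_nonpos_of_le p1), mul_nonneg_of_nonpos_of_nonpos (le_of_lt (Mathlib.Tactic.Linarith.sub_neg_of_lt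 hβ)) (Mathlib.Tactic.Linarith.sub_nonpos_of_le b2), mul_nonneg_of_nonpos_of_nonpos (le_of_lt (Mathlib.Tactic.Linarith.sub_neg_of_lt hβ)) (Mathlib.Tactic.Linarith.sub_nonpos_of_le b3)]

theorem FF_inj (hβ : 0 < β) (hβ1 : β ≤ 2 / 5) (hb : b = 0) :
    InjOn (FF β b) {w | w.re < 0 ∧ 0 ≤ w.im ∧ w.im ≤ π * β} := by
  intro w hw w' hw' h
  by_contra hne
  have hd : w' - w ≠ 0 := sub_ne_zero.2 (Ne.symm hne)
  have hm : ∀ s : ℝ, 0 ≤ s → s ≤ 1 → (w + s * (w' - w)).re < 0 ∧ 0 ≤ (w + s * (w' - w)).im ∧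
      (w + s * (w' - w)).im ≤ π * β := by
    intro s h0 h1
    simp only [Complex.add_re, Complex.add_im, Complex.re_ofReal_mul, Complex.im_ofReal_mul,
      Complex.sub_re, Complex.sub_im]
    obtain ⟨a1, a2, a3⟩ := hw
    obtain ⟨b1, b2, b3⟩ := hw'
    refine ⟨?_, by (refine le_of_not_gt fun h_nl => ?_; linarith only [h_nl, hβ, hβ1, h0, b2, h1, a2, mul_pos_of_neg_of_neg (Mathlib.Tactic.Linarith.sub_neg_of_lt hβ) (Mathlib.Tactic.Linarith.sub_neg_of_lt h_nl), mul_nonneg_of_nonpos_of_nonpos (Mathlib.Tactic.Linarith.sub_nonpos_of_le hβ1) (le_of_lt (Mathlib.Tactic.Linarith.sub_neg_of_lt h_nl)), mul_nonneg_of_nonpos_of_nonpos (Mathlib.Tactic.Linarith.sub_nonpos_of_le h0) (Mathlib.Tactic.Linarith.sub_nonpos_of_le b2), mul_nonneg_of_nonpos_of_nonpos (Mathlib.Tactic.Linarith.sub_nonpos_of_le h1) (Mathlib.Tactic.Linarith.sub_nonpos_of_le a2)]), by (refine le_of_not_gt fun h_nl => ?_; linarith only [h_nl, hβ, hβ1, h0, b3, h1,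 a3, mul_pos_of_neg_of_neg (Mathlib.Tactic.Linarith.sub_neg_of_lt hβ) (Mathlib.Tactic.Linarith.sub_neg_of_lt h_nl), mul_nonneg_of_nonpos_of_nonpos (Mathlib.Tactic.Linarith.sub_nonpos_of_le hβ1) (le_of_lt (Mathlib.Tactic.Linarith.sub_neg_of_lt h_nl)), mul_nonneg_of_nonpos_of_nonpos (Mathlib.Tactic.Linarith.sub_nonpos_of_le h0) (Mathlib.Tactic.Linarith.sub_nonpos_of_le b3), mul_nonneg_of_nonpos_of_nonpos (Mathlib.Tactic.Linarith.sub_nonpos_of_le h1) (Mathlib.Tactic.Linarith.sub_nonpos_of_le a3)])⟩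
    rcases le_total w.re w'.re with h | h <;> linarith only [hβ, b1, hβ1, h1, h, a1, h0, mul_pos_of_neg_of_neg (Mathlib.Tactic.Linarith.sub_neg_of_lt hβ) (Mathlib.Tactic.Linarith.sub_neg_of_lt b1), mul_nonneg_of_nonpos_of_nonpos (Mathlib.Tactic.Linarith.sub_nonpos_of_le hβ1) (le_of_lt (Mathlib.Tactic.Linarith.sub_neg_of_lt b1)), mul_nonneg_of_nonpos_of_nonpos (Mathlib.Tactic.Linarith.sub_nonpos_of_le h1) (Mathlib.Tactic.Linarith.sub_nonpos_of_le h), mul_pos_of_neg_of_neg (Mathlib.Tactic.Linarith.sub_neg_of_lt hβ) (Mathlib.Tactic.Linarith.sub_neg_of_lt a1), mul_nonneg_of_nonpos_of_nonpos (Mathlib.Tactic.Linarith.sub_nonpos_of_le hβ1) (le_of_lt (Mathlib.Tactic.Linarith.sub_neg_of_lt a1)), mul_nonneg_of_nonpos_of_nonpos (Mathlib.Tactic.Linarith.sub_nonpos_of_le h0) (Mathlib.Tactic.Linarith.sub_nonpos_of_le h)]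
  obtain ⟨s, h0, h1, h2⟩ := Conf_mvt hβ b w (w' - w) (w' - w)⁻¹
    fun s h0 h1 => Or.inl (hm s h0 h1).1
  rw [add_sub_cancel, ← h, sub_self, mul_assoc, mul_inv_cancel₀ hd] at h2
  obtain ⟨a1, a2, a3⟩ := hm s h0.le h1.le
  have := Conf_pos hβ hβ1 hb a1.le a2 a3 (x := 0) ⟨le_rfl, by positivity⟩
  rw [neg_zero, Conf_ei_zero] at this
  linarith only [h2, this]

theorem Conf_gam (hβ : 0 < β) (hb : b = 0) : π * (β + b) / 2 ∈ Icc 0 (π * β) := by
  have := mul_pos pi_pos hβ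
  subst hb
  constructor <;> linarith only [this]

theorem Conf_horiz (hβ : 0 < β) (hβ1 : β ≤ 2 / 5) (hb : b = 0) {σ σ' t : ℝ}
    (h : σ < σ') (h' : σ' ≤ 0) (h1 : 0 ≤ t) (h2 : t ≤ π * β)
    (hU : (σ' : ℂ) + t * Complex.I ∈ Conf_U β) {x : ℝ} (hx : x ∈ Icc 0 (π * β)) :
    (FF β b (σ + t * Complex.I) * ei (-x)).re < (FF β b (σ' + t * Complex.I) * ei (-x)).re := by
  have he : ∀ s : ℝ, (σ : ℂ) + t * Complex.I + s * ((σ' - σ : ℝ) : ℂ) =
      σ' + t * Complex.I + ((s - 1) * (σ' - σ) : ℝ) := fun s => by push_cast; ring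
  obtain ⟨s, s0, s1, h3⟩ := Conf_mvt hβ b (σ + t * Complex.I) ((σ' - σ : ℝ) : ℂ) (ei (-x))
    fun s _ a1 => by rw [he]; exact Conf_shift_mem hU (by (refine le_of_not_gt fun h_nl => ?_; linarith only [h_nl, hβ, hβ1, h, a1, mul_pos_of_neg_of_neg (Mathlib.Tactic.Linarith.sub_neg_of_lt hβ) (Mathlib.Tactic.Linarith.sub_neg_of_lt h_nl), mul_nonneg_of_nonpos_of_nonpos (Mathlib.Tactic.Linarith.sub_nonpos_of_le hβ1) (le_of_lt (Mathlib.Tactic.Linarith.sub_neg_of_lt h_nl)), mul_nonneg_of_nonpos_of_nonpos (le_of_lt (Mathlib.Tactic.Linarith.sub_neg_of_lt h)) (Mathlib.Tactic.Linarith.sub_nonpos_of_le a1)]))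
  have h4 : (σ : ℂ) + t * Complex.I + ((σ' - σ : ℝ) : ℂ) = σ' + t * Complex.I := by
    push_cast; ring
  have h5 := Conf_pos hβ hβ1 hb (w := σ + t * Complex.I + s * ((σ' - σ : ℝ) : ℂ))
    (by simp; (refine le_of_not_gt fun h_nl => ?_; linarith only [h_nl, h', hβ, hβ1, h, s1, mul_pos_of_neg_of_neg (Mathlib.Tactic.Linarith.sub_neg_of_lt hβ) (Mathlib.Tactic.Linarith.sub_neg_of_lt h_nl), mul_nonneg_of_nonpos_of_nonpos (Mathlib.Tactic.Linarith.sub_nonpos_of_le hβ1) (le_of_lt (Mathlib.Tactic.Linarith.sub_neg_of_lt h_nl)), mul_pos_of_neg_of_neg (Mathlib.Tactic.Linarith.sub_neg_of_lt h) (Mathlib.Tactic.Linarith.sub_neg_of_lt s1)])) (by simpa using h1) (by simpa using h2) hx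
  rw [h4, mul_right_comm, Complex.re_mul_ofReal] at h3
  have := mul_pos h5 (sub_pos.2 h)
  linarith only [h3, this]

theorem Conf_third (hβ : 0 < β) (hβ1 : β ≤ 2 / 5) (hb : b = 0) {w : ℂ} (h0 : w.re < 0)
    (h1 : 0 ≤ w.im) (h2 : w.im ≤ π * β) :
    (FF β b w * ei (-(π * (β + b) / 2))).re < hh β b := by
  have hθ : 0 < π * β := mul_pos pi_pos hβ
  have hγ := Conf_gam hβ hb
  have h3 : (FF β b ((w.re / 2 : ℝ) + w.im * Complex.I) * ei (-(π * (β + b) / 2))).re ≤
      hh β b := by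
    refine le_on_closure (s := Ioo 0 (π * β))
      (f := fun t : ℝ => (FF β b ((w.re / 2 : ℝ) + t * Complex.I) * ei (-(π * (β + b) / 2))).re)
      (g := fun _ => hh β b) (fun t ht => ?_) (Conf_closure hβ b (by linarith only [h0]) _)
      continuousOn_const (by rw [closure_Ioo hθ.ne]; exact ⟨h1, h2⟩)
    have := Conf_horiz hβ hβ1 hb (σ := w.re / 2) (σ' := 0) (by linarith only [h0]) le_rfl ht.1.le ht.2.le
      (Or.inr (by simpa using ht)) hγ
    rw [Complex.ofReal_zero, zero_add, Conf_edge_eq hβ b ht.1 ht.2] at this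
    exact this.le
  have h4 := Conf_horiz hβ hβ1 hb (σ := w.re) (σ' := w.re / 2) (by linarith only [h0]) (by linarith only [h0]) h1 h2
    (Or.inl (by simp; linarith only [h0])) hγ
  rw [Complex.re_add_im] at h4
  linarith only [h3, h4]

theorem Conf_vert (hβ : 0 < β) (hβ1 : β ≤ 2 / 5) (hb : b = 0) {σ t t' : ℝ}
    (h : t < t') (h' : σ < 0) (h1 : 0 ≤ t) (h2 : t' ≤ π * β) {x : ℝ} (hx : x ∈ Icc 0 (π * β)) :
    (FF β b (σ + t * Complex.I) * ei (-x)).im < (FF β b (σ + t' * Complex.I) * ei (-x)).im := by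
  have he : ∀ s : ℝ, (σ : ℂ) + t * Complex.I + s * (((t' - t : ℝ) : ℂ) * Complex.I) =
      σ + (t + s * (t' - t) : ℝ) * Complex.I := fun s => by push_cast; ring
  obtain ⟨s, s0, s1, h3⟩ := Conf_mvt hβ b (σ + t * Complex.I) (((t' - t : ℝ) : ℂ) * Complex.I)
    (ei (-x) * -Complex.I) fun s _ _ => by rw [he]; left; simpa using h'
  have h4 : (σ : ℂ) + t * Complex.I + ((t' - t : ℝ) : ℂ) * Complex.I = σ + t' * Complex.I := by
    push_cast; ring
  have h5 := Conf_pos hβ hβ1 hb (w := σ + (t + s * (t' - t) : ℝ) * Complex.I)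
    (by simpa using h'.le) (by simp; (refine le_of_not_gt fun h_nl => ?_; linarith only [h_nl, h1, hβ, hβ1, h, s0, mul_pos_of_neg_of_neg (Mathlib.Tactic.Linarith.sub_neg_of_lt hβ) (Mathlib.Tactic.Linarith.sub_neg_of_lt h_nl), mul_nonneg_of_nonpos_of_nonpos (Mathlib.Tactic.Linarith.sub_nonpos_of_le hβ1) (le_of_lt (Mathlib.Tactic.Linarith.sub_neg_of_lt h_nl)), mul_pos_of_neg_of_neg (Mathlib.Tactic.Linarith.sub_neg_of_lt h) (Mathlib.Tactic.Linarith.sub_neg_of_lt s0)])) (by simp; (refine le_of_not_gt fun h_nl => ?_; linarith only [h_nl, h2, hβ, hβ1, h, s1, mul_pos_of_neg_of_neg (Mathlib.Tactic.Linarith.sub_neg_of_lt hβ) (Mathlib.Tactic.Linarith.sub_neg_of_lt h_nl), mul_nonneg_of_nonpos_of_nonpos (Mathlib.Tactic.Linarith.sub_nonpos_of_le hβ1) (le_of_lt (Mathlib.Tactic.Linarith.sub_neg_of_lt h_nl)), mul_pos_of_neg_of_neg (Mathlib.Tactic.Linarith.sub_neg_of_lt h) (Mathlib.Tactic.Linarith.sub_neg_of_lt s1)])) hx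
  have h6 : ∀ u : ℂ, u * (((t' - t : ℝ) : ℂ) * Complex.I) * (ei (-x) * -Complex.I) =
      u * ei (-x) * (t' - t : ℝ) := fun u => by
    linear_combination (-u * ((t' - t : ℝ) : ℂ) * ei (-x)) * Complex.I_mul_I
  have h7 : ∀ u : ℂ, (u * (ei (-x) * -Complex.I)).re = (u * ei (-x)).im := fun u => by
    rw [← mul_assoc, mul_neg, Complex.neg_re, Complex.mul_I_re, neg_neg]
  rw [h4, he, h6, h7, h7, Complex.re_mul_ofReal] at h3
  have := mul_pos h5 (sub_pos.2 h)
  linarith only [h3, this]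

theorem Conf_first (hβ : 0 < β) (hβ1 : β ≤ 2 / 5) (hb : b = 0) {w : ℂ} (h0 : w.re < 0)
    (h1 : 0 < w.im) (h2 : w.im ≤ π * β) : 0 < (FF β b w).im := by
  have := Conf_vert hβ hβ1 hb h1 h0 le_rfl h2 (x := 0) ⟨le_rfl, by positivity⟩
  rw [Complex.re_add_im, neg_zero, Conf_ei_zero, mul_one, mul_one, Complex.ofReal_zero, zero_mul,
    add_zero, FF_bot hβ b h0, Complex.ofReal_im] at this
  exact this

theorem Conf_second (hβ : 0 < β) (hβ1 : β ≤ 2 / 5) (hb : b = 0) {w : ℂ} (h0 : w.re < 0)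
    (h1 : 0 ≤ w.im) (h2 : w.im < π * β) : (FF β b w * ei (-(π * β))).im < 0 := by
  have hθ : 0 < π * β := mul_pos pi_pos hβ
  have := Conf_vert hβ hβ1 hb h2 h0 h1 le_rfl (x := π * β)
    ⟨hθ.le, le_rfl⟩
  rwa [Complex.re_add_im, Conf_top_im hβ b h0] at this

theorem FF_lt (hβ : 0 < β) (hβ1 : β ≤ 2 / 5) (hb : b = 0) {w : ℂ} (h0 : w.re < 0)
    (h1 : 0 ≤ w.im) (h2 : w.im ≤ π * β) :
    0 ≤ (FF β b w).im ∧ (FF β b w * ei (-(π * β))).im ≤ 0 ∧
      (FF β b w * ei (-(π * (β + b) / 2))).re < hh β b := by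
  refine ⟨?_, ?_, Conf_third hβ hβ1 hb h0 h1 h2⟩
  · rcases h1.eq_or_lt with h | h
    · have : w = (w.re : ℂ) := by apply Complex.ext <;> simp [← h]
      rw [this, FF_bot hβ b h0, Complex.ofReal_im]
    · exact (Conf_first hβ hβ1 hb h0 h h2).le
  · rcases h2.eq_or_lt with h | h
    · have := Conf_top_im hβ b h0
      rw [← h, Complex.re_add_im, h] at this
      exact this.le
    · exact (Conf_second hβ hβ1 hb h0 h1 h).le

theorem hh_pos (hβ : 0 < β) (hβ1 : β ≤ 2 / 5) (hb : b = 0) : 0 < hh β b := by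
  have hθ : 0 < π * β := mul_pos pi_pos hβ
  have h := Conf_third hβ hβ1 hb (w := ((-1 : ℝ) : ℂ)) (by simp) (by simp) (by simpa using hθ.le)
  rw [FF_bot hβ b (by norm_num), Complex.re_ofReal_mul, Conf_ei_re] at h
  have h1 := Conf_gam hβ hb
  have h2 := h1.1
  have h3 := h1.2
  have e4 : π * β ≤ π * (2 / 5) := mul_le_mul_of_nonneg_left hβ1 pi_pos.le
  have := pi_pos
  exact (mul_pos (exp_pos _) (cos_pos_of_mem_Ioo ⟨by linarith only [hθ, h3, e4], by linarith only [hθ, h2, e4]⟩)).trans h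

theorem Conf_norm_le (hβ : 0 < β) (hβ1 : β ≤ 2 / 5) (hb : b = 0) {w : ℂ} {m : ℝ}
    (m0 : 0 < m) (m1 : m ≤ 1 / 2) (h : exp (w.re / β) ≤ 1 - m) :
    ‖GG β b w‖ ≤ exp (w.re - log m / 2) := by
  have hz : ‖Complex.exp (w / β)‖ ≤ 1 - m := by rwa [Conf_norm_z]
  set z := Complex.exp (w / β) with hzd
  have a1 : m ≤ ‖1 - z‖ := by
    have := norm_sub_norm_le (1 : ℂ) z
    rw [norm_one] at this; linarith only [hz, this]
  have a2 : m ≤ ‖1 + z‖ := by
    have := norm_sub_norm_le (1 : ℂ) (-z)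
    rw [norm_one, norm_neg, sub_neg_eq_add] at this; linarith only [hz, this]
  have a3 : m ≤ ‖1 - z‖ * ‖1 + z‖ := by
    have := norm_sub_norm_le (1 : ℂ) (z * z)
    rw [norm_one, norm_mul, show 1 - z * z = (1 - z) * (1 + z) by ring, norm_mul] at this
    (refine le_of_not_gt fun h_nl => ?_; linarith only [h_nl, hz, this, hβ, hβ1, m0, norm_nonneg z, mul_pos_of_neg_of_neg (Mathlib.Tactic.Linarith.sub_neg_of_lt hβ) (Mathlib.Tactic.Linarith.sub_neg_of_lt h_nl), mul_nonneg_of_nonpos_of_nonpos (Mathlib.Tactic.Linarith.sub_nonpos_of_le hβ1) (le_of_lt (Mathlib.Tactic.Linarith.sub_neg_of_lt h_nl)), mul_nonneg_of_nonpos_of_nonpos (le_of_lt (Mathlib.Tactic.Linarith.sub_neg_of_lt m0)) (Mathlib.Tactic.Linarith.sub_nonpos_of_le (norm_nonneg z)), mul_nonneg_of_nonpos_of_nonpos (Mathlib.Tactic.Linarith.sub_nonpos_of_le hz) (Mathlib.Tactic.Linarith.sub_nonpos_of_le (norm_nonneg z))])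
  have a4 := log_le_log m0 a3
  rw [log_mul (by linarith only [m0, a1]) (by linarith only [m0, a2])] at a4
  have a5 : log m ≤ 0 := log_nonpos m0.le (by linarith only [hβ, hβ1, m1])
  rw [Conf_norm, ← hzd, hb]
  exact exp_le_exp.2 (by linarith only [a5, hβ, a4, hβ1, mul_nonneg_of_nonpos_of_nonpos (le_of_lt (Mathlib.Tactic.Linarith.sub_neg_of_lt hβ)) (Mathlib.Tactic.Linarith.sub_nonpos_of_le a4), mul_nonneg_of_nonpos_of_nonpos (Mathlib.Tactic.Linarith.sub_nonpos_of_le hβ1) (Mathlib.Tactic.Linarith.sub_nonpos_of_le a5)])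

theorem Conf_norm_edge (hβ : 0 < β) (hβ1 : β ≤ 2 / 5) (hb : b = 0) {w : ℂ} {r : ℝ}
    (r0 : 0 < r) (r1 : r ^ 2 ≤ β) (hw : w.re = -r ^ 2) : ‖GG β b w‖ * r ≤ 1 := by
  have hu0 : 0 < r ^ 2 / β := by positivity
  have hu1 : r ^ 2 / β ≤ 1 := (div_le_one hβ).2 r1
  have h1 : exp (w.re / β) ≤ 1 - r ^ 2 / β / 2 := by
    rw [hw, neg_div, exp_neg, inv_le_iff_one_le_mul₀ (exp_pos _)]
    have := add_one_le_exp (r ^ 2 / β)
    (refine le_of_not_gt fun h_nl => ?_; linarith only [h_nl, this, hβ, hβ1, hu0, hu1, mul_pos_of_neg_of_neg (Mathlib.Tactic.Linarith.sub_neg_of_lt hβ) (Mathlib.Tactic.Linarith.sub_neg_of_lt h_nl), mul_nonneg_of_nonpos_of_nonpos (Mathlib.Tactic.Linarith.sub_nonpos_of_le hβ1) (le_of_lt (Mathlib.Tactic.Linarith.sub_neg_of_lt h_nl)), mul_nonneg_of_nonpos_of_nonpos (le_of_lt (Mathlib.Tactic.Linarith.sub_neg_of_lt hu0)) (Mathlib.Tactic.Linarith.sub_nonpos_of_le hu1), mul_nonneg_of_nonpos_of_nonpos (Mathlib.Tactic.Linarith.sub_nonpos_of_le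 hu1) (Mathlib.Tactic.Linarith.sub_nonpos_of_le this)])
  have h2 := Conf_norm_le hβ hβ1 hb (m := r ^ 2 / β / 2) (by positivity) (by linarith only [hu1]) h1
  have h3 : 2 * log r ≤ log (r ^ 2 / β / 2) := by
    have : log (r ^ 2) = 2 * log r := by rw [log_pow]; norm_num
    rw [← this]
    refine log_le_log (by positivity) ?_
    rw [div_div, le_div_iff₀ (by positivity)]
    linarith only [hβ1, sq_nonneg r, sq_nonneg r, mul_nonneg_of_nonpos_of_nonpos (Mathlib.Tactic.Linarith.sub_nonpos_of_le (sq_nonneg r)) (Mathlib.Tactic.Linarith.sub_nonpos_of_le hβ1)]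
  have h4 : ‖GG β b w‖ ≤ exp (-log r) :=
    h2.trans (exp_le_exp.2 (by rw [hw]; linarith only [h3, sq_nonneg r, sq_nonneg r]))
  rw [exp_neg, exp_log r0] at h4
  calc _ ≤ r⁻¹ * r := mul_le_mul_of_nonneg_right h4 r0.le
    _ = 1 := inv_mul_cancel₀ r0.ne'

theorem Conf_edge_le (hβ : 0 < β) (hβ1 : β ≤ 2 / 5) (hb : b = 0) {r t : ℝ}
    (r0 : 0 < r) (r1 : r ^ 2 ≤ β) (h1 : 0 ≤ t) (h2 : t ≤ π * β) :
    hh β b - 2 * r ≤
      (FF β b ((-r ^ 2 : ℝ) + t * Complex.I) * ei (-(π * (β + b) / 2))).re := by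
  have hθ : 0 < π * β := mul_pos pi_pos hβ
  refine le_on_closure (s := Ioo 0 (π * β)) (f := fun _ => hh β b - 2 * r)
    (g := fun t : ℝ => (FF β b ((-r ^ 2 : ℝ) + t * Complex.I) * ei (-(π * (β + b) / 2))).re)
    (fun t ht => ?_) continuousOn_const (Conf_closure hβ b (by linarith only [r0, mul_pos_of_neg_of_neg (Mathlib.Tactic.Linarith.sub_neg_of_lt r0) (Mathlib.Tactic.Linarith.sub_neg_of_lt r0)]) _)
    (by rw [closure_Ioo hθ.ne]; exact ⟨h1, h2⟩)
  have hp : ∀ x : ℝ, HasDerivAt (fun x : ℝ => ((-x ^ 2 : ℝ) : ℂ) + t * Complex.I)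
      ((-(2 * x) : ℝ) : ℂ) x := fun x => by
    have : HasDerivAt (fun x : ℝ => -x ^ 2) (-(2 * x)) x := by
      simpa using (hasDerivAt_pow 2 x).fun_neg
    exact this.ofReal_comp.add_const _
  have hU : ∀ x : ℝ, ((-x ^ 2 : ℝ) : ℂ) + t * Complex.I ∈ Conf_U β := fun x =>
    Or.inr (by simpa [← Complex.ofReal_pow] using ht)
  obtain ⟨x, hx, h⟩ := exists_hasDerivAt_eq_slope _ _ r0
    (fun x _ => (Conf_path hβ b (hp x) (hU x)
      (ei (-(π * (β + b) / 2)))).continuousAt.continuousWithinAt)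
    (fun x _ => Conf_path hβ b (hp x) (hU x) (ei (-(π * (β + b) / 2))))
  have h3 := Conf_norm_edge hβ hβ1 hb (w := ((-x ^ 2 : ℝ) : ℂ) + t * Complex.I) hx.1
    (by linarith only [r1, r0, hx, hx.1, hx.2, mul_pos_of_neg_of_neg (Mathlib.Tactic.Linarith.sub_neg_of_lt r0) (Mathlib.Tactic.Linarith.sub_neg_of_lt hx.right), mul_pos_of_neg_of_neg (Mathlib.Tactic.Linarith.sub_neg_of_lt hx.left) (Mathlib.Tactic.Linarith.sub_neg_of_lt hx.right)]) (by simp [-Complex.ofReal_pow])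
  have h4 := (abs_le.1 (Complex.abs_re_le_norm (GG β b (((-x ^ 2 : ℝ) : ℂ) + t * Complex.I) *
    ((-(2 * x) : ℝ) : ℂ) * ei (-(π * (β + b) / 2))))).1
  rw [norm_mul, norm_mul, Conf_ei_norm, Complex.norm_real, Real.norm_eq_abs, abs_neg,
    abs_of_pos (by linarith only [hx, hx.1]), h, sub_zero, le_div_iff₀ r0] at h4
  have h5 : ((-(0 : ℝ) ^ 2 : ℝ) : ℂ) + t * Complex.I = t * Complex.I := by simp
  rw [h5, Conf_edge_eq hβ b ht.1 ht.2] at h4
  (refine le_of_not_gt fun h_nl => ?_; linarith only [h_nl, h4, hβ, hβ1, r0, h3, mul_pos_of_neg_of_neg (Mathlib.Tactic.Linarith.sub_neg_of_lt hβ) (Mathlib.Tactic.Linarith.sub_neg_of_lt h_nl), mul_nonneg_of_nonpos_of_nonpos (Mathlib.Tactic.Linarith.sub_nonpos_of_le hβ1) (le_of_lt (Mathlib.Tactic.Linarith.sub_neg_of_lt h_nl)), mul_nonneg_of_nonpos_of_nonpos (le_of_lt (Mathlib.Tactic.Linarith.sub_neg_of_lt r0)) (Mathlib.Tactic.Linarith.sub_nonpos_of_le h3)])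

theorem FF_edge (hβ : 0 < β) (hβ1 : β ≤ 2 / 5) (hb : b = 0) {η : ℝ} (hη : 0 < η) :
    ∃ σ₀ : ℝ, σ₀ < 0 ∧ ∀ w : ℂ, σ₀ < w.re → w.re < 0 → 0 ≤ w.im → w.im ≤ π * β →
      hh β b - η ≤ (FF β b w * ei (-(π * (β + b) / 2))).re := by
  refine ⟨-min β ((η / 2) ^ 2), neg_neg_of_pos (lt_min hβ (by positivity)),
    fun w h0 h1 h2 h3 => ?_⟩
  have a0 : -w.re < min β ((η / 2) ^ 2) := by linarith only [h0]
  have a1 : √(-w.re) ^ 2 = -w.re := sq_sqrt (by linarith only [h1])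
  have a2 : √(-w.re) ≤ η / 2 :=
    (sqrt_le_iff).2 ⟨by positivity, (a0.trans_le (min_le_right _ _)).le⟩
  have := Conf_edge_le hβ hβ1 hb (r := √(-w.re)) (sqrt_pos.2 (by linarith only [h1]))
    (by rw [a1]; exact (a0.trans_le (min_le_left _ _)).le) h2 h3
  rw [a1, neg_neg, Complex.re_add_im] at this
  linarith only [a2, this]

theorem Conf_FF_le (hβ : 0 < β) (hβ1 : β ≤ 2 / 5) (hb : b = 0) {w : ℂ}
    (hw : w.re ≤ -1) : ‖FF β b w‖ ≤ exp (w.re - log (1 / 2) / 2) := by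
  have h := norm_integral_le_of_norm_le (μ := volume.restrict (Iio (0 : ℝ)))
    (f := fun s : ℝ => GG β b (w + s)) (Conf_exp_int (exp (w.re - log (1 / 2) / 2))) (by
      filter_upwards [ae_restrict_mem measurableSet_Iio] with s hs
      have hs : s < 0 := hs
      have h1 : (w + s).re = w.re + s := by simp
      have h2 : exp ((w + s).re / β) ≤ 1 - 1 / 2 := by
        have a1 : (w + s).re / β ≤ -1 := by
          rw [div_le_iff₀ hβ, h1]; linarith only [hβ, hβ1, hw, hs]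
        have a2 := add_one_le_exp (1 : ℝ)
        have a3 : exp (-1) ≤ 1 - 1 / 2 := by
          rw [exp_neg, inv_le_iff_one_le_mul₀ (exp_pos _)]; linarith only [a2]
        exact (exp_le_exp.2 a1).trans a3
      refine (Conf_norm_le hβ hβ1 hb (by norm_num) le_rfl h2).trans_eq ?_
      rw [← exp_add, h1]; congr 1; ring)
  rwa [integral_const_mul, ← integral_Iic_eq_integral_Iio (f := exp), integral_exp_Iic_zero,
    mul_one] at h

theorem FF_image (hβ : 0 < β) (hβ1 : β ≤ 2 / 5) (hb : b = 0) :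
    FF β b '' {w | w.re < 0 ∧ 0 < w.im ∧ w.im < π * β} =
      Tri (π * β) (π * (β + b) / 2) (hh β b) := by
  have hθ : 0 < π * β := mul_pos pi_pos hβ
  have hsub : FF β b '' {w | w.re < 0 ∧ 0 < w.im ∧ w.im < π * β} ⊆
      Tri (π * β) (π * (β + b) / 2) (hh β b) := by
    rintro _ ⟨w, ⟨h0, h1, h2⟩, rfl⟩
    exact ⟨Conf_first hβ hβ1 hb h0 h1 h2.le, Conf_second hβ hβ1 hb h0 h1.le h2,
      Conf_third hβ hβ1 hb h0 h1.le h2.le⟩
  refine hsub.antisymm ((Conf_convex _ _ _).isPreconnected.subset_of_closure_inter_subset ?_ ?_ ?_)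
  · have hD : IsOpen {w : ℂ | w.re < 0 ∧ 0 < w.im ∧ w.im < π * β} :=
      (isOpen_lt Complex.continuous_re continuous_const).inter
        ((isOpen_lt continuous_const Complex.continuous_im).inter
          (isOpen_lt Complex.continuous_im continuous_const))
    rw [isOpen_iff_mem_nhds]
    rintro _ ⟨w, hw, rfl⟩
    have h1 : HasStrictDerivAt (FF β b) (GG β b w) w :=
      hasStrictDerivAt_of_hasDerivAt_of_continuousAt
        (by filter_upwards [hD.mem_nhds hw] with y hy using FF_der hβ b hy.1)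
        (Conf_diff hβ b (Or.inl hw.1)).continuousAt
    rw [← h1.map_nhds_eq (GG_ne β b w)]
    exact image_mem_map (hD.mem_nhds hw)
  · have hm : ((-1 : ℝ) : ℂ) + (π * β / 2 : ℝ) * Complex.I ∈
        {w : ℂ | w.re < 0 ∧ 0 < w.im ∧ w.im < π * β} := by
      simp only [mem_ofPred_eq, Complex.add_re, Complex.add_im, Complex.ofReal_re,
        Complex.ofReal_im, Complex.mul_re, Complex.mul_im, Complex.I_re, Complex.I_im]
      refine ⟨by norm_num, by linarith only [hθ], by linarith only [hθ]⟩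
    exact ⟨_, hsub (mem_image_of_mem _ hm), mem_image_of_mem _ hm⟩
  · rintro z ⟨hz, z1, z2, z3⟩
    have z0 : 0 < ‖z‖ := norm_pos_iff.2 (by rintro rfl; simp at z1)
    obtain ⟨σ0, hσ0, hedge⟩ := FF_edge hβ hβ1 hb
      (η := (hh β b - (z * ei (-(π * (β + b) / 2))).re) / 2) (by linarith only [z3])
    set σ1 : ℝ := min (-1) (log (‖z‖ / 2) + log (1 / 2) / 2) with hσ1
    let Q : Set ℂ := Icc σ1 σ0 ×ℂ Icc 0 (π * β)
    have hQ : IsCompact Q := isCompact_Icc.reProdIm isCompact_Icc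
    have hQc : IsClosed (FF β b '' Q) := (hQ.image_of_continuousOn fun w hw =>
      (FF_der hβ b (hw.1.2.trans_lt hσ0)).continuousAt.continuousWithinAt).isClosed
    let N : Set ℂ := {ζ | ‖z‖ / 2 < ‖ζ‖ ∧ (ζ * ei (-(π * (β + b) / 2))).re <
      hh β b - (hh β b - (z * ei (-(π * (β + b) / 2))).re) / 2}
    have hN : IsOpen N := (isOpen_lt continuous_const continuous_norm).inter
      (isOpen_lt (Complex.continuous_re.comp (continuous_id.mul continuous_const))
        continuous_const)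
    have hzN : z ∈ N := ⟨by linarith only [z0], by linarith only [z3]⟩
    have h1 : N ∩ FF β b '' {w | w.re < 0 ∧ 0 < w.im ∧ w.im < π * β} ⊆ FF β b '' Q := by
      rintro _ ⟨⟨n1, n2⟩, w, ⟨h0, h1, h2⟩, rfl⟩
      refine ⟨w, ⟨⟨?_, ?_⟩, h1.le, h2.le⟩, rfl⟩
      · by_contra hlt
        have hlt : w.re < σ1 := not_le.1 hlt
        have a1 := Conf_FF_le hβ hβ1 hb (w := w) (hlt.le.trans (min_le_left _ _))
        have a2 : exp (w.re - log (1 / 2) / 2) ≤ ‖z‖ / 2 := by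
          rw [← exp_log (half_pos z0)]
          exact exp_le_exp.2 (by linarith only [hlt, hlt.trans_le (min_le_right _ _)])
        linarith only [n1, a1, a2]
      · by_contra hlt
        have := hedge w (not_le.1 hlt) h0 h1.le h2.le
        linarith only [n2, this]
    obtain ⟨w, ⟨⟨-, w1⟩, w2, w3⟩, rfl⟩ :=
      hQc.closure_subset_iff.2 h1 (hN.inter_closure ⟨hzN, hz⟩)
    have w0 : w.re < 0 := w1.trans_lt hσ0
    refine ⟨w, ⟨w0, lt_of_le_of_ne w2 fun h => ?_, lt_of_le_of_ne w3 fun h => ?_⟩, rfl⟩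
    · have : w = (w.re : ℂ) := by apply Complex.ext <;> simp [← h]
      rw [this, FF_bot hβ b w0, Complex.ofReal_im] at z1
      exact lt_irrefl _ z1
    · have := Conf_top_im hβ b w0
      rw [← h, Complex.re_add_im, h] at this
      exact z2.ne this

end Pool.Agent.Work.MP_267827_an.Up
end

-- merged part: Pool.Agent.Work.MP_267827_an.PS.UpB
section
/-! Test functions on the regular polygon with at least five sides. -/

set_option autoImplicit false

namespace Pool.Agent.Work.MP_267827_an.Up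

open MeasureTheory Set Filter Topology Metric Real

theorem Upper_polar {β : ℝ} (hβ : 0 < β) (hβ1 : β ≤ 2 / 5) {σ t : ℝ} (hσ : σ < 0) (h0 : 0 ≤ t)
    (h1 : t < 1) : ∃ r α : ℝ, 0 < r ∧ 0 ≤ α ∧ α < π * β ∧ Upper_P β (σ, t) = r * ei α := by
  have hθ : 0 < π * β := mul_pos pi_pos hβ
  rcases h0.eq_or_lt with h0 | h0
  · exact ⟨exp (SS β 0 σ), 0, exp_pos _, le_rfl, hθ, by
      rw [← h0, Upper_zero hβ hσ, ei_zero, mul_one]⟩
  have hm : Upper_P β (σ, t) ∈ Tri (π * β) (π * (β + 0) / 2) (hh β 0) := by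
    rw [← FF_image hβ hβ1 rfl]
    refine ⟨_, ⟨?_, ?_, ?_⟩, rfl⟩
    · rwa [Upper_pt_re]
    · rw [Upper_pt_im]
      positivity
    · rw [Upper_pt_im]
      linarith only [h1, hθ, mul_pos_of_neg_of_neg (Mathlib.Tactic.Linarith.sub_neg_of_lt h1) (Mathlib.Tactic.Linarith.sub_neg_of_lt hθ)]
  obtain ⟨a1, a2, -⟩ := hm
  set z := Upper_P β (σ, t)
  have hz : z ≠ 0 := fun h => by simp [h] at a1
  have e : z = (‖z‖ : ℝ) * ei (Complex.arg z) := (Complex.norm_mul_exp_arg_mul_I z).symm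
  refine ⟨‖z‖, Complex.arg z, norm_pos_iff.2 hz, Complex.arg_nonneg_iff.2 a1.le, ?_, e⟩
  by_contra c
  rw [e, mul_assoc, ← ei_add, Complex.im_ofReal_mul, ei_im] at a2
  have := sin_nonneg_of_nonneg_of_le_pi (x := Complex.arg z + -(π * β)) (by linarith only [c, not_lt.1 c])
    (by linarith only [hθ, Complex.arg_le_pi z])
  linarith only [hβ, a2, hβ1, this, norm_nonneg z, mul_pos_of_neg_of_neg (Mathlib.Tactic.Linarith.sub_neg_of_lt hβ) (Mathlib.Tactic.Linarith.sub_neg_of_lt a2), mul_nonneg_of_nonpos_of_nonpos (Mathlib.Tactic.Linarith.sub_nonpos_of_le hβ1) (le_of_lt (Mathlib.Tactic.Linarith.sub_neg_of_lt a2)), mul_nonneg_of_nonpos_of_nonpos (Mathlib.Tactic.Linarith.sub_nonpos_of_le this) (Mathlib.Tactic.Linarith.sub_nonpos_of_le (norm_nonneg z))]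

theorem Upper_inj {β : ℝ} {n : ℕ} (hβ : 0 < β) (hβ1 : β ≤ 2 / 5) (hn : β * n = 2)
    {p q : ℝ × ℝ} (hp : p.1 < 0) (hq : q.1 < 0) (h : Upper_P β p = Upper_P β q) :
    p.1 = q.1 ∧ ∃ m : ℤ, p.2 = q.2 + n * m := by
  obtain ⟨σ, t⟩ := p
  obtain ⟨σ', t'⟩ := q
  have hθ : 0 < π * β := mul_pos pi_pos hβ
  simp only at hp hq ⊢
  obtain ⟨r, α, r0, a0, a1, e⟩ := Upper_polar hβ hβ1 hp (Int.fract_nonneg t) (Int.fract_lt_one t)
  obtain ⟨r', α', r0', a0', a1', e'⟩ :=
    Upper_polar hβ hβ1 hq (Int.fract_nonneg t') (Int.fract_lt_one t')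
  rw [← Int.fract_add_floor t, ← Int.fract_add_floor t', Upper_int hβ, Upper_int hβ, e, e'] at h
  have hr : r = r' := by
    have := congrArg norm h
    simpa [abs_of_pos r0, abs_of_pos r0'] using this
  subst hr
  have h2 : ei (π * β * ⌊t⌋ + α) = ei (π * β * ⌊t'⌋ + α') := by
    apply mul_left_cancel₀ (Complex.ofReal_ne_zero.2 r0.ne')
    rw [ei_add, ei_add]
    linear_combination h
  obtain ⟨m, hm⟩ := Complex.exp_eq_exp_iff_exists_int.1 h2
  have h3 : π * β * ⌊t⌋ + α = π * β * ⌊t'⌋ + α' + m * (2 * π) := by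
    have := congrArg Complex.im hm
    simpa using this
  have h4 : α - α' = π * β * ((⌊t'⌋ + n * m - ⌊t⌋ : ℤ) : ℝ) := by
    push_cast
    rw [← hn] at h3
    linarith only [h3]
  have h5 : (⌊t'⌋ + n * m - ⌊t⌋ : ℤ) = 0 := by
    have b1 : ((⌊t'⌋ + n * m - ⌊t⌋ : ℤ) : ℝ) < 1 := by (refine lt_of_not_ge fun h_nl => ?_; linarith only [h_nl, a1, a0', h4, hθ, mul_nonneg_of_nonpos_of_nonpos (le_of_lt (Mathlib.Tactic.Linarith.sub_neg_of_lt hθ)) (Mathlib.Tactic.Linarith.sub_nonpos_of_le h_nl)])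
    have b2 : (-1 : ℝ) < ((⌊t'⌋ + n * m - ⌊t⌋ : ℤ) : ℝ) := by (refine lt_of_not_ge fun h_nl => ?_; linarith only [h_nl, a0, a1', h4, hθ, mul_nonneg_of_nonpos_of_nonpos (le_of_lt (Mathlib.Tactic.Linarith.sub_neg_of_lt hθ)) (Mathlib.Tactic.Linarith.sub_nonpos_of_le h_nl)])
    have c1 : (⌊t'⌋ + n * m - ⌊t⌋ : ℤ) < 1 := by exact_mod_cast b1
    have c2 : (-1 : ℤ) < ⌊t'⌋ + n * m - ⌊t⌋ := by exact_mod_cast b2
    omega
  have h6 : α = α' := by
    rw [h5] at h4
    simp only [Int.cast_zero, mul_zero] at h4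
    linarith only [h4]
  subst h6
  have h7 := FF_inj (b := 0) hβ hβ1 rfl (x₁ := pt 1 (π * β) (σ, Int.fract t))
    (x₂ := pt 1 (π * β) (σ', Int.fract t'))
    ⟨by rwa [Upper_pt_re], by rw [Upper_pt_im]; exact mul_nonneg hθ.le (Int.fract_nonneg _),
      by rw [Upper_pt_im]; (refine le_of_not_gt fun h_nl => ?_; linarith only [h_nl, hβ, hβ1, hθ, Int.fract_lt_one t, mul_pos_of_neg_of_neg (Mathlib.Tactic.Linarith.sub_neg_of_lt hβ) (Mathlib.Tactic.Linarith.sub_neg_of_lt h_nl), mul_nonneg_of_nonpos_of_nonpos (Mathlib.Tactic.Linarith.sub_nonpos_of_le hβ1) (le_of_lt (Mathlib.Tactic.Linarith.sub_neg_of_lt h_nl)), mul_pos_of_neg_of_neg (Mathlib.Tactic.Linarith.sub_neg_of_lt hθ) (Mathlib.Tactic.Linarith.sub_neg_of_lt (Int.fract_lt_one t))])⟩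
    ⟨by rwa [Upper_pt_re], by rw [Upper_pt_im]; exact mul_nonneg hθ.le (Int.fract_nonneg _),
      by rw [Upper_pt_im]; (refine le_of_not_gt fun h_nl => ?_; linarith only [h_nl, hβ, hβ1, hθ, Int.fract_lt_one t', mul_pos_of_neg_of_neg (Mathlib.Tactic.Linarith.sub_neg_of_lt hβ) (Mathlib.Tactic.Linarith.sub_neg_of_lt h_nl), mul_nonneg_of_nonpos_of_nonpos (Mathlib.Tactic.Linarith.sub_nonpos_of_le hβ1) (le_of_lt (Mathlib.Tactic.Linarith.sub_neg_of_lt h_nl)), mul_pos_of_neg_of_neg (Mathlib.Tactic.Linarith.sub_neg_of_lt hθ) (Mathlib.Tactic.Linarith.sub_neg_of_lt (Int.fract_lt_one t'))])⟩ (e.trans e'.symm)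
  have h8 := congrArg Complex.re h7
  have h9 := congrArg Complex.im h7
  rw [Upper_pt_re, Upper_pt_re] at h8
  rw [Upper_pt_im, Upper_pt_im] at h9
  refine ⟨h8, m, ?_⟩
  have h10 : Int.fract t = Int.fract t' := mul_left_cancel₀ hθ.ne' h9
  have h11 : ((⌊t'⌋ + n * m - ⌊t⌋ : ℤ) : ℝ) = 0 := by exact_mod_cast h5
  push_cast at h11
  linarith only [h10, h11, Int.fract_add_floor t, Int.fract_add_floor t']

theorem Upper_cov {β : ℝ} {n : ℕ} (hβ : 0 < β) (hβ1 : β ≤ 2 / 5) (hn : β * n = 2) {g : ℂ → ℝ}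
    (hg : Integrable g)
    (h0 : ∀ z, g z ≠ 0 → ∃ p : ℝ × ℝ, p.1 < 0 ∧ p.2 ∈ Icc (0 : ℝ) n ∧ Upper_P β p = z)
    {h : ℝ × ℝ → ℝ} (per : ∀ σ t, h (σ, t + 1) = h (σ, t))
    (hh : ∀ p : ℝ × ℝ, p.1 < 0 →
      π * β * ‖GG β 0 (pt 1 (π * β) p)‖ ^ 2 * g (Upper_P β p) = h p) :
    Integrable h nu ∧ ∫ z, g z = n * ∫ p, h p ∂nu := by
  have hθ : 0 < π * β := mul_pos pi_pos hβ
  have hn1 : 1 ≤ n := Nat.pos_of_ne_zero fun c => by simp [c] at hn
  have hD : MeasurableSet (Iio (0 : ℝ) ×ˢ Ioo (0 : ℝ) n) := measurableSet_Iio.prod measurableSet_Ioo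
  obtain ⟨-, c1, c2⟩ := cov hD (F := FF β 0) (F' := GG β 0) one_pos hθ
    (fun p hp => FF_der hβ 0 (by rw [Upper_pt_re]; exact hp.1)) (fun p hp q hq e => by
      obtain ⟨e1, m, e2⟩ := Upper_inj hβ hβ1 hn hp.1 hq.1 e
      have hn0 : (0 : ℝ) < n := by exact_mod_cast hn1
      have b1 : (m : ℝ) < 1 := by (refine lt_of_not_ge fun h_nl => ?_; linarith only [h_nl, e2, hp, hq, hp.2.2, hq.2.1, mul_nonneg_of_nonpos_of_nonpos (Mathlib.Tactic.Linarith.sub_nonpos_of_le (Mathlib.Tactic.Linarith.natCast_nonneg ℝ n)) (Mathlib.Tactic.Linarith.sub_nonpos_of_le h_nl)])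
      have b2 : (-1 : ℝ) < m := by (refine lt_of_not_ge fun h_nl => ?_; linarith only [h_nl, e2, hp, hq, hp.2.1, hq.2.2, mul_nonneg_of_nonpos_of_nonpos (Mathlib.Tactic.Linarith.sub_nonpos_of_le (Mathlib.Tactic.Linarith.natCast_nonneg ℝ n)) (Mathlib.Tactic.Linarith.sub_nonpos_of_le h_nl)])
      have c1 : m < 1 := by exact_mod_cast b1
      have c2 : -1 < m := by exact_mod_cast b2
      have : m = 0 := by omega
      subst this
      exact Prod.ext e1 (by simpa using e2)) g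
  have e : EqOn (fun p => (1 * (π * β) * ‖GG β 0 (pt 1 (π * β) p)‖ ^ 2) •
      g (FF β 0 (pt 1 (π * β) p))) h (Iio (0 : ℝ) ×ˢ Ioo (0 : ℝ) n) := fun p hp => by
    rw [← hh p hp.1]
    simp only [one_mul, smul_eq_mul, Upper_P]
  obtain ⟨d1, d2⟩ := Upper_period hn1 per ((c1.1 hg.integrableOn).congr_fun e hD)
  refine ⟨d1, ?_⟩
  rw [← d2, ← setIntegral_congr_fun hD e, ← c2]
  refine (setIntegral_eq_integral_of_ae_compl_eq_zero ?_).symm
  filter_upwards [measure_eq_zero_iff_ae_notMem.1 Upper_null] with z hz hz'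
  by_contra c
  obtain ⟨⟨σ, t⟩, p1, p2, rfl⟩ := h0 z c
  have z0 : (Upper_P β (σ, 0)).im = 0 := by rw [Upper_zero hβ p1, Complex.ofReal_im]
  rcases p2.1.eq_or_lt with p3 | p3
  · simp only at p3
    exact hz (by rw [← p3]; exact z0)
  rcases p2.2.eq_or_lt with p4 | p4
  · simp only at p4
    have := Upper_full hβ hn σ 0 1
    simp only [zero_add, Int.cast_one, mul_one] at this
    exact hz (by rw [p4, this]; exact z0)
  exact hz' ⟨(σ, t), ⟨p1, p3, p4⟩, rfl⟩

theorem upper {n : ℕ} (hn : 5 ≤ n) {V : ℝ × ℝ → ℝ} (hV : ContDiffOn ℝ 1 V {p | p.1 < 0})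
    (per : ∀ σ t, V (σ, t + 1) = V (σ, t)) {A B : ℝ} (hB : B < 0)
    (supp : ∀ p : ℝ × ℝ, p.1 < 0 → V p ≠ 0 → A ≤ p.1 ∧ p.1 ≤ B) :
    ∃ u : ℂ → ℝ, Test (Ins (Gam (reg n (rr n)))) u ∧
      EE u = n * (π * (2 / n) * Ds V + Dt V / (π * (2 / n))) ∧
      NN u = n * (π * (2 / n) * NW (2 / n) 0 V) := by
  classical
  have hn' : (5 : ℝ) ≤ n := by exact_mod_cast hn
  have hn0 : (0 : ℝ) < n := by linarith only [hn']
  set β : ℝ := 2 / n with hβd
  have hβ : 0 < β := by positivity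
  have hβ1 : β ≤ 2 / 5 := by
    rw [hβd, div_le_div_iff₀ hn0 (by norm_num)]
    linarith only [hn']
  have hβn : β * n = 2 := div_mul_cancel₀ _ hn0.ne'
  have hθ : 0 < π * β := mul_pos pi_pos hβ
  have perZ : ∀ (σ t : ℝ) (k : ℤ), V (σ, t + k) = V (σ, t) := fun σ t k => by
    have hp : Function.Periodic (fun t => V (σ, t)) 1 := per σ
    simpa using hp.int_mul k t
  obtain ⟨u, hu⟩ : ∃ u : ℂ → ℝ, u = fun z =>
    if h : ∃ p : ℝ × ℝ, p.1 < 0 ∧ Upper_P β p = z then V h.choose else 0 := ⟨_, rfl⟩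
  have huV : ∀ p : ℝ × ℝ, p.1 < 0 → u (Upper_P β p) = V p := fun p hp => by
    have h : ∃ q : ℝ × ℝ, q.1 < 0 ∧ Upper_P β q = Upper_P β p := ⟨p, hp, rfl⟩
    rw [hu]
    simp only [dif_pos h]
    obtain ⟨e1, m, e2⟩ := Upper_inj hβ hβ1 hβn h.choose_spec.1 hp h.choose_spec.2
    have := perZ p.1 p.2 (n * m)
    push_cast at this
    rw [← this, ← e2, ← e1]
  set C : Set ℂ := Upper_P β '' (Icc A B ×ˢ Icc (0 : ℝ) n) with hC
  have hCc : IsCompact C := (isCompact_Icc.prod isCompact_Icc).image_of_continuousOn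
    fun p hp => (Upper_contAt hβ (hp.1.2.trans_lt hB)).continuousWithinAt
  have hsupp : Function.support u ⊆ C := fun z hz => by
    by_cases h : ∃ p : ℝ × ℝ, p.1 < 0 ∧ Upper_P β p = z
    · obtain ⟨⟨σ, t⟩, p1, rfl⟩ := h
      rw [Function.mem_support, huV _ p1] at hz
      have b1 := Int.fract_nonneg (t / n)
      have b2 := Int.fract_lt_one (t / n)
      have b3 : t = n * Int.fract (t / n) + n * ⌊t / n⌋ := by
        rw [← mul_add, Int.fract_add_floor, mul_div_cancel₀ _ hn0.ne']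
      refine ⟨(σ, n * Int.fract (t / n)), ⟨supp (σ, t) p1 hz, by positivity,
        (mul_lt_of_lt_one_right hn0 b2).le⟩, ?_⟩
      rw [← Upper_full hβ hβn σ _ ⌊t / n⌋, ← b3]
    · exact absurd (by rw [hu]; simp only [dif_neg h]) hz
  have hts : tsupport u ⊆ C := closure_minimal hsupp hCc.isClosed
  have hcs : HasCompactSupport u := hCc.of_isClosed_subset (isClosed_tsupport u) hts
  have hsm : ContDiff ℝ 1 u := contDiff_iff_contDiffAt.2 fun z => by
    by_cases h : z ∈ C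
    · obtain ⟨p, hp, rfl⟩ := h
      exact Upper_smooth hβ hV huV (hp.1.2.trans_lt hB)
    · exact contDiffAt_const.congr_of_eventuallyEq
        (notMem_tsupport_iff_eventuallyEq.1 fun c => h (hts c))
  have hC0 : ∀ z ∈ C, ∃ p : ℝ × ℝ, p.1 < 0 ∧ p.2 ∈ Icc (0 : ℝ) n ∧ Upper_P β p = z := by
    rintro _ ⟨p, hp, rfl⟩
    exact ⟨p, hp.1.2.trans_lt hB, hp.2, rfl⟩
  refine ⟨u, ⟨hsm, hcs, hts.trans ?_⟩, ?_, ?_⟩
  · rintro _ ⟨⟨σ, t⟩, hp, rfl⟩
    have hσ : σ < 0 := hp.1.2.trans_lt hB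
    have hcos : 0 < cos (π / n) := by
      refine cos_pos_of_mem_Ioo ⟨by linarith only [hn0, div_pos pi_pos hn0, pi_pos], ?_⟩
      exact div_lt_div_of_pos_left pi_pos two_pos (by linarith only [hn', hβ, hβ1])
    obtain ⟨l1, l2, l3⟩ := FF_lt (b := 0) hβ hβ1 rfl
      (w := pt 1 (π * β) (σ, Int.fract t)) (by rwa [Upper_pt_re])
      (by rw [Upper_pt_im]; exact mul_nonneg hθ.le (Int.fract_nonneg _))
      (by rw [Upper_pt_im]; (refine le_of_not_gt fun h_nl => ?_; linarith only [h_nl, hβ, hβ1, hθ, Int.fract_lt_one t, mul_pos_of_neg_of_neg (Mathlib.Tactic.Linarith.sub_neg_of_lt hβ) (Mathlib.Tactic.Linarith.sub_neg_of_lt h_nl), mul_nonneg_of_nonpos_of_nonpos (Mathlib.Tactic.Linarith.sub_nonpos_of_le hβ1) (le_of_lt (Mathlib.Tactic.Linarith.sub_neg_of_lt h_nl)), mul_pos_of_neg_of_neg (Mathlib.Tactic.Linarith.sub_neg_of_lt hθ) (Mathlib.Tactic.Linarith.sub_neg_of_lt (Int.fract_lt_one t))]))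
    have e1 : π * β = 2 * π / n := by rw [hβd]; ring
    have e2 : π * (β + 0) / 2 = π / n := by rw [hβd]; ring
    have hr : 0 < rr n := div_pos (hh_pos hβ hβ1 rfl) hcos
    have e3 : rr n * cos (π / n) = hh β 0 := div_mul_cancel₀ _ hcos.ne'
    have := reg_mem (n := n) (by omega) hr ⌊t⌋.toNat l1 (by rw [← e1]; exact l2)
      (by rw [e3, ← e2]; exact l3)
    have e4 : ((⌊t⌋.toNat : ℕ) : ℝ) = (⌊t⌋ : ℝ) := by
      have h1 : ((⌊t⌋.toNat : ℕ) : ℤ) = ⌊t⌋ := Int.toNat_of_nonneg (Int.floor_nonneg.2 hp.2.1)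
      exact_mod_cast congrArg (fun x : ℤ => (x : ℝ)) h1
    rw [← Int.fract_add_floor t, Upper_int hβ,
      show π * β * ⌊t⌋ = 2 * π * (⌊t⌋.toNat : ℕ) / n by rw [e4, e1]; ring]
    exact this
  · have hf : ∀ σ t, fderiv ℝ V (σ, t + 1) = fderiv ℝ V (σ, t) := fun σ t => by
      have e : (fun q : ℝ × ℝ => V (q + (0, 1))) = V := by
        funext q
        rw [← per q.1 q.2]
        congr 1
        ext <;> simp
      have := fderiv_comp_add_right (𝕜 := ℝ) (f := V) (x := (σ, t)) ((0, 1) : ℝ × ℝ)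
      rw [e] at this
      simpa using this.symm
    have k1 : Continuous fun z => ‖fderiv ℝ u z‖ ^ 2 :=
      (hsm.continuous_fderiv one_ne_zero).norm.fun_pow 2
    have k2 : HasCompactSupport fun z => ‖fderiv ℝ u z‖ ^ 2 :=
      (hcs.fderiv ℝ).comp_left (g := fun L : ℂ →L[ℝ] ℝ => ‖L‖ ^ 2) (by simp)
    obtain ⟨i1, i2⟩ := Upper_cov hβ hβ1 hβn (k1.integrable_of_hasCompactSupport k2)
      (fun z hz => hC0 z (hts (support_fderiv_subset ℝ fun c => hz (by simp [c]))))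
      (h := fun p => π * β * ds V p ^ 2 + dt V p ^ 2 / (π * β))
      (fun σ t => by simp only [ds, dt, hf]) (fun p hp => by
        obtain ⟨c1, c2⟩ := chain (u := u) (a := 1) (q := π * β) (p := p)
          (FF_der hβ 0 (by rwa [Upper_pt_re])) (hsm.differentiable one_ne_zero _)
        have e : (fun p => u (FF β 0 (pt 1 (π * β) p))) =ᶠ[𝓝 p] V := by
          filter_upwards [(isOpen_lt continuous_fst continuous_const).mem_nhds hp] with q hq
          exact huV q hq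
        rw [ds, e.fderiv_eq] at c1
        rw [dt, e.fderiv_eq] at c2
        simp only [ds, dt]
        rw [c1, c2, mul_assoc, Upper_P, ← norm_sq_dual]
        field_simp)
    have m1 : Measurable fun p => π * β * ds V p ^ 2 :=
      ((measurable_fderiv_apply_const ℝ V (1, 0)).pow_const 2).const_mul _
    have m2 : Measurable fun p => dt V p ^ 2 / (π * β) :=
      ((measurable_fderiv_apply_const ℝ V (0, 1)).pow_const 2).div_const _
    have j1 : Integrable (fun p => π * β * ds V p ^ 2) nu :=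
      i1.mono' m1.aestronglyMeasurable (Eventually.of_forall fun p => by
        rw [Real.norm_of_nonneg (by positivity)]
        exact le_add_of_nonneg_right (by positivity))
    have j2 : Integrable (fun p => dt V p ^ 2 / (π * β)) nu :=
      i1.mono' m2.aestronglyMeasurable (Eventually.of_forall fun p => by
        rw [Real.norm_of_nonneg (by positivity)]
        exact le_add_of_nonneg_left (by positivity))
    rw [EE, i2, integral_add j1 j2, integral_const_mul, integral_div, Ds, Dt]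
  · have k1 : Continuous fun z => u z ^ 2 := hsm.continuous.fun_pow 2
    have k2 : HasCompactSupport fun z => u z ^ 2 :=
      hcs.comp_left (g := fun x : ℝ => x ^ 2) (by simp)
    obtain ⟨-, i2⟩ := Upper_cov hβ hβ1 hβn (k1.integrable_of_hasCompactSupport k2)
      (fun z hz => hC0 z (hsupp fun c => hz (by simp [c])))
      (h := fun p => π * β * (exp (2 * p.1) * WW β 0 p * V p ^ 2))
      (fun σ t => by simp only [Upper_WW, per]) (fun p hp => by
        rw [norm_GG_sq hβ, huV p hp]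
        ring)
    rw [NN, i2, integral_const_mul, NW]

/-- the area of the polygon and the integrability of the weight -/
theorem area {n : ℕ} (hn : 5 ≤ n) : 0 < rr n ∧
    Integrable (fun p : ℝ × ℝ => exp (2 * p.1) * WW (2 / n) 0 p) nu ∧
    volume.real (Ins (Gam (reg n (rr n)))) =
      n * (π * (2 / n) * ∫ p, exp (2 * p.1) * WW (2 / n) 0 p ∂nu) := by
  have hn' : (5 : ℝ) ≤ n := by exact_mod_cast hn
  have hn0 : (0 : ℝ) < n := by linarith only [hn']
  set β : ℝ := 2 / n with hβd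
  have hβ : 0 < β := by positivity
  have hβ1 : β ≤ 2 / 5 := by
    rw [hβd, div_le_div_iff₀ hn0 (by norm_num)]
    linarith only [hn']
  have hθ : 0 < π * β := mul_pos pi_pos hβ
  obtain ⟨a0, a1⟩ := Reg_ang hn
  have hcos : 0 < cos (π / n) := cos_pos_of_mem_Ioo ⟨by linarith only [a0, a1], a1⟩
  have h0 := hh_pos (b := 0) hβ hβ1 rfl
  have hr : 0 < rr n := div_pos h0 hcos
  have e1 : π * β = 2 * (π / n) := by rw [hβd]; ring
  have e2 : π * (β + 0) / 2 = π / n := by rw [hβd]; ring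
  have e3 : rr n * cos (π / n) = hh β 0 := div_mul_cancel₀ _ hcos.ne'
  have hD : MeasurableSet (Iio (0 : ℝ) ×ˢ Ioo (0 : ℝ) 1) := measurableSet_Iio.prod measurableSet_Ioo
  have hm : ∀ p ∈ Iio (0 : ℝ) ×ˢ Ioo (0 : ℝ) 1,
      (pt 1 (π * β) p).re < 0 ∧ 0 < (pt 1 (π * β) p).im ∧ (pt 1 (π * β) p).im < π * β :=
    fun p hp => by
      rw [Upper_pt_re, Upper_pt_im]
      exact ⟨hp.1, mul_pos hθ hp.2.1, mul_lt_of_lt_one_right hθ hp.2.2⟩
  obtain ⟨-, c1, c2⟩ := cov hD (F := FF β 0) (F' := GG β 0) one_pos hθ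
    (fun p hp => FF_der hβ 0 (hm p hp).1) (fun p hp q hq e => by
      have h1 := FF_inj (b := 0) hβ hβ1 rfl ⟨(hm p hp).1, (hm p hp).2.1.le, (hm p hp).2.2.le⟩
        ⟨(hm q hq).1, (hm q hq).2.1.le, (hm q hq).2.2.le⟩ e
      have h2 := congrArg Complex.re h1
      have h3 := congrArg Complex.im h1
      rw [Upper_pt_re, Upper_pt_re] at h2
      rw [Upper_pt_im, Upper_pt_im] at h3
      exact Prod.ext h2 (mul_left_cancel₀ hθ.ne' h3)) fun _ => (1 : ℝ)
  have im : (fun p => FF β 0 (pt 1 (π * β) p)) '' (Iio (0 : ℝ) ×ˢ Ioo (0 : ℝ) 1) =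
      Tri (π * β) (π * (β + 0) / 2) (hh β 0) := by
    rw [← FF_image hβ hβ1 rfl]
    ext z
    constructor
    · rintro ⟨p, hp, rfl⟩
      exact ⟨_, hm p hp, rfl⟩
    · rintro ⟨w, ⟨w1, w2, w3⟩, rfl⟩
      refine ⟨(w.re, w.im / (π * β)), ⟨w1, div_pos w2 hθ, (div_lt_one hθ).2 w3⟩, ?_⟩
      beta_reduce
      congr 1
      apply Complex.ext
      · rw [Upper_pt_re]
      · rw [Upper_pt_im, mul_div_cancel₀ _ hθ.ne']
  have hv := tri_vol hθ h0 (γ := π * (β + 0) / 2) (by rwa [e2, abs_of_pos a0])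
    (by rwa [e2, e1, show 2 * (π / n) - π / n = π / n by ring, abs_of_pos a0])
  have e4 : (fun p => (1 * (π * β) * ‖GG β 0 (pt 1 (π * β) p)‖ ^ 2) • (1 : ℝ)) =
      fun p : ℝ × ℝ => π * β * (exp (2 * p.1) * WW β 0 p) := by
    funext p
    rw [norm_GG_sq hβ, smul_eq_mul, one_mul, mul_one]
  rw [im, e4] at c1 c2
  have i1 := c1.1 (integrableOn_const (by rw [hv]; exact ENNReal.ofReal_ne_top))
  rw [IntegrableOn, Measure.volume_eq_prod, ← TwoD_nu'] at i1
  rw [Measure.volume_eq_prod ℝ ℝ, ← TwoD_nu', integral_const_mul,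
    setIntegral_one_eq_measureReal] at c2
  refine ⟨hr, (integrable_const_mul_iff (Ne.isUnit hθ.ne') _).1 i1, ?_⟩
  have s0 := sin_pos_of_pos_of_lt_pi a0 (by linarith only [a0, a1])
  rw [← c2, Measure.real, Measure.real, reg_vol hn hr, hv, e2, e1,
    show 2 * (π / n) - π / n = π / n by ring, show 2 * π / n = 2 * (π / n) by ring, ← e3,
    sin_two_mul, tan_eq_sin_div_cos, ENNReal.toReal_ofReal (by positivity),
    ENNReal.toReal_ofReal (by positivity)]
  field_simp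
  ring

end Pool.Agent.Work.MP_267827_an.Up
end

-- merged part: Pool.Agent.Work.MP_267827_an.PS.AUp
section
/-! Test functions on the regular polygon (owner helper64).

`WW (2 x) 0 (σ, t) = WW x x (σ, 2 t)`; functions on the right triangle are folded with a smooth
approximation of the reflection and cut off near both ends of the half strip. -/

set_option autoImplicit false

namespace Pool.Agent.Work.MP_267827_an.PS

open MeasureTheory Set Filter Topology Real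

theorem AUp_tent : MeasurePreserving (fun p : ℝ × ℝ => (p.1, 1 - |2 * p.2 - 1|)) nu nu := by
  have h : MeasurePreserving (fun t : ℝ => 1 - |2 * t - 1|) m1 m1 := by
    refine ⟨by fun_prop, Measure.ext_of_Ici _ _ fun a => ?_⟩
    rw [Measure.map_apply (by fun_prop) measurableSet_Ici, Measure.restrict_apply' measurableSet_Ioo,
      Measure.restrict_apply' measurableSet_Ioo]
    have k : ∀ t : ℝ, a ≤ 1 - |2 * t - 1| ↔ -(1 - a) ≤ 2 * t - 1 ∧ 2 * t - 1 ≤ 1 - a :=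
      fun t => le_sub_comm.trans abs_le
    rcases le_or_gt a 0 with h | h
    · congr 1
      ext t
      simp only [mem_inter_iff, mem_preimage, mem_Ici, mem_Ioo, k]
      constructor
      · rintro ⟨-, h1, h2⟩
        exact ⟨by linarith, h1, h2⟩
      · rintro ⟨-, h1, h2⟩
        exact ⟨⟨by linarith, by linarith⟩, h1, h2⟩
    · have e1 : (fun t : ℝ => 1 - |2 * t - 1|) ⁻¹' Ici a ∩ Ioo 0 1 = Icc (a / 2) (1 - a / 2) := by
        ext t
        simp only [mem_inter_iff, mem_preimage, mem_Ici, mem_Ioo, mem_Icc, k]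
        constructor
        · rintro ⟨⟨h1, h2⟩, -⟩
          exact ⟨by linarith only [h1], by linarith only [h2]⟩
        · rintro ⟨h1, h2⟩
          exact ⟨⟨by linarith only [h1], by linarith only [h2]⟩, by linarith only [h, h1], by linarith only [h, h2]⟩
      have e2 : Ici a ∩ Ioo 0 1 = Ico a 1 := by
        ext t
        simp only [mem_inter_iff, mem_Ici, mem_Ioo, mem_Ico]
        exact ⟨fun h1 => ⟨h1.1, h1.2.2⟩, fun h1 => ⟨h1.1, by linarith only [h, h1, h1.1], h1.2⟩⟩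
      rw [e1, e2, Real.volume_Icc, Real.volume_Ico]
      congr 1
      ring
  exact (MeasurePreserving.id m0).prod h

theorem AUp_dbl {F : ℝ × ℝ → ℝ} (hF : AEStronglyMeasurable F nu)
    (sym : ∀ σ t, σ < 0 → F (σ, 2 - t) = F (σ, t)) :
    (Integrable (fun p : ℝ × ℝ => F (p.1, 2 * p.2)) nu → Integrable F nu) ∧
      ∫ p, F (p.1, 2 * p.2) ∂nu = ∫ p, F p ∂nu := by
  have e : (fun p : ℝ × ℝ => F (p.1, 2 * p.2)) =ᵐ[nu] fun p => F (p.1, 1 - |2 * p.2 - 1|) :=
    ae_nu fun p hp _ => by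
      rcases le_total (2 * p.2 - 1) 0 with h | h
      · simp only [abs_of_nonpos h]
        congr 2
        ring
      · simp only [abs_of_nonneg h]
        rw [← sym _ _ hp]
        congr 2
        ring
  refine ⟨fun h => (AUp_tent.integrable_comp hF).1 (h.congr e), ?_⟩
  rw [integral_congr_ae e]
  conv_rhs => rw [← AUp_tent.map_eq]
  exact (integral_map AUp_tent.measurable.aemeasurable (by rwa [AUp_tent.map_eq])).symm

theorem AUp_W {x : ℝ} (hx : 0 < x) {σ : ℝ} (hσ : σ < 0) (t : ℝ) :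
    WW (2 * x) 0 (σ, t) = WW x x (σ, 2 * t) := by
  set z := Complex.exp ((σ / (2 * x) : ℝ) + π * t * Complex.I) with hz
  have h1 : ‖z‖ < 1 := by
    rw [hz, Complex.norm_exp]
    simpa [-Complex.ofReal_div] using div_neg_of_neg_of_pos hσ (show 0 < 2 * x by positivity)
  have h2 : Complex.exp ((σ / x : ℝ) + π * (2 * t : ℝ) * Complex.I) = z * z := by
    rw [hz, ← Complex.exp_add]
    congr 1
    have : (x : ℂ) ≠ 0 := Complex.ofReal_ne_zero.2 hx.ne'
    push_cast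
    field_simp
    ring
  have a1 : ‖1 - z‖ ≠ 0 := norm_ne_zero_iff.2 fun h => by
    rw [← sub_eq_zero.1 h] at h1
    simp at h1
  have a2 : ‖1 + z‖ ≠ 0 := norm_ne_zero_iff.2 fun h => by
    rw [eq_neg_of_add_eq_zero_right h] at h1
    simp at h1
  simp only [WW, xx, u1, u2, h2, ← hz]
  rw [show 1 - z * z = (1 - z) * (1 + z) by ring, norm_mul, log_mul a1 a2]
  congr 1
  ring

theorem AUp_Wsym (x σ t : ℝ) : WW x x (σ, 2 - t) = WW x x (σ, t) := by
  have h : (1 : ℂ) - Complex.exp ((σ / x : ℝ) + π * (2 - t : ℝ) * Complex.I) =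
      (starRingEnd ℂ) (1 - Complex.exp ((σ / x : ℝ) + π * t * Complex.I)) := by
    rw [map_sub, map_one, ← Complex.exp_conj, ← Complex.exp_periodic ((starRingEnd ℂ) _)]
    congr 2
    simp only [map_add, map_mul, Complex.conj_ofReal, Complex.conj_I]
    push_cast
    ring
  simp only [WW, xx, u1, h, Complex.norm_conj, sub_self, mul_zero, zero_mul]

theorem AUp_NW {x : ℝ} (hw : Integrable (fun p : ℝ × ℝ => exp (2 * p.1) * WW x x p) nu)
    {ι : Type} {l : Filter ι} [l.IsCountablyGenerated] {G : ι → ℝ × ℝ → ℝ}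
    {V : ℝ × ℝ → ℝ} {K : ℝ} (hG : ∀ᶠ k in l, VV (G k) ∧ ∀ p : ℝ × ℝ, p.1 < 0 →
      p.2 ∈ Ioo (0 : ℝ) 1 → |G k p| ≤ K)
    (h : ∀ p : ℝ × ℝ, p.1 < 0 → p.2 ∈ Ioo (0 : ℝ) 1 → Tendsto (fun k => G k p) l (𝓝 (V p))) :
    Tendsto (fun k => NW x x (G k)) l (𝓝 (NW x x V)) := by
  refine tendsto_integral_filter_of_dominated_convergence _
    (hG.mono fun k hk => hw.1.mul hk.1.b0.sq.1) (hG.mono fun k hk =>
      ae_nu fun p h1 h2 => ?_) (hw.mul_const (K ^ 2))
    (ae_nu fun p h1 h2 => ((h p h1 h2).pow 2).const_mul _)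
  have w : 0 < exp (2 * p.1) * WW x x p := mul_pos (exp_pos _) (exp_pos _)
  rw [Real.norm_of_nonneg (by positivity), ← sq_abs]
  exact mul_le_mul_of_nonneg_left (pow_le_pow_left₀ (abs_nonneg _) (hk.2 p h1 h2) 2) w.le

/-- folding -/
theorem AUp_fold {x : ℝ} (hw : Integrable (fun p : ℝ × ℝ => exp (2 * p.1) * WW x x p) nu)
    {V : ℝ × ℝ → ℝ} (h : VV V) {ε : ℝ} (hε : 0 < ε) : ∃ U, VV U ∧
      (∀ σ t, U (σ, t + 2) = U (σ, t)) ∧ (∀ σ t, U (σ, 2 - t) = U (σ, t)) ∧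
      Ds U < Ds V + ε ∧ Dt U < Dt V + ε ∧ NW x x V - ε < NW x x U := by
  obtain ⟨τ, τ', h1, h2⟩ := Bot_tau
  obtain ⟨K, K0, hK⟩ := h.bd'
  have ev : ∀ᶠ r in 𝓝[<] (1 : ℝ), r ∈ Ioo (0 : ℝ) 1 := Ioo_mem_nhdsLT one_pos
  have a0 : ∀ r ∈ Ioo (0 : ℝ) 1, ContDiff ℝ 1 fun p : ℝ × ℝ => (p.1, τ r p.2) :=
    fun r hr => contDiff_fst.prodMk ((h1 r hr).1.comp contDiff_snd)
  have a1 : ∀ r ∈ Ioo (0 : ℝ) 1, ContDiffOn ℝ 1 (fun p : ℝ × ℝ => V (p.1, τ r p.2))
      {p | p.1 < 0} := fun r hr => h.c1.comp (a0 r hr).contDiffOn fun _ hp => hp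
  have a2 : ∀ r ∈ Ioo (0 : ℝ) 1, ∀ p : ℝ × ℝ, p.1 < 0 →
      ds (fun p : ℝ × ℝ => V (p.1, τ r p.2)) p = ds V (p.1, τ r p.2) :=
    fun r hr p hp => Bot_ds (a1 r hr) hp (h.der_s hp (τ r p.2))
  have a3 : ∀ r ∈ Ioo (0 : ℝ) 1, ∀ p : ℝ × ℝ, p.1 < 0 →
      |dt (fun p : ℝ × ℝ => V (p.1, τ r p.2)) p| ≤ |dt V (p.1, τ r p.2)| := fun r hr p hp => by
    rw [Bot_dt (a1 r hr) hp ((h.der_t hp _).comp p.2 ((h1 r hr).2 p.2).1), abs_mul]
    exact mul_le_of_le_one_right (abs_nonneg _) ((h1 r hr).2 p.2).2.1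
  have a4 : ∀ r ∈ Ioo (0 : ℝ) 1, ∀ p : ℝ × ℝ, p.1 < 0 → _ := fun r hr p hp =>
    hK (p.1, τ r p.2) hp ((h1 r hr).2 p.2).2.2.1
  have a5 : ∀ r ∈ Ioo (0 : ℝ) 1, VV fun p : ℝ × ℝ => V (p.1, τ r p.2) := fun r hr =>
    ⟨a1 r hr, K, fun p hp _ => ⟨(a4 r hr p hp).1, (a4 r hr p hp).2.1,
      a2 r hr p hp ▸ (a4 r hr p hp).2.2.1, (a3 r hr p hp).trans (a4 r hr p hp).2.2.2⟩⟩
  have lim : ∀ {F : ℝ × ℝ → ℝ}, ContinuousOn F {p | p.1 < 0} → ∀ p : ℝ × ℝ, p.1 < 0 →
      p.2 ∈ Ioo (0 : ℝ) 1 → Tendsto (fun r => F (p.1, τ r p.2)) (𝓝[<] 1) (𝓝 (F p)) :=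
    fun hF p hp ht => (hF.continuousAt (Bot_open.mem_nhds hp)).tendsto.comp
      (tendsto_const_nhds.prodMk_nhds (h2 p.2 ht))
  have dom : ∀ {F : ℝ × ℝ → ℝ}, ContinuousOn F {p | p.1 < 0} → (∀ r ∈ Ioo (0 : ℝ) 1, ∀ p : ℝ × ℝ,
      p.1 < 0 → |F (p.1, τ r p.2)| ≤ K * exp p.1) →
      (∀ r ∈ Ioo (0 : ℝ) 1, Integrable (fun p : ℝ × ℝ => F (p.1, τ r p.2) ^ 2) nu) ∧
      Tendsto (fun r => ∫ p, F (p.1, τ r p.2) ^ 2 ∂nu) (𝓝[<] 1) (𝓝 (∫ p, F p ^ 2 ∂nu)) :=
    fun {F} hF hb => by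
      have m : ∀ r ∈ Ioo (0 : ℝ) 1, AEStronglyMeasurable
          (fun p : ℝ × ℝ => F (p.1, τ r p.2) ^ 2) nu := fun r hr =>
        meas_nu ((hF.comp (a0 r hr).continuous.continuousOn fun _ hp => hp).pow 2)
      have b : ∀ r ∈ Ioo (0 : ℝ) 1, ∀ᵐ p ∂nu, ‖F (p.1, τ r p.2) ^ 2‖ ≤ K ^ 2 * exp (2 * p.1) :=
        fun r hr => ae_nu fun p hp _ => by
          rw [Real.norm_of_nonneg (sq_nonneg _), ← exp_sq, ← mul_pow, ← sq_abs]
          exact pow_le_pow_left₀ (abs_nonneg _) (hb r hr p hp) 2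
      exact ⟨fun r hr => (Bot_int_exp _).mono' (m r hr) (b r hr),
        tendsto_integral_filter_of_dominated_convergence _ (ev.mono m) (ev.mono b) (Bot_int_exp _)
          (ae_nu fun p hp ht => (lim hF p hp ht).pow 2)⟩
  have d1 := dom h.cont_ds fun r hr p hp => (a4 r hr p hp).2.2.1
  have d2 := dom h.cont_dt fun r hr p hp => (a4 r hr p hp).2.2.2
  have d3 := AUp_NW hw (K := K) (ev.mono fun r hr => ⟨a5 r hr, fun p hp _ => (a4 r hr p hp).1⟩)
    (lim h.cont)
  obtain ⟨r, hr, b1, b2, b3⟩ := (ev.and ((d1.2.eventually (gt_mem_nhds (lt_add_of_pos_right _ hε))).and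
    ((d2.2.eventually (gt_mem_nhds (lt_add_of_pos_right _ hε))).and
      (d3.eventually (lt_mem_nhds (sub_lt_self _ hε)))))).exists
  refine ⟨_, a5 r hr, fun σ t => ?_, fun σ t => ?_, lt_of_eq_of_lt ?_ b1, lt_of_le_of_lt ?_ b2, b3⟩
  · simp only [show t + 2 = t + 1 + 1 by ring, ((h1 r hr).2 _).2.2.2.1, sub_sub_cancel]
  · simp only [show 2 - t = 1 - t + 1 by ring, ((h1 r hr).2 _).2.2.2.1, ((h1 r hr).2 _).2.2.2.2,
      sub_sub_cancel]
  · exact integral_congr_ae (ae_nu fun p hp _ => by simp only [a2 r hr p hp])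
  · exact integral_mono_ae (a5 r hr).int_t (d2.1 r hr)
      (ae_nu fun p hp _ => sq_le_sq.2 (a3 r hr p hp))

/-- cutting off -/
theorem AUp_cut {x : ℝ} (hw : Integrable (fun p : ℝ × ℝ => exp (2 * p.1) * WW x x p) nu)
    {V : ℝ × ℝ → ℝ} (h : VV V) {ε : ℝ} (hε : 0 < ε) : ∃ (c : ℝ → ℝ) (A B : ℝ), B < 0 ∧
      (∀ σ, c σ ≠ 0 → A ≤ σ ∧ σ ≤ B) ∧ VV (fun p => c p.1 * V p) ∧
      Ds (fun p => c p.1 * V p) < Ds V + ε ∧ Dt (fun p => c p.1 * V p) ≤ Dt V ∧
      NW x x V - ε < NW x x fun p => c p.1 * V p := by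
  obtain ⟨c, c', C, h1, h2⟩ := Bot_cut
  obtain ⟨K, K0, hK⟩ := h.bd'
  have C0 : 0 ≤ C := le_trans (by positivity) ((h1 1 one_pos).2.2.1 0).2
  have a1 : ∀ k, 0 < k → ContDiffOn ℝ 1 (fun p : ℝ × ℝ => c k p.1 * V p) {p | p.1 < 0} :=
    fun k hk => ((h1 k hk).1.comp contDiff_fst).contDiffOn.mul h.c1
  have a2 : ∀ k, 0 < k → ∀ p : ℝ × ℝ, p.1 < 0 →
      ds (fun p : ℝ × ℝ => c k p.1 * V p) p = c' k p.1 * V p + c k p.1 * ds V p :=
    fun k hk p hp => Bot_ds (a1 k hk) hp (((h1 k hk).2.1 p.1).mul (h.der_s hp p.2))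
  have a3 : ∀ k, 0 < k → ∀ p : ℝ × ℝ, p.1 < 0 →
      dt (fun p : ℝ × ℝ => c k p.1 * V p) p = c k p.1 * dt V p :=
    fun k hk p hp => Bot_dt (a1 k hk) hp ((h.der_t hp p.2).const_mul (c k p.1))
  have a4 : ∀ k, 0 < k → ∀ x y : ℝ, |c k x * y| ≤ |y| := fun k hk x y => by
    rw [abs_mul]
    exact mul_le_of_le_one_left (abs_nonneg _) ((h1 k hk).2.2.1 x).1
  have a5 : ∀ k, 0 < k → VV fun p : ℝ × ℝ => c k p.1 * V p := fun k hk => by
    refine ⟨a1 k hk, K + C * K * exp (2 * k), fun p hp ht => ?_⟩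
    obtain ⟨b1, b2, b3, b4⟩ := hK p hp ht
    have b5 : 0 ≤ C * K * exp (2 * k) := by positivity
    have b6 : |c' k p.1 * V p| ≤ C * K * exp (2 * k) * exp p.1 := by
      rcases lt_or_ge p.1 (-(2 * k)) with e | e
      · rw [((h1 k hk).2.2.2.1 _ e).2, zero_mul, abs_zero]
        positivity
      · rw [abs_mul, mul_assoc, ← exp_add]
        calc _ ≤ |c' k p.1| * (K * |p.1|) := mul_le_mul_of_nonneg_left b2 (abs_nonneg _)
          _ = |c' k p.1| * |p.1| * K := by ring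
          _ ≤ C * K := mul_le_mul_of_nonneg_right ((h1 k hk).2.2.1 _).2 K0
          _ ≤ _ := le_mul_of_one_le_right (by positivity) (one_le_exp (by linarith))
    rw [a2 k hk p hp, a3 k hk p hp]
    refine ⟨(a4 k hk _ _).trans (by linarith), (a4 k hk _ _).trans ?_, (abs_add_le _ _).trans ?_,
      (a4 k hk _ _).trans ?_⟩
    · linarith only [b2, b5, abs_nonneg p.1, mul_nonneg_of_nonpos_of_nonpos (Mathlib.Tactic.Linarith.sub_nonpos_of_le b5) (Mathlib.Tactic.Linarith.sub_nonpos_of_le (abs_nonneg p.1))]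
    · linarith [a4 k hk p.1 (ds V p)]
    · linarith only [b4, b5, exp_pos p.1, mul_nonneg_of_nonpos_of_nonpos (Mathlib.Tactic.Linarith.sub_nonpos_of_le b5) (le_of_lt (Mathlib.Tactic.Linarith.sub_neg_of_lt (exp_pos p.1)))]
  have d3 := AUp_NW hw (K := K) (V := V) ((eventually_gt_atTop 0).mono fun k hk => ⟨a5 k hk,
    fun p hp ht => (a4 k hk _ _).trans (hK p hp (Ioo_subset_Icc_self ht)).1⟩) fun p hp _ =>
      tendsto_const_nhds.congr' ((h2 p.1 hp).mono fun k hk => by simp only [hk.1, one_mul])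
  have d1 : Tendsto (fun k => Ds fun p : ℝ × ℝ => c k p.1 * V p) atTop (𝓝 (Ds V)) := by
    refine tendsto_integral_filter_of_dominated_convergence _
      ((eventually_gt_atTop 0).mono fun k hk => (a5 k hk).int_s.1)
      ((eventually_gt_atTop 0).mono fun k hk => ae_nu fun p hp _ => ?_)
      ((h.int_H.const_mul (2 * C ^ 2)).add (h.int_s.const_mul 2)) (ae_nu fun p hp _ =>
        tendsto_const_nhds.congr' ?_)
    · have b1 := sq_le_sq.2 (a4 k hk p.1 (ds V p))
      have b2 := pow_le_pow_left₀ (by positivity) ((h1 k hk).2.2.1 p.1).2 2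
      have b3 : 0 < p.1 ^ 2 := by have := hp.ne; positivity
      rw [mul_pow, sq_abs, sq_abs, ← le_div_iff₀ b3, div_eq_mul_inv] at b2
      have b4 := mul_le_mul_of_nonneg_right b2 (sq_nonneg (V p))
      rw [Real.norm_of_nonneg (sq_nonneg _), a2 k hk p hp]
      simp only [Pi.add_apply]
      linarith only [b1, b4, sq_nonneg (c' k p.1 * V p - c k p.1 * ds V p), sq_nonneg (c' k p.1 * V p - c k p.1 * ds V p)]
    · filter_upwards [h2 p.1 hp, eventually_gt_atTop 0] with k hk k0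
      rw [a2 k k0 p hp, hk.1, hk.2]
      ring
  obtain ⟨k, hk, b1, b3⟩ := ((eventually_gt_atTop 0).and
    ((d1.eventually (gt_mem_nhds (lt_add_of_pos_right _ hε))).and
      (d3.eventually (lt_mem_nhds (sub_lt_self _ hε))))).exists
  refine ⟨c k, -(2 * k), -k⁻¹, by simpa using hk, fun σ hσ =>
    ⟨not_lt.1 fun e => hσ ((h1 k hk).2.2.2.1 _ e).1, not_lt.1 fun e => hσ ((h1 k hk).2.2.2.2 _ e)⟩,
    a5 k hk, b1, ?_, b3⟩
  refine integral_mono_ae (a5 k hk).int_t h.int_t (ae_nu fun p hp _ => ?_)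
  simp only [a3 k hk p hp]
  exact sq_le_sq.2 (a4 k hk _ _)

theorem AUp_test {n : ℕ} (hn : 5 ≤ n) {U : ℝ × ℝ → ℝ} (h : VV U)
    (per : ∀ σ t, U (σ, t + 2) = U (σ, t)) (sym : ∀ σ t, U (σ, 2 - t) = U (σ, t)) {A B : ℝ}
    (hB : B < 0) (supp : ∀ p : ℝ × ℝ, U p ≠ 0 → A ≤ p.1 ∧ p.1 ≤ B) :
    ∃ u : ℂ → ℝ, Test (Ins (Gam (reg n (rr n)))) u ∧ EE u = 2 * π * Dx (1 / n) U ∧
      NN u = 2 * π * NW (1 / n) (1 / n) U := by
  have hn' : (5 : ℝ) ≤ n := by exact_mod_cast hn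
  have hn0 : (0 : ℝ) < n := by linarith only [hn']
  have c1 : ContDiffOn ℝ 1 (fun p : ℝ × ℝ => U (p.1, 2 * p.2)) {p | p.1 < 0} :=
    h.c1.comp (by fun_prop) fun _ hp => hp
  obtain ⟨u, u1, u2, u3⟩ := Up.upper hn c1 (fun σ t => by simp only [mul_add, mul_one, per]) hB
    fun p _ hp => supp (p.1, 2 * p.2) hp
  have e1 : Ds (fun p : ℝ × ℝ => U (p.1, 2 * p.2)) = Ds U := by
    rw [Ds, Ds, ← (AUp_dbl (F := fun p => ds U p ^ 2) h.int_s.1 fun σ t hσ => by
      rw [Bot_ds h.c1 (p := (σ, 2 - t)) hσ (d := ds U (σ, t))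
        (by simpa only [sym] using h.der_s hσ t)]).2]
    exact integral_congr_ae (ae_nu fun p hp _ => by
      simp only [Bot_ds c1 hp (h.der_s hp (2 * p.2))])
  have e2 : Dt (fun p : ℝ × ℝ => U (p.1, 2 * p.2)) = 4 * Dt U := by
    rw [Dt, Dt, ← (AUp_dbl (F := fun p => dt U p ^ 2) h.int_t.1 fun σ t hσ => by
      have := (h.der_t hσ (2 - t)).comp_const_sub 2 t
      simp only [sym] at this
      rw [(h.der_t hσ t).unique this, neg_sq]).2, ← integral_const_mul]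
    exact integral_congr_ae (ae_nu fun p hp _ => by
      simp only [Bot_dt c1 hp ((h.der_t hp (2 * p.2)).comp p.2 (hasDerivAt_const_mul 2))]
      ring)
  have e3 : NW (2 / n) 0 (fun p : ℝ × ℝ => U (p.1, 2 * p.2)) = NW (1 / n) (1 / n) U := by
    rw [NW, NW, ← (AUp_dbl (F := fun p => exp (2 * p.1) * WW (1 / n) (1 / n) p * U p ^ 2)
      (((int_fst (int_exp two_pos)).1.mul (WW_meas _ _).aestronglyMeasurable).mul h.b0.sq.1)
      fun σ t _ => by simp only [AUp_Wsym, sym]).2]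
    refine integral_congr_ae (ae_nu fun p hp _ => ?_)
    simp only [← AUp_W (show (0 : ℝ) < 1 / n by positivity) hp, mul_one_div]
  refine ⟨u, u1, ?_, ?_⟩
  · rw [u2, e1, e2, Dx]
    field_simp
    ring
  · rw [u3, e3]
    field_simp

theorem up {n : ℕ} (hn : 5 ≤ n) : ∃ r : ℝ, 0 < r ∧ 0 < AA (1 / n) ∧
    volume.real (Ins (Gam (reg n r))) = n * π * AA (1 / n) ∧
    ∀ V : ℝ × ℝ → ℝ, VV V → 0 < NW (1 / n) (1 / n) V → ∀ η : ℝ, 0 < η →
      ∃ u : ℂ → ℝ, Test (Ins (Gam (reg n r))) u ∧ u ≠ 0 ∧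
        EE u ≤ (Dx (1 / n) V / NW (1 / n) (1 / n) V + η) * NN u := by
  have hn' : (5 : ℝ) ≤ n := by exact_mod_cast hn
  have hn0 : (0 : ℝ) < n := by linarith only [hn']
  have hx : (0 : ℝ) < 1 / n := by positivity
  obtain ⟨r0, i0, hv⟩ := Up.area hn
  have e0 : (fun p : ℝ × ℝ => exp (2 * p.1) * WW (2 / n) 0 p) =ᵐ[nu]
      fun p => exp (2 * p.1) * WW (1 / n) (1 / n) (p.1, 2 * p.2) := ae_nu fun p hp _ => by
    simp only [← AUp_W hx hp, mul_one_div]
  obtain ⟨d1, d2⟩ := AUp_dbl (F := fun p => exp (2 * p.1) * WW (1 / n) (1 / n) p)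
    ((int_fst (int_exp two_pos)).1.mul (WW_meas _ _).aestronglyMeasurable)
    fun σ t _ => by simp only [AUp_Wsym]
  have hw := d1 (i0.congr e0)
  have hv' : volume.real (Ins (Gam (reg n (rr n)))) = n * π * AA (1 / n) := by
    rw [hv, integral_congr_ae e0, d2, AA, NA]
    ring
  refine ⟨rr n, r0, ?_, hv', fun V hV h0 η hη => ?_⟩
  · have : 0 < volume.real (Ins (Gam (reg n (rr n)))) := by
      have := sin_pos_of_pos_of_lt_pi (x := 2 * π / n) (by positivity)
        (by rw [div_lt_iff₀ hn0]; linarith only [hn', pi_pos, mul_nonneg_of_nonpos_of_nonpos (Mathlib.Tactic.Linarith.sub_nonpos_of_le hn') (le_of_lt (Mathlib.Tactic.Linarith.sub_neg_of_lt pi_pos))])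
      rw [Measure.real, reg_vol hn r0, ENNReal.toReal_ofReal (by positivity)]
      positivity
    rw [hv'] at this
    exact (mul_pos_iff_of_pos_left (by positivity)).1 this
  set x : ℝ := 1 / n
  have hD : 0 ≤ Dx x V := add_nonneg (Ds_nonneg V) (div_nonneg (Dt_nonneg V) (by positivity))
  have k1 : ∀ᶠ ε in 𝓝[>] (0 : ℝ), 2 * ε < NW x x V ∧
      Dx x V + (2 * ε + ε / (π ^ 2 * x ^ 2)) < (Dx x V / NW x x V + η) * (NW x x V - 2 * ε) := by
    refine Eventually.filter_mono nhdsWithin_le_nhds (Eventually.and ?_ ?_)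
    · exact ContinuousAt.eventually_lt (by fun_prop) continuousAt_const (by simpa using h0)
    · refine ContinuousAt.eventually_lt (by fun_prop) (by fun_prop) ?_
      simp only [mul_zero, zero_div, add_zero, sub_zero, add_mul, div_mul_cancel₀ _ h0.ne']
      exact lt_add_of_pos_right _ (by positivity)
  obtain ⟨ε, ⟨k2, k3⟩, hε⟩ := (k1.and self_mem_nhdsWithin).exists
  obtain ⟨U, U1, U2, U3, U4, U5, U6⟩ := AUp_fold hw hV hε
  obtain ⟨c, A, B, hB, c1, c2, c3, c4, c5⟩ := AUp_cut hw U1 hε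
  obtain ⟨u, u1, u2, u3⟩ := AUp_test hn c2 (fun σ t => by simp only [U2])
    (fun σ t => by simp only [U3]) hB fun p hp => c1 _ (left_ne_zero_of_mul hp)
  refine ⟨u, u1, fun h => ?_, ?_⟩
  · rw [h] at u3
    simp only [NN, Pi.zero_apply, ne_eq, OfNat.ofNat_ne_zero, not_false_eq_true, zero_pow,
      integral_zero] at u3
    have : 0 < 2 * π * NW x x fun p => c p.1 * U p := mul_pos (by positivity) (by linarith only [k2, U6, c5])
    linarith only [u3, this]
  · rw [u2, u3, mul_left_comm]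
    refine mul_le_mul_of_nonneg_left ?_ (by positivity)
    have a1 : Dx x (fun p => c p.1 * U p) ≤ Dx x V + (2 * ε + ε / (π ^ 2 * x ^ 2)) := by
      have := div_le_div_of_nonneg_right (c4.trans U5.le) (show 0 ≤ π ^ 2 * x ^ 2 by positivity)
      rw [add_div] at this
      simp only [Dx]
      linarith only [U4, c3, this]
    refine a1.trans (k3.le.trans (mul_le_mul_of_nonneg_left (by linarith only [U6, c5]) (by positivity)))

end Pool.Agent.Work.MP_267827_an.PS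
end
end
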