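import Pool.Agent.Work.MP_267827_an.PS.WX
import Pool.Agent.Work.MP_267827_an.PS.WN

-- merged part: Pool.Agent.Work.MP_267827_an.PS.WL
section
/-! The bottom of the spectrum and almost minimisers.

`direct`: `V = y JV + w` (`decomp`, `PX_add`, `PX_JV`, `BX_JV`, `PX_ort`, `pair0`).  With
`L = A (1 - 3 x ^ 4) ≤ A`, `a = √(Ds w)`, `b = √(Dt w) / (π x)`, `Y = |y| DD`, after division by `A`:
`Y ^ 2 (3 / 2 - 0.9843) x ^ 4 - 2 Y (5.33 x ^ 4 a + 2.664 x ^ 3 b) + 0.582 a ^ 2 + 0.814 b ^ 2 ≥ 0`.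

`exists_bt`: `M₀` is the infimum of `AA * Dx V / (jj ^ 2 * NW V)` over `VV V`, `0 < NW V`;
`M₀ ≤ AA` by `PX_JV` and `JJ_sign`.  For an almost minimiser `V = y JV + w` one has
`PX V ≥ 2 y BX JV w + PX w ≥ κ D w / 2 - C y ^ 2` and `NW V ≤ C (y ^ 2 + D w)`, so `D w ≤ C y ^ 2`,
`y ≠ 0`, and `e = w / y` works (`VV.smul`).

`small`: `0 ≤ PX (vs ((1 - τ) e))` and `PX (vs e) ≤ η` give
`(2 - τ) PX e + 2 BX JV e ≤ η / τ`; with `τ = 1 / 100`, `u = x₀ ^ 3 DD`: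
`0.995 (0.582 a ^ 2 + 0.814 b ^ 2) ≤ u (1.066 a + 2.664 b) + small`, whose solutions have
`a ≤ 3.07 u`, `b ≤ 3.47 u`. -/

set_option autoImplicit false

namespace Pool.Agent.Work.MP_267827_an.PS

open MeasureTheory Set Filter Topology Real

variable {x x₀ M₀ : ℝ}

theorem WL_w (hx : 0 < x) (h : x ≤ 1 / 5) {L : ℝ} (h0 : 0 ≤ L) (h1 : L ≤ AA x) {w : ℝ × ℝ → ℝ}
    (hw : VV w) (ho : Ort w) : ∃ a b : ℝ, 0 ≤ a ∧ 0 ≤ b ∧ √(Ds w) = a ∧ √(Dt w) / π = x * b ∧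
      Dx x w = a ^ 2 + b ^ 2 ∧ AA x * (0.582 * a ^ 2 + 0.814 * b ^ 2) ≤ PX x L w ∧
      |BX x L JV w| ≤ AA x * (DD * x ^ 2 * (5.33 * x ^ 2 * a + 2.664 * x * b)) := by
  have h4 : x ≤ 1 / 4 := by linarith only [hx, h]
  have e1 : Ds w = √(Ds w) ^ 2 := (sq_sqrt (Ds_nonneg w)).symm
  have e2 : Dt w / (π ^ 2 * x ^ 2) = (√(Dt w) / (π * x)) ^ 2 := by
    rw [div_pow, sq_sqrt (Dt_nonneg w), mul_pow]
  have e3 : √(Dt w) / π = x * (√(Dt w) / (π * x)) := by field_simp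
  have k1 := PX_ort hx h4 h0 hw ho
  have k2 := (pair0 hx h4).Jw w hw
  have D0 := DD_pos
  refine ⟨_, √(Dt w) / (π * x), sqrt_nonneg _, by positivity, rfl, e3, by rw [Dx, e2, ← e1],
    le_trans ?_ k1, ?_⟩
  · have x2 : x ^ 2 ≤ 1 / 25 := by clear * - x h hx e1 e2 h0 h1 w; linarith only [h, hx, mul_nonneg_of_nonpos_of_nonpos (le_of_lt (Mathlib.Tactic.Linarith.sub_neg_of_lt hx)) (Mathlib.Tactic.Linarith.sub_nonpos_of_le h)]
    have b1 := mul_le_mul h1 (show 1 / 5 + 579 / 100 * (47 / 50) * x ^ 2 ≤ 0.418 by clear * - x hx h x2 h0 h1; linarith only [hx, h, x2])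
      (by positivity) (h0.trans h1)
    have b2 := mul_le_mul h1 (show 579 / 100 * (4 / 5) * x ^ 2 ≤ 0.186 by clear * - x hx h x2 h0 h1; linarith only [hx, h, x2])
      (by positivity) (h0.trans h1)
    rw [e2, ← e1]
    clear * - x w L b1 b2
    linarith only [b1, b2, mul_le_mul_of_nonneg_right b1 (Ds_nonneg w),
      mul_le_mul_of_nonneg_right b2 (sq_nonneg (√(Dt w) / (π * x))), sq_nonneg (√(Dt w) / (π * x))]
  · rw [BX_JV hx h4 L hw ho, abs_neg, abs_mul, abs_of_nonneg (by positivity), mul_assoc]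
    refine mul_le_mul h1 ((mul_le_mul jj_sq_le k2 (abs_nonneg _) (by norm_num)).trans ?_)
      (by positivity) (h0.trans h1)
    rw [e3]
    have b0 : 0 ≤ √(Dt w) / (π * x) := by positivity
    generalize √(Dt w) / (π * x) = b at *
    have p1 : 0 ≤ DD * x ^ 4 * √(Ds w) := by positivity
    have p2 : 0 ≤ DD * x ^ 3 * b := by positivity
    clear * - x w b p1 p2
    linarith only [p1, p2]

theorem WL_L (hx : 0 < x) (h : x ≤ 1 / 5) :
    AA x / 2 ≤ AA x * (1 - 3 * x ^ 4) ∧ AA x * (1 - 3 * x ^ 4) ≤ AA x := by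
  have A0 := AA_pos hx (by linarith only [hx, h])
  have := pow_le_pow_left₀ hx.le h 4
  constructor <;> (refine le_of_not_gt fun h_nl => ?_; linarith only [h_nl, hx, A0, h, this, pow_pos hx 4, mul_pos_of_neg_of_neg (Mathlib.Tactic.Linarith.sub_neg_of_lt hx) (Mathlib.Tactic.Linarith.sub_neg_of_lt A0), mul_pos_of_neg_of_neg (Mathlib.Tactic.Linarith.sub_neg_of_lt hx) (Mathlib.Tactic.Linarith.sub_neg_of_lt h_nl), mul_nonneg_of_nonpos_of_nonpos (Mathlib.Tactic.Linarith.sub_nonpos_of_le h) (le_of_lt (Mathlib.Tactic.Linarith.sub_neg_of_lt A0)), mul_nonneg_of_nonpos_of_nonpos (Mathlib.Tactic.Linarith.sub_nonpos_of_le h) (le_of_lt (Mathlib.Tactic.Linarith.sub_neg_of_lt h_nl)), mul_nonneg_of_nonpos_of_nonpos (le_of_lt (Mathlib.Tactic.Linarith.sub_neg_of_lt A0)) (Mathlib.Tactic.Linarith.sub_nonpos_of_le this), mul_pos_of_neg_of_neg (Mathlib.Tactic.Linarith.sub_neg_of_lt A0)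 (Mathlib.Tactic.Linarith.sub_neg_of_lt (pow_pos hx (4 : ℕ)))])

theorem direct (hx : 0 < x) (h : x ≤ 1 / 5) : HH x (AA x * (1 - 3 * x ^ 4)) := by
  have h4 : x ≤ 1 / 4 := by linarith only [hx, h]
  have A0 := AA_pos hx h4
  obtain ⟨l1, l2⟩ := WL_L hx h
  refine HH_iff.2 fun V hV => ?_
  obtain ⟨y, w, hw, ho, rfl⟩ := decomp hV
  obtain ⟨a, b, a0, b0, -, -, -, k1, k2⟩ := WL_w hx h (by linarith only [A0, l1]) l2 hw ho
  have D0 := DD_pos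
  have k3 : AA x * (1 - 3 * x ^ 4) * jj ^ 2 * nB (WT 0 x) JV JV ≤
      AA x * (579 / 100 * (17 / 100 * x ^ 4 * DD ^ 2)) := by
    rw [mul_assoc]
    exact mul_le_mul l2 (mul_le_mul jj_sq_le (abs_le.1 (pair0 hx h4).JJ).2 (JJ_sign hx h4).1
      (by norm_num)) (mul_nonneg (sq_nonneg _) (JJ_sign hx h4).1) A0.le
  have k4 : |y * BX x (AA x * (1 - 3 * x ^ 4)) JV w| ≤
      AA x * (|y| * DD * x ^ 2 * (0.2132 * a + 0.5328 * b)) := by
    clear * - x h hx a b b0 a0 y w k2 D0 A0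
    have x2 : x ^ 2 ≤ 1 / 25 := by clear * - x h hx; linarith only [h, hx, mul_nonneg_of_nonpos_of_nonpos (le_of_lt (Mathlib.Tactic.Linarith.sub_neg_of_lt hx)) (Mathlib.Tactic.Linarith.sub_nonpos_of_le h)]
    have : 5.33 * x ^ 2 * a + 2.664 * x * b ≤ 0.2132 * a + 0.5328 * b := by clear * - x a b hx h b0 a0 x2; (refine le_of_not_gt fun h_nl => ?_; linarith only [h_nl, hx, h, b0, a0, x2, mul_pos_of_neg_of_neg (Mathlib.Tactic.Linarith.sub_neg_of_lt hx) (Mathlib.Tactic.Linarith.sub_neg_of_lt h_nl), mul_nonneg_of_nonpos_of_nonpos (Mathlib.Tactic.Linarith.sub_nonpos_of_le h) (Mathlib.Tactic.Linarith.sub_nonpos_of_le b0), mul_nonneg_of_nonpos_of_nonpos (Mathlib.Tactic.Linarith.sub_nonpos_of_le h) (le_of_lt (Mathlib.Tactic.Linarith.sub_neg_of_lt h_nl)), mul_nonneg_of_nonpos_of_nonpos (Mathlib.Tactic.Linarith.sub_nonpos_of_le a0) (Mathlib.Tactic.Linarith.sub_nonpos_of_le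 x2)])
    rw [abs_mul]
    refine (mul_le_mul_of_nonneg_left (k2.trans (mul_le_mul_of_nonneg_left
      (mul_le_mul_of_nonneg_left this (by positivity)) A0.le)) (abs_nonneg y)).trans_eq (by ring)
  have k5 : 0 ≤ 0.5157 * (|y| * DD * x ^ 2) ^ 2 -
      2 * (|y| * DD * x ^ 2 * (0.2132 * a + 0.5328 * b)) + (0.582 * a ^ 2 + 0.814 * b ^ 2) := by
    clear * - y x a b
    generalize |y| * DD * x ^ 2 = u
    linarith only [sq_nonneg (0.37 * u - a), sq_nonneg (0.655 * u - b), sq_nonneg u, sq_nonneg u, sq_nonneg ((1 : ℝ) * (131 : ℝ) * ((1 : ℝ) * u) - (200 : ℝ) * b), sq_nonneg ((1 : ℝ) * (37 : ℝ) * ((1 : ℝ) * u) - (100 : ℝ) * a), sq_nonneg ((1 : ℝ) * a), sq_nonneg ((1 : ℝ) * b)]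
  rw [PX_add hx h4 _ y vv_JV hw, PX_JV hx h4]
  rw [mul_pow, mul_pow, sq_abs] at k5
  clear * - y x w a b k1 A0 k5 k4 k3
  linarith only [k1, A0, k5, k4, k3, mul_nonneg A0.le k5, (abs_le.1 k4).1, mul_le_mul_of_nonneg_left k3 (sq_nonneg y)]

theorem exists_bt (hx : 0 < x₀) (h : x₀ ≤ 1 / 5) :
    ∃ M₀ : ℝ, Bt x₀ M₀ ∧ ∀ η : ℝ, 0 < η → ∃ e, Nr x₀ M₀ η e := by
  have h4 : x₀ ≤ 1 / 4 := by linarith only [hx, h]
  have A0 := AA_pos hx h4
  have D0 := DD_pos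
  have j0 := pow_pos jj_pos 2
  obtain ⟨l1, l2⟩ := WL_L hx h
  obtain ⟨S, hS⟩ : ∃ S : Set ℝ, S = {r | ∃ V, VV V ∧ PX x₀ r V < 0} := ⟨_, rfl⟩
  have nn : ∀ V, 0 ≤ jj ^ 2 * NW x₀ x₀ V := fun V => mul_nonneg j0.le (NW_nonneg _ _ V)
  have lb : ∀ L, HH x₀ L → L ∈ lowerBounds S := fun L hL r hr => by
    obtain ⟨V, hV, c⟩ : ∃ V, VV V ∧ PX x₀ r V < 0 := by rwa [hS] at hr
    have := HH_iff.1 hL V hV
    simp only [PX, mul_assoc] at this c
    exact le_of_not_gt fun c' => by linarith only [this, c, c', nn, mul_le_mul_of_nonneg_right c'.le (nn V)]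
  have bS : BddBelow S := ⟨_, lb _ (direct hx h)⟩
  have mS : ∀ r, AA x₀ < r → r ∈ S := fun r hr => by
    clear * - S r x₀ hS A0 hr j0 hx h4 D0
    rw [hS]
    refine ⟨JV, vv_JV, ?_⟩
    have := mul_nonneg (mul_pos (A0.trans hr) j0).le (JJ_sign hx h4).1
    rw [PX_JV hx h4]
    clear * - x₀ r this hr D0
    linarith only [this, hr, D0, mul_pos (sub_pos.2 hr) (pow_pos D0 2)]
  have nS : S.Nonempty := ⟨_, mS _ (lt_add_one _)⟩
  have lo : AA x₀ * (1 - 3 * x₀ ^ 4) ≤ sInf S := le_csInf nS (lb _ (direct hx h))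
  have up : sInf S ≤ AA x₀ := le_of_forall_gt_imp_ge_of_dense fun r hr => csInf_le bS (mS r hr)
  have hh : HH x₀ (sInf S) := HH_iff.2 fun V hV => le_of_not_gt fun c => by
    have t : ContinuousAt (fun r => PX x₀ r V) (sInf S) := by unfold PX; fun_prop
    obtain ⟨r, r1, r2⟩ := (((t.eventually (gt_mem_nhds c)).filter_mono
      (nhdsWithin_le_nhds (s := Iio (sInf S)))).and self_mem_nhdsWithin).exists
    exact absurd (csInf_le bS (hS ▸ ⟨V, hV, r1⟩)) (not_le.2 r2)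
  refine ⟨sInf S, ⟨hx, h, hh, lo, up⟩, fun η η0 => ?_⟩
  obtain ⟨ε, ε0, ε1, ε2⟩ : ∃ ε, 0 < ε ∧ ε ≤ AA x₀ / 10 ∧ 3 * ε * DD ^ 2 ≤ η :=
    ⟨min (AA x₀ / 10) (η / (3 * DD ^ 2)), by positivity, min_le_left _ _, by
      have := (le_div_iff₀ (by positivity)).1 (min_le_right (AA x₀ / 10) (η / (3 * DD ^ 2)))
      linarith only [this]⟩
  obtain ⟨r, hr, r1⟩ := exists_lt_of_csInf_lt nS (lt_add_of_pos_right _ ε0)
  obtain ⟨V, hV, c⟩ : ∃ V, VV V ∧ PX x₀ r V < 0 := by rwa [hS] at hr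
  have p0 := HH_iff.1 hh V hV
  have p1 := HH_iff.1 (direct hx h) V hV
  have p2 : PX x₀ (sInf S) V < 2 * ε * Dx x₀ V := by
    clear * - x₀ S V ε p1 l1 nn A0 r c r1 ε0
    simp only [PX, mul_assoc] at c p1 ⊢
    have b1 : jj ^ 2 * NW x₀ x₀ V ≤ 2 * Dx x₀ V := le_of_mul_le_mul_left
      (by linarith only [p1, l1, nn, mul_le_mul_of_nonneg_right l1 (nn V)]) (half_pos A0)
    linarith only [c, r1, nn, b1, ε0, mul_le_mul_of_nonneg_right r1.le (nn V), mul_le_mul_of_nonneg_left b1 ε0.le]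
  obtain ⟨y, w, hw, ho, hy⟩ := decomp hV
  obtain ⟨a, b, a0, b0, -, -, k0, k1, k2⟩ := WL_w hx h (by linarith only [l1, lo, ε0, ε1]) up hw ho
  have p3 : Dx x₀ V = y ^ 2 * DD ^ 2 / 2 + (a ^ 2 + b ^ 2) := by
    clear * - x₀ y w hx h4 hw V a b A0 k0 ho hy
    have := PX_add hx h4 0 y vv_JV hw
    rw [← hy, PX_JV hx h4, BX_JV hx h4 0 hw ho, PX, PX, k0] at this
    exact mul_left_cancel₀ A0.ne' (by clear * - x₀ V y a b w this A0; linarith only [this])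
  have p4 : a ^ 2 + b ^ 2 ≤ y ^ 2 * DD ^ 2 := by
    clear * - x₀ S y w hx h4 hw h a b a0 b0 k2 A0 D0 hh ε V ε1 p3 p2 k1 hy
    have e := PX_add hx h4 (sInf S) y vv_JV hw
    have x2 : x₀ ^ 2 ≤ 1 / 25 := by clear * - x₀ h hx; linarith only [h, hx, mul_nonneg_of_nonpos_of_nonpos (le_of_lt (Mathlib.Tactic.Linarith.sub_neg_of_lt hx)) (Mathlib.Tactic.Linarith.sub_nonpos_of_le h)]
    have k3 : x₀ ^ 2 * (5.33 * x₀ ^ 2 * a + 2.664 * x₀ * b) ≤ 1 / 25 * (a + b) :=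
      mul_le_mul x2 (by clear * - x₀ a b a0 b0 hx h x2; (refine le_of_not_gt fun h_nl => ?_; linarith only [h_nl, a0, b0, hx, h, x2, mul_pos_of_neg_of_neg (Mathlib.Tactic.Linarith.sub_neg_of_lt hx) (Mathlib.Tactic.Linarith.sub_neg_of_lt h_nl), mul_nonneg_of_nonpos_of_nonpos (Mathlib.Tactic.Linarith.sub_nonpos_of_le h) (Mathlib.Tactic.Linarith.sub_nonpos_of_le b0), mul_nonneg_of_nonpos_of_nonpos (Mathlib.Tactic.Linarith.sub_nonpos_of_le h) (le_of_lt (Mathlib.Tactic.Linarith.sub_neg_of_lt h_nl)), mul_nonneg_of_nonpos_of_nonpos (Mathlib.Tactic.Linarith.sub_nonpos_of_le a0) (Mathlib.Tactic.Linarith.sub_nonpos_of_le x2)])) (by positivity) (by norm_num)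
    have k4 : |y * BX x₀ (sInf S) JV w| ≤ AA x₀ * (|y| * DD * (1 / 25 * (a + b))) := by
      clear * - y x₀ S w a b k2 k3 A0 D0
      rw [abs_mul]
      refine (mul_le_mul_of_nonneg_left k2 (abs_nonneg y)).trans ?_
      linarith only [k3, A0, D0, mul_le_mul_of_nonneg_left k3 (show 0 ≤ AA x₀ * (|y| * DD) by positivity)]
    have k5 := mul_nonneg (sq_nonneg y) (HH_iff.1 hh JV vv_JV)
    have k6 := mul_le_mul_of_nonneg_right ε1 (show 0 ≤ 2 * Dx x₀ V by rw [p3]; positivity)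
    rw [← hy] at e
    have k7 : AA x₀ * (0.582 * a ^ 2 + 0.814 * b ^ 2) ≤ AA x₀ * (2 * (|y| * DD * (1 / 25 * (a + b))) +
        (y ^ 2 * DD ^ 2 / 2 + (a ^ 2 + b ^ 2)) / 5) := by
      clear * - x₀ a b y V p3 S ε w p2 k1 e k5 k6 k4
      rw [← p3]; linarith only [p2, k1, e, k5, k6, k4, (abs_le.1 k4).1]
    have k8 := le_of_mul_le_mul_left k7 A0
    rw [← sq_abs y, ← mul_pow] at k8 ⊢
    generalize |y| * DD = u at *
    clear * - a b u k8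
    linarith only [k8, sq_nonneg (u - a), sq_nonneg (u - b), sq_nonneg u, sq_nonneg b, sq_nonneg b, sq_nonneg u, sq_nonneg (u - b), sq_nonneg (u - a)]
  have p5 : PX x₀ (sInf S) V < y ^ 2 * (3 * ε * DD ^ 2) := by
    clear * - x₀ S V y ε a b p3 p2 p4 ε0
    rw [p3] at p2
    linarith only [p2, p4, ε0, mul_le_mul_of_nonneg_left p4 ε0.le]
  have y0 : y ≠ 0 := fun c => by rw [c] at p5; linarith only [p0, p5]
  have ve := VV.lin (y⁻¹ - 1) hw hw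
  refine ⟨_, ve, Ort.lin _ ho ho hw hw, le_of_mul_le_mul_left ?_ (pow_pos (abs_pos.2 y0) 2)⟩
  have e := PX_add hx h4 (sInf S) (y - 1) (vv_vs ve) (vv_vs ve)
  rw [BX_self, show (fun p => (y - 1) * vs (fun p => (y⁻¹ - 1) * w p + w p) p +
    vs (fun p => (y⁻¹ - 1) * w p + w p) p) = V by
      rw [hy]; funext p; simp only [vs]; field_simp; ring] at e
  rw [sq_abs]
  clear * - y x₀ S w η V ε p5 e ε2
  linarith only [p5, e, ε2, mul_le_mul_of_nonneg_left ε2 (sq_nonneg y)]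

theorem small (h : Bt x₀ M₀) :
    ∃ η₀ : ℝ, 0 < η₀ ∧ ∀ η e, η ≤ η₀ → Nr x₀ M₀ η e → Sm x₀ e := by
  have hx := h.pos
  have h5 := h.le
  have h4 : x₀ ≤ 1 / 4 := by linarith only [hx, h5]
  have A0 := AA_pos hx h4
  have D0 := DD_pos
  refine ⟨AA x₀ * (DD * x₀ ^ 3) ^ 2 / 5000, by positivity, fun η e hη he => ?_⟩
  obtain ⟨a, b, a0, b0, e1, e2, -, k1, k2⟩ := WL_w hx h5
    (by linarith only [A0, hx, h5, h, (WL_L hx h5).1, h.low]) h.up he.vv he.ort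
  have p0 := HH_iff.1 h.hh _ (VV.lin (-1 / 100) he.vv (vv_vs he.vv))
  have p1 : PX x₀ M₀ (vs e) = _ := PX_add hx h4 M₀ 1 vv_JV he.vv
  have p2 : BX x₀ M₀ (vs e) e = _ := BX_add hx h4 M₀ 1 vv_JV he.vv he.vv
  rw [PX_add hx h4 M₀ _ he.vv (vv_vs he.vv), BX_comm, p2, BX_self] at p0
  have k3 : DD * x₀ ^ 2 * (5.33 * x₀ ^ 2 * a + 2.664 * x₀ * b) ≤
      DD * x₀ ^ 3 * (1.066 * a + 2.664 * b) := by
    clear * - x₀ a b h5 D0 hx a0
    linarith only [h5, D0, hx, a0, mul_le_mul_of_nonneg_left h5 (show 0 ≤ 5.33 * (DD * x₀ ^ 3 * a) by positivity)]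
  have k4 : AA x₀ * (0.995 * (0.582 * a ^ 2 + 0.814 * b ^ 2)) ≤
      AA x₀ * (DD * x₀ ^ 3 * (1.066 * a + 2.664 * b) + (DD * x₀ ^ 3) ^ 2 / 100) := by
    clear * - x₀ a b η M₀ e hη k1 p0 he k2 k3 A0
    linarith only [hη, k1, p0, he, k2, k3, A0, he.near, (abs_le.1 k2).1, mul_le_mul_of_nonneg_left k3 A0.le]
  have k5 := le_of_mul_le_mul_left k4 A0
  have u0 : 0 < DD * x₀ ^ 3 := by positivity
  have : a ≤ 31 / 10 * (DD * x₀ ^ 3) ∧ b ≤ 7 / 2 * (DD * x₀ ^ 3) := by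
    clear * - a x₀ b k5 u0 a0 b0
    generalize DD * x₀ ^ 3 = u at *
    constructor <;> refine le_of_not_gt fun c => ?_
    · clear * - u a b k5 u0 c
      linarith only [k5, u0, c, sq_nonneg (b - 1.645 * u), mul_pos u0 (sub_pos.2 c), sq_nonneg (a - 3.1 * u),
        sq_nonneg u, sq_nonneg u, sq_nonneg ((10 : ℝ) * a - (1 : ℝ) * (31 : ℝ) * ((1 : ℝ) * u)), sq_nonneg ((200 : ℝ) * b - (1 : ℝ) * (329 : ℝ) * ((1 : ℝ) * u)), sq_nonneg ((1 : ℝ) * b)]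
    · linarith only [u0, a0, b0, c, k5, sq_nonneg (a - 0.92 * u), mul_pos u0 (sub_pos.2 c), sq_nonneg (b - 3.5 * u),
        sq_nonneg u, mul_nonneg_of_nonpos_of_nonpos (Mathlib.Tactic.Linarith.sub_nonpos_of_le (sq_nonneg u)) (le_of_lt (Mathlib.Tactic.Linarith.sub_neg_of_lt u0)), mul_nonneg_of_nonpos_of_nonpos (Mathlib.Tactic.Linarith.sub_nonpos_of_le (sq_nonneg ((2 : ℝ) * b - (1 : ℝ) * (7 : ℝ) * ((1 : ℝ) * u)))) (Mathlib.Tactic.Linarith.sub_nonpos_of_le a0), mul_nonneg_of_nonpos_of_nonpos (Mathlib.Tactic.Linarith.sub_nonpos_of_le (sq_nonneg ((2 : ℝ) * b - (1 : ℝ) * (7 : ℝ) * ((1 : ℝ) * u)))) (Mathlib.Tactic.Linarith.sub_nonpos_of_le b0), mul_nonneg_of_nonpos_of_nonpos (Mathlib.Tactic.Linarith.sub_nonpos_of_le (sq_nonneg ((2 : ℝ) * b - (1 : ℝ) * (7 : ℝ) * ((1 : ℝ) * u)))) (le_of_lt (Mathlib.Tactic.Linarith.sub_neg_of_lt u0)), mul_nonneg_of_nonpos_of_nonpos (Mathlib.Tactic.Linarith.sub_nonpos_of_le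 (sq_nonneg ((25 : ℝ) * a - (1 : ℝ) * (23 : ℝ) * ((1 : ℝ) * u)))) (Mathlib.Tactic.Linarith.sub_nonpos_of_le a0), mul_nonneg_of_nonpos_of_nonpos (Mathlib.Tactic.Linarith.sub_nonpos_of_le (sq_nonneg ((25 : ℝ) * a - (1 : ℝ) * (23 : ℝ) * ((1 : ℝ) * u)))) (le_of_lt (Mathlib.Tactic.Linarith.sub_neg_of_lt u0)), mul_nonneg_of_nonpos_of_nonpos (Mathlib.Tactic.Linarith.sub_nonpos_of_le (sq_nonneg ((1 : ℝ) * a))) (Mathlib.Tactic.Linarith.sub_nonpos_of_le b0), mul_nonneg_of_nonpos_of_nonpos (Mathlib.Tactic.Linarith.sub_nonpos_of_le (sq_nonneg ((1 : ℝ) * a))) (le_of_lt (Mathlib.Tactic.Linarith.sub_neg_of_lt c)), mul_nonneg_of_nonpos_of_nonpos (Mathlib.Tactic.Linarith.sub_nonpos_of_le a0) (Mathlib.Tactic.Linarith.sub_nonpos_of_le k5), mul_nonneg_of_nonpos_of_nonpos (Mathlib.Tactic.Linarith.sub_nonpos_of_le b0) (Mathlib.Tactic.Linarith.sub_nonpos_of_le k5), mul_pos_of_neg_of_neg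 (Mathlib.Tactic.Linarith.sub_neg_of_lt u0) (Mathlib.Tactic.Linarith.sub_neg_of_lt (mul_pos u0 (sub_pos.mpr c)))]
  exact ⟨he.vv, he.ort, by clear * - e x₀ a e1 b this he hx; linarith only [e1, this, this.1],
    by clear * - e x₀ b e2 a this hx; linarith only [e2, this, hx, mul_le_mul_of_nonneg_left this.2 hx.le]⟩

end Pool.Agent.Work.MP_267827_an.PS
end

-- merged part: Pool.Agent.Work.MP_267827_an.PS.AWin
section
/-! The tangent inequality in the window `0 < x ≤ 1 / 4`. -/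

set_option autoImplicit false

namespace Pool.Agent.Work.MP_267827_an.PS

open MeasureTheory Set Filter Topology Real

variable {x x₀ M₀ G : ℝ} {e : ℝ × ℝ → ℝ}

theorem AWin_two {Y p a g k r t : ℝ} (hg : 0 < g) (ht : 0 < t) (hp : p ^ 2 ≤ r * k * g) :
    2 * Y * (p * a) ≤ t * g * Y ^ 2 + r / t * k * a ^ 2 := by
  have h1 : 0 ≤ (t * g * Y - p * a) ^ 2 := sq_nonneg _
  have h2 := mul_le_mul_of_nonneg_right hp (sq_nonneg a)
  refine le_of_mul_le_mul_left ?_ (mul_pos ht hg)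
  have e : t * g * (r / t * k * a ^ 2) = r * k * g * a ^ 2 := by field_simp
  linarith only [h2, e, sq_nonneg (t * g * Y - p * a)]

theorem AWin_kap (hx : 0 < x) (h : x ≤ 1 / 4) {A L : ℝ} (hA : x + 21 / 5 * x ^ 4 ≤ A)
    (hL : L ≤ 109 / 100 * x) :
    119 / 250 * x ≤ A - L * (1 / 5 + 579 / 100 * (47 / 50) * x ^ 2) ∧
      749 / 1000 * x ≤ A - L * (579 / 100 * (4 / 5) * x ^ 2) := by
  have k1 := mul_le_mul_of_nonneg_right hL
    (by positivity : 0 ≤ 1 / 5 + 579 / 100 * (47 / 50) * x ^ 2)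
  have k2 := mul_le_mul_of_nonneg_right hL (by positivity : 0 ≤ 579 / 100 * (4 / 5) * x ^ 2)
  have q0 : 0 ≤ x * (1 / 4 - x) := mul_nonneg hx.le (sub_nonneg.2 h)
  have q1 := mul_nonneg q0 hx.le
  have q2 := mul_nonneg q1 (sub_nonneg.2 h)
  exact ⟨by linarith only [hx, hA, k1, q0, q1, q2], by linarith only [hx, hA, k2, q0, q1, q2]⟩

theorem NW_le (hx : 0 < x) (h : x ≤ 1 / 4) {V : ℝ × ℝ → ℝ} (hV : VV V) :
    jj ^ 2 * NW x x V ≤ 2 * Ds V := by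
  have h1 := hV.ground
  have h2 := (abs_le.1 ((pair0 hx h).ww V V hV hV)).2
  rw [mul_self_sqrt (Ds_nonneg V)] at h2
  have h3 : x ^ 2 ≤ (1 / 4) ^ 2 := by gcongr
  have h4 := mul_le_mul_of_nonneg_right h3 (Ds_nonneg V)
  have := Ds_nonneg V
  have h5 := mul_le_mul_of_nonneg_left (h2.trans (by linarith only [h4, this] : _ ≤ 1 / 16 * Ds V)) (sq_nonneg jj)
  have h6 := mul_le_mul_of_nonneg_right jj_sq_le (Ds_nonneg V)
  rw [NW_split hx h hV]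
  linarith only [h1, this, h5, h6]

theorem AWin_step (h0 : 0 < x₀) (h5 : x₀ ≤ 1 / 5) (h1 : x₀ / 2 ≤ x) (h2 : x ≤ 1 / 4)
    (hne : x ≠ x₀) : ∃ δ η₀ : ℝ, 0 < δ ∧ 0 < η₀ ∧ ∀ M₀ G e, Dat x₀ M₀ G x e →
      0 < NW x₀ x₀ (vs e) → PX x₀ M₀ (vs e) ≤ η₀ → HH x (M₀ + G * (x - x₀) + δ) := by
  have hx : 0 < x := by linarith only [h0, h1]
  have x4 : x₀ ≤ 1 / 4 := by linarith only [h5]
  have D0 := DD_pos
  have g0 := gain_pos h0 h5 h1 h2
  have s0 : 0 < (x - x₀) ^ 2 := by have := sub_ne_zero.2 hne; positivity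
  have A0 := AA_pos h0 x4
  obtain ⟨c, c0, c1, c2⟩ : ∃ c : ℝ, 0 < c ∧ c ≤ 1 / 20 * (DD ^ 2 * (gain x₀ x * (x - x₀) ^ 2)) ∧
      c ≤ 1 / 20 * (119 / 250 * x) :=
    ⟨min _ _, lt_min (by positivity) (by positivity), min_le_left _ _, min_le_right _ _⟩
  obtain ⟨C, hC⟩ : ∃ C, C = AA x₀ * (1 + x ^ 2 / x₀ ^ 2) := ⟨_, rfl⟩
  have C0 : 0 < C := by rw [hC]; positivity
  obtain ⟨θ, hθ⟩ : ∃ θ, θ = c / (2 * (1 + C)) := ⟨_, rfl⟩
  obtain ⟨δ, hδ⟩ : ∃ δ, δ = c / (8 * (1 + DD ^ 2)) := ⟨_, rfl⟩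
  have θ0 : 0 < θ := by rw [hθ]; positivity
  have δ0 : 0 < δ := by rw [hδ]; positivity
  have θ1 : θ * (2 * (1 + C)) = c := by rw [hθ]; field_simp
  have δ1 : δ * (8 * (1 + DD ^ 2)) = c := by rw [hδ]; field_simp
  refine ⟨δ, θ ^ 2, δ0, by positivity, fun M₀ G e h hN hP => HH_iff.2 fun V hV => ?_⟩
  have he := h.sm.vv
  have hv := vv_vs he
  obtain ⟨y, w', k1, k2, rfl⟩ := decomp hV
  have hw := VV.lin (-y) he k1
  have ho := Ort.lin (-y) h.sm.ort k2 he k1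
  obtain ⟨w, hw'⟩ : ∃ w : ℝ × ℝ → ℝ, w = fun p => -y * e p + w' p := ⟨_, rfl⟩
  rw [← hw'] at hw ho
  have eV : (fun p => y * JV p + w' p) = fun p => y * vs e p + w p := by
    funext p
    simp only [hw', vs]
    ring
  rw [eV] at hV ⊢
  obtain ⟨L0, L1⟩ := h.L_bd h1 h2
  obtain ⟨m1, m2⟩ := AWin_kap hx h2 (AA_low hx h2) L1
  have p1 := h.second hN
  have p2 := h.cross hw ho
  have p3 := PX_ort hx h2 L0 hw ho
  have p4 := BX_sq h0 x4 h.bt.hh hv hw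
  have p5 := NW_le hx h2 hV
  have p6 := VV.Ds_add_le y hv hw
  have M0 : 0 ≤ M₀ := by simpa using (h.L_bd (ξ := x₀) (by linarith only [h0]) x4).1
  obtain ⟨a, ha⟩ : ∃ a, a = √(Ds w) := ⟨_, rfl⟩
  obtain ⟨b, hb⟩ : ∃ b, b = √(Dt w) / (π * x) := ⟨_, rfl⟩
  have a2 : Ds w = a ^ 2 := by rw [ha, sq_sqrt (Ds_nonneg w)]
  have b2 : Dt w / (π ^ 2 * x ^ 2) = b ^ 2 := by rw [hb, div_pow, sq_sqrt (Dt_nonneg w), mul_pow]
  have p7 : PX x₀ M₀ w ≤ C * (a ^ 2 + b ^ 2) := by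
    have e1 : Dt w / (π ^ 2 * x₀ ^ 2) = x ^ 2 / x₀ ^ 2 * b ^ 2 := by
      rw [← b2]
      field_simp
    have q1 : 0 ≤ M₀ * jj ^ 2 * NW x₀ x₀ w := mul_nonneg (by positivity) (NW_nonneg _ _ _)
    have q2 : 0 ≤ AA x₀ * b ^ 2 := by positivity
    have q3 : 0 ≤ AA x₀ * (x ^ 2 / x₀ ^ 2 * a ^ 2) := by positivity
    rw [PX, Dx, e1, a2, hC]
    linarith only [q1, q2, q3]
  have p8 : Ds (vs e) ≤ DD ^ 2 := by
    have q1 := pow_le_pow_left₀ (sqrt_nonneg _) h.sm.es 2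
    have q2 : x₀ ^ 3 ≤ (1 / 5) ^ 3 := by gcongr
    have q3 : (31 / 10 * x₀ ^ 3 * DD) ^ 2 ≤ (1 / 2 * DD) ^ 2 := by gcongr; linarith only [q2]
    rw [sq_sqrt (Ds_nonneg e)] at q1
    rw [Ds_vs he h.sm.ort]
    clear * - q1 q3 D0
    linarith only [q1, q3, sq_nonneg ((1 : ℝ) * DD)]
  have p9 := p4.trans (mul_le_mul hP p7 (HH_iff.1 h.bt.hh w hw) (sq_nonneg θ))
  have e2 : PX x (M₀ + G * (x - x₀) + δ) (fun p => y * vs e p + w p) =
      PX x (M₀ + G * (x - x₀)) (fun p => y * vs e p + w p) -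
        δ * (jj ^ 2 * NW x x fun p => y * vs e p + w p) := by
    rw [PX, PX]
    ring
  rw [e2, PX_add hx h2 _ y hv hw]
  rw [← ha, ← hb] at p2
  rw [a2, b2] at p3
  rw [a2] at p6
  obtain ⟨B, hB⟩ : ∃ B, B = BX x (M₀ + G * (x - x₀)) (vs e) w := ⟨_, rfl⟩
  obtain ⟨B₀, hB₀⟩ : ∃ B, B = BX x₀ M₀ (vs e) w := ⟨_, rfl⟩
  rw [← hB, ← hB₀] at p2
  rw [← hB₀] at p9
  rw [← hB]
  have r1 := AWin_two (Y := |y| * (DD * |x - x₀|)) (a := a) (t := 29 / 50) g0 (by norm_num)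
    (cpS_le h0 h5 h1 h2)
  have r2 := AWin_two (Y := |y| * (DD * |x - x₀|)) (a := b) (t := 37 / 100) g0 (by norm_num)
    (cpT_le h0 h5 h1 h2)
  rw [mul_pow, mul_pow, sq_abs, sq_abs] at r1 r2
  have r3 : -(|y| * (DD * |x - x₀| * (cpS x₀ x * a + cpT x₀ x * b))) ≤ y * (B - B₀) :=
    (neg_le_neg (mul_le_mul_of_nonneg_left p2 (abs_nonneg y))).trans (by
      rw [← abs_mul]; exact neg_abs_le _)
  have r4 : -(θ * y ^ 2 + θ * (C * (a ^ 2 + b ^ 2))) ≤ 2 * y * B₀ := by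
    refine le_of_mul_le_mul_left ?_ θ0
    linarith only [sq_nonneg (θ * y + B₀), p9]
  have r5 := mul_le_mul_of_nonneg_left p1 (sq_nonneg y)
  have r6 := mul_le_mul_of_nonneg_right m1 (sq_nonneg a)
  have r7 := mul_le_mul_of_nonneg_right m2 (sq_nonneg b)
  have r8 := mul_le_mul_of_nonneg_left p8 (sq_nonneg y)
  have r9 := mul_le_mul_of_nonneg_left
    (p5.trans (by linarith only [p6, r8] : _ ≤ 4 * (y ^ 2 * DD ^ 2) + 4 * a ^ 2)) δ0.le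
  have t1 := mul_le_mul_of_nonneg_right c1 (sq_nonneg y)
  have t2 := mul_le_mul_of_nonneg_right c2 (sq_nonneg a)
  have t3 := mul_le_mul_of_nonneg_right c2 (sq_nonneg b)
  have u1 := congrArg (· * y ^ 2) θ1
  have u2 := congrArg (· * a ^ 2) θ1
  have u3 := congrArg (· * b ^ 2) θ1
  have u4 := congrArg (· * y ^ 2) δ1
  have u5 := congrArg (· * a ^ 2) δ1
  have v1 : 0 ≤ θ * C * y ^ 2 := by positivity
  have v2 : 0 ≤ θ * a ^ 2 := by positivity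
  have v3 : 0 ≤ θ * b ^ 2 := by positivity
  have v4 : 0 ≤ δ * y ^ 2 := by positivity
  have v5 : 0 ≤ δ * DD ^ 2 * a ^ 2 := by positivity
  have v6 : 0 ≤ x * a ^ 2 := by positivity
  have v7 : 0 ≤ x * b ^ 2 := by positivity
  have v8 : 0 ≤ c * b ^ 2 := by positivity
  linarith only [p3, r1, r2, r3, r4, r5, r6, r7, r9, t1, t2, t3, u1, u2, u3, u4, u5, v1, v2, v3, v4,
    v5, v6, v7, v8]

theorem win (h0 : 0 < x₀) (h5 : x₀ ≤ 1 / 5) : ∃ M₀ G : ℝ, Win x₀ M₀ G := by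
  have x4 : x₀ ≤ 1 / 4 := by linarith only [h0, h5]
  obtain ⟨M₀, hb, hn⟩ := exists_bt h0 h5
  obtain ⟨η₁, p1, q1⟩ := small hb
  obtain ⟨η₂, p2, q2⟩ := G_bd hb
  have p3 : ∀ k : ℕ, 0 < min η₁ η₂ * (1 / ((k : ℝ) + 1)) := fun k =>
    mul_pos (lt_min p1 p2) (by positivity)
  have p4 : ∀ k : ℕ, min η₁ η₂ * (1 / ((k : ℝ) + 1)) ≤ min η₁ η₂ := fun k =>
    mul_le_of_le_one_right (lt_min p1 p2).le (by
      rw [div_le_one (by positivity)]; linarith only [k.cast_nonneg (α := ℝ)])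
  choose e he using fun k : ℕ => hn _ (p3 k)
  have sm : ∀ k, Sm x₀ (e k) := fun k => q1 _ _ ((p4 k).trans (min_le_left _ _)) (he k)
  have gb := fun k => q2 _ _ ((p4 k).trans (min_le_right _ _)) (he k) (sm k)
  obtain ⟨G, hG, φ, hφ, lim⟩ := (isCompact_Icc (a := 1 + 13 * x₀ ^ 3)
    (b := 1 + 26 / 5 * x₀ ^ 2)).tendsto_subseq (x := fun k => Gv x₀ M₀ (vs (e k)))
      fun k => (gb k).2
  have l0 : Tendsto (fun k : ℕ => min η₁ η₂ * (1 / ((k : ℝ) + 1))) atTop (𝓝 0) := by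
    simpa using (tendsto_one_div_add_atTop_nhds_zero_nat (𝕜 := ℝ)).const_mul (min η₁ η₂)
  have lowA : ∀ {x : ℝ}, 0 < x → x ≤ 1 / 4 → x < AA x * (1 - 3 * x ^ 4) := fun {x} hx h => by
    have k1 : x ^ 4 ≤ (1 / 4) ^ 4 := by gcongr
    have k2 := mul_le_mul_of_nonneg_right (AA_low hx h) (by linarith only [h0, h5, k1] : 0 ≤ 1 - 3 * x ^ 4)
    have k3 := pow_pos hx 4
    linarith only [k2, h0, k3, h5, h, k1, mul_pos_of_neg_of_neg (Mathlib.Tactic.Linarith.sub_neg_of_lt h0) (Mathlib.Tactic.Linarith.sub_neg_of_lt k3), mul_nonneg_of_nonpos_of_nonpos (Mathlib.Tactic.Linarith.sub_nonpos_of_le h5) (le_of_lt (Mathlib.Tactic.Linarith.sub_neg_of_lt k3)), mul_nonneg_of_nonpos_of_nonpos (Mathlib.Tactic.Linarith.sub_nonpos_of_le h) (le_of_lt (Mathlib.Tactic.Linarith.sub_neg_of_lt k3)), mul_nonneg_of_nonpos_of_nonpos (Mathlib.Tactic.Linarith.sub_nonpos_of_le k1) (le_of_lt (Mathlib.Tactic.Linarith.sub_neg_of_lt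 k3))]
  have M0 : 0 < M₀ := h0.trans ((lowA h0 x4).trans_le hb.low)
  obtain ⟨u1, u2⟩ := AA_up h0 h5
  have D0 := DD_pos
  refine ⟨M₀, G, hb.hh, fun η hη => ?_, fun x hx h2 hne => ?_, M0, hb.up.trans u2, hG.2, ?_⟩
  · obtain ⟨k, k1, k2⟩ := ((l0.eventually (Iic_mem_nhds (a := M₀ * DD ^ 2 / 4)
      (by positivity))).and (l0.eventually (Iic_mem_nhds (a := η * DD ^ 2 / 4)
        (by positivity)))).exists
    refine ⟨vs (e k), vv_vs (he k).vv, (gb k).1, ?_⟩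
    have n1 := (he k).near.trans k1
    have n2 := (he k).near.trans k2
    have n3 : DD ^ 2 / 2 ≤ Dx x₀ (vs (e k)) := by
      have := div_nonneg (Dt_nonneg (vs (e k))) (by positivity : 0 ≤ π ^ 2 * x₀ ^ 2)
      rw [Dx, Ds_vs (he k).vv (he k).ort]
      linarith only [this, Ds_nonneg (e k)]
    have n4 := mul_le_mul hb.up n3 (by positivity) (AA_pos h0 x4).le
    rw [PX] at n1 n2
    have n5 : DD ^ 2 / 4 ≤ jj ^ 2 * NW x₀ x₀ (vs (e k)) :=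
      le_of_mul_le_mul_left (by linarith only [n1, n4]) M0
    have n6 := mul_le_mul_of_nonneg_left n5 hη.le
    linarith only [n2, n6]
  · rcases le_total (x₀ / 2) x with h1 | h1
    · obtain ⟨δ, η₀, δ0, η0, st⟩ := AWin_step h0 h5 h1 h2 hne
      have l1 : Tendsto (fun k => M₀ + Gv x₀ M₀ (vs (e (φ k))) * (x - x₀) + δ) atTop
          (𝓝 (M₀ + G * (x - x₀) + δ)) := ((lim.mul_const _).const_add _).add_const _
      obtain ⟨k, k1, k2⟩ := (((l0.comp hφ.tendsto_atTop).eventually (Iic_mem_nhds η0)).and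
        (l1.eventually (Ioi_mem_nhds (lt_add_of_pos_right _ δ0)))).exists
      exact ⟨_, k2, st M₀ _ _ ⟨hb, sm _, rfl, (gb _).2.1, (gb _).2.2, h1, h2⟩ (gb _).1
        ((he _).near.trans k1)⟩
    · refine ⟨_, lt_of_le_of_lt ?_ (lowA hx h2), direct hx (by linarith only [h5, hx, h1])⟩
      have k1 := mul_le_mul_of_nonneg_right hG.1 (by linarith only [hx, h1] : 0 ≤ x₀ - x)
      have k2 := mul_le_mul_of_nonneg_left h1 (pow_pos h0 3).le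
      linarith only [u1, k1, k2, hb, hb.up]
  · have k1 := mul_le_mul_of_nonneg_right hG.1 h0.le
    have k2 := pow_pos h0 4
    linarith only [u1, k1, k2, hb, hb.up]

end Pool.Agent.Work.MP_267827_an.PS
end
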