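import Pool.Agent.Work.MP_267827_an.PS.AUp

-- merged part: Pool.Agent.Work.MP_267827_an.PS.GStrictB
section
-- merged part: Pool.Agent.Work.MP_267827_an.PS.GAna
section
/-! Energy bounds on pieces: null sets, unions, mirror images, thin sets (skeleton helper49).

Plan.
`line_null`: the set is an affine subspace different from the whole plane
(`MeasureTheory.Measure.addHaar_affineSubspace`), or the preimage of a proper submodule
(`addHaar_submodule`) under a translation.
`int_sq`, `int_grad`: continuous functions with compact support.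
`Low.union`: `K =ᵐ K₁ ∪ K₂`, `setIntegral_congr_set`, `setIntegral_union`.
`Low.conj`: apply the hypothesis to `u ∘ conj`; `Complex.conjLIE` preserves the measure
(`LinearIsometryEquiv.measurePreserving`), `MeasurePreserving.setIntegral_image_emb`,
`‖fderiv (u ∘ L) z‖ = ‖fderiv u (L z)‖` (`LinearIsometryEquiv.comp_right_fderiv`,
`ContinuousLinearMap.opNorm_comp_linearIsometryEquiv`).
`thin`: for `z ∈ K` with parameter `s`: `u (z - s d) = 0`, so
`u z = ∫ t in 0..s, fderiv u (z - t d) d` and by Cauchy-Schwarz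
`u z ^ 2 ≤ ‖d‖ ^ 2 * ∫ t in 0..1, G (z - t d)` with `G = K.indicator ‖fderiv u‖ ^ 2`.
Integrate over `z ∈ K` (bound by the integral over the plane), swap the integrals and use
translation invariance; it is easiest with `lintegral` (`lintegral_lintegral_swap`,
`lintegral_sub_right_eq_self`).
`thin_tri`: `mem_tri`: `z = p + a (q - p) + b (r - p)`; with `d = r - p`, `s = b` the point
`z - s d = p + a (q - p)` is on the base; with `d = r - q`, `s = b`,
`z - s d = p + (a + b) (q - p)`. -/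

set_option autoImplicit false

namespace Pool.Agent.Work.MP_267827_an.PS

open MeasureTheory Set Filter Topology Real

theorem line_null {d : ℂ} (hd : d ≠ 0) (p : ℂ) : volume {z : ℂ | cr d (z - p) = 0} = 0 := by
  let L : ℂ →ₗ[ℝ] ℝ := ⟨⟨cr d, cr_add_right d⟩, fun s z => cr_smul_right s d z⟩
  have h : LinearMap.ker L ≠ ⊤ := fun k => by
    have h1 : cr d (Complex.I * d) = 0 := k.ge (Submodule.mem_top (x := Complex.I * d))
    refine hd (Complex.normSq_eq_zero.1 ?_)
    rw [← h1, Complex.normSq_apply]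
    simp [cr]
  exact (measure_preimage_add_right volume (-p) (LinearMap.ker L : Set ℂ)).trans
    (Measure.addHaar_submodule volume _ h)

theorem seg_null (p q : ℂ) : volume (segment ℝ p q) = 0 := by
  by_cases h : q - p = 0
  · rw [sub_eq_zero.1 h, segment_same]
    exact measure_singleton _
  · refine measure_mono_null (fun z hz => ?_) (line_null h p)
    obtain ⟨t, -, -, rfl⟩ := mem_segment_iff'.1 hz
    rw [mem_ofPred_eq, add_sub_cancel_left, cr_mul_right, cr_self, mul_zero]

theorem GC_null (es : List (ℂ × ℂ)) : volume (GC es) = 0 := by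
  induction es with
  | nil => rw [GC_nil, measure_empty]
  | cons e es ih => rw [GC_cons]; exact measure_union_null (seg_null _ _) ih

theorem int_sq {u : ℂ → ℝ} (h1 : ContDiff ℝ 1 u) (h2 : HasCompactSupport u) :
    Integrable fun z => u z ^ 2 := by
  have h : HasCompactSupport fun z => u z ^ 2 := h2.comp_left (g := fun x : ℝ => x ^ 2) (by simp)
  exact (h1.continuous.fun_pow 2).integrable_of_hasCompactSupport h

theorem int_grad {u : ℂ → ℝ} (h1 : ContDiff ℝ 1 u) (h2 : HasCompactSupport u) :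
    Integrable fun z => ‖fderiv ℝ u z‖ ^ 2 := by
  have h : HasCompactSupport fun z => ‖fderiv ℝ u z‖ ^ 2 :=
    (h2.fderiv ℝ).comp_left (g := fun x : ℂ →L[ℝ] ℝ => ‖x‖ ^ 2) (by simp)
  exact ((h1.continuous_fderiv one_ne_zero).norm.fun_pow 2).integrable_of_hasCompactSupport h

variable {D D' K K₁ K₂ Z : Set ℂ} {lam lam' : ℝ}

theorem Low.monoD (h : Low D K lam) (hD : D ⊆ D') : Low D' K lam := by
  exact fun u h1 h2 h3 => h u h1 h2 (h3.mono_right hD)

theorem HS.monoD (h : HS D K lam) (hD : D ⊆ D') : HS D' K lam := by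
  obtain ⟨U, μ, h1, h2, h3, h4, h5⟩ := h
  exact ⟨U, μ, h1, h2, h3, h4, fun u k1 k2 k3 => h5 u k1 k2 (k3.mono_right hD)⟩

theorem Low.mono (h : Low D K lam') (hl : lam ≤ lam') : Low D K lam := by
  exact fun u h1 h2 h3 => (mul_le_mul_of_nonneg_right hl
    (integral_nonneg fun _ => sq_nonneg _)).trans (h u h1 h2 h3)

theorem Low.of_nonpos (hl : lam ≤ 0) : Low D K lam := by
  exact fun u _ _ _ => (mul_nonpos_of_nonpos_of_nonneg hl
    (integral_nonneg fun _ => sq_nonneg _)).trans (integral_nonneg fun _ => sq_nonneg _)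

theorem Low.of_null (h : volume K = 0) : Low D K lam := by
  intro u _ _ _
  rw [setIntegral_measure_zero _ h, setIntegral_measure_zero _ h, mul_zero]

theorem HS.low (h : HS D K lam) : Low D K lam := by
  obtain ⟨U, μ, -, -, -, h4, h5⟩ := h
  exact fun u k1 k2 k3 => (le_add_of_nonneg_right
    (mul_nonneg h4.le (integral_nonneg fun _ => sq_nonneg _))).trans (h5 u k1 k2 k3)

theorem Low.hs (h : Low D K lam') (hl : lam < lam') (ho : IsOpen K) (hne : K.Nonempty) :
    HS D K lam := by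
  refine ⟨K, lam' - lam, ho, hne, subset_rfl, sub_pos.2 hl, fun u k1 k2 k3 => ?_⟩
  rw [← add_mul, add_sub_cancel]
  exact h u k1 k2 k3

theorem GAna_split (m2 : MeasurableSet K₂) (hd : Disjoint K₁ K₂) (s1 : K₁ ⊆ K) (s2 : K₂ ⊆ K)
    (hc : K ⊆ K₁ ∪ K₂ ∪ Z) (hZ : volume Z = 0) {f : ℂ → ℝ} (hf : Integrable f) :
    ∫ z in K, f z = (∫ z in K₁, f z) + ∫ z in K₂, f z := by
  rw [← setIntegral_union hd m2 hf.integrableOn hf.integrableOn]
  refine setIntegral_congr_set (ae_eq_set.2 ⟨measure_mono_null (sdiff_subset_iff.2 hc) hZ, ?_⟩)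
  rw [sdiff_eq_empty.2 (union_subset s1 s2), measure_empty]

theorem Low.union (h1 : Low D K₁ lam) (h2 : Low D K₂ lam) (m1 : MeasurableSet K₁)
    (m2 : MeasurableSet K₂) (hd : Disjoint K₁ K₂) (s1 : K₁ ⊆ K) (s2 : K₂ ⊆ K)
    (hc : K ⊆ K₁ ∪ K₂ ∪ Z) (hZ : volume Z = 0) : Low D K lam := by
  intro u k1 k2 k3
  rw [GAna_split m2 hd s1 s2 hc hZ (int_sq k1 k2), GAna_split m2 hd s1 s2 hc hZ (int_grad k1 k2),
    mul_add]
  exact add_le_add (h1 u k1 k2 k3) (h2 u k1 k2 k3)

theorem HS.union (h1 : HS D K₁ lam) (h2 : Low D K₂ lam) (m1 : MeasurableSet K₁)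
    (m2 : MeasurableSet K₂) (hd : Disjoint K₁ K₂) (s1 : K₁ ⊆ K) (s2 : K₂ ⊆ K)
    (hc : K ⊆ K₁ ∪ K₂ ∪ Z) (hZ : volume Z = 0) : HS D K lam := by
  obtain ⟨U, μ, j1, j2, j3, j4, j5⟩ := h1
  refine ⟨U, μ, j1, j2, j3.trans s1, j4, fun u k1 k2 k3 => ?_⟩
  rw [GAna_split m2 hd s1 s2 hc hZ (int_sq k1 k2), GAna_split m2 hd s1 s2 hc hZ (int_grad k1 k2),
    mul_add, add_right_comm]
  exact add_le_add (j5 u k1 k2 k3) (h2 u k1 k2 k3)

theorem GAna_int (K : Set ℂ) (f : ℂ → ℝ) :
    ∫ z in (starRingEnd ℂ) '' K, f z = ∫ z in K, f ((starRingEnd ℂ) z) :=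
  Complex.conjLIE.measurePreserving.setIntegral_image_emb
    Complex.conjLIE.toHomeomorph.measurableEmbedding f K

theorem GAna_comp {u : ℂ → ℝ} (h1 : ContDiff ℝ 1 u) (h2 : HasCompactSupport u)
    (h3 : Disjoint (tsupport u) ((starRingEnd ℂ) '' D)) :
    ContDiff ℝ 1 (u ∘ Complex.conjLIE) ∧ HasCompactSupport (u ∘ Complex.conjLIE) ∧
      Disjoint (tsupport (u ∘ Complex.conjLIE)) D ∧
      ∀ z, ‖fderiv ℝ (u ∘ Complex.conjLIE) z‖ ^ 2 = ‖fderiv ℝ u ((starRingEnd ℂ) z)‖ ^ 2 := by
  refine ⟨h1.comp Complex.conjLIE.contDiff, h2.comp_homeomorph Complex.conjLIE.toHomeomorph,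
    disjoint_left.2 fun z hz hD => disjoint_left.1 h3
      (tsupport_comp_subset_preimage u Complex.conjLIE.continuous hz) (mem_image_of_mem _ hD),
    fun z => ?_⟩
  have k := Complex.conjLIE.toContinuousLinearEquiv.comp_right_fderiv (f := u) (x := z)
  exact congrArg (· ^ 2) ((congrArg norm k).trans
    (ContinuousLinearMap.opNorm_comp_linearIsometryEquiv _ _))

theorem Low.conj (h : Low D K lam) :
    Low ((starRingEnd ℂ) '' D) ((starRingEnd ℂ) '' K) lam := by
  intro u k1 k2 k3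
  obtain ⟨j1, j2, j3, j4⟩ := GAna_comp k1 k2 k3
  rw [GAna_int, GAna_int, ← funext j4]
  exact h _ j1 j2 j3

theorem HS.conj (h : HS D K lam) : HS ((starRingEnd ℂ) '' D) ((starRingEnd ℂ) '' K) lam := by
  obtain ⟨U, μ, h1, h2, h3, h4, h5⟩ := h
  refine ⟨(starRingEnd ℂ) '' U, μ, Complex.conjLIE.toHomeomorph.isOpenMap U h1, h2.image _,
    image_mono h3, h4, fun u k1 k2 k3 => ?_⟩
  obtain ⟨j1, j2, j3, j4⟩ := GAna_comp k1 k2 k3
  rw [GAna_int, GAna_int, GAna_int, ← funext j4]
  exact h5 _ j1 j2 j3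

theorem vol_conj (K : Set ℂ) : volume ((starRingEnd ℂ) '' K) = volume K := by
  rw [← Complex.conjLIE.measurePreserving.measure_preimage_emb
    Complex.conjLIE.toHomeomorph.measurableEmbedding]
  exact congrArg volume (preimage_image_eq K Complex.conjLIE.injective)

end Pool.Agent.Work.MP_267827_an.PS
end

-- merged part: Pool.Agent.Work.MP_267827_an.PS.GThin
section
/-! Energy bounds on pieces: null sets, unions, mirror images, thin sets (skeleton helper49).

Plan.
`line_null`: the set is an affine subspace different from the whole plane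
(`MeasureTheory.Measure.addHaar_affineSubspace`), or the preimage of a proper submodule
(`addHaar_submodule`) under a translation.
`int_sq`, `int_grad`: continuous functions with compact support.
`Low.union`: `K =ᵐ K₁ ∪ K₂`, `setIntegral_congr_set`, `setIntegral_union`.
`Low.conj`: apply the hypothesis to `u ∘ conj`; `Complex.conjLIE` preserves the measure
(`LinearIsometryEquiv.measurePreserving`), `MeasurePreserving.setIntegral_image_emb`,
`‖fderiv (u ∘ L) z‖ = ‖fderiv u (L z)‖` (`LinearIsometryEquiv.comp_right_fderiv`,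
`ContinuousLinearMap.opNorm_comp_linearIsometryEquiv`).
`thin`: for `z ∈ K` with parameter `s`: `u (z - s d) = 0`, so
`u z = ∫ t in 0..s, fderiv u (z - t d) d` and by Cauchy-Schwarz
`u z ^ 2 ≤ ‖d‖ ^ 2 * ∫ t in 0..1, G (z - t d)` with `G = K.indicator ‖fderiv u‖ ^ 2`.
Integrate over `z ∈ K` (bound by the integral over the plane), swap the integrals and use
translation invariance; it is easiest with `lintegral` (`lintegral_lintegral_swap`,
`lintegral_sub_right_eq_self`).
`thin_tri`: `mem_tri`: `z = p + a (q - p) + b (r - p)`; with `d = r - p`, `s = b` the point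
`z - s d = p + a (q - p)` is on the base; with `d = r - q`, `s = b`,
`z - s d = p + (a + b) (q - p)`. -/

set_option autoImplicit false

namespace Pool.Agent.Work.MP_267827_an.PS

open MeasureTheory Set Filter Topology Real

variable {D D' K K₁ K₂ Z : Set ℂ} {lam lam' : ℝ}

theorem GThin_cs {f : ℝ → ENNReal} (hf : Measurable f) :
    (∫⁻ t in Ioo (0 : ℝ) 1, f t) ^ 2 ≤ ∫⁻ t in Ioo (0 : ℝ) 1, f t ^ 2 := by
  have h := ENNReal.lintegral_mul_le_Lp_mul_Lq (volume.restrict (Ioo (0 : ℝ) 1))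
    Real.HolderConjugate.two_two (f := fun _ => 1) aemeasurable_const hf.aemeasurable
  simp only [Pi.mul_apply, one_mul, ENNReal.one_rpow, lintegral_const, ENNReal.rpow_two,
    Measure.restrict_apply_univ, Real.volume_Ioo, sub_zero, ENNReal.ofReal_one, one_pow] at h
  refine (pow_le_pow_left' h 2).trans_eq ?_
  rw [← ENNReal.rpow_two, ← ENNReal.rpow_mul]
  norm_num

theorem GThin_pt {u : ℂ → ℝ} (hu : ContDiff ℝ 1 u) {z d : ℂ} {s : ℝ} (s0 : 0 ≤ s) (s1 : s ≤ 1)
    (h0 : u (z - s * d) = 0) (h : ∀ t : ℝ, 0 < t → t < s → z - t * d ∈ K) :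
    ‖u z‖ₑ ≤ ∫⁻ t in Ioo (0 : ℝ) 1, ‖d‖ₑ * K.indicator (fun w => ‖fderiv ℝ u w‖ₑ) (z - t * d) := by
  have h1 := enorm_sub_le_lintegral_deriv_of_contDiffOn_Icc (f := fun t : ℝ => u (z - t * d))
    (hu.comp (contDiff_const.sub (Complex.ofRealCLM.contDiff.mul contDiff_const))).contDiffOn s0
  rw [h0, zero_sub, enorm_neg, Complex.ofReal_zero, zero_mul, sub_zero,
    ← Measure.restrict_congr_set Ioo_ae_eq_Icc] at h1
  refine h1.trans ((setLIntegral_mono' measurableSet_Ioo fun t ht => ?_).trans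
    (lintegral_mono_set (Ioo_subset_Ioo_right s1)))
  have h2 : HasDerivAt (fun t : ℝ => u (z - t * d)) (fderiv ℝ u (z - t * d) (-d)) t :=
    (hu.differentiable one_ne_zero _).hasFDerivAt.comp_hasDerivAt t
      (by simpa using (Complex.ofRealCLM.hasDerivAt.mul_const d).const_sub z)
  rw [h2.deriv, indicator_of_mem (h t ht.1 ht.2), mul_comm ‖d‖ₑ, ← enorm_neg d]
  exact (fderiv ℝ u (z - t * d)).le_opENorm (-d)

theorem thin {d : ℂ} (hK : MeasurableSet K)
    (h : ∀ z ∈ K, ∃ s : ℝ, 0 ≤ s ∧ s ≤ 1 ∧ z - s * d ∈ D ∧ ∀ t : ℝ, 0 < t → t < s → z - t * d ∈ K)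
    (hl : lam * ‖d‖ ^ 2 ≤ 1) : Low D K lam := by
  rcases le_or_gt lam 0 with h0 | h0
  · exact Low.of_nonpos h0
  intro u hu hc hD
  have hG : Measurable (K.indicator fun w => ‖fderiv ℝ u w‖ₑ) :=
    (measurable_fderiv ℝ u).enorm.indicator hK
  have hm : Measurable fun p : ℂ × ℝ =>
      ‖d‖ₑ * K.indicator (fun w => ‖fderiv ℝ u w‖ₑ) (p.1 - p.2 * d) :=
    (hG.comp (by fun_prop)).const_mul _
  have h1 : ∫⁻ z in K, ‖u z‖ₑ ^ 2 ≤ ‖d‖ₑ ^ 2 * ∫⁻ z in K, ‖fderiv ℝ u z‖ₑ ^ 2 := by
    refine (setLIntegral_mono' hK fun z hz => ?_).trans ((setLIntegral_le_lintegral K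
      fun z => ∫⁻ t in Ioo (0 : ℝ) 1,
        (‖d‖ₑ * K.indicator (fun w => ‖fderiv ℝ u w‖ₑ) (z - t * d)) ^ 2).trans_eq ?_)
    · obtain ⟨s, s0, s1, h2, h3⟩ := h z hz
      exact (pow_le_pow_left' (GThin_pt hu s0 s1 (image_eq_zero_of_notMem_tsupport
        (disjoint_right.1 hD h2)) h3) 2).trans (GThin_cs (hm.comp measurable_prodMk_left))
    · rw [lintegral_lintegral_swap (hm.pow_const 2).aemeasurable]
      simp only [mul_pow, lintegral_sub_right_eq_self
        (fun z => ‖d‖ₑ ^ 2 * K.indicator (fun w => ‖fderiv ℝ u w‖ₑ) z ^ 2), lintegral_const,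
        Measure.restrict_apply_univ, Real.volume_Ioo, sub_zero, ENNReal.ofReal_one, mul_one]
      rw [lintegral_const_mul _ (hG.pow_const 2), ← lintegral_indicator hK]
      refine congrArg _ (lintegral_congr fun z => ?_)
      unfold indicator
      split_ifs <;> simp
  have hE : 0 ≤ ∫ z in K, ‖fderiv ℝ u z‖ ^ 2 := integral_nonneg fun _ => sq_nonneg _
  have h2 : ∫ z in K, u z ^ 2 ≤ ‖d‖ ^ 2 * ∫ z in K, ‖fderiv ℝ u z‖ ^ 2 := by
    rw [← ENNReal.ofReal_le_ofReal_iff (mul_nonneg (sq_nonneg _) hE),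
      ENNReal.ofReal_mul (sq_nonneg _), ofReal_integral_eq_lintegral_ofReal
        (int_sq hu hc).integrableOn (ae_of_all _ fun _ => sq_nonneg _),
      ofReal_integral_eq_lintegral_ofReal (int_grad hu hc).integrableOn
        (ae_of_all _ fun _ => sq_nonneg _)]
    simp only [← sq_abs (u _), ← Real.norm_eq_abs, ENNReal.ofReal_pow (norm_nonneg _), ofReal_norm]
    exact h1
  exact (mul_le_mul_of_nonneg_left h2 h0.le).trans
    ((mul_assoc _ _ _).symm.trans_le (mul_le_of_le_one_left hE hl))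

theorem thin_tri {p q r : ℂ} (hc : 0 < cr (q - p) (r - p)) (hD : segment ℝ p q ⊆ D)
    (hl : lam * ‖r - p‖ ^ 2 ≤ 1 ∨ lam * ‖r - q‖ ^ 2 ≤ 1) :
    Low D (Lft [(p, q), (q, r), (r, p)]) lam := by
  rcases hl with hl | hl <;> refine thin (isOpen_Lft _).measurableSet (fun z hz => ?_) hl <;>
    obtain ⟨a, b, a0, b0, ab, rfl⟩ := (mem_tri hc).1 hz <;>
    refine ⟨b, b0.le, by linarith only [a0, ab], hD (mem_segment_iff'.2 ?_), fun t t0 t1 => (mem_tri hc).2 ?_⟩
  · exact ⟨a, a0.le, by linarith, by ring⟩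
  · exact ⟨a, b - t, a0, by linarith, by linarith, by push_cast; ring⟩
  · exact ⟨a + b, by linarith, ab.le, by push_cast; ring⟩
  · exact ⟨a + t, b - t, by linarith, by linarith, by linarith, by push_cast; ring⟩

theorem GThin_std :
    volume {z : ℂ | 0 < z.re ∧ 0 < z.im ∧ z.re + z.im < 1} = ENNReal.ofReal (1 / 2) := by
  have e : {z : ℂ | 0 < z.re ∧ 0 < z.im ∧ z.re + z.im < 1} = Complex.measurableEquivRealProd ⁻¹'
      regionBetween (fun _ => 0) (fun x => 1 - x) (Ioo 0 1) :=
    Set.ext fun z => ⟨fun h => ⟨⟨h.1, (by linarith [h.2.1, h.2.2] : z.re < 1)⟩, h.2.1,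
      lt_sub_iff_add_lt'.2 h.2.2⟩, fun h => ⟨h.1.1, h.2.1, lt_sub_iff_add_lt'.1 h.2.2⟩⟩
  rw [e, Complex.volume_preserving_equiv_real_prod.measure_preimage (measurableSet_regionBetween
      measurable_const (by fun_prop) measurableSet_Ioo).nullMeasurableSet, Measure.volume_eq_prod,
    volume_regionBetween_eq_integral (continuous_const.integrableOn_Icc.mono_set Ioo_subset_Icc_self)
      ((Continuous.integrableOn_Icc (by fun_prop)).mono_set Ioo_subset_Icc_self) measurableSet_Ioo
      fun x hx => sub_nonneg.2 hx.2.le, ← integral_Ioc_eq_integral_Ioo,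
    ← intervalIntegral.integral_of_le zero_le_one]
  congr 1
  simp only [Pi.sub_apply, sub_zero]
  rw [intervalIntegral.integral_sub intervalIntegrable_const intervalIntegral.intervalIntegrable_id]
  norm_num

/-- the area of a triangle: the image of `{s > 0, t > 0, s + t < 1}` (area `1 / 2`,
`volume_regionBetween_eq_integral` and `Complex.volume_preserving_equiv_real_prod`) under the
real linear map with columns `b - a`, `c - a` and determinant `cr (b - a) (c - a)`
(`MeasureTheory.Measure.addHaar_image_linearMap`), then a translation -/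
theorem tri_area {a b c : ℂ} (h : 0 < cr (b - a) (c - a)) :
    volume (Lft [(a, b), (b, c), (c, a)]) = ENNReal.ofReal (cr (b - a) (c - a) / 2) := by
  have e : Lft [(a, b), (b, c), (c, a)] = (fun z => -a + z) ⁻¹'
      ((Complex.reLm.smulRight (b - a) + Complex.imLm.smulRight (c - a) : ℂ →ₗ[ℝ] ℂ) ''
        {z : ℂ | 0 < z.re ∧ 0 < z.im ∧ z.re + z.im < 1}) := by
    ext z
    rw [mem_tri h]
    refine ⟨fun ⟨s, t, s0, t0, st, e⟩ => ⟨⟨s, t⟩, ⟨s0, t0, st⟩, ?_⟩,
      fun ⟨w, hw, e⟩ => ⟨w.re, w.im, hw.1, hw.2.1, hw.2.2, ?_⟩⟩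
    · simp [e, add_assoc]
    · simpa [eq_neg_add_iff_add_eq, add_assoc, eq_comm] using e
  have hd : LinearMap.det (Complex.reLm.smulRight (b - a) + Complex.imLm.smulRight (c - a) :
      ℂ →ₗ[ℝ] ℂ) = cr (b - a) (c - a) := by
    rw [← LinearMap.det_toMatrix Complex.basisOneI, Matrix.det_fin_two]
    simp [LinearMap.toMatrix_apply, cr, mul_comm]
  rw [e, measure_preimage_add, Measure.addHaar_image_linearMap, hd, GThin_std, abs_of_pos h,
    ← ENNReal.ofReal_mul h.le, mul_one_div]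

end Pool.Agent.Work.MP_267827_an.PS
end

-- merged part: Pool.Agent.Work.MP_267827_an.PS.GCell
section
/-! Convex cells: symmetry, the perpendicular cut, acute cells (skeleton helper49).

`cell_pos`: let `τ₁` be the direction of the last edge `(X, A)` (`Wall.split_edge`); if `a ≤ 0` then
`τ < τ + π - b ≤ τ₁ ≤ τ + π`, and `B` is weakly left of this edge (`Wall.conv`), so
`sin (τ - τ₁) ≥ 0` and `τ₁ = τ + π`; then no point is left of the base and of the last edge.
The same at `B` with the first edge.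
`cell_sub`: a point of the cell is left of the base (direction `τ`) and of the first edge
(direction `τ₁ ∈ [τ + π - b, τ + π)`, as in `cell_pos`), so by `cr_between` it is left of the line
through `B` with the direction `τ + π - b`; the same at `A` with the directions `τ₁ ≤ τ + π + a` and
`τ + 2 π`.  The apex is `C = B + p ei (τ + π - b) = A - q ei (τ + π + a)` with
`p = s sin a / sin (a + b)`, `q = s sin b / sin (a + b)`.
`cell_area`: `cell_sub`, `tri_area`.
`CellLow.symm`: mirror image: the base `mirE (A, B) = (conj B, conj A)` has the direction `π - τ`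
up to `2 π`: use `Wall.mir`, `Wall.shift`, `Ed_mir`, `Lft_mir`, `Lft_perm`, `Low.conj`, `vol_conj`.
`wall_level`: induction on the wall; `φ z = ((z - A) * ei (-τ)).re` decreases strictly along every
edge since all directions are within `π / 2` of `τ + π`.
`vol_level`: `t ↦ volume.real (K ∩ {φ < t})` is continuous (`continuous_of_dominated` is not enough,
use `continuousAt_of_dominated` for the indicator, the line `φ = t` is null by `line_null`), it is
`0` for very negative `t` and `volume.real K` for large `t`; intermediate value theorem.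
`CellLow.add`: assume `0 < lam`.  If `Λ₁ ≤ 0` or `lam |K| ≤ Λ₁` use `CellLow.mono`.  Otherwise choose
`t` with `lam |K ∩ {φ < t}| = Λ₁`; both parts have positive measure and `0 < φ < s` on `K`
(`cell_sub`, or `cr_between`), so `0 < t < s`.  Let `Y = A + t ei τ` and `X` the point of the wall with
`φ X = t` (`wall_level`); `X - Y = r ei (τ + π / 2)` with `r > 0` (`r ≥ 0` by `Wall.base`; if `r = 0` the
part `K ∩ {φ < t}` is empty: its points are left of the edge leaving `X` and left of the base ...;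
or: a point of `K` on the line `φ = t` exists by convexity, it is `Y + r' ei (τ + π / 2)` with `r' > 0`
and it is left of the edge leaving `X`, whose direction has negative cosine, so `r' < r`).
The left cell has base `A Y` and wall `Y :: X :: w₁`, it equals `K ∩ {φ < t}`: for an edge before `X`
with direction `τ₂` use `cr_between` with `τ + π / 2 ≤ τ₂ ≤ τ₃` (`τ₃` the direction of the edge
leaving `X`) and `Wall.conv`.  The right cell has base `Y B` and wall `w₂ ++ [X, Y]` and equals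
`K ∩ {t < φ}`.  `Low.union` with the line as null set, `Low.monoD`.
`acute`: `θ₁ = π / 2 - a`, `θ₂ = π / 2 - b`.  If `θ₂ = 0` take `Λ` from `RIGHT` at `θ₁` (and `symm`), it is
larger than `g θ₁ - 2 κ`; the same if `θ₁ = 0`; otherwise `CellLow.add`. -/

set_option autoImplicit false

namespace Pool.Agent.Work.MP_267827_an.PS

open MeasureTheory Set Filter Topology Real

variable {Λ Λ₁ Λ₂ a b a' b' τ s : ℝ} {A B : ℂ} {k : List ℂ}

theorem CellLow.mono (h : CellLow Λ a' b') (ha : a ≤ a') (hb : b ≤ b') : CellLow Λ a b := by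
  intro A B k τ s lam hs hB hw hl
  exact h A B k τ s lam hs hB (hw.mono (by linarith) (by linarith)) hl

theorem CellLow.mono' (h : CellLow Λ₁ a b) (hΛ : Λ₂ ≤ Λ₁) : CellLow Λ₂ a b := by
  intro A B k τ s lam hs hB hw hl
  exact h A B k τ s lam hs hB hw (hl.trans hΛ)

theorem GCell_end (X Y z : ℂ) : cr (Y - X) (z - X) = cr (Y - X) (z - Y) := by
  simp [cr]; ring

theorem GCell_base {es : List (ℂ × ℂ)} {z : ℂ} (hs : 0 < s) (hB : B - A = s * ei τ)
    (hz : z ∈ Lft ((A, B) :: es)) : 0 < cr (ei τ) (z - A) ∧ 0 < cr (ei τ) (z - B) := by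
  have h1 : 0 < cr (B - A) (z - A) := hz _ List.mem_cons_self
  have h2 := h1.trans_eq (GCell_end _ _ _)
  rw [hB, cr_mul_left] at h1 h2
  exact ⟨(mul_pos_iff_of_pos_left hs).1 h1, (mul_pos_iff_of_pos_left hs).1 h2⟩

/-- the direction of the last edge of the wall -/
theorem GCell_last {z : ℂ} (hs : 0 < s) (hB : B - A = s * ei τ)
    (hw : Wall (τ + π - b) (τ + π + a) (B :: k ++ [A])) (hb : b < π) (hab : a + b ≤ π)
    (hz : z ∈ Lft ((A, B) :: Ed (B :: k ++ [A]))) :
    ∃ τ₁, τ + π < τ₁ ∧ τ₁ ≤ τ + π + a ∧ 0 < cr (ei τ₁) (z - A) := by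
  obtain ⟨l, X, e⟩ : ∃ l X, B :: k ++ [A] = l ++ X :: A :: [] := by
    obtain ⟨l, X, e⟩ := (List.eq_nil_or_concat' (B :: k)).resolve_left (List.cons_ne_nil _ _)
    exact ⟨l, X, by rw [e]; simp⟩
  have he : (X, A) ∈ Ed (B :: k ++ [A]) := mem_Ed.2 ⟨l, [], e⟩
  have h1 := hw.conv (by linarith) he (x := B) (by simp)
  have h2 : 0 < cr (A - X) (z - X) := hz _ (List.mem_cons_of_mem _ he)
  obtain ⟨τ₁, s₁, h3, h4, h5, h6⟩ := Wall.split_edge (e ▸ hw)
  rw [GCell_end, h4, cr_mul_left] at h1 h2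
  have h7 := (mul_pos_iff_of_pos_left h3).1 h2
  refine ⟨τ₁, lt_of_not_ge fun h8 => ?_, h6.le, h7⟩
  rcases h8.eq_or_lt with rfl | h8
  · rw [ei_add_pi, cr_neg_left] at h7
    linarith [(GCell_base hs hB hz).1]
  · rw [hB, cr_mul_right, cr_ei, ← neg_sub τ₁ τ, sin_neg] at h1
    have := sin_pos_of_pos_of_lt_pi (x := τ₁ - τ) (by linarith [h5.le]) (by linarith)
    linarith only [h1, h3, hs, this, mul_pos h3 (mul_pos hs this)]

/-- the direction of the first edge of the wall -/
theorem GCell_first {z : ℂ} (hs : 0 < s) (hB : B - A = s * ei τ)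
    (hw : Wall (τ + π - b) (τ + π + a) (B :: k ++ [A])) (ha : a < π) (hab : a + b ≤ π)
    (hz : z ∈ Lft ((A, B) :: Ed (B :: k ++ [A]))) :
    ∃ τ₁, τ + π - b ≤ τ₁ ∧ τ₁ < τ + π ∧ 0 < cr (ei τ₁) (z - B) := by
  obtain ⟨l, Y, e⟩ : ∃ l Y, B :: k ++ [A] = [] ++ B :: Y :: l := by
    rcases k with _ | ⟨Y, k⟩
    exacts [⟨[], A, rfl⟩, ⟨k ++ [A], Y, rfl⟩]
  have he : (B, Y) ∈ Ed (B :: k ++ [A]) := mem_Ed.2 ⟨[], l, e⟩
  have h1 := hw.conv (by linarith only [hab]) he (x := A) (by simp)
  have h2 : 0 < cr (Y - B) (z - B) := hz _ (List.mem_cons_of_mem _ he)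
  obtain ⟨τ₁, s₁, h3, h4, h5, h6⟩ := Wall.split_edge (e ▸ hw)
  rw [h4, cr_mul_left] at h1 h2
  have h7 := (mul_pos_iff_of_pos_left h3).1 h2
  refine ⟨τ₁, h5.le, lt_of_not_ge fun h8 => ?_, h7⟩
  rcases h8.eq_or_lt with rfl | h8
  · rw [ei_add_pi, cr_neg_left] at h7
    linarith [(GCell_base hs hB hz).2]
  · rw [← neg_sub B A, hB, cr_neg_right, cr_mul_right, cr_ei,
      show τ - τ₁ = -(τ₁ - τ - π) - π by ring, sin_sub_pi, sin_neg] at h1
    have := sin_pos_of_pos_of_lt_pi (x := τ₁ - τ - π) (by linarith) (by linarith [h6.le])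
    linarith only [h1, h3, hs, this, mul_pos h3 (mul_pos hs this)]

theorem cell_pos (hs : 0 < s) (hB : B - A = s * ei τ)
    (hw : Wall (τ + π - b) (τ + π + a) (B :: k ++ [A])) (ha : a < π) (hb : b < π)
    (hab : a + b < π) (hne : (Lft ((A, B) :: Ed (B :: k ++ [A]))).Nonempty) : 0 < a ∧ 0 < b := by
  obtain ⟨z, hz⟩ := hne
  obtain ⟨τ₁, h1, h2, -⟩ := GCell_last hs hB hw hb hab.le hz
  obtain ⟨τ₂, h3, h4, -⟩ := GCell_first hs hB hw ha hab.le hz
  exact ⟨by linarith, by linarith⟩

theorem cell_sub (hs : 0 < s) (hB : B - A = s * ei τ)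
    (hw : Wall (τ + π - b) (τ + π + a) (B :: k ++ [A])) (ha : 0 < a) (hb : 0 < b)
    (hab : a + b < π) :
    ∃ C : ℂ, C - B = (s * sin a / sin (a + b) : ℝ) * ei (τ + π - b) ∧
      A - C = (s * sin b / sin (a + b) : ℝ) * ei (τ + π + a) ∧
      Lft ((A, B) :: Ed (B :: k ++ [A])) ⊆ Lft [(A, B), (B, C), (C, A)] := by
  have s0 : 0 < sin (a + b) := sin_pos_of_pos_of_lt_pi (by linarith) hab
  have sa : 0 < sin a := sin_pos_of_pos_of_lt_pi ha (by linarith)
  have sb : 0 < sin b := sin_pos_of_pos_of_lt_pi hb (by linarith)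
  obtain ⟨C, hC⟩ : ∃ C : ℂ, C - B = (s * sin a / sin (a + b) : ℝ) * ei (τ + π - b) :=
    ⟨B + _, add_sub_cancel_left _ _⟩
  have hA : A - C = (s * sin b / sin (a + b) : ℝ) * ei (τ + π + a) := by
    have e1 : ei (τ + π - b) = -(ei τ * ei (-b)) := by
      rw [← ei_add, ← ei_add_pi]; congr 1; ring
    have e2 : ei (τ + π + a) = -(ei τ * ei a) := by
      rw [← ei_add, ← ei_add_pi]; congr 1; ring
    have e3 : ((s * sin a / sin (a + b) : ℝ) : ℂ) * ei (-b) +
        (s * sin b / sin (a + b) : ℝ) * ei a = s := by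
      apply Complex.ext
      · simp only [Complex.add_re, Complex.re_ofReal_mul, ei_re, Complex.ofReal_re, cos_neg]
        field_simp
        rw [sin_add]
        ring
      · simp only [Complex.add_im, Complex.im_ofReal_mul, ei_im, Complex.ofReal_im, sin_neg]
        ring
    rw [e1] at hC
    rw [e2]
    linear_combination -hC - hB + ei τ * e3
  refine ⟨C, hC, hA, fun z hz => ?_⟩
  obtain ⟨τ₁, h1, h2, h3⟩ := GCell_last hs hB hw (by linarith only [ha, hab]) hab.le hz
  obtain ⟨τ₂, h4, h5, h6⟩ := GCell_first hs hB hw (by linarith) hab.le hz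
  obtain ⟨h7, h8⟩ := GCell_base hs hB hz
  intro e he
  simp only [List.mem_cons, List.not_mem_nil, or_false] at he
  rcases he with rfl | rfl | rfl
  · exact hz _ List.mem_cons_self
  · show 0 < cr (C - B) (z - B)
    rw [hC, cr_mul_left]
    exact mul_pos (by positivity) (cr_between (by linarith only [ha, hab]) h4 (by linarith only [h5]) h8 h6)
  · show 0 < cr (A - C) (z - C)
    rw [GCell_end, hA, cr_mul_left]
    refine mul_pos (by positivity)
      (cr_between (r := τ + 2 * π) h2 (by linarith only [hb, hab]) (by linarith only [h1]) h3 ?_)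
    rwa [ei_add, ei_two_pi, mul_one]

theorem cell_area (hs : 0 < s) (hB : B - A = s * ei τ)
    (hw : Wall (τ + π - b) (τ + π + a) (B :: k ++ [A])) (ha : 0 < a) (hb : 0 < b)
    (hab : a + b < π) :
    Bornology.IsBounded (Lft ((A, B) :: Ed (B :: k ++ [A]))) ∧
      volume.real (Lft ((A, B) :: Ed (B :: k ++ [A]))) ≤
        s ^ 2 * sin a * sin b / (2 * sin (a + b)) := by
  have s0 : 0 < sin (a + b) := sin_pos_of_pos_of_lt_pi (by linarith) hab
  have sa : 0 < sin a := sin_pos_of_pos_of_lt_pi ha (by linarith)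
  have sb : 0 < sin b := sin_pos_of_pos_of_lt_pi hb (by linarith)
  obtain ⟨C, -, hA, hsub⟩ := cell_sub hs hB hw ha hb hab
  have e : cr (B - A) (C - A) = s ^ 2 * sin a * sin b / sin (a + b) := by
    rw [← neg_sub A C, hA, hB, cr_neg_right, cr_mul_left, cr_mul_right, cr_ei,
      show τ + π + a - τ = a + π by ring, sin_add_pi]
    ring
  have h0 : 0 < cr (B - A) (C - A) := by
    rw [e]
    positivity
  refine ⟨(Metric.isBounded_closedBall (x := A) (r := ‖B - A‖ + ‖C - A‖)).subset fun z hz => ?_,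
    (measureReal_mono hsub (by rw [tri_area h0]; exact ENNReal.ofReal_ne_top)).trans_eq ?_⟩
  · obtain ⟨u, v, h1, h2, h3, rfl⟩ := (mem_tri h0).1 (hsub hz)
    rw [mem_closedBall_iff_norm, add_assoc, add_sub_cancel_left]
    refine (norm_add_le _ _).trans (add_le_add ?_ ?_)
    · rw [norm_mul, Complex.norm_real, Real.norm_of_nonneg h1.le]
      exact mul_le_of_le_one_left (norm_nonneg _) (by linarith only [h2, h3])
    · rw [norm_mul, Complex.norm_real, Real.norm_of_nonneg h2.le]
      exact mul_le_of_le_one_left (norm_nonneg _) (by linarith)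
  · rw [Measure.real, tri_area h0, ENNReal.toReal_ofReal (by positivity), e]
    field_simp

theorem CellLow.symm (h : CellLow Λ a b) : CellLow Λ b a := by
  intro A B k τ s lam hs hB hw hl
  have e1 : mirL (B :: k ++ [A]) = (starRingEnd ℂ) A :: mirL k ++ [(starRingEnd ℂ) B] := by
    simp [mirL]
  have e2 : Lft (((starRingEnd ℂ) B, (starRingEnd ℂ) A) ::
      Ed ((starRingEnd ℂ) A :: mirL k ++ [(starRingEnd ℂ) B])) =
      (starRingEnd ℂ) '' Lft ((A, B) :: Ed (B :: k ++ [A])) := by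
    rw [← Lft_mir, ← e1, Ed_mir]
    exact Lft_perm ((List.reverse_perm _).cons _)
  have := h ((starRingEnd ℂ) B) ((starRingEnd ℂ) A) (mirL k) (-τ - π - π - π) s lam hs
    (by
      rw [ei_sub_pi, ei_sub_pi, ei_sub_pi, neg_neg, ← ei_conj, ← map_sub, ← neg_sub B A, hB]
      simp)
    (e1 ▸ hw.mir.mono (by linarith) (by linarith))
    (by rwa [e2, Measure.real, vol_conj])
  rw [e2] at this
  have h2 := this.conj
  rw [image_image] at h2
  simp only [Complex.conj_conj, image_id'] at h2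
  refine h2.monoD ?_
  rintro _ ⟨x, hx, rfl⟩
  rw [segment_symm] at hx
  obtain ⟨t, h0, h1, rfl⟩ := mem_segment_iff'.1 hx
  exact mem_segment_iff'.2 ⟨t, h0, h1, by simp⟩

theorem CellLow.tri (h : CellLow Λ a b) (hab : 0 ≤ a + b) : TriLow Λ a b := by
  intro A B C τ s p q lam hs hp hq hB hC hA hl
  exact h A B [C] τ s lam hs hB
    (.cons le_rfl hp hC (.cons (by linarith) hq hA (.one _ le_rfl))) hl

end Pool.Agent.Work.MP_267827_an.PS
end

-- merged part: Pool.Agent.Work.MP_267827_an.PS.GAcute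
section
/-! Convex cells: symmetry, the perpendicular cut, acute cells (skeleton helper49).

`cell_pos`: let `τ₁` be the direction of the last edge `(X, A)` (`Wall.split_edge`); if `a ≤ 0` then
`τ < τ + π - b ≤ τ₁ ≤ τ + π`, and `B` is weakly left of this edge (`Wall.conv`), so
`sin (τ - τ₁) ≥ 0` and `τ₁ = τ + π`; then no point is left of the base and of the last edge.
The same at `B` with the first edge.
`cell_sub`: a point of the cell is left of the base (direction `τ`) and of the first edge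
(direction `τ₁ ∈ [τ + π - b, τ + π)`, as in `cell_pos`), so by `cr_between` it is left of the line
through `B` with the direction `τ + π - b`; the same at `A` with the directions `τ₁ ≤ τ + π + a` and
`τ + 2 π`.  The apex is `C = B + p ei (τ + π - b) = A - q ei (τ + π + a)` with
`p = s sin a / sin (a + b)`, `q = s sin b / sin (a + b)`.
`cell_area`: `cell_sub`, `tri_area`.
`CellLow.symm`: mirror image: the base `mirE (A, B) = (conj B, conj A)` has the direction `π - τ`
up to `2 π`: use `Wall.mir`, `Wall.shift`, `Ed_mir`, `Lft_mir`, `Lft_perm`, `Low.conj`, `vol_conj`.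
`wall_level`: induction on the wall; `φ z = ((z - A) * ei (-τ)).re` decreases strictly along every
edge since all directions are within `π / 2` of `τ + π`.
`vol_level`: `t ↦ volume.real (K ∩ {φ < t})` is continuous (`continuous_of_dominated` is not enough,
use `continuousAt_of_dominated` for the indicator, the line `φ = t` is null by `line_null`), it is
`0` for very negative `t` and `volume.real K` for large `t`; intermediate value theorem.
`CellLow.add`: assume `0 < lam`.  If `Λ₁ ≤ 0` or `lam |K| ≤ Λ₁` use `CellLow.mono`.  Otherwise choose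
`t` with `lam |K ∩ {φ < t}| = Λ₁`; both parts have positive measure and `0 < φ < s` on `K`
(`cell_sub`, or `cr_between`), so `0 < t < s`.  Let `Y = A + t ei τ` and `X` the point of the wall with
`φ X = t` (`wall_level`); `X - Y = r ei (τ + π / 2)` with `r > 0` (`r ≥ 0` by `Wall.base`; if `r = 0` the
part `K ∩ {φ < t}` is empty: its points are left of the edge leaving `X` and left of the base ...;
or: a point of `K` on the line `φ = t` exists by convexity, it is `Y + r' ei (τ + π / 2)` with `r' > 0`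
and it is left of the edge leaving `X`, whose direction has negative cosine, so `r' < r`).
The left cell has base `A Y` and wall `Y :: X :: w₁`, it equals `K ∩ {φ < t}`: for an edge before `X`
with direction `τ₂` use `cr_between` with `τ + π / 2 ≤ τ₂ ≤ τ₃` (`τ₃` the direction of the edge
leaving `X`) and `Wall.conv`.  The right cell has base `Y B` and wall `w₂ ++ [X, Y]` and equals
`K ∩ {t < φ}`.  `Low.union` with the line as null set, `Low.monoD`.
`acute`: `θ₁ = π / 2 - a`, `θ₂ = π / 2 - b`.  If `θ₂ = 0` take `Λ` from `RIGHT` at `θ₁` (and `symm`), it is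
larger than `g θ₁ - 2 κ`; the same if `θ₁ = 0`; otherwise `CellLow.add`. -/

set_option autoImplicit false

namespace Pool.Agent.Work.MP_267827_an.PS

open MeasureTheory Set Filter Topology Real

variable {Λ Λ₁ Λ₂ a b a' b' τ s : ℝ} {A B : ℂ} {k : List ℂ}

theorem GAcute_cons {e : ℂ × ℂ} {es : List (ℂ × ℂ)} {z : ℂ} :
    z ∈ Lft (e :: es) ↔ 0 < cr (e.2 - e.1) (z - e.1) ∧ z ∈ Lft es := List.forall_mem_cons

theorem GAcute_app {es es' : List (ℂ × ℂ)} {z : ℂ} :
    z ∈ Lft (es ++ es') ↔ z ∈ Lft es ∧ z ∈ Lft es' := List.forall_mem_append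

theorem GAcute_ins {p q x : ℂ} (hx : x ∈ openSegment ℝ p q) (es : List (ℂ × ℂ)) :
    Lft ((p, x) :: (x, q) :: es) = Lft ((p, q) :: es) := by
  obtain ⟨u, h0, h1, rfl⟩ := mem_openSegment_iff'.1 hx
  ext z
  have e1 : cr (p + u * (q - p) - p) (z - p) = u * cr (q - p) (z - p) := by
    rw [add_sub_cancel_left, cr_mul_left]
  have e2 : cr (q - (p + u * (q - p))) (z - (p + u * (q - p))) = (1 - u) * cr (q - p) (z - p) := by
    simp [cr]
    ring
  simp only [GAcute_cons, e1, e2, mul_pos_iff_of_pos_left h0,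
    mul_pos_iff_of_pos_left (sub_pos.2 h1), and_self_left]

theorem GAcute_lev {p q : ℂ} {t : ℝ} (h1 : ((q - A) * ei (-τ)).re < t)
    (h2 : t < ((p - A) * ei (-τ)).re) : ∃ x ∈ openSegment ℝ p q, ((x - A) * ei (-τ)).re = t := by
  have h3 : 0 < ((p - A) * ei (-τ)).re - ((q - A) * ei (-τ)).re := by linarith
  refine ⟨_, mem_openSegment_iff'.2 ⟨(((p - A) * ei (-τ)).re - t) /
    (((p - A) * ei (-τ)).re - ((q - A) * ei (-τ)).re), div_pos (by linarith) h3,
    (div_lt_one h3).2 (by linarith), rfl⟩, ?_⟩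
  have h4 : ∀ u : ℝ, ((p + u * (q - p) - A) * ei (-τ)).re = ((p - A) * ei (-τ)).re -
      u * (((p - A) * ei (-τ)).re - ((q - A) * ei (-τ)).re) := fun u => by
    simp
    ring
  rw [h4, div_mul_cancel₀ _ h3.ne', sub_sub_cancel]

theorem GAcute_phi (w : ℂ) (τ : ℝ) : cr (ei (τ + π / 2)) w = -(w * ei (-τ)).re := by
  simp only [cr, Complex.mul_re, ei_re, ei_im, cos_add_pi_div_two, sin_add_pi_div_two, cos_neg,
    sin_neg]
  ring

theorem GAcute_dec (w : ℂ) (τ : ℝ) :
    w = (w * ei (-τ)).re * ei τ + cr (ei τ) w * ei (τ + π / 2) := by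
  apply Complex.ext <;>
    simp only [cr, Complex.mul_re, Complex.mul_im, Complex.add_re, Complex.add_im, ei_re, ei_im,
      cos_add_pi_div_two, sin_add_pi_div_two, cos_neg, sin_neg, Complex.ofReal_re,
      Complex.ofReal_im]
  · linear_combination (-w.re) * sin_sq_add_cos_sq τ
  · linear_combination (-w.im) * sin_sq_add_cos_sq τ

theorem GAcute_edge {lo hi : ℝ} {w : List ℂ} {p q : ℂ} (h : Wall lo hi w) (he : (p, q) ∈ Ed w) :
    ∃ σ r : ℝ, lo ≤ σ ∧ σ ≤ hi ∧ 0 < r ∧ q - p = r * ei σ := by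
  obtain ⟨l₁, l₂, rfl⟩ := mem_Ed.1 he
  obtain ⟨σ, r, h1, h2, h3, h4⟩ := h.split_edge
  exact ⟨σ, r, h3.le, h4.le, h1, h2⟩

theorem GAcute_left {lo hi p r : ℝ} {w : List ℂ} {X z : ℂ} (h : Wall lo hi w) (hX : X ∈ w)
    (h1 : p ≤ lo) (h2 : hi ≤ r) (h3 : r - p < π) (hp : 0 < cr (ei p) (z - X))
    (hr : 0 < cr (ei r) (z - X)) : z ∈ Lft (Ed w) := by
  rintro ⟨u, v⟩ he
  obtain ⟨σ, c, a1, a2, a3, a4⟩ := GAcute_edge h he
  have a5 := h.conv (by linarith) he hX
  have a6 := mul_pos a3 (cr_between (h1.trans a1) (a2.trans h2) h3 hp hr)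
  rw [← cr_mul_left, ← a4] at a6
  have a7 := cr_add_right (v - u) (z - X) (X - u)
  rw [sub_add_sub_cancel] at a7
  exact a7 ▸ add_pos_of_pos_of_nonneg a6 a5

theorem GAcute_out {lo hi : ℝ} {w : List ℂ} {X : ℂ} (h : Wall lo hi (X :: w ++ [A])) :
    ∃ σ, lo ≤ σ ∧ σ ≤ hi ∧ ∀ z ∈ Lft (Ed (X :: w ++ [A])), 0 < cr (ei σ) (z - X) := by
  obtain ⟨q, hq⟩ : ∃ q, (X, q) ∈ Ed (X :: w ++ [A]) := by
    cases w <;> exact ⟨_, List.mem_cons_self⟩
  obtain ⟨σ, c, a1, a2, a3, a4⟩ := GAcute_edge h hq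
  refine ⟨σ, a1, a2, fun z hz => (mul_pos_iff_of_pos_left a3).1 ?_⟩
  rw [← cr_mul_left, ← a4]
  exact hz _ hq

theorem GAcute_in {lo hi : ℝ} {w : List ℂ} {X : ℂ} (h : Wall lo hi (B :: w ++ [X])) :
    ∃ σ, lo ≤ σ ∧ σ ≤ hi ∧ ∀ z ∈ Lft (Ed (B :: w ++ [X])), 0 < cr (ei σ) (z - X) := by
  obtain ⟨q, hq⟩ : ∃ q, (q, X) ∈ Ed (B :: w ++ [X]) := by
    obtain h1 | ⟨l, q, h1⟩ := List.eq_nil_or_concat (B :: w)
    · exact absurd h1 (List.cons_ne_nil _ _)
    · exact ⟨q, mem_Ed.2 ⟨l, [], by simp [h1]⟩⟩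
  obtain ⟨σ, c, a1, a2, a3, a4⟩ := GAcute_edge h hq
  refine ⟨σ, a1, a2, fun z hz => (mul_pos_iff_of_pos_left a3).1 ?_⟩
  have a7 := cr_add_right (X - q) (z - X) (X - q)
  rw [sub_add_sub_cancel, cr_self, add_zero] at a7
  rw [← cr_mul_left, ← a4, ← a7]
  exact hz _ hq

theorem wall_level {lo hi t : ℝ} (hw : Wall lo hi (B :: k ++ [A])) (h1 : τ + π / 2 < lo)
    (h2 : hi < τ + 3 * π / 2) (ht : 0 < t) (ht' : t < ((B - A) * ei (-τ)).re) :
    ∃ (w₂ w₁ : List ℂ) (X : ℂ), ((X - A) * ei (-τ)).re = t ∧ Wall lo hi (B :: w₂ ++ X :: w₁ ++ [A]) ∧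
      Lft (Ed (B :: w₂ ++ X :: w₁ ++ [A])) = Lft (Ed (B :: k ++ [A])) := by
  clear h1 h2
  induction k generalizing B lo with
  | nil =>
    obtain ⟨X, h3, h4⟩ := GAcute_lev (A := A) (q := A) (by simpa using ht) ht'
    exact ⟨[], [], X, h4, Wall.insert (l := []) hw h3, GAcute_ins h3 []⟩
  | cons c k ih =>
    rcases lt_trichotomy ((c - A) * ei (-τ)).re t with h | h | h
    · obtain ⟨X, h3, h4⟩ := GAcute_lev h ht'
      exact ⟨[], c :: k, X, h4, Wall.insert (l := []) hw h3, GAcute_ins h3 _⟩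
    · exact ⟨[], k, c, h, hw, rfl⟩
    · cases hw with
      | cons a1 a2 a3 a4 =>
        obtain ⟨w₂, w₁, X, h3, h4, h5⟩ := ih a4 h
        refine ⟨c :: w₂, w₁, X, h3, Wall.cons a1 a2 a3 h4, Set.ext fun z => ?_⟩
        exact GAcute_cons.trans ((and_congr_right' (Set.ext_iff.1 h5 z)).trans
          (GAcute_cons (e := (B, c))).symm)

theorem vol_level {K : Set ℂ} (hK : MeasurableSet K) (hb : Bornology.IsBounded K) (A : ℂ) (τ : ℝ)
    {c : ℝ} (h0 : 0 < c) (h1 : c < volume.real K) :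
    ∃ t : ℝ, volume.real (K ∩ {z | ((z - A) * ei (-τ)).re < t}) = c ∧
      volume.real (K ∩ {z | t < ((z - A) * ei (-τ)).re}) = volume.real K - c := by
  have hm : Measurable fun z : ℂ => ((z - A) * ei (-τ)).re := by fun_prop
  have : IsFiniteMeasure (volume.restrict K) := isFiniteMeasure_restrict.2 hb.measure_lt_top.ne
  obtain ⟨μ, hμ⟩ : ∃ μ, μ = (volume.restrict K).map fun z : ℂ => ((z - A) * ei (-τ)).re := ⟨_, rfl⟩
  have : IsFiniteMeasure μ := by
    rw [hμ]
    infer_instance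
  have h2 : ∀ S, MeasurableSet S →
      μ.real S = volume.real (K ∩ {z | ((z - A) * ei (-τ)).re ∈ S}) := fun S hS => by
    rw [hμ, map_measureReal_apply hm hS, measureReal_restrict_apply' hK, inter_comm]
    rfl
  have : NullSingletonClass μ := ⟨fun t => by
    rw [hμ, Measure.map_apply hm (measurableSet_singleton t), Measure.restrict_apply' hK]
    refine measure_mono_null (fun z hz => ?_) (line_null (ei_ne_zero (τ + π / 2)) (A + t * ei τ))
    have h3 : ((z - A) * ei (-τ)).re = t := hz.1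
    rw [mem_ofPred_eq, GAcute_phi, ← sub_sub, sub_mul, mul_assoc, ei_mul_neg, Complex.sub_re, h3]
    simp⟩
  obtain ⟨M, hM0, hM⟩ := hb.subset_ball_lt 0 A
  have h3 : ∀ z ∈ K, |((z - A) * ei (-τ)).re| < M := fun z hz =>
    (Complex.abs_re_le_norm _).trans_lt (by
      rw [norm_mul, norm_ei', mul_one]
      exact mem_ball_iff_norm.1 (hM hz))
  have h4 : ContinuousOn (fun t => μ.real (Iio t)) (Iic M) := by
    simpa using (integrableOn_const (μ := μ) (s := Iio M)
      (C := (1 : ℝ))).continuousOn_Iic_primitive_Iio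
  have h5 : μ.real (Iio (-M)) = 0 := by
    rw [h2 _ measurableSet_Iio, eq_empty_of_forall_notMem (s := K ∩ _) ?_, measureReal_empty]
    exact fun z hz => (abs_lt.1 (h3 z hz.1)).1.not_gt hz.2
  have h6 : μ.real (Iio M) = volume.real K := by
    rw [h2 _ measurableSet_Iio, inter_eq_left.2]
    exact fun z hz => (abs_lt.1 (h3 z hz)).2
  obtain ⟨t, -, ht⟩ := intermediate_value_Icc (by linarith only [hM0] : -M ≤ M) (h4.mono Icc_subset_Iic_self)
    (show c ∈ _ from ⟨h5.trans_le h0.le, h1.le.trans_eq h6.symm⟩)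
  refine ⟨t, (h2 _ measurableSet_Iio).symm.trans ht, (h2 _ measurableSet_Ioi).symm.trans ?_⟩
  rw [← compl_Iic, measureReal_compl measurableSet_Iic, ← measureReal_congr Iio_ae_eq_Iic,
    h2 _ MeasurableSet.univ, ← ht]
  simp

theorem CellLow.add (ha : 0 < a) (ha' : a < π / 2) (hb : 0 < b) (hb' : b < π / 2)
    (h1 : CellLow Λ₁ a (π / 2)) (h2 : CellLow Λ₂ (π / 2) b) : CellLow (Λ₁ + Λ₂) a b := by
  intro A B k τ s lam hs hB hw hΛ
  rcases le_or_gt lam 0 with hl | hl
  · exact Low.of_nonpos hl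
  obtain ⟨K, hK⟩ : ∃ K, K = Lft ((A, B) :: Ed (B :: k ++ [A])) := ⟨_, rfl⟩
  rcases le_or_gt (lam * volume.real K) Λ₁ with c1 | c1
  · exact h1.mono le_rfl hb'.le A B k τ s lam hs hB hw (hK ▸ c1)
  rcases le_or_gt (lam * volume.real K) Λ₂ with c2 | c2
  · exact h2.mono ha'.le le_rfl A B k τ s lam hs hB hw (hK ▸ c2)
  rw [← hK] at hΛ ⊢
  have hab : a + b < π := by linarith only [ha', hb']
  have hKo : IsOpen K := hK ▸ isOpen_Lft _
  have c3 : Λ₁ / lam < volume.real K := (div_lt_iff₀' hl).2 c1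
  have c4 : 0 < Λ₁ / lam := div_pos (by linarith only [hΛ, c2]) hl
  obtain ⟨t, v1, v2⟩ := vol_level hKo.measurableSet
    (hK ▸ (cell_area hs hB hw ha hb hab).1) A τ c4 c3
  obtain ⟨z₁, m1, n1⟩ := nonempty_of_measureReal_ne_zero (v1.trans_ne c4.ne')
  obtain ⟨z₂, m2, n2⟩ := nonempty_of_measureReal_ne_zero (v2.trans_ne (sub_pos.2 c3).ne')
  have e0 : ∀ (u : ℝ) (z : ℂ), cr (ei τ) (z - (A + u * ei τ)) = cr (ei τ) (z - A) := fun u z => by
    rw [← sub_sub, cr_sub_right _ (z - A), cr_mul_right, cr_self, mul_zero, sub_zero]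
  have e1 : ∀ (u : ℝ) (z : ℂ), cr (ei (τ + π / 2)) (z - (A + u * ei τ)) =
      u - ((z - A) * ei (-τ)).re := fun u z => by
    rw [GAcute_phi, ← sub_sub, sub_mul, mul_assoc, ei_mul_neg, Complex.sub_re]
    simp
  have e2 : ei (τ + π + π / 2) = -ei (τ + π / 2) := by rw [add_right_comm, ei_add_pi]
  have hB' : B = A + s * ei τ := by rw [← hB, add_sub_cancel]
  have k0 : ∀ z, z ∈ K ↔ 0 < cr (ei τ) (z - A) ∧ z ∈ Lft (Ed (B :: k ++ [A])) := fun z => by
    rw [hK, GAcute_cons, hB, cr_mul_left, mul_pos_iff_of_pos_left hs]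
  have k1 : ∀ z ∈ K, 0 < ((z - A) * ei (-τ)).re ∧ ((z - A) * ei (-τ)).re < s := fun z hz => by
    obtain ⟨C, a1, a2, a3⟩ := cell_sub hs hB hw ha hb hab
    have a4 := sin_pos_of_pos_of_lt_pi (add_pos ha hb) hab
    obtain ⟨-, a5⟩ := GAcute_cons.1 (a3 (hK ▸ hz))
    obtain ⟨a5, a6⟩ := GAcute_cons.1 a5
    obtain ⟨a6, -⟩ := GAcute_cons.1 a6
    have a7 := cr_add_right (A - C) (z - A) (A - C)
    rw [sub_add_sub_cancel, cr_self, add_zero] at a7
    rw [a7, a2, cr_mul_left, mul_pos_iff_of_pos_left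
      (div_pos (mul_pos hs (sin_pos_of_pos_of_lt_pi hb (by linarith only [ha, ha', hb']))) a4)] at a6
    rw [a1, cr_mul_left, mul_pos_iff_of_pos_left
      (div_pos (mul_pos hs (sin_pos_of_pos_of_lt_pi ha (by linarith only [ha, ha']))) a4)] at a5
    have a8 := ((k0 z).1 hz).1
    have a9 := cr_between (q := τ + π + π / 2) (r := τ + 2 * π) (by linarith only [ha']) (by linarith only [ha, ha'])
      (by linarith only [ha]) a6 (by rwa [ei_add, ei_two_pi, mul_one])
    have a10 := cr_between (p := τ) (q := τ + π / 2) (by linarith only [ha, ha']) (by linarith only [hb']) (by linarith only [hb])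
      (by rwa [hB', e0]) a5
    rw [e2, cr_neg_left, GAcute_phi, neg_neg] at a9
    rw [hB', e1] at a10
    exact ⟨a9, sub_pos.1 a10⟩
  have t0 : 0 < t := (k1 _ m1).1.trans n1
  have t1 : t < s := lt_trans n2 (k1 _ m2).2
  obtain ⟨w₂, w₁, X, x1, x2, x3⟩ := wall_level (τ := τ) (t := t) hw (by linarith only [hb']) (by linarith only [ha']) t0
    (by rw [hB, mul_assoc, ei_mul_neg]; simpa using t1)
  rw [List.append_assoc] at x2 x3
  obtain ⟨σ, x4, x5⟩ := Wall.split x2
  obtain ⟨σ₂, i1, i2, i3⟩ := GAcute_in x4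
  obtain ⟨σ₃, o1, o2, o3⟩ := GAcute_out x5
  have k2 : ∀ z, z ∈ K ↔ 0 < cr (ei τ) (z - A) ∧ z ∈ Lft (Ed (B :: w₂ ++ [X])) ∧
      z ∈ Lft (Ed (X :: w₁ ++ [A])) := fun z => by
    rw [k0, ← x3, ← GAcute_app]
    exact and_congr_right' (Set.ext_iff.1
      (congrArg Lft (Ed_append (B :: w₂) X (w₁ ++ [A]))) z)
  obtain ⟨r, hr⟩ : ∃ r, r = cr (ei τ) (X - A) := ⟨_, rfl⟩
  have y1 : X - (A + t * ei τ) = r * ei (τ + π / 2) := by
    rw [← sub_sub, GAcute_dec (X - A) τ, x1, ← hr, add_sub_cancel_left]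
  have e3 : ∀ z, cr (ei (τ + π / 2)) (z - X) = t - ((z - A) * ei (-τ)).re := fun z => by
    rw [← e1, ← sub_add_sub_cancel z X (A + t * ei τ), y1, cr_add_right, cr_mul_right, cr_self,
      mul_zero, add_zero]
  have r0 : 0 < r := by
    obtain ⟨z, a1, a2⟩ := GAcute_lev n1 n2
    obtain ⟨a3, -, a4⟩ := (k2 z).1 ((hK ▸ convex_Lft _ : Convex ℝ K).openSegment_subset m2 m1 a1)
    have a5 := o3 z a4
    have a6 : z - X = (cr (ei τ) (z - A) - r : ℝ) * ei (τ + π / 2) := by
      have a7 := GAcute_dec (z - A) τ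
      rw [a2] at a7
      push_cast
      linear_combination a7 - y1
    rw [a6, cr_mul_right, cr_ei, ← neg_sub σ₃, sin_neg] at a5
    have a8 := sin_pos_of_pos_of_lt_pi (x := σ₃ - (τ + π / 2)) (by linarith only [hb', i1, i2, o1]) (by linarith only [ha', o2])
    clear * - a3 a5 a8
    (refine lt_of_not_ge fun h_nl => ?_; linarith only [h_nl, a5, a3, a8, mul_pos_of_neg_of_neg (Mathlib.Tactic.Linarith.sub_neg_of_lt a3) (Mathlib.Tactic.Linarith.sub_neg_of_lt a8), mul_nonneg_of_nonpos_of_nonpos (le_of_lt (Mathlib.Tactic.Linarith.sub_neg_of_lt a8)) (Mathlib.Tactic.Linarith.sub_nonpos_of_le h_nl)])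
  have y2 : A + t * ei τ - X = r * ei (τ + π + π / 2) := by rw [e2, mul_neg, ← y1, neg_sub]
  have y3 : B - (A + t * ei τ) = (s - t : ℝ) * ei τ := by
    push_cast
    linear_combination hB
  have y4 : A + t * ei τ ∈ segment ℝ A B := mem_segment_iff'.2 ⟨t / s, (div_pos t0 hs).le,
    (div_le_one hs).2 t1.le, by
      rw [hB, ← mul_assoc, ← Complex.ofReal_mul, div_mul_cancel₀ _ hs.ne']⟩
  have q1 : Lft ((A, A + t * ei τ) :: Ed ((A + t * ei τ) :: (X :: w₁) ++ [A])) =
      K ∩ {z | ((z - A) * ei (-τ)).re < t} := by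
    ext z
    refine GAcute_cons.trans ((and_congr_right' GAcute_cons).trans ?_)
    rw [add_sub_cancel_left, y1, cr_mul_left, cr_mul_left, mul_pos_iff_of_pos_left t0,
      mul_pos_iff_of_pos_left r0, e1, sub_pos, mem_inter_iff, k2]
    refine ⟨fun ⟨a1, a2, a3⟩ => ⟨⟨a1, ?_, a3⟩, a2⟩, fun ⟨⟨a1, _, a3⟩, a2⟩ => ⟨a1, a2, a3⟩⟩
    exact GAcute_left (X := X) (p := τ + π / 2) x4 (by simp) (by linarith only [hb']) o1 (by linarith only [ha', o2])
      (by rw [e3]; exact sub_pos.2 a2) (o3 z a3)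
  have q2 : Lft ((A + t * ei τ, B) :: Ed (B :: (w₂ ++ [X]) ++ [A + t * ei τ])) =
      K ∩ {z | t < ((z - A) * ei (-τ)).re} := by
    ext z
    rw [← List.cons_append, List.append_assoc, List.singleton_append, Ed_append, GAcute_cons,
      GAcute_app, Ed_cons, GAcute_cons, y2, y3, cr_mul_left, cr_mul_left,
      mul_pos_iff_of_pos_left (sub_pos.2 t1), mul_pos_iff_of_pos_left r0, e0, e2, cr_neg_left, e3,
      neg_sub, sub_pos, mem_inter_iff, k2]
    refine ⟨fun ⟨a1, a2, a3, _⟩ => ⟨⟨a1, a2, ?_⟩, a3⟩, fun ⟨⟨a1, a2, _⟩, a3⟩ =>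
      ⟨a1, a2, a3, fun _ h => absurd h List.not_mem_nil⟩⟩
    exact GAcute_left (X := X) (r := τ + π + π / 2) x5 (by simp) i2 (by linarith only [ha']) (by linarith only [hb', i1])
      (i3 z a2) (by rw [e2, cr_neg_left, e3, neg_sub]; exact sub_pos.2 a3)
  have l1 := h1 A _ (X :: w₁) τ t lam t0 (add_sub_cancel_left _ _)
    (Wall.cons (τ := τ + π / 2) (by linarith only []) r0 y1 (x5.mono (by linarith only [hb', i1, i2]) le_rfl))
    (by rw [q1, v1, mul_div_cancel₀ _ hl.ne'])
  have l2 := h2 _ B (w₂ ++ [X]) τ (s - t) lam (sub_pos.2 t1) y3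
    (by simpa using (x4.mono le_rfl (by linarith only [ha', o1, o2])).snoc r0 y2)
    (by rw [q2, v2, mul_sub, mul_div_cancel₀ _ hl.ne']; linarith only [hΛ])
  rw [q1] at l1
  rw [q2] at l2
  have hc : Continuous fun z : ℂ => ((z - A) * ei (-τ)).re := by fun_prop
  refine Low.union (l1.monoD ((convex_segment A B).segment_subset (left_mem_segment _ _ _) y4))
    (l2.monoD ((convex_segment A B).segment_subset y4 (right_mem_segment _ _ _)))
    (hKo.inter (isOpen_lt hc continuous_const)).measurableSet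
    (hKo.inter (isOpen_lt continuous_const hc)).measurableSet
    (disjoint_left.2 fun z a1 a2 => lt_asymm (show _ < t from a1.2) a2.2) inter_subset_left inter_subset_left
    (fun z hz => ?_) (line_null (ei_ne_zero (τ + π / 2)) X)
  rcases lt_trichotomy ((z - A) * ei (-τ)).re t with h | h | h
  · exact Or.inl (Or.inl ⟨hz, h⟩)
  · exact Or.inr ((e3 z).trans (sub_eq_zero.2 h.symm))
  · exact Or.inl (Or.inr ⟨hz, h⟩)

theorem acute {n : ℕ} {g κ : ℝ} (hκ : 0 < κ) (h : RIGHT n g κ) (ha : 0 < a) (ha' : a ≤ π / 2)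
    (hb : 0 < b) (hb' : b ≤ π / 2) (hab : a + b < π) :
    ∃ Λ : ℝ, g * (π - a - b) - 2 * κ ≤ Λ ∧
      (¬ (a = π / 2 - π / n ∧ b = π / 2 - π / n) → g * (π - a - b) - 2 * κ < Λ) ∧
      CellLow Λ a b := by
  have key : ∀ x, 0 < x → x < π / 2 → ∃ Λ, g * (π / 2 - x) - κ ≤ Λ ∧
      (x ≠ π / 2 - π / n → g * (π / 2 - x) - κ < Λ) ∧ CellLow Λ (π / 2) x := fun x h0 h1 => by
    obtain ⟨Λ, a1, a2, a3⟩ := h (π / 2 - x) (by linarith only [h1]) (by linarith only [h0])
    rw [sub_sub_cancel] at a3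
    exact ⟨Λ, a1, fun e => a2 fun e' => e (by linarith only [e']), a3⟩
  rcases hb'.eq_or_lt with rfl | hb'
  · obtain ⟨Λ, a1, -, a3⟩ := key a ha (by linarith only [hab])
    have e : π - a - π / 2 = π / 2 - a := by ring
    rw [e]
    exact ⟨Λ, by linarith only [hκ, a1], fun _ => by linarith only [hκ, a1], a3.symm⟩
  rcases ha'.eq_or_lt with rfl | ha'
  · obtain ⟨Λ, a1, -, a3⟩ := key b hb hb'
    have e : π - π / 2 - b = π / 2 - b := by ring
    rw [e]
    exact ⟨Λ, by linarith only [hκ, a1], fun _ => by linarith only [hκ, a1], a3⟩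
  obtain ⟨Λ₁, a1, a2, a3⟩ := key a ha ha'
  obtain ⟨Λ₂, b1, b2, b3⟩ := key b hb hb'
  have e : g * (π - a - b) = g * (π / 2 - a) + g * (π / 2 - b) := by ring
  rw [e]
  refine ⟨Λ₁ + Λ₂, by linarith only [a1, b1], fun hn => ?_, CellLow.add ha ha' hb hb' a3.symm b3⟩
  rcases not_and_or.1 hn with hn | hn
  · linarith only [b1, a2, hn, a2 hn]
  · linarith only [a1, b2, hn, b2 hn]

end Pool.Agent.Work.MP_267827_an.PS
end

-- merged part: Pool.Agent.Work.MP_267827_an.PS.GStrictA
section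
/-! A gain on some open subset of a connected domain gives a spectral gap (skeleton helper49).

Put `Q u = EE u - lam * NN u ≥ 0` on test functions.

`strict_cs`: test functions form a vector space; `0 ≤ Q (u + t φ) = Q u + 2 t B + t ^ 2 Q φ` for all
real `t` (`discrim_le_zero`), where `‖L‖ ^ 2 = (L 1) ^ 2 + (L I) ^ 2` for `L : ℂ →L[ℝ] ℝ`
(`norm_sq_fderiv`).
`strict_bump`: `φ z = max (ρ ^ 2 - s) 0 ^ k`, `s = ‖z - y‖ ^ 2`, `k ≥ 3` with `ρ ^ 2 < k r ^ 2`.
The coordinate derivatives are `φ₁ = -2 k max (ρ ^ 2 - s) 0 ^ (k - 1) (z - y).re`, `φ₂` the same with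
`im`; they are `C¹` because `x ↦ max x 0 ^ (j + 2)` has the continuous derivative
`(j + 2) max x 0 ^ (j + 1)`.  The Laplacian is `4 k max (ρ ^ 2 - s) 0 ^ (k - 2) (k s - ρ ^ 2)`;
it is continuous, nonnegative for `s ≥ r ^ 2` and positive on the compact annulus
`r ≤ ‖z - y‖ ≤ ρ'`.
`strict_step`: integrate by parts (`integral_mul_fderiv_eq_neg_fderiv_mul_of_integrable`):
`∫ u (Δ φ + lam φ) = -B (u, φ) ≤ sqrt (Q u * Q φ)`, and the left side is at least
`c ∫ u over the annulus - C ∫ u over ball y r`.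
`strict_good`: the set of `x ∈ P` with a good ball is open, nonempty (points of `U`: Cauchy-Schwarz
`∫_B u ≤ sqrt (vol B) * sqrt (∫_U u ^ 2)`) and closed in `P` (if `ball x (4 R) ⊆ P` and `y` is good
with `‖x - y‖ < R` use `strict_step` with `ρ' = 2 R`, `ρ = 3 R` and a small `r`);
use `IsPreconnected.subset_of_closure_inter_subset`.
`strict_l1`: choose a compact `K ⊆ P` with `vol (P \ K) < η ^ 2`
(`MeasurableSet.exists_isCompact_diff_lt`), cover it by finitely many good balls
(`IsCompact.induction_on` or `elim_nhds_subcover`), Cauchy-Schwarz on `P \ K`.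
`strict_l4`: `MeasureTheory.eLpNorm_le_eLpNorm_fderiv_one` for `u ^ 2` with exponent `2`, and
`∫ 2 |u| ‖fderiv u‖ ≤ 2 sqrt (NN u) sqrt (EE u)`.
`strict_pos`: for `u ≥ 0` scaled to `NN u = 1` and `EE u ≤ lam + 1`:
`u ^ 2 ≤ M u + u ^ 4 / M ^ 2` pointwise, so `1 ≤ M (C' sqrt (Q u) + η) + C (lam + 1) / M ^ 2`;
choose `M`, then `η`; so `Q u ≥ μ`.
`strict`: for general `u` use `w = sqrt (u ^ 2 + δ ^ 2) - δ`: a test function, `w ≥ 0`,
`‖fderiv w‖ ≤ ‖fderiv u‖`, `w ^ 2 ≥ u ^ 2 - 2 δ |u|`; let `δ → 0`. -/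

set_option autoImplicit false

namespace Pool.Agent.Work.MP_267827_an.PS

open MeasureTheory Set Filter Topology Real Metric

theorem norm_sq_fderiv (L : ℂ →L[ℝ] ℝ) : ‖L‖ ^ 2 = L 1 ^ 2 + L Complex.I ^ 2 := by
  have h : L = innerSL ℝ (⟨L 1, L Complex.I⟩ : ℂ) := by
    ext z
    have e : z = z.re • (1 : ℂ) + z.im • Complex.I := by
      apply Complex.ext <;> simp
    conv_lhs => rw [e, map_add, map_smul, map_smul]
    simp [Complex.inner]
  have h2 : ‖L‖ = ‖(⟨L 1, L Complex.I⟩ : ℂ)‖ := by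
    conv_lhs => rw [h]
    exact innerSL_apply_norm ℝ _
  rw [h2, Complex.sq_norm, Complex.normSq_mk]
  ring

theorem GStrictA_int {f g : ℂ → ℝ} (hf : Continuous f) (hg : Continuous g)
    (hc : HasCompactSupport f) : Integrable fun z => f z * g z :=
  (hf.mul hg).integrable_of_hasCompactSupport hc.mul_right

theorem GStrictA_cont {u : ℂ → ℝ} (hu : ContDiff ℝ 1 u) (v : ℂ) :
    Continuous fun z => fderiv ℝ u z v :=
  (hu.continuous_fderiv one_ne_zero).clm_apply continuous_const

theorem GStrictA_supp {u : ℂ → ℝ} (hu : HasCompactSupport u) (v : ℂ) :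
    HasCompactSupport fun z => fderiv ℝ u z v :=
  hu.fderiv_apply ℝ v

variable {P : Set ℂ} {lam : ℝ}

theorem GStrictA_EE {u : ℂ → ℝ} : EE u = ∫ z, (fderiv ℝ u z 1 * fderiv ℝ u z 1 +
    fderiv ℝ u z Complex.I * fderiv ℝ u z Complex.I) := by
  unfold EE
  congr 1
  funext z
  rw [norm_sq_fderiv]
  ring

theorem GStrictA_add3 {f g k : ℂ → ℝ} (hf : Integrable f) (hg : Integrable g) (hk : Integrable k)
    (a b : ℝ) : ∫ z, (f z + a * g z + b * k z) = (∫ z, f z) + a * (∫ z, g z) + b * ∫ z, k z := by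
  have h1 : Integrable fun z => f z + a * g z := hf.add (hg.const_mul a)
  rw [integral_add h1 (hk.const_mul b), integral_add hf (hg.const_mul a), integral_const_mul,
    integral_const_mul]

theorem strict_cs (h : ∀ u, Test P u → lam * NN u ≤ EE u) {u φ : ℂ → ℝ} (hu : Test P u)
    (hφ : Test P φ) :
    ((∫ z, (fderiv ℝ u z 1 * fderiv ℝ φ z 1 + fderiv ℝ u z Complex.I * fderiv ℝ φ z Complex.I)) -
      lam * ∫ z, u z * φ z) ^ 2 ≤ (EE u - lam * NN u) * (EE φ - lam * NN φ) := by
  obtain ⟨u1, u2, u3⟩ := hu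
  obtain ⟨p1, p2, p3⟩ := hφ
  have i1 : ∀ {f g : ℂ → ℝ}, ContDiff ℝ 1 f → ContDiff ℝ 1 g → HasCompactSupport f →
      Integrable fun z => fderiv ℝ f z 1 * fderiv ℝ g z 1 +
        fderiv ℝ f z Complex.I * fderiv ℝ g z Complex.I := fun hf hg hc =>
    (GStrictA_int (GStrictA_cont hf _) (GStrictA_cont hg _) (GStrictA_supp hc _)).add
      (GStrictA_int (GStrictA_cont hf _) (GStrictA_cont hg _) (GStrictA_supp hc _))
  have key : ∀ t : ℝ, 0 ≤ (EE φ - lam * NN φ) * (t * t) +
      (2 * ((∫ z, (fderiv ℝ u z 1 * fderiv ℝ φ z 1 +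
        fderiv ℝ u z Complex.I * fderiv ℝ φ z Complex.I)) - lam * ∫ z, u z * φ z)) * t +
      (EE u - lam * NN u) := by
    intro t
    have hw : Test P fun z => u z + t * φ z := by
      refine ⟨u1.add (contDiff_const.mul p1), u2.add p2.mul_left, ?_⟩
      refine (tsupport_add u fun z => t * φ z).trans (union_subset u3 ?_)
      exact (tsupport_mul_subset_right (f := fun _ => t) (g := φ)).trans p3
    have h1 := h _ hw
    have hd : ∀ z v, fderiv ℝ (fun z => u z + t * φ z) z v =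
        fderiv ℝ u z v + t * fderiv ℝ φ z v := by
      intro z v
      have a1 := (u1.differentiable one_ne_zero z).hasFDerivAt
      have a2 := (p1.differentiable one_ne_zero z).hasFDerivAt
      rw [(a1.fun_add (a2.const_mul t)).fderiv]
      simp
    have e1 : EE (fun z => u z + t * φ z) = EE u + 2 * t * (∫ z, (fderiv ℝ u z 1 * fderiv ℝ φ z 1 +
        fderiv ℝ u z Complex.I * fderiv ℝ φ z Complex.I)) + t * t * EE φ := by
      rw [GStrictA_EE, GStrictA_EE (u := u), GStrictA_EE (u := φ),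
        ← GStrictA_add3 (i1 u1 u1 u2) (i1 u1 p1 u2) (i1 p1 p1 p2)]
      congr 1
      funext z
      simp only [hd]
      ring
    have j1 := GStrictA_int u1.continuous u1.continuous u2
    have j2 := GStrictA_int u1.continuous p1.continuous u2
    have j3 := GStrictA_int p1.continuous p1.continuous p2
    have e2 : NN (fun z => u z + t * φ z) = NN u + 2 * t * (∫ z, u z * φ z) + t * t * NN φ := by
      simp only [NN, sq]
      rw [← GStrictA_add3 j1 j2 j3]
      congr 1
      funext z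
      ring
    rw [e1, e2] at h1
    linarith only [h1]
  have h2 := discrim_le_zero key
  unfold discrim at h2
  linarith only [h2]

theorem GStrictA_deriv (j : ℕ) (x : ℝ) :
    HasDerivAt (fun x : ℝ => max x 0 ^ (j + 2)) ((j + 2) * max x 0 ^ (j + 1)) x := by
  rcases lt_trichotomy x 0 with hx | rfl | hx
  · have e : (fun x : ℝ => max x 0 ^ (j + 2)) =ᶠ[𝓝 x] fun _ => 0 := by
      filter_upwards [Iio_mem_nhds hx] with w hw
      rw [max_eq_right (le_of_lt hw)]
      simp
    rw [max_eq_right hx.le]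
    simpa using (hasDerivAt_const x (0 : ℝ)).congr_of_eventuallyEq e
  · rw [hasDerivAt_iff_tendsto_slope_zero]
    have c : Continuous fun t : ℝ => max t 0 ^ (j + 1) := by fun_prop
    have h1 := (c.tendsto 0).mono_left (nhdsWithin_le_nhds (s := {0}ᶜ))
    simp only [max_self, ne_eq, Nat.add_eq_zero_iff, one_ne_zero, and_false, not_false_eq_true,
      zero_pow, mul_zero, zero_add, OfNat.ofNat_ne_zero, sub_zero, smul_eq_mul] at h1 ⊢
    refine h1.congr' ?_
    filter_upwards [self_mem_nhdsWithin] with t ht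
    have ht' : t ≠ 0 := ht
    rcases le_total t 0 with h | h
    · rw [max_eq_right h]
      simp
    · rw [max_eq_left h]
      field_simp
      ring
  · have e : (fun x : ℝ => max x 0 ^ (j + 2)) =ᶠ[𝓝 x] fun x => x ^ (j + 2) := by
      filter_upwards [Ioi_mem_nhds hx] with w hw
      rw [max_eq_left (le_of_lt hw)]
    rw [max_eq_left hx.le]
    simpa using (hasDerivAt_pow (j + 2) x).congr_of_eventuallyEq e

theorem GStrictA_smooth (j : ℕ) : ContDiff ℝ 1 fun x : ℝ => max x 0 ^ (j + 2) := by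
  rw [contDiff_one_iff_deriv]
  refine ⟨fun x => (GStrictA_deriv j x).differentiableAt, ?_⟩
  have e : deriv (fun x : ℝ => max x 0 ^ (j + 2)) =
      fun x : ℝ => ((j : ℝ) + 2) * max x 0 ^ (j + 1) :=
    funext fun x => (GStrictA_deriv j x).deriv
  rw [e]
  fun_prop

theorem strict_bump (y : ℂ) {r ρ' ρ : ℝ} (hr : 0 < r) (h1 : r ≤ ρ') (h2 : ρ' < ρ) :
    ∃ (φ φ₁ φ₂ : ℂ → ℝ) (c C : ℝ), 0 < c ∧ ContDiff ℝ 1 φ ∧ ContDiff ℝ 1 φ₁ ∧ ContDiff ℝ 1 φ₂ ∧
      tsupport φ ⊆ closedBall y ρ ∧ (∀ z, 0 ≤ φ z) ∧ (∀ z, fderiv ℝ φ z 1 = φ₁ z) ∧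
      (∀ z, fderiv ℝ φ z Complex.I = φ₂ z) ∧
      (∀ z, -C ≤ fderiv ℝ φ₁ z 1 + fderiv ℝ φ₂ z Complex.I) ∧
      (∀ z, r ≤ ‖z - y‖ → 0 ≤ fderiv ℝ φ₁ z 1 + fderiv ℝ φ₂ z Complex.I) ∧
      ∀ z, r ≤ ‖z - y‖ → ‖z - y‖ ≤ ρ' → c ≤ fderiv ℝ φ₁ z 1 + fderiv ℝ φ₂ z Complex.I := by
  obtain ⟨j, hj⟩ := exists_nat_gt (ρ ^ 2 / r ^ 2)
  have hj0 : (0 : ℝ) ≤ j := Nat.cast_nonneg j
  have hjr : ρ ^ 2 < (j + 3) * r ^ 2 := by
    have := (div_lt_iff₀ (by positivity)).1 hj
    linarith only [this, sq_nonneg r]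
  let a : ℂ → ℝ := fun z => z.re - y.re
  let b : ℂ → ℝ := fun z => z.im - y.im
  let t : ℂ → ℝ := fun z => ρ ^ 2 - (a z * a z + b z * b z)
  have ha : ∀ z, HasFDerivAt a Complex.reCLM z := fun z =>
    Complex.reCLM.hasFDerivAt.sub_const _
  have hb : ∀ z, HasFDerivAt b Complex.imCLM z := fun z =>
    Complex.imCLM.hasFDerivAt.sub_const _
  have ca : ContDiff ℝ 1 a := Complex.reCLM.contDiff.sub contDiff_const
  have cb : ContDiff ℝ 1 b := Complex.imCLM.contDiff.sub contDiff_const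
  have ct : ContDiff ℝ 1 t := contDiff_const.sub ((ca.mul ca).add (cb.mul cb))
  have ht := fun z => (((ha z).fun_mul (ha z)).fun_add ((hb z).fun_mul (hb z))).const_sub (ρ ^ 2)
  have hG := fun (m : ℕ) z => (GStrictA_deriv m (t z)).comp_hasFDerivAt z (ht z)
  have cG : ∀ m : ℕ, ContDiff ℝ 1 fun z => max (t z) 0 ^ (m + 2) := fun m =>
    (GStrictA_smooth m).comp ct
  have hn : ∀ z, ‖z - y‖ ^ 2 = a z * a z + b z * b z := by
    intro z
    rw [Complex.sq_norm, Complex.normSq_apply]
    simp [a, b]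
  have hlap : ∀ z, fderiv ℝ (fun z => -2 * (j + 3) * (max (t z) 0 ^ (j + 2) * a z)) z 1 +
      fderiv ℝ (fun z => -2 * (j + 3) * (max (t z) 0 ^ (j + 2) * b z)) z Complex.I =
      4 * (j + 3) * (max (t z) 0 ^ (j + 1) * ((j + 2) * ‖z - y‖ ^ 2 - max (t z) 0)) := by
    intro z
    have d1 : HasFDerivAt (fun z => -2 * (j + 3) * (max (t z) 0 ^ (j + 2) * a z)) _ z :=
      ((hG j z).fun_mul (ha z)).const_mul _
    have d2 : HasFDerivAt (fun z => -2 * (j + 3) * (max (t z) 0 ^ (j + 2) * b z)) _ z :=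
      ((hG j z).fun_mul (hb z)).const_mul _
    rw [d1.fderiv, d2.fderiv, hn]
    simp
    ring
  have hM0 : ∀ z, 0 ≤ max (t z) 0 := fun z => le_max_right _ _
  have htz : ∀ z, t z = ρ ^ 2 - ‖z - y‖ ^ 2 := fun z => by rw [hn]
  have hgap : 0 < ρ ^ 2 - ρ' ^ 2 := sub_pos.2 (pow_lt_pow_left₀ h2 (hr.le.trans h1) two_ne_zero)
  refine ⟨fun z => max (t z) 0 ^ (j + 1 + 2),
    fun z => -2 * (j + 3) * (max (t z) 0 ^ (j + 2) * a z),
    fun z => -2 * (j + 3) * (max (t z) 0 ^ (j + 2) * b z),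
    4 * (j + 3) * ((ρ ^ 2 - ρ' ^ 2) ^ (j + 1) * ((j + 3) * r ^ 2 - ρ ^ 2)),
    4 * (j + 3) * ((ρ ^ 2) ^ (j + 1) * ρ ^ 2), ?_, cG _,
    contDiff_const.mul ((cG j).mul ca), contDiff_const.mul ((cG j).mul cb), ?_,
    fun z => pow_nonneg (hM0 z) _, ?_, ?_, ?_, ?_, ?_⟩
  · have : 0 < (j + 3) * r ^ 2 - ρ ^ 2 := by linarith only [hjr]
    positivity
  · refine closure_minimal (fun z hz => ?_) isClosed_closedBall
    by_contra hc
    rw [mem_closedBall, dist_eq_norm, not_le] at hc
    apply hz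
    have : t z ≤ 0 := by
      rw [htz]
      exact sub_nonpos.2 (pow_le_pow_left₀ ((hr.le.trans h1).trans h2.le) hc.le 2)
    simp [max_eq_right this]
  · intro z
    have d : HasFDerivAt (fun z => max (t z) 0 ^ (j + 1 + 2)) _ z := hG (j + 1) z
    rw [d.fderiv]
    simp
    ring
  · intro z
    have d : HasFDerivAt (fun z => max (t z) 0 ^ (j + 1 + 2)) _ z := hG (j + 1) z
    rw [d.fderiv]
    simp
    ring
  · intro z
    rw [hlap, ← mul_neg]
    refine mul_le_mul_of_nonneg_left ?_ (by positivity)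
    have b1 : max (t z) 0 ≤ ρ ^ 2 := max_le (by rw [htz]; exact sub_le_self _ (sq_nonneg _)) (by positivity)
    have b2 : max (t z) 0 ^ (j + 1) * max (t z) 0 ≤ (ρ ^ 2) ^ (j + 1) * ρ ^ 2 :=
      mul_le_mul (pow_le_pow_left₀ (hM0 z) b1 _) b1 (hM0 z) (by positivity)
    have b3 : 0 ≤ max (t z) 0 ^ (j + 1) * ((j + 2) * ‖z - y‖ ^ 2) :=
      mul_nonneg (pow_nonneg (hM0 z) _) (by positivity)
    rw [mul_sub]
    linarith only [b2, b3]
  · intro z hz
    rw [hlap]
    refine mul_nonneg (by positivity) ?_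
    rcases le_total (t z) 0 with h | h
    · rw [max_eq_right h]
      simp
    · refine mul_nonneg (pow_nonneg (hM0 z) _) ?_
      rw [max_eq_left h, htz]
      have : r ^ 2 ≤ ‖z - y‖ ^ 2 := pow_le_pow_left₀ hr.le hz 2
      linarith only [this, hjr, mul_le_mul_of_nonneg_left this hj0]
  · intro z hz hz'
    rw [hlap]
    refine mul_le_mul_of_nonneg_left ?_ (by positivity)
    have b1 : r ^ 2 ≤ ‖z - y‖ ^ 2 := pow_le_pow_left₀ hr.le hz 2
    have b2 : ‖z - y‖ ^ 2 ≤ ρ' ^ 2 := pow_le_pow_left₀ (norm_nonneg _) hz' 2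
    have b3 : ρ ^ 2 - ρ' ^ 2 ≤ t z := by rw [htz]; linarith only [b2]
    rw [max_eq_left (hgap.le.trans b3)]
    refine mul_le_mul (pow_le_pow_left₀ hgap.le b3 _) ?_ (by linarith only [hjr])
      (pow_nonneg (hgap.le.trans b3) _)
    rw [htz]
    linarith only [b1, mul_le_mul_of_nonneg_left b1 hj0]

/-- the mass on `S` of nonnegative test functions is controlled by the quadratic form -/
def GoodSet (P : Set ℂ) (lam : ℝ) (S : Set ℂ) : Prop :=
  ∃ C : ℝ, ∀ u, Test P u → (∀ z, 0 ≤ u z) → ∫ z in S, u z ≤ C * √(EE u - lam * NN u)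

theorem strict_step (hl : 0 ≤ lam) (h : ∀ u, Test P u → lam * NN u ≤ EE u) {y : ℂ} {r ρ' ρ : ℝ}
    (hr : 0 < r) (h1 : r ≤ ρ') (h2 : ρ' < ρ) (hP : closedBall y ρ ⊆ P)
    (hg : GoodSet P lam (ball y r)) : GoodSet P lam (ball y ρ') := by
  obtain ⟨φ, φ₁, φ₂, c, C, hc, s0, s1, s2, hs, hφ0, e1, e2, b1, b2, b3⟩ := strict_bump y hr h1 h2
  obtain ⟨C0, hC0⟩ := hg
  have hφ : Test P φ :=
    ⟨s0, (isCompact_closedBall y ρ).of_isClosed_subset (isClosed_tsupport φ) hs, hs.trans hP⟩
  refine ⟨(√(EE φ - lam * NN φ) + |c + C| * C0) / c, fun u hu hu0 => ?_⟩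
  have cs := strict_cs h hu hφ
  obtain ⟨u1, u2, u3⟩ := hu
  have uc := u1.continuous
  have ip : ∀ {g : ℂ → ℝ}, ContDiff ℝ 1 g → ∀ v : ℂ,
      ∫ z, u z * fderiv ℝ g z v = -∫ z, fderiv ℝ u z v * g z := fun hg v =>
    integral_mul_fderiv_eq_neg_fderiv_mul_of_integrable
      (GStrictA_int (GStrictA_cont u1 v) hg.continuous (GStrictA_supp u2 v))
      (GStrictA_int uc (GStrictA_cont hg v) u2) (GStrictA_int uc hg.continuous u2)
      (fun x _ => u1.differentiable one_ne_zero x) fun x _ => hg.differentiable one_ne_zero x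
  have j1 := GStrictA_int uc (GStrictA_cont s1 1) u2
  have j2 := GStrictA_int uc (GStrictA_cont s2 Complex.I) u2
  have k1 := GStrictA_int (GStrictA_cont u1 1) s1.continuous (GStrictA_supp u2 1)
  have k2 := GStrictA_int (GStrictA_cont u1 Complex.I) s2.continuous (GStrictA_supp u2 Complex.I)
  simp only [e1, e2] at cs
  rw [integral_add k1 k2] at cs
  have q0 : 0 ≤ EE u - lam * NN u := sub_nonneg.2 (h u ⟨u1, u2, u3⟩)
  have a1 := Real.abs_le_sqrt cs
  rw [Real.sqrt_mul q0] at a1
  have a2 := (neg_le_abs _).trans a1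
  have a3 : 0 ≤ lam * ∫ z, u z * φ z :=
    mul_nonneg hl (integral_nonneg fun z => mul_nonneg (hu0 z) (hφ0 z))
  have iu : Integrable u := uc.integrable_of_hasCompactSupport u2
  have a4 : c * (∫ z in ball y ρ', u z) - (c + C) * ∫ z in ball y r, u z ≤
      (∫ z, u z * fderiv ℝ φ₁ z 1) + ∫ z, u z * fderiv ℝ φ₂ z Complex.I := by
    rw [← integral_add j1 j2, ← integral_indicator measurableSet_ball,
      ← integral_indicator measurableSet_ball, ← integral_const_mul, ← integral_const_mul,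
      ← integral_sub ((iu.indicator measurableSet_ball).const_mul _)
        ((iu.indicator measurableSet_ball).const_mul _)]
    refine integral_mono (((iu.indicator measurableSet_ball).const_mul _).sub
      ((iu.indicator measurableSet_ball).const_mul _)) (j1.add j2) fun z => ?_
    have z0 := hu0 z
    simp only [← mul_add]
    by_cases c1 : z ∈ ball y r
    · rw [indicator_of_mem c1, indicator_of_mem (ball_subset_ball h1 c1)]
      linarith only [b1, z0, mul_le_mul_of_nonneg_left (b1 z) z0]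
    · have c2 : r ≤ ‖z - y‖ := by rwa [mem_ball, dist_eq_norm, not_lt] at c1
      rw [indicator_of_notMem c1]
      by_cases c3 : z ∈ ball y ρ'
      · rw [indicator_of_mem c3]
        have c4 : ‖z - y‖ ≤ ρ' := by
          rw [mem_ball, dist_eq_norm] at c3
          exact c3.le
        linarith only [b3, c2, c4, z0, mul_le_mul_of_nonneg_left (b3 z c2 c4) z0]
      · rw [indicator_of_notMem c3]
        linarith only [z0, b2, c2, mul_nonneg z0 (b2 z c2)]
  rw [ip s1, ip s2] at a4
  have a5 : 0 ≤ ∫ z in ball y r, u z := integral_nonneg fun z => hu0 z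
  have a6 := hC0 u ⟨u1, u2, u3⟩ hu0
  have a7 : (c + C) * ∫ z in ball y r, u z ≤ |c + C| * (C0 * √(EE u - lam * NN u)) :=
    (mul_le_mul_of_nonneg_right (le_abs_self _) a5).trans
      (mul_le_mul_of_nonneg_left a6 (abs_nonneg _))
  rw [div_mul_eq_mul_div, le_div_iff₀ hc]
  linarith only [a2, a3, a4, a7]

end Pool.Agent.Work.MP_267827_an.PS
end

-- merged part: Pool.Agent.Work.MP_267827_an.PS.GStrictB
section
/-! A gain on some open subset of a connected domain gives a spectral gap (skeleton helper49).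

Put `Q u = EE u - lam * NN u ≥ 0` on test functions.

`strict_cs`: test functions form a vector space; `0 ≤ Q (u + t φ) = Q u + 2 t B + t ^ 2 Q φ` for all
real `t` (`discrim_le_zero`), where `‖L‖ ^ 2 = (L 1) ^ 2 + (L I) ^ 2` for `L : ℂ →L[ℝ] ℝ`
(`norm_sq_fderiv`).
`strict_bump`: `φ z = max (ρ ^ 2 - s) 0 ^ k`, `s = ‖z - y‖ ^ 2`, `k ≥ 3` with `ρ ^ 2 < k r ^ 2`.
The coordinate derivatives are `φ₁ = -2 k max (ρ ^ 2 - s) 0 ^ (k - 1) (z - y).re`, `φ₂` the same with
`im`; they are `C¹` because `x ↦ max x 0 ^ (j + 2)` has the continuous derivative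
`(j + 2) max x 0 ^ (j + 1)`.  The Laplacian is `4 k max (ρ ^ 2 - s) 0 ^ (k - 2) (k s - ρ ^ 2)`;
it is continuous, nonnegative for `s ≥ r ^ 2` and positive on the compact annulus
`r ≤ ‖z - y‖ ≤ ρ'`.
`strict_step`: integrate by parts (`integral_mul_fderiv_eq_neg_fderiv_mul_of_integrable`):
`∫ u (Δ φ + lam φ) = -B (u, φ) ≤ sqrt (Q u * Q φ)`, and the left side is at least
`c ∫ u over the annulus - C ∫ u over ball y r`.
`strict_good`: the set of `x ∈ P` with a good ball is open, nonempty (points of `U`: Cauchy-Schwarz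
`∫_B u ≤ sqrt (vol B) * sqrt (∫_U u ^ 2)`) and closed in `P` (if `ball x (4 R) ⊆ P` and `y` is good
with `‖x - y‖ < R` use `strict_step` with `ρ' = 2 R`, `ρ = 3 R` and a small `r`);
use `IsPreconnected.subset_of_closure_inter_subset`.
`strict_l1`: choose a compact `K ⊆ P` with `vol (P \ K) < η ^ 2`
(`MeasurableSet.exists_isCompact_diff_lt`), cover it by finitely many good balls
(`IsCompact.induction_on` or `elim_nhds_subcover`), Cauchy-Schwarz on `P \ K`.
`strict_l4`: `MeasureTheory.eLpNorm_le_eLpNorm_fderiv_one` for `u ^ 2` with exponent `2`, and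
`∫ 2 |u| ‖fderiv u‖ ≤ 2 sqrt (NN u) sqrt (EE u)`.
`strict_pos`: for `u ≥ 0` scaled to `NN u = 1` and `EE u ≤ lam + 1`:
`u ^ 2 ≤ M u + u ^ 4 / M ^ 2` pointwise, so `1 ≤ M (C' sqrt (Q u) + η) + C (lam + 1) / M ^ 2`;
choose `M`, then `η`; so `Q u ≥ μ`.
`strict`: for general `u` use `w = sqrt (u ^ 2 + δ ^ 2) - δ`: a test function, `w ≥ 0`,
`‖fderiv w‖ ≤ ‖fderiv u‖`, `w ^ 2 ≥ u ^ 2 - 2 δ |u|`; let `δ → 0`. -/

set_option autoImplicit false

namespace Pool.Agent.Work.MP_267827_an.PS

open MeasureTheory Set Filter Topology Real Metric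

variable {P : Set ℂ} {lam : ℝ}

theorem GStrictB_int {u : ℂ → ℝ} (hu : Test P u) : Integrable u :=
  hu.1.continuous.integrable_of_hasCompactSupport hu.2.1

theorem GStrictB_cs {u : ℂ → ℝ} (hu : Test P u) {S : Set ℂ} (hS : volume S ≠ ⊤) :
    ∫ z in S, u z ≤ √(volume.real S) * √(∫ z in S, u z ^ 2) := by
  have i1 : IntegrableOn u S := (GStrictB_int hu).integrableOn
  have i2 : IntegrableOn (fun z => u z ^ 2) S := (int_sq hu.1 hu.2.1).integrableOn
  have hq : ∀ t : ℝ, 0 ≤ volume.real S * (t * t) + (-2 * ∫ z in S, u z) * t +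
      ∫ z in S, u z ^ 2 := by
    intro t
    have h0 : 0 ≤ ∫ z in S, (t - u z) ^ 2 := integral_nonneg fun z => sq_nonneg _
    have ic : IntegrableOn (fun _ : ℂ => t * t) S := integrableOn_const hS
    have e : ∫ z in S, (t - u z) ^ 2 =
        ∫ z in S, (t * t + ((-2 * t) * u z + u z ^ 2)) := by
      congr 1; funext z; ring
    have i3 : IntegrableOn (fun z => (-2 * t) * u z + u z ^ 2) S := (i1.const_mul _).add i2
    rw [e, integral_add ic i3, integral_add (i1.const_mul _) i2,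
      integral_const_mul (-2 * t), setIntegral_const, smul_eq_mul] at h0
    linarith
  have hd := discrim_le_zero hq
  rw [discrim] at hd
  rw [← Real.sqrt_mul measureReal_nonneg]
  exact Real.le_sqrt_of_sq_le (by linarith only [hd])

theorem GStrictB_mono {S T : Set ℂ} (hST : S ⊆ T) (h : GoodSet P lam T) : GoodSet P lam S := by
  obtain ⟨C, hC⟩ := h
  refine ⟨C, fun u hu h0 => le_trans ?_ (hC u hu h0)⟩
  exact setIntegral_mono_set (GStrictB_int hu).integrableOn (Eventually.of_forall h0)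
    hST.eventuallyLE

theorem GStrictB_union {S T : Set ℂ} (h1 : GoodSet P lam S) (h2 : GoodSet P lam T) :
    GoodSet P lam (S ∪ T) := by
  obtain ⟨C, hC⟩ := h1
  obtain ⟨C', hC'⟩ := h2
  refine ⟨C + C', fun u hu h0 => ?_⟩
  have i1 : IntegrableOn u S := (GStrictB_int hu).integrableOn
  have i2 : IntegrableOn u T := (GStrictB_int hu).integrableOn
  have := integral_mono_measure (Measure.restrict_union_le (μ := volume) S T)
    (Eventually.of_forall h0) (Integrable.add_measure i1 i2)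
  rw [integral_add_measure i1 i2] at this
  have a := hC u hu h0
  have b := hC' u hu h0
  rw [add_mul]
  linarith only [this, a, b]

theorem strict_good (hl : 0 ≤ lam) (ho : IsOpen P) (hc : IsPreconnected P) {U : Set ℂ} {μ : ℝ}
    (hU : IsOpen U) (hne : U.Nonempty) (hs : U ⊆ P) (hμ : 0 < μ)
    (h : ∀ u, Test P u → lam * NN u + μ * ∫ z in U, u z ^ 2 ≤ EE u) :
    ∀ x ∈ P, ∃ r : ℝ, 0 < r ∧ GoodSet P lam (ball x r) := by
  have h' : ∀ u, Test P u → lam * NN u ≤ EE u := by
    intro u hu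
    have h0 : 0 ≤ ∫ z in U, u z ^ 2 := integral_nonneg fun z => sq_nonneg _
    have := h u hu
    linarith only [this, hμ, h0, mul_nonneg hμ.le h0]
  have hopen : IsOpen {x : ℂ | ∃ r : ℝ, 0 < r ∧ GoodSet P lam (ball x r)} := by
    rw [Metric.isOpen_iff]
    rintro x ⟨r, hr, hg⟩
    refine ⟨r, hr, fun y hy => ⟨r - dist y x, sub_pos.2 hy, GStrictB_mono ?_ hg⟩⟩
    exact ball_subset_ball' (by linarith)
  refine hc.subset_of_closure_inter_subset hopen ?_ ?_
  · obtain ⟨x, hx⟩ := hne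
    obtain ⟨r, hr, hb⟩ := Metric.isOpen_iff.1 hU x hx
    refine ⟨x, hs hx, r, hr, √(volume.real (ball x r)) * √(1 / μ), fun u hu h0 => ?_⟩
    refine (GStrictB_cs hu measure_ball_lt_top.ne).trans ?_
    rw [mul_assoc, ← Real.sqrt_mul (by positivity : (0 : ℝ) ≤ 1 / μ)]
    refine mul_le_mul_of_nonneg_left (Real.sqrt_le_sqrt ?_) (Real.sqrt_nonneg _)
    have h1 : ∫ z in ball x r, u z ^ 2 ≤ ∫ z in U, u z ^ 2 :=
      setIntegral_mono_set (int_sq hu.1 hu.2.1).integrableOn
        (Eventually.of_forall fun z => sq_nonneg _) hb.eventuallyLE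
    refine h1.trans ?_
    rw [one_div, inv_mul_eq_div, le_div_iff₀ hμ]
    have := h u hu
    linarith
  · rintro x ⟨hx, hxP⟩
    obtain ⟨ε, hε, hb⟩ := Metric.isOpen_iff.1 ho x hxP
    obtain ⟨y, ⟨r, hr, hg⟩, hy⟩ := Metric.mem_closure_iff.1 hx (ε / 5) (by positivity)
    have hst := strict_step hl h' (y := y) (r := min r (ε / 5)) (ρ' := 2 * (ε / 5))
      (ρ := 3 * (ε / 5)) (lt_min hr (by positivity)) ((min_le_right _ _).trans (by linarith only [hε]))
      (by linarith only [hε]) ((closedBall_subset_ball' (by rw [dist_comm]; linarith only [hε, hy])).trans hb)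
      (GStrictB_mono (ball_subset_ball (min_le_left _ _)) hg)
    exact ⟨ε / 5, by positivity, GStrictB_mono (ball_subset_ball' (by linarith only [hy])) hst⟩

theorem strict_l1 (ho : IsOpen P) (hb : Bornology.IsBounded P)
    (hg : ∀ x ∈ P, ∃ r : ℝ, 0 < r ∧ GoodSet P lam (ball x r)) {η : ℝ} (hη : 0 < η) :
    ∃ C : ℝ, ∀ u, Test P u → (∀ z, 0 ≤ u z) →
      ∫ z, u z ≤ C * √(EE u - lam * NN u) + η * √(NN u) := by
  obtain ⟨K, hKP, hK, hv⟩ := ho.measurableSet.exists_isCompact_sdiff_lt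
    (hb.measure_lt_top (μ := volume)).ne (ε := ENNReal.ofReal (η ^ 2))
    (ENNReal.ofReal_pos.2 (by positivity)).ne'
  have hgood : GoodSet P lam K := by
    refine hK.induction_on (p := GoodSet P lam) ⟨0, fun u _ _ => by simp⟩
      (fun s t hst ht => GStrictB_mono hst ht) (fun s t h1 h2 => GStrictB_union h1 h2) ?_
    intro x hx
    obtain ⟨r, hr, h⟩ := hg x (hKP hx)
    exact ⟨ball x r, mem_nhdsWithin_of_mem_nhds (ball_mem_nhds x hr), h⟩
  obtain ⟨C, hC⟩ := hgood
  refine ⟨C, fun u hu h0 => ?_⟩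
  have i1 := GStrictB_int hu
  have e1 : ∫ z, u z = ∫ z in P, u z := by
    refine (setIntegral_eq_integral_of_forall_compl_eq_zero fun z hz => ?_).symm
    exact image_eq_zero_of_notMem_tsupport fun h => hz (hu.2.2 h)
  have e2 : ∫ z in P \ K, u z = (∫ z in P, u z) - ∫ z in K, u z :=
    setIntegral_sdiff hK.measurableSet i1.integrableOn hKP
  have h3 := GStrictB_cs hu (S := P \ K) (ne_top_of_lt hv)
  have h4 : √(volume.real (P \ K)) ≤ η := by
    refine Real.sqrt_le_iff.2 ⟨hη.le, ?_⟩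
    exact ENNReal.toReal_le_of_le_ofReal (by positivity) hv.le
  have h5 : √(∫ z in P \ K, u z ^ 2) ≤ √(NN u) :=
    Real.sqrt_le_sqrt (setIntegral_le_integral (int_sq hu.1 hu.2.1)
      (Eventually.of_forall fun z => sq_nonneg _))
  have h6 := mul_le_mul h4 h5 (Real.sqrt_nonneg _) hη.le
  have h7 := hC u hu h0
  linarith only [e1, e2, h3, h6, h7]

end Pool.Agent.Work.MP_267827_an.PS
end
end

-- merged part: Pool.Agent.Work.MP_267827_an.PS.GIns
section
-- merged part: Pool.Agent.Work.MP_267827_an.PS.GWn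
section
/-! The winding number of a closed polygon (skeleton helper49).

Plan.
`slit_of_not_seg`: if `(b - z) / (a - z)` is a real number `r ≤ 0` then `b - z = r (a - z)`, so
`z = (b - r a) / (1 - r)` lies on the segment.
`wn_int`: `exp (i ∑ arg w_e) = ∏ w_e / ‖w_e‖` with `w_e = (e.2 - z) / (e.1 - z)`; the product of the
`w_e` is one because the targets are a permutation of the sources (`Loop.snd_perm`); or work in
`Real.Angle` with `Complex.arg_div_coe_angle` and `Real.Angle.coe_eq_zero_iff`-type lemmas.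
`wn_const`: an integer valued continuous function on a preconnected set
(`IsPreconnected.constant` after composing with a floor, or the intermediate value theorem).
`wn_zero`: pick a vertex `a ∈ C`, `d = z - a`; the ray `z + t d` misses `C` (otherwise `z` lies on
the segment from `a` to a point of `C`); `wn` is constant on the ray and tends to `0`
(every quotient tends to `1`).
`wn_pos`: every `arg` is positive since the imaginary part of the quotient is positive
(`div_im_cr`, `cr (e.1 - z) (e.2 - z) = cr (e.2 - e.1) (z - e.1)`).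
`wn_jump`: `es ~ e :: es'` with `e ∉ es'`; `x ∉ GC es'` (`Simp.open_seg`), so `wn es'` is continuous
at `x`; the term of `e` tends to `1 / 2` from the left and to `-1 / 2` from the right
(`Complex.tendsto_arg_nhdsWithin_im_nonneg_of_re_neg_of_im_zero` and the `im_neg` version, or write
`arg w = arg (-w) ± π`); the values of `wn es` are integers, so near `x` they are
`wn es' x + 1 / 2` on the left and `wn es' x - 1 / 2` on the right.  Points on the left and on the
right exist arbitrarily close to `x` (`freq_left`).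
`wn_split`: `arg ((q - z) / (p - z)) = arg ((x - z) / (p - z)) + arg ((q - z) / (x - z))` off the
segment: both terms on the right have the sign of `cr (q - p) (z - p)` (or vanish); one way: the
triangle loop `[(p, x), (x, q), (q, p)]` has winding number zero off the convex set
`segment p q` (`wn_zero`) and `wn_swap`. -/

set_option autoImplicit false

namespace Pool.Agent.Work.MP_267827_an.PS

open MeasureTheory Set Filter Topology Real

theorem slit_of_not_seg {a b z : ℂ} (h : z ∉ segment ℝ a b) :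
    (b - z) / (a - z) ∈ Complex.slitPlane := by
  have ha : a - z ≠ 0 := fun k => h (sub_eq_zero.1 k ▸ left_mem_segment ℝ a b)
  by_contra k
  rw [Complex.mem_slitPlane_iff, not_or, not_lt, not_not] at k
  obtain ⟨r, hr, e⟩ : ∃ r : ℝ, r ≤ 0 ∧ b - z = r * (a - z) :=
    ⟨_, k.1, by rw [← div_eq_iff ha]; exact Complex.ext rfl k.2⟩
  have h1 : (0 : ℝ) < 1 - r := by linarith only [hr]
  refine h (mem_segment_iff'.2 ⟨(1 - r)⁻¹, (inv_pos.2 h1).le, inv_le_one_of_one_le₀ (by linarith only [hr]),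
    ?_⟩)
  have h2 : (1 - r : ℂ) ≠ 0 := by exact_mod_cast h1.ne'
  push_cast
  field_simp
  linear_combination -e

theorem wn_cons (e : ℂ × ℂ) (es : List (ℂ × ℂ)) (z : ℂ) :
    wn (e :: es) z = Complex.arg ((e.2 - z) / (e.1 - z)) / (2 * π) + wn es z := by
  rw [wn, List.map_cons, List.sum_cons, add_div, wn]

theorem GWn_cons {e : ℂ × ℂ} {es : List (ℂ × ℂ)} {z : ℂ} (hz : z ∉ GC (e :: es)) :
    z ∉ segment ℝ e.1 e.2 ∧ z ∉ GC es := by
  rwa [GC_cons, mem_union, not_or] at hz

theorem GWn_ne {a b z : ℂ} (h : z ∉ segment ℝ a b) : a - z ≠ 0 ∧ b - z ≠ 0 :=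
  ⟨fun k => h (sub_eq_zero.1 k ▸ left_mem_segment ℝ a b),
    fun k => h (sub_eq_zero.1 k ▸ right_mem_segment ℝ a b)⟩

theorem GWn_angle {es : List (ℂ × ℂ)} {z : ℂ} (hz : z ∉ GC es) :
    (((es.map fun e => Complex.arg ((e.2 - z) / (e.1 - z))).sum : ℝ) : Real.Angle) =
      ((es.map Prod.snd).map fun a => (Complex.arg (a - z) : Real.Angle)).sum -
        ((es.map Prod.fst).map fun a => (Complex.arg (a - z) : Real.Angle)).sum := by
  induction es with
  | nil => simp
  | cons e es ih =>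
    obtain ⟨h1, h2⟩ := GWn_cons hz
    simp only [List.map_cons, List.sum_cons, Real.Angle.coe_add, ih h2,
      Complex.arg_div_coe_angle (GWn_ne h1).2 (GWn_ne h1).1]
    abel

theorem GWn_im (a b z : ℂ) :
    ((b - z) / (a - z)).im = cr (b - a) (z - a) / Complex.normSq (a - z) := by
  rw [div_im_cr]
  congr 1
  simp only [cr, Complex.sub_re, Complex.sub_im]
  ring

theorem GWn_seg {a b z : ℂ} (h : cr (b - a) (z - a) ≠ 0) : z ∉ segment ℝ a b := fun k => by
  obtain ⟨t, -, -, rfl⟩ := mem_segment_iff'.1 k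
  exact h (by rw [add_sub_cancel_left, cr_mul_right, cr_self, mul_zero])

theorem wn_int {es : List (ℂ × ℂ)} (h : Loop es) {z : ℂ} (hz : z ∉ GC es) :
    ∃ k : ℤ, wn es z = k := by
  have h1 := GWn_angle hz
  rw [(h.snd_perm.map _).sum_eq, sub_self, Real.Angle.coe_eq_zero_iff] at h1
  obtain ⟨k, hk⟩ := h1
  exact ⟨k, by rw [wn, ← hk, zsmul_eq_mul, mul_div_cancel_right₀ _ two_pi_pos.ne']⟩

theorem wn_contAt {es : List (ℂ × ℂ)} {z : ℂ} (hz : z ∉ GC es) : ContinuousAt (wn es) z := by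
  induction es with
  | nil => exact continuousAt_const
  | cons e es ih =>
    obtain ⟨h1, h2⟩ := GWn_cons hz
    rw [funext (wn_cons e es)]
    refine ContinuousAt.add (ContinuousAt.div_const ?_ _) (ih h2)
    exact ContinuousAt.comp (f := fun z => (e.2 - z) / (e.1 - z))
      (Complex.continuousAt_arg (slit_of_not_seg h1))
      (ContinuousAt.div (by fun_prop) (by fun_prop) (GWn_ne h1).1)

theorem wn_const {es : List (ℂ × ℂ)} (h : Loop es) {S : Set ℂ} (hS : IsPreconnected S)
    (hd : Disjoint S (GC es)) {x y : ℂ} (hx : x ∈ S) (hy : y ∈ S) : wn es x = wn es y := by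
  have h0 : ∀ z ∈ S, z ∉ GC es := fun z hz => disjoint_left.1 hd hz
  have key : ∀ x ∈ S, ∀ y ∈ S, wn es y ≤ wn es x := fun x hx y hy => by
    obtain ⟨k, hk⟩ := wn_int h (h0 x hx)
    obtain ⟨l, hl⟩ := wn_int h (h0 y hy)
    by_contra h1
    rw [hk, hl, Int.cast_le, not_le, Int.lt_iff_add_one_le, ← Int.cast_le (R := ℝ)] at h1
    push_cast at h1
    obtain ⟨z, hz, e⟩ := hS.intermediate_value hx hy
      (fun z hz => (wn_contAt (h0 z hz)).continuousWithinAt)
      (show (k : ℝ) + 1 / 2 ∈ Icc (wn es x) (wn es y) from ⟨by linarith only [hk], by linarith only [hl, h1]⟩)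
    obtain ⟨m, hm⟩ := wn_int h (h0 z hz)
    have h2 : ((2 * m : ℤ) : ℝ) = (2 * k + 1 : ℤ) := by
      push_cast
      linarith only [e, hm]
    rw [Int.cast_inj] at h2
    omega
  exact le_antisymm (key y hy x hx) (key x hx y hy)

theorem wn_ev {es : List (ℂ × ℂ)} (h : Loop es) {x : ℂ} (hx : x ∉ GC es) :
    ∀ᶠ z in 𝓝 x, z ∉ GC es ∧ wn es z = wn es x := by
  obtain ⟨ε, h1, h2⟩ := Metric.isOpen_iff.1 (isCompact_GC es).isClosed.isOpen_compl x hx
  filter_upwards [Metric.ball_mem_nhds x h1] with z hz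
  exact ⟨h2 hz, wn_const h (convex_ball x ε).isPreconnected (disjoint_left.2 h2) hz
    (Metric.mem_ball_self h1)⟩

theorem GWn_ray (es : List (ℂ × ℂ)) (z : ℂ) {d : ℂ} (hd : d ≠ 0) :
    Tendsto (fun s : ℝ => wn es (z + (s⁻¹ : ℝ) * d)) (𝓝[>] 0) (𝓝 0) := by
  induction es with
  | nil => simp [wn]
  | cons e es ih =>
    have h1 : ContinuousAt (fun s : ℝ => Complex.arg ((s * (e.2 - z) - d) / (s * (e.1 - z) - d)))
        0 := ContinuousAt.comp (f := fun s : ℝ => (s * (e.2 - z) - d) / (s * (e.1 - z) - d))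
      (Complex.continuousAt_arg (by simp [hd]))
      (ContinuousAt.div (by fun_prop) (by fun_prop) (by simpa using hd))
    have h2 := ((h1.tendsto.mono_left (nhdsWithin_le_nhds (s := Ioi 0))).div_const (2 * π)).add ih
    simp only [Complex.ofReal_zero, zero_mul, zero_sub, neg_div_neg_eq, div_self hd,
      Complex.arg_one, zero_div, add_zero] at h2
    refine h2.congr' (eventually_nhdsWithin_of_forall fun s hs => ?_)
    have h3 : (s : ℂ) ≠ 0 := by exact_mod_cast ne_of_gt hs
    have h4 : ∀ a : ℂ, s * (a - z) - d = s * (a - (z + (s⁻¹ : ℝ) * d)) := fun a => by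
      push_cast
      field_simp
      ring
    simp only [wn_cons, h4, mul_div_mul_left _ _ h3]

theorem wn_zero {es : List (ℂ × ℂ)} (h : Loop es) {C : Set ℂ} (hC : Convex ℝ C)
    (hs : GC es ⊆ C) {z : ℂ} (hz : z ∉ C) : wn es z = 0 := by
  obtain ⟨e, he⟩ := List.exists_mem_of_ne_nil _ h.ne_nil
  have ha := hs (fst_mem_GC he)
  have hd : z - e.1 ≠ 0 := fun k => hz (sub_eq_zero.1 k ▸ ha)
  refine tendsto_nhds_unique tendsto_const_nhds ((GWn_ray es z hd).congr'
    (eventually_nhdsWithin_of_forall fun s hs' => ?_))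
  refine wn_const h (S := (fun t : ℝ => z + t * (z - e.1)) '' Ici 0)
    (isPreconnected_Ici.image _ (by fun_prop)) (disjoint_left.2 ?_)
    ⟨_, mem_Ici.2 (inv_pos.2 hs').le, rfl⟩ ⟨0, self_mem_Ici, by simp⟩
  rintro _ ⟨t, ht, rfl⟩ k
  have h1 : (0 : ℝ) < 1 + t := add_pos_of_pos_of_nonneg one_pos ht
  refine hz (hC.segment_subset ha (hs k) (mem_segment_iff'.2 ⟨(1 + t)⁻¹, (inv_pos.2 h1).le,
    inv_le_one_of_one_le₀ (le_add_of_nonneg_right ht), ?_⟩))
  have h2 : (1 + t : ℂ) ≠ 0 := by exact_mod_cast h1.ne'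
  push_cast
  field_simp
  ring

theorem wn_pos {es : List (ℂ × ℂ)} (h : es ≠ []) {z : ℂ} (hz : z ∈ Lft es) : 0 < wn es z := by
  refine div_pos (List.sum_pos _ (fun x hx => ?_) (by simpa using h)) two_pi_pos
  obtain ⟨e, he, rfl⟩ := List.mem_map.1 hx
  have h1 : 0 < ((e.2 - z) / (e.1 - z)).im := by
    rw [GWn_im]
    exact div_pos (hz e he) (Complex.normSq_pos.2 (GWn_ne (GWn_seg (hz e he).ne')).1)
  exact (Complex.arg_nonneg_iff.2 h1.le).lt_of_ne' fun k =>
    h1.ne' (Complex.arg_eq_zero_iff.1 k).2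

theorem wn_swap {es : List (ℂ × ℂ)} {z : ℂ} (hz : z ∉ GC es) :
    wn (es.map Prod.swap) z = -wn es z := by
  induction es with
  | nil => simp [wn]
  | cons e es ih =>
    obtain ⟨h1, h2⟩ := GWn_cons hz
    rw [List.map_cons, wn_cons, wn_cons, ih h2, Prod.fst_swap, Prod.snd_swap, ← inv_div (e.2 - z),
      Complex.arg_inv, if_neg (Complex.slitPlane_arg_ne_pi (slit_of_not_seg h1))]
    ring

theorem wn_mir (es : List (ℂ × ℂ)) (z : ℂ) :
    wn (es.map mirE) ((starRingEnd ℂ) z) = wn es z := by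
  induction es with
  | nil => rfl
  | cons e es ih =>
    rw [List.map_cons, wn_cons, wn_cons, ih]
    congr 2
    simp only [mirE]
    rw [← map_sub, ← map_sub, ← map_div₀, ← inv_div, Complex.arg_conj, Complex.arg_inv]
    have := Complex.neg_pi_lt_arg ((e.2 - z) / (e.1 - z))
    split_ifs with h1 h2 h3
    · exact h1.symm
    · exact absurd rfl h2
    · linarith only [this, h3]
    · exact neg_neg _

theorem wn_split {p q x z : ℂ} (hx : x ∈ segment ℝ p q) (hz : z ∉ segment ℝ p q) :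
    wn [(p, x), (x, q)] z = wn [(p, q)] z := by
  have h1 : wn ([(p, x), (x, q)] ++ [(p, q)].map Prod.swap) z = 0 := by
    refine wn_zero (es := [(p, x), (x, q), (q, p)]) ⟨p, [x, q], List.Perm.refl _⟩
      (convex_segment p q) ?_ hz
    rintro y ⟨e, he, hy⟩
    simp only [List.mem_cons, List.not_mem_nil, or_false] at he
    rcases he with rfl | rfl | rfl
    · exact (convex_segment p q).segment_subset (left_mem_segment ℝ p q) hx hy
    · exact (convex_segment p q).segment_subset hx (right_mem_segment ℝ p q) hy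
    · rwa [segment_symm]
  rw [wn_append, wn_swap (by rwa [GC_cons, GC_nil, union_empty])] at h1
  linarith only [h1]

theorem freq_left {d : ℂ} (hd : d ≠ 0) {p x : ℂ} (hx : cr d (x - p) = 0) :
    (∃ᶠ z in 𝓝 x, 0 < cr d (z - p)) ∧ ∃ᶠ z in 𝓝 x, cr d (z - p) < 0 := by
  have h1 : ∀ t : ℝ, cr d (x + t * (Complex.I * d) - p) = t * Complex.normSq d := fun t => by
    rw [add_sub_right_comm, cr_add_right, hx, cr_mul_right]
    simp [cr, Complex.normSq_apply]
  have h2 : Tendsto (fun t : ℝ => x + t * (Complex.I * d)) (𝓝 0) (𝓝 x) :=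
    Continuous.tendsto' (by fun_prop) _ _ (by simp)
  have h3 := Complex.normSq_pos.2 hd
  constructor
  · exact (h2.mono_left (nhdsWithin_le_nhds (s := Ioi 0))).frequently
      (Eventually.frequently (eventually_nhdsWithin_of_forall fun t ht => h1 t ▸ mul_pos ht h3))
  · exact (h2.mono_left (nhdsWithin_le_nhds (s := Iio 0))).frequently
      (Eventually.frequently (eventually_nhdsWithin_of_forall fun t ht =>
        h1 t ▸ mul_neg_of_neg_of_pos ht h3))

theorem wn_jump {es : List (ℂ × ℂ)} (hl : Loop es) (hs : Simp es) {p q x : ℂ} (he : (p, q) ∈ es)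
    (hx : x ∈ openSegment ℝ p q) :
    ∃ k : ℤ, ∀ᶠ z in 𝓝 x, (0 < cr (q - p) (z - p) → z ∉ GC es ∧ wn es z = k) ∧
      (cr (q - p) (z - p) < 0 → z ∉ GC es ∧ wn es z = k - 1) := by
  classical
  have hp := List.perm_cons_erase he
  have h0 : x ∉ GC (es.erase (p, q)) := by
    rintro ⟨f, hf, k⟩
    rw [hs.nodup'.mem_erase_iff] at hf
    exact hs.open_seg hl he hf.2 hf.1.symm hx k
  have hd : q - p ≠ 0 := sub_ne_zero.2 (hs.ne he).symm
  generalize es.erase (p, q) = es' at hp h0
  obtain ⟨t, t0, t1, ht⟩ := mem_openSegment_iff'.1 hx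
  have t2 : (t : ℂ) ≠ 0 := by exact_mod_cast t0.ne'
  have h1 : -((q - x) / (p - x)) = ((1 - t) / t : ℝ) := by
    rw [ht, sub_add_cancel_left]
    push_cast
    field_simp
    ring
  have h2 : ContinuousAt (fun z => Complex.arg (-((q - z) / (p - z))) / (2 * π) + wn es' z) x := by
    refine ContinuousAt.add (ContinuousAt.div_const ?_ _) (wn_contAt h0)
    refine ContinuousAt.comp (f := fun z => -((q - z) / (p - z))) (Complex.continuousAt_arg ?_)
      (ContinuousAt.div (by fun_prop) (by fun_prop) ?_).neg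
    · rw [h1]
      exact Complex.ofReal_mem_slitPlane.2 (div_pos (by linarith only [t1]) t0)
    · rw [ht, sub_add_cancel_left]
      exact neg_ne_zero.2 (mul_ne_zero t2 hd)
  obtain ⟨c, h3⟩ : ∃ c : ℝ, ∀ᶠ z in 𝓝 x, (0 < cr (q - p) (z - p) → z ∉ GC es ∧
      |wn es z - 1 / 2 - c| < 1 / 4) ∧ (cr (q - p) (z - p) < 0 → z ∉ GC es ∧
      |wn es z + 1 / 2 - c| < 1 / 4) := by
    refine ⟨Complex.arg (-((q - x) / (p - x))) / (2 * π) + wn es' x,
      ((Metric.tendsto_nhds.1 h2 (1 / 4) (by norm_num)).and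
      ((isCompact_GC es').isClosed.isOpen_compl.mem_nhds h0)).mono fun z ⟨k1, k2⟩ => ?_⟩
    have k3 : cr (q - p) (z - p) ≠ 0 → z ∉ GC es := fun k => by
      rw [GC_perm hp, GC_cons, mem_union, not_or]
      exact ⟨GWn_seg k, k2⟩
    have k4 : π / (2 * π) = 1 / 2 := by field_simp
    rw [Real.dist_eq] at k1
    rw [wn_perm hp, wn_cons]
    refine ⟨fun k => ⟨k3 k.ne', ?_⟩, fun k => ⟨k3 k.ne, ?_⟩⟩
    · rw [Complex.arg_neg_eq_arg_sub_pi_of_im_pos (by
        rw [GWn_im]
        exact div_pos k (Complex.normSq_pos.2 (GWn_ne (GWn_seg k.ne')).1)), sub_div, k4] at k1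
      rwa [add_sub_right_comm]
    · rw [Complex.arg_neg_eq_arg_add_pi_of_im_neg (by
        rw [GWn_im]
        exact div_neg_of_neg_of_pos k (Complex.normSq_pos.2 (GWn_ne (GWn_seg k.ne)).1)),
        add_div, k4] at k1
      rwa [add_right_comm]
  obtain ⟨z₀, z1, z2, -⟩ := ((freq_left hd (p := p) (x := x) (by
    rw [ht, add_sub_cancel_left, cr_mul_right, cr_self, mul_zero])).1.and_eventually h3).exists
  obtain ⟨k, hk⟩ := wn_int hl (z2 z1).1
  have z3 := (z2 z1).2
  rw [hk, abs_lt] at z3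
  have key : ∀ m : ℤ, |(m : ℝ) - 1 / 2 - c| < 1 / 4 → m = k := fun m hm => by
    rw [abs_lt] at hm
    have k1 : (m : ℝ) < (k + 1 : ℤ) := by
      push_cast
      linarith only [t0, t1, z3, hm]
    have k2 : (k : ℝ) < (m + 1 : ℤ) := by
      push_cast
      linarith only [t0, t1, z3, hm]
    rw [Int.cast_lt] at k1 k2
    omega
  refine ⟨k, h3.mono fun z hz => ⟨fun l => ⟨(hz.1 l).1, ?_⟩, fun l => ⟨(hz.2 l).1, ?_⟩⟩⟩
  · obtain ⟨m, hm⟩ := wn_int hl (hz.1 l).1
    rw [hm, key m (hm ▸ (hz.1 l).2)]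
  · obtain ⟨m, hm⟩ := wn_int hl (hz.2 l).1
    have := (hz.2 l).2
    rw [hm, ← key (m + 1) (by
      rw [hm] at this
      push_cast
      convert this using 2
      ring)]
    push_cast
    ring

end Pool.Agent.Work.MP_267827_an.PS
end

-- merged part: Pool.Agent.Work.MP_267827_an.PS.GSide
section
/-! Local structure of a simple positively oriented polygon (skeleton helper49).

Plan.
`near_vertex`: the other edges form a closed set that does not contain `p` (`Simp.vert_seg`,
`Simp.out_eq`, `Simp.in_eq`).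
`SP.side`: `wn_jump` gives `k`; both `k` and `k - 1` are values of `wn` (`freq_left`), hence in
`{0, 1}`, so `k = 1`.
`half_in`/`half_out`: a convex set `S` disjoint from the curve; `wn` is constant on it
(`wn_const`); it contains a point to the left (right) of the edge close to `x` (apply `SP.side` and
`Filter.Eventually.exists` / `Frequently.and_eventually`).
`corner_left`: take a ball `B` around `p` that meets only the two edges, `S = B ∩ left of both`.
It is convex and misses the curve.  If the turn is to the left or straight, take `x` on the open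
edge `p q` inside `B`: points near `x` on the left of `p q` are left of `o p` too when the turn is
strictly left (`x` is strictly left of `o p`); in the straight case both conditions coincide
(`Simp.straight`).  If the turn is to the right use `corner_right`.
`corner_right`: `S = B ∩ left of p q` misses the edge `o p`, because its points `p - t (p - o)` have
`cr (q - p) (-(t (p - o))) = t * cr (p - o) (q - p) ≤ 0`.
`corner_out`: for a left or straight turn `B ∩ right of p q` and `B ∩ right of o p` miss the curve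
and have winding number zero; a point of the open set `IL es` with cross product zero has
neighbours with negative cross product (`freq_left`).
`first_hit`: the least `t ∈ [0, 1]` with `p + t (q - p) ∈ Γ` (`IsCompact.exists_isLeast`).
`SP.shoot`: take `t₀` from the hypothesis; far points of the ray are not in the bounded set
`IL es`, so the segment from `p + t₀ d` to a far point meets the curve (`SP.sub`); take the least
`t ≥ t₀` on the curve. -/

set_option autoImplicit false

namespace Pool.Agent.Work.MP_267827_an.PS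

open MeasureTheory Set Filter Topology Real

variable {es : List (ℂ × ℂ)}

theorem GSide_near {x : ℂ} {P : ℂ × ℂ → Prop} (h : ∀ e ∈ es, x ∈ segment ℝ e.1 e.2 → P e) :
    ∀ᶠ z in 𝓝 x, ∀ e ∈ es, z ∈ segment ℝ e.1 e.2 → P e := by
  refine (eventually_all_finite es.finite_toSet).2 fun e he => ?_
  by_cases hx : x ∈ segment ℝ e.1 e.2
  · exact Eventually.of_forall fun _ _ => h e he hx
  · have h1 := (isCompact_GC [e]).isClosed
    rw [GC_cons, GC_nil, union_empty] at h1
    filter_upwards [h1.isOpen_compl.mem_nhds hx] with z hz h2 using absurd h2 hz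

theorem near_vertex (hl : Loop es) (hs : Simp es) {o p q : ℂ} (h1 : (o, p) ∈ es)
    (h2 : (p, q) ∈ es) : ∀ᶠ z in 𝓝 p, z ∈ GC es → z ∈ segment ℝ o p ∨ z ∈ segment ℝ p q := by
  filter_upwards [GSide_near (es := es) (x := p) (P := fun e => e = (o, p) ∨ e = (p, q))
    fun e he hx => by
      obtain ⟨a, b⟩ := e
      rcases hs.vert_seg he (List.mem_map.2 ⟨_, h2, rfl⟩) hx with rfl | rfl
      · exact Or.inr (by rw [hs.out_eq he h2])
      · exact Or.inl (by rw [hs.in_eq hl he h1])] with z hz ⟨e, he, h⟩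
  rcases hz e he h with rfl | rfl
  exacts [Or.inl h, Or.inr h]

theorem near_edge (hl : Loop es) (hs : Simp es) {p q x : ℂ} (he : (p, q) ∈ es)
    (hx : x ∈ openSegment ℝ p q) : ∀ᶠ z in 𝓝 x, z ∈ GC es → z ∈ segment ℝ p q := by
  filter_upwards [GSide_near (es := es) (x := x) (P := fun e => (p, q) = e)
    fun e he' h => by_contra fun hne => hs.open_seg hl he he' hne hx h] with z hz ⟨e, he', h⟩
  obtain rfl := hz e he' h
  exact h

theorem IL_disjoint (es : List (ℂ × ℂ)) : Disjoint (IL es) (GC es) :=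
  disjoint_left.2 fun _ hz => hz.1

theorem Loop.isOpen_IL (h : Loop es) : IsOpen (IL es) := by
  refine isOpen_iff_mem_nhds.2 fun z hz => ?_
  filter_upwards [wn_ev h hz.1] with w hw using ⟨hw.1, hw.2.trans hz.2⟩

theorem Loop.bdd_IL (h : Loop es) : Bornology.IsBounded (IL es) := by
  obtain ⟨R, hR⟩ := (isCompact_GC es).isBounded.subset_closedBall 0
  refine (Metric.isBounded_closedBall (x := (0 : ℂ)) (r := R)).subset fun z hz => ?_
  by_contra hn
  exact zero_ne_one ((wn_zero h (convex_closedBall 0 R) hR hn).symm.trans hz.2)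

theorem Loop.sub (h : Loop es) {S : Set ℂ} (hS : IsPreconnected S) (hd : Disjoint S (GC es))
    {x : ℂ} (hx : x ∈ S) (hI : x ∈ IL es) : S ⊆ IL es := by
  exact fun y hy => ⟨disjoint_left.1 hd hy, (wn_const h hS hd hy hx).trans hI.2⟩

theorem Loop.mem_of_closure (h : Loop es) {z : ℂ} (hz : z ∈ closure (IL es)) (hG : z ∉ GC es) :
    z ∈ IL es := by
  obtain ⟨w, h1, h2⟩ := ((mem_closure_iff_frequently.1 hz).and_eventually (wn_ev h hG)).exists
  exact ⟨hG, h2.2.symm.trans h1.2⟩

theorem GSide_freq (hs : Simp es) {p q x : ℂ} (he : (p, q) ∈ es) (hx : x ∈ openSegment ℝ p q) :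
    (∃ᶠ z in 𝓝 x, 0 < cr (q - p) (z - p)) ∧ ∃ᶠ z in 𝓝 x, cr (q - p) (z - p) < 0 := by
  obtain ⟨t, -, -, rfl⟩ := mem_openSegment_iff'.1 hx
  exact freq_left (sub_ne_zero.2 (hs.ne he).symm)
    (by rw [add_sub_cancel_left, cr_mul_right, cr_self, mul_zero])

theorem SP.side (h : SP es) {p q x : ℂ} (he : (p, q) ∈ es) (hx : x ∈ openSegment ℝ p q) :
    ∀ᶠ z in 𝓝 x, (0 < cr (q - p) (z - p) → z ∈ IL es) ∧
      (cr (q - p) (z - p) < 0 → z ∉ GC es ∧ wn es z = 0) := by
  obtain ⟨k, hk⟩ := wn_jump h.loop h.simp he hx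
  obtain ⟨f1, f2⟩ := GSide_freq h.simp he hx
  obtain ⟨z1, a1, b1⟩ := (f1.and_eventually hk).exists
  obtain ⟨z2, a2, b2⟩ := (f2.and_eventually hk).exists
  have c1 := h.pos z1 (b1.1 a1).1
  have c2 := h.pos z2 (b2.2 a2).1
  rw [(b1.1 a1).2] at c1
  rw [(b2.2 a2).2] at c2
  have hk1 : (k : ℝ) = 1 := by
    rcases c1 with c1 | c1 <;> rcases c2 with c2 | c2 <;> linarith only [c1, c2]
  rw [hk1, sub_self] at hk
  exact hk

theorem GSide_cl (h : SP es) {p q x : ℂ} (he : (p, q) ∈ es) (hx : x ∈ openSegment ℝ p q) :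
    x ∈ closure (IL es) :=
  mem_closure_iff_frequently.2 (((GSide_freq h.simp he hx).1.and_eventually (h.side he hx)).mono
    fun _ hz => hz.2.1 hz.1)

theorem GSide_left (h : SP es) {p q x : ℂ} (he : (p, q) ∈ es) (hx : x ∈ openSegment ℝ p q) :
    ∀ᶠ z in 𝓝 x, z ∈ IL es → 0 < cr (q - p) (z - p) := by
  filter_upwards [(h.side he hx).eventually_nhds] with z hz hI
  by_contra hn
  rcases (not_lt.1 hn).lt_or_eq with h1 | h1
  · exact zero_ne_one ((hz.self_of_nhds.2 h1).2.symm.trans hI.2)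
  · obtain ⟨w, h2, h3, h4⟩ := ((freq_left (sub_ne_zero.2 (h.simp.ne he).symm) h1).2.and_eventually
      (hz.and (h.loop.isOpen_IL.mem_nhds hI))).exists
    exact zero_ne_one ((h3.2 h2).2.symm.trans h4.2)

theorem SP.nonempty (h : SP es) : (IL es).Nonempty := by
  obtain ⟨⟨p, q⟩, he⟩ := List.exists_mem_of_ne_nil _ h.loop.ne_nil
  exact closure_nonempty_iff.1 ⟨_, GSide_cl h he (midpoint_mem_openSegment (𝕜 := ℝ) p q)⟩

theorem SP.closure (h : SP es) : GC es ⊆ closure (IL es) := by
  rintro z ⟨⟨p, q⟩, he, hz⟩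
  exact closure_minimal (fun x hx => GSide_cl h he hx) isClosed_closure
    (segment_subset_closure_openSegment hz)

theorem SP.Lft_sub (h : SP es) : Lft es ⊆ IL es := by
  intro z hz
  have h1 := disjoint_left.1 (Lft_disjoint es) hz
  exact ⟨h1, (h.pos z h1).resolve_left (wn_pos h.loop.ne_nil hz).ne'⟩

/-- a point seen from an inner point of an edge lies to its left -/
theorem SP.edge_out (h : SP es) {p q y x : ℂ} (he : (p, q) ∈ es) (hy : y ∈ openSegment ℝ p q)
    (hf : Free es y x) : 0 < cr (q - p) (x - p) := by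
  have h1 : Tendsto (fun t : ℝ => y + t * (x - y)) (𝓝[>] 0) (𝓝 y) := by
    refine Tendsto.mono_left ?_ nhdsWithin_le_nhds
    exact Continuous.tendsto' (by fun_prop) _ _ (by simp)
  obtain ⟨t, h2, h3⟩ := ((h1.eventually (GSide_left h he hy)).and
    (Ioo_mem_nhdsGT (zero_lt_one' ℝ))).exists
  have h4 := h2 (hf (mem_openSegment_iff'.2 ⟨t, h3.1, h3.2, rfl⟩))
  obtain ⟨s, -, -, rfl⟩ := mem_openSegment_iff'.1 hy
  have h5 : cr (q - p) (p + s * (q - p) + t * (x - (p + s * (q - p))) - p) =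
      t * cr (q - p) (x - p) := by
    simp [cr]
    ring
  rw [h5] at h4
  exact (mul_pos_iff_of_pos_left h3.1).1 h4

/-- a free segment that starts on the curve is not degenerate -/
theorem Free.ne {p q : ℂ} (hf : Free es p q) (hp : p ∈ GC es) : p ≠ q := by
  rintro rfl
  exact (hf (by simp)).1 hp

theorem first_hit {Γ : Set ℂ} (hΓ : IsClosed Γ) {p q : ℂ} (hp : p ∉ Γ) (hq : q ∈ Γ) :
    ∃ t : ℝ, 0 < t ∧ t ≤ 1 ∧ p + t * (q - p) ∈ Γ ∧
      ∀ s : ℝ, 0 ≤ s → s < t → p + s * (q - p) ∉ Γ := by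
  have hK : IsCompact (Icc (0 : ℝ) 1 ∩ (fun t : ℝ => p + t * (q - p)) ⁻¹' Γ) :=
    isCompact_Icc.inter_right (hΓ.preimage (by fun_prop))
  obtain ⟨t, ⟨h1, h2⟩, h3⟩ := hK.exists_isLeast ⟨1, ⟨zero_le_one, le_rfl⟩, by simpa using hq⟩
  refine ⟨t, h1.1.lt_of_ne ?_, h1.2, h2, fun s s0 st hs => ?_⟩
  · rintro rfl
    exact hp (by simpa using h2)
  · exact (h3 ⟨⟨s0, st.le.trans h1.2⟩, hs⟩).not_gt st

theorem Loop.shoot (h : Loop es) {p d : ℂ} (hd : d ≠ 0)
    (hI : ∀ᶠ t : ℝ in 𝓝[>] 0, p + t * d ∈ IL es) :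
    ∃ t : ℝ, 0 < t ∧ p + t * d ∈ GC es ∧ Free es p (p + t * d) := by
  obtain ⟨ε, hε, hI⟩ := mem_nhdsGT_iff_exists_Ioo_subset.1 hI
  have hε' : 0 < ε := hε
  have hc : Continuous fun t : ℝ => p + t * d := by fun_prop
  have key : ∀ T : ℝ, ε / 2 ≤ T → (∀ u, ε / 2 ≤ u → u < T → p + u * d ∉ GC es) →
      ∀ u, 0 < u → u < T → p + u * d ∈ IL es := fun T hT hu u u0 uT => by
    refine h.sub (isPreconnected_Ioo.image _ hc.continuousOn) (disjoint_left.2 ?_)
      ⟨ε / 4, ⟨by linarith only [hε'], by linarith only [hT, u0, uT]⟩, rfl⟩ (hI ⟨by linarith, by linarith only [hε']⟩) ⟨u, ⟨u0, uT⟩, rfl⟩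
    rintro _ ⟨v, hv, rfl⟩
    rcases lt_or_ge v (ε / 2) with h1 | h1
    · exact (hI ⟨hv.1, by linarith only [hε', h1]⟩).1
    · exact hu v h1 hv.2
  have hA : IsClosed (Ici (ε / 2) ∩ (fun t : ℝ => p + t * d) ⁻¹' GC es) :=
    isClosed_Ici.inter ((isCompact_GC es).isClosed.preimage hc)
  have hne : (Ici (ε / 2) ∩ (fun t : ℝ => p + t * d) ⁻¹' GC es).Nonempty := by
    by_contra hn
    obtain ⟨R, hR⟩ := h.bdd_IL.exists_norm_le
    have hd' : 0 < ‖d‖ := norm_pos_iff.2 hd
    have h0 : 0 < (|R| + ‖p‖ + 1) / ‖d‖ := by positivity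
    have h1 := hR _ (key ((|R| + ‖p‖ + 1) / ‖d‖ + ε) (by linarith only [hε', h0])
      (fun u hu _ hG => hn ⟨u, hu, hG⟩) ((|R| + ‖p‖ + 1) / ‖d‖) h0 (by linarith only [hε']))
    have h2 := norm_sub_le (p + ((|R| + ‖p‖ + 1) / ‖d‖ : ℝ) * d) p
    rw [add_sub_cancel_left, norm_mul, Complex.norm_real, Real.norm_of_nonneg h0.le,
      div_mul_cancel₀ _ hd'.ne'] at h2
    linarith only [h1, h2, le_abs_self R]
  obtain ⟨⟨h1, h2⟩, h3⟩ := hA.isLeast_csInf hne ⟨ε / 2, fun _ hx => hx.1⟩
  generalize sInf (Ici (ε / 2) ∩ (fun t : ℝ => p + t * d) ⁻¹' GC es) = T at h1 h2 h3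
  have h4 : ε / 2 ≤ T := h1
  have h5 : 0 < T := by linarith only [hε', h4]
  refine ⟨T, h5, h2, fun z hz => ?_⟩
  obtain ⟨s, s0, s1, rfl⟩ := mem_openSegment_iff'.1 hz
  have h6 := key T h4 (fun u hu uT hG => (h3 ⟨hu, hG⟩).not_gt uT) (s * T) (by positivity)
    (by linarith only [hε', s1, h4, mul_pos_of_neg_of_neg (Mathlib.Tactic.Linarith.sub_neg_of_lt hε') (Mathlib.Tactic.Linarith.sub_neg_of_lt s1), mul_nonneg_of_nonpos_of_nonpos (Mathlib.Tactic.Linarith.sub_nonpos_of_le h4) (le_of_lt (Mathlib.Tactic.Linarith.sub_neg_of_lt s1))])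
  convert h6 using 1
  push_cast
  ring

/-- a convex polygon: all vertices are weakly left of all edges.  The curve lies in the closed half
plane left of an edge, so `wn = 0` strictly right of it (`wn_zero`); `IL es` is open. -/
theorem SP.conv (h : SP es) (hc : ∀ e ∈ es, ∀ f ∈ es, 0 ≤ cr (e.2 - e.1) (f.1 - e.1)) :
    IL es = Lft es := by
  refine Subset.antisymm (fun z hz e he => ?_) h.Lft_sub
  have hC : Convex ℝ {w | 0 ≤ cr (e.2 - e.1) (w - e.1)} := fun x hx y hy a b ha hb hab => by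
    have h1 : cr (e.2 - e.1) (a • x + b • y - e.1) =
        a * cr (e.2 - e.1) (x - e.1) + b * cr (e.2 - e.1) (y - e.1) := by
      obtain rfl : b = 1 - a := by linarith
      simp [cr]
      ring
    rw [mem_ofPred_eq, h1]
    exact add_nonneg (mul_nonneg ha hx) (mul_nonneg hb hy)
  have hG : GC es ⊆ {w | 0 ≤ cr (e.2 - e.1) (w - e.1)} := by
    rintro w ⟨f, hf, hw⟩
    obtain ⟨r, hr⟩ := h.loop.next (p := f.1) (q := f.2) hf
    exact hC.segment_subset (hc e he f hf) (hc e he _ hr) hw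
  have h0 : ∀ w ∈ IL es, 0 ≤ cr (e.2 - e.1) (w - e.1) := fun w hw => by_contra fun hn =>
    zero_ne_one ((wn_zero h.loop hC hG hn).symm.trans hw.2)
  refine (h0 z hz).lt_of_ne fun h1 => ?_
  obtain ⟨w, h2, h3⟩ := ((freq_left (sub_ne_zero.2 (h.simp.ne (p := e.1) (q := e.2) he).symm)
    h1.symm).2.and_eventually (h.loop.isOpen_IL.mem_nhds hz)).exists
  exact (h0 w h3).not_gt h2

end Pool.Agent.Work.MP_267827_an.PS
end

-- merged part: Pool.Agent.Work.MP_267827_an.PS.GJctA
section
/-! The Jordan curve theorem for polygons (skeleton helper49).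

Write `cc z = connectedComponentIn (GC es)ᶜ z`.

`jct_edge`: fix an edge `(p, q)`.  For `x` on the open edge take a ball `B` around `x` that meets the
curve only in the edge (`near_edge`); the two open half balls are convex and miss the curve, so each
lies in one component.  The relation on the open edge `x ~ x'` (the left half balls lie in the same
component and so do the right ones) is locally constant because half balls around close points
intersect; the open edge is preconnected (`IsPreconnected.induction₂'` or constancy of a locally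
constant function `IsLocallyConstant.apply_eq_of_isPreconnected`).
`jct_corner`: take a ball `B` around `p` that meets only the two edges (`near_vertex`).
Left turn: `B ∩ left ∩ left` is convex and misses the curve; `B ∩ right of o p` and
`B ∩ right of p q` are convex, miss the curve and intersect (near `p` in the direction
`(p - o) - (q - p)`).  Right turn: the same with left and right exchanged.  Straight
(`Simp.straight`): the two half balls.  Each of these sets contains points of the relevant side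
close to points of the open edges inside `B`.
`jct_strip`: `Loop.around` with `P e := Sides es e zL zR`.
`jct_reach`: fix `x₀` on an open edge.  Choose `z'` in a small ball around `z` (inside the
component of `z`) outside the finitely many lines through `x₀` and a vertex (`line_null`: they are
null, the ball is not).  The first hit `x` of the segment from `z'` to `x₀` (`first_hit`) is not a
vertex, so it lies on an open edge `(p, q)`; `z'` is not on the line of this edge (otherwise the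
segment from `z' ∉ segment p q` to `x` contains `p` or `q`).  The points of the segment just before
`x` are in the component of `z` and have nonzero cross product.
`jct_two`: every point off the curve is in `cc zL` or `cc zR`.
`jordan`: `wn zL = k`, `wn zR = k - 1` (`wn_jump`, `wn_const`); a point outside a closed ball that
contains the curve has `wn = 0` (`wn_zero`), so `k = 0` or `k = 1`; `wn_swap`.
`SP.conn`: `IL es = cc zL`.  `SP.ins`: `cc zL = IL es` is bounded, `cc zR` contains the complement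
of a ball. -/

set_option autoImplicit false

namespace Pool.Agent.Work.MP_267827_an.PS

open MeasureTheory Set Filter Topology Real

variable {es : List (ℂ × ℂ)}

/-- near the open edge the left points are in the component of `zL`, the right ones in that of
`zR` -/
def Sides (es : List (ℂ × ℂ)) (e : ℂ × ℂ) (zL zR : ℂ) : Prop :=
  ∀ x ∈ openSegment ℝ e.1 e.2, ∀ᶠ z in 𝓝 x,
    (0 < cr (e.2 - e.1) (z - e.1) → z ∈ connectedComponentIn (GC es)ᶜ zL) ∧
      (cr (e.2 - e.1) (z - e.1) < 0 → z ∈ connectedComponentIn (GC es)ᶜ zR)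

/-- the open half plane on the side `σ` -/
def GJctA_H (σ : ℝ) (d p : ℂ) : Set ℂ := {z | 0 < σ * cr d (z - p)}

/-- near `x` the points on the side `σ` are in the component of `w` -/
def GJctA_Q (es : List (ℂ × ℂ)) (σ : ℝ) (p q w x : ℂ) : Prop :=
  ∀ᶠ z in 𝓝 x, z ∈ GJctA_H σ (q - p) p → z ∈ connectedComponentIn (GC es)ᶜ w

theorem GJctA_convex (σ : ℝ) (d p : ℂ) : Convex ℝ (GJctA_H σ d p) := by
  intro x hx y hy a b ha hb hab
  have hx' : 0 < σ * cr d (x - p) := hx
  have hy' : 0 < σ * cr d (y - p) := hy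
  show 0 < σ * cr d (a • x + b • y - p)
  have e : σ * cr d (a • x + b • y - p) =
      a * (σ * cr d (x - p)) + b * (σ * cr d (y - p)) := by
    obtain rfl : b = 1 - a := by linarith only [hab]
    simp [cr]; ring
  rw [e]
  rcases ha.eq_or_lt with rfl | ha'
  · obtain rfl : b = 1 := by linarith
    linarith
  · have := mul_pos ha' hx'
    have := mul_nonneg hb hy'.le
    linarith

theorem GJctA_open (σ : ℝ) (d p : ℂ) : IsOpen (GJctA_H σ d p) :=
  isOpen_lt continuous_const (by fun_prop)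

theorem GJctA_seg {p q z : ℂ} (h : z ∈ segment ℝ p q) : cr (q - p) (z - p) = 0 := by
  obtain ⟨t, -, -, rfl⟩ := mem_segment_iff'.1 h
  simp [cr]; ring

theorem GJctA_freq {σ : ℝ} (hσ : σ ≠ 0) {d p x : ℂ} (hd : d ≠ 0) (hx : cr d (x - p) = 0) :
    ∃ᶠ z in 𝓝 x, z ∈ GJctA_H σ d p := by
  rcases lt_or_gt_of_ne hσ with h | h
  · exact (freq_left hd hx).2.mono fun z hz => mul_pos_of_neg_of_neg h hz
  · exact (freq_left hd hx).1.mono fun z hz => mul_pos h hz

theorem GJctA_sub {F S : Set ℂ} (hS : IsPreconnected S) (hF : S ⊆ F) {z w : ℂ} (hz : z ∈ S)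
    (hw : z ∈ connectedComponentIn F w) : S ⊆ connectedComponentIn F w := by
  rw [connectedComponentIn_eq hw]
  exact hS.subset_connectedComponentIn hz hF

theorem GJctA_loc {σ : ℝ} (hσ : σ ≠ 0) {p q w y : ℂ} (hne : p ≠ q) (hy : y ∈ segment ℝ p q)
    {S : Set ℂ} (hS : IsPreconnected S) (hF : S ⊆ (GC es)ᶜ)
    (hn : ∀ᶠ z in 𝓝 y, z ∈ GJctA_H σ (q - p) p → z ∈ S) :
    GJctA_Q es σ p q w y ↔ S ⊆ connectedComponentIn (GC es)ᶜ w := by
  constructor
  · intro h
    obtain ⟨z, hz, h1, h2⟩ :=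
      ((GJctA_freq hσ (sub_ne_zero.2 hne.symm) (GJctA_seg hy)).and_eventually
        (hn.and h)).exists
    exact GJctA_sub hS hF (h1 hz) (h2 hz)
  · intro h
    exact hn.mono fun z hz h' => h (hz h')

theorem GJctA_ball (hl : Loop es) (hs : Simp es) (σ : ℝ) {p q x : ℂ} (he : (p, q) ∈ es)
    (hx : x ∈ openSegment ℝ p q) :
    ∃ r, 0 < r ∧ Metric.ball x r ∩ GJctA_H σ (q - p) p ⊆ (GC es)ᶜ := by
  obtain ⟨r, hr, h⟩ := Metric.eventually_nhds_iff_ball.1 (near_edge hl hs he hx)
  refine ⟨r, hr, fun z hz hG => ?_⟩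
  have h0 := GJctA_seg (h z hz.1 hG)
  have h1 : 0 < σ * cr (q - p) (z - p) := hz.2
  rw [h0, mul_zero] at h1
  exact lt_irrefl _ h1

theorem GJctA_const (hl : Loop es) (hs : Simp es) {σ : ℝ} (hσ : σ ≠ 0) {p q w x y : ℂ}
    (he : (p, q) ∈ es) (hx : x ∈ openSegment ℝ p q) (hy : y ∈ openSegment ℝ p q)
    (h : GJctA_Q es σ p q w x) : GJctA_Q es σ p q w y := by
  refine (convex_openSegment p q).isPreconnected.induction₂'
    (fun x y => GJctA_Q es σ p q w x → GJctA_Q es σ p q w y) ?_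
    (fun _ _ _ _ _ _ h1 h2 h3 => h2 (h1 h3)) hx hy h
  intro x hx
  obtain ⟨r, hr, hB⟩ := GJctA_ball hl hs σ he hx
  have key : ∀ y ∈ Metric.ball x r, y ∈ openSegment ℝ p q → (GJctA_Q es σ p q w y ↔
      Metric.ball x r ∩ GJctA_H σ (q - p) p ⊆ connectedComponentIn (GC es)ᶜ w) := by
    intro y hy hy'
    refine GJctA_loc hσ (hs.ne he) (openSegment_subset_segment _ _ _ hy')
      ((convex_ball x r).inter (GJctA_convex _ _ _)).isPreconnected hB ?_
    filter_upwards [Metric.isOpen_ball.mem_nhds hy] with z hz h' using ⟨hz, h'⟩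
  filter_upwards [self_mem_nhdsWithin, nhdsWithin_le_nhds (Metric.ball_mem_nhds x hr)]
    with y hy hy'
  rw [key y hy' hy, key x (Metric.mem_ball_self hr) hx]
  exact ⟨id, id⟩

theorem GJctA_key (hl : Loop es) (hs : Simp es) {σ : ℝ} (hσ : σ ≠ 0) {p q w y : ℂ}
    (he : (p, q) ∈ es) (hy : y ∈ openSegment ℝ p q)
    {S : Set ℂ} (hS : IsPreconnected S) (hF : S ⊆ (GC es)ᶜ)
    (hn : ∀ᶠ z in 𝓝 y, z ∈ GJctA_H σ (q - p) p → z ∈ S) :
    (∀ x ∈ openSegment ℝ p q, GJctA_Q es σ p q w x) ↔ S ⊆ connectedComponentIn (GC es)ᶜ w := by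
  rw [← GJctA_loc hσ (hs.ne he) (openSegment_subset_segment _ _ _ hy) hS hF hn]
  exact ⟨fun h => h y hy, fun h x hx => GJctA_const hl hs hσ he hy hx h⟩

theorem GJctA_iff {p q zL zR : ℂ} : Sides es (p, q) zL zR ↔
    (∀ x ∈ openSegment ℝ p q, GJctA_Q es 1 p q zL x) ∧
      ∀ x ∈ openSegment ℝ p q, GJctA_Q es (-1) p q zR x := by
  simp only [Sides, GJctA_Q, GJctA_H, mem_setOf_eq, one_mul, neg_mul, neg_pos, eventually_and]
  exact ⟨fun h => ⟨fun x hx => (h x hx).1, fun x hx => (h x hx).2⟩,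
    fun h x hx => ⟨h.1 x hx, h.2 x hx⟩⟩

theorem GJctA_edge (hl : Loop es) (hs : Simp es) {σ : ℝ} (hσ : σ ≠ 0) {p q : ℂ}
    (he : (p, q) ∈ es) : ∃ w, ∀ x ∈ openSegment ℝ p q, GJctA_Q es σ p q w x := by
  have hx : p + ((1 / 2 : ℝ) : ℂ) * (q - p) ∈ openSegment ℝ p q :=
    mem_openSegment_iff'.2 ⟨1 / 2, by norm_num, by norm_num, rfl⟩
  generalize p + ((1 / 2 : ℝ) : ℂ) * (q - p) = x at hx
  obtain ⟨r, hr, hB⟩ := GJctA_ball hl hs σ he hx
  have hc := ((convex_ball x r).inter (GJctA_convex σ (q - p) p)).isPreconnected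
  obtain ⟨w, hw, hw'⟩ := ((GJctA_freq hσ (sub_ne_zero.2 (hs.ne he).symm)
    (GJctA_seg (openSegment_subset_segment _ _ _ hx))).and_eventually
      (Metric.ball_mem_nhds x hr)).exists
  refine ⟨w, (GJctA_key hl hs hσ he hx hc hB ?_).2
    (hc.subset_connectedComponentIn ⟨hw', hw⟩ hB)⟩
  filter_upwards [Metric.ball_mem_nhds x hr] with z hz h' using ⟨hz, h'⟩

theorem GJctA_small {B : Set ℂ} {p : ℂ} (hB : B ∈ 𝓝 p) (u v w : ℂ) :
    ∃ t : ℝ, 0 < t ∧ t < 1 ∧ p + t * u ∈ B ∧ p + t * v ∈ B ∧ p + t * w ∈ B := by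
  have h : ∀ v : ℂ, ∀ᶠ t : ℝ in 𝓝 0, p + t * v ∈ B := by
    intro v
    have hc : Continuous fun t : ℝ => p + (t : ℂ) * v := by fun_prop
    have h0 : Tendsto (fun t : ℝ => p + (t : ℂ) * v) (𝓝 0) (𝓝 p) := by
      simpa using hc.tendsto 0
    exact h0.eventually hB
  have h1 : ∀ᶠ t : ℝ in 𝓝 0, t < 1 := Iio_mem_nhds one_pos
  have h2 : ∀ᶠ t : ℝ in 𝓝[>] 0, 0 < t ∧ t < 1 ∧ p + t * u ∈ B ∧ p + t * v ∈ B ∧ p + t * w ∈ B := by
    filter_upwards [self_mem_nhdsWithin, nhdsWithin_le_nhds h1, nhdsWithin_le_nhds (h u),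
      nhdsWithin_le_nhds (h v), nhdsWithin_le_nhds (h w)] with t a b c d e using ⟨a, b, c, d, e⟩
  exact h2.exists

theorem GJctA_corner (hl : Loop es) (hs : Simp es) {σ : ℝ} (hσ : σ ≠ 0) {o p q w : ℂ}
    (h1 : (o, p) ∈ es) (h2 : (p, q) ∈ es) :
    (∀ x ∈ openSegment ℝ o p, GJctA_Q es σ o p w x) ↔
      ∀ x ∈ openSegment ℝ p q, GJctA_Q es σ p q w x := by
  obtain ⟨r, hr, hB⟩ := Metric.eventually_nhds_iff_ball.1 (near_vertex hl hs h1 h2)
  obtain ⟨t, t0, t1, b1, b2, b3⟩ := GJctA_small (Metric.ball_mem_nhds p hr) (o - p) (q - p)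
    ((p - o) - (q - p))
  have y1 : p + t * (o - p) ∈ openSegment ℝ o p := by
    rw [openSegment_symm]; exact mem_openSegment_iff'.2 ⟨t, t0, t1, rfl⟩
  have y2 : p + t * (q - p) ∈ openSegment ℝ p q := mem_openSegment_iff'.2 ⟨t, t0, t1, rfl⟩
  have n1 := Metric.isOpen_ball.mem_nhds b1
  have n2 := Metric.isOpen_ball.mem_nhds b2
  have c1 := (convex_ball p r).inter (GJctA_convex σ (p - o) o)
  have c2 := (convex_ball p r).inter (GJctA_convex σ (q - p) p)
  have s1 : ∀ z ∈ segment ℝ o p, z ∉ GJctA_H σ (p - o) o := by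
    intro z hz h'
    have h'' : 0 < σ * cr (p - o) (z - o) := h'
    rw [GJctA_seg hz, mul_zero] at h''
    exact lt_irrefl _ h''
  have s2 : ∀ z ∈ segment ℝ p q, z ∉ GJctA_H σ (q - p) p := by
    intro z hz h'
    have h'' : 0 < σ * cr (q - p) (z - p) := h'
    rw [GJctA_seg hz, mul_zero] at h''
    exact lt_irrefl _ h''
  have e1 : ∀ s : ℝ, σ * cr (q - p) (p + s * (o - p) - p) = s * (σ * cr (p - o) (q - p)) := by
    intro s; simp [cr]; ring
  have e2 : ∀ s : ℝ, σ * cr (p - o) (p + s * (q - p) - o) = s * (σ * cr (p - o) (q - p)) := by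
    intro s; simp [cr]; ring
  suffices H : ∃ S : Set ℂ, IsPreconnected S ∧ S ⊆ (GC es)ᶜ ∧
      (∀ᶠ z in 𝓝 (p + t * (o - p)), z ∈ GJctA_H σ (p - o) o → z ∈ S) ∧
      ∀ᶠ z in 𝓝 (p + t * (q - p)), z ∈ GJctA_H σ (q - p) p → z ∈ S by
    obtain ⟨S, a, b, c, d⟩ := H
    rw [GJctA_key hl hs hσ h1 y1 a b c, GJctA_key hl hs hσ h2 y2 a b d]
  by_cases hc : 0 < σ * cr (p - o) (q - p)
  · refine ⟨(Metric.ball p r ∩ GJctA_H σ (p - o) o) ∩ GJctA_H σ (q - p) p,
      (c1.inter (GJctA_convex _ _ _)).isPreconnected, ?_, ?_, ?_⟩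
    · intro z hz hG
      rcases hB z hz.1.1 hG with h | h
      · exact s1 z h hz.1.2
      · exact s2 z h hz.2
    · have : p + t * (o - p) ∈ GJctA_H σ (q - p) p := by
        show 0 < σ * cr (q - p) (p + t * (o - p) - p)
        rw [e1]; exact mul_pos t0 hc
      filter_upwards [n1, (GJctA_open _ _ _).mem_nhds this] with z a b c using ⟨⟨a, c⟩, b⟩
    · have : p + t * (q - p) ∈ GJctA_H σ (p - o) o := by
        show 0 < σ * cr (p - o) (p + t * (q - p) - o)
        rw [e2]; exact mul_pos t0 hc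
      filter_upwards [n2, (GJctA_open _ _ _).mem_nhds this] with z a b c using ⟨⟨a, b⟩, c⟩
  · have hc' : σ * cr (p - o) (q - p) ≤ 0 := not_lt.1 hc
    have hx : ∃ z, z ∈ Metric.ball p r ∩ GJctA_H σ (p - o) o ∧
        z ∈ Metric.ball p r ∩ GJctA_H σ (q - p) p := by
      rcases hc'.eq_or_lt with h0 | h0
      · obtain ⟨k, k0, hk⟩ := hs.straight hl h1 h2 ((mul_eq_zero.1 h0).resolve_left hσ)
        obtain ⟨z, hz, hz'⟩ := ((GJctA_freq hσ (sub_ne_zero.2 (hs.ne h1).symm)
          (cr_self (p - o))).and_eventually (Metric.ball_mem_nhds p hr)).exists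
        refine ⟨z, ⟨hz', hz⟩, hz', ?_⟩
        have hz0 : 0 < σ * cr (p - o) (z - o) := hz
        show 0 < σ * cr (q - p) (z - p)
        have : σ * cr (q - p) (z - p) = k * (σ * cr (p - o) (z - o)) := by
          rw [hk]; simp [cr]; ring
        rw [this]; exact mul_pos k0 hz0
      · refine ⟨_, ⟨b3, ?_⟩, b3, ?_⟩
        · show 0 < σ * cr (p - o) (p + t * (p - o - (q - p)) - o)
          have : σ * cr (p - o) (p + t * (p - o - (q - p)) - o) =
              t * -(σ * cr (p - o) (q - p)) := by simp [cr]; ring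
          rw [this]; exact mul_pos t0 (neg_pos.2 h0)
        · show 0 < σ * cr (q - p) (p + t * (p - o - (q - p)) - p)
          have : σ * cr (q - p) (p + t * (p - o - (q - p)) - p) =
              t * -(σ * cr (p - o) (q - p)) := by simp [cr]; ring
          rw [this]; exact mul_pos t0 (neg_pos.2 h0)
    obtain ⟨z, z1, z2⟩ := hx
    refine ⟨(Metric.ball p r ∩ GJctA_H σ (p - o) o) ∪ (Metric.ball p r ∩ GJctA_H σ (q - p) p),
      IsPreconnected.union z z1 z2 c1.isPreconnected c2.isPreconnected, ?_, ?_, ?_⟩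
    · rintro z (hz | hz) hG
      · rcases hB z hz.1 hG with h | h
        · exact s1 z h hz.2
        · obtain ⟨s, s0, -, rfl⟩ := mem_segment_iff'.1 h
          have h' : 0 < σ * cr (p - o) (p + s * (q - p) - o) := hz.2
          rw [e2] at h'
          exact absurd (mul_nonpos_of_nonneg_of_nonpos s0 hc') (not_le.2 h')
      · rcases hB z hz.1 hG with h | h
        · rw [segment_symm] at h
          obtain ⟨s, s0, -, rfl⟩ := mem_segment_iff'.1 h
          have h' : 0 < σ * cr (q - p) (p + s * (o - p) - p) := hz.2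
          rw [e1] at h'
          exact absurd (mul_nonpos_of_nonneg_of_nonpos s0 hc') (not_le.2 h')
        · exact s2 z h hz.2
    · filter_upwards [n1] with z a b using Or.inl ⟨a, b⟩
    · filter_upwards [n2] with z a b using Or.inr ⟨a, b⟩

theorem jct_edge (hl : Loop es) (hs : Simp es) {e : ℂ × ℂ} (he : e ∈ es) :
    ∃ zL zR, Sides es e zL zR := by
  obtain ⟨p, q⟩ := e
  obtain ⟨zL, hL⟩ := GJctA_edge hl hs one_ne_zero he
  obtain ⟨zR, hR⟩ := GJctA_edge hl hs (neg_ne_zero.2 one_ne_zero) he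
  exact ⟨zL, zR, GJctA_iff.2 ⟨hL, hR⟩⟩

theorem jct_corner (hl : Loop es) (hs : Simp es) {o p q zL zR : ℂ} (h1 : (o, p) ∈ es)
    (h2 : (p, q) ∈ es) : Sides es (o, p) zL zR ↔ Sides es (p, q) zL zR := by
  rw [GJctA_iff, GJctA_iff, GJctA_corner hl hs one_ne_zero h1 h2,
    GJctA_corner hl hs (neg_ne_zero.2 one_ne_zero) h1 h2]

theorem jct_strip (hl : Loop es) (hs : Simp es) : ∃ zL zR, ∀ e ∈ es, Sides es e zL zR := by
  obtain ⟨e, he⟩ := List.exists_mem_of_ne_nil es hl.ne_nil
  obtain ⟨zL, zR, h⟩ := jct_edge hl hs he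
  exact ⟨zL, zR, hl.around (P := fun e => Sides es e zL zR) he h
    fun o p q h1 h2 => jct_corner hl hs h1 h2⟩

end Pool.Agent.Work.MP_267827_an.PS
end

-- merged part: Pool.Agent.Work.MP_267827_an.PS.GJct
section
/-! The Jordan curve theorem for polygons (skeleton helper49).

Write `cc z = connectedComponentIn (GC es)ᶜ z`.

`jct_edge`: fix an edge `(p, q)`.  For `x` on the open edge take a ball `B` around `x` that meets the
curve only in the edge (`near_edge`); the two open half balls are convex and miss the curve, so each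
lies in one component.  The relation on the open edge `x ~ x'` (the left half balls lie in the same
component and so do the right ones) is locally constant because half balls around close points
intersect; the open edge is preconnected (`IsPreconnected.induction₂'` or constancy of a locally
constant function `IsLocallyConstant.apply_eq_of_isPreconnected`).
`jct_corner`: take a ball `B` around `p` that meets only the two edges (`near_vertex`).
Left turn: `B ∩ left ∩ left` is convex and misses the curve; `B ∩ right of o p` and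
`B ∩ right of p q` are convex, miss the curve and intersect (near `p` in the direction
`(p - o) - (q - p)`).  Right turn: the same with left and right exchanged.  Straight
(`Simp.straight`): the two half balls.  Each of these sets contains points of the relevant side
close to points of the open edges inside `B`.
`jct_strip`: `Loop.around` with `P e := Sides es e zL zR`.
`jct_reach`: fix `x₀` on an open edge.  Choose `z'` in a small ball around `z` (inside the
component of `z`) outside the finitely many lines through `x₀` and a vertex (`line_null`: they are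
null, the ball is not).  The first hit `x` of the segment from `z'` to `x₀` (`first_hit`) is not a
vertex, so it lies on an open edge `(p, q)`; `z'` is not on the line of this edge (otherwise the
segment from `z' ∉ segment p q` to `x` contains `p` or `q`).  The points of the segment just before
`x` are in the component of `z` and have nonzero cross product.
`jct_two`: every point off the curve is in `cc zL` or `cc zR`.
`jordan`: `wn zL = k`, `wn zR = k - 1` (`wn_jump`, `wn_const`); a point outside a closed ball that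
contains the curve has `wn = 0` (`wn_zero`), so `k = 0` or `k = 1`; `wn_swap`.
`SP.conn`: `IL es = cc zL`.  `SP.ins`: `cc zL = IL es` is bounded, `cc zR` contains the complement
of a ball. -/

set_option autoImplicit false

namespace Pool.Agent.Work.MP_267827_an.PS

open MeasureTheory Set Filter Topology Real

variable {es : List (ℂ × ℂ)}

theorem GJct_mid (p q : ℂ) : p + ((1 / 2 : ℝ) : ℂ) * (q - p) ∈ openSegment ℝ p q :=
  mem_openSegment_iff'.2 ⟨1 / 2, by norm_num, by norm_num, rfl⟩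

theorem GJct_cr_open {p q x : ℂ} (hx : x ∈ openSegment ℝ p q) : cr (q - p) (x - p) = 0 := by
  obtain ⟨t, -, -, rfl⟩ := mem_openSegment_iff'.1 hx
  rw [add_sub_cancel_left, cr_mul_right, cr_self, mul_zero]

theorem GJct_avoid (V : List ℂ) {x₀ : ℂ} (hV : ∀ v ∈ V, v ≠ x₀) {B : Set ℂ} (hB : IsOpen B)
    (hne : B.Nonempty) : ∃ z ∈ B, ∀ v ∈ V, cr (v - x₀) (z - x₀) ≠ 0 := by
  have h0 : volume (⋃ v ∈ {v : ℂ | v ∈ V}, {z : ℂ | cr (v - x₀) (z - x₀) = 0}) = 0 := by
    rw [measure_biUnion_null_iff (List.finite_toSet V).countable]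
    intro v hv
    exact line_null (sub_ne_zero.2 (hV v hv)) x₀
  by_contra hc
  push Not at hc
  have hsub : B ⊆ ⋃ v ∈ {v : ℂ | v ∈ V}, {z : ℂ | cr (v - x₀) (z - x₀) = 0} := by
    intro z hz
    obtain ⟨v, hv, h⟩ := hc z hz
    exact mem_biUnion (s := {v : ℂ | v ∈ V}) hv h
  exact (hB.measure_pos volume hne).ne' (measure_mono_null hsub h0)

theorem jct_reach (hl : Loop es) (hs : Simp es) {z : ℂ} (hz : z ∉ GC es) :
    ∃ e ∈ es, ∃ x ∈ openSegment ℝ e.1 e.2, ∃ᶠ y in 𝓝 x,
      cr (e.2 - e.1) (y - e.1) ≠ 0 ∧ y ∈ connectedComponentIn (GC es)ᶜ z := by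
  obtain ⟨e₀, he₀⟩ := List.exists_mem_of_ne_nil es hl.ne_nil
  obtain ⟨x₀, hx₀⟩ : ∃ x₀, x₀ ∈ openSegment ℝ e₀.1 e₀.2 := ⟨_, GJct_mid _ _⟩
  have hcl : IsClosed (GC es) := (isCompact_GC es).isClosed
  have hV : ∀ v ∈ es.map Prod.fst, v ≠ x₀ := by
    intro v hv h
    obtain ⟨f, hf, rfl⟩ := List.mem_map.1 hv
    exact hs.vert e₀ he₀ f hf (h ▸ hx₀)
  obtain ⟨z', hz', hav⟩ := GJct_avoid _ hV
    (B := connectedComponentIn (GC es)ᶜ z) (hcl.isOpen_compl.connectedComponentIn)
    ⟨z, mem_connectedComponentIn hz⟩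
  have hz'G : z' ∉ GC es := connectedComponentIn_subset _ _ hz'
  have hx₀G : x₀ ∈ GC es := ⟨e₀, he₀, openSegment_subset_segment _ _ _ hx₀⟩
  obtain ⟨t, ht0, ht1, hxG, hbef⟩ := first_hit hcl hz'G hx₀G
  obtain ⟨⟨p, q⟩, he, hseg⟩ := hxG
  have hnv : ∀ v ∈ es.map Prod.fst, z' + t * (x₀ - z') ≠ v := by
    intro v hv h
    apply hav v hv
    have : v - x₀ = ((1 - t : ℝ) : ℂ) * (z' - x₀) := by rw [← h]; push_cast; ring
    rw [this, cr_mul_left, cr_self, mul_zero]
  have hp : p ∈ es.map Prod.fst := List.mem_map.2 ⟨_, he, rfl⟩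
  have hq : q ∈ es.map Prod.fst := by
    obtain ⟨r, hr⟩ := hl.next he
    exact List.mem_map.2 ⟨_, hr, rfl⟩
  have hopen : z' + t * (x₀ - z') ∈ openSegment ℝ p q := by
    rcases seg_cases hseg with h | h | h
    · exact absurd h (hnv p hp)
    · exact absurd h (hnv q hq)
    · exact h
  have hd : q - p ≠ 0 := sub_ne_zero.2 (hs.ne he).symm
  have h0 := GJct_cr_open hopen
  have hexp : ∀ s : ℝ, cr (q - p) (z' + s * (x₀ - z') - p) =
      cr (q - p) (z' - p) + s * cr (q - p) (x₀ - z') := by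
    intro s
    rw [← cr_mul_right, ← cr_add_right]; congr 1; ring
  have hne : cr (q - p) (x₀ - z') ≠ 0 := by
    intro h
    rw [hexp, h, mul_zero, add_zero] at h0
    obtain ⟨r, hr⟩ := cr_eq_zero hd h0
    obtain ⟨r', hr'⟩ := cr_eq_zero hd h
    apply hav p hp
    have e1 : p - x₀ = ((-r - r' : ℝ) : ℂ) * (q - p) := by
      push_cast; linear_combination -hr - hr'
    have e2 : z' - x₀ = ((-r' : ℝ) : ℂ) * (q - p) := by
      push_cast; linear_combination -hr'
    rw [e1, e2, cr_mul_left, cr_mul_right, cr_self]; ring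
  refine ⟨(p, q), he, _, hopen, ?_⟩
  have hcont : Continuous fun s : ℝ => z' + s * (x₀ - z') := by fun_prop
  have htend : Tendsto (fun s : ℝ => z' + s * (x₀ - z')) (𝓝[<] t) (𝓝 (z' + t * (x₀ - z'))) :=
    (hcont.tendsto t).mono_left nhdsWithin_le_nhds
  refine htend.frequently (Eventually.frequently ?_)
  have hS : (fun s : ℝ => z' + s * (x₀ - z')) '' Ico 0 t ⊆ connectedComponentIn (GC es)ᶜ z' := by
    refine (isPreconnected_Ico.image _ hcont.continuousOn).subset_connectedComponentIn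
      ⟨0, ⟨le_rfl, ht0⟩, by simp⟩ ?_
    rintro _ ⟨s, hs', rfl⟩
    exact hbef s hs'.1 hs'.2
  filter_upwards [Ioo_mem_nhdsLT ht0] with s hs'
  refine ⟨?_, ?_⟩
  · show cr (q - p) (z' + s * (x₀ - z') - p) ≠ 0
    rw [hexp] at h0 ⊢
    intro h
    apply hne
    have : (t - s) * cr (q - p) (x₀ - z') = 0 := by linarith only [h0, h]
    exact (mul_eq_zero.1 this).resolve_left (sub_pos.2 hs'.2).ne'
  · rw [connectedComponentIn_eq hz']
    exact hS ⟨s, ⟨hs'.1.le, hs'.2⟩, rfl⟩

theorem jct_two (hl : Loop es) (hs : Simp es) {zL zR : ℂ} (h : ∀ e ∈ es, Sides es e zL zR)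
    {z : ℂ} (hz : z ∉ GC es) :
    z ∈ connectedComponentIn (GC es)ᶜ zL ∨ z ∈ connectedComponentIn (GC es)ᶜ zR := by
  obtain ⟨e, he, x, hx, hf⟩ := jct_reach hl hs hz
  obtain ⟨y, ⟨hy0, hyz⟩, hL, hR⟩ := (hf.and_eventually (h e he x hx)).exists
  have hzz : z ∈ connectedComponentIn (GC es)ᶜ y := by
    rw [← connectedComponentIn_eq hyz]; exact mem_connectedComponentIn hz
  rcases hy0.lt_or_gt with h1 | h1
  · right; rw [connectedComponentIn_eq (hR h1)]; exact hzz
  · left; rw [connectedComponentIn_eq (hL h1)]; exact hzz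

theorem GJct_vals (hl : Loop es) (hs : Simp es) : ∃ (zL zR : ℂ) (k : ℤ),
    (∀ z, z ∉ GC es →
      z ∈ connectedComponentIn (GC es)ᶜ zL ∨ z ∈ connectedComponentIn (GC es)ᶜ zR) ∧
    (∀ z ∈ connectedComponentIn (GC es)ᶜ zL, wn es z = k) ∧
    (∀ z ∈ connectedComponentIn (GC es)ᶜ zR, wn es z = k - 1) ∧
    (connectedComponentIn (GC es)ᶜ zL).Nonempty ∧
    (connectedComponentIn (GC es)ᶜ zR).Nonempty := by
  obtain ⟨zL, zR, h⟩ := jct_strip hl hs
  obtain ⟨⟨p, q⟩, he⟩ := List.exists_mem_of_ne_nil es hl.ne_nil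
  have hx := GJct_mid p q
  obtain ⟨k, hk⟩ := wn_jump hl hs he hx
  have hd : q - p ≠ 0 := sub_ne_zero.2 (hs.ne he).symm
  obtain ⟨f1, f2⟩ := freq_left hd (GJct_cr_open hx)
  obtain ⟨y1, hy1, ⟨a1, -⟩, b1, -⟩ := (f1.and_eventually (hk.and (h _ he _ hx))).exists
  obtain ⟨y2, hy2, ⟨-, a2⟩, -, b2⟩ := (f2.and_eventually (hk.and (h _ he _ hx))).exists
  have hdis : ∀ w, Disjoint (connectedComponentIn (GC es)ᶜ w) (GC es) := fun w =>
    disjoint_left.2 fun y hy => connectedComponentIn_subset _ _ hy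
  refine ⟨zL, zR, k, fun z hz => jct_two hl hs h hz, fun z hz => ?_, fun z hz => ?_,
    ⟨y1, b1 hy1⟩, ⟨y2, b2 hy2⟩⟩
  · rw [wn_const hl isPreconnected_connectedComponentIn (hdis zL) hz (b1 hy1)]
    exact (a1 hy1).2
  · rw [wn_const hl isPreconnected_connectedComponentIn (hdis zR) hz (b2 hy2)]
    exact (a2 hy2).2

theorem GJct_far (hl : Loop es) : ∃ R : ℝ, ∀ z, z ∉ Metric.closedBall (0 : ℂ) R →
    z ∉ GC es ∧ wn es z = 0 := by
  obtain ⟨R, hR⟩ := (isCompact_GC es).isBounded.subset_closedBall (0 : ℂ)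
  exact ⟨R, fun z hz => ⟨fun h => hz (hR h), wn_zero hl (convex_closedBall _ _) hR hz⟩⟩

theorem GJct_unb {S : Set ℂ} {R : ℝ} (h : ∀ z, z ∉ Metric.closedBall (0 : ℂ) R → z ∈ S) :
    ¬ Bornology.IsBounded S := by
  intro hb
  have : Bornology.IsBounded (univ : Set ℂ) := by
    refine ((Metric.isBounded_closedBall (x := (0 : ℂ)) (r := R)).union hb).subset fun z _ => ?_
    by_cases hz : z ∈ Metric.closedBall (0 : ℂ) R
    · exact Or.inl hz
    · exact Or.inr (h z hz)
  exact NormedSpace.unbounded_univ ℝ ℂ this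

theorem jordan (hl : Loop es) (hs : Simp es) : SP es ∨ SP (es.map Prod.swap) := by
  obtain ⟨zL, zR, k, h2, hL, hR, -, -⟩ := GJct_vals hl hs
  have hv : ∀ z, z ∉ GC es → wn es z = k ∨ wn es z = k - 1 := fun z hz =>
    (h2 z hz).imp (hL z) (hR z)
  obtain ⟨R, hfar⟩ := GJct_far hl
  obtain ⟨z₀, hz₀⟩ : ∃ z₀, z₀ ∉ Metric.closedBall (0 : ℂ) R := by
    by_contra hc
    push Not at hc
    exact GJct_unb (S := ∅) (R := R) (fun z hz => absurd (hc z) hz) Bornology.isBounded_empty
  obtain ⟨hG, h0⟩ := hfar z₀ hz₀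
  rcases hv z₀ hG with h | h
  · right
    refine ⟨hl.swap, hs.swap hl, fun z hz => ?_⟩
    rw [GC_swap] at hz
    rw [wn_swap hz]
    rcases hv z hz with h' | h'
    · left; linarith only [h0, h, h']
    · right; linarith only [h0, h, h']
  · left
    refine ⟨hl, hs, fun z hz => ?_⟩
    rcases hv z hz with h' | h'
    · right; linarith only [h0, h, h']
    · left; linarith only [h0, h, h']

theorem GJct_sp (h : SP es) : ∃ (zL zR : ℂ),
    (∀ z, z ∉ GC es →
      z ∈ connectedComponentIn (GC es)ᶜ zL ∨ z ∈ connectedComponentIn (GC es)ᶜ zR) ∧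
    (∀ z ∈ connectedComponentIn (GC es)ᶜ zL, wn es z = 1) ∧
    (∀ z ∈ connectedComponentIn (GC es)ᶜ zR, wn es z = 0) := by
  obtain ⟨zL, zR, k, h2, hL, hR, ⟨y1, hy1⟩, y2, hy2⟩ := GJct_vals h.loop h.simp
  have a1 := h.pos y1 (connectedComponentIn_subset _ _ hy1)
  have a2 := h.pos y2 (connectedComponentIn_subset _ _ hy2)
  rw [hL y1 hy1] at a1
  rw [hR y2 hy2] at a2
  have hk : (k : ℝ) = 1 := by
    rcases a1 with a1 | a1 <;> rcases a2 with a2 | a2 <;> linarith only [a1, a2]
  refine ⟨zL, zR, h2, fun z hz => by rw [hL z hz, hk], fun z hz => by rw [hR z hz, hk, sub_self]⟩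

theorem SP.conn (h : SP es) : IsPreconnected (IL es) := by
  obtain ⟨zL, zR, h2, hL, hR⟩ := GJct_sp h
  have : IL es = connectedComponentIn (GC es)ᶜ zL := by
    ext z
    constructor
    · rintro ⟨hG, h1⟩
      rcases h2 z hG with h' | h'
      · exact h'
      · rw [hR z h'] at h1; exact absurd h1 zero_ne_one
    · exact fun hz => ⟨connectedComponentIn_subset _ _ hz, hL z hz⟩
  rw [this]
  exact isPreconnected_connectedComponentIn

theorem SP.ins (h : SP es) : IL es = Ins (GC es) := by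
  obtain ⟨zL, zR, h2, hL, hR⟩ := GJct_sp h
  ext z
  constructor
  · intro hz
    refine ⟨hz.1, h.loop.bdd_IL.subset ?_⟩
    exact h.loop.sub isPreconnected_connectedComponentIn
      (disjoint_left.2 fun y hy => connectedComponentIn_subset _ _ hy)
      (mem_connectedComponentIn hz.1) hz
  · rintro ⟨hG, hb⟩
    rcases h2 z hG with h' | h'
    · exact ⟨hG, hL z h'⟩
    · exfalso
      obtain ⟨R, hfar⟩ := GJct_far h.loop
      refine GJct_unb (R := R) (fun y hy => ?_) hb
      obtain ⟨hyG, hy0⟩ := hfar y hy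
      rw [← connectedComponentIn_eq h']
      rcases h2 y hyG with h'' | h''
      · rw [hL y h''] at hy0; exact absurd hy0 one_ne_zero
      · exact h''

end Pool.Agent.Work.MP_267827_an.PS
end

-- merged part: Pool.Agent.Work.MP_267827_an.PS.GCorner
section
/-! Local structure of a simple positively oriented polygon (skeleton helper49).

Plan.
`near_vertex`: the other edges form a closed set that does not contain `p` (`Simp.vert_seg`,
`Simp.out_eq`, `Simp.in_eq`).
`SP.side`: `wn_jump` gives `k`; both `k` and `k - 1` are values of `wn` (`freq_left`), hence in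
`{0, 1}`, so `k = 1`.
`half_in`/`half_out`: a convex set `S` disjoint from the curve; `wn` is constant on it
(`wn_const`); it contains a point to the left (right) of the edge close to `x` (apply `SP.side` and
`Filter.Eventually.exists` / `Frequently.and_eventually`).
`corner_left`: take a ball `B` around `p` that meets only the two edges, `S = B ∩ left of both`.
It is convex and misses the curve.  If the turn is to the left or straight, take `x` on the open
edge `p q` inside `B`: points near `x` on the left of `p q` are left of `o p` too when the turn is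
strictly left (`x` is strictly left of `o p`); in the straight case both conditions coincide
(`Simp.straight`).  If the turn is to the right use `corner_right`.
`corner_right`: `S = B ∩ left of p q` misses the edge `o p`, because its points `p - t (p - o)` have
`cr (q - p) (-(t (p - o))) = t * cr (p - o) (q - p) ≤ 0`.
`corner_out`: for a left or straight turn `B ∩ right of p q` and `B ∩ right of o p` miss the curve
and have winding number zero; a point of the open set `IL es` with cross product zero has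
neighbours with negative cross product (`freq_left`).
`first_hit`: the least `t ∈ [0, 1]` with `p + t (q - p) ∈ Γ` (`IsCompact.exists_isLeast`).
`SP.shoot`: take `t₀` from the hypothesis; far points of the ray are not in the bounded set
`IL es`, so the segment from `p + t₀ d` to a far point meets the curve (`SP.sub`); take the least
`t ≥ t₀` on the curve. -/

set_option autoImplicit false

namespace Pool.Agent.Work.MP_267827_an.PS

open MeasureTheory Set Filter Topology Real

variable {es : List (ℂ × ℂ)}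

theorem GCorner_freq {a b p : ℂ} (hp : p ∈ segment ℝ a b) {Q : ℂ → Prop}
    (h : ∀ x ∈ openSegment ℝ a b, ∃ᶠ z in 𝓝 x, Q z) : ∃ᶠ z in 𝓝 p, Q z :=
  mem_closure_iff_frequently.1 (closure_minimal (t := closure {z | Q z})
    (fun x hx => mem_closure_iff_frequently.2 (h x hx)) isClosed_closure
    (segment_subset_closure_openSegment hp))

theorem GCorner_key (h : Loop es) {S : Set ℂ} (hS : Convex ℝ S) {p : ℂ} {c : ℝ}
    (h1 : ∀ᶠ z in 𝓝 p, z ∈ S → z ∉ GC es) (h2 : ∃ᶠ z in 𝓝 p, z ∈ S ∧ wn es z = c) :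
    ∀ᶠ z in 𝓝 p, z ∈ S → z ∉ GC es ∧ wn es z = c := by
  obtain ⟨ε, hε, hb⟩ := Metric.eventually_nhds_iff_ball.1 h1
  obtain ⟨x, ⟨x1, x2⟩, x3⟩ := (h2.and_eventually (Metric.ball_mem_nhds p hε)).exists
  filter_upwards [Metric.ball_mem_nhds p hε] with z hz hz'
  exact ⟨hb z hz hz', (wn_const h ((convex_ball p ε).inter hS).isPreconnected
    (disjoint_left.2 fun w hw => hb w hw.1 hw.2) ⟨hz, hz'⟩ ⟨x3, x1⟩).trans x2⟩

theorem GCorner_gt (d p : ℂ) : Convex ℝ {z | 0 < cr d (z - p)} := by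
  simpa only [cr_sub_right, sub_pos] using convex_halfSpace_gt (f := cr d)
    ⟨cr_add_right d, fun s z => cr_smul_right s d z⟩ (cr d p)

theorem GCorner_lt (d p : ℂ) : Convex ℝ {z | cr d (z - p) < 0} := by
  simpa only [cr_sub_right, sub_neg] using convex_halfSpace_lt (f := cr d)
    ⟨cr_add_right d, fun s z => cr_smul_right s d z⟩ (cr d p)

theorem GCorner_out {o p q z : ℂ} (hz : z ∈ segment ℝ p q) : cr (q - p) (z - p) = 0 ∧
    ∃ t, 0 ≤ t ∧ cr (p - o) (z - p) = t * cr (p - o) (q - p) := by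
  obtain ⟨t, h0, -, rfl⟩ := mem_segment_iff'.1 hz
  rw [add_sub_cancel_left, cr_mul_right, cr_mul_right, cr_self, mul_zero]
  exact ⟨rfl, t, h0, rfl⟩

theorem GCorner_inn {o p q z : ℂ} (hz : z ∈ segment ℝ o p) : cr (p - o) (z - p) = 0 ∧
    ∃ t, 0 ≤ t ∧ cr (q - p) (z - p) = t * cr (p - o) (q - p) := by
  obtain ⟨t, -, h1, rfl⟩ := mem_segment_iff'.1 hz
  have e : o + t * (p - o) - p = ((t - 1 : ℝ) : ℂ) * (p - o) := by
    push_cast
    ring
  rw [e, cr_mul_right, cr_mul_right, cr_self, mul_zero, cr_swap (q - p)]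
  exact ⟨rfl, 1 - t, sub_nonneg.2 h1, by ring⟩

theorem GCorner_pos {d p z : ℂ} (hd : d ≠ 0) (h : ∀ᶠ w in 𝓝 z, 0 ≤ cr d (w - p)) :
    0 < cr d (z - p) :=
  h.self_of_nhds.lt_of_ne fun e => by
    obtain ⟨w, w1, w2⟩ := ((freq_left hd e.symm).2.and_eventually h).exists
    exact w1.not_ge w2

theorem SP.corner_right (h : SP es) {o p q : ℂ} (h1 : (o, p) ∈ es) (h2 : (p, q) ∈ es)
    (hc : cr (p - o) (q - p) < 0) : ∀ᶠ z in 𝓝 p, 0 < cr (q - p) (z - p) → z ∈ IL es := by
  have hd : q - p ≠ 0 := sub_ne_zero.2 (h.simp.ne h2).symm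
  refine GCorner_key h.loop (GCorner_gt (q - p) p) ?_
    (GCorner_freq (left_mem_segment ℝ p q) fun x hx => ?_)
  · filter_upwards [near_vertex h.loop h.simp h1 h2] with z hz (h0 : 0 < cr _ _) hG
    rcases hz hG with k | k
    · obtain ⟨-, t, ht, e⟩ := GCorner_inn (q := q) k
      exact h0.not_ge (e ▸ mul_nonpos_of_nonneg_of_nonpos ht hc.le)
    · exact h0.ne' (GCorner_out (o := o) k).1
  · exact ((freq_left hd (GCorner_out (o := o) (openSegment_subset_segment ℝ p q hx)).1).1.and_eventually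
      (h.side h2 hx)).mono fun z hz => ⟨hz.1, (hz.2.1 hz.1).2⟩

theorem SP.corner_left (h : SP es) {o p q : ℂ} (h1 : (o, p) ∈ es) (h2 : (p, q) ∈ es) :
    ∀ᶠ z in 𝓝 p, 0 < cr (p - o) (z - p) → 0 < cr (q - p) (z - p) → z ∈ IL es := by
  rcases lt_or_ge (cr (p - o) (q - p)) 0 with hc | hc
  · exact (h.corner_right h1 h2 hc).mono fun z hz _ => hz
  have hd : q - p ≠ 0 := sub_ne_zero.2 (h.simp.ne h2).symm
  refine (GCorner_key h.loop ((GCorner_gt (p - o) p).inter (GCorner_gt (q - p) p)) (c := 1) ?_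
    (GCorner_freq (left_mem_segment ℝ p q) fun x hx => ?_)).mono fun z hz a b => hz ⟨a, b⟩
  · filter_upwards [near_vertex h.loop h.simp h1 h2] with z hz h0 hG
    rcases hz hG with k | k
    · exact LT.lt.ne' h0.1 (GCorner_inn (q := q) k).1
    · exact LT.lt.ne' h0.2 (GCorner_out (o := o) k).1
  have h3 : ∀ᶠ z in 𝓝 x, 0 < cr (q - p) (z - p) → 0 < cr (p - o) (z - p) := by
    rcases hc.lt_or_eq with hc | hc
    · obtain ⟨t, ht, -, e⟩ := mem_openSegment_iff'.1 hx
      have h4 : 0 < cr (p - o) (x - p) := by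
        rw [e, add_sub_cancel_left, cr_mul_right]
        exact mul_pos ht hc
      have h5 : Continuous fun z => cr (p - o) (z - p) := by fun_prop
      exact (h5.continuousAt.eventually (lt_mem_nhds h4)).mono fun z hz _ => hz
    · obtain ⟨r, hr, e⟩ := h.simp.straight h.loop h1 h2 hc.symm
      refine Eventually.of_forall fun z hz => ?_
      rw [e, cr_mul_left] at hz
      exact (mul_pos_iff_of_pos_left hr).1 hz
  exact ((freq_left hd (GCorner_out (o := o) (openSegment_subset_segment ℝ p q hx)).1).1.and_eventually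
    ((h.side h2 hx).and h3)).mono fun z hz => ⟨⟨hz.2.2 hz.1, hz.1⟩, (hz.2.1.1 hz.1).2⟩

theorem SP.corner_in (h : SP es) {o p q : ℂ} (h1 : (o, p) ∈ es) (h2 : (p, q) ∈ es)
    (hc : 0 ≤ cr (p - o) (q - p)) :
    ∀ᶠ z in 𝓝 p, z ∈ IL es → 0 < cr (p - o) (z - p) ∧ 0 < cr (q - p) (z - p) := by
  have hd : q - p ≠ 0 := sub_ne_zero.2 (h.simp.ne h2).symm
  have hd' : p - o ≠ 0 := sub_ne_zero.2 (h.simp.ne h1).symm
  have e : ∀ z, cr (p - o) (z - o) = cr (p - o) (z - p) := fun z => by
    rw [← sub_add_sub_cancel z p o, cr_add_right, cr_self, add_zero]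
  have k1 := GCorner_key h.loop (GCorner_lt (p - o) p) (c := 0) (by
      filter_upwards [near_vertex h.loop h.simp h1 h2] with z hz (h0 : cr _ _ < 0) hG
      rcases hz hG with k | k
      · exact h0.ne (GCorner_inn (q := q) k).1
      · obtain ⟨-, t, ht, e⟩ := GCorner_out (o := o) k
        exact h0.not_ge (e ▸ mul_nonneg ht hc))
    (GCorner_freq (right_mem_segment ℝ o p) fun x hx =>
      ((freq_left hd' (GCorner_inn (q := q) (openSegment_subset_segment ℝ o p hx)).1).2.and_eventually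
        (h.side h1 hx)).mono fun z hz => ⟨hz.1, (hz.2.2 ((e z).trans_lt hz.1)).2⟩)
  have k2 := GCorner_key h.loop (GCorner_lt (q - p) p) (c := 0) (by
      filter_upwards [near_vertex h.loop h.simp h1 h2] with z hz (h0 : cr _ _ < 0) hG
      rcases hz hG with k | k
      · obtain ⟨-, t, ht, e⟩ := GCorner_inn (q := q) k
        exact h0.not_ge (e ▸ mul_nonneg ht hc)
      · exact h0.ne (GCorner_out (o := o) k).1)
    (GCorner_freq (left_mem_segment ℝ p q) fun x hx =>
      ((freq_left hd (GCorner_out (o := o) (openSegment_subset_segment ℝ p q hx)).1).2.and_eventually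
        (h.side h2 hx)).mono fun z hz => ⟨hz.1, (hz.2.2 hz.1).2⟩)
  filter_upwards [k1.eventually_nhds, k2.eventually_nhds] with z z1 z2 hz
  have hI := h.loop.isOpen_IL.mem_nhds hz
  constructor
  · refine GCorner_pos hd' ?_
    filter_upwards [z1, hI] with w w1 w2
    exact not_lt.1 fun k => zero_ne_one ((w1 k).2.symm.trans w2.2)
  · refine GCorner_pos hd ?_
    filter_upwards [z2, hI] with w w1 w2
    exact not_lt.1 fun k => zero_ne_one ((w1 k).2.symm.trans w2.2)

/-- a point seen from a convex vertex lies to the left of both edges -/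
theorem SP.corner_out (h : SP es) {o p q x : ℂ} (h1 : (o, p) ∈ es) (h2 : (p, q) ∈ es)
    (hc : 0 ≤ cr (p - o) (q - p)) (hf : Free es p x) :
    0 < cr (p - o) (x - p) ∧ 0 < cr (q - p) (x - p) := by
  obtain ⟨z, z1, z2⟩ := ((mem_closure_iff_frequently.1 (segment_subset_closure_openSegment
    (left_mem_segment ℝ p x))).and_eventually (h.corner_in h1 h2 hc)).exists
  obtain ⟨k1, k2⟩ := z2 (hf z1)
  obtain ⟨t, ht, -, rfl⟩ := mem_openSegment_iff'.1 z1
  rw [add_sub_cancel_left, cr_mul_right] at k1 k2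
  exact ⟨(mul_pos_iff_of_pos_left ht).1 k1, (mul_pos_iff_of_pos_left ht).1 k2⟩

end Pool.Agent.Work.MP_267827_an.PS
end

-- merged part: Pool.Agent.Work.MP_267827_an.PS.GIns
section
/-! The winding number of a closed polygon (skeleton helper49).

Plan.
`slit_of_not_seg`: if `(b - z) / (a - z)` is a real number `r ≤ 0` then `b - z = r (a - z)`, so
`z = (b - r a) / (1 - r)` lies on the segment.
`wn_int`: `exp (i ∑ arg w_e) = ∏ w_e / ‖w_e‖` with `w_e = (e.2 - z) / (e.1 - z)`; the product of the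
`w_e` is one because the targets are a permutation of the sources (`Loop.snd_perm`); or work in
`Real.Angle` with `Complex.arg_div_coe_angle` and `Real.Angle.coe_eq_zero_iff`-type lemmas.
`wn_const`: an integer valued continuous function on a preconnected set
(`IsPreconnected.constant` after composing with a floor, or the intermediate value theorem).
`wn_zero`: pick a vertex `a ∈ C`, `d = z - a`; the ray `z + t d` misses `C` (otherwise `z` lies on
the segment from `a` to a point of `C`); `wn` is constant on the ray and tends to `0`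
(every quotient tends to `1`).
`wn_pos`: every `arg` is positive since the imaginary part of the quotient is positive
(`div_im_cr`, `cr (e.1 - z) (e.2 - z) = cr (e.2 - e.1) (z - e.1)`).
`wn_jump`: `es ~ e :: es'` with `e ∉ es'`; `x ∉ GC es'` (`Simp.open_seg`), so `wn es'` is continuous
at `x`; the term of `e` tends to `1 / 2` from the left and to `-1 / 2` from the right
(`Complex.tendsto_arg_nhdsWithin_im_nonneg_of_re_neg_of_im_zero` and the `im_neg` version, or write
`arg w = arg (-w) ± π`); the values of `wn es` are integers, so near `x` they are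
`wn es' x + 1 / 2` on the left and `wn es' x - 1 / 2` on the right.  Points on the left and on the
right exist arbitrarily close to `x` (`freq_left`).
`wn_split`: `arg ((q - z) / (p - z)) = arg ((x - z) / (p - z)) + arg ((q - z) / (x - z))` off the
segment: both terms on the right have the sign of `cr (q - p) (z - p)` (or vanish); one way: the
triangle loop `[(p, x), (x, q), (q, p)]` has winding number zero off the convex set
`segment p q` (`wn_zero`) and `wn_swap`. -/

set_option autoImplicit false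

namespace Pool.Agent.Work.MP_267827_an.PS

open MeasureTheory Set Filter Topology Real

/-! ### new vertices and mirror images -/

theorem GIns_conj (S : Set ℂ) (z : ℂ) :
    (starRingEnd ℂ) z ∈ (starRingEnd ℂ) '' S ↔ z ∈ S :=
  (starRingEnd ℂ).injective.mem_set_image

theorem GIns_union {p q x : ℂ} (hx : x ∈ segment ℝ p q) :
    segment ℝ p x ∪ segment ℝ x q = segment ℝ p q := by
  apply Subset.antisymm
  · exact union_subset ((convex_segment p q).segment_subset (left_mem_segment _ _ _) hx)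
      ((convex_segment p q).segment_subset hx (right_mem_segment _ _ _))
  · intro z hz
    obtain ⟨s, hs, hs1, rfl⟩ := mem_segment_iff'.1 hx
    obtain ⟨t, ht, ht1, rfl⟩ := mem_segment_iff'.1 hz
    rcases le_total t s with h | h
    · left
      rcases hs.eq_or_lt with h0 | h0
      · have : t = 0 := by linarith only [ht, h, h0]
        rw [this]; simpa using left_mem_segment ℝ p _
      · have hne : (s : ℂ) ≠ 0 := by exact_mod_cast h0.ne'
        refine mem_segment_iff'.2 ⟨t / s, div_nonneg ht hs, (div_le_one h0).2 h, ?_⟩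
        push_cast; field_simp; ring
    · right
      rcases hs1.eq_or_lt with h0 | h0
      · have : t = 1 := by linarith only [h, h0, ht1]
        rw [this]; simpa using right_mem_segment ℝ _ q
      · have h1 : 0 < 1 - s := by linarith
        have hne : (1 - s : ℂ) ≠ 0 := by exact_mod_cast h1.ne'
        refine mem_segment_iff'.2 ⟨(t - s) / (1 - s), div_nonneg (by linarith) h1.le,
          (div_le_one h1).2 (by linarith), ?_⟩
        push_cast; field_simp; ring

theorem GIns_wn {es : List (ℂ × ℂ)} {p q x z : ℂ} (hx : x ∈ segment ℝ p q)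
    (hz : z ∉ GC ((p, q) :: es)) : wn ((p, x) :: (x, q) :: es) z = wn ((p, q) :: es) z := by
  have h1 : z ∉ segment ℝ p q := fun h => hz ⟨(p, q), List.mem_cons_self, h⟩
  have := wn_append [(p, x), (x, q)] es z
  rw [wn_split hx h1, ← wn_append] at this
  exact this

theorem IL_mir (es : List (ℂ × ℂ)) : IL (es.map mirE) = (starRingEnd ℂ) '' IL es := by
  ext z
  obtain ⟨w, rfl⟩ : ∃ w, z = (starRingEnd ℂ) w := ⟨(starRingEnd ℂ) z, by simp⟩
  rw [GIns_conj]
  simp only [IL, mem_setOf_eq]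
  rw [GC_mir, GIns_conj, wn_mir]

theorem SP.mir {es : List (ℂ × ℂ)} (h : SP es) : SP (es.map mirE) := by
  refine ⟨h.loop.mir, h.simp.mir h.loop, fun z hz => ?_⟩
  obtain ⟨w, rfl⟩ : ∃ w, z = (starRingEnd ℂ) w := ⟨(starRingEnd ℂ) z, by simp⟩
  rw [GC_mir, GIns_conj] at hz
  rw [wn_mir]
  exact h.pos w hz

theorem GC_insert {es : List (ℂ × ℂ)} {p q x : ℂ} (hx : x ∈ segment ℝ p q) :
    GC ((p, x) :: (x, q) :: es) = GC ((p, q) :: es) := by
  rw [GC_cons, GC_cons, GC_cons, ← union_assoc, GIns_union hx]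

theorem IL_insert {es : List (ℂ × ℂ)} {p q x : ℂ} (hx : x ∈ segment ℝ p q) :
    IL ((p, x) :: (x, q) :: es) = IL ((p, q) :: es) := by
  ext z
  simp only [IL, mem_setOf_eq]
  rw [GC_insert hx]
  exact and_congr_right fun hz => by rw [GIns_wn hx hz]

theorem sh_insert {es : List (ℂ × ℂ)} {p q x : ℂ} (hx : x ∈ segment ℝ p q) :
    sh ((p, x) :: (x, q) :: es) = sh ((p, q) :: es) := by
  obtain ⟨s, -, -, rfl⟩ := mem_segment_iff'.1 hx
  rw [sh_cons, sh_cons, sh_cons, ← add_assoc]
  congr 1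
  simp [cr]; ring

/-- `Loop`: `(p, q) ∈ Ed L` gives `L = l₁ ++ p :: q :: l₂` (`mem_Ed`), replace it by
`l₁ ++ p :: x :: q :: l₂` and cancel with `List.Perm.cons_inv`.  `Simp`: `x` is no vertex and lies on
no other edge; the two new open segments are disjoint parts of the old one. -/
theorem SP.insert {es : List (ℂ × ℂ)} {p q x : ℂ} (h : SP ((p, q) :: es))
    (hx : x ∈ openSegment ℝ p q) : SP ((p, x) :: (x, q) :: es) := by
  have hpq : (p, q) ∈ (p, q) :: es := List.mem_cons_self
  have hxs : x ∈ segment ℝ p q := openSegment_subset_segment ℝ p q hx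
  have hnd := List.nodup_cons.1 h.simp.nodup'
  have hne : ∀ f ∈ es, (p, q) ≠ f := fun f hf he => hnd.1 (he ▸ hf)
  have hxf : ∀ f ∈ es, x ∉ segment ℝ f.1 f.2 := fun f hf =>
    h.simp.open_seg h.loop hpq (List.mem_cons_of_mem _ hf) (hne f hf) hx
  have hpq' : q - p ≠ 0 := sub_ne_zero.2 (h.simp.ne hpq).symm
  have hxp : p ≠ x := fun he => h.simp.vert _ hpq _ hpq (by simpa [he] using hx)
  have hxq : x ≠ q := fun he => h.simp.vert_snd h.loop hpq hpq (by simpa [← he] using hx)
  obtain ⟨s, hs, hs1, hxe⟩ := mem_openSegment_iff'.1 hx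
  have r1 : ∀ z ∈ openSegment ℝ p x, ∃ t : ℝ, 0 < t ∧ t < s ∧ z = p + t * (q - p) := by
    intro z hz
    obtain ⟨t, ht, ht1, rfl⟩ := mem_openSegment_iff'.1 hz
    exact ⟨t * s, mul_pos ht hs, by linarith only [hs, ht1, mul_pos_of_neg_of_neg (Mathlib.Tactic.Linarith.sub_neg_of_lt hs) (Mathlib.Tactic.Linarith.sub_neg_of_lt ht1)], by rw [hxe]; push_cast; ring⟩
  have r2 : ∀ z ∈ openSegment ℝ x q, ∃ t : ℝ, s < t ∧ t < 1 ∧ z = p + t * (q - p) := by
    intro z hz
    obtain ⟨t, ht, ht1, rfl⟩ := mem_openSegment_iff'.1 hz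
    exact ⟨s + t * (1 - s), by nlinarith, by nlinarith, by rw [hxe]; push_cast; ring⟩
  have s1 : openSegment ℝ p x ⊆ openSegment ℝ p q := fun z hz => by
    obtain ⟨t, a, b, c⟩ := r1 z hz
    exact mem_openSegment_iff'.2 ⟨t, a, by linarith, c⟩
  have s2 : openSegment ℝ x q ⊆ openSegment ℝ p q := fun z hz => by
    obtain ⟨t, a, b, c⟩ := r2 z hz
    exact mem_openSegment_iff'.2 ⟨t, by linarith, b, c⟩
  have d12 : Disjoint (openSegment ℝ p x) (openSegment ℝ x q) := by
    refine disjoint_left.2 fun z h1 h2 => ?_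
    obtain ⟨t, -, b, c⟩ := r1 z h1
    obtain ⟨t', a', -, c'⟩ := r2 z h2
    have : (t : ℂ) = t' := mul_right_cancel₀ hpq' (by linear_combination c' - c)
    have : t = t' := by exact_mod_cast this
    linarith
  have dq : ∀ f ∈ es, Disjoint (openSegment ℝ p q) (openSegment ℝ f.1 f.2) := fun f hf =>
    h.simp.disj _ hpq _ (List.mem_cons_of_mem _ hf) (hne f hf)
  refine ⟨?_, ⟨?_, ?_, ?_⟩, fun z hz => ?_⟩
  · obtain ⟨l, hl⟩ := h.loop.rotate (p := p) (List.mem_map.2 ⟨_, hpq, rfl⟩)
    obtain ⟨q', m, hm⟩ : ∃ q' m, l ++ [p] = q' :: m := by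
      cases l with
      | nil => exact ⟨_, _, rfl⟩
      | cons b l => exact ⟨_, _, rfl⟩
    rw [List.cons_append, hm, Ed_cons] at hl
    have hq : q = q' := h.simp.out_eq hpq (hl.mem_iff.2 List.mem_cons_self)
    subst hq
    refine ⟨p, x :: l, ?_⟩
    rw [List.cons_append, List.cons_append, hm, Ed_cons, Ed_cons]
    exact (hl.cons_inv.cons _).cons _
  · have hn := h.simp.nodup
    simp only [List.map_cons, List.nodup_cons, List.mem_cons, not_or] at hn ⊢
    refine ⟨⟨hxp, hn.1⟩, fun hm => ?_, hn.2⟩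
    obtain ⟨f, hf, hfx⟩ := List.mem_map.1 hm
    exact hxf f hf (hfx ▸ left_mem_segment ℝ _ _)
  · have old : ∀ e ∈ (p, x) :: (x, q) :: es, ∀ f ∈ (p, q) :: es,
        f.1 ∉ openSegment ℝ e.1 e.2 := by
      intro e he f hf hm
      rcases List.mem_cons.1 he with rfl | he
      · exact h.simp.vert _ hpq f hf (s1 hm)
      rcases List.mem_cons.1 he with rfl | he
      · exact h.simp.vert _ hpq f hf (s2 hm)
      exact h.simp.vert _ (List.mem_cons_of_mem _ he) f hf hm
    intro e he f hf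
    rcases List.mem_cons.1 hf with rfl | hf
    · exact old e he (p, q) hpq
    rcases List.mem_cons.1 hf with rfl | hf
    · intro hm
      rcases List.mem_cons.1 he with rfl | he
      · exact hxp (right_mem_openSegment_iff.1 hm)
      rcases List.mem_cons.1 he with rfl | he
      · exact hxq (left_mem_openSegment_iff.1 hm)
      exact hxf e he (openSegment_subset_segment ℝ _ _ hm)
    exact old e he f (List.mem_cons_of_mem _ hf)
  · intro e he f hf hef
    rcases List.mem_cons.1 he with rfl | he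
    · rcases List.mem_cons.1 hf with rfl | hf
      · exact absurd rfl hef
      rcases List.mem_cons.1 hf with rfl | hf
      · exact d12
      exact (dq f hf).mono_left s1
    rcases List.mem_cons.1 he with rfl | he
    · rcases List.mem_cons.1 hf with rfl | hf
      · exact d12.symm
      rcases List.mem_cons.1 hf with rfl | hf
      · exact absurd rfl hef
      exact (dq f hf).mono_left s2
    rcases List.mem_cons.1 hf with rfl | hf
    · exact ((dq e he).mono_left s1).symm
    rcases List.mem_cons.1 hf with rfl | hf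
    · exact ((dq e he).mono_left s2).symm
    exact h.simp.disj _ (List.mem_cons_of_mem _ he) _ (List.mem_cons_of_mem _ hf) hef
  · rw [GC_insert hxs] at hz
    rw [GIns_wn hxs hz]
    exact h.pos z hz

end Pool.Agent.Work.MP_267827_an.PS
end
end
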