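import Pool.Agent.Work.MP_267827_an.PS.GTopA
import Pool.Agent.Work.MP_267827_an.Transfer
import Pool.Agent.Work.MP_267827_an.PS.AUp
import Pool.Agent.Work.MP_267827_an.PS.GIns
import Pool.Agent.Work.MP_267827_an.Srt.SJ
import Pool.Agent.Work.MP_267827_an.PS.WN
import Pool.Agent.Work.MP_267827_an.PS.AWin

-- merged part: Pool.Agent.Work.MP_267827_an.PS.GFinal
section
-- merged part: Pool.Agent.Work.MP_267827_an.PS.GTop
section
/-! The first cuts of a polygon (skeleton helper49).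

`peel`: if `l = []` the new list is a permutation of `es`.  Otherwise `cut1` along `b a`; the pocket is
the piece with chain `a :: l ++ [b]`, wall `[b, a]` (`Wall.pair`, `dirn_eq`) and budget
`g π - Dm > 0`, hence `HS` (`Piece.res`, `Res.hs`); `Cut.hs`, `Cut.free`.
`Dm_add`: the shoelace sums add up and the two copies of the diagonal cancel.
`top_two`: `cut1`; both pieces have straight walls `[b, a]` in `[ψ, ψ]` and `[a, b]` in
`[ψ + π, ψ + π]` and budget zero.  If both are rigid, `RigC.append` closes up.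
`top_vertex`: peel the chain from `a` to `b`, then the chain from `c` to `a` (free in the new polygon
by the last clause of `peel` with `p = c`; `not_mem_GC_sub`).  What is left is the piece with chain
`b :: l₂ ++ [c]` and wall `[c, a, b]` (`wall_two`), whose budget is `Gt g lam D₂ b c a ≥ 0`.  If
`l₁ = l₃ = []` then `D₁ = D₃ = 2 κ` and `Gt ≤ g π - (2 π g - 4 κ) < 0` by `Cst.big`.
`top_tripod`: `cut2` along `b, O, a` (`tri_seg`), then `cut1` along `c O` in the second part, where `O`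
is now a vertex (`Cut.free` with `p = c`).  Three pieces with walls `[b, O, a]`, `[c, O, b]`,
`[a, O, c]` (`wall_two`) and budgets `Gt = 0`.  If all are rigid the directions match because
`ei hi` of one piece is `-ei lo` of the previous one.
`top_sink`: the three vertex cases (permute the chains) or `tripod`.
`walk`: induction on `l₂.length`.  `peel` gives `Q₂ = (a, b) :: Ed (b :: l₂ ++ [a])`; `tri_of_edge` gives
`c ∈ l₂`, `l₂ = l' ++ c :: l''`; `(b, c) ∈ Q₂` forces `l' = []`, `(c, a) ∈ Q₂` forces `l'' = []`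
(`Simp.out_eq`, `Nodup` of the sources).  Compare `Dm` of the chains `b :: l' ++ [c]` and
`c :: l'' ++ [a]` with `g π` (a one edge chain has `Dm = 2 κ < g π`): larger: go on with that chain as
the second one (`Dm_add`), equal: `top_two`, both smaller: `top_sink`.
`top`: take any edge `(a, b)`, rotate the loop to `a` (`Loop.rotate`, `Simp.out_eq`,
`Loop.three_le`), `walk` with `l₁ = []`. -/

set_option autoImplicit false

namespace Pool.Agent.Work.MP_267827_an.PS

open MeasureTheory Set Filter Topology Real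

variable {n : ℕ} {g κ lam s₀ : ℝ} {D : Set ℂ} {es r : List (ℂ × ℂ)} {a b c O : ℂ}
  {l l₁ l₂ l₃ : List ℂ}

theorem GTop_fst (x y : ℂ) (m : List ℂ) : (Ed (x :: m ++ [y])).map Prod.fst = x :: m := by
  rw [Ed_fst, List.dropLast_concat]

theorem GTop_snd (x y : ℂ) (m : List ℂ) : (Ed (x :: m ++ [y])).map Prod.snd = m ++ [y] := by
  rw [Ed_snd]; rfl

theorem GTop_Ed2 (x y z : ℂ) (m m' : List ℂ) :
    Ed (x :: (m ++ y :: m') ++ [z]) = Ed (x :: m ++ [y]) ++ Ed (y :: m' ++ [z]) := by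
  have : x :: (m ++ y :: m') ++ [z] = (x :: m) ++ y :: (m' ++ [z]) := by simp
  rw [this, Ed_append]; rfl

theorem GTop_nseg {p q O : ℂ} (h : cr (p - O) (q - O) ≠ 0) : p ∉ segment ℝ q O := by
  intro hp
  obtain ⟨t, -, -, ht⟩ := mem_segment_iff'.1 hp
  apply h
  have : p - O = ((1 - t : ℝ) : ℂ) * (q - O) := by rw [ht]; push_cast; ring
  rw [this, cr_mul_left, cr_self, mul_zero]

theorem GTop_disj {p q O : ℂ} (h : cr (p - O) (q - O) ≠ 0) :
    Disjoint (openSegment ℝ p O) (segment ℝ q O) := by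
  rw [Set.disjoint_left]
  intro z hz hz'
  obtain ⟨s, -, hs, hs'⟩ := mem_openSegment_iff'.1 hz
  refine GTop_nseg (p := z) ?_ hz'
  have : z - O = ((1 - s : ℝ) : ℂ) * (p - O) := by rw [hs']; push_cast; ring
  rw [this, cr_mul_left]
  exact mul_ne_zero (by linarith) h

/-- the direction in which the chain leaves `x` -/
noncomputable def GTop_dir (n : ℕ) (O x : ℂ) : ℂ :=
  (x - O) / (‖x - O‖ : ℝ) * ei (π / 2 + π / n)

theorem GTop_piece (hC : Cst n g κ lam s₀) {x y : ℂ} {m : List ℂ}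
    (hs : SP (Ed (x :: m ++ [y]) ++ Ed [y, O, x])) (hc : 0 < cr (O - y) (x - O))
    (hD : GC (Ed (x :: m ++ [y])) ⊆ D)
    (hG : Gt g lam (Dm κ lam (x :: m ++ [y]) x y) x y O = 0) :
    HS D (IL (Ed (x :: m ++ [y]) ++ Ed [y, O, x])) lam ∨
      (Low D (IL (Ed (x :: m ++ [y]) ++ Ed [y, O, x])) lam ∧ (∃ ϑ : ℝ, ei ϑ = GTop_dir n O x) ∧
        RigC n s₀ (GTop_dir n O x) (x :: m ++ [y]) (GTop_dir n O y)) := by
  obtain ⟨lo, hw, h1, h2⟩ := wall_two hc
  have hP : Piece D (x :: m ++ [y]) [y, O, x] lo (lo + Complex.arg ((x - O) / (O - y))) :=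
    ⟨hs, by simp, by simp, by simp, List.getLast?_concat, hw, hD⟩
  have hF : Fv g κ lam (x :: m ++ [y]) [y, O, x] lo (lo + Complex.arg ((x - O) / (O - y))) = 0 := by
    rw [← hG]
    unfold Fv Gt Dm
    rw [sh_append, sh_append]
    simp only [Ed, sh_cons, sh_nil, cr, Complex.sub_re, Complex.sub_im]
    ring
  have hx : x - O ≠ 0 := by
    intro h0
    rw [h0, cr_zero_right] at hc
    exact lt_irrefl _ hc
  have hy : O - y ≠ 0 := by
    intro h0
    rw [h0, cr_zero_left] at hc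
    exact lt_irrefl _ hc
  have hx' : ((‖x - O‖ : ℝ) : ℂ) ≠ 0 := by exact_mod_cast norm_ne_zero_iff.2 hx
  have hy' : ((‖O - y‖ : ℝ) : ℂ) ≠ 0 := by exact_mod_cast norm_ne_zero_iff.2 hy
  have e1 : ei (lo + Complex.arg ((x - O) / (O - y)) + π / 2 + π / n) = GTop_dir n O x := by
    unfold GTop_dir
    rw [add_assoc, ei_add, eq_comm]
    congr 1
    rw [div_eq_iff hx', mul_comm]
    exact h2
  have e2 : ei (lo - π / 2 + π / n) = GTop_dir n O y := by
    unfold GTop_dir
    have : lo - π / 2 + π / n = lo - π + (π / 2 + π / n) := by ring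
    rw [this, ei_add, ei_sub_pi, eq_comm, norm_sub_rev y O]
    congr 1
    rw [div_eq_iff hy']
    linear_combination -h1
  rcases hP.res hC hF.ge with h | ⟨h, -, hr⟩
  · exact Or.inl h
  · rw [e1, e2] at hr
    exact Or.inr ⟨h, ⟨_, e1⟩, hr⟩

theorem GTop_two (hC : Cst n g κ lam s₀) : 2 * κ < g * π := by
  have h1 := hC.big
  have h2 : (5 : ℝ) ≤ n := by exact_mod_cast hC.hn
  linarith only [h1, hC, h2, hC.hκ, mul_nonneg_of_nonpos_of_nonpos (Mathlib.Tactic.Linarith.sub_nonpos_of_le h2) (le_of_lt (Mathlib.Tactic.Linarith.sub_neg_of_lt hC.hκ))]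

theorem top_tripod (hC : Cst n g κ lam s₀) (h : SP es)
    (hp : es.Perm (Ed (a :: l₁ ++ [b]) ++ Ed (b :: l₂ ++ [c]) ++ Ed (c :: l₃ ++ [a])))
    (hc : 0 < cr (b - a) (c - a)) (hL : Lft [(a, b), (b, c), (c, a)] ⊆ IL es)
    (hO : O ∈ Lft [(a, b), (b, c), (c, a)])
    (g1 : Gt g lam (Dm κ lam (a :: l₁ ++ [b]) a b) a b O = 0)
    (g2 : Gt g lam (Dm κ lam (b :: l₂ ++ [c]) b c) b c O = 0)
    (g3 : Gt g lam (Dm κ lam (c :: l₃ ++ [a]) c a) c a O = 0) : TopRes n lam s₀ es := by
  have hc' : 0 < cr (b - a) (c - b) := by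
    have : cr (b - a) (c - b) = cr (b - a) (c - a) := by simp [cr]; ring
    rwa [this]
  have hfa : Free es a O := ((tri_seg hc').2.2 O hO a (Or.inl rfl)).trans hL
  have hfb : Free es b O := ((tri_seg hc').2.2 O hO b (Or.inr (Or.inl rfl))).trans hL
  have hfc : Free es c O := ((tri_seg hc').2.2 O hO c (Or.inr (Or.inr rfl))).trans hL
  have o1 : 0 < cr (O - b) (a - O) := by
    have h1 := hO (a, b) (by simp)
    have : cr (O - b) (a - O) = cr (b - a) (O - a) := by simp [cr]; ring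
    rwa [this]
  have o2 : 0 < cr (O - c) (b - O) := by
    have h1 := hO (b, c) (by simp)
    have : cr (O - c) (b - O) = cr (c - b) (O - b) := by simp [cr]; ring
    rwa [this]
  have o3 : 0 < cr (O - a) (c - O) := by
    have h1 := hO (c, a) (by simp)
    have : cr (O - a) (c - O) = cr (a - c) (O - c) := by simp [cr]; ring
    rwa [this]
  have n2 : cr (c - O) (b - O) ≠ 0 := by
    have : cr (c - O) (b - O) = -cr (O - c) (b - O) := by simp [cr]; ring
    rw [this]; linarith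
  have n3 : cr (c - O) (a - O) ≠ 0 := by
    have : cr (c - O) (a - O) = cr (O - a) (c - O) := by simp [cr]; ring
    rw [this]; linarith
  have hfst : (es.map Prod.fst).Perm ((a :: l₁) ++ (b :: l₂) ++ (c :: l₃)) := by
    have := hp.map Prod.fst
    rwa [List.map_append, List.map_append, GTop_fst, GTop_fst, GTop_fst] at this
  have hnd : ((a :: l₁) ++ (b :: l₂) ++ (c :: l₃)).Nodup := hfst.nodup_iff.1 h.simp.nodup
  have ha : a ∈ es.map Prod.fst := hfst.mem_iff.2 (by simp)
  have hb : b ∈ es.map Prod.fst := hfst.mem_iff.2 (by simp)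
  have hcc : c ∈ es.map Prod.fst := hfst.mem_iff.2 (by simp)
  have hG : GC es = GC (Ed (a :: l₁ ++ [b])) ∪ GC (Ed (b :: l₂ ++ [c])) ∪
      GC (Ed (c :: l₃ ++ [a])) := by
    rw [GC_perm hp, GC_append, GC_append]
  have L1 : Loop (Ed (a :: l₁ ++ [b]) ++ Ed [b, O, a]) :=
    Loop.of_ends (by simp) (by simp) (by simp) List.getLast?_concat
  have L2 : Loop (Ed (b :: l₂ ++ [c]) ++ Ed [c, O, b]) :=
    Loop.of_ends (by simp) (by simp) (by simp) List.getLast?_concat
  have L3 : Loop (Ed (c :: l₃ ++ [a]) ++ Ed [a, O, c]) :=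
    Loop.of_ends (by simp) (by simp) (by simp) List.getLast?_concat
  have L4 : Loop ((a, O) :: (O, b) :: (Ed (b :: l₂ ++ [c]) ++ Ed (c :: l₃ ++ [a]))) := by
    refine ⟨a, O :: b :: (l₂ ++ c :: l₃), ?_⟩
    rw [← GTop_Ed2]
    exact List.Perm.refl _
  have K1 : Cut es (Ed (a :: l₁ ++ [b]) ++ Ed [b, O, a])
      ((a, O) :: (O, b) :: (Ed (b :: l₂ ++ [c]) ++ Ed (c :: l₃ ++ [a])))
      (segment ℝ b O ∪ segment ℝ O a) :=
    cut2 (e₁ := Ed (a :: l₁ ++ [b])) (e₂ := Ed (b :: l₂ ++ [c]) ++ Ed (c :: l₃ ++ [a])) h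
      (by rwa [← List.append_assoc]) List.perm_append_comm (List.Perm.refl _) L1 L4 ha hb
      (hL hO) o1.ne' hfb hfa.symm
  have hcG : c ∈ GC es := by
    obtain ⟨e, he, rfl⟩ := List.mem_map.1 hcc
    exact fst_mem_GC he
  have hc1 : c ∉ a :: l₁ ∧ c ≠ b := by
    have h1 := (List.nodup_append.1 hnd).2.2
    constructor
    · intro hm
      exact h1 c (List.mem_append_left _ hm) c (by simp) rfl
    · intro hm
      exact h1 b (by simp) c (by simp) hm.symm
  have hfree : Free ((a, O) :: (O, b) :: (Ed (b :: l₂ ++ [c]) ++ Ed (c :: l₃ ++ [a]))) c O := by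
    refine K1.symm.free hfc ?_ hcG ?_
    · rw [Set.disjoint_union_right, segment_symm ℝ O a]
      exact ⟨GTop_disj n2, GTop_disj n3⟩
    · rw [GC_append]
      rintro (hm | hm)
      · refine not_mem_GC_sub h (fun e he => hp.mem_iff.2 ?_) hcc ?_ ?_ hm
        · exact List.mem_append_left _ (List.mem_append_left _ he)
        · rw [GTop_fst]; exact hc1.1
        · rw [GTop_snd]
          intro hm'
          rcases List.mem_append.1 hm' with hm' | hm'
          · exact hc1.1 (List.mem_cons_of_mem _ hm')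
          · exact hc1.2 (by simpa using hm')
      · simp only [Ed, GC_cons, GC_nil, union_empty] at hm
        rcases hm with hm | hm
        · exact GTop_nseg n2 hm
        · rw [segment_symm] at hm
          exact GTop_nseg n3 hm
  have K2 : Cut ((a, O) :: (O, b) :: (Ed (b :: l₂ ++ [c]) ++ Ed (c :: l₃ ++ [a])))
      (Ed (b :: l₂ ++ [c]) ++ Ed [c, O, b]) (Ed (c :: l₃ ++ [a]) ++ Ed [a, O, c])
      (segment ℝ c O) := by
    refine cut1 (e₁ := (O, b) :: Ed (b :: l₂ ++ [c])) (e₂ := (a, O) :: Ed (c :: l₃ ++ [a]))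
      K1.sp2 ?_ List.perm_append_comm ?_ L2 L3 (by simp) ?_ hfree
    · exact (List.Perm.swap _ _ _).trans (List.Perm.cons _ List.perm_middle.symm)
    · exact List.perm_append_comm.trans (List.Perm.swap _ _ _)
    · simp only [List.map_cons, List.map_append, GTop_fst]
      simp
  have P1 := GTop_piece (D := GC es) hC K1.sp1 o1
    (by rw [hG]; exact subset_union_left.trans subset_union_left) g1
  have P2 := GTop_piece (D := GC es) hC K2.sp1 o2
    (by rw [hG]; exact subset_union_right.trans subset_union_left) g2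
  have P3 := GTop_piece (D := GC es) hC K2.sp2 o3 (by rw [hG]; exact subset_union_right) g3
  have W1 := P1.elim HS.low And.left
  have W2 := P2.elim HS.low And.left
  have W3 := P3.elim HS.low And.left
  rcases P1 with P1 | ⟨-, ⟨ϑ, hϑ⟩, R1⟩
  · exact Or.inl (K1.hs P1 (K2.low W2 W3))
  rcases P2 with P2 | ⟨-, -, R2⟩
  · exact Or.inl (K1.symm.hs (K2.hs P2 W3) W1)
  rcases P3 with P3 | ⟨-, -, R3⟩
  · exact Or.inl (K1.symm.hs (K2.symm.hs P3 W2) W1)
  refine Or.inr ⟨ϑ, a, l₁ ++ b :: (l₂ ++ c :: l₃), ?_, ?_⟩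
  · rw [GTop_Ed2, GTop_Ed2, ← List.append_assoc]
    exact hp
  · have R4 := RigC.append (l' := l₃ ++ [a]) R2 R3
    have R5 := RigC.append (l' := l₂ ++ c :: (l₃ ++ [a])) R1 R4
    rw [hϑ]
    simpa using R5

theorem top_sink (hC : Cst n g κ lam s₀) (h : SP es)
    (hp : es.Perm (Ed (a :: l₁ ++ [b]) ++ Ed (b :: l₂ ++ [c]) ++ Ed (c :: l₃ ++ [a])))
    (hc : 0 < cr (b - a) (c - a)) (hL : Lft [(a, b), (b, c), (c, a)] ⊆ IL es)
    (f1 : Free es a b ∨ l₁ = []) (f2 : Free es b c ∨ l₂ = []) (f3 : Free es c a ∨ l₃ = [])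
    (hT : 2 * κ * es.length + lam * sh es = 2 * π * g)
    (d1 : Dm κ lam (a :: l₁ ++ [b]) a b < g * π) (d2 : Dm κ lam (b :: l₂ ++ [c]) b c < g * π)
    (d3 : Dm κ lam (c :: l₃ ++ [a]) c a < g * π) : TopRes n lam s₀ es := by
  have hs := Dm_add₃ (κ := κ) (lam := lam) hp
  rw [hT] at hs
  by_cases ha : 0 ≤ Gt g lam (Dm κ lam (b :: l₂ ++ [c]) b c) b c a
  · exact Or.inl (top_vertex hC h hp hc f1 f3 hT d1 d3 ha)
  by_cases hb : 0 ≤ Gt g lam (Dm κ lam (c :: l₃ ++ [a]) c a) c a b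
  · refine Or.inl (top_vertex hC h ?_ ?_ f2 f1 hT d2 d1 hb)
    · rw [List.append_assoc] at hp
      exact hp.trans List.perm_append_comm
    · have : cr (c - b) (a - b) = cr (b - a) (c - a) := by simp [cr]; ring
      rwa [this]
  by_cases hc' : 0 ≤ Gt g lam (Dm κ lam (a :: l₁ ++ [b]) a b) a b c
  · refine Or.inl (top_vertex hC h ?_ ?_ f3 f2 hT d3 d2 hc')
    · rw [List.append_assoc]
      exact hp.trans List.perm_append_comm
    · have : cr (a - c) (b - c) = cr (b - a) (c - a) := by simp [cr]; ring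
      rwa [this]
  obtain ⟨O, hO, g1, g2, g3⟩ := tripod hc d1 d2 d3 hs (not_le.1 ha) (not_le.1 hb) (not_le.1 hc')
  exact top_tripod hC h hp hc hL hO g1 g2 g3

theorem GTop_step (hC : Cst n g κ lam s₀) (h : SP es)
    (hT : 2 * κ * es.length + lam * sh es = 2 * π * g)
    (hp : es.Perm (Ed (a :: l₁ ++ [b]) ++ Ed (b :: l₂ ++ [a]))) (hf : Free es a b ∨ l₁ = [])
    (hd : Dm κ lam (a :: l₁ ++ [b]) a b < g * π)
    (ih : ∀ (x y : ℂ) (m m' : List ℂ), m'.length < l₂.length →
      es.Perm (Ed (x :: m ++ [y]) ++ Ed (y :: m' ++ [x])) → (Free es x y ∨ m = []) →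
      Dm κ lam (x :: m ++ [y]) x y < g * π → TopRes n lam s₀ es) : TopRes n lam s₀ es := by
  have key : ∀ (x y : ℂ) (m m' : List ℂ), m'.length < l₂.length →
      es.Perm (Ed (x :: m ++ [y]) ++ Ed (y :: m' ++ [x])) → (Free es y x ∨ m' = []) →
      g * π ≤ Dm κ lam (y :: m' ++ [x]) y x → TopRes n lam s₀ es := by
    intro x y m m' hm hq hfr hge
    have hfr' : Free es y x := by
      rcases hfr with hfr | rfl
      · exact hfr
      · rw [Dm_one] at hge
        exact absurd (GTop_two hC) (not_lt.2 hge)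
    rcases hge.eq_or_lt with he | hlt
    · exact top_two hC h (hq.trans List.perm_append_comm) hfr' hT he.symm
    · have hs := Dm_add (κ := κ) (lam := lam) hq
      rw [hT] at hs
      exact ih x y m m' hm hq (Or.inl hfr'.symm) (by linarith only [hlt, hs])
  have hr : Loop ((a, b) :: Ed (b :: l₂ ++ [a])) := ⟨a, b :: l₂, List.Perm.refl _⟩
  obtain ⟨hQ, hsub, -⟩ := peel (D := GC es) hC h hp hr hf
    (by rw [GC_perm hp, GC_append]; exact subset_union_left) hd
  obtain ⟨c, hcm, hc, hL, f2, f3⟩ := tri_of_edge hQ (a := a) (b := b) (by simp)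
  have hnd := hQ.simp.nodup
  rw [List.map_cons, GTop_fst] at hcm hnd
  have hc2 : c ∈ l₂ := by
    rcases List.mem_cons.1 hcm with rfl | hcm
    · simp [cr] at hc
    rcases List.mem_cons.1 hcm with rfl | hcm
    · rw [cr_self] at hc
      exact absurd hc (lt_irrefl _)
    · exact hcm
  obtain ⟨l', l'', rfl⟩ := List.append_of_mem hc2
  have f2' : Free es b c ∨ l' = [] := by
    rcases f2 with f2 | f2
    · exact Or.inl (f2.mono hsub)
    · right
      cases l' with
      | nil => rfl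
      | cons x m =>
        exfalso
        have hx : (b, x) ∈ (a, b) :: Ed (b :: (x :: m ++ c :: l'') ++ [a]) :=
          List.mem_cons_of_mem _ (mem_Ed.2 ⟨[], m ++ c :: l'' ++ [a], by simp⟩)
        have := hQ.simp.out_eq f2 hx
        subst this
        simp at hnd
  have f3' : Free es c a ∨ l'' = [] := by
    rcases f3 with f3 | f3
    · exact Or.inl (f3.mono hsub)
    · right
      cases l'' with
      | nil => rfl
      | cons x m =>
        exfalso
        have hx : (c, x) ∈ (a, b) :: Ed (b :: (l' ++ c :: x :: m) ++ [a]) :=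
          List.mem_cons_of_mem _ (mem_Ed.2 ⟨b :: l', m ++ [a], by simp⟩)
        have := hQ.simp.out_eq f3 hx
        subst this
        simp at hnd
  rw [GTop_Ed2, ← List.append_assoc] at hp
  by_cases d2 : g * π ≤ Dm κ lam (b :: l' ++ [c]) b c
  · refine key c b (l'' ++ a :: l₁) l' (by simp) ?_ f2' d2
    rw [GTop_Ed2, List.append_assoc]
    exact hp.trans List.perm_append_comm
  by_cases d3 : g * π ≤ Dm κ lam (c :: l'' ++ [a]) c a
  · refine key a c (l₁ ++ b :: l') l'' (by simp; omega) ?_ f3' d3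
    rwa [GTop_Ed2]
  exact top_sink hC h hp hc (hL.trans hsub) hf f2' f3' hT hd (not_le.1 d2) (not_le.1 d3)

theorem walk (hC : Cst n g κ lam s₀) (h : SP es)
    (hT : 2 * κ * es.length + lam * sh es = 2 * π * g) (N : ℕ) :
    ∀ (a b : ℂ) (l₁ l₂ : List ℂ), l₂.length ≤ N →
      es.Perm (Ed (a :: l₁ ++ [b]) ++ Ed (b :: l₂ ++ [a])) → (Free es a b ∨ l₁ = []) →
      Dm κ lam (a :: l₁ ++ [b]) a b < g * π → TopRes n lam s₀ es := by
  induction N with
  | zero =>
    intro a b l₁ l₂ hl hp hf hd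
    exact GTop_step hC h hT hp hf hd fun x y m m' hm => absurd hm (by omega)
  | succ N ih =>
    intro a b l₁ l₂ hl hp hf hd
    exact GTop_step hC h hT hp hf hd fun x y m m' hm => ih x y m m' (by omega)

theorem top (hC : Cst n g κ lam s₀) (h : SP es)
    (hT : 2 * κ * es.length + lam * sh es = 2 * π * g) : TopRes n lam s₀ es := by
  obtain ⟨a, l, hp⟩ := h.loop
  cases l with
  | nil =>
    have h3 := h.loop.three_le h.simp
    rw [hp.length_eq] at h3
    simp [Ed] at h3
  | cons x m =>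
    refine walk hC h hT m.length a x [] m le_rfl hp (Or.inr rfl) ?_
    rw [Dm_one]
    exact GTop_two hC

end Pool.Agent.Work.MP_267827_an.PS
end

-- merged part: Pool.Agent.Work.MP_267827_an.Vis
section
/-! The sides of a polygon seen from an interior point. -/

set_option autoImplicit false

namespace Pool.Agent.Work.MP_267827_an

open MeasureTheory Set Filter Topology Metric Real

theorem Vis_adj {A B C z : ℂ} (h : ¬ Collinear ℝ ({A, B, C} : Set ℂ)) (h1 : z ∈ segment ℝ A B)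
    (h2 : z ∈ segment ℝ B C) : z = B := by
  by_contra hz
  apply h
  obtain ⟨a, a', -, -, ha, rfl⟩ := h1
  obtain ⟨b', b, -, -, hb, e⟩ := h2
  have ha' : a' = 1 - a := by linarith
  have hb' : b' = 1 - b := by linarith
  subst ha' hb'
  simp only [Complex.real_smul] at e hz
  have a0 : (a : ℂ) ≠ 0 := by
    intro c
    apply hz
    push_cast
    rw [c]; ring
  have b0 : (b : ℂ) ≠ 0 := by
    intro c
    apply hz
    rw [← e]
    push_cast
    rw [c]; ring
  rw [collinear_iff_of_mem (p₀ := B) (by simp)]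
  refine ⟨A - B, ?_⟩
  intro p hp
  simp only [mem_insert_iff, mem_singleton_iff] at hp
  rcases hp with rfl | rfl | rfl
  · exact ⟨1, by simp⟩
  · exact ⟨0, by simp⟩
  · refine ⟨a / b, ?_⟩
    simp only [Complex.real_smul, vadd_eq_add]
    push_cast at e ⊢
    field_simp
    linear_combination e

/-- two different sides meet at most in a vertex -/
theorem Simple.inter {n : ℕ} (hn : 3 ≤ n) {v : Fin n → ℂ} (hv : Simple v) {i j : Fin n}
    (hij : i ≠ j) {z : ℂ} (hi : z ∈ edge v i) (hj : z ∈ edge v j) :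
    (j = finRotate n i ∧ z = v j) ∨ (i = finRotate n j ∧ z = v i) := by
  have _ := hn
  by_cases h1 : j = finRotate n i
  · left
    subst h1
    exact ⟨rfl, Vis_adj (hv.1 i) hi hj⟩
  by_cases h2 : i = finRotate n j
  · right
    subst h2
    exact ⟨rfl, Vis_adj (hv.1 j) hj hi⟩
  exact absurd hj (disjoint_left.1 (hv.2 i j hij.symm h1 h2) hi)

/-- the cross product -/
def VisCr (P Q : ℂ) : ℝ := P.re * Q.im - P.im * Q.re

/-- the height of a point over the line of direction `x` -/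
noncomputable def VisHt (P : ℂ) (x : ℝ) : ℝ := (P * ei (-x)).im

/-- the abscissa of a point along the line of direction `x` -/
noncomputable def VisAb (P : ℂ) (x : ℝ) : ℝ := (P * ei (-x)).re

theorem Vis_cont (P : ℂ) : Continuous (VisHt P) := by
  unfold VisHt; fun_prop

theorem Vis_cr (P Q : ℂ) (x : ℝ) :
    VisCr P Q = VisAb P x * VisHt Q x - VisHt P x * VisAb Q x := by
  simp only [VisCr, VisAb, VisHt, Complex.mul_re, Complex.mul_im, ei_re, ei_im]
  linear_combination (-(P.re * Q.im - P.im * Q.re)) * Real.sin_sq_add_cos_sq (-x)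

theorem Vis_polar (P : ℂ) (x : ℝ) : P = (VisAb P x + VisHt P x * Complex.I) * ei x := by
  rw [VisAb, VisHt, Complex.re_add_im, mul_assoc, mul_comm (ei (-x)), ei_mul_neg, mul_one]

theorem Vis_neg {P : ℂ} {x : ℝ} (hP : ∀ s : ℝ, 0 ≤ s → P ≠ s * ei x) (h : VisHt P x = 0) :
    VisAb P x < 0 := by
  by_contra c
  refine hP _ (not_lt.1 c) ?_
  have := Vis_polar P x
  rw [h] at this
  simpa using this

theorem Vis_coord {P Q : ℂ} {x r a b : ℝ} (e : a • P + b • Q = r * ei x) :
    a * VisAb P x + b * VisAb Q x = r ∧ a * VisHt P x + b * VisHt Q x = 0 := by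
  have : (a : ℂ) * (P * ei (-x)) + b * (Q * ei (-x)) = r := by
    simp only [Complex.real_smul] at e
    have h := ei_mul_neg x
    linear_combination ei (-x) * e + r * h
  have h1 := congrArg Complex.re this
  have h2 := congrArg Complex.im this
  simp only [Complex.add_re, Complex.add_im, Complex.re_ofReal_mul, Complex.im_ofReal_mul,
    Complex.ofReal_re, Complex.ofReal_im] at h1 h2
  exact ⟨h1, h2⟩

/-- the side with end points `P`, `Q` is seen in the direction `x` -/
def VisSee (P Q : ℂ) (x : ℝ) : Prop :=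
  0 < VisCr P Q * VisHt Q x ∧ VisCr P Q * VisHt P x < 0

/-- the distance at which the side is seen -/
noncomputable def VisRad (P Q : ℂ) (x : ℝ) : ℝ := VisCr P Q / (VisHt Q x - VisHt P x)

theorem Vis_closed {P Q : ℂ} {x : ℝ} (hP : ∀ s : ℝ, 0 ≤ s → P ≠ s * ei x)
    (hQ : ∀ s : ℝ, 0 ≤ s → Q ≠ s * ei x) (hc : VisCr P Q ≠ 0)
    (h1 : 0 ≤ VisCr P Q * VisHt Q x) (h2 : VisCr P Q * VisHt P x ≤ 0) : VisSee P Q x := by
  have e := Vis_cr P Q x
  constructor
  · refine lt_of_le_of_ne h1 fun c => ?_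
    have q0 : VisHt Q x = 0 := (mul_eq_zero.1 c.symm).resolve_left hc
    have b := Vis_neg hQ q0
    rw [q0, mul_zero, zero_sub] at e
    have p0 : VisHt P x ≠ 0 := fun c => hc (by rw [e, c]; simp)
    rw [e] at h2
    linarith only [h2, b, p0, mul_pos (neg_pos.2 b) (mul_self_pos.2 p0)]
  · refine lt_of_le_of_ne h2 fun c => ?_
    have p0 : VisHt P x = 0 := (mul_eq_zero.1 c).resolve_left hc
    have b := Vis_neg hP p0
    rw [p0, zero_mul, sub_zero] at e
    have q0 : VisHt Q x ≠ 0 := fun c => hc (by rw [e, c]; simp)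
    rw [e] at h1
    linarith only [h1, b, q0, mul_pos (neg_pos.2 b) (mul_self_pos.2 q0)]

theorem Vis_of_hit {P Q : ℂ} {x r : ℝ} (hP : ∀ s : ℝ, 0 ≤ s → P ≠ s * ei x)
    (hQ : ∀ s : ℝ, 0 ≤ s → Q ≠ s * ei x) (hr : 0 < r) (h : (r : ℂ) * ei x ∈ segment ℝ P Q) :
    VisSee P Q x ∧ r = VisRad P Q x := by
  obtain ⟨a, b, ha, hb, hab, e⟩ := h
  obtain ⟨e1, e2⟩ := Vis_coord e
  have ec := Vis_cr P Q x
  have key : r * (VisHt Q x - VisHt P x) = VisCr P Q := by
    rw [ec, ← e1]
    linear_combination (VisAb P x * VisHt Q x - VisAb Q x * VisHt P x) * hab +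
      (VisAb Q x - VisAb P x) * e2
  have eP : VisHt P x = -b * (VisHt Q x - VisHt P x) := by
    linear_combination e2 - VisHt P x * hab
  have eQ : VisHt Q x = a * (VisHt Q x - VisHt P x) := by
    linear_combination e2 - VisHt Q x * hab
  have d0 : VisHt Q x - VisHt P x ≠ 0 := by
    intro c
    rw [c, mul_zero] at eP eQ
    have n1 := Vis_neg hP eP
    have n2 := Vis_neg hQ eQ
    linarith only [hr, e1, ha, n1, hb, n2, mul_nonneg ha (neg_pos.2 n1).le, mul_nonneg hb (neg_pos.2 n2).le]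
  have hc : VisCr P Q ≠ 0 := by rw [← key]; exact mul_ne_zero hr.ne' d0
  refine ⟨Vis_closed hP hQ hc ?_ ?_, ?_⟩
  · have : VisCr P Q * VisHt Q x = r * a * (VisHt Q x - VisHt P x) ^ 2 := by
      rw [← key]; linear_combination r * (VisHt Q x - VisHt P x) * eQ
    rw [this]; positivity
  · have : VisCr P Q * VisHt P x = -(r * b * (VisHt Q x - VisHt P x) ^ 2) := by
      rw [← key]; linear_combination r * (VisHt Q x - VisHt P x) * eP
    rw [this, neg_nonpos]; positivity
  · rw [VisRad, eq_div_iff d0, key]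

theorem VisSee.den {P Q : ℂ} {x : ℝ} (h : VisSee P Q x) :
    0 < VisCr P Q * (VisHt Q x - VisHt P x) := by
  have := h.1; have := h.2; linarith

theorem VisSee.rad_pos {P Q : ℂ} {x : ℝ} (h : VisSee P Q x) : 0 < VisRad P Q x :=
  div_pos_iff.2 (mul_pos_iff.1 h.den)

theorem VisSee.hit {P Q : ℂ} {x : ℝ} (h : VisSee P Q x) :
    (VisRad P Q x : ℂ) * ei x ∈ segment ℝ P Q := by
  have hd := h.den
  have d0 : VisHt Q x - VisHt P x ≠ 0 := fun c => by rw [c, mul_zero] at hd; exact lt_irrefl _ hd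
  have c0 : VisCr P Q ≠ 0 := fun c => by rw [c, zero_mul] at hd; exact lt_irrefl _ hd
  refine ⟨VisHt Q x / (VisHt Q x - VisHt P x), -VisHt P x / (VisHt Q x - VisHt P x), ?_, ?_, ?_, ?_⟩
  · rw [← mul_div_mul_left _ _ c0]; exact (div_pos h.1 hd).le
  · rw [← mul_div_mul_left _ _ c0]
    exact (div_pos (by have := h.2; linarith) hd).le
  · field_simp; ring
  · have d1 : (VisHt Q x : ℂ) - VisHt P x ≠ 0 := by exact_mod_cast d0
    have eP := Vis_polar P x
    have eQ := Vis_polar Q x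
    have ec : (VisCr P Q : ℂ) = VisAb P x * VisHt Q x - VisHt P x * VisAb Q x := by
      exact_mod_cast Vis_cr P Q x
    simp only [Complex.real_smul, VisRad]
    push_cast
    rw [ec]
    field_simp
    linear_combination (VisHt Q x : ℂ) * eP - (VisHt P x : ℂ) * eQ

theorem Vis_pos {a b : ℝ} {f : ℝ → ℝ} (hf : ContinuousOn f (Ioo a b))
    (h0 : ∀ x ∈ Ioo a b, f x ≠ 0) {x y : ℝ} (hx : x ∈ Ioo a b) (hy : y ∈ Ioo a b)
    (h : 0 < f x) : 0 < f y := by
  by_contra c
  obtain ⟨z, hz, e⟩ := isPreconnected_Ioo.intermediate_value hy hx hf ⟨not_lt.1 c, h.le⟩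
  exact h0 z hz e

theorem VisSee.all {P Q : ℂ} {a b : ℝ} (hP : ∀ x ∈ Ioo a b, ∀ s : ℝ, 0 ≤ s → P ≠ s * ei x)
    (hQ : ∀ x ∈ Ioo a b, ∀ s : ℝ, 0 ≤ s → Q ≠ s * ei x) {x y : ℝ} (hx : x ∈ Ioo a b)
    (hy : y ∈ Ioo a b) (h : VisSee P Q x) : VisSee P Q y := by
  have hd := h.den
  have c0 : VisCr P Q ≠ 0 := fun c => by rw [c, zero_mul] at hd; exact lt_irrefl _ hd
  have c1 := Vis_cont P
  have c2 := Vis_cont Q
  have := Vis_pos (f := fun x => min (VisCr P Q * VisHt Q x) (-(VisCr P Q * VisHt P x)))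
    (Continuous.continuousOn (by fun_prop)) ?_ hx hy (lt_min h.1 (neg_pos.2 h.2))
  · exact ⟨(lt_min_iff.1 this).1, neg_pos.1 (lt_min_iff.1 this).2⟩
  · intro z hz e
    have s := Vis_closed (hP z hz) (hQ z hz) c0 (e.ge.trans (min_le_left _ _))
      (neg_nonneg.1 (e.ge.trans (min_le_right _ _)))
    exact (lt_min s.1 (neg_pos.2 s.2)).ne' e

theorem Vis_form {P Q : ℂ} {a b : ℝ} (hab : a < b) (h : ∀ x ∈ Ioo a b, VisSee P Q x) :
    ∃ γ h : ℝ, 0 < h ∧ ∀ x ∈ Ioo a b, |x - γ| < π / 2 ∧ VisRad P Q x = h / cos (x - γ) := by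
  obtain ⟨x0, hx0⟩ := nonempty_Ioo.2 hab
  set W : ℂ := -Complex.I * VisCr P Q * (Q - P) with hW
  have eW : ∀ x, (W * ei (-x)).re = VisCr P Q * (VisHt Q x - VisHt P x) := by
    intro x
    simp only [hW, VisHt, Complex.mul_re, Complex.mul_im, Complex.neg_re, Complex.neg_im,
      Complex.I_re, Complex.I_im, Complex.ofReal_re, Complex.ofReal_im, Complex.sub_re,
      Complex.sub_im]
    ring
  have p0 : 0 < (W * ei (-x0)).re := by rw [eW]; exact (h x0 hx0).den
  have W0 : W ≠ 0 := fun c => by rw [c] at p0; simp at p0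
  have nW : 0 < ‖W‖ := norm_pos_iff.2 W0
  have c0 : VisCr P Q ≠ 0 := fun c => W0 (by rw [hW, c]; simp)
  set γ := x0 + Complex.arg (W * ei (-x0)) with hγ
  have pol : W = ‖W‖ * ei γ := by
    have e := Complex.norm_mul_exp_arg_mul_I (W * ei (-x0))
    rw [norm_mul, norm_ei, mul_one] at e
    have e2 := ei_mul_neg x0
    rw [hγ, ei_add]
    have : ei (Complex.arg (W * ei (-x0))) =
      Complex.exp (Complex.arg (W * ei (-x0)) * Complex.I) := rfl
    rw [this]
    linear_combination -(ei x0 * e) - W * e2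
  have ec : ∀ x, VisCr P Q * (VisHt Q x - VisHt P x) = ‖W‖ * cos (x - γ) := by
    intro x
    rw [← eW]
    conv_lhs => rw [pol]
    rw [mul_assoc, ← ei_add, Complex.re_ofReal_mul, ei_re, ← Real.cos_neg]
    congr 2; ring
  have cp : ∀ x ∈ Ioo a b, 0 < cos (x - γ) := fun x hx => by
    have := (h x hx).den
    rw [ec] at this
    exact (mul_pos_iff_of_pos_left nW).1 this
  have a0 : |x0 - γ| < π / 2 := by
    have : x0 - γ = -Complex.arg (W * ei (-x0)) := by rw [hγ]; ring
    rw [this, abs_neg]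
    exact Complex.abs_arg_lt_pi_div_two_iff.2 (Or.inl p0)
  refine ⟨γ, VisCr P Q ^ 2 / ‖W‖, by positivity, fun x hx => ⟨?_, ?_⟩⟩
  · have := Vis_pos (f := fun x => π / 2 - |x - γ|) (Continuous.continuousOn (by fun_prop)) ?_
      hx0 hx (sub_pos.2 a0)
    · exact sub_pos.1 this
    · intro z hz e
      have := cp z hz
      rw [← Real.cos_abs, ← sub_eq_zero.1 e, Real.cos_pi_div_two] at this
      exact lt_irrefl _ this
  · have hd := (h x hx).den
    have d0 : VisHt Q x - VisHt P x ≠ 0 := fun c => by rw [c, mul_zero] at hd; exact lt_irrefl _ hd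
    rw [VisRad, div_div, ← ec]
    field_simp

theorem Vis_mem_edge {n : ℕ} (v : Fin n → ℂ) (O z : ℂ) (i : Fin n) :
    O + z ∈ edge v i ↔ z ∈ segment ℝ (v i - O) (v (finRotate n i) - O) := by
  constructor
  · rintro ⟨a, b, ha, hb, hab, e⟩
    refine ⟨a, b, ha, hb, hab, ?_⟩
    have h : (a : ℂ) + b = 1 := by exact_mod_cast hab
    simp only [Complex.real_smul] at e ⊢
    linear_combination e - O * h
  · rintro ⟨a, b, ha, hb, hab, e⟩
    refine ⟨a, b, ha, hb, hab, ?_⟩
    have h : (a : ℂ) + b = 1 := by exact_mod_cast hab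
    simp only [Complex.real_smul] at e ⊢
    linear_combination e + O * h

theorem Vis_ray {Γ : Set ℂ} {O : ℂ} (hO : O ∈ Ins Γ) (x : ℝ) :
    ∃ r : ℝ, 0 ≤ r ∧ O + r * ei x ∈ Γ := by
  by_contra c
  push Not at c
  refine not_mem_Ins (S := (fun s : ℝ => O + s * ei x) '' Ici 0)
    (isPreconnected_Ici.image _ (by fun_prop)) ?_ ?_ ⟨0, self_mem_Ici, by simp⟩ hO
  · rw [disjoint_left]
    rintro _ ⟨s, hs, rfl⟩ hw
    exact c s hs hw
  · intro hb
    obtain ⟨R, hR⟩ := hb.subset_closedBall O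
    have := hR ⟨|R| + 1, mem_Ici.2 (by positivity), rfl⟩
    simp only [mem_closedBall, dist_self_add_left, norm_mul, norm_ei, mul_one, Complex.norm_real,
      Real.norm_eq_abs] at this
    linarith [le_abs_self (|R| + 1), le_abs_self R]

theorem Vis_arc {n : ℕ} (hn : 3 ≤ n) {v : Fin n → ℂ} (hv : Simple v) {O : ℂ}
    (hO : O ∈ Ins (Gam v)) {a b : ℝ} (hab : a < b)
    (hno : ∀ i, ∀ x ∈ Ioo a b, ∀ s : ℝ, 0 ≤ s → v i - O ≠ s * ei x) :
    ∃ (γ h : ℝ) (e : Fin n), 0 < h ∧ ∀ x ∈ Ioo a b, |x - γ| < π / 2 ∧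
      O + ((h / cos (x - γ) : ℝ) : ℂ) * ei x ∈ edge v e ∧
      ∀ r : ℝ, 0 ≤ r → r < h / cos (x - γ) → O + (r : ℂ) * ei x ∈ Ins (Gam v) := by
  classical
  obtain ⟨x0, hx0⟩ := nonempty_Ioo.2 hab
  have hit : ∀ x ∈ Ioo a b, ∀ (r : ℝ) (i : Fin n), 0 ≤ r → O + r * ei x ∈ edge v i →
      VisSee (v i - O) (v (finRotate n i) - O) x ∧
        r = VisRad (v i - O) (v (finRotate n i) - O) x := by
    intro x hx r i hr h
    have r0 : r ≠ 0 := by
      rintro rfl
      exact hO.1 (edge_subset_Gam v i (by simpa using h))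
    exact Vis_of_hit (hno _ x hx) (hno _ x hx) (lt_of_le_of_ne hr r0.symm)
      ((Vis_mem_edge v O _ i).1 h)
  have all : ∀ i : Fin n, ∀ x ∈ Ioo a b, ∀ y ∈ Ioo a b,
      VisSee (v i - O) (v (finRotate n i) - O) x → VisSee (v i - O) (v (finRotate n i) - O) y :=
    fun i x hx y hy h => h.all (hno _) (hno _) hx hy
  obtain ⟨e, he, hmin⟩ := Finset.exists_min_image
    (Finset.univ.filter fun i => VisSee (v i - O) (v (finRotate n i) - O) x0)
    (fun i => VisRad (v i - O) (v (finRotate n i) - O) x0) (by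
      obtain ⟨r, hr, h⟩ := Vis_ray hO x0
      obtain ⟨i, hi⟩ := mem_iUnion.1 h
      exact ⟨i, by simpa using (hit x0 hx0 r i hr hi).1⟩)
  have se : ∀ x ∈ Ioo a b, VisSee (v e - O) (v (finRotate n e) - O) x :=
    fun x hx => all e x0 hx0 x hx (Finset.mem_filter.1 he).2
  have cont : ∀ i : Fin n, (∀ x ∈ Ioo a b, VisSee (v i - O) (v (finRotate n i) - O) x) →
      ContinuousOn (VisRad (v i - O) (v (finRotate n i) - O)) (Ioo a b) := by
    intro i hi
    refine continuousOn_const.div ((Vis_cont _).sub (Vis_cont _)).continuousOn fun x hx c => ?_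
    have hd := (hi x hx).den
    rw [c, mul_zero] at hd
    exact lt_irrefl _ hd
  have near : ∀ i : Fin n, ∀ x ∈ Ioo a b, VisSee (v i - O) (v (finRotate n i) - O) x →
      VisRad (v e - O) (v (finRotate n e) - O) x ≤ VisRad (v i - O) (v (finRotate n i) - O) x := by
    intro i x hx hs
    by_cases hie : i = e
    · rw [hie]
    have si : ∀ y ∈ Ioo a b, VisSee (v i - O) (v (finRotate n i) - O) y :=
      fun y hy => all i x hx y hy hs
    have ne : ∀ y ∈ Ioo a b, VisRad (v i - O) (v (finRotate n i) - O) y -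
        VisRad (v e - O) (v (finRotate n e) - O) y ≠ 0 := by
      intro y hy c
      have h1 := (Vis_mem_edge v O _ i).2 (si y hy).hit
      have h2 := (Vis_mem_edge v O _ e).2 (se y hy).hit
      rw [sub_eq_zero.1 c] at h1
      rcases Simple.inter hn hv hie h1 h2 with ⟨-, h⟩ | ⟨-, h⟩
      · exact hno e y hy _ (se y hy).rad_pos.le (by linear_combination -h)
      · exact hno i y hy _ (se y hy).rad_pos.le (by linear_combination -h)
    have := Vis_pos ((cont i si).sub (cont e se)) ne hx0 hx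
      (lt_of_le_of_ne (sub_nonneg.2 (hmin i (by simpa using si x0 hx0))) (ne x0 hx0).symm)
    exact (sub_pos.1 this).le
  obtain ⟨γ, h, hh, hf⟩ := Vis_form hab se
  refine ⟨γ, h, e, hh, fun x hx => ⟨(hf x hx).1, ?_, fun r hr hlt => ?_⟩⟩
  · rw [← (hf x hx).2]
    exact (Vis_mem_edge v O _ e).2 (se x hx).hit
  · rw [← (hf x hx).2] at hlt
    refine subset_Ins (S := (fun s : ℝ => O + s * ei x) '' Icc 0 r)
      (isPreconnected_Icc.image _ (by fun_prop)) ?_ ⟨0, ⟨le_rfl, hr⟩, by simp⟩ hO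
      ⟨r, ⟨hr, le_rfl⟩, rfl⟩
    rw [disjoint_left]
    rintro _ ⟨s, hs, rfl⟩ hw
    obtain ⟨i, hi⟩ := mem_iUnion.1 hw
    obtain ⟨h1, h2⟩ := hit x hx s i hs.1 hi
    have := near i x hx h1
    linarith only [hlt, h2, this, hs, hs.2]

theorem Vis_angles {n : ℕ} (hn : 0 < n) (w : Fin n → ℂ) (hw : ∀ i, w i ≠ 0) :
    ∃ (m : ℕ) (ϑ : ℕ → ℝ), 0 < m ∧ m ≤ n ∧ (∀ k, k < m → ϑ k < ϑ (k + 1)) ∧
      ϑ m = ϑ 0 + 2 * π ∧
      ∀ k, k < m → ∀ i, ∀ x ∈ Ioo (ϑ k) (ϑ (k + 1)), ∀ s : ℝ, 0 ≤ s → w i ≠ s * ei x := by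
  classical
  set A : Finset ℝ := Finset.univ.image fun i => Complex.arg (w i) with hA
  have hm : 0 < A.card := Finset.card_pos.2 ⟨_, Finset.mem_image_of_mem _ (Finset.mem_univ ⟨0, hn⟩)⟩
  set f := A.orderEmbOfFin rfl with hf
  have rng : ∀ j, -π < f j ∧ f j ≤ π := by
    intro j
    obtain ⟨i, -, e⟩ := Finset.mem_image.1 (A.orderEmbOfFin_mem rfl j)
    rw [hf, ← e]
    exact ⟨Complex.neg_pi_lt_arg _, Complex.arg_le_pi _⟩
  have low : ∀ j, f ⟨0, hm⟩ ≤ f j := fun j => f.monotone (Fin.le_def.2 (Nat.zero_le _))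
  have up : ∀ j, f j < f ⟨0, hm⟩ + 2 * π := fun j => by
    linarith only [hm, rng, (rng j).2, (rng ⟨0, hm⟩).1]
  refine ⟨A.card, fun k => if h : k < A.card then f ⟨k, h⟩ else f ⟨0, hm⟩ + 2 * π, hm,
    Finset.card_image_le.trans (by simp), ?_, by simp [hm], ?_⟩
  · intro k hk
    simp only [dif_pos hk]
    split_ifs with h
    · exact f.strictMono (Fin.lt_def.2 (Nat.lt_succ_self k))
    · exact up _
  · intro k hk i x hx s hs e
    simp only [dif_pos hk] at hx
    have s0 : 0 < s := lt_of_le_of_ne hs fun c => hw i (by rw [e, ← c]; simp)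
    have hi : Complex.arg (w i) ∈ range f := by
      rw [hf, Finset.range_orderEmbOfFin]
      exact Finset.mem_image_of_mem _ (Finset.mem_univ i)
    obtain ⟨j, hj⟩ := hi
    have e1 : Complex.exp (f j * Complex.I) = Complex.exp (x * Complex.I) := by
      have h := Complex.norm_mul_exp_arg_mul_I (w i)
      have h2 : ‖w i‖ = s := by rw [e]; simp [abs_of_pos s0]
      rw [h2, ← hj] at h
      have s1 : (s : ℂ) ≠ 0 := by exact_mod_cast s0.ne'
      exact mul_left_cancel₀ s1 (h.trans e)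
    obtain ⟨l, hl⟩ := Complex.exp_eq_exp_iff_exists_int.1 e1
    have hl' : f j = x + l * (2 * π) := by
      have := congrArg Complex.im hl
      simpa using this
    have x1 : f ⟨0, hm⟩ < x := (low _).trans_lt hx.1
    have x2 : x < f ⟨0, hm⟩ + 2 * π := by
      refine hx.2.trans_le ?_
      split_ifs with h
      · exact (up _).le
      · exact le_rfl
    have l0 : l = 0 := by
      have p := Real.pi_pos
      have l1 : (l : ℝ) < 1 := by (refine lt_of_not_ge fun h_nl => ?_; linarith only [h_nl, hm, hl', x1, up, x2, low j, up j, mul_nonneg_of_nonpos_of_nonpos (le_of_lt (Mathlib.Tactic.Linarith.sub_neg_of_lt x1)) (Mathlib.Tactic.Linarith.sub_nonpos_of_le h_nl), mul_nonneg_of_nonpos_of_nonpos (le_of_lt (Mathlib.Tactic.Linarith.sub_neg_of_lt x2)) (Mathlib.Tactic.Linarith.sub_nonpos_of_le h_nl)])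
      have l2 : (-1 : ℝ) < l := by (refine lt_of_not_ge fun h_nl => ?_; linarith only [h_nl, hm, hl', x2, low, x1, low j, up j, mul_nonneg_of_nonpos_of_nonpos (le_of_lt (Mathlib.Tactic.Linarith.sub_neg_of_lt x1)) (Mathlib.Tactic.Linarith.sub_nonpos_of_le h_nl), mul_nonneg_of_nonpos_of_nonpos (le_of_lt (Mathlib.Tactic.Linarith.sub_neg_of_lt x2)) (Mathlib.Tactic.Linarith.sub_nonpos_of_le h_nl)])
      have l1' : l < 1 := by exact_mod_cast l1
      have l2' : -1 < l := by exact_mod_cast l2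
      omega
    rw [l0] at hl'
    have ex : x = f j := by rw [hl']; simp
    rw [ex] at hx
    have j1 : k < j := Fin.lt_def.1 (f.lt_iff_lt.1 hx.1)
    have j2 := hx.2
    split_ifs at j2 with h
    · have : (j : ℕ) < k + 1 := Fin.lt_def.1 (f.lt_iff_lt.1 j2)
      omega
    · have := j.2
      omega

theorem exists_arcs {n : ℕ} (hn : 3 ≤ n) {v : Fin n → ℂ} (hv : Simple v) {O : ℂ}
    (hO : O ∈ Ins (Gam v)) : ∃ (m : ℕ) (ϑ γ h : ℕ → ℝ) (e : ℕ → Fin n), Arcs v O m ϑ γ h e := by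
  obtain ⟨m, ϑ, h1, h2, h3, h4, h5⟩ := Vis_angles (by omega) (fun i => v i - O) (fun i c =>
    hO.1 (edge_subset_Gam v i (by rw [← sub_eq_zero.1 c]; exact left_mem_segment _ _ _)))
  have key : ∀ k, ∃ (γ h : ℝ) (e : Fin n), k < m → 0 < h ∧ ∀ x ∈ Ioo (ϑ k) (ϑ (k + 1)),
      |x - γ| < π / 2 ∧ O + ((h / cos (x - γ) : ℝ) : ℂ) * ei x ∈ edge v e ∧
      ∀ r : ℝ, 0 ≤ r → r < h / cos (x - γ) → O + (r : ℂ) * ei x ∈ Ins (Gam v) := by
    intro k
    by_cases hk : k < m
    · obtain ⟨γ, h, e, H⟩ := Vis_arc hn hv hO (h3 k hk) (h5 k hk)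
      exact ⟨γ, h, e, fun _ => H⟩
    · exact ⟨0, 0, ⟨0, by omega⟩, fun c => absurd c hk⟩
  choose γ h e H using key
  exact ⟨m, ϑ, γ, h, e, h1, h2, h3, h4, fun k hk => (H k hk).1,
    fun k hk x hx => ((H k hk).2 x hx).1, fun k hk x hx => ((H k hk).2 x hx).2.1,
    fun k hk x hx => ((H k hk).2 x hx).2.2⟩

end Pool.Agent.Work.MP_267827_an
end

-- merged part: Pool.Agent.Work.MP_267827_an.Equal
section
/-! The case of equality. -/

set_option autoImplicit false

namespace Pool.Agent.Work.MP_267827_an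

open MeasureTheory Set Filter Topology Metric Real

theorem Equal_img (O c a b : ℂ) :
    (fun z => O + c * z) '' segment ℝ a b = segment ℝ (O + c * a) (O + c * b) := by
  rw [segment_eq_image', segment_eq_image', image_image]
  refine image_congr fun t _ => ?_
  simp only [Complex.real_smul]
  ring

theorem Equal_rot_val {n : ℕ} (k : Fin n) :
    ((finRotate n k : Fin n) : ℕ) = if (k : ℕ) + 1 = n then 0 else (k : ℕ) + 1 := by
  rcases n with _ | m
  · exact k.elim0
  rw [coe_finRotate]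
  by_cases h : k = Fin.last m
  · rw [if_pos h, if_pos (by rw [h]; simp)]
  · rw [if_neg h, if_neg]
    intro c
    exact h (Fin.ext (by simp; omega))

theorem Equal_rot_ne {n : ℕ} (hn : 3 ≤ n) (k : Fin n) : finRotate n k ≠ k := by
  intro h
  have h1 := Equal_rot_val k
  rw [h] at h1
  split_ifs at h1 <;> omega

theorem Equal_rot_rot_ne {n : ℕ} (hn : 3 ≤ n) (k : Fin n) : finRotate n (finRotate n k) ≠ k := by
  intro h
  have h1 := Equal_rot_val k
  have h2 := Equal_rot_val (finRotate n k)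
  rw [h, h1] at h2
  split_ifs at h2 <;> omega

theorem Equal_reg_rot {n : ℕ} (r : ℝ) (k : Fin n) :
    reg n r (finRotate n k) = r * ei (2 * π * ((k : ℕ) + 1) / n) := by
  have hn : (n : ℝ) ≠ 0 := by
    have := k.pos
    positivity
  rw [reg, Equal_rot_val]
  split_ifs with h
  · have e : ((k : ℕ) : ℝ) + 1 = n := by exact_mod_cast h
    rw [e, mul_div_assoc (2 * π) (n : ℝ) n, div_self hn, mul_one, ei_two_pi]
    simp
  · push_cast
    rfl

theorem Equal_reg_inj {n : ℕ} {r : ℝ} (hr : 0 < r) : Function.Injective (reg n r) := by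
  intro k l h
  have hn0 : 0 < n := k.pos
  have hn : (n : ℝ) ≠ 0 := by positivity
  have hr' : (r : ℂ) ≠ 0 := by exact_mod_cast hr.ne'
  have h1 := mul_left_cancel₀ hr' h
  obtain ⟨m, hm⟩ := Complex.exp_eq_exp_iff_exists_int.1 h1
  have h2 := congrArg Complex.im hm
  simp only [Complex.mul_im, Complex.ofReal_re, Complex.I_im, mul_one, Complex.ofReal_im,
    Complex.I_re, mul_zero, add_zero, Complex.add_im, Complex.intCast_re, Complex.intCast_im,
    Complex.mul_re, Complex.re_ofNat, Complex.im_ofNat, sub_zero, zero_mul] at h2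
  have hpi : (0 : ℝ) < π := pi_pos
  have h3 : ((k : ℕ) : ℝ) = (l : ℕ) + m * n := by
    field_simp at h2
    linarith only [h2]
  have h4 : ((k : ℕ) : ℤ) = (l : ℕ) + m * n := by exact_mod_cast h3
  have hk := k.2
  have hl := l.2
  have hm0 : m = 0 := by
    rcases lt_trichotomy m 0 with c | c | c
    · nlinarith
    · exact c
    · nlinarith
  rw [hm0] at h4
  exact Fin.ext (by omega)

theorem Equal_three {O p q a b c : ℂ} {r : ℝ} (ha : dist a O = r) (hb : dist b O = r)
    (hc : dist c O = r) (hab : a ≠ b) (hac : a ≠ c) (hbc : b ≠ c) (ma : a ∈ segment ℝ p q)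
    (mb : b ∈ segment ℝ p q) (mc : c ∈ segment ℝ p q) : False := by
  have hs : EuclideanGeometry.Cospherical ({a, b, c} : Set ℂ) := by
    refine ⟨O, r, ?_⟩
    rintro z (rfl | rfl | rfl)
    exacts [ha, hb, hc]
  have hi := hs.affineIndependent_of_ne hab hac hbc
  rw [affineIndependent_iff_not_collinear_set] at hi
  have hsub : ∀ z ∈ segment ℝ p q, z ∈ line[ℝ, p, q] := by
    intro z hz
    rw [segment_eq_image_lineMap] at hz
    obtain ⟨t, -, rfl⟩ := hz
    exact AffineMap.lineMap_mem_affineSpan_pair _ _ _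
  exact hi (collinear_triple_of_mem_affineSpan_pair (hsub _ ma) (hsub _ mb) (hsub _ mc))

theorem Equal_ends {n : ℕ} (hn : 5 ≤ n) {S : Set ℂ} (hS : IsClosed S) (O : ℂ) (a r : ℝ)
    (h : ∀ x ∈ Ioo a (a + 2 * (π / n)),
      O + ((r * cos (π / n) / cos (x - (a + π / n)) : ℝ) : ℂ) * ei x ∈ S) :
    O + r * ei a ∈ S ∧ O + r * ei (a + 2 * (π / n)) ∈ S := by
  have hn' : (5 : ℝ) ≤ n := by exact_mod_cast hn
  have hpi : (0 : ℝ) < π := pi_pos
  have h0 : 0 < π / n := by positivity
  have h1 : π / n < π / 2 := div_lt_div_of_pos_left hpi (by norm_num) (by linarith only [hn'])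
  have hlt : a < a + 2 * (π / n) := by linarith only [h0]
  have hcos : ∀ x ∈ Icc a (a + 2 * (π / n)), cos (x - (a + π / n)) ≠ 0 := fun x hx =>
    (cos_pos_of_mem_Ioo ⟨by linarith only [h1, hx, hx.1], by linarith only [h1, hx, hx.2]⟩).ne'
  have hc : ContinuousOn
      (fun x : ℝ => O + ((r * cos (π / n) / cos (x - (a + π / n)) : ℝ) : ℂ) * ei x)
      (closure (Ioo a (a + 2 * (π / n)))) := by
    rw [closure_Ioo hlt.ne]
    refine continuousOn_const.add (ContinuousOn.mul ?_ continuous_ei.continuousOn)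
    exact Complex.continuous_ofReal.comp_continuousOn
      (continuousOn_const.div (by fun_prop) hcos)
  have hm := MapsTo.closure_of_continuousOn (fun x hx => h x hx) hc
  rw [closure_Ioo hlt.ne, hS.closure_eq] at hm
  have hc0 : cos (π / n) ≠ 0 := (cos_pos_of_mem_Ioo ⟨by linarith only [h0, h1], h1⟩).ne'
  have m1 := hm (left_mem_Icc.2 hlt.le)
  have m2 := hm (right_mem_Icc.2 hlt.le)
  have e1 : a - (a + π / n) = -(π / n) := by ring
  have e2 : a + 2 * (π / n) - (a + π / n) = π / n := by ring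
  simp only [e1, cos_neg, mul_div_cancel_right₀ _ hc0] at m1
  simp only [e2, mul_div_cancel_right₀ _ hc0] at m2
  exact ⟨m1, m2⟩

theorem equal_case {n : ℕ} (hn : 5 ≤ n) {v : Fin n → ℂ} (hv : Simple v) (O : ℂ) (ϑ₀ : ℝ) {r : ℝ}
    (hr : 0 < r) (e : ℕ → Fin n)
    (h : ∀ k : ℕ, k < n → ∀ x ∈ Ioo (ϑ₀ + 2 * π * k / n) (ϑ₀ + 2 * π * (k + 1) / n),
      O + ((r * cos (π / n) / cos (x - (ϑ₀ + 2 * π * k / n + π / n)) : ℝ) : ℂ) * ei x ∈
        edge v (e k)) :
    Gam v = (fun z => O + ei ϑ₀ * z) '' Gam (reg n r) := by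
  have hn3 : 3 ≤ n := by omega
  set B : Fin n → ℂ := fun k => O + ei ϑ₀ * reg n r k with hB
  set E : Fin n → Fin n := fun k => e k with hE
  have hmem : ∀ k : Fin n, B k ∈ edge v (E k) ∧ B (finRotate n k) ∈ edge v (E k) := by
    intro k
    have e0 : ϑ₀ + 2 * π * ((k : ℕ) + 1) / n = ϑ₀ + 2 * π * (k : ℕ) / n + 2 * (π / n) := by ring
    have h1 := Equal_ends hn (isCompact_edge v (e k)).isClosed O (ϑ₀ + 2 * π * (k : ℕ) / n) r
      (by rw [← e0]; exact h k k.2)
    rw [← e0, ei_add, ei_add] at h1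
    simp only [hB, hE]
    rw [Equal_reg_rot, reg]
    constructor
    · convert h1.1 using 2; ring
    · convert h1.2 using 2; ring
  have hBinj : Function.Injective B := by
    intro k l c
    exact Equal_reg_inj hr (mul_left_cancel₀ (ei_ne_zero ϑ₀) (add_left_cancel c))
  have hBd : ∀ k, dist (B k) O = r := by
    intro k
    simp [hB, reg, abs_of_pos hr]
  have hEinj : Function.Injective E := by
    intro k l c
    by_contra hkl
    have hk := hmem k
    have hl := hmem l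
    rw [← c] at hl
    by_cases hlk : l = finRotate n k
    · rw [hlk] at hl
      exact Equal_three (hBd k) (hBd _) (hBd _) (hBinj.ne (Equal_rot_ne hn3 k).symm)
        (hBinj.ne (Equal_rot_rot_ne hn3 k).symm) (hBinj.ne (Equal_rot_ne hn3 _).symm)
        hk.1 hk.2 hl.2
    · exact Equal_three (hBd k) (hBd _) (hBd l) (hBinj.ne (Equal_rot_ne hn3 k).symm)
        (hBinj.ne hkl) (hBinj.ne (Ne.symm hlk)) hk.1 hk.2 hl.1
  have hend : ∀ k : Fin n,
      (B (finRotate n k) = v (E k) ∨ B (finRotate n k) = v (finRotate n (E k))) ∧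
      (B (finRotate n k) = v (E (finRotate n k)) ∨
        B (finRotate n k) = v (finRotate n (E (finRotate n k)))) := by
    intro k
    rcases hv.inter hn3 (hEinj.ne (Equal_rot_ne hn3 k).symm) (hmem k).2
      (hmem (finRotate n k)).1 with ⟨c1, c2⟩ | ⟨c1, c2⟩
    · exact ⟨Or.inr (by rw [← c1]; exact c2), Or.inl c2⟩
    · exact ⟨Or.inl c2, Or.inr (by rw [← c1]; exact c2)⟩
  have hedge : ∀ k : Fin n, edge v (E k) = segment ℝ (B k) (B (finRotate n k)) := by
    intro k
    have h1 := (hend k).1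
    have h2 := (hend ((finRotate n).symm k)).2
    rw [Equiv.apply_symm_apply] at h2
    have hne : B k ≠ B (finRotate n k) := hBinj.ne (Equal_rot_ne hn3 k).symm
    rw [edge]
    rcases h1 with c1 | c1 <;> rcases h2 with c2 | c2
    · exact absurd (c2.trans c1.symm) hne
    · rw [c1, c2, segment_symm]
    · rw [c1, c2]
    · exact absurd (c2.trans c1.symm) hne
  have hsurj : Function.Surjective E := Finite.injective_iff_surjective.1 hEinj
  rw [Gam, Gam, image_iUnion, ← hsurj.iUnion_comp]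
  refine iUnion_congr fun k => ?_
  rw [hedge, edge, Equal_img]

end Pool.Agent.Work.MP_267827_an
end

-- merged part: Pool.Agent.Work.MP_267827_an.PS.GReg
section
/-! An equiangular polygon with long sides and small area is regular (skeleton helper49).

Let `σ k = 2 π k / n`.  `Sh n s t = ∑ k < n, ∑ i < k, s i * t k * sin (σ k - σ i)` is twice the mixed
area.
`rig_fun`: induction on `RigC` (generalize `ϑ`); the path has the vertices
`a + ∑ i < k, s i * ei (ϑ + σ i)`.
`rig_sh`: for a closed path with the vertices `p k = a + ∑ i < k, ...` one has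
`cr (p k) (p (k + 1)) = cr (p k - a) (s k ei (ϑ + σ k)) + cr a (p (k + 1) - p k)` and the last terms
telescope to zero.
`Sh_nonneg`: the inner sum for `k` is `t k * cr (∑ i < k, t i ei (σ i)) (ei (σ k))`.  If `σ k ≤ π` all sines
are nonnegative.  Otherwise replace the sum over `i < k` by minus the sum over `k ≤ i < n`, where
`0 ≤ σ i - σ k < π`.
`Sh_symm`: the difference is `cr (∑ s i ei (σ i)) (∑ t k ei (σ k)) = 0` (split the double sum into
`i < k`, `i = k`, `i > k`).
`Sh_one`: `∑ i < k, sin (σ k - σ i)`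
telescopes: `2 sin (π / n) sin (2 π j / n) = cos ((2 j - 1) π / n) - cos ((2 j + 1) π / n)`, so the sum
over `j = 1 .. k` is `(cos (π / n) - cos (σ k + π / n)) / (2 sin (π / n))`, and
`∑ t k cos (σ k + π / n) = 0` by the closing condition.
`rig_eq`: write `s = s₀ + t`, `t ≥ 0`; `∑ ei (σ i) = 0` (geometric sum), so `t` closes up;
`Sh s s = Sh s₀ s₀ + 2 Sh s₀ t + Sh t t ≥ n s₀ ^ 2 / (2 tan) + s₀ ∑ t / tan`.
`rig_regular`: with `s₀ = 2 r sin (π / n)`, `ϑ₀ = ϑ - π / 2 - π / n`, `O = a - r ei ϑ₀` the vertices are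
`O + ei ϑ₀ * (r ei (σ k))` because `ei (σ (k + 1)) - ei (σ k) = 2 sin (π / n) ei (σ k + π / n + π / 2)`;
`Equal_img`, `Equal_reg_rot`. -/

set_option autoImplicit false

namespace Pool.Agent.Work.MP_267827_an.PS

open MeasureTheory Set Filter Topology Real Finset

/-- twice the mixed area -/
noncomputable def Sh (n : ℕ) (s t : ℕ → ℝ) : ℝ :=
  ∑ k ∈ range n, ∑ i ∈ range k, s i * t k * sin (2 * π * k / n - 2 * π * i / n)

/-- the vertices of an equiangular path -/
noncomputable def Pv (n : ℕ) (ϑ : ℝ) (a : ℂ) (s : ℕ → ℝ) (k : ℕ) : ℂ :=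
  a + ∑ i ∈ range k, (s i : ℂ) * ei (ϑ + 2 * π * i / n)

variable {n : ℕ} {s₀ ϑ : ℝ} {a e : ℂ} {l : List ℂ} {s t : ℕ → ℝ}

theorem rig_fun (h : RigC n s₀ (ei ϑ) (a :: l) e) :
    ∃ s : ℕ → ℝ, (∀ k, s₀ ≤ s k) ∧ a :: l = (List.range (l.length + 1)).map (Pv n ϑ a s) := by
  induction l generalizing a ϑ with
  | nil => exact ⟨fun _ => s₀, fun _ => le_rfl, by simp [Pv]⟩
  | cons b l ih =>
    rcases h with _ | @⟨_, _, _, _, _, x, h1, h2, h3⟩
    rw [← ei_add] at h3
    obtain ⟨s, k1, k2⟩ := ih h3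
    refine ⟨fun k => Nat.casesOn k x s, fun k => by cases k; exacts [h1, k1 _], ?_⟩
    rw [List.length_cons, List.range_succ_eq_map, List.map_cons, List.map_map, k2]
    refine congrArg₂ List.cons (by simp [Pv]) (List.map_congr_left fun k _ => ?_)
    have e : ∀ i : ℕ, ϑ + 2 * π * ((i + 1 : ℕ) : ℝ) / n = ϑ + 2 * π / n + 2 * π * i / n :=
      fun i => by push_cast; ring
    simp only [Function.comp, Pv, Nat.succ_eq_add_one, sum_range_succ', e, Nat.cast_zero, mul_zero,
      zero_div, add_zero]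
    linear_combination h2

theorem Ed_range (p : ℕ → ℂ) (m : ℕ) :
    Ed ((List.range (m + 1)).map p) = (List.range m).map fun k => (p k, p (k + 1)) := by
  induction m with
  | zero => rfl
  | succ m ih =>
    rw [List.range_succ, List.map_append, List.map_singleton] at ih
    rw [List.range_succ, List.range_succ, List.append_assoc, List.map_append, List.map_append,
      List.map_singleton, List.map_singleton, List.singleton_append, Ed_append₂, ih,
      List.map_append]
    rfl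

theorem GReg_cr (S : Finset ℕ) (s σ : ℕ → ℝ) (y x : ℝ) :
    cr (∑ i ∈ S, (s i : ℂ) * ei (σ i)) (y * ei x) = ∑ i ∈ S, s i * y * sin (x - σ i) := by
  induction S using Finset.induction_on with
  | empty => simp [cr]
  | insert j S hj ih =>
    rw [sum_insert hj, sum_insert hj, cr_add_left, ih, cr_mul_left, cr_mul_right, cr_ei, mul_assoc]

theorem rig_sh (h : Pv n ϑ a s n = a) :
    sh (Ed ((List.range (n + 1)).map (Pv n ϑ a s))) = Sh n s s / 2 := by
  have key : ∀ m, sh ((List.range m).map fun k => (Pv n ϑ a s k, Pv n ϑ a s (k + 1))) =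
      (∑ k ∈ range m, ∑ i ∈ range k, s i * s k * sin (2 * π * k / n - 2 * π * i / n) +
        cr a (Pv n ϑ a s m)) / 2 := fun m => by
    induction m with
    | zero => simp [sh, Pv, cr_self]
    | succ m ih =>
      have e1 : Pv n ϑ a s (m + 1) = Pv n ϑ a s m + s m * ei (ϑ + 2 * π * m / n) := by
        rw [Pv, Pv, sum_range_succ, add_assoc]
      have e2 : cr (Pv n ϑ a s m) (s m * ei (ϑ + 2 * π * m / n)) =
          cr a (s m * ei (ϑ + 2 * π * m / n)) +
            ∑ i ∈ range m, s i * s m * sin (2 * π * m / n - 2 * π * i / n) := by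
        rw [Pv, cr_add_left, GReg_cr]
        simp only [add_sub_add_left_eq_sub]
      rw [List.range_succ, List.map_append, sh_append, ih, List.map_singleton, sh_cons, sh_nil,
        sum_range_succ, e1, cr_add_right, cr_add_right, cr_self, e2]
      ring
  rw [Ed_range, key, h, cr_self, add_zero, Sh]

theorem Sh_nonneg (ht : ∀ k, 0 ≤ t k) (h : ∑ i ∈ range n, (t i : ℂ) * ei (2 * π * i / n) = 0) :
    0 ≤ Sh n t t := by
  refine sum_nonneg fun k hk => ?_
  have hk' := mem_range.1 hk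
  have hn : (0 : ℝ) < n := Nat.cast_pos.2 (by omega)
  have mono : ∀ i j : ℕ, i ≤ j → 2 * π * i / n ≤ 2 * π * j / n := fun i j hij => by
    have : (i : ℝ) ≤ j := Nat.cast_le.2 hij
    gcongr
  by_cases c : 2 * π * k / n ≤ π
  · refine sum_nonneg fun i hi => mul_nonneg (mul_nonneg (ht i) (ht k)) ?_
    have h1 := mono i k (mem_range.1 hi).le
    have h2 : 0 ≤ 2 * π * i / n := by positivity
    exact sin_nonneg_of_nonneg_of_le_pi (by linarith only [h1]) (by linarith only [c, h2])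
  · have h1 := GReg_cr (range n) t (fun i => 2 * π * i / n) (t k) (2 * π * k / n)
    rw [h, cr_zero_left, ← sum_range_add_sum_Ico _ hk'.le] at h1
    rw [eq_neg_of_add_eq_zero_left h1.symm, neg_nonneg]
    refine sum_nonpos fun i hi => mul_nonpos_of_nonneg_of_nonpos (mul_nonneg (ht i) (ht k)) ?_
    have h2 := mono k i (mem_Ico.1 hi).1
    have h3 := mono i n (mem_Ico.1 hi).2.le
    rw [mul_div_cancel_right₀ _ hn.ne'] at h3
    exact sin_nonpos_of_nonpos_of_neg_pi_le (by linarith only [h2]) (by linarith only [c, h3])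

theorem Sh_symm (hs : ∑ i ∈ range n, (s i : ℂ) * ei (2 * π * i / n) = 0) : Sh n s t = Sh n t s := by
  have key : ∀ m, cr (∑ i ∈ range m, (s i : ℂ) * ei (2 * π * i / n))
      (∑ i ∈ range m, (t i : ℂ) * ei (2 * π * i / n)) =
      ∑ k ∈ range m, ∑ i ∈ range k, s i * t k * sin (2 * π * k / n - 2 * π * i / n) -
      ∑ k ∈ range m, ∑ i ∈ range k, t i * s k * sin (2 * π * k / n - 2 * π * i / n) := fun m => by
    induction m with
    | zero => simp [cr]
    | succ m ih =>
      rw [sum_range_succ, sum_range_succ, sum_range_succ, sum_range_succ, cr_add_left,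
        cr_add_right, cr_add_right, ih, GReg_cr, cr_swap (_ * _) (∑ i ∈ _, _), GReg_cr,
        cr_mul_left, cr_mul_right, cr_self]
      ring
  have := key n
  rw [hs, cr_zero_left] at this
  exact sub_eq_zero.1 this.symm

theorem GReg_ang (hn : 3 ≤ n) : 0 < π / n ∧ π / n < π / 2 := by
  have : (2 : ℝ) < n := by exact_mod_cast hn
  exact ⟨by positivity, by gcongr⟩

theorem Sh_one (hn : 3 ≤ n) (h : ∑ i ∈ range n, (t i : ℂ) * ei (2 * π * i / n) = 0) :
    Sh n (fun _ => 1) t = (∑ k ∈ range n, t k) / (2 * tan (π / n)) := by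
  obtain ⟨a1, a2⟩ := GReg_ang hn
  have hs : 0 < sin (π / n) := sin_pos_of_pos_of_lt_pi a1 (by linarith only [a1, a2])
  have hc : 0 < cos (π / n) := cos_pos_of_mem_Ioo ⟨by linarith only [a1, a2], a2⟩
  have h1 : ∀ k : ℕ, ∑ i ∈ range k, 1 * t k * sin (2 * π * k / n - 2 * π * i / n) =
      (t k * cos (π / n) - t k * 1 * sin (π / 2 - π / n - 2 * π * k / n)) / (2 * sin (π / n)) := by
    intro k
    have h2 := sum_range_sub (fun i : ℕ => cos (2 * π * k / n - 2 * π * i / n + π / n)) k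
    have h3 : ∀ i : ℕ, cos (2 * π * k / n - 2 * π * ((i + 1 : ℕ) : ℝ) / n + π / n) -
        cos (2 * π * k / n - 2 * π * i / n + π / n) =
        sin (2 * π * k / n - 2 * π * i / n) * (2 * sin (π / n)) := fun i => by
      rw [show 2 * π * k / n - 2 * π * ((i + 1 : ℕ) : ℝ) / n + π / n =
        2 * π * k / n - 2 * π * i / n - π / n by push_cast; ring, cos_sub _ (π / n), cos_add]
      ring
    simp only [h3, ← sum_mul, sub_self, zero_add, Nat.cast_zero, mul_zero, zero_div,
      sub_zero] at h2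
    rw [← mul_sum, eq_div_iff (by positivity), mul_assoc, h2, sub_sub, sin_pi_div_two_sub,
      add_comm]
    ring
  have h4 := GReg_cr (range n) t (fun i => 2 * π * i / n) 1 (π / 2 - π / n)
  rw [h, cr_zero_left] at h4
  simp only [Sh, h1]
  rw [← sum_div, sum_sub_distrib, ← h4, ← sum_mul, tan_eq_sin_div_cos]
  field_simp
  ring

theorem sum_ei (hn : 2 ≤ n) : ∑ i ∈ range n, ei (2 * π * i / n) = 0 := by
  have h0 : (1 : ℝ) < n := by exact_mod_cast hn
  have h1 := sum_range_sub (fun i : ℕ => ei (2 * π * i / n)) n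
  have h2 : ∀ i : ℕ, ei (2 * π * ((i + 1 : ℕ) : ℝ) / n) - ei (2 * π * i / n) =
      ei (2 * π * i / n) * (ei (2 * π / n) - 1) := fun i => by
    rw [mul_sub, ← ei_add, mul_one]
    congr 2
    push_cast
    ring
  simp only [h2, ← sum_mul] at h1
  rw [mul_div_cancel_right₀ _ (by positivity), ei_two_pi, Nat.cast_zero, mul_zero, zero_div,
    ei_zero, sub_self] at h1
  refine (mul_eq_zero.1 h1).resolve_right fun c => ?_
  have h3 := congrArg Complex.re (sub_eq_zero.1 c)
  have h4 : 0 < 2 * π / n := by positivity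
  rw [ei_re, Complex.one_re, cos_eq_one_iff_of_lt_of_lt (by linarith only [h4, pi_pos])
    (div_lt_self (by positivity) h0)] at h3
  exact h4.ne' h3

theorem rig_eq (hn : 3 ≤ n) (h0 : 0 < s₀) (hs : ∀ k, s₀ ≤ s k)
    (h : ∑ i ∈ range n, (s i : ℂ) * ei (2 * π * i / n) = 0)
    (hA : Sh n s s ≤ n * s₀ ^ 2 / (2 * tan (π / n))) : ∀ k < n, s k = s₀ := by
  obtain ⟨a1, a2⟩ := GReg_ang hn
  have ht : 0 < tan (π / n) := tan_pos_of_pos_of_lt_pi_div_two a1 a2
  have h1 := sum_ei (n := n) (by omega)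
  have h2 : ∑ i ∈ range n, ((s i - s₀ : ℝ) : ℂ) * ei (2 * π * i / n) = 0 := by
    simp only [Complex.ofReal_sub, sub_mul, sum_sub_distrib, ← mul_sum, h, h1, mul_zero, sub_zero]
  have h3 : Sh n s s = s₀ ^ 2 * Sh n (fun _ => 1) (fun _ => 1) +
      s₀ * Sh n (fun _ => 1) (fun i => s i - s₀) + s₀ * Sh n (fun i => s i - s₀) (fun _ => 1) +
      Sh n (fun i => s i - s₀) fun i => s i - s₀ := by
    simp only [Sh, mul_sum, ← sum_add_distrib]
    exact sum_congr rfl fun k _ => sum_congr rfl fun i _ => by ring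
  have h4 := Sh_nonneg (fun k => sub_nonneg.2 (hs k)) h2
  rw [Sh_symm h2, Sh_one hn h2, Sh_one hn (by simpa using h1), sum_const, card_range,
    nsmul_eq_mul, mul_one] at h3
  have h5 : (∑ k ∈ range n, (s k - s₀)) / (2 * tan (π / n)) ≤ 0 := by
    refine nonpos_of_mul_nonpos_right ?_ h0
    have : n * s₀ ^ 2 / (2 * tan (π / n)) = s₀ ^ 2 * (n / (2 * tan (π / n))) := by ring
    linarith only [hA, h3, h4, this]
  rw [div_le_iff₀ (by positivity), zero_mul] at h5
  have h6 := fun k (_ : k ∈ range n) => sub_nonneg.2 (hs k)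
  exact fun k hk => sub_eq_zero.1 ((sum_eq_zero_iff_of_nonneg h6).1
    (le_antisymm h5 (sum_nonneg h6)) k (mem_range.2 hk))

theorem GReg_chord (x : ℝ) : ei (2 * x) - 1 = (2 * sin x : ℝ) * ei (π / 2 + x) := by
  apply Complex.ext
  · rw [Complex.re_ofReal_mul, Complex.sub_re, ei_re, ei_re, Complex.one_re, add_comm,
      cos_add_pi_div_two, cos_two_mul, cos_sq']
    ring
  · rw [Complex.im_ofReal_mul, Complex.sub_im, ei_im, ei_im, Complex.one_im, add_comm,
      sin_add_pi_div_two, sin_two_mul, sub_zero]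

theorem rig_regular (hn : 5 ≤ n) {r : ℝ} (hr : 0 < r) (hl : l.length + 1 = n)
    (h : RigC n (2 * r * sin (π / n)) (ei ϑ) (a :: l ++ [a]) e)
    (hA : sh (Ed (a :: l ++ [a])) = n * (r ^ 2 * sin (2 * π / n) / 2)) :
    ∃ (O : ℂ) (ϑ₀ : ℝ), GC (Ed (a :: l ++ [a])) = (fun z => O + ei ϑ₀ * z) '' Gam (reg n r) := by
  obtain ⟨a1, a2⟩ := GReg_ang (n := n) (by omega)
  have hs : 0 < sin (π / n) := sin_pos_of_pos_of_lt_pi a1 (by linarith only [a1, a2])
  have hc : 0 < cos (π / n) := cos_pos_of_mem_Ioo ⟨by linarith only [a1, a2], a2⟩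
  obtain ⟨s, k1, k2⟩ := rig_fun (l := l ++ [a]) h
  rw [List.length_append, List.length_singleton, hl, ← List.cons_append] at k2
  have k3 : Pv n ϑ a s n = a := by
    rw [List.range_succ, List.map_append] at k2
    exact (List.head_eq_of_cons_eq (List.append_inj_right' k2 rfl)).symm
  have k4 : ∑ i ∈ range n, (s i : ℂ) * ei (2 * π * i / n) = 0 := by
    rw [Pv, add_eq_left] at k3
    simp only [ei_add, mul_left_comm _ (ei ϑ), ← mul_sum] at k3
    exact (mul_eq_zero.1 k3).resolve_left (ei_ne_zero _)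
  rw [k2, rig_sh k3] at hA
  have k5 := rig_eq (by omega) (by positivity) k1 k4 (by
    rw [mul_div_assoc 2, sin_two_mul] at hA
    rw [tan_eq_sin_div_cos]
    refine le_of_eq ?_
    field_simp
    linear_combination 2 * hA)
  obtain ⟨ϑ₀, rfl⟩ : ∃ ϑ₀, ϑ = ϑ₀ + (π / 2 + π / n) := ⟨ϑ - (π / 2 + π / n), by ring⟩
  have k6 : ∀ k ≤ n, Pv n (ϑ₀ + (π / 2 + π / n)) a s k =
      a - r * ei ϑ₀ + ei ϑ₀ * (r * ei (2 * π * k / n)) := fun k hk => by
    induction k with
    | zero => simp [Pv, mul_comm]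
    | succ k ih =>
      have e1 := ih (by omega)
      have e2 := GReg_chord (π / n)
      rw [Pv] at e1
      rw [Pv, sum_range_succ, ← add_assoc, e1, k5 k hk,
        show 2 * π * ((k + 1 : ℕ) : ℝ) / n = 2 * (π / n) + 2 * π * k / n by push_cast; ring,
        ei_add, ei_add ϑ₀, ei_add (2 * _)]
      push_cast at e2 ⊢
      linear_combination -(r * ei ϑ₀ * ei (2 * π * k / n)) * e2
  refine ⟨a - r * ei ϑ₀, ϑ₀, ?_⟩
  rw [k2, Ed_range, Gam, image_iUnion]
  ext z
  simp only [GC, mem_ofPred_eq, List.mem_map, List.mem_range, mem_iUnion, edge, Equal_img,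
    Equal_reg_rot, exists_exists_and_eq_and]
  constructor
  · rintro ⟨k, hk, hz⟩
    rw [k6 k hk.le, k6 _ hk, Nat.cast_succ] at hz
    exact ⟨⟨k, hk⟩, hz⟩
  · rintro ⟨k, hz⟩
    refine ⟨k, k.2, ?_⟩
    rw [k6 k k.2.le, k6 _ k.2, Nat.cast_succ]
    exact hz

end Pool.Agent.Work.MP_267827_an.PS
end

-- merged part: Pool.Agent.Work.MP_267827_an.PS.GStrict
section
/-! A gain on some open subset of a connected domain gives a spectral gap (skeleton helper49).

Put `Q u = EE u - lam * NN u ≥ 0` on test functions.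

`strict_cs`: test functions form a vector space; `0 ≤ Q (u + t φ) = Q u + 2 t B + t ^ 2 Q φ` for all
real `t` (`discrim_le_zero`), where `‖L‖ ^ 2 = (L 1) ^ 2 + (L I) ^ 2` for `L : ℂ →L[ℝ] ℝ`
(`norm_sq_fderiv`).
`strict_bump`: `φ z = max (ρ ^ 2 - s) 0 ^ k`, `s = ‖z - y‖ ^ 2`, `k ≥ 3` with `ρ ^ 2 < k r ^ 2`.
The coordinate derivatives are `φ₁ = -2 k max (ρ ^ 2 - s) 0 ^ (k - 1) (z - y).re`, `φ₂` the same with
`im`; they are `C¹` because `x ↦ max x 0 ^ (j + 2)` has the continuous derivative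
`(j + 2) max x 0 ^ (j + 1)`.  The Laplacian is `4 k max (ρ ^ 2 - s) 0 ^ (k - 2) (k s - ρ ^ 2)`;
it is continuous, nonnegative for `s ≥ r ^ 2` and positive on the compact annulus
`r ≤ ‖z - y‖ ≤ ρ'`.
`strict_step`: integrate by parts (`integral_mul_fderiv_eq_neg_fderiv_mul_of_integrable`):
`∫ u (Δ φ + lam φ) = -B (u, φ) ≤ sqrt (Q u * Q φ)`, and the left side is at least
`c ∫ u over the annulus - C ∫ u over ball y r`.
`strict_good`: the set of `x ∈ P` with a good ball is open, nonempty (points of `U`: Cauchy-Schwarz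
`∫_B u ≤ sqrt (vol B) * sqrt (∫_U u ^ 2)`) and closed in `P` (if `ball x (4 R) ⊆ P` and `y` is good
with `‖x - y‖ < R` use `strict_step` with `ρ' = 2 R`, `ρ = 3 R` and a small `r`);
use `IsPreconnected.subset_of_closure_inter_subset`.
`strict_l1`: choose a compact `K ⊆ P` with `vol (P \ K) < η ^ 2`
(`MeasurableSet.exists_isCompact_diff_lt`), cover it by finitely many good balls
(`IsCompact.induction_on` or `elim_nhds_subcover`), Cauchy-Schwarz on `P \ K`.
`strict_l4`: `MeasureTheory.eLpNorm_le_eLpNorm_fderiv_one` for `u ^ 2` with exponent `2`, and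
`∫ 2 |u| ‖fderiv u‖ ≤ 2 sqrt (NN u) sqrt (EE u)`.
`strict_pos`: for `u ≥ 0` scaled to `NN u = 1` and `EE u ≤ lam + 1`:
`u ^ 2 ≤ M u + u ^ 4 / M ^ 2` pointwise, so `1 ≤ M (C' sqrt (Q u) + η) + C (lam + 1) / M ^ 2`;
choose `M`, then `η`; so `Q u ≥ μ`.
`strict`: for general `u` use `w = sqrt (u ^ 2 + δ ^ 2) - δ`: a test function, `w ≥ 0`,
`‖fderiv w‖ ≤ ‖fderiv u‖`, `w ^ 2 ≥ u ^ 2 - 2 δ |u|`; let `δ → 0`. -/

set_option autoImplicit false

namespace Pool.Agent.Work.MP_267827_an.PS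

open MeasureTheory Set Filter Topology Real Metric

variable {P : Set ℂ} {lam : ℝ}

theorem GStrict_cs {f g : ℂ → ℝ} (hf : Integrable fun z => f z ^ 2)
    (hg : Integrable fun z => g z ^ 2) (hfg : Integrable fun z => f z * g z) :
    (∫ z, f z * g z) ^ 2 ≤ (∫ z, f z ^ 2) * ∫ z, g z ^ 2 := by
  have h : ∀ t : ℝ, 0 ≤ (∫ z, f z ^ 2) * (t * t) + (2 * ∫ z, f z * g z) * t + ∫ z, g z ^ 2 := by
    intro t
    have e : (∫ z, f z ^ 2) * (t * t) + (2 * ∫ z, f z * g z) * t + ∫ z, g z ^ 2 =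
        ∫ z, (t * t * f z ^ 2 + 2 * t * (f z * g z) + g z ^ 2) := by
      have i1 : Integrable fun z => t * t * f z ^ 2 + 2 * t * (f z * g z) :=
        (hf.const_mul _).add (hfg.const_mul _)
      rw [integral_add i1 hg,
        integral_add (hf.const_mul _) (hfg.const_mul _), integral_const_mul, integral_const_mul]
      ring
    rw [e]
    refine integral_nonneg fun z => ?_
    show (0 : ℝ) ≤ t * t * f z ^ 2 + 2 * t * (f z * g z) + g z ^ 2
    linarith only [sq_nonneg (t * f z + g z), sq_nonneg (t * f z + g z)]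
  have := discrim_le_zero h
  rw [discrim] at this
  nlinarith

theorem GStrict_int {u : ℂ → ℝ} (h1 : ContDiff ℝ 1 u) (h2 : HasCompactSupport u) {g : ℝ → ℝ}
    (hg : Continuous g) (h0 : g 0 = 0) : Integrable fun z => g (u z) :=
  (hg.comp h1.continuous).integrable_of_hasCompactSupport (h2.comp_left h0)

theorem GStrict_NN (u : ℂ → ℝ) : 0 ≤ NN u := integral_nonneg fun _ => sq_nonneg _

theorem GStrict_EE (u : ℂ → ℝ) : 0 ≤ EE u := integral_nonneg fun _ => sq_nonneg _

theorem GStrict_pt {x M : ℝ} (hx : 0 ≤ x) (hM : 0 < M) : x ^ 2 ≤ M * x + x ^ 4 / M ^ 2 := by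
  have h4 : 0 ≤ x ^ 4 / M ^ 2 := by positivity
  rcases le_total x M with h | h
  · linarith only [h4, hx, h, mul_nonneg_of_nonpos_of_nonpos (Mathlib.Tactic.Linarith.sub_nonpos_of_le hx) (Mathlib.Tactic.Linarith.sub_nonpos_of_le h)]
  · have : x ^ 2 ≤ x ^ 4 / M ^ 2 := by
      rw [le_div_iff₀ (by positivity)]
      have : M ^ 2 ≤ x ^ 2 := by linarith only [hx, h, hM, mul_nonneg_of_nonpos_of_nonpos (Mathlib.Tactic.Linarith.sub_nonpos_of_le hx) (Mathlib.Tactic.Linarith.sub_nonpos_of_le h), mul_nonneg_of_nonpos_of_nonpos (le_of_lt (Mathlib.Tactic.Linarith.sub_neg_of_lt hM)) (Mathlib.Tactic.Linarith.sub_nonpos_of_le h)]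
      linarith only [this, sq_nonneg x, mul_nonneg_of_nonpos_of_nonpos (Mathlib.Tactic.Linarith.sub_nonpos_of_le (sq_nonneg x)) (Mathlib.Tactic.Linarith.sub_nonpos_of_le this)]
    linarith only [this, hM, hx, mul_nonneg hM.le hx]

theorem strict_l4 : ∃ C : ℝ, 0 < C ∧ ∀ u : ℂ → ℝ, ContDiff ℝ 1 u → HasCompactSupport u →
    ∫ z, u z ^ 4 ≤ C * NN u * EE u := by
  refine ⟨4 * (lintegralPowLePowLIntegralFDerivConst (volume : Measure ℂ) 2 : ℝ) + 1,
    by positivity, fun u h1 h2 => ?_⟩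
  set C := lintegralPowLePowLIntegralFDerivConst (volume : Measure ℂ) 2
  have v1 : ContDiff ℝ 1 fun z => u z ^ 2 := h1.pow 2
  have v2 : HasCompactSupport fun z => u z ^ 2 :=
    h2.comp_left (g := fun x : ℝ => x ^ 2) (by norm_num)
  have hp : Real.HolderConjugate (Module.finrank ℝ ℂ) 2 := by
    rw [Complex.finrank_real_complex]; exact_mod_cast Real.HolderConjugate.two_two
  have key := lintegral_pow_le_pow_lintegral_fderiv (volume : Measure ℂ) v1 v2 hp
  have i4 : Integrable fun z => u z ^ 4 :=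
    GStrict_int h1 h2 (g := fun x => x ^ 4) (by fun_prop) (by norm_num)
  have iD : Integrable (fderiv ℝ fun z => u z ^ 2) :=
    (v1.continuous_fderiv one_ne_zero).integrable_of_hasCompactSupport (v2.fderiv ℝ)
  have e1 : ∫⁻ z, ‖u z ^ 2‖ₑ ^ (2 : ℝ) = ENNReal.ofReal (∫ z, u z ^ 4) := by
    rw [ofReal_integral_eq_lintegral_ofReal i4 (Eventually.of_forall fun z => by positivity)]
    refine lintegral_congr fun z => ?_
    rw [Real.enorm_eq_ofReal (sq_nonneg _), ENNReal.ofReal_rpow_of_nonneg (sq_nonneg _) zero_le_two]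
    congr 1
    rw [Real.rpow_two]; ring
  have n0 : 0 ≤ ∫ z, ‖fderiv ℝ (fun z => u z ^ 2) z‖ := integral_nonneg fun _ => norm_nonneg _
  rw [e1, ← ofReal_integral_norm_eq_lintegral_enorm iD, ENNReal.ofReal_rpow_of_nonneg n0 zero_le_two,
    ← ENNReal.ofReal_coe_nnreal, ← ENNReal.ofReal_mul (NNReal.coe_nonneg _),
    ENNReal.ofReal_le_ofReal_iff (by positivity), Real.rpow_two] at key
  have e2 : ∫ z, ‖fderiv ℝ (fun z => u z ^ 2) z‖ = 2 * ∫ z, |u z| * ‖fderiv ℝ u z‖ := by
    rw [← integral_const_mul]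
    refine integral_congr_ae (Eventually.of_forall fun z => ?_)
    have hd := ((h1.differentiable one_ne_zero z).hasFDerivAt.pow 2).fderiv
    show ‖fderiv ℝ (fun z => u z ^ 2) z‖ = 2 * (|u z| * ‖fderiv ℝ u z‖)
    rw [hd, norm_smul]
    simp [mul_assoc]
  have cs := GStrict_cs (f := fun z => |u z|) (g := fun z => ‖fderiv ℝ u z‖)
    (by simpa only [sq_abs] using int_sq h1 h2) (int_grad h1 h2)
    ((h1.continuous.abs.mul (h1.continuous_fderiv one_ne_zero).norm).integrable_of_hasCompactSupport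
      (h2.fderiv ℝ).norm.mul_left)
  simp only [sq_abs] at cs
  have cs' : (∫ z, |u z| * ‖fderiv ℝ u z‖) ^ 2 ≤ NN u * EE u := cs
  rw [e2] at key
  have hC : (0 : ℝ) ≤ C := C.coe_nonneg
  have := mul_nonneg (GStrict_NN u) (GStrict_EE u)
  have := mul_le_mul_of_nonneg_left cs' hC
  linarith only [key, cs', this, sq_nonneg (∫ (z : ℂ), |u z| * ‖fderiv ℝ u z‖)]

theorem strict_pos (hl : 0 ≤ lam) (ho : IsOpen P) (hb : Bornology.IsBounded P)
    (hg : ∀ x ∈ P, ∃ r : ℝ, 0 < r ∧ GoodSet P lam (ball x r)) :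
    ∃ μ : ℝ, 0 < μ ∧ ∀ u, Test P u → (∀ z, 0 ≤ u z) → (lam + μ) * NN u ≤ EE u := by
  obtain ⟨C, hC, h4⟩ := strict_l4
  obtain ⟨m, m1, hm⟩ : ∃ m : ℝ, 1 ≤ m ∧ 4 * (C * (lam + 1)) ≤ m :=
    ⟨4 * (C * (lam + 1)) + 1, by linarith only [hC, hl, mul_pos hC (by linarith : 0 < lam + 1)], by linarith⟩
  have m0 : 0 < m := by linarith
  obtain ⟨C', h1⟩ := strict_l1 ho hb hg (η := 1 / (4 * m)) (by positivity)
  refine ⟨min 1 (1 / ((2 * m * C') ^ 2 + 1)), by positivity, fun u hu u0 => ?_⟩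
  have N0 := GStrict_NN u
  have E0 := GStrict_EE u
  rcases N0.eq_or_lt with hN | hN
  · rw [← hN, mul_zero]; exact E0
  by_cases hE : (lam + 1) * NN u ≤ EE u
  · have := min_le_left (1 : ℝ) (1 / ((2 * m * C') ^ 2 + 1))
    exact le_trans (mul_le_mul_of_nonneg_right (by linarith only [this]) N0) hE
  have hE' : EE u ≤ (lam + 1) * NN u := (not_le.1 hE).le
  obtain ⟨s, s0, hs, hs'⟩ : ∃ s : ℝ, 0 < s ∧ √(NN u) = s ∧ NN u = s ^ 2 :=
    ⟨_, Real.sqrt_pos.2 hN, rfl, (Real.sq_sqrt N0).symm⟩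
  have i1 : Integrable u := hu.1.continuous.integrable_of_hasCompactSupport hu.2.1
  have i4 : Integrable fun z => u z ^ 4 :=
    GStrict_int hu.1 hu.2.1 (g := fun x => x ^ 4) (by fun_prop) (by norm_num)
  have a1 : NN u ≤ m * s * (∫ z, u z) + (∫ z, u z ^ 4) / (m * s) ^ 2 := by
    rw [← integral_const_mul, ← integral_div, ← integral_add (i1.const_mul _) (i4.div_const _)]
    exact integral_mono (int_sq hu.1 hu.2.1) ((i1.const_mul _).add (i4.div_const _))
      fun z => GStrict_pt (u0 z) (by positivity)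
  have a2 := h1 u hu u0
  rw [hs] at a2
  have a3 : (∫ z, u z ^ 4) / (m * s) ^ 2 ≤ s ^ 2 / 4 := by
    rw [div_le_iff₀ (by positivity)]
    have b1 : C * NN u * EE u ≤ C * NN u * ((lam + 1) * NN u) :=
      mul_le_mul_of_nonneg_left hE' (by positivity)
    have b2 : 4 * (C * (lam + 1)) ≤ m ^ 2 := by linarith only [m1, hm, mul_nonneg_of_nonpos_of_nonpos (Mathlib.Tactic.Linarith.sub_nonpos_of_le m1) (Mathlib.Tactic.Linarith.sub_nonpos_of_le m1)]
    have b3 := mul_le_mul_of_nonneg_right b2 (by positivity : 0 ≤ s ^ 4)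
    have b4 := h4 u hu.1 hu.2.1
    rw [hs'] at b1 b4
    linarith only [b1, b3, b4]
  have q0 := Real.sqrt_nonneg (EE u - lam * NN u)
  have a4 : s ≤ 2 * m * C' * √(EE u - lam * NN u) := by
    have b1 := mul_le_mul_of_nonneg_left a2 (by positivity : 0 ≤ m * s)
    have b2 : m * s * (1 / (4 * m) * s) = s ^ 2 / 4 := by field_simp
    rw [mul_add, b2] at b1
    have b3 : s * s ≤ s * (2 * m * C' * √(EE u - lam * NN u)) := by linarith only [hs', a1, a3, b1]
    exact le_of_mul_le_mul_left b3 s0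
  have Q0 : 0 ≤ EE u - lam * NN u := by
    by_contra h
    rw [Real.sqrt_eq_zero_of_nonpos (not_le.1 h).le, mul_zero] at a4
    linarith only [s0, a4]
  have a5 : NN u ≤ ((2 * m * C') ^ 2 + 1) * (EE u - lam * NN u) := by
    have b1 := pow_le_pow_left₀ s0.le a4 2
    rw [mul_pow, Real.sq_sqrt Q0, ← hs'] at b1
    linarith only [Q0, b1]
  have a6 : 1 / ((2 * m * C') ^ 2 + 1) * NN u ≤ EE u - lam * NN u := by
    rw [one_div, inv_mul_le_iff₀ (by positivity)]; exact a5
  have := mul_le_mul_of_nonneg_right (min_le_right (1 : ℝ) (1 / ((2 * m * C') ^ 2 + 1))) N0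
  linarith only [a6, this]

theorem strict_abs {lam' : ℝ} (h : ∀ u, Test P u → (∀ z, 0 ≤ u z) → lam' * NN u ≤ EE u) :
    ∀ u, Test P u → lam' * NN u ≤ EE u := by
  intro u hu
  rcases le_or_gt lam' 0 with hl | hl
  · exact (mul_nonpos_of_nonpos_of_nonneg hl (GStrict_NN u)).trans (GStrict_EE u)
  have iA : Integrable fun z => |u z| :=
    GStrict_int hu.1 hu.2.1 (g := fun x => |x|) (by fun_prop) abs_zero
  have L0 : 0 ≤ ∫ z, |u z| := integral_nonneg fun _ => abs_nonneg _
  have key : ∀ δ : ℝ, 0 < δ → lam' * (NN u - 2 * δ * ∫ z, |u z|) ≤ EE u := by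
    intro δ hδ
    have pos : ∀ z, 0 < u z ^ 2 + δ ^ 2 := fun z => by positivity
    have g0 : (fun x : ℝ => √(x ^ 2 + δ ^ 2) - δ) 0 = 0 := by simp [Real.sqrt_sq hδ.le]
    have w1 : ContDiff ℝ 1 fun z => √(u z ^ 2 + δ ^ 2) - δ :=
      (((hu.1.pow 2).add contDiff_const).sqrt fun z => (pos z).ne').sub contDiff_const
    have w2 : HasCompactSupport fun z => √(u z ^ 2 + δ ^ 2) - δ :=
      hu.2.1.comp_left (g := fun x : ℝ => √(x ^ 2 + δ ^ 2) - δ) g0
    have w3 : tsupport (fun z => √(u z ^ 2 + δ ^ 2) - δ) ⊆ P :=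
      (tsupport_comp_subset (g := fun x : ℝ => √(x ^ 2 + δ ^ 2) - δ) g0 u).trans hu.2.2
    have w0 : ∀ z, 0 ≤ √(u z ^ 2 + δ ^ 2) - δ := fun z =>
      sub_nonneg.2 (Real.le_sqrt_of_sq_le (by linarith only [sq_nonneg (u z), sq_nonneg (u z)]))
    have k := h _ ⟨w1, w2, w3⟩ w0
    have k1 : EE (fun z => √(u z ^ 2 + δ ^ 2) - δ) ≤ EE u := by
      refine integral_mono (int_grad w1 w2) (int_grad hu.1 hu.2.1) fun z => ?_
      have hd := (((((hu.1.differentiable one_ne_zero z).hasFDerivAt.pow 2).add_const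
        (δ ^ 2)).sqrt (pos z).ne').sub_const δ).fderiv
      refine pow_le_pow_left₀ (norm_nonneg _) ?_ 2
      rw [hd, smul_smul, norm_smul]
      refine mul_le_of_le_one_left (norm_nonneg _) ?_
      have r0 : 0 < √(u z ^ 2 + δ ^ 2) := Real.sqrt_pos.2 (pos z)
      have r1 : |u z| ≤ √(u z ^ 2 + δ ^ 2) := Real.abs_le_sqrt (by linarith only [sq_nonneg δ, sq_nonneg δ])
      have e : 1 / (2 * √(u z ^ 2 + δ ^ 2)) * (2 • u z ^ (2 - 1)) = u z / √(u z ^ 2 + δ ^ 2) := by
        simp only [nsmul_eq_mul, Nat.cast_ofNat, Nat.add_one_sub_one, pow_one]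
        field_simp
      rw [e, Real.norm_eq_abs, abs_div, abs_of_pos r0, div_le_one r0]
      exact r1
    have k2 : NN u - 2 * δ * ∫ z, |u z| ≤ NN fun z => √(u z ^ 2 + δ ^ 2) - δ := by
      unfold NN
      rw [← integral_const_mul, ← integral_sub (int_sq hu.1 hu.2.1) (iA.const_mul _)]
      refine integral_mono ((int_sq hu.1 hu.2.1).sub (iA.const_mul _)) (int_sq w1 w2) fun z => ?_
      have r1 : √(u z ^ 2 + δ ^ 2) ≤ |u z| + δ := by
        refine Real.sqrt_le_iff.2 ⟨by positivity, ?_⟩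
        linarith only [hδ, sq_abs (u z), mul_nonneg (abs_nonneg (u z)) hδ.le]
      have r2 := Real.sq_sqrt (pos z).le
      show u z ^ 2 - 2 * δ * |u z| ≤ (√(u z ^ 2 + δ ^ 2) - δ) ^ 2
      linarith only [r2, hδ, r1, mul_nonneg_of_nonpos_of_nonpos (le_of_lt (Mathlib.Tactic.Linarith.sub_neg_of_lt hδ)) (Mathlib.Tactic.Linarith.sub_nonpos_of_le r1)]
    exact ((mul_le_mul_of_nonneg_left k2 hl.le).trans k).trans k1
  have hc : Continuous fun δ : ℝ => lam' * (NN u - 2 * δ * ∫ z, |u z|) := by fun_prop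
  have ht : Tendsto (fun δ : ℝ => lam' * (NN u - 2 * δ * ∫ z, |u z|)) (𝓝[>] 0)
      (𝓝 (lam' * NN u)) := by
    simpa using (hc.tendsto 0).mono_left (nhdsWithin_le_nhds (s := Ioi 0))
  exact le_of_tendsto ht (eventually_nhdsWithin_of_forall key)

theorem strict (hl : 0 ≤ lam) (ho : IsOpen P) (hc : IsPreconnected P)
    (hb : Bornology.IsBounded P) {D : Set ℂ} (hD : Disjoint P D) (h : HS D P lam) :
    ∃ μ : ℝ, 0 < μ ∧ ∀ u, Test P u → (lam + μ) * NN u ≤ EE u := by
  obtain ⟨U, μ, hU, hne, hs, hμ, h⟩ := h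
  have h' : ∀ u, Test P u → lam * NN u + μ * ∫ z in U, u z ^ 2 ≤ EE u := by
    intro u hu
    have k := h u hu.1 hu.2.1 (hD.mono_left hu.2.2)
    rw [setIntegral_eq_integral_of_forall_compl_eq_zero (s := P) (fun z hz => by
        rw [image_eq_zero_of_notMem_tsupport fun h => hz (hu.2.2 h)]; norm_num),
      setIntegral_eq_integral_of_forall_compl_eq_zero (s := P) (fun z hz => by
        rw [fderiv_of_notMem_tsupport ℝ fun h => hz (hu.2.2 h)]; norm_num)] at k
    exact k
  obtain ⟨ν, hν, k⟩ := strict_pos hl ho hb (strict_good hl ho hc hU hne hs hμ h')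
  exact ⟨ν, hν, strict_abs k⟩

end Pool.Agent.Work.MP_267827_an.PS
end

-- merged part: Pool.Agent.Work.MP_267827_an.PS.GFinal
section
/-! From the two inequalities for cells to the polygonal inequality (skeleton helper49).

`edges_loop`: `n = m + 1`; `List.ofFn` of the edges is `Ed` of `List.ofFn v ++ [v 0]`
(`Ed_range`, or compare `Ed_fst`, `Ed_snd` with `List.zip`; `finRotate_succ_apply`,
`Equal_rot_val`).
`edges_simp`: `Simple.inter`: two different edges meet only in the common vertex of consecutive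
edges; `v i ≠ v (finRotate n i)` by non-collinearity.
`core_of`: `s₀ = 2 r sin (π / n)`; `Cst` from `hlam` (`sin (2 x) = 2 sin x cos x`).  By `jordan` take
`es = edges v` or its reverse (`GC_swap`), `IL es = Ins (Gam v)` (`SP.ins`), so
`sh es = n (r ^ 2 sin (2 π / n) / 2)` (`SP.vol`, `reg_vol`).  `top`, then `strict` (`SP.conn`,
`Loop.isOpen_IL`, `Loop.bdd_IL`, `IL_disjoint`) or `rig_regular`. -/

set_option autoImplicit false

namespace Pool.Agent.Work.MP_267827_an.PS

open MeasureTheory Set Filter Topology Real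

/-- the oriented edges of a polygon -/
def edges {n : ℕ} (v : Fin n → ℂ) : List (ℂ × ℂ) := List.ofFn fun i => (v i, v (finRotate n i))

variable {n : ℕ} {v : Fin n → ℂ}

theorem edges_length (v : Fin n → ℂ) : (edges v).length = n := List.length_ofFn

theorem GFinal_mem {e : ℂ × ℂ} : e ∈ edges v ↔ ∃ i, (v i, v (finRotate n i)) = e := List.mem_ofFn

theorem edges_GC (v : Fin n → ℂ) : GC (edges v) = Gam v := by
  ext z
  simp only [GC, Gam, edge, GFinal_mem, mem_iUnion, mem_ofPred_eq, exists_exists_eq_and]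

theorem edges_loop (hn : 0 < n) (v : Fin n → ℂ) : Loop (edges v) := by
  obtain ⟨m, rfl⟩ := Nat.exists_eq_add_one_of_ne_zero hn.ne'
  refine ⟨v 0, List.ofFn fun i => v i.succ, .of_eq ?_⟩
  refine (List.zip_of_prod rfl rfl).trans (Eq.trans ?_ (List.zip_of_prod rfl rfl).symm)
  rw [Ed_fst, Ed_snd, List.dropLast_concat, edges, List.map_ofFn, List.map_ofFn,
    List.ofFn_succ' (Prod.snd ∘ _), List.ofFn_succ (f := Prod.fst ∘ _)]
  simp

theorem edges_simp (hn : 3 ≤ n) (hv : Simple v) : Simp (edges v) := by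
  have h1 : ∀ i, v i ≠ v (finRotate n i) := fun i e => hv.1 i (by
    rw [← e, insert_eq_of_mem (mem_insert _ _)]
    exact collinear_pair ℝ _ _)
  have h2 : Function.Injective v := fun i j e => by_contra fun h => by
    obtain ⟨rfl, -⟩ | ⟨rfl, -⟩ := hv.inter hn h (left_mem_segment ℝ _ _)
      (e ▸ left_mem_segment ℝ _ _)
    · exact h1 i e
    · exact h1 j e.symm
  refine ⟨?_, ?_, ?_⟩
  · rw [edges, List.map_ofFn]
    exact List.nodup_ofFn.2 h2
  · simp only [GFinal_mem]
    rintro _ ⟨i, rfl⟩ _ ⟨j, rfl⟩ h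
    obtain rfl | h3 := eq_or_ne i j
    · exact h1 i (left_mem_openSegment_iff.1 h)
    obtain ⟨rfl, -⟩ | ⟨-, e⟩ := hv.inter hn h3 (openSegment_subset_segment ℝ _ _ h)
      (left_mem_segment ℝ _ _)
    · exact h1 i (right_mem_openSegment_iff.1 h)
    · exact h3 (h2 e).symm
  · simp only [GFinal_mem]
    rintro _ ⟨i, rfl⟩ _ ⟨j, rfl⟩ h
    refine disjoint_left.2 fun z hi hj => ?_
    obtain ⟨-, rfl⟩ | ⟨-, rfl⟩ := hv.inter hn (fun e => h (by rw [e]))
      (openSegment_subset_segment ℝ _ _ hi) (openSegment_subset_segment ℝ _ _ hj)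
    · exact h1 j (left_mem_openSegment_iff.1 hj)
    · exact h1 i (left_mem_openSegment_iff.1 hi)

theorem core_of (hn : 5 ≤ n) {g κ lam r : ℝ} (hg : 0 < g) (hκ : 0 < κ) (hl : 0 < lam) (hr : 0 < r)
    (hlam : lam * (n * (r ^ 2 * sin (2 * π / n) / 2)) = 2 * π * g - 2 * n * κ)
    (h1 : RIGHT n g κ) (h2 : OBT g κ)
    (hup : ∀ η : ℝ, 0 < η → ∃ u : ℂ → ℝ, Test (Ins (Gam (reg n r))) u ∧ u ≠ 0 ∧
      EE u ≤ (lam + η) * NN u) : CoreC n := by
  have hn0 : (0 : ℝ) < n := by exact_mod_cast (by omega : 0 < n)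
  obtain ⟨a1, a2⟩ := Reg_ang hn
  have hs : 0 < sin (π / n) := sin_pos_of_pos_of_lt_pi a1 (by linarith only [a1, a2, pi_pos])
  have hc : 0 < cos (π / n) := cos_pos_of_mem_Ioo ⟨by linarith only [a1, a2], a2⟩
  have h3 : sin (2 * π / n) = 2 * sin (π / n) * cos (π / n) := by
    rw [mul_div_assoc, sin_two_mul]
  have hC : Cst n g κ lam (2 * r * sin (π / n)) := by
    refine ⟨hn, hg, hκ, hl, by positivity, ?_, h1, h2⟩
    have h4 : g * (π / n) - κ = lam * (r ^ 2 * (sin (π / n) * cos (π / n)) / 2) := by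
      rw [h3] at hlam
      generalize sin (π / n) = x at *
      generalize cos (π / n) = y at *
      field_simp
      linear_combination -hlam
    rw [h4, tan_eq_sin_div_cos]
    field_simp
    ring
  refine ⟨r, lam, hr, hup, fun v hv hvol => ?_⟩
  obtain ⟨es, h, hG, hlen⟩ : ∃ es, SP es ∧ GC es = Gam v ∧ es.length = n := by
    obtain h | h := jordan (edges_loop (by omega) v) (edges_simp (by omega) hv)
    · exact ⟨_, h, edges_GC v, edges_length v⟩
    · exact ⟨_, h, (GC_swap _).trans (edges_GC v), (List.length_map _).trans (edges_length v)⟩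
  have hI : IL es = Ins (Gam v) := hG ▸ h.ins
  have hA : sh es = n * (r ^ 2 * sin (2 * π / n) / 2) := by
    rw [← h.vol_real, Measure.real, hI, hvol, reg_vol hn hr, ENNReal.toReal_ofReal]
    rw [h3]
    positivity
  obtain h4 | ⟨ϑ, a, l, h4, h5⟩ := top hC h (by rw [hA, hlam, hlen]; ring)
  · exact Or.inr (hI ▸ strict hl.le h.loop.isOpen_IL h.conn h.loop.bdd_IL (IL_disjoint es) h4)
  · have h6 := h4.length_eq
    rw [Ed_length, hlen] at h6
    rw [← hG, GC_perm h4]
    exact Or.inl (rig_regular hn hr (by simpa using h6.symm) h5 (sh_perm h4 ▸ hA))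

end Pool.Agent.Work.MP_267827_an.PS
end
end

-- merged part: Pool.Agent.Work.MP_267827_an.PS.Final
section
-- merged part: Pool.Agent.Work.MP_267827_an.PS.AMix
section
/-! The weight of a convex cell is a mixture of weights of triangles (owner helper39).

Plan.  Write `Z = exp (s + i t)`.  For `X : ℂ` let `wX b P X = exp (2 b s / π) * ‖X - Z‖ ^ (-2 P)`,
and let `CLow Λ w` be `2 Λ ∫_Cy w V ^ 2 ≤ (∫_Cy w) ∫_Cy en V` for all `SV V` (best with lower
integrals, `0 ≤ Λ` without loss).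
1. `StripLow Λ b a` gives `CLow Λ (wX b ((a + b) / π) 1)`: apply it to `V` and to `V (s, -t)`.
2. Translation in `s` gives all `X > 0`.  Polarization gives `X = exp (i ψ)`, `0 < |ψ| ≤ π`: extend
   `V` periodically, let `A = V (s, t) ^ 2`-level values `a = V (s, t)`, `b = V (s, ψ - t)` for
   `V ≥ 0` (replace `V` by `√(V ^ 2 + e ^ 2) - e`), and put
   `W = (a + b) / 2 - sgn (sin (t - ψ / 2)) * ρ (a - b) / 2` (sign for `ψ > 0`), where
   `ρ d = √(d ^ 2 + e ^ 2) - e` is `C¹` with `ρ 0 = ρ' 0 = 0`, `|ρ'| ≤ 1`; the energy of the pair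
   `(t, ψ - t)` does not increase, `|W - min a b| ≤ e / 2` on the side of `t = π`, so a
   truncation at level `e` makes it vanish near `t = ± π`; for every pair
   `f t * max ^ 2 + f (ψ - t) * min ^ 2 ≥ f (ψ - t) * a ^ 2 + f t * b ^ 2`.
3. Star-triangle identity: for `p, q > 0`, `p + q < 1`, `Z₁ ≠ Z₂`,
   `‖Z - Z₁‖ ^ (-2 p) ‖Z - Z₂‖ ^ (-2 q) = C ∫ ‖X - Z‖ ^ (-2 (p + q)) ‖X - Z₁‖ ^ (2 q - 2) ‖X - Z₂‖ ^ (2 p - 2) dX`
   with `0 < C < ⊤` independent of `Z`.  Induction on a list of points (merge the first two; equal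
   points merge directly; exponent `0` is dropped) and Tonelli give `CLow` for every product
   `exp (2 b s / π) ∏ ‖X k - Z‖ ^ (-2 p k)`, `∑ p k = (a + b) / π`, as soon as it holds for one point
   `X ≠ 0` (the point `X = 0` is a null set of the mixture; if all points are `0` nothing is claimed).
4. `exp (2 b' s / π) = exp (2 b s / π) ‖0 - Z‖ ^ (-2 (b - b') / π)` gives monotonicity in `b`;
   with `strip_sym` in `a`.
5. Back to the strip for weights that are even in `t`: use `V (s, √(t ^ 2 + e ^ 2) - e)`. -/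

set_option autoImplicit false

namespace Pool.Agent.Work.MP_267827_an.PS

open MeasureTheory Set Filter Topology Real

theorem strip_sym {Λ a b : ℝ} (h : StripLow Λ b a) : StripLow Λ a b := strip_sym' h

theorem mix {Λ a b a' b' : ℝ} (hab : a + b < π) (ha : 0 < a') (hb : 0 < b') (h1 : a' ≤ a)
    (h2 : b' ≤ b) (h : StripLow Λ b a) {m : ℕ} (s : ℕ → ℝ) {p : ℕ → ℝ} (hp : ∀ k, k < m → 0 ≤ p k)
    (hs : ∑ k ∈ Finset.range m, p k = (a' + b') / π) : SLow Λ (wtF b' m s p) :=
  mix_of_star star' hab ha hb h1 h2 h s hp hs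

end Pool.Agent.Work.MP_267827_an.PS
end

-- merged part: Pool.Agent.Work.MP_267827_an.PS.ACell
section
/-! From triangles to convex cells.

`strip_of_tri`: take `τ = 0`, `A = 0`, `B = sin (a + b)`, `p = sin a`, `q = sin b`, `CC 1` with
`y 0 = B`, `y 1 = C`, `y 2 = A`, `φ 0 = π - b`, `φ 1 = π + a`; `sc_exists`, `push`.

`cell_of_strip`: turn the wall into `y, φ, l` (induction on `Wall`).  The wall closes up, so
`∑ l k * sin (φ k - τ - π) = 0`; if `φ 0 ≥ τ + π` or `φ m ≤ τ + π` all terms vanish, the first edge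
is opposite to the base and the cell is empty.  Otherwise `CC`, `sc_exists`, `mix`, `pull`. -/

set_option autoImplicit false

namespace Pool.Agent.Work.MP_267827_an.PS

open MeasureTheory Set Filter Topology Real

theorem ACell_ed (L : List ℂ) (P : ℂ × ℂ → Prop) :
    (∀ e ∈ Ed L, P e) ↔ ∀ j, j + 1 < L.length → P (L.getD j 0, L.getD (j + 1) 0) := by
  induction L using GList_ind with
  | nil => simp [Ed]
  | one => simp [Ed]
  | cons a b l ih =>
    rw [Ed_cons, List.forall_mem_cons, ih]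
    constructor
    · rintro ⟨h1, h2⟩ (_ | j) hj
      · exact h1
      · exact h2 j (by simpa using hj)
    · exact fun h => ⟨h 0 (by simp), fun j hj => h (j + 1) (by simpa using hj)⟩

theorem ACell_arr {lo hi : ℝ} {L : List ℂ} (h : Wall lo hi L) : lo ≤ hi ∧ ∃ φ l : ℕ → ℝ,
    (∀ j, j + 1 < L.length → 0 < l j ∧ L.getD (j + 1) 0 - L.getD j 0 = l j * ei (φ j) ∧
      lo ≤ φ j ∧ φ j ≤ hi) ∧ ∀ j, j + 2 < L.length → φ j ≤ φ (j + 1) := by
  induction h with
  | one a h => exact ⟨h, 0, 0, fun j hj => by simp at hj, fun j hj => by simp at hj⟩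
  | @cons lo hi τ s a b l h1 h2 h3 _ ih =>
    obtain ⟨k0, φ, n, k1, k2⟩ := ih
    refine ⟨h1.trans k0, fun j => Nat.casesOn j τ φ, fun j => Nat.casesOn j s n, ?_, ?_⟩
    · rintro (_ | j) hj
      · exact ⟨h2, h3, h1, k0⟩
      · obtain ⟨j1, j2, j3, j4⟩ := k1 j (by simpa using hj)
        exact ⟨j1, j2, h1.trans j3, j4⟩
    · rintro (_ | j) hj
      · exact (k1 0 (by simpa using hj)).2.2.1
      · exact k2 j (by simpa using hj)

theorem strip_of_tri {Λ a b : ℝ} (ha : 0 < a) (hb : 0 < b) (hab : a + b < π) (h : TriLow Λ a b) :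
    StripLow Λ b a := by
  have s1 : 0 < sin a := sin_pos_of_pos_of_lt_pi ha (by linarith)
  have s2 : 0 < sin b := sin_pos_of_pos_of_lt_pi hb (by linarith)
  have s3 : 0 < sin (a + b) := sin_pos_of_pos_of_lt_pi (by linarith) hab
  obtain ⟨B, hB⟩ : ∃ B : ℂ, B - 0 = (sin (a + b) : ℝ) * ei 0 := ⟨_, sub_zero _⟩
  obtain ⟨C, hC⟩ : ∃ C : ℂ, C - B = (sin a : ℝ) * ei (0 + π - b) := ⟨_, add_sub_cancel_left _ _⟩
  have hA : 0 - C = (sin b : ℝ) * ei (0 + π + a) := by
    rw [show 0 - C = -(C - B) - (B - 0) by ring, hB, hC]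
    apply Complex.ext <;>
      simp only [Complex.sub_re, Complex.sub_im, Complex.neg_re, Complex.neg_im,
        Complex.re_ofReal_mul, Complex.im_ofReal_mul, ei_re, ei_im, zero_add, sin_add, cos_add,
        sin_sub, cos_sub, sin_pi, cos_pi, sin_zero, cos_zero] <;> ring
  obtain ⟨s, F, G, c, h0, hS⟩ := sc_exists (m := 1) (y := fun k => [B, C, 0].getD k 0)
    (φ := fun k => if k = 0 then 0 + π - b else 0 + π + a)
    (l := fun k => if k = 0 then sin a else sin b) (τ := 0)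
    ⟨fun k hk => by
      interval_cases k
      exacts [⟨s1, hC⟩, ⟨s2, hA⟩],
    fun k hk => by
      interval_cases k
      simp only [if_true, zero_add, one_ne_zero, if_false]
      linarith only [ha, hb],
    ⟨_, s3, hB⟩, by simpa using hb, by simpa using ha, by
      simp only [if_true, one_ne_zero, if_false]
      linarith⟩
  have hK : KK 1 (fun k => [B, C, 0].getD k 0) = Lft [(0, B), (B, C), (C, 0)] := by
    ext z
    simp only [KK, Lft, mem_ofPred_eq, List.forall_mem_cons, Nat.le_one_iff_eq_zero_or_eq_one,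
      forall_eq_or_imp, forall_eq]
    simp
  have hw : wtF (0 + π - if (0 : ℕ) = 0 then 0 + π - b else 0 + π + a) 1 s
      (fun k => ((if k + 1 = 0 then 0 + π - b else 0 + π + a) -
        if k = 0 then 0 + π - b else 0 + π + a) / π) = wt1 b a := by
    funext q
    simp only [wtF, wt1, Finset.prod_range_one, h0, if_true, zero_add, one_ne_zero, if_false,
      sub_sub_cancel, show π + a - (π - b) = a + b by ring]
  rw [hK, hw] at hS
  refine push hS (convex_Lft _) ?_ fun lam => h 0 B C 0 _ _ _ lam s3 s1 s2 hB hC hA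
  have hp : 0 < cr (B - 0) (C - 0) := by
    rw [show C - 0 = -(0 - C) by ring, hB, hA, cr_neg_right, cr_mul_left, cr_mul_right, cr_ei]
    simp only [zero_add, sub_zero, sin_add π, sin_pi, cos_pi]
    linarith only [s3, s2, s1, mul_pos s3 (mul_pos s2 s1)]
  refine isBounded_iff_forall_norm_le.2 ⟨‖B - 0‖ + ‖C - 0‖, fun z hz => ?_⟩
  obtain ⟨u, v, h1, h2, h3, rfl⟩ := (mem_tri hp).1 hz
  rw [zero_add]
  refine (norm_add_le _ _).trans (add_le_add ?_ ?_) <;>
    rw [norm_mul, Complex.norm_real, Real.norm_of_nonneg (by positivity)] <;>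
    exact mul_le_of_le_one_left (norm_nonneg _) (by linarith only [h2, h3, h1])

theorem cell_of_strip {Λ a b : ℝ} (ha : 0 < a) (hb : 0 < b) (hab : a + b < π)
    (h : StripLow Λ b a) : CellLow Λ a b := by
  intro A B k τ s lam hs hB hW hl
  obtain ⟨-, φ, l, k1, k2⟩ := ACell_arr hW
  have k3 := ACell_ed (B :: k ++ [A])
  have hn : (B :: k ++ [A]).length = k.length + 2 := by simp
  have y0 : (B :: k ++ [A]).getD 0 0 = B := rfl
  have y1 : (B :: k ++ [A]).getD (k.length + 1) 0 = A := by simp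
  rw [hn] at k1 k2 k3
  generalize k.length = m at *
  obtain ⟨y, hy⟩ : ∃ y : ℕ → ℂ, ∀ j, (B :: k ++ [A]).getD j 0 = y j := ⟨_, fun _ => rfl⟩
  simp only [hy] at k1 k3 y0 y1
  have hK : Lft ((A, B) :: Ed (B :: k ++ [A])) = KK m y := by
    ext z
    simp only [KK, Lft, mem_ofPred_eq, List.forall_mem_cons, k3, y0, y1]
    exact and_congr_right' (forall_congr' fun j => imp_congr_left (by omega))
  rw [hK] at hl ⊢
  have mo : ∀ i j, i ≤ j → j ≤ m → φ i ≤ φ j := fun i j hij => by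
    induction j, hij using Nat.le_induction with
    | base => exact fun _ => le_rfl
    | succ j _ ih => exact fun hj => (ih (by omega)).trans (k2 j (by omega))
  have b0 := (k1 0 (by omega)).2.2
  have b1 := (k1 m (by omega)).2.2
  by_cases hd : φ 0 < τ + π ∧ τ + π < φ m
  · obtain ⟨t, F, G, c, -, hS⟩ := sc_exists (m := m) (y := y) (φ := φ) (l := l) (τ := τ)
      ⟨fun j hj => ⟨(k1 j (by omega)).1, (k1 j (by omega)).2.1⟩, fun j hj => k2 j (by omega),
        ⟨s, hs, by rw [y0, y1, hB]⟩, hd.1, hd.2, by linarith only [hab, b0, b1, b0.1, b1.2]⟩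
    rw [y0, y1] at hS
    refine pull hS (mix (a' := φ m - τ - π) hab (by linarith only [hd, hd.2]) (by linarith only [hd, hd.1])
      (by linarith only [b1, b1.2]) (by linarith only [b0, b0.1]) h t
      (fun j hj => div_nonneg (sub_nonneg.2 (k2 j (by omega))) pi_pos.le) ?_) hl
    rw [← Finset.sum_div, Finset.sum_range_sub]
    ring
  have h1 : ∑ j ∈ Finset.range (m + 1), l j * sin (φ j - (τ + π)) = 0 := by
    have e := Finset.sum_range_sub (fun j => cr (ei (τ + π)) (y j)) (m + 1)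
    rw [← cr_sub_right, y0, y1, ← neg_sub, hB, cr_neg_right, cr_mul_right, cr_ei,
      show τ - (τ + π) = -π by ring, sin_neg, sin_pi, neg_zero, mul_zero, neg_zero] at e
    rw [← e]
    refine Finset.sum_congr rfl fun j hj => ?_
    rw [← cr_sub_right, (k1 j (by simpa using hj)).2.1, cr_mul_right, cr_ei]
  have h2 : l 0 * sin (φ 0 - (τ + π)) = 0 := by
    rcases not_and_or.1 hd with hd | hd
    · refine (Finset.sum_eq_zero_iff_of_nonneg fun j hj => ?_).1 h1 0 (by simp)
      have j1 := Finset.mem_range.1 hj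
      exact mul_nonneg (k1 j (by omega)).1.le (sin_nonneg_of_nonneg_of_le_pi
        (by linarith only [hd, mo, j1, mo 0 j j.zero_le (by omega)]) (by linarith only [hb, hab, k1, j1, (k1 j (by omega)).2.2.2]))
    · refine (Finset.sum_eq_zero_iff_of_nonpos fun j hj => ?_).1 h1 0 (by simp)
      have j1 := Finset.mem_range.1 hj
      exact mul_nonpos_of_nonneg_of_nonpos (k1 j (by omega)).1.le (sin_nonpos_of_nonpos_of_neg_pi_le
        (by linarith only [hd, mo, j1, mo j m (by omega) le_rfl]) (by linarith only [ha, hab, k1, j1, (k1 j (by omega)).2.2.1]))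
  obtain ⟨l0, l1, -⟩ := k1 0 (by omega)
  have h3 : φ 0 = τ + π := sub_eq_zero.1 ((sin_eq_zero_iff_of_lt_of_lt (by linarith only [ha, hab, b0, b0.1])
    (by linarith only [hb, hab, b0, b0.2])).1 ((mul_eq_zero.1 h2).resolve_left l0.ne'))
  have h4 : KK m y = ∅ := eq_empty_of_forall_notMem fun z hz => by
    have z1 := hz.1
    have z2 := hz.2 0 m.zero_le
    rw [l1, h3, ei_add_pi, cr_mul_left, cr_neg_left, y0] at z2
    rw [y0, y1, show z - A = z - B + (B - A) by ring, cr_add_right, cr_self, add_zero, hB,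
      cr_mul_left] at z1
    linarith only [hs, z2, l0, z1, (mul_pos_iff_of_pos_left hs).1 z1, mul_pos_of_neg_of_neg (Mathlib.Tactic.Linarith.sub_neg_of_lt hs) (Mathlib.Tactic.Linarith.sub_neg_of_lt z2), mul_pos_of_neg_of_neg (Mathlib.Tactic.Linarith.sub_neg_of_lt l0) (Mathlib.Tactic.Linarith.sub_neg_of_lt z1)]
  intro u _ _ _
  simp [h4]

theorem tri_cell (Λ a b : ℝ) (ha : 0 < a) (hb : 0 < b) (hab : a + b < π) (h : TriLow Λ a b) :
    CellLow Λ a b :=
  cell_of_strip ha hb hab (strip_of_tri ha hb hab h)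

end Pool.Agent.Work.MP_267827_an.PS
end

-- merged part: Pool.Agent.Work.MP_267827_an.PS.ARight
section
/-! The input from analysis for the partition argument. -/

set_option autoImplicit false

namespace Pool.Agent.Work.MP_267827_an.PS

open MeasureTheory Set Filter Topology Real

theorem right_of_win {n : ℕ} (hn : 5 ≤ n) {M₀ G : ℝ} (h : Win (1 / n) M₀ G) :
    RIGHT n (jj ^ 2 * G / 2) (π * jj ^ 2 * (G * (1 / n) - M₀) / 2) := by
  intro θ h0 h1
  have hn' : (5 : ℝ) ≤ n := by exact_mod_cast hn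
  have n0 : (0 : ℝ) < n := by linarith only [hn']
  have hx0 : (0 : ℝ) < 1 / n := by positivity
  have hx5 : (1 : ℝ) / n ≤ 1 / 5 := one_div_le_one_div_of_le (by norm_num) hn'
  have hj : 0 < π * jj ^ 2 := mul_pos pi_pos (pow_pos jj_pos 2)
  have e : jj ^ 2 * G / 2 * θ - π * jj ^ 2 * (G * (1 / n) - M₀) / 2 =
      π * jj ^ 2 * (M₀ + G * (θ / π - 1 / n)) / 2 := by
    field_simp
    ring
  have hθ : π * (θ / π) = θ := by field_simp
  have key : ∀ M, HH (θ / π) M → CellLow (π * jj ^ 2 * M / 2) (π / 2) (π / 2 - θ) := by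
    intro M hM
    have k := mob (div_pos h0 pi_pos) (by rw [div_lt_iff₀ pi_pos]; linarith only [h1]) hM
    rw [hθ] at k
    exact cell_of_strip (by positivity) (by linarith only [h1]) (by linarith only [h0]) (strip_sym k)
  rw [e]
  by_cases h4 : θ ≤ π / 4
  · by_cases hx : θ / π = 1 / n
    · refine ⟨_, ?_, fun k => absurd ?_ k, key M₀ (hx ▸ h.at0)⟩
      · rw [hx, sub_self, mul_zero, add_zero]
      · rw [← hθ, hx, mul_one_div]
    · obtain ⟨M, m1, m2⟩ := h.tan _ (div_pos h0 pi_pos)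
        (by rw [div_le_iff₀ pi_pos]; linarith only [h4]) hx
      have : π * jj ^ 2 * (M₀ + G * (θ / π - 1 / n)) / 2 < π * jj ^ 2 * M / 2 := by gcongr
      exact ⟨_, this.le, fun _ => this, key M m2⟩
  · have h4' : π / 4 ≤ θ := (not_le.1 h4).le
    have k1 := ref_num hx0 hx5 h4' h1
    have k2 : 0 ≤ θ / π - 1 / n := by
      have : 1 / 4 ≤ θ / π := by rw [le_div_iff₀ pi_pos]; linarith only [h4]
      linarith only [hx0, hx5, this]
    have k3 : π * jj ^ 2 * (M₀ + G * (θ / π - 1 / n)) / 2 ≤ π * jj ^ 2 * (1 / n + 23 / 20 *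
        (1 / n) ^ 3 + (1 + 26 / 5 * (1 / n) ^ 2) * (θ / π - 1 / n)) / 2 := by
      have := h.M_le
      have := h.G_le
      gcongr
    exact ⟨_, (k3.trans_lt k1).le, fun _ => k3.trans_lt k1,
      tri_cell _ _ _ (by positivity) (by linarith only [h1]) (by linarith only [h0]) (ref_tri h4' h1)⟩

theorem analysis {n : ℕ} (hn : 5 ≤ n) : ∃ g κ lam r : ℝ, 0 < g ∧ 0 < κ ∧ 0 < lam ∧ 0 < r ∧
    RIGHT n g κ ∧ lam * volume.real (Ins (Gam (reg n r))) = 2 * π * g - 2 * n * κ ∧
    ∀ η : ℝ, 0 < η → ∃ u : ℂ → ℝ, Test (Ins (Gam (reg n r))) u ∧ u ≠ 0 ∧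
      EE u ≤ (lam + η) * NN u := by
  have hn' : (5 : ℝ) ≤ n := by exact_mod_cast hn
  have n0 : (0 : ℝ) < n := by linarith only [hn']
  have hx0 : (0 : ℝ) < 1 / n := by positivity
  have hx5 : (1 : ℝ) / n ≤ 1 / 5 := one_div_le_one_div_of_le (by norm_num) hn'
  have hj : 0 < jj ^ 2 := pow_pos jj_pos 2
  obtain ⟨M₀, G, h⟩ := win hx0 hx5
  obtain ⟨r, r0, a0, hv, hu⟩ := up hn
  have m0 := h.M_pos
  have k0 := h.kap
  have g0 : 0 < G := (mul_pos_iff_of_pos_right hx0).1 (m0.trans k0)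
  refine ⟨_, _, jj ^ 2 * M₀ / AA (1 / n), r, by positivity,
    div_pos (mul_pos (mul_pos pi_pos hj) (sub_pos.2 k0)) two_pos, by positivity, r0,
    right_of_win hn h, ?_, fun η hη => ?_⟩
  · rw [hv]
    field_simp
    ring
  · obtain ⟨V, v1, v2, v3⟩ := h.near (η / 2 * AA (1 / n) / jj ^ 2) (by positivity)
    obtain ⟨u, u1, u2, u3⟩ := hu V v1 v2 (η / 2) (by positivity)
    refine ⟨u, u1, u2, u3.trans (mul_le_mul_of_nonneg_right ?_
      (integral_nonneg fun _ => sq_nonneg _))⟩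
    have : Dx (1 / n) V / NW (1 / n) (1 / n) V ≤ jj ^ 2 * M₀ / AA (1 / n) + η / 2 := by
      rw [div_le_iff₀ v2]
      refine le_of_mul_le_mul_left (v3.trans_eq ?_) a0
      have := jj_pos
      field_simp
    linarith only [this]

end Pool.Agent.Work.MP_267827_an.PS
end

-- merged part: Pool.Agent.Work.MP_267827_an.PS.Final
section
/-! Assembly of the analytic and the geometric part (helper64). -/

set_option autoImplicit false

namespace Pool.Agent.Work.MP_267827_an.PS

open MeasureTheory Set Filter Topology Real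

theorem core_all {n : ℕ} (hn : 5 ≤ n) : CoreC n := by
  obtain ⟨g, κ, lam, r, hg, hκ, hl, hr, h1, h2, h3⟩ := analysis hn
  have hn' : (5 : ℝ) ≤ n := by exact_mod_cast hn
  have hs := sin_pos_of_pos_of_lt_pi (x := 2 * π / n) (by positivity)
    (by rw [div_lt_iff₀ (by linarith only [hn'])]; linarith only [hn', pi_pos, mul_nonneg_of_nonpos_of_nonpos (Mathlib.Tactic.Linarith.sub_nonpos_of_le hn') (le_of_lt (Mathlib.Tactic.Linarith.sub_neg_of_lt pi_pos))])
  rw [Measure.real, reg_vol hn hr, ENNReal.toReal_ofReal (by positivity)] at h2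
  refine core_of hn hg hκ hl hr h2 h1 (Srt.obt_of (fun a b ha ha' hb hb' hab => ?_) tri_cell
    fun _ _ _ h => h.symm) h3
  obtain ⟨Λ, k1, -, k2⟩ := acute hκ h1 ha ha' hb hb' hab
  exact (k2.mono' k1).tri (by linarith only [ha, hb])

end Pool.Agent.Work.MP_267827_an.PS
end
end
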