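import Pool.Agent.Work.MP_267827_an.PS.GIns
import Pool.Agent.Work.MP_267827_an.PS.AUp

-- merged part: Pool.Agent.Work.MP_267827_an.PS.GMain
section
-- merged part: Pool.Agent.Work.MP_267827_an.PS.GCut
section
/-! Cutting a polygon along a path (skeleton helper49).

Plan for `cut`.  Let `pe = Ed (b :: l ++ [a])`.
`cut_simp`: `a` is a source of `e₁` (it is a target in the loop `q₁`, hence a source; it is not in
`b :: l` since `a ≠ b` and `l ⊆ IL es`), `b` is a source of `e₂` in the same way.  The sources of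
`q₁` are those of `e₁` and `b :: l`, the sources of `q₂` are those of `e₂` and `l ++ [a]`; open edges
of the path are in `IL es`, vertices and edges of `es` are in `GC es`.
Off `GC es ∪ GC pe` one has `wn es = wn q₁ + wn q₂` (`wn_swap`).
Orientation: by `jordan` (and `wn_swap`) each of `q₁`, `q₂` has values in `{0, 1}` or in `{0, -1}`.
Take `x` on the open first edge of the path, `x ∈ IL es`.  With `wn_jump` for `q₁` (value `k₁` on the
left, `k₁ - 1` on the right) and for `q₂` (reversed edge, `k₂ - 1` on the left, `k₂` on the right)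
`k₁ + k₂ - 1 = 1`; as `k₁, k₂ ≤ 1` both are `1`, so both loops take the value one.
Separation: a point of `GC q₂` in the open set `IL q₁` would be a limit of points of `IL q₂`
(`SP.closure`), and a point of `IL q₁ ∩ IL q₂` has `wn es = 2`.
`Cut.free`: the open segment is preconnected and covered by the disjoint open sets; if it is in
`IL q₂` then `p ∈ closure (IL q₂)`, `p ∉ GC q₂`, so `p ∈ IL q₂ ⊆ IL es`. -/

set_option autoImplicit false

namespace Pool.Agent.Work.MP_267827_an.PS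

open MeasureTheory Set Filter Topology Real

/-- the polygon `es` is cut into `q₁` and `q₂` along the null set `Z` -/
structure Cut (es q₁ q₂ : List (ℂ × ℂ)) (Z : Set ℂ) : Prop where
  sp1 : SP q₁
  sp2 : SP q₂
  sub1 : IL q₁ ⊆ IL es
  sub2 : IL q₂ ⊆ IL es
  disj : Disjoint (IL q₁) (IL q₂)
  cov : IL es ⊆ IL q₁ ∪ IL q₂ ∪ Z
  null : volume Z = 0
  area : sh es = sh q₁ + sh q₂

variable {es es' e₁ e₂ q₁ q₂ : List (ℂ × ℂ)} {Z D : Set ℂ} {lam : ℝ}

theorem Cut.symm (h : Cut es q₁ q₂ Z) : Cut es q₂ q₁ Z :=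
  ⟨h.sp2, h.sp1, h.sub2, h.sub1, h.disj.symm, by rw [union_comm (IL q₂)]; exact h.cov, h.null,
    by rw [h.area, add_comm]⟩

theorem Cut.perm {q₁' q₂' : List (ℂ × ℂ)} (h : Cut es q₁ q₂ Z) (h1 : q₁.Perm q₁')
    (h2 : q₂.Perm q₂') : Cut es q₁' q₂' Z := by
  refine ⟨h.sp1.perm h1, h.sp2.perm h2, ?_, ?_, ?_, ?_, h.null, ?_⟩
  all_goals simp only [← IL_perm h1, ← IL_perm h2, ← sh_perm h1, ← sh_perm h2]
  exacts [h.sub1, h.sub2, h.disj, h.cov, h.area]

theorem Cut.congr (h : Cut es q₁ q₂ Z) (h1 : IL es = IL es') (h2 : sh es = sh es') :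
    Cut es' q₁ q₂ Z :=
  ⟨h.sp1, h.sp2, h1 ▸ h.sub1, h1 ▸ h.sub2, h.disj, h1 ▸ h.cov, h.null, h2 ▸ h.area⟩

theorem Cut.low (h : Cut es q₁ q₂ Z) (h1 : Low D (IL q₁) lam) (h2 : Low D (IL q₂) lam) :
    Low D (IL es) lam :=
  h1.union h2 h.sp1.loop.isOpen_IL.measurableSet h.sp2.loop.isOpen_IL.measurableSet h.disj h.sub1
    h.sub2 h.cov h.null

theorem Cut.hs (h : Cut es q₁ q₂ Z) (h1 : HS D (IL q₁) lam) (h2 : Low D (IL q₂) lam) :
    HS D (IL es) lam :=
  h1.union h2 h.sp1.loop.isOpen_IL.measurableSet h.sp2.loop.isOpen_IL.measurableSet h.disj h.sub1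
    h.sub2 h.cov h.null

theorem Cut.free (h : Cut es q₁ q₂ Z) {p q : ℂ} (hf : Free es p q)
    (hZ : Disjoint (openSegment ℝ p q) Z) (hp : p ∈ GC es) (hp2 : p ∉ GC q₂) : Free q₁ p q := by
  refine (IsPreconnected.subset_or_subset h.sp1.loop.isOpen_IL h.sp2.loop.isOpen_IL h.disj
    (fun z hz => (h.cov (hf hz)).resolve_right (disjoint_left.1 hZ hz))
    (convex_openSegment p q).isPreconnected).resolve_right fun h1 => ?_
  exact (h.sub2 (h.sp2.loop.mem_of_closure (closure_mono h1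
    (segment_subset_closure_openSegment (left_mem_segment ℝ p q))) hp2)).1 hp

theorem GCut_vert {x : ℂ} (hx : x ∈ es.map Prod.fst) : x ∈ GC es := by
  obtain ⟨e, he, rfl⟩ := List.mem_map.1 hx
  exact fst_mem_GC he

theorem GCut_half {pe : List (ℂ × ℂ)} (h : Simp es) (hp : es.Perm (e₁ ++ e₂)) (hs : Simp pe)
    (hf : ∀ e ∈ pe, Free es e.1 e.2) (hv : ∀ e ∈ pe, e.1 ∈ IL es ∨ e.1 ∈ e₂.map Prod.fst) :
    Simp (e₁ ++ pe) := by
  have m1 : ∀ e ∈ e₁, e ∈ es := fun e he => hp.mem_iff.2 (List.mem_append_left _ he)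
  have m2 : ∀ e ∈ e₂, e ∈ es := fun e he => hp.mem_iff.2 (List.mem_append_right _ he)
  have hn := (h.perm hp).nodup
  rw [List.map_append, List.nodup_append] at hn
  have hd : ∀ e ∈ e₁, ∀ f ∈ pe, Disjoint (openSegment ℝ e.1 e.2) (openSegment ℝ f.1 f.2) :=
    fun e he f hf' => disjoint_left.2 fun z h1 h2 =>
      (hf f hf' h2).1 ⟨e, m1 e he, openSegment_subset_segment _ _ _ h1⟩
  refine ⟨?_, fun e he f hf' => ?_, fun e he f hf' hne => ?_⟩
  · rw [List.map_append, List.nodup_append]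
    refine ⟨hn.1, hs.nodup, fun x hx y hy e => ?_⟩
    obtain ⟨f, hf', rfl⟩ := List.mem_map.1 hy
    obtain h1 | h1 := hv f hf'
    · obtain ⟨g, hg, h2⟩ := List.mem_map.1 hx
      exact h1.1 (e ▸ h2 ▸ fst_mem_GC (m1 g hg))
    · exact hn.2.2 x hx _ h1 e
  · obtain he | he := List.mem_append.1 he <;> obtain hf' | hf' := List.mem_append.1 hf'
    · exact h.vert e (m1 e he) f (m1 f hf')
    · obtain h1 | h1 := hv f hf'
      · exact fun h2 => h1.1 ⟨e, m1 e he, openSegment_subset_segment _ _ _ h2⟩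
      · obtain ⟨g, hg, h2⟩ := List.mem_map.1 h1
        exact h2 ▸ h.vert e (m1 e he) g (m2 g hg)
    · exact fun h1 => (hf e he h1).1 (fst_mem_GC (m1 f hf'))
    · exact hs.vert e he f hf'
  · obtain he | he := List.mem_append.1 he <;> obtain hf' | hf' := List.mem_append.1 hf'
    · exact h.disj e (m1 e he) f (m1 f hf') hne
    · exact hd e he f hf'
    · exact (hd f hf' e he).symm
    · exact hs.disj e he f hf' hne

theorem cut_simp {a b : ℂ} {l : List ℂ} (h : SP es) (hp : es.Perm (e₁ ++ e₂))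
    (hq1 : q₁.Perm (e₁ ++ Ed (b :: l ++ [a])))
    (hq2 : q₂.Perm (e₂ ++ (Ed (b :: l ++ [a])).map Prod.swap)) (h1 : Loop q₁) (h2 : Loop q₂)
    (ha : a ∈ es.map Prod.fst) (hb : b ∈ es.map Prod.fst) (hab : a ≠ b)
    (hs : Simp (Ed (b :: l ++ [a]))) (hv : ∀ x ∈ l, x ∈ IL es)
    (hf : ∀ e ∈ Ed (b :: l ++ [a]), Free es e.1 e.2) : Simp q₁ ∧ Simp q₂ := by
  have f1 : (Ed (b :: l ++ [a])).map Prod.fst = b :: l := by rw [Ed_fst, List.dropLast_concat]
  have f2 : (Ed (b :: l ++ [a])).map Prod.snd = l ++ [a] := by rw [Ed_snd]; rfl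
  generalize Ed (b :: l ++ [a]) = pe at *
  have g1 : (pe.map Prod.swap).map Prod.fst = l ++ [a] := by rw [List.map_map, ← f2]; rfl
  have g2 : (pe.map Prod.swap).map Prod.snd = b :: l := by rw [List.map_map, ← f1]; rfl
  have al : a ∉ l := fun e => (hv a e).1 (GCut_vert ha)
  have bl : b ∉ l := fun e => (hv b e).1 (GCut_vert hb)
  have a1 : a ∈ e₁.map Prod.fst := by
    have h3 := ((hq1.map Prod.snd).symm.trans (h1.snd_perm.trans (hq1.map Prod.fst))).mem_iff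
      (a := a)
    rw [List.map_append, List.map_append, f1, f2] at h3
    simpa [al, hab] using h3
  have b2 : b ∈ e₂.map Prod.fst := by
    have h3 := ((hq2.map Prod.snd).symm.trans (h2.snd_perm.trans (hq2.map Prod.fst))).mem_iff
      (a := b)
    rw [List.map_append, List.map_append, g1, g2] at h3
    simpa [bl, hab.symm] using h3
  have hs' : Simp (pe.map Prod.swap) := by
    refine ⟨?_, ?_, ?_⟩
    · have h3 := hs.nodup
      rw [f1] at h3
      rw [g1]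
      exact List.perm_append_comm.nodup_iff.1 (List.nodup_cons.2 ⟨al, h3.of_cons⟩)
    · simp only [List.forall_mem_map, Prod.fst_swap, Prod.snd_swap]
      intro e he f hf' h3
      rw [openSegment_symm] at h3
      obtain h4 | h4 := List.mem_append.1 (f2 ▸ List.mem_map_of_mem (f := Prod.snd) hf')
      · obtain ⟨g, hg, h5⟩ := List.mem_map.1 (f1 ▸ List.mem_cons_of_mem b h4)
        exact hs.vert e he g hg (h5 ▸ h3)
      · exact (hf e he h3).1 (List.mem_singleton.1 h4 ▸ GCut_vert ha)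
    · simp only [List.forall_mem_map, Prod.fst_swap, Prod.snd_swap]
      intro e he f hf' h3
      rw [openSegment_symm ℝ e.2, openSegment_symm ℝ f.2]
      exact hs.disj e he f hf' fun h4 => h3 (h4 ▸ rfl)
  refine ⟨(GCut_half h.simp hp hs hf fun e he => ?_).perm hq1.symm,
    (GCut_half h.simp (hp.trans List.perm_append_comm) hs' (fun e he => ?_) fun e he => ?_).perm
      hq2.symm⟩
  · obtain h3 | h3 := List.mem_cons.1 (f1 ▸ List.mem_map_of_mem (f := Prod.fst) he)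
    · exact Or.inr (h3 ▸ b2)
    · exact Or.inl (hv _ h3)
  · obtain ⟨f, hf', rfl⟩ := List.mem_map.1 he
    exact (hf f hf').symm
  · obtain h3 | h3 := List.mem_append.1 (g1 ▸ List.mem_map_of_mem (f := Prod.fst) he)
    · exact Or.inl (hv _ h3)
    · exact Or.inr (List.mem_singleton.1 h3 ▸ a1)

theorem GCut_le (hl : Loop es) (hs : Simp es) {z : ℂ} (hz : z ∉ GC es) :
    wn es z ≤ 1 ∧ (wn es z = 1 → SP es) := by
  obtain h | h := jordan hl hs
  · exact ⟨by obtain e | e := h.pos z hz <;> linarith only [e], fun _ => h⟩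
  · have h1 := h.pos z (by rwa [GC_swap])
    rw [wn_swap hz] at h1
    exact ⟨by obtain e | e := h1 <;> linarith only [e], fun e => by obtain e | e := h1 <;> linarith⟩

theorem GCut_core (h : SP es) (h1 : SP q₁) (h2 : SP q₂) (hG : GC es ⊆ GC q₁ ∪ GC q₂)
    (hw : ∀ z, z ∉ GC q₁ → wn es z = wn q₁ z + wn q₂ z) :
    Disjoint (IL q₁) (IL q₂) ∧ IL q₁ ⊆ IL es := by
  have hd : Disjoint (IL q₁) (IL q₂) := disjoint_left.2 fun z a b => by
    have h3 := h.pos z fun e => (hG e).elim a.1 b.1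
    rw [hw z a.1, a.2, b.2] at h3
    norm_num at h3
  refine ⟨hd, fun z hz => ?_⟩
  have h3 : z ∉ GC q₂ := fun e =>
    disjoint_left.1 (hd.closure_right h1.loop.isOpen_IL) hz (h2.closure e)
  refine ⟨fun e => (hG e).elim hz.1 h3, ?_⟩
  rw [hw z hz.1, hz.2, (h2.pos z h3).resolve_right fun e => disjoint_left.1 hd hz ⟨h3, e⟩, add_zero]

theorem cut {a b : ℂ} {l : List ℂ} (h : SP es) (hp : es.Perm (e₁ ++ e₂))
    (hq1 : q₁.Perm (e₁ ++ Ed (b :: l ++ [a])))
    (hq2 : q₂.Perm (e₂ ++ (Ed (b :: l ++ [a])).map Prod.swap)) (h1 : Loop q₁) (h2 : Loop q₂)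
    (ha : a ∈ es.map Prod.fst) (hb : b ∈ es.map Prod.fst) (hab : a ≠ b)
    (hs : Simp (Ed (b :: l ++ [a]))) (hv : ∀ x ∈ l, x ∈ IL es)
    (hf : ∀ e ∈ Ed (b :: l ++ [a]), Free es e.1 e.2) :
    Cut es q₁ q₂ (GC (Ed (b :: l ++ [a]))) := by
  obtain ⟨s1, s2⟩ := cut_simp h hp hq1 hq2 h1 h2 ha hb hab hs hv hf
  obtain ⟨c, hc⟩ : ∃ c, (b, c) ∈ Ed (b :: l ++ [a]) := by cases l <;> exact ⟨_, List.mem_cons_self⟩
  generalize Ed (b :: l ++ [a]) = pe at *
  have g0 := (GC_perm hp).trans (GC_append _ _)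
  have g1 := (GC_perm hq1).trans (GC_append _ _)
  have g2 := (GC_perm hq2).trans (GC_append _ _)
  rw [GC_swap] at g2
  have hG : GC es ⊆ GC q₁ ∪ GC q₂ := by
    rw [g0, g1, g2]
    exact union_subset_union subset_union_left subset_union_left
  have hw : ∀ z, z ∉ GC pe → wn es z = wn q₁ z + wn q₂ z := fun z hz => by
    rw [wn_perm hp, wn_perm hq1, wn_perm hq2, wn_append, wn_append, wn_append, wn_swap hz]
    ring
  have hw1 : ∀ z, z ∉ GC q₁ → wn es z = wn q₁ z + wn q₂ z := fun z hz =>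
    hw z fun e => hz (g1 ▸ Or.inr e)
  have hw2 : ∀ z, z ∉ GC q₂ → wn es z = wn q₂ z + wn q₁ z := fun z hz =>
    (hw z fun e => hz (g2 ▸ Or.inr e)).trans (add_comm _ _)
  have hx : midpoint ℝ b c ∈ openSegment ℝ b c := midpoint_mem_openSegment b c
  obtain ⟨k₁, j1⟩ := wn_jump h1 s1 (hq1.mem_iff.2 (List.mem_append_right _ hc)) hx
  obtain ⟨k₂, j2⟩ := wn_jump h2 s2 (p := c) (q := b)
    (hq2.mem_iff.2 (List.mem_append_right _ (List.mem_map_of_mem (f := Prod.swap) hc)))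
    (openSegment_symm ℝ b c ▸ hx)
  have j3 : ∀ᶠ z in 𝓝 (midpoint ℝ b c), z ∈ IL es := h.loop.isOpen_IL.mem_nhds (hf _ hc hx)
  have hcr : ∀ z, cr (b - c) (z - c) = -cr (c - b) (z - b) := fun z => by simp [cr]; ring
  obtain ⟨fl, fr⟩ := freq_left (sub_ne_zero.2 (hs.ne hc).symm) (p := b) (x := midpoint ℝ b c) (by
    obtain ⟨t, -, -, e⟩ := mem_openSegment_iff'.1 hx
    rw [e, add_sub_cancel_left, cr_mul_right, cr_self, mul_zero])
  obtain ⟨z, z0, z1, z2, z3⟩ := (fl.and_eventually (j1.and (j2.and j3))).exists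
  obtain ⟨y, y0, -, y2⟩ := (fr.and_eventually (j1.and j2)).exists
  have z4 := z1.1 z0
  have z5 := z2.2 (by rw [hcr]; linarith)
  have y4 := y2.1 (by rw [hcr]; linarith)
  have z6 := hw1 z z4.1
  have l1 := GCut_le h1 s1 z4.1
  have l2 := GCut_le h2 s2 y4.1
  rw [z3.2, z4.2, z5.2] at z6
  have p1 := l1.2 (by linarith only [z4, y4, z6, l2, l1, l1.1, l2.1, z4.2, y4.2])
  have p2 := l2.2 (by linarith only [z4, y4, z6, l1, l2, l1.1, l2.1, z4.2, y4.2])
  obtain ⟨c1, c2⟩ := GCut_core h p1 p2 hG hw1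
  refine ⟨p1, p2, c2, (GCut_core h p2 p1 (union_comm _ _ ▸ hG) hw2).2, c1, fun z hz => ?_,
    GC_null _, ?_⟩
  · refine or_iff_not_imp_right.2 fun e => ?_
    have n1 : z ∉ GC q₁ := g1 ▸ fun e' => e'.elim (fun e' => hz.1 (g0 ▸ Or.inl e')) e
    have n2 : z ∉ GC q₂ := g2 ▸ fun e' => e'.elim (fun e' => hz.1 (g0 ▸ Or.inr e')) e
    obtain e1 | e1 := p1.pos z n1
    · exact Or.inr ⟨n2, by linarith only [e1, hw, e, hz, hw z e, hz.2]⟩
    · exact Or.inl ⟨n1, e1⟩
  · rw [sh_perm hp, sh_perm hq1, sh_perm hq2, sh_append, sh_append, sh_append, sh_swap]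
    ring

/-- a cut along one segment -/
theorem cut1 {a b : ℂ} (h : SP es) (hp : es.Perm (e₁ ++ e₂)) (hq1 : q₁.Perm ((b, a) :: e₁))
    (hq2 : q₂.Perm ((a, b) :: e₂)) (h1 : Loop q₁) (h2 : Loop q₂) (ha : a ∈ es.map Prod.fst)
    (hb : b ∈ es.map Prod.fst) (hf : Free es b a) : Cut es q₁ q₂ (segment ℝ b a) := by
  have h3 := cut (l := []) h hp (hq1.trans (List.perm_append_singleton _ _).symm)
    (hq2.trans (List.perm_append_singleton _ _).symm) h1 h2 ha hb (hf.ne (GCut_vert hb)).symm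
    ⟨List.nodup_singleton _, by simpa using hf.ne (GCut_vert hb), by simp⟩ (by simp)
    (by simpa using hf)
  rwa [show Ed (b :: [] ++ [a]) = [(b, a)] from rfl, GC_cons, GC_nil, union_empty] at h3

/-- a cut along two segments -/
theorem cut2 {a b O : ℂ} (h : SP es) (hp : es.Perm (e₁ ++ e₂))
    (hq1 : q₁.Perm ((b, O) :: (O, a) :: e₁)) (hq2 : q₂.Perm ((a, O) :: (O, b) :: e₂))
    (h1 : Loop q₁) (h2 : Loop q₂) (ha : a ∈ es.map Prod.fst) (hb : b ∈ es.map Prod.fst)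
    (hO : O ∈ IL es) (hc : cr (O - b) (a - O) ≠ 0) (hf : Free es b O) (hf' : Free es O a) :
    Cut es q₁ q₂ (segment ℝ b O ∪ segment ℝ O a) := by
  have h4 : b ≠ O := fun e => hO.1 (e ▸ GCut_vert hb)
  have h5 : O ≠ a := fun e => hO.1 (e ▸ GCut_vert ha)
  have h6 : Disjoint (openSegment ℝ b O) (openSegment ℝ O a) := disjoint_left.2 fun z h6 h7 => by
    rw [openSegment_symm] at h6
    obtain ⟨t, -, -, e⟩ := mem_openSegment_iff'.1 h6
    obtain ⟨s, h8, -, e'⟩ := mem_openSegment_iff'.1 h7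
    have h9 := congrArg (cr (O - b)) (add_left_cancel (e.symm.trans e'))
    rw [cr_mul_right, cr_mul_right, ← neg_sub O b, cr_neg_right, cr_self, neg_zero, mul_zero] at h9
    exact mul_ne_zero h8.ne' hc h9.symm
  have h3 := cut (l := [O]) h hp (hq1.trans (List.perm_append_comm (l₁ := [_, _])))
    (hq2.trans ((List.Perm.swap _ _ _).trans (List.perm_append_comm (l₁ := [_, _])))) h1 h2 ha hb
    (fun e => hc (by rw [e, ← neg_sub O b, cr_neg_right, cr_self, neg_zero]))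
    ⟨by simpa using h4, by simpa [h4, h5] using fun e => (hf' e).1 (GCut_vert hb),
      by simpa using ⟨fun _ => h6, fun _ => h6.symm⟩⟩ (by simpa using hO)
    (by simpa using ⟨hf, hf'⟩)
  rwa [show Ed (b :: [O] ++ [a]) = [(b, O), (O, a)] from rfl, GC_cons, GC_cons, GC_nil,
    union_empty] at h3

/-- a vertex that is not an end point of one of the edges of a sublist is not on that curve -/
theorem not_mem_GC_sub (h : SP es) (hs : ∀ e ∈ e₁, e ∈ es) {x : ℂ} (hx : x ∈ es.map Prod.fst)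
    (h1 : x ∉ e₁.map Prod.fst) (h2 : x ∉ e₁.map Prod.snd) : x ∉ GC e₁ := by
  rintro ⟨e, he, h3⟩
  obtain rfl | rfl := h.simp.vert_seg (hs e he) hx h3
  · exact h1 (List.mem_map_of_mem he)
  · exact h2 (List.mem_map_of_mem he)

end Pool.Agent.Work.MP_267827_an.PS
end

-- merged part: Pool.Agent.Work.MP_267827_an.PS.GEarA
section
/-! The ear lemma (skeleton helper49).

The edges `(X₁, X₀)`, `(X₀, V)` make a strict left turn.  Barycentric coordinates for the triangle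
`X, X₀, V` with `X = X₀ + ρ (X₁ - X₀)` are the three cross products in the definition of `Lft`:
`γ z = cr (X₀ - X) (z - X)`, `β z = cr (V - X₀) (z - X₀)`, `α z = cr (X - V) (z - V)`; their sum is the
constant `cr (X₀ - X) (V - X₀) > 0`.

`ear_exit` (no polygon): move from `z` in the direction `d` with `α` nondecreasing; `β` or `γ`
decreases strictly (the three derivatives add up to zero and do not all vanish since `d ≠ 0`); stop
at the first zero of `β` or `γ`.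
`ear_core`: suppose `z` in the open triangle lies on the edge `(p, q)`.  It is not one of the two
given edges (`β = 0` or `γ = 0` there) and `z` is no vertex, so `z` is on the open edge.  Choose
`r ∈ {p, q}` such that `α` does not decrease from `z` to `r`; `ear_exit` with `d = r - z` gives
`y = z + t d`.  If `t > 1` then `r` is in the open triangle; if `t ≤ 1` then `y` is on the segment
`p q` and `y = X₀` or `y` is on the open edge `X₁ X₀` or `X₀ V`: this contradicts `Simp.vert_seg`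
with `Simp.out_eq`, `Simp.in_eq` (if `y = X₀` then `(p, q)` is one of the two edges) or
`Simp.open_seg`.  So the convex open triangle misses the curve; it contains points near `X₀`, which
are in `IL es` by `SP.corner_left`; use `Loop.sub`.
`ear_side`: if no point of the open segment `V U` is on the curve, each is in the closure of the
open triangle, so in `IL es` (`Loop.mem_of_closure`).  Otherwise `z` is on an open edge `(p, q)`
(no vertex in the open segment); if `p` or `q` had `α > 0` the points of the edge near `z` would be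
in the open triangle, so `α p = α q = 0` (as `α z = 0`), the edge lies on the line `V X`, and since
`V`, `U` are not inner points of the edge and `p`, `q` are not in the open segment `V U`,
`{p, q} = {V, U}`.  The edge `(U, V)` is excluded by `Simp.in_eq` (`U ≠ X₀`).
`ear`: let `S` be the finite set of vertices in the closed triangle `X₁ X₀ V` other than the three
corners, written as `V + s (X₀ + ρ (X₁ - X₀) - V)` with `0 < s < 1`, `0 < ρ ≤ 1`
(`s = 1` or `ρ = 0` would put the vertex on an open edge).  If `S` is empty take `ρ = 1`, `U = X₁`.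
Otherwise take the vertex with the least `ρ` and among those the least `s`. -/

set_option autoImplicit false

namespace Pool.Agent.Work.MP_267827_an.PS

open MeasureTheory Set Filter Topology Real

variable {es : List (ℂ × ℂ)}

theorem GEarA_tri {X X₀ V z : ℂ} (hc : 0 < cr (X₀ - X) (V - X₀)) :
    z ∈ Lft [(X, X₀), (X₀, V), (V, X)] ↔
      ∃ s t : ℝ, 0 < s ∧ 0 < t ∧ s + t < 1 ∧ z = X₀ + s * (V - X₀) + t * (X - X₀) := by
  rw [← mem_tri (by rwa [cr_swap, ← cr_neg_left, neg_sub])]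
  simp only [Lft, mem_ofPred_eq, List.mem_cons, List.not_mem_nil, or_false, forall_eq_or_imp,
    forall_eq]
  tauto

/-- segments inside an open triangle -/
theorem tri_seg {X X₀ V : ℂ} (hc : 0 < cr (X₀ - X) (V - X₀)) :
    (∀ Y ∈ openSegment ℝ X X₀, openSegment ℝ V Y ⊆ Lft [(X, X₀), (X₀, V), (V, X)]) ∧
      (∀ U ∈ openSegment ℝ V X, openSegment ℝ U X₀ ⊆ Lft [(X, X₀), (X₀, V), (V, X)]) ∧
      ∀ O ∈ Lft [(X, X₀), (X₀, V), (V, X)], ∀ p, p = X ∨ p = X₀ ∨ p = V →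
        openSegment ℝ p O ⊆ Lft [(X, X₀), (X₀, V), (V, X)] := by
  refine ⟨fun Y hY z hz => ?_, fun U hU z hz => ?_, fun O hO p hp z hz => ?_⟩
  · obtain ⟨t, t0, t1, rfl⟩ := mem_openSegment_iff'.1 hY
    obtain ⟨s, s0, s1, rfl⟩ := mem_openSegment_iff'.1 hz
    exact (GEarA_tri hc).2 ⟨1 - s, s * (1 - t), by linarith, mul_pos s0 (by linarith),
      by linarith only [s0, t0, mul_pos s0 t0], by push_cast; ring⟩
  · obtain ⟨t, t0, t1, rfl⟩ := mem_openSegment_iff'.1 hU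
    obtain ⟨s, s0, s1, rfl⟩ := mem_openSegment_iff'.1 hz
    exact (GEarA_tri hc).2 ⟨(1 - s) * (1 - t), (1 - s) * t, mul_pos (by linarith) (by linarith),
      mul_pos (by linarith) t0, by nlinarith, by push_cast; ring⟩
  · obtain ⟨a, b, a0, b0, ab, rfl⟩ := (GEarA_tri hc).1 hO
    obtain ⟨s, s0, s1, rfl⟩ := mem_openSegment_iff'.1 hz
    have h1 := mul_pos s0 a0
    have h2 := mul_pos s0 b0
    have h3 := mul_pos s0 (sub_pos.2 ab)
    refine (GEarA_tri hc).2 ?_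
    rcases hp with rfl | rfl | rfl
    · exact ⟨s * a, 1 - s + s * b, h1, by linarith, by linarith, by push_cast; ring⟩
    · exact ⟨s * a, s * b, h1, h2, by linarith, by push_cast; ring⟩
    · exact ⟨1 - s + s * a, s * b, by linarith, h2, by linarith, by push_cast; ring⟩

theorem GEarA_one {a b u v : ℝ} (ha : 0 < a) (hb : 0 < b) (h0 : u + v ≤ 0) (h1 : u ≠ 0 ∨ v ≠ 0)
    (h : b * u ≤ a * v) : ∃ t : ℝ, 0 < t ∧ (∀ s, 0 ≤ s → s < t → 0 < a + s * u ∧ 0 < b + s * v) ∧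
      a + t * u = 0 ∧ 0 ≤ b + t * v := by
  have hu : u < 0 := by
    by_contra hn
    have h2 : 0 ≤ v := nonneg_of_mul_nonneg_right ((mul_nonneg hb.le (not_lt.1 hn)).trans h) ha
    rcases h1 with h1 | h1
    · exact h1 (by linarith only [hn, h0, h2])
    · exact h1 (by linarith)
  have h2 : a + a / -u * u = 0 := by
    have := hu.ne
    field_simp
    ring
  have h3 : 0 < a / -u := div_pos ha (neg_pos.2 hu)
  generalize a / -u = t at h2 h3
  have h4 : 0 ≤ b + t * v := by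
    by_contra hn
    have := mul_pos_of_neg_of_neg (not_le.1 hn) hu
    have : (a + t * u) * v = 0 := by rw [h2, zero_mul]
    nlinarith
  refine ⟨t, h3, fun s h5 h6 => ⟨by linarith only [h2, hu, h6, mul_pos_of_neg_of_neg (Mathlib.Tactic.Linarith.sub_neg_of_lt hu) (Mathlib.Tactic.Linarith.sub_neg_of_lt h6)], ?_⟩, h2, h4⟩
  rcases le_or_gt 0 v with h7 | h7
  · positivity
  · (refine lt_of_not_ge fun h_nl => ?_; linarith only [h_nl, hb, h6, h3, h4, h5, mul_pos_of_neg_of_neg (Mathlib.Tactic.Linarith.sub_neg_of_lt hb) (Mathlib.Tactic.Linarith.sub_neg_of_lt h6), mul_nonneg_of_nonpos_of_nonpos (le_of_lt (Mathlib.Tactic.Linarith.sub_neg_of_lt h3)) (Mathlib.Tactic.Linarith.sub_nonpos_of_le h_nl), mul_nonneg_of_nonpos_of_nonpos (Mathlib.Tactic.Linarith.sub_nonpos_of_le h4) (Mathlib.Tactic.Linarith.sub_nonpos_of_le h5)])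

theorem ear_exit {X X₀ V z d : ℂ} (hc : 0 < cr (X₀ - X) (V - X₀)) (hd : d ≠ 0)
    (hz : z ∈ Lft [(X, X₀), (X₀, V), (V, X)]) (hα : 0 ≤ cr (X - V) d) :
    ∃ t : ℝ, 0 < t ∧ (∀ s : ℝ, 0 ≤ s → s < t → z + s * d ∈ Lft [(X, X₀), (X₀, V), (V, X)]) ∧
      (z + t * d = X₀ ∨ z + t * d ∈ openSegment ℝ X X₀ ∨ z + t * d ∈ openSegment ℝ X₀ V) := by
  obtain ⟨a, b, a0, b0, ab, rfl⟩ := (GEarA_tri hc).1 hz
  obtain ⟨u, v, rfl⟩ : ∃ u v : ℝ, d = u * (V - X₀) + v * (X - X₀) := by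
    have h := cr_coord (V - X₀) (X - X₀) d
    have h' : (cr (V - X₀) (X - X₀) : ℂ) ≠ 0 :=
      Complex.ofReal_ne_zero.2 (by rw [cr_swap, ← cr_neg_left, neg_sub]; exact hc.ne')
    refine ⟨cr d (X - X₀) / cr (V - X₀) (X - X₀), cr (V - X₀) d / cr (V - X₀) (X - X₀), ?_⟩
    push_cast
    rw [div_mul_eq_mul_div, div_mul_eq_mul_div, ← add_div, ← h, mul_div_cancel_left₀ _ h']
  have h0 : u + v ≤ 0 := by
    have e : cr (X - V) (u * (V - X₀) + v * (X - X₀)) = -(u + v) * cr (X₀ - X) (V - X₀) := by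
      simp [cr]; ring
    rw [e] at hα
    linarith only [hα, hc, nonneg_of_mul_nonneg_left hα hc]
  have h1 : u ≠ 0 ∨ v ≠ 0 := by
    by_contra! hn
    simp [hn.1, hn.2] at hd
  have key : ∀ t : ℝ, (∀ s, 0 ≤ s → s < t → 0 < a + s * u ∧ 0 < b + s * v) → ∀ s : ℝ, 0 ≤ s →
      s < t → X₀ + a * (V - X₀) + b * (X - X₀) + s * (u * (V - X₀) + v * (X - X₀)) ∈
        Lft [(X, X₀), (X₀, V), (V, X)] := fun t h s s0 s1 =>
    (GEarA_tri hc).2 ⟨_, _, (h s s0 s1).1, (h s s0 s1).2, by linarith only [a0, ab, b0, h0, s0, mul_pos_of_neg_of_neg (Mathlib.Tactic.Linarith.sub_neg_of_lt a0) (Mathlib.Tactic.Linarith.sub_neg_of_lt ab), mul_pos_of_neg_of_neg (Mathlib.Tactic.Linarith.sub_neg_of_lt b0) (Mathlib.Tactic.Linarith.sub_neg_of_lt ab), mul_pos_of_neg_of_neg (Mathlib.Tactic.Linarith.sub_neg_of_lt ab) (Mathlib.Tactic.Linarith.sub_neg_of_lt ab), mul_nonneg_of_nonpos_of_nonpos (Mathlib.Tactic.Linarith.sub_nonpos_of_le h0) (Mathlib.Tactic.Linarith.sub_nonpos_of_le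 s0)], by push_cast; ring⟩
  have e : ∀ t : ℝ, X₀ + a * (V - X₀) + b * (X - X₀) + t * (u * (V - X₀) + v * (X - X₀)) =
      X₀ + (a + t * u : ℝ) * (V - X₀) + (b + t * v : ℝ) * (X - X₀) := fun t => by
    push_cast; ring
  rcases le_total (b * u) (a * v) with h | h
  · obtain ⟨t, t0, h2, h3, h4⟩ := GEarA_one a0 b0 h0 h1 h
    refine ⟨t, t0, key t h2, ?_⟩
    rw [e, h3]
    rcases h4.eq_or_lt with h5 | h5
    · exact .inl (by simp [← h5])
    · exact .inr (.inl (mem_openSegment_iff'.2 ⟨1 - (b + t * v), by linarith only [h3, a0, ab, b0, h0, t0, mul_pos_of_neg_of_neg (Mathlib.Tactic.Linarith.sub_neg_of_lt a0) (Mathlib.Tactic.Linarith.sub_neg_of_lt ab), mul_pos_of_neg_of_neg (Mathlib.Tactic.Linarith.sub_neg_of_lt b0) (Mathlib.Tactic.Linarith.sub_neg_of_lt ab), mul_pos_of_neg_of_neg (Mathlib.Tactic.Linarith.sub_neg_of_lt ab) (Mathlib.Tactic.Linarith.sub_neg_of_lt ab), mul_nonneg_of_nonpos_of_nonpos (Mathlib.Tactic.Linarith.sub_nonpos_of_le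 h0) (le_of_lt (Mathlib.Tactic.Linarith.sub_neg_of_lt t0))], by linarith,
        by push_cast; ring⟩))
  · obtain ⟨t, t0, h2, h3, h4⟩ := GEarA_one b0 a0 (by linarith) h1.symm h
    refine ⟨t, t0, key t fun s s0 s1 => (h2 s s0 s1).symm, ?_⟩
    rw [e, h3]
    rcases h4.eq_or_lt with h5 | h5
    · exact .inl (by simp [← h5])
    · exact .inr (.inr (mem_openSegment_iff'.2 ⟨a + t * u, h5, by linarith only [h3, a0, ab, b0, h0, t0, mul_pos_of_neg_of_neg (Mathlib.Tactic.Linarith.sub_neg_of_lt a0) (Mathlib.Tactic.Linarith.sub_neg_of_lt ab), mul_pos_of_neg_of_neg (Mathlib.Tactic.Linarith.sub_neg_of_lt b0) (Mathlib.Tactic.Linarith.sub_neg_of_lt ab), mul_pos_of_neg_of_neg (Mathlib.Tactic.Linarith.sub_neg_of_lt ab) (Mathlib.Tactic.Linarith.sub_neg_of_lt ab), mul_nonneg_of_nonpos_of_nonpos (Mathlib.Tactic.Linarith.sub_nonpos_of_le h0) (le_of_lt (Mathlib.Tactic.Linarith.sub_neg_of_lt t0))], by simp⟩))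

theorem ear_core (h : SP es) {X₁ X₀ V X : ℂ} {ρ : ℝ} (h1 : (X₁, X₀) ∈ es) (h2 : (X₀, V) ∈ es)
    (hc : 0 < cr (X₀ - X₁) (V - X₀)) (hρ : 0 < ρ) (hρ1 : ρ ≤ 1) (hX : X = X₀ + ρ * (X₁ - X₀))
    (hv : ∀ f ∈ es, f.1 ∉ Lft [(X, X₀), (X₀, V), (V, X)]) :
    Lft [(X, X₀), (X₀, V), (V, X)] ⊆ IL es := by
  have e : ∀ z, cr (X₀ - X) (z - X) = ρ * cr (X₀ - X₁) (z - X₀) := fun z => by
    simp [hX, cr]; ring
  have hc' : 0 < cr (X₀ - X) (V - X₀) := by
    have e' : cr (X₀ - X) (V - X₀) = ρ * cr (X₀ - X₁) (V - X₀) := by simp [hX, cr]; ring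
    rw [e']
    exact mul_pos hρ hc
  have hγ : ∀ z ∈ Lft [(X, X₀), (X₀, V), (V, X)], 0 < cr (X₀ - X₁) (z - X₀) := fun z hz =>
    (mul_pos_iff_of_pos_left hρ).1 (e z ▸ hz (X, X₀) (by simp))
  have hd : Disjoint (Lft [(X, X₀), (X₀, V), (V, X)]) (GC es) := by
    refine disjoint_left.2 ?_
    rintro z hz ⟨⟨p, q⟩, he, hs⟩
    have n1 : (X₁, X₀) ≠ (p, q) := by
      rintro ⟨⟩
      obtain ⟨t, -, -, rfl⟩ := mem_segment_iff'.1 hs
      refine (hγ _ hz).ne' ?_
      simp [cr]; ring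
    have n2 : (X₀, V) ≠ (p, q) := by
      rintro ⟨⟩
      exact disjoint_left.1 (Lft_disjoint _) hz ⟨_, by simp, hs⟩
    obtain ⟨r, r1, r2, r3⟩ : ∃ r ∈ segment ℝ p q, r ∉ Lft [(X, X₀), (X₀, V), (V, X)] ∧
        0 ≤ cr (X - V) (r - z) := by
      obtain ⟨t, t0, t1, rfl⟩ := mem_segment_iff'.1 hs
      obtain ⟨o, ho⟩ := h.loop.next he
      rcases le_total 0 (cr (X - V) (q - p)) with k | k
      · refine ⟨q, right_mem_segment _ _ _, hv _ ho, (mul_nonneg (sub_nonneg.2 t1) k).trans_eq ?_⟩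
        simp [cr]; ring
      · refine ⟨p, left_mem_segment _ _ _, hv _ he, (mul_nonneg t0 (neg_nonneg.2 k)).trans_eq ?_⟩
        simp [cr]; ring
    obtain ⟨t, t0, k1, k2⟩ := ear_exit hc' (sub_ne_zero.2 fun k : r = z => r2 (k ▸ hz)) hz r3
    have t1 : t ≤ 1 := not_lt.1 fun k => r2 (by simpa using k1 1 zero_le_one k)
    have hy : z + t * (r - z) ∈ segment ℝ p q :=
      (convex_segment p q).segment_subset hs r1 (mem_segment_iff'.2 ⟨t, t0.le, t1, rfl⟩)
    rcases k2 with k | k | k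
    · rw [k] at hy
      rcases h.simp.vert_seg he (List.mem_map_of_mem (f := Prod.fst) h2) hy with k' | k'
      · obtain rfl : X₀ = p := k'
        exact n2 (congrArg _ (h.simp.out_eq h2 he))
      · obtain rfl : X₀ = q := k'
        exact n1 (by rw [h.simp.in_eq h.loop h1 he])
    · refine h.simp.open_seg h.loop h1 he n1 ?_ hy
      obtain ⟨s, s0, s1, k⟩ := mem_openSegment_iff'.1 k
      exact mem_openSegment_iff'.2 ⟨1 - ρ * (1 - s), by linarith only [hρ1, hρ, s0, mul_pos_of_neg_of_neg (Mathlib.Tactic.Linarith.sub_neg_of_lt hρ) (Mathlib.Tactic.Linarith.sub_neg_of_lt s0)],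
        by linarith only [hρ, s1, mul_pos hρ (sub_pos.2 s1)], by rw [k, hX]; push_cast; ring⟩
    · exact h.simp.open_seg h.loop h2 he n2 k hy
  have hO := (GEarA_tri hc').2 ⟨1 / 3, 1 / 3, by norm_num, by norm_num, by norm_num, rfl⟩
  obtain ⟨z, hz, k⟩ := ((mem_closure_iff_frequently.1 (closure_mono
    ((tri_seg hc').2.2 _ hO X₀ (.inr (.inl rfl))) (segment_subset_closure_openSegment
      (left_mem_segment _ _ _)))).and_eventually (h.corner_left h1 h2)).exists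
  exact h.loop.sub (convex_Lft _).isPreconnected hd hz (k (hγ z hz) (hz (X₀, V) (by simp)))

end Pool.Agent.Work.MP_267827_an.PS
end

-- merged part: Pool.Agent.Work.MP_267827_an.PS.GEar
section
/-! The ear lemma (skeleton helper49).

The edges `(X₁, X₀)`, `(X₀, V)` make a strict left turn.  Barycentric coordinates for the triangle
`X, X₀, V` with `X = X₀ + ρ (X₁ - X₀)` are the three cross products in the definition of `Lft`:
`γ z = cr (X₀ - X) (z - X)`, `β z = cr (V - X₀) (z - X₀)`, `α z = cr (X - V) (z - V)`; their sum is the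
constant `cr (X₀ - X) (V - X₀) > 0`.

`ear_exit` (no polygon): move from `z` in the direction `d` with `α` nondecreasing; `β` or `γ`
decreases strictly (the three derivatives add up to zero and do not all vanish since `d ≠ 0`); stop
at the first zero of `β` or `γ`.
`ear_core`: suppose `z` in the open triangle lies on the edge `(p, q)`.  It is not one of the two
given edges (`β = 0` or `γ = 0` there) and `z` is no vertex, so `z` is on the open edge.  Choose
`r ∈ {p, q}` such that `α` does not decrease from `z` to `r`; `ear_exit` with `d = r - z` gives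
`y = z + t d`.  If `t > 1` then `r` is in the open triangle; if `t ≤ 1` then `y` is on the segment
`p q` and `y = X₀` or `y` is on the open edge `X₁ X₀` or `X₀ V`: this contradicts `Simp.vert_seg`
with `Simp.out_eq`, `Simp.in_eq` (if `y = X₀` then `(p, q)` is one of the two edges) or
`Simp.open_seg`.  So the convex open triangle misses the curve; it contains points near `X₀`, which
are in `IL es` by `SP.corner_left`; use `Loop.sub`.
`ear_side`: if no point of the open segment `V U` is on the curve, each is in the closure of the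
open triangle, so in `IL es` (`Loop.mem_of_closure`).  Otherwise `z` is on an open edge `(p, q)`
(no vertex in the open segment); if `p` or `q` had `α > 0` the points of the edge near `z` would be
in the open triangle, so `α p = α q = 0` (as `α z = 0`), the edge lies on the line `V X`, and since
`V`, `U` are not inner points of the edge and `p`, `q` are not in the open segment `V U`,
`{p, q} = {V, U}`.  The edge `(U, V)` is excluded by `Simp.in_eq` (`U ≠ X₀`).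
`ear`: let `S` be the finite set of vertices in the closed triangle `X₁ X₀ V` other than the three
corners, written as `V + s (X₀ + ρ (X₁ - X₀) - V)` with `0 < s < 1`, `0 < ρ ≤ 1`
(`s = 1` or `ρ = 0` would put the vertex on an open edge).  If `S` is empty take `ρ = 1`, `U = X₁`.
Otherwise take the vertex with the least `ρ` and among those the least `s`. -/

set_option autoImplicit false

namespace Pool.Agent.Work.MP_267827_an.PS

open MeasureTheory Set Filter Topology Real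

variable {es : List (ℂ × ℂ)}

theorem GEar_tri {X X₀ V z : ℂ} : z ∈ Lft [(X, X₀), (X₀, V), (V, X)] ↔
    0 < cr (X₀ - X) (z - X) ∧ 0 < cr (V - X₀) (z - X₀) ∧ 0 < cr (X - V) (z - V) := by
  simp [Lft]

theorem GEar_line (V W : ℂ) {a b x : ℝ} (h : (a < x ∧ x < b) ∨ (b < x ∧ x < a)) :
    V + x * W ∈ openSegment ℝ (V + a * W) (V + b * W) := by
  have hne : b - a ≠ 0 := by
    rcases h with h | h <;> intro h0 <;> linarith only [h, h0, h.1, h.2]
  have hne' : (b : ℂ) - a ≠ 0 := by exact_mod_cast hne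
  refine mem_openSegment_iff'.2 ⟨(x - a) / (b - a), ?_, ?_, ?_⟩
  · rcases h with h | h
    · exact div_pos (by linarith [h.1]) (by linarith [h.1, h.2])
    · exact div_pos_of_neg_of_neg (by linarith [h.2]) (by linarith [h.1, h.2])
  · rcases h with h | h
    · rw [div_lt_one (by linarith [h.1, h.2])]; linarith [h.2]
    · rw [div_lt_one_of_neg (by linarith [h.1, h.2])]; linarith [h.1]
  · push_cast
    field_simp
    ring

theorem GEar_near {X X₀ V d : ℂ} {t : ℝ} (hc : 0 < cr (X₀ - X) (V - X₀)) (ht : 0 < t)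
    (ht1 : t < 1) (hd : 0 < cr (X - V) d) :
    ∀ᶠ ε : ℝ in 𝓝[>] 0, V + t * (X - V) + ε * d ∈ Lft [(X, X₀), (X₀, V), (V, X)] := by
  have h1 : ∀ᶠ ε : ℝ in 𝓝 0, 0 < cr (X₀ - X) (V + t * (X - V) + ε * d - X) := by
    have hcont : Continuous fun ε : ℝ => cr (X₀ - X) (V + t * (X - V) + ε * d - X) := by
      fun_prop
    apply hcont.continuousAt.eventually (lt_mem_nhds _)
    have : cr (X₀ - X) (V + t * (X - V) + (0 : ℝ) * d - X) = (1 - t) * cr (X₀ - X) (V - X₀) := by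
      simp [cr]; ring
    simp only [this]
    exact mul_pos (by linarith) hc
  have h2 : ∀ᶠ ε : ℝ in 𝓝 0, 0 < cr (V - X₀) (V + t * (X - V) + ε * d - X₀) := by
    have hcont : Continuous fun ε : ℝ => cr (V - X₀) (V + t * (X - V) + ε * d - X₀) := by
      fun_prop
    apply hcont.continuousAt.eventually (lt_mem_nhds _)
    have : cr (V - X₀) (V + t * (X - V) + (0 : ℝ) * d - X₀) = t * cr (X₀ - X) (V - X₀) := by
      simp [cr]; ring
    simp only [this]
    exact mul_pos ht hc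
  filter_upwards [mem_nhdsWithin_of_mem_nhds h1, mem_nhdsWithin_of_mem_nhds h2,
    self_mem_nhdsWithin] with ε e1 e2 e3
  refine GEar_tri.2 ⟨e1, e2, ?_⟩
  have : cr (X - V) (V + t * (X - V) + ε * d - V) = ε * cr (X - V) d := by
    simp [cr]; ring
  rw [this]
  exact mul_pos e3 hd

theorem ear_side (h : SP es) {X₀ V X U : ℂ} {s : ℝ} (h2 : (X₀, V) ∈ es)
    (hc : 0 < cr (X₀ - X) (V - X₀)) (hT : Lft [(X, X₀), (X₀, V), (V, X)] ⊆ IL es) (hs : 0 < s)
    (hs1 : s ≤ 1) (hU : U = V + s * (X - V)) (hU' : U ∈ es.map Prod.fst)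
    (hv : ∀ f ∈ es, f.1 ∉ openSegment ℝ V U) : Free es V U ∨ (V, U) ∈ es := by
  have hV : V ∈ es.map Prod.fst := by
    obtain ⟨r, hr⟩ := h.loop.next h2
    exact List.mem_map.2 ⟨_, hr, rfl⟩
  have hX₀ : cr (X - V) (X₀ - V) = cr (X₀ - X) (V - X₀) := by simp [cr]; ring
  have hW : X - V ≠ 0 := by
    intro h0
    rw [h0, cr_zero_left] at hX₀
    linarith
  have hrep : ∀ z ∈ openSegment ℝ V U, ∃ t : ℝ, 0 < t ∧ t < s ∧ z = V + t * (X - V) := by
    intro z hz
    obtain ⟨t, ht, ht1, rfl⟩ := mem_openSegment_iff'.1 hz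
    refine ⟨t * s, mul_pos ht hs, by linarith only [hs, ht1, mul_pos_of_neg_of_neg (Mathlib.Tactic.Linarith.sub_neg_of_lt hs) (Mathlib.Tactic.Linarith.sub_neg_of_lt ht1)], ?_⟩
    rw [hU]; push_cast; ring
  have hseg : ∀ a : ℝ, 0 < a → a < s → V + a * (X - V) ∈ openSegment ℝ V U := by
    intro a ha has
    have := GEar_line V (X - V) (a := 0) (b := s) (x := a) (Or.inl ⟨ha, has⟩)
    rw [← hU] at this
    simpa using this
  by_cases hG : ∃ z ∈ openSegment ℝ V U, z ∈ GC es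
  swap
  · left
    intro z hz
    refine h.loop.mem_of_closure ?_ fun hz' => hG ⟨z, hz, hz'⟩
    obtain ⟨t, ht, hts, rfl⟩ := hrep z hz
    have hev := GEar_near (d := X₀ - V) hc ht (by linarith only [hs1, hts]) (by rw [hX₀]; exact hc)
    have htend : Tendsto (fun ε : ℝ => V + t * (X - V) + ε * (X₀ - V)) (𝓝[>] 0)
        (𝓝 (V + t * (X - V))) := by
      have hcont : Continuous fun ε : ℝ => V + t * (X - V) + ε * (X₀ - V) := by fun_prop
      have := hcont.tendsto 0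
      simp only [Complex.ofReal_zero, zero_mul, add_zero] at this
      exact this.mono_left nhdsWithin_le_nhds
    exact mem_closure_of_tendsto htend (hev.mono fun ε he => hT he)
  right
  obtain ⟨z, hz, ⟨p, q⟩, he, hzs⟩ := hG
  simp only at hzs
  obtain ⟨q', hq'⟩ := h.loop.next he
  have hp : p ∉ openSegment ℝ V U := hv _ he
  have hq : q ∉ openSegment ℝ V U := hv _ hq'
  have hzo : z ∈ openSegment ℝ p q := by
    rcases seg_cases hzs with rfl | rfl | h'
    · exact absurd hz hp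
    · exact absurd hz hq
    · exact h'
  obtain ⟨t, ht, hts, hzt⟩ := hrep z hz
  obtain ⟨τ, hτ, hτ1, hzτ⟩ := mem_openSegment_iff'.1 hzo
  have hcr : cr (X - V) (q - p) = 0 := by
    rcases lt_trichotomy (cr (X - V) (q - p)) 0 with hlt | h0 | hgt
    · exfalso
      have hev := GEar_near (d := p - q) hc ht (by linarith)
        (by rw [← neg_sub q p, cr_neg_right]; linarith)
      have h3 : ∀ᶠ ε : ℝ in 𝓝[>] 0, ε < τ := mem_nhdsWithin_of_mem_nhds (gt_mem_nhds hτ)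
      obtain ⟨ε, ⟨e1, e2⟩, e3⟩ := ((hev.and h3).and self_mem_nhdsWithin).exists
      have e3' : 0 < ε := e3
      refine (hT e1).1 ⟨(p, q), he, mem_segment_iff'.2 ⟨τ - ε, by linarith, by linarith, ?_⟩⟩
      rw [← hzt, hzτ]; push_cast; ring
    · exact h0
    · exfalso
      have hev := GEar_near (d := q - p) hc ht (by linarith) hgt
      have h3 : ∀ᶠ ε : ℝ in 𝓝[>] 0, ε < 1 - τ :=
        mem_nhdsWithin_of_mem_nhds (gt_mem_nhds (by linarith only [hτ1]))
      obtain ⟨ε, ⟨e1, e2⟩, e3⟩ := ((hev.and h3).and self_mem_nhdsWithin).exists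
      have e3' : 0 < ε := e3
      refine (hT e1).1 ⟨(p, q), he, mem_segment_iff'.2 ⟨τ + ε, by linarith only [hτ, e3], by linarith only [e2], ?_⟩⟩
      rw [← hzt, hzτ]; push_cast; ring
  obtain ⟨r, hr⟩ := cr_eq_zero hW hcr
  have hr0 : r ≠ 0 := by
    rintro rfl
    apply h.simp.ne he
    simp only [Complex.ofReal_zero, zero_mul] at hr
    exact (sub_eq_zero.1 hr).symm
  obtain ⟨a, ha⟩ : ∃ a : ℝ, a = t - τ * r := ⟨_, rfl⟩
  obtain ⟨b, hb⟩ : ∃ b : ℝ, b = t + (1 - τ) * r := ⟨_, rfl⟩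
  have hpa : p = V + a * (X - V) := by
    rw [ha]; push_cast
    linear_combination hzt - hzτ - τ * hr
  have hqb : q = V + b * (X - V) := by
    rw [hb]; push_cast
    linear_combination hzt - hzτ + (1 - τ) * hr
  have hna : ¬ (0 < a ∧ a < s) := fun h' => hp (hpa ▸ hseg a h'.1 h'.2)
  have hnb : ¬ (0 < b ∧ b < s) := fun h' => hq (hqb ▸ hseg b h'.1 h'.2)
  have hnV : ¬ ((a < 0 ∧ 0 < b) ∨ (b < 0 ∧ 0 < a)) := by
    intro h'
    obtain ⟨f, hf, hfV⟩ := List.mem_map.1 hV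
    apply h.simp.vert _ he f hf
    have := GEar_line V (X - V) h'
    rw [← hpa, ← hqb] at this
    simpa [hfV] using this
  have hnU : ¬ ((a < s ∧ s < b) ∨ (b < s ∧ s < a)) := by
    intro h'
    obtain ⟨f, hf, hfU⟩ := List.mem_map.1 hU'
    apply h.simp.vert _ he f hf
    have := GEar_line V (X - V) h'
    rw [← hpa, ← hqb, ← hU] at this
    simpa [hfU] using this
  rcases lt_or_gt_of_ne hr0 with hneg | hpos
  · exfalso
    have h1 : t < a := by linarith only [ha, hτ, hneg, mul_pos_of_neg_of_neg (Mathlib.Tactic.Linarith.sub_neg_of_lt hτ) (Mathlib.Tactic.Linarith.sub_neg_of_lt hneg)]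
    have h3 : b < t := by linarith only [hb, hτ1, hneg, mul_pos_of_neg_of_neg (Mathlib.Tactic.Linarith.sub_neg_of_lt hτ1) (Mathlib.Tactic.Linarith.sub_neg_of_lt hneg)]
    have ha' : a = s := by
      by_contra hne
      rcases lt_or_gt_of_ne hne with h4 | h4
      · exact hna ⟨by linarith, h4⟩
      · exact hnU (Or.inr ⟨by linarith only [hts, h3], h4⟩)
    have hb' : b = 0 := by
      by_contra hne
      rcases lt_or_gt_of_ne hne with h4 | h4
      · exact hnV (Or.inr ⟨h4, by linarith⟩)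
      · exact hnb ⟨h4, by linarith only [hts, h3]⟩
    have hqV : q = V := by rw [hqb, hb']; simp
    have hpX : p = X₀ := h.simp.in_eq h.loop (hqV ▸ he) h2
    have : cr (X - V) (p - V) = 0 := by
      rw [hpa, add_sub_cancel_left, cr_mul_right, cr_self, mul_zero]
    rw [hpX, hX₀] at this
    linarith
  · have h1 : a < t := by linarith only [ha, hτ, hpos, mul_pos_of_neg_of_neg (Mathlib.Tactic.Linarith.sub_neg_of_lt hτ) (Mathlib.Tactic.Linarith.sub_neg_of_lt hpos)]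
    have h3 : t < b := by linarith only [hb, hτ1, hpos, mul_pos_of_neg_of_neg (Mathlib.Tactic.Linarith.sub_neg_of_lt hτ1) (Mathlib.Tactic.Linarith.sub_neg_of_lt hpos)]
    have ha' : a = 0 := by
      by_contra hne
      rcases lt_or_gt_of_ne hne with h4 | h4
      · exact hnV (Or.inl ⟨h4, by linarith⟩)
      · exact hna ⟨h4, by linarith⟩
    have hb' : b = s := by
      by_contra hne
      rcases lt_or_gt_of_ne hne with h4 | h4
      · exact hnb ⟨by linarith, h4⟩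
      · exact hnU (Or.inl ⟨by linarith, h4⟩)
    have hpV : p = V := by rw [hpa, ha']; simp
    have hqU : q = U := by rw [hqb, hb', hU]
    rw [← hpV, ← hqU]
    exact he

theorem GEar_main (h : SP es) {X₁ X₀ V : ℂ} (h1 : (X₁, X₀) ∈ es) (h2 : (X₀, V) ∈ es)
    (hc : 0 < cr (X₀ - X₁) (V - X₀)) {ρ s : ℝ} (hρ : 0 < ρ) (hρ1 : ρ ≤ 1) (hs : 0 < s)
    (hs1 : s ≤ 1) {X U : ℂ} (hX : X = X₀ + ρ * (X₁ - X₀)) (hU : U = V + s * (X - V))
    (hU' : U ∈ es.map Prod.fst)
    (hmin : ∀ ρ' s' : ℝ, 0 < ρ' → ρ' ≤ 1 → 0 < s' → s' < 1 →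
      V + s' * (X₀ + ρ' * (X₁ - X₀) - V) ∈ es.map Prod.fst → ρ ≤ ρ' ∧ (ρ' = ρ → s ≤ s')) :
    Lft [(X, X₀), (X₀, V), (V, X)] ⊆ IL es ∧ (Free es V U ∨ (V, U) ∈ es) := by
  have hc' : 0 < cr (X₀ - X) (V - X₀) := by
    have : cr (X₀ - X) (V - X₀) = ρ * cr (X₀ - X₁) (V - X₀) := by
      rw [hX]; simp [cr]; ring
    rw [this]; exact mul_pos hρ hc
  have hT : Lft [(X, X₀), (X₀, V), (V, X)] ⊆ IL es := by
    refine ear_core h h1 h2 hc hρ hρ1 hX fun f hf hfT => ?_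
    have hT' : f.1 ∈ Lft [(V, X), (X, X₀), (X₀, V)] := by
      obtain ⟨e1, e2, e3⟩ := GEar_tri.1 hfT
      exact GEar_tri.2 ⟨e3, e1, e2⟩
    have hc'' : 0 < cr (X - V) (X₀ - V) := by
      have : cr (X - V) (X₀ - V) = cr (X₀ - X) (V - X₀) := by simp [cr]; ring
      rw [this]; exact hc'
    obtain ⟨σ, τ, hσ, hτ, hστ, hz⟩ := (mem_tri hc'').1 hT'
    have hpos : 0 < σ + τ := by linarith only [hσ, hτ]
    have hlt : σ * ρ / (σ + τ) < ρ := by
      rw [div_lt_iff₀ hpos]; linarith only [hρ, hτ, mul_pos_of_neg_of_neg (Mathlib.Tactic.Linarith.sub_neg_of_lt hρ) (Mathlib.Tactic.Linarith.sub_neg_of_lt hτ)]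
    have hne : ((σ : ℂ) + τ) ≠ 0 := by exact_mod_cast hpos.ne'
    have := hmin (σ * ρ / (σ + τ)) (σ + τ) (by positivity) (by linarith only [hρ1, hlt]) hpos hστ (by
      refine List.mem_map.2 ⟨f, hf, ?_⟩
      rw [hz, hX]; push_cast; field_simp; ring)
    linarith only [hlt, this, this.1]
  refine ⟨hT, ear_side h h2 hc' hT hs hs1 hU hU' fun f hf hfo => ?_⟩
  obtain ⟨t, ht, ht1, hz⟩ := mem_openSegment_iff'.1 hfo
  have := (hmin ρ (t * s) hρ hρ1 (mul_pos ht hs) (by linarith only [hs1, hs, ht1, mul_pos_of_neg_of_neg (Mathlib.Tactic.Linarith.sub_neg_of_lt hs) (Mathlib.Tactic.Linarith.sub_neg_of_lt ht1)]) (by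
    refine List.mem_map.2 ⟨f, hf, ?_⟩
    rw [hz, hU, hX]; push_cast; ring)).2 rfl
  linarith only [this, hs, ht1, mul_pos_of_neg_of_neg (Mathlib.Tactic.Linarith.sub_neg_of_lt hs) (Mathlib.Tactic.Linarith.sub_neg_of_lt ht1)]

theorem ear (h : SP es) {X₁ X₀ V : ℂ} (h1 : (X₁, X₀) ∈ es) (h2 : (X₀, V) ∈ es)
    (hc : 0 < cr (X₀ - X₁) (V - X₀)) :
    ∃ (ρ : ℝ) (X U : ℂ), 0 < ρ ∧ ρ ≤ 1 ∧ X = X₀ + ρ * (X₁ - X₀) ∧ U ∈ es.map Prod.fst ∧
      Lft [(X, X₀), (X₀, V), (V, X)] ⊆ IL es ∧ (Free es V U ∨ (V, U) ∈ es) ∧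
      ((ρ = 1 ∧ U = X₁) ∨ U ∈ openSegment ℝ V X) := by
  set T : Set (ℝ × ℝ) := {x | 0 < x.1 ∧ x.1 ≤ 1 ∧ 0 < x.2 ∧ x.2 < 1 ∧
    V + x.2 * (X₀ + x.1 * (X₁ - X₀) - V) ∈ es.map Prod.fst} with hTdef
  have hfin : T.Finite := by
    refine Set.Finite.of_finite_image
      (f := fun x : ℝ × ℝ => V + x.2 * (X₀ + x.1 * (X₁ - X₀) - V)) ?_ ?_
    · refine (List.finite_toSet (es.map Prod.fst)).subset ?_
      rintro _ ⟨x, hx, rfl⟩
      exact hx.2.2.2.2
    · rintro ⟨ρ, s⟩ hx ⟨ρ', s'⟩ hy hxy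
      simp only at hxy
      have e1 : ∀ ρ s : ℝ, cr (X₁ - X₀) (V + s * (X₀ + ρ * (X₁ - X₀) - V) - V) =
          s * cr (X₀ - X₁) (V - X₀) := by
        intro ρ s; simp [cr]; ring
      have e2 : ∀ ρ s : ℝ, cr (V - X₀) (V + s * (X₀ + ρ * (X₁ - X₀) - V) - V) =
          s * ρ * cr (X₀ - X₁) (V - X₀) := by
        intro ρ s; simp [cr]; ring
      have hs : s = s' := by
        have := e1 ρ s
        rw [hxy, e1] at this
        exact (mul_right_cancel₀ hc.ne' this).symm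
      have hρ : ρ = ρ' := by
        have := e2 ρ s
        rw [hxy, e2, ← hs] at this
        have h3 := mul_right_cancel₀ hc.ne' this
        exact (mul_left_cancel₀ (ne_of_gt hx.2.2.1) h3).symm
      rw [hs, hρ]
  rcases T.eq_empty_or_nonempty with hE | hne
  · have hX : X₁ = X₀ + ((1 : ℝ) : ℂ) * (X₁ - X₀) := by simp
    have hU : X₁ = V + ((1 : ℝ) : ℂ) * (X₁ - V) := by simp
    have hU' : X₁ ∈ es.map Prod.fst := List.mem_map.2 ⟨_, h1, rfl⟩
    obtain ⟨g1, g2⟩ := GEar_main h h1 h2 hc one_pos le_rfl one_pos le_rfl hX hU hU' (by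
      intro ρ' s' a1 a2 a3 a4 a5
      have : (ρ', s') ∈ T := ⟨a1, a2, a3, a4, a5⟩
      rw [hE] at this
      exact this.elim)
    exact ⟨1, X₁, X₁, one_pos, le_rfl, hX, hU', g1, g2, Or.inl ⟨rfl, rfl⟩⟩
  · obtain ⟨x, hx, hxm⟩ := Set.exists_min_image T Prod.fst hfin hne
    obtain ⟨y, ⟨hy, hyx⟩, hym⟩ := Set.exists_min_image {y ∈ T | y.1 = x.1} Prod.snd
      (hfin.subset fun _ hz => hz.1) ⟨x, hx, rfl⟩
    obtain ⟨a1, a2, a3, a4, a5⟩ := hy
    obtain ⟨g1, g2⟩ := GEar_main h h1 h2 hc a1 a2 a3 a4.le rfl rfl a5 (by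
      intro ρ' s' b1 b2 b3 b4 b5
      have hm : (ρ', s') ∈ T := ⟨b1, b2, b3, b4, b5⟩
      refine ⟨hyx ▸ hxm _ hm, fun he => hym (ρ', s') ⟨hm, ?_⟩⟩
      rw [← hyx]; exact he)
    exact ⟨y.1, _, _, a1, a2, rfl, a5, g1, g2,
      Or.inr (mem_openSegment_iff'.2 ⟨y.2, a3, a4, rfl⟩)⟩

end Pool.Agent.Work.MP_267827_an.PS
end

-- merged part: Pool.Agent.Work.MP_267827_an.PS.GTri
section
/-! Diagonals, triangles and the area (skeleton helper49).

`exists_convex`: take the vertex `p` of largest norm, with the edges `(o, p)`, `(p, q)`.  The curve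
lies in `closedBall 0 ‖p‖`.  The points `p + t (p - o)`, `t > 0`, are outside this ball (strict
convexity: `p` is an inner point of the segment from `o ≠ p` to such a point; or compute
`‖p + t d‖ ^ 2` with `‖p - d‖ ≤ ‖p‖`).  A straight turn (`Simp.straight`) would put `q` outside,
a right turn would put these points in `IL es` (`SP.corner_right`), but `wn = 0` there (`wn_zero`).
`diagonal`: `ear` at this corner.  Second case: `U`, `X₀` with `tri_seg`.  First case: `V X₁` is free,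
or `(V, X₁)` is an edge and the loop has three edges (`Loop.three`).
`diag_cut`: `Loop.split`, `cut1`; `l = []` would make the free segment an edge.
`SP.tri`: a loop with three edges is `(a, b), (b, c), (c, a)` (rotate to `a`, `Simp.out_eq`); the
corner of `exists_convex` is one of the three, and all three cross products are equal.
`tri_of_edge`, `SP.vol`: strong induction on the length with `diag_cut`; an edge of a part is an edge
of `es` or the free diagonal. -/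

set_option autoImplicit false

namespace Pool.Agent.Work.MP_267827_an.PS

open MeasureTheory Set Filter Topology Real

variable {es : List (ℂ × ℂ)}

theorem GTri_out {o p : ℂ} (h : ‖o‖ ≤ ‖p‖) (hne : o ≠ p) {t : ℝ} (ht : 0 < t) :
    ‖p‖ < ‖p + t * (p - o)‖ := by
  have h1 : ‖o‖ ^ 2 ≤ ‖p‖ ^ 2 := pow_le_pow_left₀ (norm_nonneg _) h 2
  have h2 : 0 < Complex.normSq (p - o) := Complex.normSq_pos.2 (sub_ne_zero.2 hne.symm)
  refine lt_of_pow_lt_pow_left₀ 2 (norm_nonneg _) ?_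
  simp only [Complex.sq_norm, Complex.normSq_apply, Complex.add_re, Complex.add_im, Complex.mul_re,
    Complex.mul_im, Complex.ofReal_re, Complex.ofReal_im, Complex.sub_re, Complex.sub_im, zero_mul,
    sub_zero, add_zero] at h1 h2 ⊢
  have h3 : 0 < p.re * (p.re - o.re) + p.im * (p.im - o.im) := by linarith only [h2, h1]
  linarith only [ht, h3, h2, mul_pos ht h3, mul_pos (mul_pos ht ht) h2]

theorem GTri_not_edge {p q : ℂ} (hf : Free es p q) : (p, q) ∉ es := fun he => by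
  have hz : p + ((1 / 2 : ℝ) : ℂ) * (q - p) ∈ openSegment ℝ p q :=
    mem_openSegment_iff'.2 ⟨1 / 2, by norm_num, by norm_num, rfl⟩
  exact (hf hz).1 ⟨_, he, openSegment_subset_segment _ _ _ hz⟩

theorem exists_convex (h : SP es) :
    ∃ o p q, (o, p) ∈ es ∧ (p, q) ∈ es ∧ 0 < cr (p - o) (q - p) := by
  classical
  obtain ⟨⟨p, q⟩, he, hmax⟩ := es.toFinset.exists_max_image (fun e => ‖e.1‖)
    (by simpa using h.loop.ne_nil)
  simp only [List.mem_toFinset] at he hmax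
  obtain ⟨o, ho⟩ := h.loop.prev he
  have h2 : ∀ e ∈ es, ‖e.2‖ ≤ ‖p‖ := fun e he' => by
    obtain ⟨r, hr⟩ := h.loop.next (p := e.1) (q := e.2) he'
    exact hmax _ hr
  have hG : GC es ⊆ Metric.closedBall 0 ‖p‖ := by
    rintro z ⟨e, he', hz⟩
    exact (convex_closedBall _ _).segment_subset (mem_closedBall_zero_iff.2 (hmax e he'))
      (mem_closedBall_zero_iff.2 (h2 e he')) hz
  have hout := fun t ht => GTri_out (hmax _ ho) (h.simp.ne ho) (t := t) ht
  refine ⟨o, p, q, ho, he, ?_⟩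
  rcases lt_trichotomy 0 (cr (p - o) (q - p)) with hc | hc | hc
  · exact hc
  · obtain ⟨r, hr, e⟩ := h.simp.straight h.loop ho he hc.symm
    have := hout r hr
    rw [← e, add_sub_cancel] at this
    exact absurd (h2 _ he) (not_le.2 this)
  · exfalso
    have ht : Tendsto (fun t : ℝ => p + t * (p - o)) (𝓝[>] 0) (𝓝 p) := by
      have : Continuous fun t : ℝ => p + t * (p - o) := by fun_prop
      simpa using (this.tendsto 0).mono_left nhdsWithin_le_nhds
    obtain ⟨t, h3, h4⟩ := ((ht.eventually (h.corner_right ho he hc)).and self_mem_nhdsWithin).exists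
    have h5 : 0 < cr (q - p) (p + t * (p - o) - p) := by
      rw [add_sub_cancel_left, cr_mul_right, cr_swap]
      exact mul_pos h4 (by linarith)
    have h6 := wn_zero h.loop (convex_closedBall _ _) hG
      (z := p + t * (p - o)) fun hz => not_le.2 (hout t h4) (mem_closedBall_zero_iff.1 hz)
    have h7 := (h3 h5).2
    rw [h6] at h7
    exact zero_ne_one h7

theorem diagonal (h : SP es) (h4 : 4 ≤ es.length) :
    ∃ p q, p ∈ es.map Prod.fst ∧ q ∈ es.map Prod.fst ∧ Free es p q := by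
  obtain ⟨o, p, q, h1, h2, hc⟩ := exists_convex h
  obtain ⟨ρ, X, U, hρ, -, hX, hU, hL, hf, hcase⟩ := ear h h1 h2 hc
  obtain ⟨r, hr⟩ := h.loop.next h2
  rcases hcase with ⟨-, rfl⟩ | hcase
  · rcases hf with hf | hf
    · exact ⟨q, U, List.mem_map.2 ⟨_, hr, rfl⟩, hU, hf⟩
    · have := (h.loop.three h.simp h1 h2 hf).length_eq
      simp at this
      omega
  · have hc' : 0 < cr (p - X) (q - p) := by
      have : p - X = ρ * (p - o) := by rw [hX]; ring
      rw [this, cr_mul_left]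
      exact mul_pos hρ hc
    exact ⟨U, p, hU, List.mem_map.2 ⟨_, h2, rfl⟩, ((tri_seg hc').2.1 U hcase).trans hL⟩

theorem diag_cut (h : SP es) (h4 : 4 ≤ es.length) :
    ∃ (p q : ℂ) (e₁ e₂ : List (ℂ × ℂ)), es.Perm (e₁ ++ e₂) ∧ 2 ≤ e₁.length ∧ 2 ≤ e₂.length ∧
      p ∈ es.map Prod.fst ∧ q ∈ es.map Prod.fst ∧ Free es p q ∧
      Cut es ((q, p) :: e₁) ((p, q) :: e₂) (segment ℝ q p) := by
  obtain ⟨p, q, hp, hq, hf⟩ := diagonal h h4
  have hne : p ≠ q := by
    obtain ⟨e, he, rfl⟩ := List.mem_map.1 hp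
    exact hf.ne (fst_mem_GC he)
  obtain ⟨l, l', hperm⟩ := h.loop.split hp hq hne
  refine ⟨p, q, _, _, hperm, ?_, ?_, hp, hq, hf, cut1 h hperm (List.Perm.refl _) (List.Perm.refl _)
    ⟨q, p :: l, List.Perm.refl _⟩ ⟨p, q :: l', List.Perm.refl _⟩ hp hq hf.symm⟩
  · cases l with
    | nil => exact absurd (hperm.mem_iff.2 (by simp)) (GTri_not_edge hf)
    | cons x l => simp [Ed_length]
  · cases l' with
    | nil => exact absurd (hperm.mem_iff.2 (by simp)) (GTri_not_edge hf.symm)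
    | cons x l => simp [Ed_length]

theorem SP.tri (h : SP es) (h3 : es.length = 3) {a b : ℂ} (he : (a, b) ∈ es) :
    ∃ c, es.Perm [(a, b), (b, c), (c, a)] ∧ 0 < cr (b - a) (c - a) := by
  obtain ⟨l, hl⟩ := h.loop.rotate (p := a) (List.mem_map.2 ⟨_, he, rfl⟩)
  have hlen := hl.length_eq
  rw [h3, Ed_length] at hlen
  obtain ⟨x, c, rfl⟩ : ∃ x c, l = [x, c] := List.length_eq_two.1 (by simp at hlen; omega)
  have e1 : (a, x) ∈ es := hl.mem_iff.2 (by simp)
  obtain rfl := h.simp.out_eq he e1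
  have e2 : (b, c) ∈ es := hl.mem_iff.2 (by simp)
  have e3 : (c, a) ∈ es := hl.mem_iff.2 (by simp)
  refine ⟨c, hl, ?_⟩
  obtain ⟨o, p, q, h1, h2, hc⟩ := exists_convex h
  have h1' := hl.mem_iff.1 h1
  simp only [List.cons_append, List.nil_append, Ed_cons, Ed_one, List.mem_cons, Prod.mk.injEq,
    List.not_mem_nil, or_false] at h1'
  rcases h1' with ⟨rfl, rfl⟩ | ⟨rfl, rfl⟩ | ⟨rfl, rfl⟩
  · obtain rfl := h.simp.out_eq h2 e2
    refine hc.trans_eq ?_
    simp only [cr, Complex.sub_re, Complex.sub_im]; ring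
  · obtain rfl := h.simp.out_eq h2 e3
    refine hc.trans_eq ?_
    simp only [cr, Complex.sub_re, Complex.sub_im]; ring
  · obtain rfl := h.simp.out_eq h2 he
    refine hc.trans_eq ?_
    simp only [cr, Complex.sub_re, Complex.sub_im]; ring

theorem SP.tri_IL {a b c : ℂ} (h : SP [(a, b), (b, c), (c, a)]) :
    0 < cr (b - a) (c - a) ∧ IL [(a, b), (b, c), (c, a)] = Lft [(a, b), (b, c), (c, a)] := by
  obtain ⟨c', hp, hc⟩ := h.tri rfl (a := a) (b := b) (by simp)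
  obtain rfl : c = c' := h.simp.out_eq (p := b) (by simp) (hp.mem_iff.2 (by simp))
  refine ⟨hc, h.conv fun e he f hf => ?_⟩
  simp only [List.mem_cons, List.not_mem_nil, or_false] at he hf
  simp only [cr, Complex.sub_re, Complex.sub_im] at hc ⊢
  rcases he with rfl | rfl | rfl <;> rcases hf with rfl | rfl | rfl <;> dsimp only <;> linarith only [hc]

theorem tri_of_edge (h : SP es) {a b : ℂ} (he : (a, b) ∈ es) :
    ∃ c ∈ es.map Prod.fst, 0 < cr (b - a) (c - a) ∧ Lft [(a, b), (b, c), (c, a)] ⊆ IL es ∧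
      (Free es b c ∨ (b, c) ∈ es) ∧ (Free es c a ∨ (c, a) ∈ es) := by
  induction hn : es.length using Nat.strong_induction_on generalizing es with
  | _ n ih =>
  rcases (h.loop.three_le h.simp).eq_or_lt with h3 | h4
  · obtain ⟨c, hp, hc⟩ := h.tri h3.symm he
    refine ⟨c, List.mem_map.2 ⟨(c, a), hp.mem_iff.2 (by simp), rfl⟩, hc, ?_,
      Or.inr (hp.mem_iff.2 (by simp)), Or.inr (hp.mem_iff.2 (by simp))⟩
    rw [IL_perm hp, (h.perm hp).tri_IL.2]
  · obtain ⟨p, q, e₁, e₂, hp, l1, l2, mp, mq, hf, hcut⟩ := diag_cut h h4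
    have hlen := hp.length_eq
    rw [List.length_append] at hlen
    have key : ∀ (x y : ℂ) (e : List (ℂ × ℂ)), SP ((x, y) :: e) → IL ((x, y) :: e) ⊆ IL es →
        (∀ f ∈ e, f ∈ es) → e.length + 1 < n → x ∈ es.map Prod.fst → Free es x y → (a, b) ∈ e →
        ∃ c ∈ es.map Prod.fst, 0 < cr (b - a) (c - a) ∧ Lft [(a, b), (b, c), (c, a)] ⊆ IL es ∧
          (Free es b c ∨ (b, c) ∈ es) ∧ (Free es c a ∨ (c, a) ∈ es) := by
      intro x y e hs hsub hmem hl hx hxy hab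
      obtain ⟨c, hc, c1, c2, c3, c4⟩ := ih _ hl hs (List.mem_cons_of_mem _ hab) rfl
      have lift : ∀ u v, Free ((x, y) :: e) u v ∨ (u, v) ∈ (x, y) :: e →
          Free es u v ∨ (u, v) ∈ es := by
        rintro u v (h1 | h1)
        · exact Or.inl (h1.mono hsub)
        · rcases List.mem_cons.1 h1 with h1 | h1
          · obtain ⟨rfl, rfl⟩ := Prod.mk.inj h1
            exact Or.inl hxy
          · exact Or.inr (hmem _ h1)
      refine ⟨c, ?_, c1, c2.trans hsub, lift _ _ c3, lift _ _ c4⟩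
      obtain ⟨f, hf, rfl⟩ := List.mem_map.1 hc
      rcases List.mem_cons.1 hf with rfl | hf
      · exact hx
      · exact List.mem_map.2 ⟨f, hmem f hf, rfl⟩
    rcases List.mem_append.1 (hp.mem_iff.1 he) with h1 | h1
    · exact key q p e₁ hcut.sp1 hcut.sub1 (fun f hf => hp.mem_iff.2 (List.mem_append_left _ hf))
        (by omega) mq hf.symm h1
    · exact key p q e₂ hcut.sp2 hcut.sub2 (fun f hf => hp.mem_iff.2 (List.mem_append_right _ hf))
        (by omega) mp hf h1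

theorem SP.vol (h : SP es) : 0 < sh es ∧ volume (IL es) = ENNReal.ofReal (sh es) := by
  induction hn : es.length using Nat.strong_induction_on generalizing es with
  | _ n ih =>
  rcases (h.loop.three_le h.simp).eq_or_lt with h3 | h4
  · obtain ⟨⟨a, b⟩, he⟩ := List.exists_mem_of_ne_nil _ h.loop.ne_nil
    obtain ⟨c, hp, hc⟩ := h.tri h3.symm he
    have hs : sh es = cr (b - a) (c - a) / 2 := by
      rw [sh_perm hp, sh_cons, sh_cons, sh_cons, sh_nil]
      simp only [cr, Complex.sub_re, Complex.sub_im]; ring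
    rw [IL_perm hp, (h.perm hp).tri_IL.2, tri_area hc, hs]
    exact ⟨by linarith only [hc], rfl⟩
  · obtain ⟨p, q, e₁, e₂, hp, l1, l2, -, -, -, hcut⟩ := diag_cut h h4
    have hlen := hp.length_eq
    rw [List.length_append] at hlen
    obtain ⟨a1, a2⟩ := ih _ (by simp; omega) hcut.sp1 rfl
    obtain ⟨b1, b2⟩ := ih _ (by simp; omega) hcut.sp2 rfl
    rw [hcut.area, ENNReal.ofReal_add a1.le b1.le, ← a2, ← b2,
      ← measure_union hcut.disj hcut.sp2.loop.isOpen_IL.measurableSet]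
    refine ⟨by linarith only [a1, b1], le_antisymm ?_ (measure_mono (union_subset hcut.sub1 hcut.sub2))⟩
    refine (measure_mono hcut.cov).trans ((measure_union_le _ _).trans ?_)
    rw [hcut.null, add_zero]

theorem SP.sh_pos (h : SP es) : 0 < sh es := h.vol.1

theorem SP.vol_real (h : SP es) : volume.real (IL es) = sh es := by
  rw [Measure.real, h.vol.2, ENNReal.toReal_ofReal h.vol.1.le]

end Pool.Agent.Work.MP_267827_an.PS
end

-- merged part: Pool.Agent.Work.MP_267827_an.PS.GPiece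
section
/-! Pieces: cuts, new vertices, mirror images, cells (skeleton helper49).

`Cst.big`: `0 < tan (π / n)` and `rel` give `κ < g * (π / n)`, so `n κ < g π`.
`Piece.nodup_fst`, `nodup_snd`: `Ed_fst`, `Ed_snd`, `Loop.snd_perm`.
`Piece.cut`: `cut1` with `a = X`, `b = V`, `e₁ = Ed (c₁ ++ [V]) ++ Ed (X :: w₁)`,
`e₂ = Ed (V :: c₂) ++ Ed (w₂ ++ [X])` (`Ed_append`), loops by `Loop.of_ends`.  The point `X` is a
source: of a wall edge if `w₁ ≠ []`, otherwise it is the head of `c₁`.  The new wall edges are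
`X - V = s ei ψ` and `V - X = s ei (ψ + π)`.
`Piece.ins_wall`, `Piece.ins_chain`: `Ed_append₂`, permutations, `SP.insert`, `IL_insert`,
`sh_insert`, `GC_insert`, `Wall.insert`.
`Piece.mir`: `Ed_mir`, `SP.mir`, `Wall.mir`, `GC_mir`.  `Res.of_mir`: `HS.conj`, `Low.conj`,
`IL_mir`, `RigC.mir`, `mirL_mirL`; conjugation is an involution (`image_image`).
`cell`: `c = [A, B]`, `w = B :: k ++ [A]`; `hi - lo < π` by `Piece.lt_pi`; `Wall.sum` gives
`A - B = s ei τ'`; put `τ = τ' - π`, `a = hi - τ'`, `b = τ' - lo`.  `SP.conv` with `Wall.conv` and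
`Wall.base` shows `IL = Lft`, `SP.vol_real` that its measure is `sh`; `cell_pos`.
If a constant `Λ > lam * sh` with `CellLow Λ a b` is available, use `lam' = Λ / sh` and `Low.hs`.
This is the case if `a > π / 2` (`obt`), `b > π / 2` (`obt`, `symm`), and for acute cells unless
`Fv = 0` and `a = b = π / 2 - π / n`.  In that case `cell_area` and `rel` give `s₀ ≤ s`:
`lam * sh = 2 (g π / n - κ) = lam s₀ ^ 2 / (4 tan (π / n))` and `sh ≤ s ^ 2 / (4 tan (π / n))`. -/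

set_option autoImplicit false

namespace Pool.Agent.Work.MP_267827_an.PS

open MeasureTheory Set Filter Topology Real

variable {n : ℕ} {g κ lam s₀ lo hi lo' hi' ψ s : ℝ} {D : Set ℂ} {c w c₁ c₂ w₁ w₂ : List ℂ}
  {V X p q x : ℂ}

theorem GPiece_mem {l : List ℂ} (h : 2 ≤ l.length) (hx : x ∈ l) : x ∈ l.dropLast ∨ x ∈ l.tail := by
  rcases l with _ | ⟨a, _ | ⟨b, l⟩⟩
  · simp at h
  · simp at h
  · exact (List.mem_cons.1 hx).imp_left fun k => by simp [k]

theorem GPiece_vtx {es : List (ℂ × ℂ)} {l : List ℂ} (hl : Loop es) (h : 2 ≤ l.length)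
    (hs : Ed l ⊆ es) (hx : x ∈ l) : x ∈ es.map Prod.fst := by
  rcases GPiece_mem h hx with k | k
  · exact List.map_subset _ hs (Ed_fst l ▸ k)
  · exact hl.snd_perm.subset (List.map_subset _ hs (Ed_snd l ▸ k))

theorem GPiece_ins {A B : List (ℂ × ℂ)} (h : SP (A ++ (p, q) :: B)) (hx : x ∈ openSegment ℝ p q) :
    SP (A ++ (p, x) :: (x, q) :: B) ∧ IL (A ++ (p, x) :: (x, q) :: B) = IL (A ++ (p, q) :: B) ∧
      sh (A ++ (p, x) :: (x, q) :: B) = sh (A ++ (p, q) :: B) := by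
  have e : (A ++ (p, x) :: (x, q) :: B).Perm ((p, x) :: (x, q) :: (A ++ B)) :=
    List.perm_middle.trans (List.perm_middle.cons _)
  have hx' := openSegment_subset_segment _ _ _ hx
  exact ⟨((h.perm List.perm_middle).insert hx).perm e.symm,
    by rw [IL_perm e, IL_insert hx', IL_perm List.perm_middle],
    by rw [sh_perm e, sh_insert hx', sh_perm List.perm_middle]⟩

theorem Cst.big (hC : Cst n g κ lam s₀) : n * κ < g * π := by
  have h5 : (5 : ℝ) ≤ n := by exact_mod_cast hC.hn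
  have h0 : (0 : ℝ) < n := by linarith
  have h1 : 0 < tan (π / n) := tan_pos_of_pos_of_lt_pi_div_two (div_pos pi_pos h0)
    (div_lt_div_of_pos_left pi_pos two_pos (by linarith))
  have h2 : 0 < 8 * (g * (π / n) - κ) * tan (π / n) := hC.rel ▸ mul_pos hC.hl (pow_pos hC.hs 2)
  have h3 : κ < g * π / n := by
    rw [mul_div_assoc]
    linarith only [h1, h2, (mul_pos_iff_of_pos_right h1).1 h2]
  rwa [lt_div_iff₀' h0] at h3

theorem Piece.rewall (h : Piece D c w lo hi) (hw : Wall lo' hi' w) : Piece D c w lo' hi' :=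
  ⟨h.sp, h.lc, h.lw, h.hA, h.hB, hw, h.dir⟩

theorem Piece.one_le (h : Piece D c w lo hi) : 1 ≤ (Ed c).length := by
  rw [Ed_length]
  have := h.lc
  omega

theorem Piece.lt_pi (hC : Cst n g κ lam s₀) (h : Piece D c w lo hi)
    (hF : 0 ≤ Fv g κ lam c w lo hi) : hi - lo < π := by
  have h1 : (1 : ℝ) ≤ (Ed c).length := by exact_mod_cast h.one_le
  have h2 := mul_pos hC.hl h.sp.sh_pos
  have h3 := mul_pos hC.hκ (one_pos.trans_le h1)
  rw [Fv] at hF
  linarith only [hC, hF, h2, h3, (mul_pos_iff_of_pos_left hC.hg).1 (show 0 < g * (π - (hi - lo)) by linarith)]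

theorem Piece.nodup_fst (h : Piece D c w lo hi) : (c.dropLast ++ w.dropLast).Nodup := by
  rw [← Ed_fst, ← Ed_fst, ← List.map_append]
  exact h.sp.simp.nodup

theorem Piece.nodup_snd (h : Piece D c w lo hi) : (c.tail ++ w.tail).Nodup := by
  rw [← Ed_snd, ← Ed_snd, ← List.map_append]
  exact h.sp.loop.snd_perm.nodup_iff.2 h.sp.simp.nodup

/-- an inner vertex of the chain is not on the wall -/
theorem Piece.not_mem_wall (h : Piece D (c₁ ++ V :: c₂) w lo hi) (h1 : c₁ ≠ []) (h2 : c₂ ≠ []) :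
    V ∉ w ∧ V ∉ c₁ ∧ V ∉ c₂ := by
  have k1 := h.nodup_fst
  have k2 := h.nodup_snd
  rw [List.dropLast_append_cons, List.dropLast_cons_of_ne_nil h2, List.append_assoc,
    List.cons_append, List.nodup_middle, List.nodup_cons, List.mem_append, List.mem_append] at k1
  rw [List.tail_append_of_ne_nil h1, List.append_assoc, List.cons_append, List.nodup_middle,
    List.nodup_cons, List.mem_append, List.mem_append] at k2
  exact ⟨fun k => (GPiece_mem h.lw k).elim (fun j => k1.1 (Or.inr (Or.inr j)))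
    fun j => k2.1 (Or.inr (Or.inr j)), fun k => k1.1 (Or.inl k), fun k => k2.1 (Or.inr (Or.inl k))⟩

theorem Res.low (h : Res n g κ lam s₀ D c w lo hi) : Low D (IL (Ed c ++ Ed w)) lam := by
  exact h.elim HS.low And.left

theorem Res.hs (h : Res n g κ lam s₀ D c w lo hi) (hF : 0 < Fv g κ lam c w lo hi) :
    HS D (IL (Ed c ++ Ed w)) lam := by
  exact h.resolve_right fun k => hF.ne' k.2.1

theorem Piece.cut (h : Piece D (c₁ ++ V :: c₂) (w₂ ++ X :: w₁) lo hi) (h1 : c₁ ≠ [])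
    (h2 : c₂ ≠ []) (hf : Free (Ed (c₁ ++ V :: c₂) ++ Ed (w₂ ++ X :: w₁)) V X) (hs : 0 < s)
    (hψ : X - V = s * ei ψ) (hw1 : Wall ψ hi' (X :: w₁)) (hw2 : Wall lo' (ψ + π) (w₂ ++ [X])) :
    Piece D (c₁ ++ [V]) (V :: X :: w₁) ψ hi' ∧ Piece D (V :: c₂) (w₂ ++ [X, V]) lo' (ψ + π) ∧
      Cut (Ed (c₁ ++ V :: c₂) ++ Ed (w₂ ++ X :: w₁)) (Ed (c₁ ++ [V]) ++ Ed (V :: X :: w₁))
        (Ed (V :: c₂) ++ Ed (w₂ ++ [X, V])) (segment ℝ V X) := by
  have l1 : 2 ≤ (c₁ ++ [V]).length := by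
    have := List.length_pos_iff.2 h1
    simp only [List.length_append, List.length_singleton]
    omega
  have l2 : 2 ≤ (V :: c₂).length := by
    have := List.length_pos_iff.2 h2
    simp only [List.length_cons]
    omega
  have a1 : (c₁ ++ [V]).head? = (V :: X :: w₁).getLast? := by
    have k := h.hA
    rw [List.head?_append_of_ne_nil _ h1] at k ⊢
    rwa [List.getLast?_cons_cons, ← List.getLast?_append_cons w₂]
  have b1 : (c₁ ++ [V]).getLast? = (V :: X :: w₁).head? := by simp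
  have a2 : (V :: c₂).head? = (w₂ ++ [X, V]).getLast? := by simp
  have b2 : (V :: c₂).getLast? = (w₂ ++ [X, V]).head? := by
    rw [← List.getLast?_append_cons c₁, h.hB]
    cases w₂ <;> rfl
  have hc : Cut (Ed (c₁ ++ V :: c₂) ++ Ed (w₂ ++ X :: w₁)) (Ed (c₁ ++ [V]) ++ Ed (V :: X :: w₁))
      (Ed (V :: c₂) ++ Ed (w₂ ++ [X, V])) (segment ℝ V X) := by
    refine cut1 (e₁ := Ed (c₁ ++ [V]) ++ Ed (X :: w₁)) (e₂ := Ed (V :: c₂) ++ Ed (w₂ ++ [X])) h.sp
      ?_ List.perm_middle ?_ (Loop.of_ends l1 (by simp) a1 b1) (Loop.of_ends l2 (by simp) a2 b2)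
      (GPiece_vtx h.sp.loop h.lw (List.subset_append_right _ _) (by simp))
      (GPiece_vtx h.sp.loop h.lc (List.subset_append_left _ _) (by simp)) hf
    · rw [Ed_append c₁, Ed_append w₂, List.append_assoc, List.append_assoc, ← List.append_assoc
        (Ed (V :: c₂))]
      exact List.perm_append_comm.append_left _
    · rw [Ed_append₂, ← List.append_assoc]
      exact List.perm_append_singleton _ _
  have hd := h.dir
  rw [Ed_append, GC_append, union_subset_iff] at hd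
  exact ⟨⟨hc.sp1, l1, by simp, a1, b1, Wall.cons le_rfl hs hψ hw1, hd.1⟩,
    ⟨hc.sp2, l2, by simp, a2, b2, hw2.snoc hs (by rw [ei_add_pi]; linear_combination -hψ), hd.2⟩,
    hc⟩

/-- the budgets add up -/
theorem Fv_cut (g κ lam lo hi ψ : ℝ) (c₁ c₂ w₁ w₂ : List ℂ) (V X : ℂ) :
    Fv g κ lam (c₁ ++ [V]) (V :: X :: w₁) ψ hi + Fv g κ lam (V :: c₂) (w₂ ++ [X, V]) lo (ψ + π) =
      Fv g κ lam (c₁ ++ V :: c₂) (w₂ ++ X :: w₁) lo hi := by
  rw [Fv, Fv, Fv, Ed_append c₁ V c₂, Ed_append w₂ X w₁, Ed_append₂ w₂, Ed_cons]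
  simp only [sh_append, sh_cons, Ed_one, sh_nil, List.length_append, Nat.cast_add]
  rw [cr_swap X V]
  ring

theorem Res.join {Z : Set ℂ}
    (hc : Cut (Ed (c₁ ++ V :: c₂) ++ Ed (w₂ ++ X :: w₁)) (Ed (c₁ ++ [V]) ++ Ed (V :: X :: w₁))
      (Ed (V :: c₂) ++ Ed (w₂ ++ [X, V])) Z)
    (h1 : Res n g κ lam s₀ D (c₁ ++ [V]) (V :: X :: w₁) ψ hi)
    (h2 : Res n g κ lam s₀ D (V :: c₂) (w₂ ++ [X, V]) lo (ψ + π)) :
    Res n g κ lam s₀ D (c₁ ++ V :: c₂) (w₂ ++ X :: w₁) lo hi := by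
  rcases h1 with h1 | h1
  · exact Or.inl (hc.hs h1 h2.low)
  rcases h2 with h2 | h2
  · exact Or.inl (hc.symm.hs h2 h1.1)
  refine Or.inr ⟨hc.low h1.1 h2.1, by rw [← Fv_cut g κ lam lo hi ψ, h1.2.1, h2.2.1, add_zero],
    h1.2.2.append ?_⟩
  have e : ψ + π + π / 2 + π / n = ψ - π / 2 + π / n + π + π := by ring
  have k := h2.2.2
  rwa [e, ei_add_pi, ei_add_pi, neg_neg] at k

theorem Piece.ins_wall (h : Piece D c (w₂ ++ p :: q :: w₁) lo hi) (hx : x ∈ openSegment ℝ p q) :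
    Piece D c (w₂ ++ p :: x :: q :: w₁) lo hi ∧
      IL (Ed c ++ Ed (w₂ ++ p :: x :: q :: w₁)) = IL (Ed c ++ Ed (w₂ ++ p :: q :: w₁)) ∧
      sh (Ed c ++ Ed (w₂ ++ p :: x :: q :: w₁)) = sh (Ed c ++ Ed (w₂ ++ p :: q :: w₁)) := by
  have k := h.sp
  rw [Ed_append₂, ← List.append_assoc] at k
  obtain ⟨k1, k2, k3⟩ := GPiece_ins k hx
  have e : Ed c ++ Ed (w₂ ++ p :: x :: q :: w₁) =
      Ed c ++ Ed (w₂ ++ [p]) ++ (p, x) :: (x, q) :: Ed (q :: w₁) := by
    rw [Ed_append₂, ← List.append_assoc, Ed_cons]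
  rw [e, Ed_append₂ w₂ p q, ← List.append_assoc]
  refine ⟨⟨e ▸ k1, h.lc, by simp; omega, ?_, ?_, h.wall.insert hx, h.dir⟩, k2, k3⟩
  · rw [h.hA, List.getLast?_append_cons, List.getLast?_append_cons]
    rfl
  · rw [h.hB]
    cases w₂ <;> rfl

theorem Piece.ins_chain (h : Piece D (c₁ ++ p :: q :: c₂) w lo hi) (hx : x ∈ openSegment ℝ p q) :
    Piece D (c₁ ++ p :: x :: q :: c₂) w lo hi ∧
      IL (Ed (c₁ ++ p :: x :: q :: c₂) ++ Ed w) = IL (Ed (c₁ ++ p :: q :: c₂) ++ Ed w) ∧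
      sh (Ed (c₁ ++ p :: x :: q :: c₂) ++ Ed w) = sh (Ed (c₁ ++ p :: q :: c₂) ++ Ed w) := by
  have k := h.sp
  rw [Ed_append₂, List.append_assoc, List.cons_append] at k
  obtain ⟨k1, k2, k3⟩ := GPiece_ins k hx
  have e : Ed (c₁ ++ p :: x :: q :: c₂) ++ Ed w =
      Ed (c₁ ++ [p]) ++ (p, x) :: (x, q) :: (Ed (q :: c₂) ++ Ed w) := by
    rw [Ed_append₂, List.append_assoc, Ed_cons]
    rfl
  rw [e, Ed_append₂ c₁ p q, List.append_assoc, List.cons_append]
  refine ⟨⟨e ▸ k1, by simp; omega, h.lw, ?_, ?_, h.wall, ?_⟩, k2, k3⟩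
  · rw [← h.hA]
    cases c₁ <;> rfl
  · rw [← h.hB, List.getLast?_append_cons, List.getLast?_append_cons]
    rfl
  · rw [Ed_append₂, Ed_cons, GC_append, GC_insert (openSegment_subset_segment _ _ _ hx),
      ← GC_append, ← Ed_append₂]
    exact h.dir

/-- the last edge of the chain becomes a part of the wall; the list of edges is the same -/
theorem Piece.drop_last {U : ℂ} (h : Piece D (c₁ ++ [V, U]) (U :: w₁) lo hi) (h1 : c₁ ≠ [])
    (hw : Wall lo' hi' (V :: U :: w₁)) :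
    Piece D (c₁ ++ [V]) (V :: U :: w₁) lo' hi' ∧
      Ed (c₁ ++ [V]) ++ Ed (V :: U :: w₁) = Ed (c₁ ++ [V, U]) ++ Ed (U :: w₁) := by
  have e : Ed (c₁ ++ [V]) ++ Ed (V :: U :: w₁) = Ed (c₁ ++ [V, U]) ++ Ed (U :: w₁) := by
    rw [Ed_append₂, List.append_assoc]
    rfl
  have hd := h.dir
  rw [Ed_append₂, GC_append, union_subset_iff] at hd
  refine ⟨⟨e ▸ h.sp, ?_, by simp, ?_, by simp, hw, hd.1⟩, e⟩
  · have := List.length_pos_iff.2 h1
    simp only [List.length_append, List.length_singleton]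
    omega
  · have k := h.hA
    rw [List.head?_append_of_ne_nil _ h1] at k ⊢
    rwa [List.getLast?_cons_cons]

/-- the first edge of the chain becomes a part of the wall -/
theorem Piece.drop_first {A : ℂ} (h : Piece D (A :: V :: c₂) (w₂ ++ [A]) lo hi) (h2 : c₂ ≠ [])
    (hw : Wall lo' hi' (w₂ ++ [A, V])) :
    Piece D (V :: c₂) (w₂ ++ [A, V]) lo' hi' ∧
      (Ed (V :: c₂) ++ Ed (w₂ ++ [A, V])).Perm (Ed (A :: V :: c₂) ++ Ed (w₂ ++ [A])) := by
  have e : (Ed (V :: c₂) ++ Ed (w₂ ++ [A, V])).Perm (Ed (A :: V :: c₂) ++ Ed (w₂ ++ [A])) := by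
    rw [Ed_append₂, ← List.append_assoc]
    exact List.perm_append_singleton _ _
  have hd := h.dir
  rw [Ed_cons, GC_cons, union_subset_iff] at hd
  refine ⟨⟨h.sp.perm e.symm, ?_, by simp, by simp, ?_, hw, hd.2⟩, e⟩
  · have := List.length_pos_iff.2 h2
    simp only [List.length_cons]
    omega
  · rw [← List.getLast?_cons_cons (a := A), h.hB]
    cases w₂ <;> rfl

end Pool.Agent.Work.MP_267827_an.PS
end

-- merged part: Pool.Agent.Work.MP_267827_an.PS.GPieceB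
section
/-! Pieces: cuts, new vertices, mirror images, cells (skeleton helper49).

`Cst.big`: `0 < tan (π / n)` and `rel` give `κ < g * (π / n)`, so `n κ < g π`.
`Piece.nodup_fst`, `nodup_snd`: `Ed_fst`, `Ed_snd`, `Loop.snd_perm`.
`Piece.cut`: `cut1` with `a = X`, `b = V`, `e₁ = Ed (c₁ ++ [V]) ++ Ed (X :: w₁)`,
`e₂ = Ed (V :: c₂) ++ Ed (w₂ ++ [X])` (`Ed_append`), loops by `Loop.of_ends`.  The point `X` is a
source: of a wall edge if `w₁ ≠ []`, otherwise it is the head of `c₁`.  The new wall edges are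
`X - V = s ei ψ` and `V - X = s ei (ψ + π)`.
`Piece.ins_wall`, `Piece.ins_chain`: `Ed_append₂`, permutations, `SP.insert`, `IL_insert`,
`sh_insert`, `GC_insert`, `Wall.insert`.
`Piece.mir`: `Ed_mir`, `SP.mir`, `Wall.mir`, `GC_mir`.  `Res.of_mir`: `HS.conj`, `Low.conj`,
`IL_mir`, `RigC.mir`, `mirL_mirL`; conjugation is an involution (`image_image`).
`cell`: `c = [A, B]`, `w = B :: k ++ [A]`; `hi - lo < π` by `Piece.lt_pi`; `Wall.sum` gives
`A - B = s ei τ'`; put `τ = τ' - π`, `a = hi - τ'`, `b = τ' - lo`.  `SP.conv` with `Wall.conv` and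
`Wall.base` shows `IL = Lft`, `SP.vol_real` that its measure is `sh`; `cell_pos`.
If a constant `Λ > lam * sh` with `CellLow Λ a b` is available, use `lam' = Λ / sh` and `Low.hs`.
This is the case if `a > π / 2` (`obt`), `b > π / 2` (`obt`, `symm`), and for acute cells unless
`Fv = 0` and `a = b = π / 2 - π / n`.  In that case `cell_area` and `rel` give `s₀ ≤ s`:
`lam * sh = 2 (g π / n - κ) = lam s₀ ^ 2 / (4 tan (π / n))` and `sh ≤ s ^ 2 / (4 tan (π / n))`. -/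

set_option autoImplicit false

namespace Pool.Agent.Work.MP_267827_an.PS

open MeasureTheory Set Filter Topology Real

variable {n : ℕ} {g κ lam s₀ lo hi lo' hi' ψ s : ℝ} {D : Set ℂ} {c w c₁ c₂ w₁ w₂ : List ℂ}
  {V X p q x : ℂ}

theorem GPieceB_perm (c w : List ℂ) :
    (Ed (mirL c) ++ Ed (mirL w)).Perm ((Ed c ++ Ed w).map mirE) := by
  rw [Ed_mir, Ed_mir, List.map_append]
  exact (List.reverse_perm _).append (List.reverse_perm _)

theorem GPieceB_len (c : List ℂ) : (mirL c).length = c.length := by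
  rw [mirL, List.length_reverse, List.length_map]

theorem GPieceB_inv (D : Set ℂ) : (starRingEnd ℂ) '' ((starRingEnd ℂ) '' D) = D := by
  rw [image_image]
  simp only [Complex.conj_conj, image_id']

theorem GPieceB_ei {x y z : ℝ} (h : -x + y = z + π) : -(starRingEnd ℂ) (ei x) * ei y = ei z := by
  rw [ei_conj, neg_mul, ← ei_add, h, ei_add_pi, neg_neg]

theorem GPieceB_mem {r : ℂ} (h : (p, r) ∈ Ed c) :
    ((starRingEnd ℂ) r, (starRingEnd ℂ) p) ∈ Ed (mirL c) := by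
  rw [Ed_mir, List.mem_reverse]
  exact List.mem_map.2 ⟨_, h, rfl⟩

theorem GPieceB_cr (p q r : ℂ) : cr ((starRingEnd ℂ) q - (starRingEnd ℂ) r)
    ((starRingEnd ℂ) p - (starRingEnd ℂ) q) = cr (q - p) (r - q) := by
  simp only [cr, Complex.sub_re, Complex.sub_im, Complex.conj_re, Complex.conj_im]
  ring

theorem Piece.mir (h : Piece D c w lo hi) :
    Piece ((starRingEnd ℂ) '' D) (mirL c) (mirL w) (-hi - π) (-lo - π) := by
  refine ⟨h.sp.mir.perm (GPieceB_perm c w).symm, (GPieceB_len c).symm ▸ h.lc,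
    (GPieceB_len w).symm ▸ h.lw, ?_, ?_, h.wall.mir, ?_⟩
  · rw [mirL, mirL, List.head?_reverse, List.getLast?_reverse, List.getLast?_map, List.head?_map,
      h.hB]
  · rw [mirL, mirL, List.head?_reverse, List.getLast?_reverse, List.getLast?_map, List.head?_map,
      h.hA]
  · rw [Ed_mir, GC_perm (List.reverse_perm _), GC_mir]
    exact image_mono h.dir

theorem Fv_mir (g κ lam lo hi : ℝ) (c w : List ℂ) :
    Fv g κ lam (mirL c) (mirL w) (-hi - π) (-lo - π) = Fv g κ lam c w lo hi := by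
  rw [Fv, Fv, sh_perm (GPieceB_perm c w), sh_mir, Ed_length, Ed_length, GPieceB_len]
  ring

theorem Res.of_mir
    (h : Res n g κ lam s₀ ((starRingEnd ℂ) '' D) (mirL c) (mirL w) (-hi - π) (-lo - π)) :
    Res n g κ lam s₀ D c w lo hi := by
  rw [Res, IL_perm (GPieceB_perm c w), IL_mir, Fv_mir] at h
  rcases h with h | ⟨h1, h2, h3⟩
  · have := h.conj
    rw [GPieceB_inv, GPieceB_inv] at this
    exact Or.inl this
  · have k1 := h1.conj
    rw [GPieceB_inv, GPieceB_inv] at k1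
    have k2 := h3.mir
    rw [mirL_mirL, GPieceB_ei (z := hi + π / 2 + π / n) (by ring),
      GPieceB_ei (z := lo - π / 2 + π / n) (by ring)] at k2
    exact Or.inr ⟨k1, h2, k2⟩

/-- the corners where an edge of `x` is followed by an edge of `y` are convex -/
def Cvx (x y : List ℂ) : Prop := ∀ p q r, (p, q) ∈ Ed x → (q, r) ∈ Ed y → 0 < cr (q - p) (r - q)

/-- the same corners are not reflex -/
def Cvx0 (x y : List ℂ) : Prop := ∀ p q r, (p, q) ∈ Ed x → (q, r) ∈ Ed y → 0 ≤ cr (q - p) (r - q)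

theorem Cvx.of_mir (h : Cvx (mirL c) (mirL w)) : Cvx w c := by
  intro p q r h1 h2
  rw [← GPieceB_cr]
  exact h _ _ _ (GPieceB_mem h2) (GPieceB_mem h1)

theorem Cvx0.of_mir (h : Cvx0 (mirL c) (mirL w)) : Cvx0 w c := by
  intro p q r h1 h2
  rw [← GPieceB_cr]
  exact h _ _ _ (GPieceB_mem h2) (GPieceB_mem h1)

theorem GPieceB_s {θ S : ℝ} (h0 : 0 < θ) (h1 : θ < π / 2) (hs : 0 < s)
    (h2 : s₀ ^ 2 = 4 * S * tan θ) (h3 : S ≤ s ^ 2 * sin (π / 2 - θ) * sin (π / 2 - θ) /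
      (2 * sin (π / 2 - θ + (π / 2 - θ)))) : s₀ ≤ s := by
  have hc : 0 < cos θ := cos_pos_of_mem_Ioo ⟨by linarith only [h0, h1], h1⟩
  have hn : 0 < sin θ := sin_pos_of_pos_of_lt_pi h0 (by linarith only [h0, h1])
  rw [show π / 2 - θ + (π / 2 - θ) = π - 2 * θ by ring, sin_pi_sub, sin_two_mul, sin_pi_div_two_sub,
    le_div_iff₀ (by positivity)] at h3
  refine (abs_le_of_sq_le_sq' ?_ hs.le).2
  rw [h2, tan_eq_sin_div_cos, ← mul_div_assoc, div_le_iff₀ hc]
  refine le_of_mul_le_mul_right ?_ hc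
  linarith only [h3]

theorem cell (hC : Cst n g κ lam s₀) (h : Piece D c w lo hi) (h1 : (Ed c).length = 1)
    (hF : 0 ≤ Fv g κ lam c w lo hi) : Res n g κ lam s₀ D c w lo hi := by
  have hπ := h.lt_pi hC hF
  obtain ⟨A, B, rfl⟩ : ∃ A B, c = [A, B] := by
    rw [Ed_length] at h1
    exact List.length_eq_two.1 (by omega)
  obtain ⟨B', k, A', rfl⟩ := two_le_iff.1 h.lw
  obtain rfl : A = A' := Option.some.inj (h.hA.trans List.getLast?_concat)
  obtain rfl : B = B' := by simpa using h.hB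
  obtain ⟨τ', s, hs, t1, t2, hB⟩ := h.wall.sum hπ
  obtain ⟨τ, a, b, rfl, rfl, rfl⟩ : ∃ τ a b, τ' = τ + π ∧ lo = τ + π - b ∧ hi = τ + π + a :=
    ⟨τ' - π, hi - τ', τ' - lo, by ring, by ring, by ring⟩
  have hB' : B - A = s * ei τ := by
    rw [← neg_sub, hB, ei_add_pi, mul_neg, neg_neg]
  have hab : a + b < π := by linarith only [hπ]
  have hsp : SP ((A, B) :: Ed (B :: k ++ [A])) := h.sp
  have hI : IL ((A, B) :: Ed (B :: k ++ [A])) = Lft ((A, B) :: Ed (B :: k ++ [A])) := by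
    refine hsp.conv fun e he f hf => ?_
    have hf' : f.1 ∈ B :: k ++ [A] := by
      rcases List.mem_cons.1 hf with rfl | hf
      · simp
      · obtain ⟨l₁, l₂, e⟩ := mem_Ed.1 (show (f.1, f.2) ∈ _ from hf)
        rw [e]
        simp
    rcases List.mem_cons.1 he with rfl | he
    · exact h.wall.base hπ hf'
    · exact h.wall.conv hπ.le he hf'
  have hv := hsp.vol_real
  have hS := hsp.sh_pos
  have hne := hsp.nonempty
  have hFv : Fv g κ lam [A, B] (B :: k ++ [A]) (τ + π - b) (τ + π + a) =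
      g * (π - a - b) - 2 * κ - lam * sh ((A, B) :: Ed (B :: k ++ [A])) := by
    rw [Fv, h1, show Ed [A, B] ++ Ed (B :: k ++ [A]) = (A, B) :: Ed (B :: k ++ [A]) from rfl]
    push_cast
    ring
  rw [Res, hFv, show Ed [A, B] ++ Ed (B :: k ++ [A]) = (A, B) :: Ed (B :: k ++ [A]) from rfl, hI]
  rw [hFv] at hF
  rw [hI] at hv hne
  obtain ⟨ha, hb⟩ := cell_pos hs hB' h.wall (by linarith only [t1, hπ]) (by linarith) hab hne
  have hD : segment ℝ A B ⊆ D := fun z hz => h.dir ⟨(A, B), List.mem_cons_self, hz⟩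
  have hA := (cell_area hs hB' h.wall ha hb hab).2
  have low : ∀ Λ l, CellLow Λ a b → l * sh ((A, B) :: Ed (B :: k ++ [A])) ≤ Λ →
      Low D (Lft ((A, B) :: Ed (B :: k ++ [A]))) l := fun Λ l h2 h3 =>
    (h2 A B k τ s l hs hB' h.wall (hv ▸ h3)).monoD hD
  rw [hv] at hA
  generalize sh ((A, B) :: Ed (B :: k ++ [A])) = S at hS hF hA low
  have key : ∀ Λ, CellLow Λ a b → lam * S < Λ →
      HS D (Lft ((A, B) :: Ed (B :: k ++ [A]))) lam := fun Λ h2 h3 =>
    (low Λ (Λ / S) h2 (div_mul_cancel₀ Λ hS.ne').le).hs ((lt_div_iff₀ hS).2 h3) (isOpen_Lft _) hne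
  rcases lt_or_ge (π / 2) a with ha' | ha'
  · obtain ⟨Λ, h2, h3⟩ := hC.obt a b ha' hb hab
    exact Or.inl (key Λ h3 (by linarith only [hF, h2]))
  rcases lt_or_ge (π / 2) b with hb' | hb'
  · obtain ⟨Λ, h2, h3⟩ := hC.obt b a hb' ha (by linarith only [hπ])
    exact Or.inl (key Λ h3.symm (by linarith only [hF, h2]))
  obtain ⟨Λ, h2, h3, h4⟩ := acute hC.hκ hC.right ha ha' hb hb' hab
  rcases lt_or_ge (lam * S) Λ with h5 | h5
  · exact Or.inl (key Λ h4 h5)
  obtain ⟨rfl, rfl⟩ : a = π / 2 - π / n ∧ b = π / 2 - π / n := by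
    by_contra h6
    linarith only [hF, h5, h3, h6, h3 h6]
  have hn : (0 : ℝ) < n := Nat.cast_pos.2 (by have := hC.hn; omega)
  refine Or.inr ⟨low Λ lam h4 (by linarith only [hF, h2]), by linarith only [hF, h5, h2], ?_⟩
  have e1 : ei (τ + π + (π / 2 - π / n) + π / 2 + π / n) = ei τ := by
    rw [show τ + π + (π / 2 - π / n) + π / 2 + π / n = τ + 2 * π by ring, ei_add, ei_two_pi, mul_one]
  have e2 : ei (τ + π - (π / 2 - π / n) - π / 2 + π / n) = ei τ * ei (2 * π / n) := by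
    rw [← ei_add]
    congr 1
    ring
  rw [e1, e2]
  refine RigC.cons (GPieceB_s (div_pos pi_pos hn) (by linarith only [ha]) hs ?_ hA) hB' (RigC.one _ _)
  refine mul_left_cancel₀ hC.hl.ne' ?_
  have e3 : lam * S = 2 * (g * (π / n) - κ) := by linarith only [h5, h2, hF]
  rw [hC.rel]
  linear_combination (-4 * tan (π / n)) * e3

end Pool.Agent.Work.MP_267827_an.PS
end

-- merged part: Pool.Agent.Work.MP_267827_an.PS.GSweepA
section
/-! The sweep: tools (skeleton helper49).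

A piece with chain `c₁ ++ V :: c₂` and wall `w₂ ++ X₁ :: X₀ :: w₁`; the pivot `V` is strictly left of
the wall edge `(X₁, X₀)`.  All directions of the wall lie in `(ω, ω + π)`.  `phi t` is the budget of
the part cut off by the segment from `V` to `X t = X₀ + t (X₁ - X₀)`.

With `Wall.split_edge`: `X₀ - X₁ = s ei τ`, `lo ≤ τ ≤ hi` (`Wall.le`), and
`cr (ei τ) (X t - V) < 0` for all `t`, so `dirn_mem`, `dirn_contAt`, `dirn_lt` apply.
`phi_diff`: only the direction and three terms of the shoelace sum depend on `t`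
(`sh_append`, `sh_cons`): `cr V (X t) + cr (X t) X₀ = cr V X₀ + t * cr (X₀ - X₁) (V - X₀)`.
`sweep_at`: cut at a wall vertex: `Piece.cut` with `ψ = dirn ω (X₀ - V)`, `dirn_eq`, the walls from
`Wall.mono` (`τ - π < ψ < τ`).
`sweep_cut`: `Piece.ins_wall`, then `sweep_at` for the wall `(w₂ ++ [X₁]) ++ X t :: X₀ :: w₁` read as
`w₂ ++ X₁ :: X t :: (X₀ :: w₁)`; the segment is free by `tri_seg`; `Cut.congr`, `Fv_cut`.
`sweep_ivt`: intermediate value theorem for `phi` on `[0, ρ]`, the cut as in `sweep_cut`, `IH` for both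
parts (`Ed_append`, `Ed_length`), `Res.join` for the piece with the new vertex, and back
(`IL` and `Fv` do not change).
`sweep_start`: choose `t < ρ` with `lam ‖X t - A‖ ^ 2 ≤ 1`; `phi t < phi 0 ≤ 0`, so the second part has a
positive budget (`Res.hs`); the first part is the triangle `A V (X t)`: `SP.tri_IL`, `thin_tri`.
`sweep_end`: choose `t < 1` with `lam ‖X t - B‖ ^ 2 ≤ 1`; `phi t > phi 1 ≥ 0`; the second part is the
triangle `V B (X t)`.
`sweep_pocket`: `Piece.cut` with `w₂ = []`, `lo' = ψ + π`; the pocket has the budget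
`g π - 2 κ m₂ - lam * sh₂`, which is positive by `hpos`, `m₂ < m`, `sh₂ < sh` (`Cut.area`,
`SP.sh_pos`). -/

set_option autoImplicit false

namespace Pool.Agent.Work.MP_267827_an.PS

open MeasureTheory Set Filter Topology Real

/-- the budget of the part cut off -/
noncomputable def phi (g κ lam ω hi : ℝ) (c₁ : List ℂ) (V X₁ X₀ : ℂ) (w₁ : List ℂ) (t : ℝ) : ℝ :=
  Fv g κ lam (c₁ ++ [V]) (V :: (X₀ + t * (X₁ - X₀)) :: X₀ :: w₁)
    (dirn ω (X₀ + t * (X₁ - X₀) - V)) hi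

variable {n : ℕ} {g κ lam s₀ lo hi ω ρ t t' : ℝ} {D : Set ℂ} {c₁ c₂ w₁ w₂ : List ℂ}
  {V X₁ X₀ X : ℂ}

theorem phi_zero : phi g κ lam ω hi c₁ V X₁ X₀ w₁ 0 =
    Fv g κ lam (c₁ ++ [V]) (V :: X₀ :: w₁) (dirn ω (X₀ - V)) hi := by
  simp only [phi, Fv, Complex.ofReal_zero, zero_mul, add_zero, Ed_cons, sh_append, sh_cons, cr_self,
    zero_div, zero_add]

theorem phi_one : phi g κ lam ω hi c₁ V X₁ X₀ w₁ 1 =
    Fv g κ lam (c₁ ++ [V]) (V :: X₁ :: X₀ :: w₁) (dirn ω (X₁ - V)) hi := by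
  simp only [phi, Complex.ofReal_one, one_mul, add_sub_cancel]

theorem phi_diff (t : ℝ) : phi g κ lam ω hi c₁ V X₁ X₀ w₁ t = phi g κ lam ω hi c₁ V X₁ X₀ w₁ 0 +
    g * (dirn ω (X₀ + t * (X₁ - X₀) - V) - dirn ω (X₀ - V)) -
      lam * (t * cr (X₀ - X₁) (V - X₀) / 2) := by
  have h : cr V (X₀ + t * (X₁ - X₀)) + cr (X₀ + t * (X₁ - X₀)) X₀ =
      cr V X₀ + t * cr (X₀ - X₁) (V - X₀) := by
    simp [cr]
    ring
  rw [phi_zero]
  simp only [phi, Fv, Ed_cons, sh_append, sh_cons]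
  linear_combination (-lam / 2) * h

theorem GSweepA_dir (hw : Wall lo hi (w₂ ++ X₁ :: X₀ :: w₁)) (hω : ω < lo) (hω' : hi < ω + π)
    (hV : 0 < cr (X₀ - X₁) (V - X₀)) : ∃ τ s : ℝ, 0 < s ∧ X₀ - X₁ = s * ei τ ∧
      Wall lo τ (w₂ ++ [X₁]) ∧ Wall τ hi (X₀ :: w₁) ∧ ω < τ ∧ τ < ω + π ∧
      ∀ t : ℝ, cr (ei τ) (X₀ + t * (X₁ - X₀) - V) < 0 := by
  obtain ⟨τ, s, hs, e, h1, h2⟩ := hw.split_edge
  refine ⟨τ, s, hs, e, h1, h2, hω.trans_le h1.le, h2.le.trans_lt hω', fun t => ?_⟩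
  have h3 : cr (X₀ - X₁) (X₀ + t * (X₁ - X₀) - V) = -cr (X₀ - X₁) (V - X₀) := by
    simp [cr]
    ring
  rw [e, cr_mul_left, ← e] at h3
  exact neg_of_mul_neg_right (h3 ▸ neg_lt_zero.2 hV) hs.le

theorem phi_cont (hw : Wall lo hi (w₂ ++ X₁ :: X₀ :: w₁)) (hω : ω < lo) (hω' : hi < ω + π)
    (hV : 0 < cr (X₀ - X₁) (V - X₀)) : Continuous (phi g κ lam ω hi c₁ V X₁ X₀ w₁) := by
  obtain ⟨τ, s, -, -, -, -, h1, h2, h3⟩ := GSweepA_dir hw hω hω' hV
  have h4 : Continuous fun t : ℝ => dirn ω (X₀ + t * (X₁ - X₀) - V) :=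
    continuous_iff_continuousAt.2 fun t => ContinuousAt.comp (g := dirn ω)
      (f := fun t : ℝ => X₀ + t * (X₁ - X₀) - V) (dirn_contAt h1 h2 (h3 t)) (by fun_prop)
  rw [funext (phi_diff (g := g) (κ := κ) (lam := lam) (hi := hi) (ω := ω) (c₁ := c₁) (w₁ := w₁)
    (V := V) (X₁ := X₁) (X₀ := X₀))]
  fun_prop

theorem phi_anti (hg : 0 < g) (hl : 0 < lam) (hw : Wall lo hi (w₂ ++ X₁ :: X₀ :: w₁))
    (hω : ω < lo) (hω' : hi < ω + π) (hV : 0 < cr (X₀ - X₁) (V - X₀)) (h : t < t') :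
    phi g κ lam ω hi c₁ V X₁ X₀ w₁ t' < phi g κ lam ω hi c₁ V X₁ X₀ w₁ t := by
  obtain ⟨τ, s, -, -, -, -, h1, h2, h3⟩ := GSweepA_dir hw hω hω' hV
  have h4 : cr (X₀ + t' * (X₁ - X₀) - V) (X₀ + t * (X₁ - X₀) - V) =
      (t' - t) * cr (X₀ - X₁) (V - X₀) := by
    simp [cr]
    ring
  have h5 := mul_pos (sub_pos.2 h) hV
  have h6 := mul_pos hg (sub_pos.2 (dirn_lt h1 h2 (h3 t') (h3 t) (h4 ▸ h5)))
  have h7 := mul_pos hl h5
  rw [phi_diff t', phi_diff t]
  linarith only [h6, h7]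

theorem sweep_at (h : Piece D (c₁ ++ V :: c₂) (w₂ ++ X₁ :: X₀ :: w₁) lo hi) (h1 : c₁ ≠ [])
    (h2 : c₂ ≠ []) (hω : ω < lo) (hω' : hi < ω + π) (hV : 0 < cr (X₀ - X₁) (V - X₀))
    (hf : Free (Ed (c₁ ++ V :: c₂) ++ Ed (w₂ ++ X₁ :: X₀ :: w₁)) V X₀) :
    Piece D (c₁ ++ [V]) (V :: X₀ :: w₁) (dirn ω (X₀ - V)) hi ∧
      Piece D (V :: c₂) (w₂ ++ [X₁, X₀, V]) lo (dirn ω (X₀ - V) + π) ∧
      Cut (Ed (c₁ ++ V :: c₂) ++ Ed (w₂ ++ X₁ :: X₀ :: w₁)) (Ed (c₁ ++ [V]) ++ Ed (V :: X₀ :: w₁))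
        (Ed (V :: c₂) ++ Ed (w₂ ++ [X₁, X₀, V])) (segment ℝ V X₀) := by
  obtain ⟨τ, s, hs, e, a1, a2, b1, b2, h3⟩ := GSweepA_dir h.wall hω hω' hV
  have h4 := h3 0
  rw [Complex.ofReal_zero, zero_mul, add_zero] at h4
  obtain ⟨h5, h6⟩ := dirn_mem b1 b2 h4
  have h7 : 0 < ‖X₀ - V‖ := norm_pos_iff.2 fun h0 => by
    rw [h0, cr_zero_right] at h4
    exact lt_irrefl _ h4
  have e1 : w₂ ++ X₁ :: X₀ :: w₁ = (w₂ ++ [X₁]) ++ X₀ :: w₁ := by simp
  have e2 : w₂ ++ [X₁, X₀, V] = (w₂ ++ [X₁]) ++ [X₀, V] := by simp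
  have e3 : w₂ ++ [X₁, X₀] = (w₂ ++ [X₁]) ++ [X₀] := by simp
  rw [e1] at h hf ⊢
  rw [e2]
  exact h.cut h1 h2 hf h7 (dirn_eq ω _) (a2.mono h6.le le_rfl)
    (e3 ▸ (a1.snoc hs e).mono le_rfl (by linarith only [h5]))

theorem sweep_cut (h : Piece D (c₁ ++ V :: c₂) (w₂ ++ X₁ :: X₀ :: w₁) lo hi) (h1 : c₁ ≠ [])
    (h2 : c₂ ≠ []) (hω : ω < lo) (hω' : hi < ω + π) (hV : 0 < cr (X₀ - X₁) (V - X₀))
    (hρ : ρ ≤ 1) (hX : X = X₀ + ρ * (X₁ - X₀))
    (hT : Lft [(X, X₀), (X₀, V), (V, X)] ⊆ IL (Ed (c₁ ++ V :: c₂) ++ Ed (w₂ ++ X₁ :: X₀ :: w₁)))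
    (ht : 0 < t) (ht' : t < ρ) {Y : ℂ} (hY : Y = X₀ + t * (X₁ - X₀)) :
    Piece D (c₁ ++ [V]) (V :: Y :: X₀ :: w₁) (dirn ω (Y - V)) hi ∧
      Piece D (V :: c₂) (w₂ ++ [X₁, Y, V]) lo (dirn ω (Y - V) + π) ∧
      Cut (Ed (c₁ ++ V :: c₂) ++ Ed (w₂ ++ X₁ :: X₀ :: w₁))
        (Ed (c₁ ++ [V]) ++ Ed (V :: Y :: X₀ :: w₁)) (Ed (V :: c₂) ++ Ed (w₂ ++ [X₁, Y, V]))
        (segment ℝ V Y) ∧
      Fv g κ lam (V :: c₂) (w₂ ++ [X₁, Y, V]) lo (dirn ω (Y - V) + π) =
        Fv g κ lam (c₁ ++ V :: c₂) (w₂ ++ X₁ :: X₀ :: w₁) lo hi -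
          phi g κ lam ω hi c₁ V X₁ X₀ w₁ t := by
  have hρ0 : 0 < ρ := ht.trans ht'
  have ht1 : 0 < 1 - t := by linarith only [hρ, ht']
  obtain ⟨p1, p2, p3⟩ := h.ins_wall (x := Y) (mem_openSegment_iff'.2 ⟨1 - t, ht1, by linarith only [ht], by
    rw [hY]
    push_cast
    ring⟩)
  have a1 : cr (Y - X₁) (V - Y) = (1 - t) * cr (X₀ - X₁) (V - X₀) := by
    simp [hY, cr]
    ring
  have a2 : cr (X₀ - X) (V - X₀) = ρ * cr (X₀ - X₁) (V - X₀) := by
    simp [hX, cr]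
    ring
  have a3 : Y ∈ openSegment ℝ X X₀ := mem_openSegment_iff'.2 ⟨1 - t / ρ,
    sub_pos.2 ((div_lt_one hρ0).2 ht'), by linarith only [ht, hρ0, div_pos ht hρ0], by
      have : (ρ : ℂ) ≠ 0 := Complex.ofReal_ne_zero.2 hρ0.ne'
      rw [hY, hX]
      push_cast
      field_simp
      ring⟩
  obtain ⟨q1, q2, q3⟩ := sweep_at p1 h1 h2 hω hω' (a1 ▸ mul_pos ht1 hV)
    ((((tri_seg (a2 ▸ mul_pos hρ0 hV)).1 Y a3).trans hT).trans p2.ge)
  refine ⟨q1, q2, q3.congr p2 p3, ?_⟩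
  have a4 := Fv_cut g κ lam lo hi (dirn ω (Y - V)) c₁ c₂ (X₀ :: w₁) (w₂ ++ [X₁]) V Y
  have a5 : Fv g κ lam (c₁ ++ V :: c₂) (w₂ ++ X₁ :: Y :: X₀ :: w₁) lo hi =
      Fv g κ lam (c₁ ++ V :: c₂) (w₂ ++ X₁ :: X₀ :: w₁) lo hi := by
    rw [Fv, Fv, p3]
  simp only [List.append_assoc, List.cons_append, List.nil_append] at a4
  rw [phi, ← hY, ← a5, ← a4, add_sub_cancel_left]

end Pool.Agent.Work.MP_267827_an.PS
end

-- merged part: Pool.Agent.Work.MP_267827_an.PS.GSweep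
section
/-! The sweep: tools (skeleton helper49).

A piece with chain `c₁ ++ V :: c₂` and wall `w₂ ++ X₁ :: X₀ :: w₁`; the pivot `V` is strictly left of
the wall edge `(X₁, X₀)`.  All directions of the wall lie in `(ω, ω + π)`.  `phi t` is the budget of
the part cut off by the segment from `V` to `X t = X₀ + t (X₁ - X₀)`.

With `Wall.split_edge`: `X₀ - X₁ = s ei τ`, `lo ≤ τ ≤ hi` (`Wall.le`), and
`cr (ei τ) (X t - V) < 0` for all `t`, so `dirn_mem`, `dirn_contAt`, `dirn_lt` apply.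
`phi_diff`: only the direction and three terms of the shoelace sum depend on `t`
(`sh_append`, `sh_cons`): `cr V (X t) + cr (X t) X₀ = cr V X₀ + t * cr (X₀ - X₁) (V - X₀)`.
`sweep_at`: cut at a wall vertex: `Piece.cut` with `ψ = dirn ω (X₀ - V)`, `dirn_eq`, the walls from
`Wall.mono` (`τ - π < ψ < τ`).
`sweep_cut`: `Piece.ins_wall`, then `sweep_at` for the wall `(w₂ ++ [X₁]) ++ X t :: X₀ :: w₁` read as
`w₂ ++ X₁ :: X t :: (X₀ :: w₁)`; the segment is free by `tri_seg`; `Cut.congr`, `Fv_cut`.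
`sweep_ivt`: intermediate value theorem for `phi` on `[0, ρ]`, the cut as in `sweep_cut`, `IH` for both
parts (`Ed_append`, `Ed_length`), `Res.join` for the piece with the new vertex, and back
(`IL` and `Fv` do not change).
`sweep_start`: choose `t < ρ` with `lam ‖X t - A‖ ^ 2 ≤ 1`; `phi t < phi 0 ≤ 0`, so the second part has a
positive budget (`Res.hs`); the first part is the triangle `A V (X t)`: `SP.tri_IL`, `thin_tri`.
`sweep_end`: choose `t < 1` with `lam ‖X t - B‖ ^ 2 ≤ 1`; `phi t > phi 1 ≥ 0`; the second part is the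
triangle `V B (X t)`.
`sweep_pocket`: `Piece.cut` with `w₂ = []`, `lo' = ψ + π`; the pocket has the budget
`g π - 2 κ m₂ - lam * sh₂`, which is positive by `hpos`, `m₂ < m`, `sh₂ < sh` (`Cut.area`,
`SP.sh_pos`). -/

set_option autoImplicit false

namespace Pool.Agent.Work.MP_267827_an.PS

open MeasureTheory Set Filter Topology Real

variable {n : ℕ} {g κ lam s₀ lo hi ω ρ t t' : ℝ} {D : Set ℂ} {c₁ c₂ w₁ w₂ : List ℂ}
  {V X₁ X₀ X : ℂ}

theorem GSweep_len1 (h2 : c₂ ≠ []) :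
    (Ed (c₁ ++ [V])).length < (Ed (c₁ ++ V :: c₂)).length := by
  have := List.length_pos_iff.2 h2
  simp only [Ed_length, List.length_append, List.length_cons, List.length_nil]
  omega

theorem GSweep_len2 (h1 : c₁ ≠ []) :
    (Ed (V :: c₂)).length < (Ed (c₁ ++ V :: c₂)).length := by
  have := List.length_pos_iff.2 h1
  simp only [Ed_length, List.length_append, List.length_cons]
  omega

theorem GSweep_small (lam : ℝ) (d : ℂ) (hρ : 0 < ρ) :
    ∃ t : ℝ, 0 < t ∧ t < ρ ∧ lam * ‖(t : ℂ) * d‖ ^ 2 ≤ 1 := by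
  have hc : Continuous fun t : ℝ => lam * ‖(t : ℂ) * d‖ ^ 2 := by fun_prop
  have h0 : ∀ᶠ t : ℝ in 𝓝 0, lam * ‖(t : ℂ) * d‖ ^ 2 < 1 :=
    hc.continuousAt.eventually_lt continuousAt_const (by simp)
  have h1 : ∀ᶠ t : ℝ in 𝓝[>] 0, t ∈ Ioo 0 ρ := Ioo_mem_nhdsGT hρ
  obtain ⟨t, ht, ht'⟩ := (h1.and (h0.filter_mono nhdsWithin_le_nhds)).exists
  exact ⟨t, ht.1, ht.2, ht'.le⟩

theorem GSweep_tri {p q r : ℂ} {a b : ℝ} (h : Piece D [p, q] [q, r, p] a b)
    (hl : lam * ‖r - p‖ ^ 2 ≤ 1 ∨ lam * ‖r - q‖ ^ 2 ≤ 1) :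
    Low D (IL (Ed [p, q] ++ Ed [q, r, p])) lam := by
  have hs : SP [(p, q), (q, r), (r, p)] := h.sp
  obtain ⟨hc, hI⟩ := hs.tri_IL
  have hD : segment ℝ p q ⊆ D := by
    intro z hz
    exact h.dir ⟨(p, q), by simp [Ed], hz⟩
  show Low D (IL [(p, q), (q, r), (r, p)]) lam
  rw [hI]
  exact thin_tri hc hD hl

theorem sweep_ivt (h : Piece D (c₁ ++ V :: c₂) (w₂ ++ X₁ :: X₀ :: w₁) lo hi) (h1 : c₁ ≠ [])
    (h2 : c₂ ≠ []) (hI : IH n g κ lam s₀ (Ed (c₁ ++ V :: c₂)).length)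
    (hF : 0 ≤ Fv g κ lam (c₁ ++ V :: c₂) (w₂ ++ X₁ :: X₀ :: w₁) lo hi) (hω : ω < lo)
    (hω' : hi < ω + π) (hV : 0 < cr (X₀ - X₁) (V - X₀)) (hρ0 : 0 < ρ) (hρ : ρ ≤ 1)
    (hX : X = X₀ + ρ * (X₁ - X₀))
    (hT : Lft [(X, X₀), (X₀, V), (V, X)] ⊆ IL (Ed (c₁ ++ V :: c₂) ++ Ed (w₂ ++ X₁ :: X₀ :: w₁)))
    (p0 : 0 < phi g κ lam ω hi c₁ V X₁ X₀ w₁ 0) (p1 : phi g κ lam ω hi c₁ V X₁ X₀ w₁ ρ < 0) :
    Res n g κ lam s₀ D (c₁ ++ V :: c₂) (w₂ ++ X₁ :: X₀ :: w₁) lo hi := by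
  have hc : Continuous (phi g κ lam ω hi c₁ V X₁ X₀ w₁) := phi_cont h.wall hω hω' hV
  obtain ⟨t, ⟨ht, ht'⟩, hp⟩ := intermediate_value_Ioo' hρ0.le hc.continuousOn ⟨p1, p0⟩
  obtain ⟨Y, hY⟩ : ∃ Y : ℂ, Y = X₀ + t * (X₁ - X₀) := ⟨_, rfl⟩
  obtain ⟨P1, P2, hC, hFv⟩ :=
    sweep_cut (g := g) (κ := κ) (lam := lam) h h1 h2 hω hω' hV hρ hX hT ht ht' hY
  have F1 : Fv g κ lam (c₁ ++ [V]) (V :: Y :: X₀ :: w₁) (dirn ω (Y - V)) hi = 0 := by
    rw [← hp, hY]; rfl
  have R1 := hI D _ _ _ _ P1 (GSweep_len1 h2) F1.ge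
  have R2 := hI D _ _ _ _ P2 (GSweep_len2 h1) (by rw [hFv, hp]; linarith only [hF])
  have hYs : Y ∈ openSegment ℝ X₁ X₀ := by
    refine mem_openSegment_iff'.2 ⟨1 - t, by linarith, by linarith, ?_⟩
    rw [hY]; push_cast; ring
  obtain ⟨-, hIL, hsh⟩ := h.ins_wall hYs
  have e1 : w₂ ++ X₁ :: Y :: X₀ :: w₁ = (w₂ ++ [X₁]) ++ Y :: X₀ :: w₁ := by simp
  have e2 : w₂ ++ [X₁, Y, V] = (w₂ ++ [X₁]) ++ [Y, V] := by simp
  have hC' := hC.congr hIL.symm hsh.symm
  rw [e1, e2] at hC'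
  rw [e2] at R2
  have R := Res.join hC' R1 R2
  rw [← e1] at R
  unfold Res Fv at R ⊢
  rw [hIL, hsh] at R
  exact R

/-- the cut at a wall vertex where the budget vanishes -/
theorem sweep_zero (h : Piece D (c₁ ++ V :: c₂) (w₂ ++ X₁ :: X₀ :: w₁) lo hi) (h1 : c₁ ≠ [])
    (h2 : c₂ ≠ []) (hI : IH n g κ lam s₀ (Ed (c₁ ++ V :: c₂)).length)
    (hF : 0 ≤ Fv g κ lam (c₁ ++ V :: c₂) (w₂ ++ X₁ :: X₀ :: w₁) lo hi) (hω : ω < lo)
    (hω' : hi < ω + π) (hV : 0 < cr (X₀ - X₁) (V - X₀))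
    (hf : Free (Ed (c₁ ++ V :: c₂) ++ Ed (w₂ ++ X₁ :: X₀ :: w₁)) V X₀)
    (p0 : phi g κ lam ω hi c₁ V X₁ X₀ w₁ 0 = 0) :
    Res n g κ lam s₀ D (c₁ ++ V :: c₂) (w₂ ++ X₁ :: X₀ :: w₁) lo hi := by
  obtain ⟨P1, P2, hC⟩ := sweep_at h h1 h2 hω hω' hV hf
  rw [phi_zero] at p0
  have e1 : w₂ ++ X₁ :: X₀ :: w₁ = (w₂ ++ [X₁]) ++ X₀ :: w₁ := by simp
  have e2 : w₂ ++ [X₁, X₀, V] = (w₂ ++ [X₁]) ++ [X₀, V] := by simp
  have hFc := Fv_cut g κ lam lo hi (dirn ω (X₀ - V)) c₁ c₂ w₁ (w₂ ++ [X₁]) V X₀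
  rw [← e1, ← e2] at hFc
  have R1 := hI D _ _ _ _ P1 (GSweep_len1 h2) p0.ge
  have R2 := hI D _ _ _ _ P2 (GSweep_len2 h1) (by linarith only [hF, p0, hFc])
  rw [e1, e2] at hC
  rw [e2] at R2
  rw [e1]
  exact Res.join hC R1 R2

theorem sweep_start (hC : Cst n g κ lam s₀) {A : ℂ}
    (h : Piece D ([A] ++ V :: c₂) (w₂ ++ [X₁, A]) lo hi) (h2 : c₂ ≠ [])
    (hI : IH n g κ lam s₀ (Ed ([A] ++ V :: c₂)).length)
    (hF : 0 ≤ Fv g κ lam ([A] ++ V :: c₂) (w₂ ++ [X₁, A]) lo hi) (hω : ω < lo)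
    (hω' : hi < ω + π) (hV : 0 < cr (A - X₁) (V - A)) (hρ0 : 0 < ρ) (hρ : ρ ≤ 1)
    (hX : X = A + ρ * (X₁ - A))
    (hT : Lft [(X, A), (A, V), (V, X)] ⊆ IL (Ed ([A] ++ V :: c₂) ++ Ed (w₂ ++ [X₁, A])))
    (p0 : phi g κ lam ω hi [A] V X₁ A [] 0 ≤ 0) :
    HS D (IL (Ed ([A] ++ V :: c₂) ++ Ed (w₂ ++ [X₁, A]))) lam := by
  obtain ⟨t, ht, ht', hl⟩ := GSweep_small lam (X₁ - A) hρ0
  obtain ⟨Y, hY⟩ : ∃ Y : ℂ, Y = A + t * (X₁ - A) := ⟨_, rfl⟩
  have h1 : [A] ≠ [] := by simp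
  obtain ⟨P1, P2, hK, hFv⟩ :=
    sweep_cut (g := g) (κ := κ) (lam := lam) (w₁ := []) h h1 h2 hω hω' hV hρ hX hT ht ht' hY
  have hp := phi_anti (κ := κ) (c₁ := [A]) (w₁ := []) hC.hg hC.hl h.wall hω hω' hV ht
  have F2 : 0 < Fv g κ lam (V :: c₂) (w₂ ++ [X₁, Y, V]) lo (dirn ω (Y - V) + π) := by
    rw [hFv]; linarith only [hF, p0, hp]
  have R2 := (hI D _ _ _ _ P2 (GSweep_len2 h1) F2.le).hs F2
  have L1 := GSweep_tri (lam := lam) (p := A) (q := V) (r := Y) P1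
    (Or.inl (by rw [hY, add_sub_cancel_left]; exact hl))
  exact hK.symm.hs R2 L1

theorem sweep_end (hC : Cst n g κ lam s₀) {B : ℂ}
    (h : Piece D (c₁ ++ [V, B]) (B :: X₀ :: w₁) lo hi) (h1 : c₁ ≠ [])
    (hI : IH n g κ lam s₀ (Ed (c₁ ++ [V, B])).length) (hω : ω < lo)
    (hω' : hi < ω + π) (hV : 0 < cr (X₀ - B) (V - X₀))
    (hT : Lft [(B, X₀), (X₀, V), (V, B)] ⊆ IL (Ed (c₁ ++ [V, B]) ++ Ed (B :: X₀ :: w₁)))
    (p1 : 0 ≤ phi g κ lam ω hi c₁ V B X₀ w₁ 1) :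
    HS D (IL (Ed (c₁ ++ [V, B]) ++ Ed (B :: X₀ :: w₁))) lam := by
  obtain ⟨s, hs, hs', hl⟩ := GSweep_small (ρ := 1) lam (X₀ - B) one_pos
  obtain ⟨Y, hY⟩ : ∃ Y : ℂ, Y = X₀ + ((1 - s : ℝ) : ℂ) * (B - X₀) := ⟨_, rfl⟩
  have h2 : [B] ≠ [] := by simp
  have ht : 0 < 1 - s := by linarith
  have ht' : 1 - s < 1 := by linarith
  have hX : B = X₀ + ((1 : ℝ) : ℂ) * (B - X₀) := by push_cast; ring
  obtain ⟨P1, P2, hK, -⟩ :=
    sweep_cut (g := g) (κ := κ) (lam := lam) (w₂ := []) (c₂ := [B]) h h1 h2 hω hω' hV le_rfl hX hT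
      ht ht' hY
  have hp := phi_anti (κ := κ) (c₁ := c₁) (w₂ := []) hC.hg hC.hl h.wall hω hω' hV ht'
  have F1 : 0 < Fv g κ lam (c₁ ++ [V]) (V :: Y :: X₀ :: w₁) (dirn ω (Y - V)) hi := by
    have : Fv g κ lam (c₁ ++ [V]) (V :: Y :: X₀ :: w₁) (dirn ω (Y - V)) hi =
        phi g κ lam ω hi c₁ V B X₀ w₁ (1 - s) := by rw [hY]; rfl
    linarith
  have R1 := (hI D _ _ _ _ P1 (GSweep_len1 h2) F1.le).hs F1
  have e : Y - B = (s : ℂ) * (X₀ - B) := by rw [hY]; push_cast; ring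
  have L2 := GSweep_tri (lam := lam) (p := V) (q := B) (r := Y) P2
    (Or.inr (by rw [e]; exact hl))
  exact hK.hs R1 L2

/-- a pocket is cut off at the end `B` of the chain -/
theorem sweep_pocket (hC : Cst n g κ lam s₀) {B : ℂ} {ψ s hi' : ℝ} {m : ℕ}
    (h : Piece D (c₁ ++ V :: c₂) (B :: w₁) lo hi) (h1 : c₁ ≠ []) (h2 : c₂ ≠ [])
    (hI : IH n g κ lam s₀ m) (hm : (Ed (c₁ ++ V :: c₂)).length ≤ m)
    (hpos : 2 * κ * (Ed (c₁ ++ V :: c₂)).length + lam * sh (Ed (c₁ ++ V :: c₂) ++ Ed (B :: w₁)) ≤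
      g * π)
    (hf : Free (Ed (c₁ ++ V :: c₂) ++ Ed (B :: w₁)) V B) (hs : 0 < s) (hψ : B - V = s * ei ψ)
    (hw : Wall ψ hi' (B :: w₁)) (hF : 0 ≤ Fv g κ lam (c₁ ++ [V]) (V :: B :: w₁) ψ hi') :
    HS D (IL (Ed (c₁ ++ V :: c₂) ++ Ed (B :: w₁))) lam := by
  obtain ⟨P1, P2, hK⟩ := Piece.cut (w₂ := []) (lo' := ψ + π) h h1 h2 hf hs hψ hw
    (Wall.one B le_rfl)
  have l1 := GSweep_len1 (c₁ := c₁) (V := V) h2
  have l2 := GSweep_len2 (c₂ := c₂) (V := V) h1
  have L1 := (hI D _ _ _ _ P1 (lt_of_lt_of_le l1 hm) hF).low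
  have F2 : 0 < Fv g κ lam (V :: c₂) ([] ++ [B, V]) (ψ + π) (ψ + π) := by
    have ha : sh (Ed (c₁ ++ V :: c₂) ++ Ed (B :: w₁)) =
        sh (Ed (c₁ ++ [V]) ++ Ed (V :: B :: w₁)) + sh (Ed (V :: c₂) ++ Ed ([] ++ [B, V])) := hK.area
    have hp := P1.sp.sh_pos
    have l2' : ((Ed (V :: c₂)).length : ℝ) < (Ed (c₁ ++ V :: c₂)).length := by exact_mod_cast l2
    have hκ := hC.hκ
    have hl := hC.hl
    unfold Fv
    rw [ha] at hpos
    linarith only [hpos, hl, hp, l2', hκ, mul_pos hl hp, mul_lt_mul_of_pos_left l2' hκ]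
  have R2 := (hI D _ _ _ _ P2 (lt_of_lt_of_le l2 hm) F2.le).hs F2
  exact hK.symm.hs R2 L1

end Pool.Agent.Work.MP_267827_an.PS
end

-- merged part: Pool.Agent.Work.MP_267827_an.PS.GStepA
section
/-! The sweep: obstructions and the induction (skeleton helper49).

`Q = Ed (c₁ ++ V :: c₂) ++ Ed (w₂ ++ X₁ :: X₀ :: w₁)` is the piece and
`Q₂ = Ed (V :: c₂) ++ Ed (w₂ ++ [X₁, X₀, V])` the part that is not yet swept.

`step_chain`: the sources of `Q₂` are `(V :: c₂).dropLast` and `w₂ ++ [X₁, X₀]`.  `U ≠ V`, and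
`U ≠ X₀, X₁` since `U` is strictly left of the edge `(X₁, X₀)`.  Suppose `U ∈ w₂`, with the outgoing
wall edge `(U, U')`.  `X` is a convex combination of wall vertices, so `cr (U' - U) (X - U) ≥ 0`
(`Wall.conv`) and `cr (U' - U) (V - U) ≤ 0` because `U` is between `V` and `X`.  The incoming edge
`(o, U)` of `Q` (`Loop.prev`) is a wall edge (turn `≥ 0` by `Wall.conv`) or a chain edge (turn `> 0`
by `hB`).  If `V U` is free, `SP.corner_out` in `Q` (with `Free.symm`, `Free.mono`) gives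
`cr (U' - U) (V - U) > 0`.  If `(V, U) ∈ Q₂` it is the chain edge leaving `V` (`V` is no source of
`Ed (w₂ ++ [X₁, X₀, V])` by `Piece.not_mem_wall`), and `hB` gives `0 < cr (U - V) (U' - U)`.
`step_three`: `sweep_at` for the pivot `U` (chain `(c₁ ++ V :: c') ++ U :: c''`) gives `Q₁'` and `Q₂'`;
`Q₂'` has budget `Fv - phi ≥ 0` (`Fv_cut`, `phi_zero`), hence `Low`.  Let `ψ = dirn ω (U - V) =
dirn ω (X - V)` (`dirn_smul`), `ψ < dirn ω (X₀ - U)` (`dirn_lt`), so `U :: X₀ :: w₁` and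
`V :: U :: X₀ :: w₁` are walls in `[ψ, hi]`.  The budget of `(c₁ ++ [V], V :: U :: X₀ :: w₁)` is
`phi ρ + lam * cr (X - U) (X₀ - U) / 2 > 0`.  If `c' = []`, `Piece.drop_last` and `IH` show that `Q₁'`
is `HS`.  Otherwise `V U` is free in `Q₁'` (`Cut.free`; `V ∉ GC Q₂'` by `not_mem_GC_sub` and because
the open segment `X₀ U` is in `IL Q`; the open segment `V U` misses the segment `U X₀`), and
`sweep_pocket` applies to `Q₁'`.
`sweep`: strong induction on `c₂.length + w₂.length`.  Apply `ear` to `Q₂` at the corner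
`(X₁, X₀)`, `(X₀, V)`.  If `phi ρ < 0`: `sweep_ivt`.  Otherwise:
(b) `U` on the open segment: `step_chain`; if `(V, U) ∈ Q₂` then `c' = []` (`Simp.out_eq`).  If the
budget at `(U, X₀)` is positive go on with the state `(U, X₀)` (`sweep_at` gives the new `Q₂`),
otherwise `step_three`.
(a) `ρ = 1`, `U = X₁`.  If `w₂ = w₃ ++ [X₂]`: `(V, X₁)` is no edge (`X₁` would be in `c.tail` and in
`w.tail`), so `V X₁` is free, `SP.corner_out` in `Q` at `X₁` gives `0 < cr (X₁ - X₂) (V - X₁)`; the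
budget `phi 1` is `phi 0` of the state `(X₂, X₁, X₀ :: w₁)` (`phi_one`, `phi_zero`): `sweep_zero` or
the induction hypothesis.  If `w₂ = []`: `X₁ = B`; free: `sweep_pocket` with `ψ = dirn ω (B - V)`;
edge: `c₂ = [B]` and `sweep_end`.
`sweep_all`: `c = A :: V :: c₂`, `w = w₂ ++ [X₁, A]`, `ω = (lo + hi) / 2 - π / 2`; if `phi 0 ≤ 0` use `ear`
in `Q` and `sweep_start`; otherwise `sweep` with `Q₂ ~ Q`. -/

set_option autoImplicit false

namespace Pool.Agent.Work.MP_267827_an.PS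

open MeasureTheory Set Filter Topology Real

variable {n : ℕ} {g κ lam s₀ lo hi ω ρ : ℝ} {D : Set ℂ} {c w c₁ c₂ c' c'' w₁ w₂ : List ℂ}
  {V U X₁ X₀ X : ℂ}

theorem GStepA_cr {t : ℝ} (hX : X = X₀ + ρ * (X₁ - X₀)) (hU : U = V + t * (X - V)) :
    cr (X₀ - X₁) (U - X₀) = (1 - t) * cr (X₀ - X₁) (V - X₀) ∧
      cr (X₀ - X₁) (U - V) = -(t * cr (X₀ - X₁) (V - X₀)) ∧
      cr (U - V) (X₀ - U) = t * ρ * cr (X₀ - X₁) (V - X₀) ∧
      cr V X + cr X X₀ = cr V U + cr U X₀ + (1 - t) * ρ * cr (X₀ - X₁) (V - X₀) := by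
  subst hU hX
  refine ⟨?_, ?_, ?_, ?_⟩ <;> simp [cr] <;> ring

theorem GStepA_mem {p q : ℂ} {l : List ℂ} (h : (p, q) ∈ Ed l) : p ∈ l ∧ q ∈ l := by
  obtain ⟨l₁, l₂, rfl⟩ := mem_Ed.1 h
  simp

theorem step_chain (h : Piece D (c₁ ++ V :: c₂) (w₂ ++ X₁ :: X₀ :: w₁) lo hi) (h1 : c₁ ≠ [])
    (h2 : c₂ ≠ []) (hπ : hi - lo < π) (hB : Cvx (c₁ ++ V :: c₂) (w₂ ++ X₁ :: X₀ :: w₁))
    (hV : 0 < cr (X₀ - X₁) (V - X₀)) (hρ0 : 0 < ρ) (hρ : ρ ≤ 1) (hX : X = X₀ + ρ * (X₁ - X₀))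
    (hU : U ∈ openSegment ℝ V X)
    (hU' : U ∈ (Ed (V :: c₂) ++ Ed (w₂ ++ [X₁, X₀, V])).map Prod.fst)
    (hf : Free (Ed (c₁ ++ V :: c₂) ++ Ed (w₂ ++ X₁ :: X₀ :: w₁)) V U ∨
      (V, U) ∈ Ed (V :: c₂) ++ Ed (w₂ ++ [X₁, X₀, V])) :
    ∃ c' c'', c₂ = c' ++ U :: c'' ∧ c'' ≠ [] := by
  obtain ⟨t, t0, t1, hUt⟩ := mem_openSegment_iff'.1 hU
  obtain ⟨a1, a2, -, -⟩ := GStepA_cr hX hUt
  have p1 : 0 < cr (X₀ - X₁) (U - X₀) := a1 ▸ mul_pos (sub_pos.2 t1) hV
  have n0 : U ≠ V := fun e => by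
    rw [e, sub_self, cr_zero_right] at a2
    linarith [mul_pos t0 hV]
  obtain ⟨⟨U₀, U'⟩, he, rfl⟩ := List.mem_map.1 hU'
  simp only at *
  rcases List.mem_append.1 he with he | he
  · obtain ⟨l₁, l₂, e⟩ := mem_Ed.1 he
    rcases l₁ with _ | ⟨a, l₁⟩
    · exact absurd (List.cons.inj e).1.symm n0
    · exact ⟨l₁, U' :: l₂, (List.cons.inj e).2, List.cons_ne_nil _ _⟩
  exfalso
  have hw : (U₀, U') ∈ Ed (w₂ ++ X₁ :: X₀ :: w₁) := by
    rw [Ed_append₂] at he ⊢
    rcases List.mem_append.1 he with he | he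
    · exact List.mem_append_left _ he
    · simp only [Ed, List.mem_cons, Prod.mk.injEq, List.not_mem_nil, or_false] at he
      rcases he with ⟨rfl, -⟩ | ⟨rfl, -⟩
      · rw [← neg_sub X₀ U₀, cr_neg_right, cr_self] at p1
        exact absurd p1 (by simp)
      · rw [sub_self, cr_zero_right] at p1
        exact absurd p1 (lt_irrefl _)
  have k0 := h.wall.conv hπ.le hw (x := X₀) (by simp)
  have k1 := h.wall.conv hπ.le hw (x := X₁) (by simp)
  have k2 : cr (U' - U₀) (V - U₀) ≤ 0 := by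
    have e1 : (1 - t) * cr (U' - U₀) (V - U₀) =
        -(t * ((1 - ρ) * cr (U' - U₀) (X₀ - U₀) + ρ * cr (U' - U₀) (X₁ - U₀))) := by
      generalize U' - U₀ = z
      rw [hUt, hX]
      simp [cr]
      ring
    have e2 := mul_nonneg t0.le (add_nonneg (mul_nonneg (sub_nonneg.2 hρ) k0) (mul_nonneg hρ0.le k1))
    by_contra! k
    linarith only [e1, e2, t1, k, mul_pos (sub_pos.2 t1) k]
  have hQ : (U₀, U') ∈ Ed (c₁ ++ V :: c₂) ++ Ed (w₂ ++ X₁ :: X₀ :: w₁) := List.mem_append_right _ hw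
  rcases hf with hf | hf
  · obtain ⟨o, ho⟩ := h.sp.loop.prev hQ
    refine (h.sp.corner_out ho hQ ?_ hf.symm).2.not_ge k2
    rcases List.mem_append.1 ho with ho | ho
    · exact (hB _ _ _ ho hw).le
    · have k3 := h.wall.conv hπ.le ho (GStepA_mem hw).2
      rwa [show U' - o = (U' - U₀) + (U₀ - o) by ring, cr_add_right, cr_self, add_zero] at k3
  rcases List.mem_append.1 hf with hf | hf
  · have k3 := hB V U₀ U' (by rw [Ed_append]; exact List.mem_append_right _ hf) hw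
    rw [cr_swap, ← cr_neg_right, neg_sub] at k3
    exact k3.not_ge k2
  · refine (h.not_mem_wall h1 h2).1 ?_
    have k3 : V ∈ (w₂ ++ [X₁, X₀, V]).dropLast := Ed_fst _ ▸ List.mem_map.2 ⟨_, hf, rfl⟩
    rw [show w₂ ++ [X₁, X₀, V] = (w₂ ++ [X₁, X₀]) ++ [V] by simp, List.dropLast_concat] at k3
    simp only [List.mem_append, List.mem_cons, List.not_mem_nil, or_false] at k3 ⊢
    tauto

theorem step_three (hC : Cst n g κ lam s₀)
    (h : Piece D (c₁ ++ V :: (c' ++ U :: c'')) (w₂ ++ X₁ :: X₀ :: w₁) lo hi) (h1 : c₁ ≠ [])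
    (h2 : c'' ≠ []) (hI : IH n g κ lam s₀ (Ed (c₁ ++ V :: (c' ++ U :: c''))).length)
    (hF : 0 ≤ Fv g κ lam (c₁ ++ V :: (c' ++ U :: c'')) (w₂ ++ X₁ :: X₀ :: w₁) lo hi)
    (hω : ω < lo) (hω' : hi < ω + π) (hV : 0 < cr (X₀ - X₁) (V - X₀)) (hρ0 : 0 < ρ) (hρ : ρ ≤ 1)
    (hX : X = X₀ + ρ * (X₁ - X₀)) (hU : U ∈ openSegment ℝ V X)
    (hf0 : Free (Ed (c₁ ++ V :: (c' ++ U :: c'')) ++ Ed (w₂ ++ X₁ :: X₀ :: w₁)) U X₀)
    (hf : Free (Ed (c₁ ++ V :: (c' ++ U :: c'')) ++ Ed (w₂ ++ X₁ :: X₀ :: w₁)) V U ∨ c' = [])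
    (p1 : 0 ≤ phi g κ lam ω hi c₁ V X₁ X₀ w₁ ρ)
    (p2 : phi g κ lam ω hi (c₁ ++ V :: c') U X₁ X₀ w₁ 0 ≤ 0) :
    HS D (IL (Ed (c₁ ++ V :: (c' ++ U :: c'')) ++ Ed (w₂ ++ X₁ :: X₀ :: w₁))) lam := by
  obtain ⟨t, t0, t1, hUt⟩ := mem_openSegment_iff'.1 hU
  obtain ⟨a1, a2, a3, a4⟩ := GStepA_cr hX hUt
  have p3 : 0 < cr (X₀ - X₁) (U - X₀) := a1 ▸ mul_pos (sub_pos.2 t1) hV
  have p4 : 0 < cr (U - V) (X₀ - U) := a3 ▸ mul_pos (mul_pos t0 hρ0) hV
  have p5 : 0 < cr (X₀ - U) (V - U) := by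
    rwa [cr_swap, ← cr_neg_right, neg_sub] at p4
  have nV := h.not_mem_wall h1 (by simp)
  have e0 : c₁ ++ V :: (c' ++ U :: c'') = (c₁ ++ V :: c') ++ U :: c'' := by simp
  have l0 : (Ed (c₁ ++ V :: (c' ++ U :: c''))).length =
      c₁.length + c'.length + c''.length + 1 := by
    rw [Ed_length]
    simp only [List.length_append, List.length_cons]
    omega
  have l1 := List.length_pos_iff.2 h1
  have l2 := List.length_pos_iff.2 h2
  obtain ⟨P1, P2, hc⟩ := sweep_at (e0 ▸ h) (by simp) h2 hω hω' p3 (e0 ▸ hf0)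
  rw [← e0] at hc
  have F2 : 0 ≤ Fv g κ lam (U :: c'') (w₂ ++ [X₁, X₀, U]) lo (dirn ω (X₀ - U) + π) := by
    have := Fv_cut g κ lam lo hi (dirn ω (X₀ - U)) (c₁ ++ V :: c') c'' w₁ (w₂ ++ [X₁]) U X₀
    rw [← phi_zero (X₁ := X₁), ← e0] at this
    simp only [List.append_assoc, List.cons_append, List.nil_append] at this
    linarith only [hF, p2, this]
  refine hc.hs ?_ (hI _ _ _ _ _ P2 (by rw [l0, Ed_length, List.length_cons]; omega) F2).low
  obtain ⟨τ, s₁, s1, eτ, W1, W2⟩ := h.wall.split_edge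
  have τ1 : ω < τ := hω.trans_le W1.le
  have τ2 : τ < ω + π := W2.le.trans_lt hω'
  have hlt : dirn ω (U - V) < dirn ω (X₀ - U) := by
    refine dirn_lt τ1 τ2 ?_ ?_ p4
    · have := mul_pos t0 hV
      rw [← neg_eq_iff_eq_neg] at a2
      rw [← a2, eτ, cr_mul_left] at this
      by_contra! k
      linarith only [this, s1, k, mul_nonneg s1.le k]
    · rw [eτ, cr_mul_left, ← neg_sub X₀ U, cr_neg_right] at p3
      by_contra! k
      linarith only [p3, s1, k, mul_nonneg s1.le k]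
  have hs : 0 < ‖U - V‖ := norm_pos_iff.2 fun e => by
    rw [e, cr_zero_left] at p4
    exact lt_irrefl _ p4
  have hw : Wall (dirn ω (U - V)) hi (U :: X₀ :: w₁) := P1.wall.mono hlt.le le_rfl
  have F1 : 0 < Fv g κ lam (c₁ ++ [V]) (V :: U :: X₀ :: w₁) (dirn ω (U - V)) hi := by
    have e1 : dirn ω (U - V) = dirn ω (X - V) := by
      rw [hUt, add_sub_cancel_left, dirn_smul _ _ t0]
    rw [phi, ← hX, ← e1] at p1
    simp only [Fv, Ed, sh_append, sh_cons] at p1 ⊢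
    have := mul_pos hC.hl (mul_pos (mul_pos (sub_pos.2 t1) hρ0) hV)
    have e2 : lam * (cr V X + cr X X₀) = lam * (cr V U + cr U X₀ +
        (1 - t) * ρ * cr (X₀ - X₁) (V - X₀)) := by rw [a4]
    linarith only [p1, this, e2]
  rcases hf with hf | rfl
  · have e1 : (c₁ ++ V :: c') ++ [U] = c₁ ++ V :: (c' ++ [U]) := by simp
    rw [e1] at P1 hc ⊢
    have l3 : (Ed (c₁ ++ V :: (c' ++ [U]))).length ≤
        (Ed (c₁ ++ V :: (c' ++ U :: c''))).length := by
      rw [l0, Ed_length]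
      simp only [List.length_append, List.length_cons, List.length_nil]
      omega
    have mV : V ∈ (Ed (c₁ ++ V :: (c' ++ U :: c'')) ++ Ed (w₂ ++ X₁ :: X₀ :: w₁)).map Prod.fst := by
      rw [List.map_append, Ed_fst, List.dropLast_append_of_ne_nil (by simp),
        List.dropLast_cons_of_ne_nil (by simp)]
      simp
    refine sweep_pocket hC P1 h1 (by simp) hI l3 ?_ (hc.free hf (disjoint_left.2 ?_) ?_ ?_) hs
      (dirn_eq ω (U - V)) hw F1.le
    · have k1 := hc.area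
      have k2 := mul_pos hC.hl hc.sp2.sh_pos
      have k3 : ((Ed (c₁ ++ V :: (c' ++ [U]))).length : ℝ) ≤
          (Ed (c₁ ++ V :: (c' ++ U :: c''))).length := by exact_mod_cast l3
      have k4 := mul_le_mul_of_nonneg_left k3 hC.hκ.le
      have k5 := mul_nonneg hC.hg.le (sub_nonneg.2 h.wall.le)
      rw [Fv, k1] at hF
      linarith only [hF, k2, k4, k5]
    · intro z hz hz'
      obtain ⟨a, a0, a1', ha⟩ := mem_openSegment_iff'.1 hz
      obtain ⟨b, -, -, hb⟩ := mem_segment_iff'.1 hz'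
      have k1 : cr (X₀ - U) (z - U) = (1 - a) * cr (X₀ - U) (V - U) := by
        rw [ha]
        simp [cr]
        ring
      have k2 : cr (X₀ - U) (z - U) = 0 := by
        rw [hb, add_sub_cancel_left, cr_mul_right, cr_self, mul_zero]
      linarith only [k1, k2, a1', p5, mul_pos (sub_pos.2 a1') p5]
    · obtain ⟨e, he, rfl⟩ := List.mem_map.1 mV
      exact fst_mem_GC he
    · rw [show w₂ ++ [X₁, X₀, U] = (w₂ ++ [X₁]) ++ X₀ :: [U] by simp, Ed_append,
        ← List.append_assoc, GC_append]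
      have sub : ∀ x, x ∈ U :: c'' ∨ x ∈ w₂ ++ [X₁] ++ [X₀] → x ≠ V := by
        rintro x hx rfl
        rcases hx with hx | hx
        · exact nV.2.2 (List.mem_append_right _ hx)
        · refine nV.1 ?_
          simp only [List.mem_append, List.mem_cons, List.not_mem_nil, or_false] at hx ⊢
          tauto
      rintro (k | k)
      · refine not_mem_GC_sub h.sp (fun e he => ?_) mV (fun m => ?_) (fun m => ?_) k
        · rcases List.mem_append.1 he with he | he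
          · refine List.mem_append_left _ ?_
            rw [e0, Ed_append]
            exact List.mem_append_right _ he
          · refine List.mem_append_right _ ?_
            rw [show w₂ ++ X₁ :: X₀ :: w₁ = (w₂ ++ [X₁]) ++ X₀ :: w₁ by simp, Ed_append]
            exact List.mem_append_left _ he
        · obtain ⟨⟨p, q⟩, he, e⟩ := List.mem_map.1 m
          exact sub p ((List.mem_append.1 he).imp (fun k => (GStepA_mem k).1)
            fun k => (GStepA_mem k).1) e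
        · obtain ⟨⟨p, q⟩, he, e⟩ := List.mem_map.1 m
          exact sub q ((List.mem_append.1 he).imp (fun k => (GStepA_mem k).2)
            fun k => (GStepA_mem k).2) e
      · obtain ⟨e, he, k⟩ := k
        obtain rfl : e = (X₀, U) := by simpa [Ed] using he
        obtain ⟨b, -, -, hb⟩ := mem_segment_iff'.1 k
        have k2 : cr (X₀ - U) (V - U) = 0 := by
          rw [hb]
          simp [cr]
          ring
        linarith only [p5, k2]
  · have e1 : (c₁ ++ [V]) ++ [U] = c₁ ++ [V, U] := by simp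
    rw [e1] at P1 ⊢
    obtain ⟨P3, e2⟩ := P1.drop_last h1 (Wall.cons le_rfl hs (dirn_eq ω (U - V)) hw)
    rw [← e2]
    refine (hI _ _ _ _ _ P3 ?_ F1.le).hs F1
    rw [l0, Ed_length]
    simp only [List.length_append, List.length_cons, List.length_nil]
    omega

end Pool.Agent.Work.MP_267827_an.PS
end

-- merged part: Pool.Agent.Work.MP_267827_an.PS.GStep
section
/-! The sweep: obstructions and the induction (skeleton helper49).

`Q = Ed (c₁ ++ V :: c₂) ++ Ed (w₂ ++ X₁ :: X₀ :: w₁)` is the piece and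
`Q₂ = Ed (V :: c₂) ++ Ed (w₂ ++ [X₁, X₀, V])` the part that is not yet swept.

`step_chain`: the sources of `Q₂` are `(V :: c₂).dropLast` and `w₂ ++ [X₁, X₀]`.  `U ≠ V`, and
`U ≠ X₀, X₁` since `U` is strictly left of the edge `(X₁, X₀)`.  Suppose `U ∈ w₂`, with the outgoing
wall edge `(U, U')`.  `X` is a convex combination of wall vertices, so `cr (U' - U) (X - U) ≥ 0`
(`Wall.conv`) and `cr (U' - U) (V - U) ≤ 0` because `U` is between `V` and `X`.  The incoming edge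
`(o, U)` of `Q` (`Loop.prev`) is a wall edge (turn `≥ 0` by `Wall.conv`) or a chain edge (turn `> 0`
by `hB`).  If `V U` is free, `SP.corner_out` in `Q` (with `Free.symm`, `Free.mono`) gives
`cr (U' - U) (V - U) > 0`.  If `(V, U) ∈ Q₂` it is the chain edge leaving `V` (`V` is no source of
`Ed (w₂ ++ [X₁, X₀, V])` by `Piece.not_mem_wall`), and `hB` gives `0 < cr (U - V) (U' - U)`.
`step_three`: `sweep_at` for the pivot `U` (chain `(c₁ ++ V :: c') ++ U :: c''`) gives `Q₁'` and `Q₂'`;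
`Q₂'` has budget `Fv - phi ≥ 0` (`Fv_cut`, `phi_zero`), hence `Low`.  Let `ψ = dirn ω (U - V) =
dirn ω (X - V)` (`dirn_smul`), `ψ < dirn ω (X₀ - U)` (`dirn_lt`), so `U :: X₀ :: w₁` and
`V :: U :: X₀ :: w₁` are walls in `[ψ, hi]`.  The budget of `(c₁ ++ [V], V :: U :: X₀ :: w₁)` is
`phi ρ + lam * cr (X - U) (X₀ - U) / 2 > 0`.  If `c' = []`, `Piece.drop_last` and `IH` show that `Q₁'`
is `HS`.  Otherwise `V U` is free in `Q₁'` (`Cut.free`; `V ∉ GC Q₂'` by `not_mem_GC_sub` and because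
the open segment `X₀ U` is in `IL Q`; the open segment `V U` misses the segment `U X₀`), and
`sweep_pocket` applies to `Q₁'`.
`sweep`: strong induction on `c₂.length + w₂.length`.  Apply `ear` to `Q₂` at the corner
`(X₁, X₀)`, `(X₀, V)`.  If `phi ρ < 0`: `sweep_ivt`.  Otherwise:
(b) `U` on the open segment: `step_chain`; if `(V, U) ∈ Q₂` then `c' = []` (`Simp.out_eq`).  If the
budget at `(U, X₀)` is positive go on with the state `(U, X₀)` (`sweep_at` gives the new `Q₂`),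
otherwise `step_three`.
(a) `ρ = 1`, `U = X₁`.  If `w₂ = w₃ ++ [X₂]`: `(V, X₁)` is no edge (`X₁` would be in `c.tail` and in
`w.tail`), so `V X₁` is free, `SP.corner_out` in `Q` at `X₁` gives `0 < cr (X₁ - X₂) (V - X₁)`; the
budget `phi 1` is `phi 0` of the state `(X₂, X₁, X₀ :: w₁)` (`phi_one`, `phi_zero`): `sweep_zero` or
the induction hypothesis.  If `w₂ = []`: `X₁ = B`; free: `sweep_pocket` with `ψ = dirn ω (B - V)`;
edge: `c₂ = [B]` and `sweep_end`.
`sweep_all`: `c = A :: V :: c₂`, `w = w₂ ++ [X₁, A]`, `ω = (lo + hi) / 2 - π / 2`; if `phi 0 ≤ 0` use `ear`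
in `Q` and `sweep_start`; otherwise `sweep` with `Q₂ ~ Q`. -/

set_option autoImplicit false

namespace Pool.Agent.Work.MP_267827_an.PS

open MeasureTheory Set Filter Topology Real

variable {n : ℕ} {g κ lam s₀ lo hi ω ρ : ℝ} {D : Set ℂ} {c w c₁ c₂ c' c'' w₁ w₂ : List ℂ}
  {V U X₁ X₀ X : ℂ}

theorem GStep_out {es : List (ℂ × ℂ)} (hs : Simp es) {V U : ℂ} {c₂ : List ℂ} {r : List (ℂ × ℂ)}
    (he : es = Ed (V :: c₂) ++ r) (h2 : c₂ ≠ []) (hU : (V, U) ∈ es) : ∃ l, c₂ = U :: l := by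
  obtain ⟨x, l, rfl⟩ := List.exists_cons_of_ne_nil h2
  have : (V, x) ∈ es := by rw [he]; simp
  exact ⟨l, by rw [hs.out_eq this hU]⟩

theorem sweep (hC : Cst n g κ lam s₀) (h : Piece D c w lo hi)
    (hI : IH n g κ lam s₀ (Ed c).length) (hF : 0 ≤ Fv g κ lam c w lo hi) (hω : ω < lo)
    (hω' : hi < ω + π) (hB : Cvx c w) (N : ℕ) :
    ∀ (c₁ c₂ w₂ w₁ : List ℂ) (V X₁ X₀ : ℂ), c₂.length + w₂.length ≤ N → c = c₁ ++ V :: c₂ →
      w = w₂ ++ X₁ :: X₀ :: w₁ → c₁ ≠ [] → c₂ ≠ [] →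
      SP (Ed (V :: c₂) ++ Ed (w₂ ++ [X₁, X₀, V])) →
      IL (Ed (V :: c₂) ++ Ed (w₂ ++ [X₁, X₀, V])) ⊆ IL (Ed c ++ Ed w) →
      0 < cr (X₀ - X₁) (V - X₀) → 0 < phi g κ lam ω hi c₁ V X₁ X₀ w₁ 0 →
      Res n g κ lam s₀ D c w lo hi := by
  have hπ : hi - lo < π := by linarith
  induction N with
  | zero =>
    intro c₁ c₂ w₂ w₁ V X₁ X₀ hN _ _ _ h2
    exact absurd (List.length_eq_zero_iff.1 (by omega)) h2
  | succ N ih =>
  intro c₁ c₂ w₂ w₁ V X₁ X₀ hN hc hw h1 h2 hS hsub hV p0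
  have e1 : (X₁, X₀) ∈ Ed (V :: c₂) ++ Ed (w₂ ++ [X₁, X₀, V]) :=
    List.mem_append_right _ (mem_Ed.2 ⟨w₂, [V], rfl⟩)
  have e2 : (X₀, V) ∈ Ed (V :: c₂) ++ Ed (w₂ ++ [X₁, X₀, V]) :=
    List.mem_append_right _ (mem_Ed.2 ⟨w₂ ++ [X₁], [], by simp⟩)
  obtain ⟨ρ, X, U, hρ0, hρ, hX, hU', hT, hf, hcase⟩ := ear hS e1 e2 hV
  have hT' := hT.trans hsub
  subst hc hw
  rcases lt_or_ge (phi g κ lam ω hi c₁ V X₁ X₀ w₁ ρ) 0 with p1 | p1
  · exact sweep_ivt h h1 h2 hI hF hω hω' hV hρ0 hρ hX hT' p0 p1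
  have hXc : 0 < cr (X₀ - X) (V - X₀) := by
    rw [hX, show X₀ - (X₀ + ρ * (X₁ - X₀)) = ρ * (X₀ - X₁) by ring, cr_mul_left]
    exact mul_pos hρ0 hV
  rcases hcase with ⟨hρ1, hUX⟩ | hU
  · subst hρ1
    rw [hUX] at hf
    have hXX : X = X₁ := by rw [hX]; push_cast; ring
    rw [hXX] at hT'
    rcases List.eq_nil_or_concat w₂ with hw2 | ⟨w₃, X₂, hw2⟩
    · subst hw2
      obtain ⟨τ, s, hs, hτ, hw1, hw2⟩ := Wall.split_edge h.wall
      have hcr : cr (ei τ) (X₁ - V) < 0 := by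
        have : cr (X₀ - X₁) (V - X₀) = -(s * cr (ei τ) (X₁ - V)) := by
          rw [← cr_mul_left, ← hτ]; simp only [cr, Complex.sub_re, Complex.sub_im]; ring
        by_contra hh
        have := mul_nonneg hs.le (not_lt.1 hh)
        linarith
      have hd := dirn_mem (ω := ω) (lt_of_lt_of_le hω hw1.le) (lt_of_le_of_lt hw2.le hω') hcr
      rcases hf with hf | hf
      · have hne : X₁ - V ≠ 0 := fun h0 => by rw [h0, cr_zero_right] at hcr; exact lt_irrefl _ hcr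
        refine Or.inl (sweep_pocket hC (B := X₁) (w₁ := X₀ :: w₁) h h1 h2 hI le_rfl ?_
          (hf.mono hsub) (norm_pos_iff.2 hne) (dirn_eq ω _)
          (Wall.cons hd.2.le hs hτ hw2) (by rw [← phi_one]; exact p1))
        have h3 := h.wall.le
        have h4 := mul_nonneg hC.hg.le (sub_nonneg.2 h3)
        unfold Fv at hF
        simp only [List.nil_append] at hF
        linarith only [hF, h4]
      · obtain ⟨l, rfl⟩ := GStep_out hS.simp rfl h2 hf
        have hl : l = [] := by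
          by_contra hl
          have h3 : Piece D ((c₁ ++ [V]) ++ X₁ :: l) ([] ++ X₁ :: X₀ :: w₁) lo hi := by
            simpa using h
          exact (h3.not_mem_wall (by simp) hl).1 (by simp)
        subst hl
        exact Or.inl (sweep_end hC h h1 hI hω hω' hV hT' p1)
    · rw [List.concat_eq_append] at hw2
      subst hw2
      have hf' : Free (Ed (c₁ ++ V :: c₂) ++ Ed (w₃ ++ [X₂] ++ X₁ :: X₀ :: w₁)) V X₁ := by
        rcases hf with hf | hf
        · exact hf.mono hsub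
        · obtain ⟨l, rfl⟩ := GStep_out hS.simp rfl h2 hf
          exfalso
          have h3 := h.nodup_snd
          rw [List.nodup_append] at h3
          refine h3.2.2 X₁ ?_ X₁ ?_ rfl
          · rw [List.tail_append_of_ne_nil h1]; simp
          · rw [List.tail_append_of_ne_nil (by simp)]; simp
      have hw : w₃ ++ [X₂] ++ X₁ :: X₀ :: w₁ = w₃ ++ X₂ :: X₁ :: X₀ :: w₁ := by simp
      rw [hw] at h hF hf' hB ⊢
      have a1 : (X₂, X₁) ∈ Ed (w₃ ++ X₂ :: X₁ :: X₀ :: w₁) := mem_Ed.2 ⟨w₃, _, rfl⟩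
      have a2 : (X₁, X₀) ∈ Ed (w₃ ++ X₂ :: X₁ :: X₀ :: w₁) := mem_Ed.2 ⟨w₃ ++ [X₂], w₁, by simp⟩
      have hturn : 0 ≤ cr (X₁ - X₂) (X₀ - X₁) := by
        have := h.wall.conv hπ.le a1 (x := X₀) (by simp)
        convert this using 1
        simp only [cr, Complex.sub_re, Complex.sub_im]; ring
      have hV' := (h.sp.corner_out (List.mem_append_right _ a1) (List.mem_append_right _ a2) hturn
        hf'.symm).1
      have p2 : phi g κ lam ω hi c₁ V X₂ X₁ (X₀ :: w₁) 0 = phi g κ lam ω hi c₁ V X₁ X₀ w₁ 1 := by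
        rw [phi_zero, phi_one]
      rcases p1.eq_or_lt with p1 | p1
      · exact sweep_zero h h1 h2 hI hF hω hω' hV' hf' (by rw [p2, ← p1])
      · obtain ⟨-, -, hcut⟩ := sweep_at h h1 h2 hω hω' hV' hf'
        rw [hw] at ih
        exact ih c₁ c₂ w₃ (X₀ :: w₁) V X₂ X₁ (by simp at hN; omega) rfl rfl h1 h2 hcut.sp2
          hcut.sub2 hV' (by rw [p2]; exact p1)
  · obtain ⟨c', c'', rfl, h3⟩ := step_chain h h1 h2 hπ hB hV hρ0 hρ hX hU hU'
      (hf.imp (fun k => k.mono hsub) id)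
    have hf0 : Free (Ed (c₁ ++ V :: (c' ++ U :: c'')) ++ Ed (w₂ ++ X₁ :: X₀ :: w₁)) U X₀ :=
      ((tri_seg hXc).2.1 U hU).trans hT'
    have hV' : 0 < cr (X₀ - X₁) (U - X₀) := by
      obtain ⟨t, ht0, ht1, rfl⟩ := mem_openSegment_iff'.1 hU
      have : cr (X₀ - X₁) (V + t * (X - V) - X₀) = (1 - t) * cr (X₀ - X₁) (V - X₀) := by
        rw [hX]; simp [cr]; ring
      rw [this]
      exact mul_pos (by linarith only [ht1]) hV
    rcases lt_or_ge 0 (phi g κ lam ω hi (c₁ ++ V :: c') U X₁ X₀ w₁ 0) with p2 | p2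
    · have hc : c₁ ++ V :: (c' ++ U :: c'') = (c₁ ++ V :: c') ++ U :: c'' := by simp
      have h' := h
      rw [hc] at h' hf0
      obtain ⟨-, -, hcut⟩ := sweep_at h' (by simp) h3 hω hω' hV' hf0
      refine ih (c₁ ++ V :: c') c'' w₂ w₁ U X₁ X₀ (by simp at hN; omega) hc rfl (by simp) h3
        hcut.sp2 ?_ hV' p2
      rw [hc]
      exact hcut.sub2
    · refine Or.inl (step_three hC h h1 h3 hI hF hω hω' hV hρ0 hρ hX hU hf0 ?_ p1 p2)
      rcases hf with hf | hf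
      · exact Or.inl (hf.mono hsub)
      · right
        obtain ⟨l, hl⟩ := GStep_out hS.simp rfl h2 hf
        rcases c' with _ | ⟨x, c'⟩
        · rfl
        · exfalso
          have hx : x = U := by simpa using (List.cons.inj hl).1
          subst hx
          have h4 : Piece D ((c₁ ++ V :: x :: c') ++ x :: c'') (w₂ ++ X₁ :: X₀ :: w₁) lo hi := by
            simpa using h
          exact (h4.not_mem_wall (by simp) h3).2.1 (by simp)

theorem sweep_all (hC : Cst n g κ lam s₀) (h : Piece D c w lo hi) (h2 : 2 ≤ (Ed c).length)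
    (hI : IH n g κ lam s₀ (Ed c).length) (hF : 0 ≤ Fv g κ lam c w lo hi) (hA : Cvx w c)
    (hB : Cvx c w) : Res n g κ lam s₀ D c w lo hi := by
  have hπ := h.lt_pi hC hF
  obtain ⟨A, V, c₂, rfl, hc2⟩ : ∃ A V c₂, c = [A] ++ V :: c₂ ∧ c₂ ≠ [] := by
    rw [Ed_length] at h2
    rcases c with _ | ⟨A, _ | ⟨V, _ | ⟨x, l⟩⟩⟩
    · simp at h2
    · simp at h2
    · simp at h2
    · exact ⟨A, V, x :: l, rfl, by simp⟩
  obtain ⟨w₂, X₁, rfl⟩ : ∃ w₂ X₁, w = w₂ ++ [X₁, A] := by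
    obtain ⟨B, k, A', rfl⟩ := two_le_iff.1 h.lw
    have hA' : A = A' := by
      have := h.hA
      rw [List.getLast?_concat] at this
      simpa using this
    subst hA'
    obtain ⟨w₂, X₁, hk⟩ := (List.eq_nil_or_concat (B :: k)).resolve_left (by simp)
    exact ⟨w₂, X₁, by rw [hk]; simp⟩
  have a1 : (X₁, A) ∈ Ed (w₂ ++ [X₁, A]) := mem_Ed.2 ⟨w₂, [], rfl⟩
  have a2 : (A, V) ∈ Ed ([A] ++ V :: c₂) := by simp
  have hV := hA _ _ _ a1 a2
  have hω : (lo + hi) / 2 - π / 2 < lo := by linarith only [hπ]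
  have hω' : hi < (lo + hi) / 2 - π / 2 + π := by linarith only [hπ]
  rcases le_or_gt (phi g κ lam ((lo + hi) / 2 - π / 2) hi [A] V X₁ A [] 0) 0 with p0 | p0
  · obtain ⟨ρ, X, U, hρ0, hρ, hX, -, hT, -⟩ :=
      ear h.sp (List.mem_append_right _ a1) (List.mem_append_left _ a2) hV
    exact Or.inl (sweep_start hC h hc2 hI hF hω hω' hV hρ0 hρ hX hT p0)
  · have hp : (Ed ([A] ++ V :: c₂) ++ Ed (w₂ ++ [X₁, A])).Perm
        (Ed (V :: c₂) ++ Ed (w₂ ++ [X₁, A, V])) := by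
      have : Ed (w₂ ++ [X₁, A, V]) = Ed (w₂ ++ [X₁, A]) ++ [(A, V)] := by
        have := Ed_append (w₂ ++ [X₁]) A [V]
        simpa using this
      rw [this, ← List.append_assoc]
      exact (List.perm_append_singleton _ _).symm
    exact sweep hC h hI hF hω hω' hB _ [A] c₂ w₂ [] V X₁ A le_rfl rfl rfl (by simp) hc2
      (h.sp.perm hp) (IL_perm hp).symm.subset hV p0

end Pool.Agent.Work.MP_267827_an.PS
end

-- merged part: Pool.Agent.Work.MP_267827_an.PS.GMainA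
section
/-! Every piece with a nonnegative budget satisfies the energy bound (skeleton helper49).

The only wall edge followed by a chain edge is the last wall edge `(X₁, A)` with the first chain edge
`(A, V)` (`corner_A`; `Piece.nodup_fst`, `Piece.nodup_snd`, `Simp.out_eq`, `Simp.in_eq`).
`drop_A`: `Simp.straight` shows that `V - A` has the direction of the last wall edge, so
`w₂ ++ [X₁, A, V]` is a wall in `[lo, hi]` (`Wall.split_edge`, `Wall.snoc`, `Wall.mono`);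
`Piece.drop_first`; the budget grows by `2 κ`; `IH`, `Res.hs`, `IL_perm`.
`nonreflex`: one edge: `cell`.  Fewer than `m` edges: `IH`.  Otherwise: if the corner at `A` is not
strictly convex it is straight (`drop_A`); the same at `B` by `Piece.mir`, `Res.of_mir`,
`Cvx.of_mir` (with `mirL_mirL`); else `sweep_all`.
`trim_point`: `d = A - X₁`; `SP.corner_right` shows `A + t d ∈ IL` for small `t > 0`; `Loop.shoot`
gives `Y = A + t d` on the curve with `A Y` free; `Wall.ahead`: `Y` is not on the wall, so it is on a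
chain edge, `Y ≠ A`, `Y ≠ B`.  If `Y` is a vertex, split the chain.  Otherwise it is on an open chain
edge `(p, q)`, which is not the first one (`Y - A` is not parallel to `V - A`).
`trim_A`: after `Piece.ins_chain` (second case) cut from `Y` to `A` with `Piece.cut`
(`X = A`, `w₁ = []`, `ψ = τ - π`, `hi' = ψ`, `lo' = lo`, `τ` the direction of `d`).  The main part
`(Y :: c₂, w₂ ++ [X₁, A, Y], lo, τ)` has fewer edges and a larger budget: `HS`.  The pocket
`(c₁ ++ [Y], [Y, A], ψ, ψ)` has the budget `g π - 2 κ m₁ - lam sh₁ ≥ Fv` with `m₁ ≤ m`.  First case: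
`m₁ < m`, `IH`.  Second case: `nonreflex`: at `A` the turn is `cr (A - Y) (V - A) = -t cr d (V - A) > 0`,
at `Y` use `SP.edge_out`.
`main_step`: reflex at `A`: `trim_A`; reflex at `B`: mirror image; otherwise `nonreflex`. -/

set_option autoImplicit false

namespace Pool.Agent.Work.MP_267827_an.PS

open MeasureTheory Set Filter Topology Real

variable {n m : ℕ} {g κ lam s₀ lo hi : ℝ} {D : Set ℂ} {c w c₂ w₂ : List ℂ} {A V X₁ : ℂ}

theorem Piece.shape (h : Piece D c w lo hi) :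
    ∃ (A V X₁ : ℂ) (c₂ w₂ : List ℂ), c = A :: V :: c₂ ∧ w = w₂ ++ [X₁, A] := by
  obtain ⟨A, V, c₂, rfl⟩ : ∃ A V c₂, c = A :: V :: c₂ := by
    have h2 := h.lc
    rcases c with _ | ⟨A, _ | ⟨V, l⟩⟩
    · simp at h2
    · simp at h2
    · exact ⟨A, V, l, rfl⟩
  obtain ⟨B, k, A', rfl⟩ := two_le_iff.1 h.lw
  have hA' : A = A' := by
    have := h.hA
    rw [List.getLast?_concat] at this
    simpa using this
  subst hA'
  obtain ⟨w₂, X₁, hk⟩ := (List.eq_nil_or_concat (B :: k)).resolve_left (by simp)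
  exact ⟨A, V, X₁, c₂, w₂, rfl, by rw [hk]; simp⟩

theorem corner_A (h : Piece D (A :: V :: c₂) (w₂ ++ [X₁, A]) lo hi) {p q r : ℂ}
    (h1 : (p, q) ∈ Ed (w₂ ++ [X₁, A])) (h2 : (q, r) ∈ Ed (A :: V :: c₂)) :
    p = X₁ ∧ q = A ∧ r = V := by
  have hq : q = A := by
    by_contra hq
    have h3 := h.nodup_snd
    rw [List.nodup_append] at h3
    refine h3.2.2 q ?_ q ?_ rfl
    · have : q ∈ (A :: V :: c₂).dropLast := by
        rw [← Ed_fst]; exact List.mem_map.2 ⟨_, h2, rfl⟩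
      exact (List.mem_cons.1 (List.mem_of_mem_dropLast this)).resolve_left hq
    · rw [← Ed_snd]; exact List.mem_map.2 ⟨_, h1, rfl⟩
  subst hq
  have a1 : (X₁, q) ∈ Ed (w₂ ++ [X₁, q]) := mem_Ed.2 ⟨w₂, [], rfl⟩
  have a2 : (q, V) ∈ Ed (q :: V :: c₂) := by simp
  exact ⟨h.sp.simp.in_eq h.sp.loop (List.mem_append_right _ h1) (List.mem_append_right _ a1), rfl,
    h.sp.simp.out_eq (List.mem_append_left _ h2) (List.mem_append_left _ a2)⟩

theorem drop_A (hC : Cst n g κ lam s₀) (h : Piece D (A :: V :: c₂) (w₂ ++ [X₁, A]) lo hi)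
    (h2 : c₂ ≠ []) (hI : IH n g κ lam s₀ (Ed (A :: V :: c₂)).length)
    (hF : 0 ≤ Fv g κ lam (A :: V :: c₂) (w₂ ++ [X₁, A]) lo hi) (hc : cr (A - X₁) (V - A) = 0) :
    HS D (IL (Ed (A :: V :: c₂) ++ Ed (w₂ ++ [X₁, A]))) lam := by
  have a1 : (X₁, A) ∈ Ed (w₂ ++ [X₁, A]) := mem_Ed.2 ⟨w₂, [], rfl⟩
  have a2 : (A, V) ∈ Ed (A :: V :: c₂) := by simp
  obtain ⟨r, hr, hV⟩ := h.sp.simp.straight h.sp.loop (List.mem_append_right _ a1)
    (List.mem_append_left _ a2) hc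
  obtain ⟨τ, s, hs, hτ, hw1, hw2⟩ := Wall.split_edge h.wall
  have hw3 : Wall lo τ ((w₂ ++ [X₁]) ++ [A]) := by simpa using hw1.snoc hs hτ
  have hw4 : Wall lo hi ((w₂ ++ [X₁]) ++ [A, V]) :=
    (hw3.snoc (mul_pos hr hs) (by rw [hV, hτ]; push_cast; ring)).mono le_rfl hw2.le
  have h' : Piece D (A :: V :: c₂) ((w₂ ++ [X₁]) ++ [A]) lo hi := by simpa using h
  obtain ⟨h3, hp⟩ := h'.drop_first h2 hw4
  have e : (w₂ ++ [X₁]) ++ [A] = w₂ ++ [X₁, A] := by simp
  rw [e] at hp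
  have hF' : 0 < Fv g κ lam (V :: c₂) ((w₂ ++ [X₁]) ++ [A, V]) lo hi := by
    unfold Fv at hF ⊢
    rw [sh_perm hp]
    simp only [Ed_cons, List.length_cons] at hF ⊢
    push_cast at hF
    have := hC.hκ
    linarith only [hF, this]
  rw [← IL_perm hp]
  exact (hI D _ _ lo hi h3 (by simp) hF'.le).hs hF'

theorem GMainA_drop (hC : Cst n g κ lam s₀) (h : Piece D c w lo hi) (h2 : 2 ≤ (Ed c).length)
    (hI : IH n g κ lam s₀ (Ed c).length) (hF : 0 ≤ Fv g κ lam c w lo hi) (hA : Cvx0 w c)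
    (hA' : ¬ Cvx w c) : Res n g κ lam s₀ D c w lo hi := by
  obtain ⟨A, V, X₁, c₂, w₂, rfl, rfl⟩ := h.shape
  refine Or.inl (drop_A hC h ?_ hI hF ?_)
  · rintro rfl
    simp at h2
  · by_contra hne
    refine hA' fun p q r h1 h3 => ?_
    have := hA p q r h1 h3
    obtain ⟨rfl, rfl, rfl⟩ := corner_A h h1 h3
    exact lt_of_le_of_ne this (Ne.symm hne)

theorem GMainA_len (c : List ℂ) : (Ed (mirL c)).length = (Ed c).length := by
  rw [Ed_mir]; simp

theorem nonreflex (hC : Cst n g κ lam s₀) (hI : IH n g κ lam s₀ m) (h : Piece D c w lo hi)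
    (hm : (Ed c).length ≤ m) (hF : 0 ≤ Fv g κ lam c w lo hi) (hA : Cvx0 w c) (hB : Cvx0 c w) :
    Res n g κ lam s₀ D c w lo hi := by
  rcases hm.eq_or_lt with hm | hm
  swap
  · exact hI D c w lo hi h hm hF
  subst hm
  rcases h.one_le.eq_or_lt with h1 | h1
  · exact cell hC h h1.symm hF
  by_cases hA' : Cvx w c
  swap
  · exact GMainA_drop hC h h1 hI hF hA hA'
  by_cases hB' : Cvx c w
  · exact sweep_all hC h h1 hI hF hA' hB'
  refine Res.of_mir (GMainA_drop hC h.mir (by rwa [GMainA_len]) (by rwa [GMainA_len])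
    (by rwa [Fv_mir]) (Cvx0.of_mir (by rwa [mirL_mirL, mirL_mirL])) fun k => hB' k.of_mir)

end Pool.Agent.Work.MP_267827_an.PS
end

-- merged part: Pool.Agent.Work.MP_267827_an.PS.GMain
section
/-! Every piece with a nonnegative budget satisfies the energy bound (skeleton helper49).

The only wall edge followed by a chain edge is the last wall edge `(X₁, A)` with the first chain edge
`(A, V)` (`corner_A`; `Piece.nodup_fst`, `Piece.nodup_snd`, `Simp.out_eq`, `Simp.in_eq`).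
`drop_A`: `Simp.straight` shows that `V - A` has the direction of the last wall edge, so
`w₂ ++ [X₁, A, V]` is a wall in `[lo, hi]` (`Wall.split_edge`, `Wall.snoc`, `Wall.mono`);
`Piece.drop_first`; the budget grows by `2 κ`; `IH`, `Res.hs`, `IL_perm`.
`nonreflex`: one edge: `cell`.  Fewer than `m` edges: `IH`.  Otherwise: if the corner at `A` is not
strictly convex it is straight (`drop_A`); the same at `B` by `Piece.mir`, `Res.of_mir`,
`Cvx.of_mir` (with `mirL_mirL`); else `sweep_all`.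
`trim_point`: `d = A - X₁`; `SP.corner_right` shows `A + t d ∈ IL` for small `t > 0`; `Loop.shoot`
gives `Y = A + t d` on the curve with `A Y` free; `Wall.ahead`: `Y` is not on the wall, so it is on a
chain edge, `Y ≠ A`, `Y ≠ B`.  If `Y` is a vertex, split the chain.  Otherwise it is on an open chain
edge `(p, q)`, which is not the first one (`Y - A` is not parallel to `V - A`).
`trim_A`: after `Piece.ins_chain` (second case) cut from `Y` to `A` with `Piece.cut`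
(`X = A`, `w₁ = []`, `ψ = τ - π`, `hi' = ψ`, `lo' = lo`, `τ` the direction of `d`).  The main part
`(Y :: c₂, w₂ ++ [X₁, A, Y], lo, τ)` has fewer edges and a larger budget: `HS`.  The pocket
`(c₁ ++ [Y], [Y, A], ψ, ψ)` has the budget `g π - 2 κ m₁ - lam sh₁ ≥ Fv` with `m₁ ≤ m`.  First case:
`m₁ < m`, `IH`.  Second case: `nonreflex`: at `A` the turn is `cr (A - Y) (V - A) = -t cr d (V - A) > 0`,
at `Y` use `SP.edge_out`.
`main_step`: reflex at `A`: `trim_A`; reflex at `B`: mirror image; otherwise `nonreflex`. -/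

set_option autoImplicit false

namespace Pool.Agent.Work.MP_267827_an.PS

open MeasureTheory Set Filter Topology Real

variable {n m : ℕ} {g κ lam s₀ lo hi : ℝ} {D : Set ℂ} {c w c₂ w₂ : List ℂ} {A V X₁ : ℂ}

theorem trim_point (h : Piece D (A :: V :: c₂) (w₂ ++ [X₁, A]) lo hi) (hπ : hi - lo < π)
    (hc : cr (A - X₁) (V - A) < 0) :
    ∃ (t : ℝ) (Y : ℂ), 0 < t ∧ Y = A + t * (A - X₁) ∧
      Free (Ed (A :: V :: c₂) ++ Ed (w₂ ++ [X₁, A])) Y A ∧
      ((∃ d₁ d₂, A :: V :: c₂ = d₁ ++ Y :: d₂ ∧ d₁ ≠ [] ∧ d₂ ≠ []) ∨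
        ∃ d₁ d₂ p q, A :: V :: c₂ = d₁ ++ p :: q :: d₂ ∧ d₁ ≠ [] ∧ Y ∈ openSegment ℝ p q) := by
  have a1 : (X₁, A) ∈ Ed (w₂ ++ [X₁, A]) := mem_Ed.2 ⟨w₂, [], rfl⟩
  have a2 : (A, V) ∈ Ed (A :: V :: c₂) := by simp
  have hd : A - X₁ ≠ 0 := fun h0 => by rw [h0, cr_zero_left] at hc; exact lt_irrefl _ hc
  have hev := h.sp.corner_right (List.mem_append_right _ a1) (List.mem_append_left _ a2) hc
  have hlim : Tendsto (fun t : ℝ => A + t * (A - X₁)) (𝓝[>] 0) (𝓝 A) := by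
    have : Continuous fun t : ℝ => A + t * (A - X₁) := by fun_prop
    have := (this.tendsto 0).mono_left (nhdsWithin_le_nhds (s := Ioi 0))
    simpa using this
  obtain ⟨t, ht, hG, hf⟩ := h.sp.loop.shoot hd (by
    filter_upwards [hlim.eventually hev, self_mem_nhdsWithin] with t h1 h2
    refine h1 ?_
    rw [add_sub_cancel_left, cr_mul_right, cr_swap]
    exact mul_pos h2 (by linarith))
  have hw := h.wall.ahead hπ ht
  refine ⟨t, _, ht, rfl, hf.symm, ?_⟩
  have hcr : cr (A + t * (A - X₁) - A) (V - A) < 0 := by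
    rw [add_sub_cancel_left, cr_mul_left]
    exact mul_neg_of_pos_of_neg ht hc
  generalize A + t * (A - X₁) = Y at hG hw hcr
  rw [GC_append] at hG
  obtain ⟨⟨p, q⟩, he, hY⟩ := hG.resolve_right hw
  have hv : Y ∈ A :: V :: c₂ →
      ∃ d₁ d₂, A :: V :: c₂ = d₁ ++ Y :: d₂ ∧ d₁ ≠ [] ∧ d₂ ≠ [] := by
    intro hm
    obtain ⟨d₁, d₂, e⟩ := List.append_of_mem hm
    refine ⟨d₁, d₂, e, ?_, ?_⟩
    · rintro rfl
      rw [← (List.cons.inj e).1, sub_self, cr_zero_left] at hcr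
      exact lt_irrefl _ hcr
    · rintro rfl
      have h3 := h.hB
      rw [e, List.getLast?_concat] at h3
      exact hw (mem_GC_Ed h.lw (List.mem_of_mem_head? h3.symm))
  obtain ⟨d₁, d₂, e⟩ := mem_Ed.1 he
  rcases seg_cases hY with hY | hY | hY
  · exact Or.inl (hv (by rw [e, hY]; simp))
  · exact Or.inl (hv (by rw [e, hY]; simp))
  · refine Or.inr ⟨d₁, d₂, p, q, e, ?_, hY⟩
    rintro rfl
    obtain ⟨rfl, e'⟩ := List.cons.inj e
    obtain ⟨rfl, -⟩ := List.cons.inj e'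
    obtain ⟨s, -, -, rfl⟩ := mem_openSegment_iff'.1 hY
    rw [add_sub_cancel_left, cr_mul_left, cr_self, mul_zero] at hcr
    exact lt_irrefl _ hcr

theorem GMain_cut (hC : Cst n g κ lam s₀) {d₁ d₂ : List ℂ} {Y : ℂ} {t : ℝ}
    (h : Piece D (d₁ ++ Y :: d₂) (w₂ ++ [X₁, A]) lo hi) (h1 : d₁ ≠ []) (h2 : d₂ ≠ [])
    (hI : IH n g κ lam s₀ m) (ht : 0 < t) (hY : Y = A + t * (A - X₁))
    (hf : Free (Ed (d₁ ++ Y :: d₂) ++ Ed (w₂ ++ [X₁, A])) Y A)
    (hF : 0 ≤ g * (π - (hi - lo)) - 2 * κ * m -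
      lam * sh (Ed (d₁ ++ Y :: d₂) ++ Ed (w₂ ++ [X₁, A])))
    (m1 : (Ed (d₁ ++ [Y])).length ≤ m) (m2 : (Ed (Y :: d₂)).length < m)
    (hP : ∀ ψ, Piece D (d₁ ++ [Y]) [Y, A] ψ ψ → 0 ≤ Fv g κ lam (d₁ ++ [Y]) [Y, A] ψ ψ →
      Res n g κ lam s₀ D (d₁ ++ [Y]) [Y, A] ψ ψ) :
    HS D (IL (Ed (d₁ ++ Y :: d₂) ++ Ed (w₂ ++ [X₁, A]))) lam := by
  obtain ⟨τ, s, hs, hτ, hw1, hw2⟩ := Wall.split_edge h.wall
  have hw3 : Wall lo (τ - π + π) ((w₂ ++ [X₁]) ++ [A]) := by simpa using hw1.snoc hs hτ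
  have e : w₂ ++ [X₁, A] = (w₂ ++ [X₁]) ++ A :: [] := by simp
  rw [e] at h hf hF ⊢
  obtain ⟨p1, p2, hcut⟩ := h.cut h1 h2 hf (mul_pos ht hs) (ψ := τ - π)
    (by rw [hY, ei_sub_pi, hτ]; push_cast; ring) (Wall.one A le_rfl) hw3
  have s1 := hcut.sp1.sh_pos
  have s2 := hcut.sp2.sh_pos
  have s3 := hcut.area
  have l1 := mul_pos hC.hl s1
  have l2 := mul_pos hC.hl s2
  have g1 := mul_nonneg hC.hg.le (sub_nonneg.2 hw2.le)
  have g2 := mul_nonneg hC.hg.le (sub_nonneg.2 h.wall.le)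
  have k1 : κ * (Ed (d₁ ++ [Y])).length ≤ κ * m :=
    mul_le_mul_of_nonneg_left (by exact_mod_cast m1) hC.hκ.le
  have k2 : κ * (Ed (Y :: d₂)).length ≤ κ * m :=
    mul_le_mul_of_nonneg_left (by exact_mod_cast m2.le) hC.hκ.le
  rw [s3] at hF
  have f2 : 0 < Fv g κ lam (Y :: d₂) (w₂ ++ [X₁] ++ [A, Y]) lo (τ - π + π) := by
    unfold Fv
    linarith only [hF, l1, g1, k2]
  refine hcut.symm.hs ((hI D _ _ _ _ p2 m2 f2.le).hs f2) (hP _ p1 ?_).low
  unfold Fv
  linarith only [hF, l2, g2, k1]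

theorem trim_A (hC : Cst n g κ lam s₀) (h : Piece D (A :: V :: c₂) (w₂ ++ [X₁, A]) lo hi)
    (hI : IH n g κ lam s₀ (Ed (A :: V :: c₂)).length)
    (hF : 0 ≤ Fv g κ lam (A :: V :: c₂) (w₂ ++ [X₁, A]) lo hi) (hc : cr (A - X₁) (V - A) < 0) :
    HS D (IL (Ed (A :: V :: c₂) ++ Ed (w₂ ++ [X₁, A]))) lam := by
  obtain ⟨t, Y, ht, hY, hf, hcase⟩ := trim_point h (h.lt_pi hC hF) hc
  rcases hcase with ⟨d₁, d₂, e, h1, h2⟩ | ⟨d₁, d₂, p, q, e, h1, hpq⟩
  · rw [e] at h hf hF hI ⊢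
    have l1 := List.length_pos_iff.2 h1
    have l2 := List.length_pos_iff.2 h2
    have m1 : (Ed (d₁ ++ [Y])).length < (Ed (d₁ ++ Y :: d₂)).length := by
      simp [Ed_length]; omega
    exact GMain_cut hC h h1 h2 hI ht hY hf hF m1.le (by simp [Ed_length]; omega)
      fun ψ p1 f1 => hI D _ _ _ _ p1 m1 f1
  · have hout := h.sp.edge_out (List.mem_append_left _ (mem_Ed.2 ⟨d₁, d₂, e⟩)) hpq hf
    have hV : (A, V) ∈ Ed (d₁ ++ [p] ++ [Y]) := by
      obtain ⟨x, d, rfl⟩ := List.exists_cons_of_ne_nil h1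
      obtain ⟨rfl, e'⟩ := List.cons.inj e
      rcases d with _ | ⟨y, d⟩
      · obtain ⟨rfl, -⟩ := List.cons.inj e'
        simp
      · obtain ⟨rfl, -⟩ := List.cons.inj e'
        simp
    rw [e] at h hf hF hI ⊢
    obtain ⟨h', hIL, hsh⟩ := h.ins_chain hpq
    have e2 : d₁ ++ p :: Y :: q :: d₂ = (d₁ ++ [p]) ++ Y :: q :: d₂ := by simp
    have l1 := List.length_pos_iff.2 h1
    have m1 : (Ed (d₁ ++ [p] ++ [Y])).length ≤ (Ed (d₁ ++ p :: q :: d₂)).length := by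
      simp [Ed_length]
    rw [← hIL]
    have hf' : Free (Ed (d₁ ++ p :: Y :: q :: d₂) ++ Ed (w₂ ++ [X₁, A])) Y A := by
      unfold Free at hf ⊢
      rwa [hIL]
    unfold Fv at hF
    rw [← hsh] at hF
    rw [e2] at h' hf' hF ⊢
    refine GMain_cut hC h' (by simp) (by simp) hI ht hY hf' hF m1 (by simp [Ed_length]; omega)
      fun ψ p1 f1 => nonreflex hC hI p1 m1 f1 ?_ ?_
    · intro x y z k1 k2
      obtain ⟨rfl, rfl⟩ : x = Y ∧ y = A := by simpa using k1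
      rw [p1.sp.simp.out_eq (List.mem_append_left _ k2) (List.mem_append_left _ hV), hY,
        show y - (y + t * (y - X₁)) = -(t * (y - X₁)) by ring, cr_neg_left, cr_mul_left]
      have := mul_neg_of_pos_of_neg ht hc
      linarith only [this]
    · intro x y z k1 k2
      obtain ⟨rfl, rfl⟩ : y = Y ∧ z = A := by simpa using k2
      have k3 : (p, y) ∈ Ed (d₁ ++ [p] ++ [y]) := mem_Ed.2 ⟨d₁, [], by simp⟩
      rw [p1.sp.simp.in_eq p1.sp.loop (List.mem_append_left _ k1) (List.mem_append_left _ k3)]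
      obtain ⟨s, hs, -, hy⟩ := mem_openSegment_iff'.1 hpq
      have : cr (y - p) (z - y) = s * cr (q - p) (z - p) := by
        rw [hy]; simp [cr]; ring
      rw [this]
      exact (mul_pos hs hout).le

theorem GMain_reflex (hC : Cst n g κ lam s₀) (h : Piece D c w lo hi)
    (hI : IH n g κ lam s₀ (Ed c).length) (hF : 0 ≤ Fv g κ lam c w lo hi) (hA : ¬ Cvx0 w c) :
    Res n g κ lam s₀ D c w lo hi := by
  obtain ⟨A, V, X₁, c₂, w₂, rfl, rfl⟩ := h.shape
  refine Or.inl (trim_A hC h hI hF ?_)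
  by_contra hne
  refine hA fun p q r h1 h3 => ?_
  obtain ⟨rfl, rfl, rfl⟩ := corner_A h h1 h3
  exact not_lt.1 hne

theorem main_step (hC : Cst n g κ lam s₀) (hI : IH n g κ lam s₀ m) : IH n g κ lam s₀ (m + 1) := by
  intro D c w lo hi h hm hF
  rcases (Nat.lt_succ_iff.1 hm).eq_or_lt with hm | hm
  swap
  · exact hI D c w lo hi h hm hF
  subst hm
  by_cases hA : Cvx0 w c
  swap
  · exact GMain_reflex hC h hI hF hA
  by_cases hB : Cvx0 c w
  · exact nonreflex hC hI h le_rfl hF hA hB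
  exact Res.of_mir (GMain_reflex hC h.mir (by rwa [GMainA_len]) (by rwa [Fv_mir])
    fun k => hB k.of_mir)

theorem main_all (hC : Cst n g κ lam s₀) (m : ℕ) : IH n g κ lam s₀ m := by
  induction m with
  | zero => exact fun _ _ _ _ _ _ h => absurd h (Nat.not_lt_zero _)
  | succ m ih => exact main_step hC ih

theorem Piece.res (hC : Cst n g κ lam s₀) (h : Piece D c w lo hi)
    (hF : 0 ≤ Fv g κ lam c w lo hi) : Res n g κ lam s₀ D c w lo hi :=
  main_all hC _ D c w lo hi h (Nat.lt_succ_self _) hF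

end Pool.Agent.Work.MP_267827_an.PS
end
end

-- merged part: Pool.Agent.Work.MP_267827_an.PS.GTopA
section
/-! The first cuts of a polygon (skeleton helper49).

`peel`: if `l = []` the new list is a permutation of `es`.  Otherwise `cut1` along `b a`; the pocket is
the piece with chain `a :: l ++ [b]`, wall `[b, a]` (`Wall.pair`, `dirn_eq`) and budget
`g π - Dm > 0`, hence `HS` (`Piece.res`, `Res.hs`); `Cut.hs`, `Cut.free`.
`Dm_add`: the shoelace sums add up and the two copies of the diagonal cancel.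
`top_two`: `cut1`; both pieces have straight walls `[b, a]` in `[ψ, ψ]` and `[a, b]` in
`[ψ + π, ψ + π]` and budget zero.  If both are rigid, `RigC.append` closes up.
`top_vertex`: peel the chain from `a` to `b`, then the chain from `c` to `a` (free in the new polygon
by the last clause of `peel` with `p = c`; `not_mem_GC_sub`).  What is left is the piece with chain
`b :: l₂ ++ [c]` and wall `[c, a, b]` (`wall_two`), whose budget is `Gt g lam D₂ b c a ≥ 0`.  If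
`l₁ = l₃ = []` then `D₁ = D₃ = 2 κ` and `Gt ≤ g π - (2 π g - 4 κ) < 0` by `Cst.big`.
`top_tripod`: `cut2` along `b, O, a` (`tri_seg`), then `cut1` along `c O` in the second part, where `O`
is now a vertex (`Cut.free` with `p = c`).  Three pieces with walls `[b, O, a]`, `[c, O, b]`,
`[a, O, c]` (`wall_two`) and budgets `Gt = 0`.  If all are rigid the directions match because
`ei hi` of one piece is `-ei lo` of the previous one.
`top_sink`: the three vertex cases (permute the chains) or `tripod`.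
`walk`: induction on `l₂.length`.  `peel` gives `Q₂ = (a, b) :: Ed (b :: l₂ ++ [a])`; `tri_of_edge` gives
`c ∈ l₂`, `l₂ = l' ++ c :: l''`; `(b, c) ∈ Q₂` forces `l' = []`, `(c, a) ∈ Q₂` forces `l'' = []`
(`Simp.out_eq`, `Nodup` of the sources).  Compare `Dm` of the chains `b :: l' ++ [c]` and
`c :: l'' ++ [a]` with `g π` (a one edge chain has `Dm = 2 κ < g π`): larger: go on with that chain as
the second one (`Dm_add`), equal: `top_two`, both smaller: `top_sink`.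
`top`: take any edge `(a, b)`, rotate the loop to `a` (`Loop.rotate`, `Simp.out_eq`,
`Loop.three_le`), `walk` with `l₁ = []`. -/

set_option autoImplicit false

namespace Pool.Agent.Work.MP_267827_an.PS

open MeasureTheory Set Filter Topology Real

/-- the result for a polygon -/
def TopRes (n : ℕ) (lam s₀ : ℝ) (es : List (ℂ × ℂ)) : Prop :=
  HS (GC es) (IL es) lam ∨ ∃ (ϑ : ℝ) (a : ℂ) (l : List ℂ), es.Perm (Ed (a :: l ++ [a])) ∧
    RigC n s₀ (ei ϑ) (a :: l ++ [a]) (ei ϑ)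

variable {n : ℕ} {g κ lam s₀ : ℝ} {D : Set ℂ} {es r : List (ℂ × ℂ)} {a b c O : ℂ}
  {l l₁ l₂ l₃ : List ℂ}

theorem GTopA_src (hp : es.Perm (Ed (a :: l ++ [b]) ++ r)) : a ∈ es.map Prod.fst := by
  rw [(hp.map _).mem_iff, List.map_append, Ed_fst, List.dropLast_concat]
  simp

theorem GTopA_tgt (hl : Loop es) (hp : es.Perm (Ed (a :: l ++ [b]) ++ r)) :
    b ∈ es.map Prod.fst := by
  rw [← hl.snd_perm.mem_iff, (hp.map _).mem_iff, List.map_append, Ed_snd]
  simp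

theorem GTopA_mem {x : ℂ} (hx : x ∈ es.map Prod.fst) : x ∈ GC es := by
  obtain ⟨e, he, rfl⟩ := List.mem_map.1 hx
  exact fst_mem_GC he

theorem GTopA_sub {e₁ : List (ℂ × ℂ)} (hp : es.Perm (e₁ ++ r)) : GC e₁ ⊆ GC es := by
  rw [GC_perm hp, GC_append]
  exact subset_union_left

theorem GTopA_ne (_h : SP es) (hp : es.Perm (Ed (a :: l ++ [b]) ++ r)) (hf : Free es a b) :
    a ≠ b := hf.ne (GTopA_mem (GTopA_src hp))

theorem GTopA_dir (h : a ≠ b) : ∃ s τ : ℝ, 0 < s ∧ a - b = s * ei τ :=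
  ⟨‖a - b‖, dirn 0 (a - b), norm_pos_iff.2 (sub_ne_zero.2 h), dirn_eq 0 _⟩

theorem GTopA_cut (h : SP es) (hp : es.Perm (Ed (a :: l ++ [b]) ++ r))
    (hr : Loop ((a, b) :: r)) (hf : Free es a b) :
    Cut es (Ed (a :: l ++ [b]) ++ Ed [b, a]) ((a, b) :: r) (segment ℝ b a) :=
  cut1 h hp (List.perm_append_singleton _ _) (List.Perm.refl _)
    (Loop.of_ends (by simp) (by simp) rfl List.getLast?_concat) hr (GTopA_src hp)
    (GTopA_tgt h.loop hp) hf.symm

theorem GTopA_piece {s τ : ℝ} (h : SP (Ed (a :: l ++ [b]) ++ Ed [b, a])) (hs : 0 < s)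
    (hτ : a - b = s * ei τ) (hD : GC (Ed (a :: l ++ [b])) ⊆ D) :
    Piece D (a :: l ++ [b]) [b, a] τ τ :=
  ⟨h, by simp, by simp, rfl, List.getLast?_concat, Wall.pair hs hτ, hD⟩

theorem GTopA_Fv (τ : ℝ) (k : List ℂ) :
    Fv g κ lam k [b, a] τ τ = g * π - Dm κ lam k a b := by
  simp only [Fv, Dm, Ed_cons, Ed_one]
  ring

theorem peel (hC : Cst n g κ lam s₀) (h : SP es) (hp : es.Perm (Ed (a :: l ++ [b]) ++ r))
    (hr : Loop ((a, b) :: r)) (hf : Free es a b ∨ l = []) (hD : GC (Ed (a :: l ++ [b])) ⊆ D)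
    (hd : Dm κ lam (a :: l ++ [b]) a b < g * π) :
    SP ((a, b) :: r) ∧ IL ((a, b) :: r) ⊆ IL es ∧
      (HS D (IL ((a, b) :: r)) lam → HS D (IL es) lam) ∧
      (Low D (IL ((a, b) :: r)) lam → Low D (IL es) lam) ∧
      (l ≠ [] → Low D (IL ((a, b) :: r)) lam → HS D (IL es) lam) ∧
      ∀ p q, Free es p q → Disjoint (openSegment ℝ p q) (segment ℝ a b) → p ∈ GC es →
        p ∉ GC (Ed (a :: l ++ [b])) → Free ((a, b) :: r) p q := by
  by_cases hl : l = []
  · subst hl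
    have hq : es.Perm ((a, b) :: r) := hp
    refine ⟨h.perm hq, (IL_perm hq).ge, ?_, ?_, fun h0 => absurd rfl h0,
      fun p q h1 _ _ _ => h1.perm hq⟩
    · rw [IL_perm hq]; exact id
    · rw [IL_perm hq]; exact id
  · have hf' : Free es a b := hf.resolve_right hl
    have hc := GTopA_cut h hp hr hf'
    obtain ⟨s, τ, hs, hτ⟩ := GTopA_dir (GTopA_ne h hp hf')
    have hP := GTopA_piece hc.sp1 hs hτ hD
    have hF : 0 < Fv g κ lam (a :: l ++ [b]) [b, a] τ τ := by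
      rw [GTopA_Fv]; linarith
    have hH := (hP.res hC hF.le).hs hF
    refine ⟨hc.sp2, hc.sub2, fun h1 => hc.symm.hs h1 hH.low, fun h1 => hc.low hH.low h1,
      fun _ h1 => hc.hs hH h1, fun p q h1 h2 h3 h4 => hc.symm.free h1 ?_ h3 ?_⟩
    · rwa [segment_symm]
    · rw [GC_append]
      rintro (h5 | h5)
      · exact h4 h5
      · obtain ⟨e, he, h6⟩ := h5
        have he' : e = (b, a) := by simpa using he
        subst he'
        rcases seg_cases h6 with rfl | rfl | h7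
        · exact h4 (mem_GC_Ed (by simp) (by simp))
        · exact h4 (mem_GC_Ed (by simp) (by simp))
        · exact (hf'.symm h7).1 h3

theorem Dm_one (κ lam : ℝ) (a b : ℂ) : Dm κ lam (a :: [] ++ [b]) a b = 2 * κ := by
  have h : Ed (a :: [] ++ [b]) = [(a, b)] := rfl
  rw [Dm, h, sh_append, sh_cons, sh_cons, sh_nil, cr_swap b a, List.length_singleton]
  push_cast
  ring

theorem Dm_add (hp : es.Perm (Ed (a :: l₁ ++ [b]) ++ Ed (b :: l₂ ++ [a]))) :
    Dm κ lam (a :: l₁ ++ [b]) a b + Dm κ lam (b :: l₂ ++ [a]) b a =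
      2 * κ * es.length + lam * sh es := by
  rw [hp.length_eq, sh_perm hp]
  simp only [Dm, sh_append, sh_cons, sh_nil, List.length_append, cr_swap b a]
  push_cast
  ring

theorem Dm_add₃
    (hp : es.Perm (Ed (a :: l₁ ++ [b]) ++ Ed (b :: l₂ ++ [c]) ++ Ed (c :: l₃ ++ [a]))) :
    Dm κ lam (a :: l₁ ++ [b]) a b + Dm κ lam (b :: l₂ ++ [c]) b c + Dm κ lam (c :: l₃ ++ [a]) c a +
      lam * (cr (b - a) (c - a) / 2) = 2 * κ * es.length + lam * sh es := by
  rw [hp.length_eq, sh_perm hp]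
  simp only [Dm, sh_append, sh_cons, sh_nil, List.length_append, cr_sub_left, cr_sub_right,
    cr_self, cr_swap c b]
  push_cast
  ring

theorem top_two (hC : Cst n g κ lam s₀) (h : SP es)
    (hp : es.Perm (Ed (a :: l₁ ++ [b]) ++ Ed (b :: l₂ ++ [a]))) (hf : Free es a b)
    (hT : 2 * κ * es.length + lam * sh es = 2 * π * g)
    (hd : Dm κ lam (a :: l₁ ++ [b]) a b = g * π) : TopRes n lam s₀ es := by
  have hc := (GTopA_cut h hp ⟨a, b :: l₂, List.Perm.refl _⟩ hf).perm (List.Perm.refl _)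
    (List.perm_append_singleton (a, b) (Ed (b :: l₂ ++ [a]))).symm
  obtain ⟨s, τ, hs, hτ⟩ := GTopA_dir (GTopA_ne h hp hf)
  have hτ' : b - a = s * ei (τ + π) := by
    rw [ei_add_pi]; linear_combination -hτ
  have hP1 := GTopA_piece hc.sp1 hs hτ (GTopA_sub hp)
  have hP2 : Piece (GC es) (b :: l₂ ++ [a]) [a, b] (τ + π) (τ + π) :=
    GTopA_piece hc.sp2 hs hτ' (GTopA_sub (hp.trans List.perm_append_comm))
  have hA := Dm_add (κ := κ) (lam := lam) hp
  have R1 := hP1.res hC (by rw [GTopA_Fv]; linarith)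
  have R2 := hP2.res hC (by rw [GTopA_Fv]; linarith)
  rcases R1 with H1 | ⟨L1, -, G1⟩
  · exact Or.inl (hc.hs H1 R2.low)
  rcases R2 with H2 | ⟨-, -, G2⟩
  · exact Or.inl (hc.symm.hs H2 L1)
  have e1 : ei (τ + π + π / 2 + π / n) = ei (τ - π / 2 + π / n) := by
    rw [show τ + π + π / 2 + π / n = τ - π / 2 + π / n + 2 * π by ring, ei_add, ei_two_pi, mul_one]
  have e2 : τ + π - π / 2 + π / n = τ + π / 2 + π / n := by ring
  rw [e1, e2] at G2
  have e3 : a :: (l₁ ++ b :: l₂) ++ [a] = a :: l₁ ++ b :: (l₂ ++ [a]) := by simp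
  refine Or.inr ⟨τ + π / 2 + π / n, a, l₁ ++ b :: l₂, ?_, ?_⟩
  · rw [e3, Ed_append]
    exact hp
  · rw [e3]
    exact G1.append G2

theorem top_vertex (hC : Cst n g κ lam s₀) (h : SP es)
    (hp : es.Perm (Ed (a :: l₁ ++ [b]) ++ Ed (b :: l₂ ++ [c]) ++ Ed (c :: l₃ ++ [a])))
    (hc : 0 < cr (b - a) (c - a)) (f1 : Free es a b ∨ l₁ = []) (f3 : Free es c a ∨ l₃ = [])
    (hT : 2 * κ * es.length + lam * sh es = 2 * π * g)
    (d1 : Dm κ lam (a :: l₁ ++ [b]) a b < g * π) (d3 : Dm κ lam (c :: l₃ ++ [a]) c a < g * π)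
    (hG : 0 ≤ Gt g lam (Dm κ lam (b :: l₂ ++ [c]) b c) b c a) : HS (GC es) (IL es) lam := by
  have hp1 : es.Perm (Ed (a :: l₁ ++ [b]) ++ (Ed (b :: l₂ ++ [c]) ++ Ed (c :: l₃ ++ [a]))) := by
    rwa [← List.append_assoc]
  have hp3 : es.Perm (Ed (c :: l₃ ++ [a]) ++ (Ed (a :: l₁ ++ [b]) ++ Ed (b :: l₂ ++ [c]))) :=
    hp.trans List.perm_append_comm
  have hp2 : es.Perm (Ed (b :: l₂ ++ [c]) ++ (Ed (c :: l₃ ++ [a]) ++ Ed (a :: l₁ ++ [b]))) := by
    rw [← List.append_assoc]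
    exact hp1.trans List.perm_append_comm
  have hl1 : Loop ((a, b) :: (Ed (b :: l₂ ++ [c]) ++ Ed (c :: l₃ ++ [a]))) := by
    refine ⟨a, b :: l₂ ++ c :: l₃, ?_⟩
    have e : a :: (b :: l₂ ++ c :: l₃) ++ [a] = a :: b :: l₂ ++ c :: (l₃ ++ [a]) := by simp
    rw [e, Ed_append (a :: b :: l₂) c (l₃ ++ [a])]
    exact List.Perm.refl _
  obtain ⟨s1, -, H1, L1, N1, F1⟩ := peel hC h hp1 hl1 f1 (GTopA_sub hp1) d1
  have hq : ((a, b) :: (Ed (b :: l₂ ++ [c]) ++ Ed (c :: l₃ ++ [a]))).Perm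
      (Ed (c :: l₃ ++ [a]) ++ (a, b) :: Ed (b :: l₂ ++ [c])) :=
    List.perm_append_comm (l₁ := (a, b) :: Ed (b :: l₂ ++ [c]))
  have f3' : Free ((a, b) :: (Ed (b :: l₂ ++ [c]) ++ Ed (c :: l₃ ++ [a]))) c a ∨ l₃ = [] := by
    refine f3.imp_left fun f => F1 c a f ?_ (GTopA_mem (GTopA_src hp3)) ?_
    · refine Set.disjoint_left.2 fun z h1 h2 => ?_
      obtain ⟨t, -, ht, e1⟩ := mem_openSegment_iff'.1 h1
      obtain ⟨u, -, -, e2⟩ := mem_segment_iff'.1 h2
      have k1 : z - a = ((1 - t : ℝ) : ℂ) * (c - a) := by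
        rw [e1]; push_cast; ring
      have k2 : z - a = (u : ℂ) * (b - a) := by
        rw [e2]; ring
      have k3 := congrArg (cr (b - a)) (k1.symm.trans k2)
      rw [cr_mul_right, cr_mul_right, cr_self, mul_zero] at k3
      exact (mul_pos (sub_pos.2 ht) hc).ne' k3
    · have hn := (hp.map Prod.fst).nodup_iff.1 h.simp.nodup
      simp only [List.map_append, Ed_fst, List.dropLast_concat] at hn
      have hn' := (List.nodup_append.1 hn).2.2
      have hca : ∀ x ∈ a :: l₁ ++ b :: l₂, x ≠ c := fun x hx => hn' x hx c (by simp)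
      refine not_mem_GC_sub h (fun e he => hp1.mem_iff.2 (List.mem_append_left _ he))
        (GTopA_src hp3) ?_ ?_
      · rw [Ed_fst, List.dropLast_concat]
        exact fun k => hca c (List.mem_append_left _ k) rfl
      · rw [Ed_snd]
        intro k
        refine hca c ?_ rfl
        simp only [List.cons_append, List.tail_cons, List.mem_append,
          List.mem_cons] at k ⊢
        clear * - k
        tauto
  obtain ⟨s2, -, -, L2, N2, -⟩ := peel hC s1 hq ⟨c, a :: b :: l₂, List.Perm.refl _⟩ f3'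
    (GTopA_sub hp3) d3
  have hq2 : ((c, a) :: (a, b) :: Ed (b :: l₂ ++ [c])).Perm
      (Ed (b :: l₂ ++ [c]) ++ Ed [c, a, b]) :=
    List.perm_append_comm (l₁ := [(c, a), (a, b)])
  have hc' : 0 < cr (a - c) (b - a) := by
    rw [show a - c = -(c - a) by ring, cr_neg_left, ← cr_swap]
    exact hc
  obtain ⟨lo, hw, -, -⟩ := wall_two hc'
  have hP : Piece (GC es) (b :: l₂ ++ [c]) [c, a, b] lo (lo + Complex.arg ((b - a) / (a - c))) :=
    ⟨s2.perm hq2, by simp, by simp, rfl, List.getLast?_concat, hw, GTopA_sub hp2⟩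
  have hF : Fv g κ lam (b :: l₂ ++ [c]) [c, a, b] lo (lo + Complex.arg ((b - a) / (a - c))) =
      Gt g lam (Dm κ lam (b :: l₂ ++ [c]) b c) b c a := by
    simp only [Fv, Gt, Dm, Ed_cons, Ed_one, sh_append, sh_cons, sh_nil, cr_sub_left, cr_sub_right,
      cr_self, cr_swap c b, cr_swap b a, cr_swap c a]
    ring
  have L3 := (hP.res hC (hF ▸ hG)).low
  rw [← IL_perm hq2] at L3
  by_cases e3 : l₃ = []
  · by_cases e1 : l₁ = []
    · exfalso
      subst e1 e3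
      have hA := Dm_add₃ (κ := κ) (lam := lam) hp
      rw [Dm_one, Dm_one] at hA
      have h0 : 0 ≤ Complex.arg ((b - a) / (a - c)) := by linarith only [hw, hw.le]
      have h1 := mul_nonneg hC.hg.le h0
      have h2 := hC.big
      have h3 : (5 : ℝ) ≤ n := by exact_mod_cast hC.hn
      have h4 := mul_le_mul_of_nonneg_right h3 hC.hκ.le
      have h5 := hC.hκ
      rw [Gt] at hG
      linarith only [hT, hG, hA, h1, h2, h4, h5]
    · exact N1 e1 (L2 L3)
  · exact H1 (N2 e3 L3)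

end Pool.Agent.Work.MP_267827_an.PS
end
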