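import Pool.Agent.Work.MP_a6a438_an.Miranda

/-! The parameter problem for the Schwarz-Christoffel map in abstract form (helper49). -/

set_option autoImplicit false

namespace Pool.Agent.Work.MP_267827_an.PS

open Set Filter Topology Real Finset

theorem sc_param_abs {m : ℕ} {σ l : ℕ → ℝ} (hl : ∀ k, k ≤ m → 0 < l k)
    (hH : ∀ k, 1 ≤ k → k ≤ m → 0 < ∑ j ∈ range k, l j * σ j)
    (hcl : ∑ j ∈ range (m + 1), l j * σ j = 0) (hm : 1 ≤ m) {L : (ℕ → ℝ) → ℕ → ℝ}
    (cont : ∀ k, k < m → ContinuousOn (fun d => L d k) {d | ∀ j, 0 ≤ d j})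
    (zero : ∀ d : ℕ → ℝ, (∀ j, 0 ≤ d j) → ∀ k, 1 ≤ k → k < m → d k = 0 → L d k = 0)
    (pos : ∀ d : ℕ → ℝ, (∀ j, 0 ≤ d j) → ∀ k, 1 ≤ k → k ≤ m → 0 < ∑ j ∈ range k, L d j * σ j)
    (close : ∀ d : ℕ → ℝ, (∀ j, 0 ≤ d j) → ∑ j ∈ range (m + 1), L d j * σ j = 0)
    (big : ∀ d : ℕ → ℝ, (∀ j, 0 ≤ d j) → ∀ k, 1 ≤ k → k < m →
      d k * min (∑ j ∈ range k, L d j * σ j) (∑ j ∈ range (k + 1), L d j * σ j) ≤ π * L d k) :
    ∃ (d : ℕ → ℝ) (c : ℝ), (∀ j, 0 ≤ d j) ∧ 0 < c ∧ ∀ k, k ≤ m → L d k = c * l k := by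
  classical
  obtain ⟨ρ, hρ⟩ : ∃ ρ : ℕ → ℝ, ∀ k, ρ k =
    l k / min (∑ j ∈ range k, l j * σ j) (∑ j ∈ range (k + 1), l j * σ j) := ⟨_, fun _ => rfl⟩
  have ρ0 : ∀ k, 1 ≤ k → k < m → 0 < ρ k := fun k h1 h2 => by
    rw [hρ]
    exact div_pos (hl k h2.le) (lt_min (hH k h1 h2.le) (hH _ (by omega) h2))
  obtain ⟨e, he⟩ : ∃ e : (ℕ → MP_a6a438_an.Iv) → ℕ → ℝ,
    ∀ x k, e x k = π * |ρ k| * (((x k : ℝ) + 1) / 2) := ⟨_, fun _ _ => rfl⟩
  have e0 : ∀ x j, 0 ≤ e x j := fun x j => by
    rw [he]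
    have := (x j).2.1
    exact mul_nonneg (by positivity) (by linarith)
  have ec : Continuous e := continuous_pi fun k => by
    simp only [he]
    fun_prop
  have Lc : ∀ k, k < m → Continuous fun x => L (e x) k := fun k hk =>
    (cont k hk).comp_continuous ec e0
  have Hc : ∀ k, k ≤ m → Continuous fun x => ∑ j ∈ range k, L (e x) j * σ j := fun k hk =>
    continuous_finsetSum _ fun j hj => (Lc j (by have := mem_range.1 hj; omega)).mul continuous_const
  obtain ⟨x, hx⟩ := MP_a6a438_an.miranda (fun (k : ℕ) (x : ℕ → MP_a6a438_an.Iv) =>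
    if 1 ≤ k ∧ k < m then L (e x) k - ρ k * min (∑ j ∈ range k, L (e x) j * σ j)
      (∑ j ∈ range (k + 1), L (e x) j * σ j) else 0) (fun k => by
      split_ifs with h
      · exact (Lc k h.2).sub (continuous_const.mul ((Hc k h.2.le).min (Hc _ h.2)))
      · exact continuous_const) (fun k x hx => by
      split_ifs with h
      · have := big _ (e0 x) k h.1 h.2
        rw [he x k, hx, abs_of_pos (ρ0 k h.1 h.2)] at this
        have h3 : π * (ρ k * min (∑ j ∈ range k, L (e x) j * σ j)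
            (∑ j ∈ range (k + 1), L (e x) j * σ j)) ≤ π * L (e x) k := by linarith
        exact sub_nonneg.2 (le_of_mul_le_mul_left h3 pi_pos)
      · exact le_rfl) (fun k x hx => by
      split_ifs with h
      · rw [zero _ (e0 x) k h.1 h.2 (by rw [he, hx]; ring), zero_sub, neg_nonpos]
        exact (mul_pos (ρ0 k h.1 h.2)
          (lt_min (pos _ (e0 x) k h.1 h.2.le) (pos _ (e0 x) _ (by omega) h.2))).le
      · exact le_rfl)
  have hp := pos _ (e0 x)
  have hc := close _ (e0 x)
  have s0 : 0 < l 0 * σ 0 := by simpa using hH 1 le_rfl hm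
  have s1 : 0 < L (e x) 0 * σ 0 := by simpa using hp 1 le_rfl hm
  have l0 := hl 0 m.zero_le
  have σ0 : 0 < σ 0 := (mul_pos_iff_of_pos_left l0).1 s0
  have c0 : 0 < L (e x) 0 / l 0 := div_pos ((mul_pos_iff_of_pos_right σ0).1 s1) l0
  refine ⟨e x, L (e x) 0 / l 0, e0 x, c0, ?_⟩
  have hL0 : L (e x) 0 = L (e x) 0 / l 0 * l 0 := by field_simp
  generalize L (e x) 0 / l 0 = c at c0 hL0
  have hx' : ∀ k, 1 ≤ k → k < m → L (e x) k = ρ k * min (∑ j ∈ range k, L (e x) j * σ j)
      (∑ j ∈ range (k + 1), L (e x) j * σ j) := fun k h1 h2 => by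
    have := hx k
    rw [if_pos ⟨h1, h2⟩] at this
    linarith
  generalize L (e x) = A at *
  have key : ∀ k, k ≤ m → ∀ j, j ≤ k → A j = c * l j := by
    intro k
    induction k with
    | zero => exact fun _ j hj => by rw [Nat.le_zero.1 hj]; exact hL0
    | succ k ih =>
      intro hk j hj
      rcases hj.eq_or_lt with rfl | hj
      swap
      · exact ih (by omega) j (by omega)
      have hs : ∑ j ∈ range (k + 1), A j * σ j = c * ∑ j ∈ range (k + 1), l j * σ j := by
        rw [mul_sum]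
        exact sum_congr rfl fun j hj => by
          rw [ih (by omega) j (by have := mem_range.1 hj; omega)]; ring
      have q0 := hH (k + 1) (by omega) hk
      have q1 := hl _ hk
      rcases hk.eq_or_lt with hk | hk
      · subst hk
        rw [sum_range_succ] at hc hcl
        have hσ : σ (k + 1) ≠ 0 := fun h => by rw [h] at hcl; linarith
        refine mul_right_cancel₀ hσ ?_
        rw [hs] at hc
        linear_combination hc - c * hcl
      · have h1 := hx' (k + 1) (by omega) hk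
        have r0 := ρ0 (k + 1) (by omega) hk
        have a0 : 0 < A (k + 1) := by
          rw [h1]
          exact mul_pos r0 (lt_min (hp _ (by omega) hk.le) (hp _ (by omega) hk))
        have h2 : l (k + 1) = ρ (k + 1) * min (∑ j ∈ range (k + 1), l j * σ j)
            (∑ j ∈ range (k + 1 + 1), l j * σ j) := by
          rw [hρ, div_mul_cancel₀ _ (lt_min q0 (hH _ (by omega) hk)).ne']
        rw [sum_range_succ _ (k + 1)] at h1 h2
        rw [hs] at h1
        rcases le_total 0 (σ (k + 1)) with h3 | h3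
        · rw [min_eq_left (le_add_of_nonneg_right (by positivity))] at h1 h2
          rw [h1, h2]; ring
        · rw [min_eq_right (add_le_of_nonpos_right (mul_nonpos_of_nonneg_of_nonpos
            (by positivity) h3))] at h1 h2
          have h4 : 0 < 1 - ρ (k + 1) * σ (k + 1) := by
            have := mul_nonpos_of_nonneg_of_nonpos r0.le h3
            linarith
          refine mul_right_cancel₀ h4.ne' ?_
          linear_combination h1 - c * h2
  exact fun k hk => key k hk k le_rfl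

end Pool.Agent.Work.MP_267827_an.PS
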