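import Pool.Agent.Work.MP_267827_an.PS.WN

-- merged part: Pool.Agent.Work.MP_267827_an.PS.WI
section
-- merged part: Pool.Agent.Work.MP_267827_an.PS.WG
section
/-! One dimensional facts: the spectral gap of the radial problem.

`JJ_le_DD`: `ZZ` is antitone on `σ ≤ 0` (`ZZ_der`), so `|ZZ| ≤ DD`.  `NJ_eq`: `lommel` and
integration by parts of `(exp (2 σ) * JJ ^ 2)'`.
`gap5`: let `r = 11 / 25`, `s = log r`, `g = f - c * JJ` with `g s = 0`.  On `σ < s` the function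
`σ ↦ g (σ + s)` is `V1`, so `V1.ground` gives `jj ^ 2 / r ^ 2 * ∫ exp (2 σ) g ^ 2 ≤ ∫ g' ^ 2` and
`1 / r ^ 2 ≥ 5`.  On `s < σ < 0` use the Riccati identity with the logarithmic derivative `ψ` of
`exp (-σ / 2) * sin (k * (1 + δ - exp σ))`, for instance `r = 447 / 1000`, `k = 28 / 5`,
`δ = 1 / 250` (the sine is positive on the closed interval):
`ψ' + ψ ^ 2 = 1 / 4 - k ^ 2 * exp (2 σ) ≤ -(k ^ 2 - 1 / (4 r ^ 2)) * exp (2 σ)`, and
`k ^ 2 - 1 / (4 r ^ 2) ≥ 30 ≥ 5 * jj ^ 2`.  Finally `D g = D f + c ^ 2 jj ^ 2 NJ`,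
`N g = N f + c ^ 2 NJ` (`V1.B_JJ`, `DJ_eq`). -/

set_option autoImplicit false

namespace Pool.Agent.Work.MP_267827_an.PS

open MeasureTheory Set Filter Topology Real

theorem WG_j2 : 5.783 < jj ^ 2 ∧ jj ^ 2 < 5.7833 := by
  constructor <;> linarith only [jj_lt, lt_jj, mul_pos_of_neg_of_neg (Mathlib.Tactic.Linarith.sub_neg_of_lt jj_lt) (Mathlib.Tactic.Linarith.sub_neg_of_lt jj_lt), mul_pos_of_neg_of_neg (Mathlib.Tactic.Linarith.sub_neg_of_lt jj_lt) (Mathlib.Tactic.Linarith.sub_neg_of_lt lt_jj)]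

theorem ZZ_ge {σ : ℝ} (h : σ ≤ 0) : -DD ≤ ZZ σ := by
  have : AntitoneOn ZZ (Iic 0) :=
    antitoneOn_of_deriv_nonpos (convex_Iic 0)
      (fun s _ => (ZZ_der s).continuousAt.continuousWithinAt)
      (fun s _ => (ZZ_der s).differentiableAt.differentiableWithinAt) fun s hs => by
        rw [interior_Iic] at hs
        have := JJ_nonneg (le_of_lt hs)
        rw [(ZZ_der s).deriv, neg_nonpos]
        positivity
  simpa [DD] using this h self_mem_Iic h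

theorem JJ_le_DD {σ : ℝ} (h : σ ≤ 0) : JJ σ ≤ DD * |σ| := by
  have hd : ∀ s, HasDerivAt (fun s => JJ s + DD * s) (ZZ s + DD) s := fun s =>
    ((JJ_der s).add ((hasDerivAt_id s).const_mul DD)).congr_deriv (by ring)
  have : MonotoneOn (fun s => JJ s + DD * s) (Iic 0) :=
    monotoneOn_of_deriv_nonneg (convex_Iic 0) (fun s _ => (hd s).continuousAt.continuousWithinAt)
      (fun s _ => (hd s).differentiableAt.differentiableWithinAt) fun s hs => by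
        rw [interior_Iic] at hs
        rw [(hd s).deriv]
        linarith [ZZ_ge (le_of_lt hs)]
  have := this h self_mem_Iic h
  simp only [JJ_zero] at this
  rw [abs_of_nonpos h]
  linarith

theorem JJ_sq_le {σ : ℝ} (h : σ ≤ 0) : JJ σ ^ 2 ≤ DD ^ 2 * σ ^ 2 := by
  have := pow_le_pow_left₀ (JJ_nonneg h) (JJ_le_DD h) 2
  rwa [mul_pow, sq_abs] at this

theorem NJ_eq : 2 * jj ^ 2 * NJ = DD ^ 2 := by
  have i1 : Integrable (fun σ => exp (2 * σ) * JJ σ ^ 2) m0 := v1_JJ.intN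
  have i2 : Integrable (fun σ => exp (2 * σ) * (JJ σ * ZZ σ)) m0 :=
    (b0_JJ.mul b0_ZZ).int_mul (int_exp two_pos)
  have := ftc0 (Φ := fun σ => exp (2 * σ) * (JJ σ * JJ σ))
    (Φ' := fun σ => 2 * (exp (2 * σ) * JJ σ ^ 2) + 2 * (exp (2 * σ) * (JJ σ * ZZ σ)))
    (fun σ _ => ((hasDerivAt_exp_mul 2 σ).mul ((JJ_der σ).mul (JJ_der σ))).congr_deriv
      (by simp only [Pi.mul_apply]; ring))
    (iadd (i1.const_mul 2) (i2.const_mul 2))
    (tendsto_bot_exp (K := 1) zero_le_one fun σ hσ => by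
      have h1 := abs_JJ_le σ
      have h2 := exp2_le hσ.le
      rw [abs_mul, abs_mul, abs_of_pos (exp_pos _)]
      linarith only [h2, h1, abs_nonneg (JJ σ), exp_pos (2 * σ), mul_le_one₀ h1 (abs_nonneg _) h1, mul_nonneg_of_nonpos_of_nonpos (le_of_lt (Mathlib.Tactic.Linarith.sub_neg_of_lt (exp_pos ((2 : ℝ) * σ)))) (Mathlib.Tactic.Linarith.sub_nonpos_of_le (mul_le_one₀ h1 (abs_nonneg (JJ σ)) h1))])
    (tendsto_left (by fun_prop))
  rw [integral_add (i1.const_mul 2) (i2.const_mul 2), integral_const_mul, integral_const_mul,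
    JJ_zero] at this
  have l := lommel
  unfold NJ
  linear_combination jj ^ 2 * this - l

theorem WG_split {g : ℝ → ℝ} (hg : Integrable g m0) {a : ℝ} (ha : a ≤ 0) :
    ∫ s, g s ∂m0 = (∫ s in Iio a, g s) + ∫ s in a..0, g s := by
  have h0 : IntegrableOn g (Iic 0) := (integrableOn_Iic_iff_integrableOn_Iio).2 hg
  have := intervalIntegral.integral_Iic_sub_Iic (h0.mono_set (Iic_subset_Iic.2 ha)) h0
  simp only [integral_Iic_eq_integral_Iio] at this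
  linarith only [this]

theorem WG_shift (F : ℝ → ℝ) (s : ℝ) : ∫ σ, F (σ + s) ∂m0 = ∫ σ in Iio s, F σ := by
  have := (measurePreserving_add_right volume s).setIntegral_preimage_emb
    (measurableEmbedding_addRight s) F (Iio s)
  rw [← this]
  congr 2
  ext σ
  simp

theorem WG_in {g g' : ℝ → ℝ} (h : V1 g g') {s : ℝ} (hs : s < 0) (h0 : g s = 0) :
    jj ^ 2 * exp (-(2 * s)) * ∫ σ in Iio s, exp (2 * σ) * g σ ^ 2 ≤ ∫ σ in Iio s, g' σ ^ 2 := by
  obtain ⟨K, K0, hK⟩ := h.bd'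
  have n : ∀ σ, σ ≤ 0 → σ + s < 0 := fun σ hσ => by linarith
  have v : V1 (fun σ => g (σ + s)) fun σ => g' (σ + s) :=
    V1.of_der (fun σ hσ => (h.der _ (n σ hσ)).comp_add_const σ s)
      (h.cont.comp (by fun_prop) fun σ hσ => n σ hσ) (by simpa using h0) (K := K) fun σ hσ =>
        (hK _ (n σ hσ)).2.2.trans (mul_le_mul_of_nonneg_left (exp_le_exp.2 (by linarith)) K0)
  have := v.ground
  rw [WG_shift (fun σ => g' σ ^ 2)] at this
  rw [← WG_shift, mul_assoc, ← integral_const_mul]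
  refine le_of_eq_of_le ?_ this
  congr 2
  ext σ
  rw [← mul_assoc, ← exp_add]
  congr 2
  ring

theorem WG_out {g g' : ℝ → ℝ} (h : V1 g g') {s lam : ℝ} (hs : s < 0) (h0 : g s = 0) {ψ ψ' : ℝ → ℝ}
    (hd : ∀ σ ∈ Icc s 0, HasDerivAt ψ (ψ' σ) σ) (hc : ContinuousOn ψ' (Icc s 0))
    (hl : ∀ σ ∈ Icc s 0, ψ' σ + ψ σ ^ 2 ≤ -(lam * exp (2 * σ))) :
    lam * ∫ σ in s..0, exp (2 * σ) * g σ ^ 2 ≤ ∫ σ in s..0, g' σ ^ 2 := by
  have ii : ∀ {F : ℝ → ℝ}, Integrable F m0 → IntervalIntegrable F volume s 0 := fun hF =>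
    (intervalIntegrable_iff_integrableOn_Ioo_of_le hs.le).2
      (IntegrableOn.mono_set hF fun _ h => h.2)
  have cψ : ContinuousOn ψ (Icc s 0) := fun σ hσ => (hd σ hσ).continuousAt.continuousWithinAt
  have i1 := ii h.intN
  have i2 := ii h.intD
  have i3 := ii (h.b0.mul_int h.int')
  have i4 : IntervalIntegrable (fun σ => ψ' σ * exp (-(2 * σ)) * (exp (2 * σ) * g σ ^ 2) +
      2 * ψ σ * (g σ * g' σ)) volume s 0 :=
    (i1.continuousOn_mul (by rw [uIcc_of_le hs.le]; fun_prop)).add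
      (i3.continuousOn_mul (by rw [uIcc_of_le hs.le]; fun_prop))
  have e : ∀ σ : ℝ, exp (-(2 * σ)) * exp (2 * σ) = 1 := fun σ => by rw [← exp_add]; simp
  obtain ⟨K, K0, hK⟩ := h.bd'
  have t0 : Tendsto g (𝓝[<] 0) (𝓝 0) := tendsto_zero_of_le fun σ _ hσ => (hK σ hσ).2.1
  have f := intervalIntegral.integral_eq_sub_of_hasDerivAt_of_tendsto hs
    (f := fun σ => ψ σ * (g σ * g σ)) (fa := ψ s * (g s * g s)) (fb := ψ 0 * (0 * 0))
    (fun σ hσ => ((hd σ (Ioo_subset_Icc_self hσ)).mul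
      ((h.der σ hσ.2).mul (h.der σ hσ.2))).congr_deriv (by
        simp only [Pi.mul_apply]
        linear_combination (-ψ' σ * g σ ^ 2) * e σ)) i4
    (((hd s ⟨le_rfl, hs.le⟩).continuousAt.mul ((h.der s hs).continuousAt.mul
      (h.der s hs).continuousAt)).tendsto.mono_left nhdsWithin_le_nhds)
    (((hd 0 ⟨hs.le, le_rfl⟩).continuousAt.tendsto.mono_left nhdsWithin_le_nhds).mul (t0.mul t0))
  have m := intervalIntegral.integral_mono_on hs.le i4 (i2.sub (i1.const_mul lam)) fun σ hσ => by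
    have h1 := mul_le_mul_of_nonneg_right (hl σ hσ) (sq_nonneg (g σ))
    have h2 : ψ' σ * exp (-(2 * σ)) * (exp (2 * σ) * g σ ^ 2) = ψ' σ * g σ ^ 2 := by
      linear_combination (ψ' σ * g σ ^ 2) * e σ
    rw [h2]
    linarith only [h1, sq_nonneg (g' σ - ψ σ * g σ), sq_nonneg (g' σ - ψ σ * g σ)]
  rw [f, h0, intervalIntegral.integral_sub i2 (i1.const_mul lam),
    intervalIntegral.integral_const_mul] at m
  linarith

theorem WG_ric {g g' : ℝ → ℝ} (h : V1 g g') {s : ℝ} (hs : s < 0) (hr : exp s = 447 / 1000)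
    (h0 : g s = 0) : 30 * ∫ σ in s..0, exp (2 * σ) * g σ ^ 2 ≤ ∫ σ in s..0, g' σ ^ 2 := by
  have b : ∀ σ ∈ Icc s 0, 447 / 1000 ≤ exp σ ∧ exp σ ≤ 1 := fun σ hσ =>
    ⟨hr ▸ exp_le_exp.2 hσ.1, exp_le_one_iff.2 hσ.2⟩
  have p : ∀ σ ∈ Icc s 0, sin (28 / 5 * (251 / 250 - exp σ)) ≠ 0 := fun σ hσ =>
    (sin_pos_of_pos_of_lt_pi (by linarith only [b, hσ, (b σ hσ).2])
      (by linarith only [b, hσ, (b σ hσ).1, pi_gt_d2])).ne'
  refine WG_out h hs h0
    (ψ := fun σ => -(1 / 2) - 28 / 5 * exp σ *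
      (cos (28 / 5 * (251 / 250 - exp σ)) / sin (28 / 5 * (251 / 250 - exp σ))))
    (ψ' := fun σ => 1 / 4 - (28 / 5) ^ 2 * exp σ ^ 2 - (-(1 / 2) - 28 / 5 * exp σ *
      (cos (28 / 5 * (251 / 250 - exp σ)) / sin (28 / 5 * (251 / 250 - exp σ)))) ^ 2)
    (fun σ hσ => ?_) ?_ fun σ hσ => ?_
  · have d := ((hasDerivAt_exp σ).const_sub (251 / 250)).const_mul (28 / 5)
    refine ((((hasDerivAt_exp σ).const_mul (28 / 5)).mul
      (d.cos.div d.sin (p σ hσ))).const_sub (-(1 / 2))).congr_deriv ?_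
    have q := p σ hσ
    simp only [Pi.div_apply]
    generalize sin (28 / 5 * (251 / 250 - exp σ)) = S at *
    generalize cos (28 / 5 * (251 / 250 - exp σ)) = C at *
    field_simp
    ring
  · exact ContinuousOn.sub (by fun_prop) ((continuousOn_const.sub (ContinuousOn.mul (by fun_prop)
      (ContinuousOn.div (by fun_prop) (by fun_prop) p))).pow 2)
  · rw [← exp_sq]
    linarith only [b, hσ, (b σ hσ).1, mul_nonneg_of_nonpos_of_nonpos (Mathlib.Tactic.Linarith.sub_nonpos_of_le (b σ hσ).left) (Mathlib.Tactic.Linarith.sub_nonpos_of_le (b σ hσ).left)]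

theorem gap5 {f f' : ℝ → ℝ} (h : V1 f f') (ho : ∫ σ, exp (2 * σ) * (JJ σ * f σ) ∂m0 = 0) :
    5 * jj ^ 2 * ∫ σ, exp (2 * σ) * f σ ^ 2 ∂m0 ≤ ∫ σ, f' σ ^ 2 ∂m0 := by
  obtain ⟨s, hr⟩ : ∃ s, exp s = 447 / 1000 := ⟨_, exp_log (by norm_num)⟩
  have hs : s < 0 := exp_lt_one_iff.1 (by rw [hr]; norm_num)
  have J0 := JJ_pos hs
  obtain ⟨c, hc⟩ : ∃ c, c * JJ s + f s = 0 := ⟨-(f s / JJ s), by field_simp; ring⟩
  have v := V1.lin c v1_JJ h
  have h1 := WG_in v hs hc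
  have h2 := WG_ric v hs hr hc
  have h3 := WG_split v.intN hs.le
  have h4 := WG_split v.intD hs.le
  have e : exp (-(2 * s)) = (1000 / 447) ^ 2 := by rw [exp_neg, ← exp_sq, hr]; norm_num
  have n1 : 0 ≤ ∫ σ in Iio s, exp (2 * σ) * (c * JJ σ + f σ) ^ 2 :=
    integral_nonneg fun _ => by positivity
  have n2 : 0 ≤ ∫ σ in s..0, exp (2 * σ) * (c * JJ σ + f σ) ^ 2 :=
    intervalIntegral.integral_nonneg hs.le fun _ _ => by positivity
  have h5 : ∫ σ, ZZ σ * f' σ ∂m0 = 0 := by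
    have := h.B_JJ
    rw [ho, mul_zero] at this
    simpa only [mul_comm] using this
  rw [int_sq_add _ v1_JJ.intN (v1_JJ.intNN h) h.intN, ho] at h3
  rw [int_sq_add' _ v1_JJ.intD (v1_JJ.intDD h) h.intD, DJ_eq, h5] at h4
  rw [e] at h1
  change c ^ 2 * NJ + _ + _ = _ at h3
  have n3 : 0 ≤ jj ^ 2 * (c ^ 2 * NJ) := by have := NJ_pos; positivity
  linarith only [h1, h2, h4, n2, n3, n1, h3, mul_nonneg (sq_nonneg jj) n1, mul_nonneg (sub_nonneg.2 WG_j2.2.le) n2, sq_nonneg jj, Mathlib.Tactic.Linarith.mul_zero_eq (Mathlib.Tactic.Linarith.sub_nonpos_of_le (sq_nonneg jj)) (sub_eq_zero_of_eq h3)]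

end Pool.Agent.Work.MP_267827_an.PS
end

-- merged part: Pool.Agent.Work.MP_267827_an.PS.WH
section
/-! Coercivity on the complement of the ground state.

`coer`: for every `t` let `c t = (∫ exp (2 σ) JJ w (σ, t)) / NJ` (`VV.proj`); `gap5` for
`w (., t) - c t * JJ` gives `N ≤ D / (5 jj ^ 2) + 4 / 5 * c ^ 2 * NJ`; `∫ c = 0`, `poincare` (WC.lean), and
`c' ^ 2 * NJ ≤ ∫ exp (2 σ) (dt w) ^ 2 ≤ ∫ (dt w) ^ 2` by `cs`. -/

set_option autoImplicit false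

namespace Pool.Agent.Work.MP_267827_an.PS

open MeasureTheory Set Filter Topology Real

/-- the gap inequality with a rank one correction -/
theorem gap5' {f f' : ℝ → ℝ} (h : V1 f f') :
    5 * jj ^ 2 * ∫ σ, exp (2 * σ) * f σ ^ 2 ∂m0 ≤ (∫ σ, f' σ ^ 2 ∂m0) +
      4 * jj ^ 2 / NJ * (∫ σ, f σ * (exp (2 * σ) * JJ σ) ∂m0) ^ 2 := by
  have n0 := NJ_pos
  obtain ⟨P, hP⟩ : ∃ P, P = ∫ σ, exp (2 * σ) * (JJ σ * f σ) ∂m0 := ⟨_, rfl⟩
  have h1 := gap5 (V1.lin (-(P / NJ)) v1_JJ h) (by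
    have : ∀ σ, exp (2 * σ) * (JJ σ * (-(P / NJ) * JJ σ + f σ)) =
        -(P / NJ) * (exp (2 * σ) * JJ σ ^ 2) + exp (2 * σ) * (JJ σ * f σ) := fun σ => by ring
    simp only [this]
    rw [integral_add (v1_JJ.intN.const_mul _) (v1_JJ.intNN h), integral_const_mul, ← hP]
    change -(P / NJ) * NJ + P = 0
    field_simp
    ring)
  rw [int_sq_add _ v1_JJ.intN (v1_JJ.intNN h) h.intN,
    int_sq_add' _ v1_JJ.intD (v1_JJ.intDD h) h.intD, DJ_eq, ← hP] at h1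
  have h2 : ∫ σ, ZZ σ * f' σ ∂m0 = jj ^ 2 * P := by
    rw [hP, ← h.B_JJ]; simp only [mul_comm]
  have h3 : ∫ σ, f σ * (exp (2 * σ) * JJ σ) ∂m0 = P := by
    rw [hP]; congr 1; ext σ; ring
  rw [h2] at h1
  rw [h3]
  change 5 * jj ^ 2 * ((-(P / NJ)) ^ 2 * NJ + _ + _) ≤ _ at h1
  have e1 : (-(P / NJ)) ^ 2 * NJ = P ^ 2 / NJ := by field_simp
  have e2 : (-(P / NJ)) ^ 2 * (jj ^ 2 * NJ) = jj ^ 2 * (P ^ 2 / NJ) := by field_simp
  have e3 : 2 * -(P / NJ) * P = -2 * (P ^ 2 / NJ) := by ring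
  have e4 : 2 * -(P / NJ) * (jj ^ 2 * P) = -2 * jj ^ 2 * (P ^ 2 / NJ) := by ring
  have e5 : 4 * jj ^ 2 / NJ * P ^ 2 = 4 * jj ^ 2 * (P ^ 2 / NJ) := by ring
  rw [e1, e2, e3, e4] at h1
  rw [e5]
  linarith only [h1]

theorem coer {w : ℝ × ℝ → ℝ} (h : VV w) (ho : Ort w) :
    N0 w ≤ Ds w / (5 * jj ^ 2) + 4 / 5 * (Dt w / π ^ 2) := by
  have n0 := NJ_pos
  have j0 := jj_pos
  obtain ⟨c1, c2, d, r⟩ := h.proj (w := fun σ => exp (2 * σ) * JJ σ)
    (Continuous.aestronglyMeasurable (by fun_prop)) (C := 1) fun σ _ => by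
      rw [abs_mul, abs_of_pos (exp_pos _), one_mul]
      exact mul_le_of_le_one_right (exp_pos _).le (abs_JJ_le σ)
  have iJ : Integrable (fun p : ℝ × ℝ => w p * (exp (2 * p.1) * JJ p.1)) nu :=
    (v1_JJ.toVV.1.int_N h).congr (Eventually.of_forall fun p => by simp only; ring)
  have m : ∫ t, (∫ σ, w (σ, t) * (exp (2 * σ) * JJ σ) ∂m0) ∂m1 = 0 := by
    rw [← (nu_fub iJ).2, ← ho]
    congr 1; ext p; simp only [JV]; ring
  have hp := poincare c1 c2 d m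
  have e4 : ∀ σ, (exp (2 * σ) * JJ σ) ^ 2 = exp (2 * σ) * (exp (2 * σ) * JJ σ ^ 2) := fun σ => by
    ring
  have iq : Integrable (fun σ => (exp (2 * σ) * JJ σ) ^ 2) m0 := by
    simp only [e4]; exact (b0_exp zero_le_two).mul_int v1_JJ.intN
  have n4 : ∫ σ, (exp (2 * σ) * JJ σ) ^ 2 ∂m0 ≤ NJ :=
    integral_mono_ae iq v1_JJ.intN (ae_m0 fun σ hσ => by
      simp only [e4]
      exact mul_le_of_le_one_left (by positivity) (exp_le_one' zero_le_two hσ))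
  obtain ⟨it, vt⟩ := nu_fub h.int_t
  have hq : ∫ t, (∫ σ, dt w (σ, t) * (exp (2 * σ) * JJ σ) ∂m0) ^ 2 ∂m1 ≤ NJ * Dt w := by
    rw [Dt, vt, ← integral_const_mul]
    refine integral_mono_ae (m1_int (c2.pow 2)) (it.const_mul _) (TwoD_ae1 fun t ht => ?_)
    obtain ⟨-, a2, a3, -⟩ := r t (Ioo_subset_Icc_self ht)
    refine (cs a3 iq a2).trans ?_
    rw [mul_comm]
    exact mul_le_mul_of_nonneg_right n4 (integral_nonneg fun _ => sq_nonneg _)
  obtain ⟨i1, v1⟩ := nu_fub h.int_N2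
  obtain ⟨i2, v2⟩ := nu_fub h.int_s
  have main : 5 * jj ^ 2 * N0 w ≤ Ds w + 4 * jj ^ 2 / NJ *
      ∫ t, (∫ σ, w (σ, t) * (exp (2 * σ) * JJ σ) ∂m0) ^ 2 ∂m1 := by
    have i3 : Integrable (fun t => (∫ σ, w (σ, t) * (exp (2 * σ) * JJ σ) ∂m0) ^ 2) m1 :=
      m1_int (c1.pow 2)
    rw [N0, Ds, v1, v2, ← integral_const_mul, ← integral_const_mul,
      ← integral_add i2 (i3.const_mul _)]
    exact integral_mono_ae (i1.const_mul _) (iadd i2 (i3.const_mul _))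
      (TwoD_ae1 fun t ht => gap5' (h.slice (Ioo_subset_Icc_self ht)))
  have h1 := mul_le_mul_of_nonneg_left (hp.trans (div_le_div_of_nonneg_right hq (sq_nonneg _)))
    (show 0 ≤ 4 * jj ^ 2 / NJ by positivity)
  have e : 4 * jj ^ 2 / NJ * (NJ * Dt w / π ^ 2) = 4 * jj ^ 2 * (Dt w / π ^ 2) := by field_simp
  rw [← sub_le_iff_le_add, le_div_iff₀ (by positivity)]
  linarith only [main, h1, e]

end Pool.Agent.Work.MP_267827_an.PS
end

-- merged part: Pool.Agent.Work.MP_267827_an.PS.WI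
section
/-! The integrals of the series of squares.

Integrate term by term (`integral_tsum` or `hasSum_integral_of_summable_integral_norm`), with
`TT_le` for `k ≥ 2`, `TT_first` for `k = 1`, and
`∫ exp (c σ) σ ^ 2 * exp (2 k σ / x) * (k |σ| / x) ^ i = x ^ 3 * k ^ i * (i + 2)! / C ^ (i + 3)`,
`C = 2 k + c x`.  For `k ≥ 2` use `k ≤ C / 2` and `16 x ≤ 4`: the terms are at most
`8 x ^ 5 / C ^ 3`, `4 * 14 * x ^ 3 / C ^ 3`, `740 x / C ^ 3` for `j = 0, 1, 2`;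
`x / C ^ 3` increases with `x ≤ 1 / 4`, and
`1 / (k + a) ^ 3 ≤ (1 / (k + a - 1 / 2) ^ 2 - 1 / (k + a + 1 / 2) ^ 2) / 2` telescopes (keep `k = 2`).
For `k = 1` the terms are `8 x ^ 5 / C ^ 3`, `4 x ^ 3 (2 / C ^ 3 + 12 / C ^ 4 + 24 / C ^ 5)`,
`2880 x / C ^ 7`; their maxima over `x ≤ 1 / 4` after division by `x ^ 4, x ^ 2, 1` are
`0.128, 0.681, 1.275` for `c = 2`; `0.0741, 0.3475, 0.637` for `c = 4`;
`0.03125, 0.102, 0.056` for `c = 4 + 1 / x`.  The totals obtained in this way are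
`0.1665, 0.951, 4.84`; `0.104, 0.557, 3.41`; `0.0507, 0.239, 1.86`. -/

set_option autoImplicit false

namespace Pool.Agent.Work.MP_267827_an.PS

open MeasureTheory Set Filter Topology Real

variable {x : ℝ}

theorem WI_mom {a : ℝ} (ha : 0 < a) (m : ℕ) :
    Integrable (fun σ => exp (a * σ) * (-σ) ^ m) m0 ∧
      ∫ σ, exp (a * σ) * (-σ) ^ m ∂m0 = m.factorial / a ^ (m + 1) := by
  have hk : (0 : ℝ) < m + 1 := by positivity
  have e : ∫ σ, exp (a * σ) * (-σ) ^ m ∂m0 = m.factorial / a ^ (m + 1) := by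
    have h1 := integral_comp_neg_Iic 0 (fun t : ℝ => t ^ ((m + 1 : ℝ) - 1) * exp (-(a * t)))
    rw [neg_zero, integral_rpow_mul_exp_neg_mul_Ioi hk ha, integral_Iic_eq_integral_Iio,
      Gamma_nat_eq_factorial, add_sub_cancel_right, ← Nat.cast_succ, rpow_natCast] at h1
    simp only [rpow_natCast, mul_neg, neg_neg] at h1
    rw [show (m.factorial : ℝ) / a ^ (m + 1) = (1 / a) ^ m.succ * m.factorial by
      rw [one_div, inv_pow, div_eq_inv_mul], ← h1]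
    exact integral_congr_ae (Eventually.of_forall fun σ => mul_comm _ _)
  exact ⟨.of_integral_ne_zero (by rw [e]; positivity), e⟩

/-- the monomials in the boundary layer variable -/
noncomputable def WI_g (c K x : ℝ) (i : ℕ) (σ : ℝ) : ℝ :=
  exp (c * σ) * σ ^ 2 * (exp (-(-(K * σ / x))) ^ 2 * (-(K * σ / x)) ^ i)

theorem WI_y (hx : 0 < x) {c K : ℝ} (hc : 0 ≤ c) (hK : 0 < K) (i : ℕ) :
    Integrable (WI_g c K x i) m0 ∧ ∫ σ, WI_g c K x i σ ∂m0 =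
      x ^ 3 / (2 * K + c * x) ^ 3 * ((i + 2).factorial * (K / (2 * K + c * x)) ^ i) := by
  have hC : 0 < 2 * K + c * x := by positivity
  obtain ⟨h1, h2⟩ := WI_mom (div_pos hC hx) (i + 2)
  have e : WI_g c K x i =
      fun σ => (K / x) ^ i * (exp ((2 * K + c * x) / x * σ) * (-σ) ^ (i + 2)) := by
    funext σ
    have e1 : (2 * K + c * x) / x * σ = c * σ + (K * σ / x + K * σ / x) := by
      field_simp
      ring
    have e2 : -(K * σ / x) = K / x * -σ := by ring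
    rw [WI_g, neg_neg, e1, exp_add, exp_add, e2, mul_pow]
    ring
  rw [e]
  refine ⟨h1.const_mul _, ?_⟩
  rw [integral_const_mul, h2]
  simp only [div_pow]
  field_simp
  ring

theorem WI_term (hx : 0 < x) {c K : ℝ} (hc : 0 ≤ c) (hK : 0 < K) {T : ℝ → ℝ} (hT : Continuous T)
    {p₀ p₁ p₂ p₃ p₄ : ℝ} (hb : ∀ σ y : ℝ, σ < 0 → y = -(K * σ / x) →
      T σ ^ 2 ≤ exp (-y) ^ 2 * (p₀ + p₁ * y + p₂ * y ^ 2 + p₃ * y ^ 3 + p₄ * y ^ 4))
    {r : ℝ} (hr : r = K / (2 * K + c * x)) :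
    Integrable (fun σ => exp (c * σ) * σ ^ 2 * T σ ^ 2) m0 ∧
      ∫ σ, exp (c * σ) * σ ^ 2 * T σ ^ 2 ∂m0 ≤ x ^ 3 / (2 * K + c * x) ^ 3 *
        (2 * p₀ + 6 * p₁ * r + 24 * p₂ * r ^ 2 + 120 * p₃ * r ^ 3 + 720 * p₄ * r ^ 4) := by
  have i0 := (WI_y hx hc hK 0).1.const_mul p₀
  have i1 := (WI_y hx hc hK 1).1.const_mul p₁
  have i2 := (WI_y hx hc hK 2).1.const_mul p₂
  have i3 := (WI_y hx hc hK 3).1.const_mul p₃
  have i4 := (WI_y hx hc hK 4).1.const_mul p₄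
  have a1 : Integrable (fun σ => p₀ * WI_g c K x 0 σ + p₁ * WI_g c K x 1 σ) m0 := i0.add i1
  have a2 : Integrable (fun σ => p₀ * WI_g c K x 0 σ + p₁ * WI_g c K x 1 σ +
      p₂ * WI_g c K x 2 σ) m0 := a1.add i2
  have a3 : Integrable (fun σ => p₀ * WI_g c K x 0 σ + p₁ * WI_g c K x 1 σ +
      p₂ * WI_g c K x 2 σ + p₃ * WI_g c K x 3 σ) m0 := a2.add i3
  have a4 : Integrable (fun σ => p₀ * WI_g c K x 0 σ + p₁ * WI_g c K x 1 σ +
      p₂ * WI_g c K x 2 σ + p₃ * WI_g c K x 3 σ + p₄ * WI_g c K x 4 σ) m0 := a3.add i4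
  have hle : ∀ᵐ σ ∂m0, exp (c * σ) * σ ^ 2 * T σ ^ 2 ≤ p₀ * WI_g c K x 0 σ + p₁ * WI_g c K x 1 σ +
      p₂ * WI_g c K x 2 σ + p₃ * WI_g c K x 3 σ + p₄ * WI_g c K x 4 σ := ae_m0 fun σ hσ => by
    refine (mul_le_mul_of_nonneg_left (hb σ _ hσ rfl) (by positivity)).trans_eq ?_
    simp only [WI_g]
    ring
  have hI : Integrable (fun σ => exp (c * σ) * σ ^ 2 * T σ ^ 2) m0 := by
    refine a4.mono' (Continuous.aestronglyMeasurable (by fun_prop)) ?_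
    filter_upwards [hle] with σ h1
    rwa [norm_eq_abs, abs_of_nonneg (by positivity)]
  refine ⟨hI, (integral_mono_ae hI a4 hle).trans_eq ?_⟩
  rw [integral_add a3 i4, integral_add a2 i3, integral_add a1 i2, integral_add i0 i1]
  simp only [integral_const_mul, (WI_y hx hc hK _).2, ← hr]
  norm_num [Nat.factorial]
  ring

theorem WI_sum {F : ℕ → ℝ → ℝ} (hm : ∀ k, Measurable (F k)) (hi : ∀ k, Integrable (F k) m0)
    (h0 : ∀ k σ, 0 ≤ F k σ) {u : ℕ → ℝ} {B : ℝ} (hu : ∀ k, 0 ≤ u k)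
    (h1 : ∫ σ, F 0 σ ∂m0 ≤ B) (h2 : ∀ k, ∫ σ, F (k + 1) σ ∂m0 ≤ u k - u (k + 1)) :
    Integrable (fun σ => ∑' k, F k σ) m0 ∧ ∫ σ, ∑' k, F k σ ∂m0 ≤ B + u 0 := by
  have p : ∀ k, 0 ≤ ∫ σ, F k σ ∂m0 := fun k => integral_nonneg (h0 k)
  have hs : ∀ n, ∑ k ∈ Finset.range n, ∫ σ, F k σ ∂m0 ≤ B + u 0 := by
    intro n
    rcases n with _ | n
    · have := p 0
      have := hu 0
      simp only [Finset.range_zero, Finset.sum_empty]
      linarith
    · have h3 := Finset.sum_le_sum fun k (_ : k ∈ Finset.range n) => h2 k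
      rw [Finset.sum_range_sub'] at h3
      rw [Finset.sum_range_succ']
      linarith [hu n]
  have hS := summable_of_sum_range_le p hs
  have e : ∀ k, ∫ σ, ‖F k σ‖ ∂m0 = ∫ σ, F k σ ∂m0 := fun k =>
    integral_congr_ae (Eventually.of_forall fun σ => norm_of_nonneg (h0 k σ))
  refine ⟨⟨(Measurable.tsum hm).aestronglyMeasurable, ?_⟩, ?_⟩
  · refine (lintegral_mono fun σ => enorm_tsum_le_tsum_enorm).trans_lt ?_
    rw [lintegral_tsum fun k => (hm k).enorm.aemeasurable]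
    simp only [← ofReal_integral_norm_eq_lintegral_enorm (hi _), e]
    rw [← ENNReal.ofReal_tsum_of_nonneg p hS]
    exact ENNReal.ofReal_lt_top
  · rw [← integral_tsum_of_summable_integral_norm hi (by simpa only [e] using hS)]
    exact hS.tsum_le_of_sum_range_le hs

theorem WI_frac (n : ℕ) (z : ℝ) {C M : ℝ} (hz : 0 ≤ z) (hC : 0 < C) (hM : 0 ≤ M)
    (h : x ≤ M * (z ^ n + n * z ^ (n - 1) * (C - z))) : x / C ^ n ≤ M := by
  have h1 := pow_add_mul_le_add_pow (a := z) (b := C - z) hz (by linarith) n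
  rw [add_sub_cancel] at h1
  rw [div_le_iff₀ (by positivity)]
  exact h.trans (mul_le_mul_of_nonneg_left h1 hM)

theorem WI_tel (hx : 0 < x) (h : x ≤ 1 / 4) {z C : ℝ} (hz : 4 ≤ z) (hC : z - 1 + 4 * x ≤ C) :
    x / C ^ 3 ≤ 1 / (16 * z ^ 2 - 32 * z + 30) - 1 / (16 * (z + 2) ^ 2 - 32 * (z + 2) + 30) := by
  have z0 : 0 < z := by linarith only [hx, h, hz]
  have h1 : x / C ^ 3 ≤ x / (z - 1 + 4 * x) ^ 3 := by
    have : 0 < z - 1 + 4 * x := by linarith only [hx, h, hz]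
    gcongr
  have h2 : x / (z - 1 + 4 * x) ^ 3 ≤ 1 / (4 * z ^ 3) := by
    refine WI_frac 3 z z0.le (by linarith only [hx, h, hz]) (by positivity) ?_
    have e : 1 / (4 * z ^ 3) * (z ^ 3 + (3 : ℕ) * z ^ (3 - 1) * (z - 1 + 4 * x - z)) =
        1 / 4 - 3 / z * (1 / 4 - x) := by
      push_cast
      field_simp
      ring
    have h3 : 3 / z ≤ 1 := by
      rw [div_le_one z0]
      linarith only [hx, h, hz]
    rw [e]
    linarith only [h, h3, mul_nonneg_of_nonpos_of_nonpos (Mathlib.Tactic.Linarith.sub_nonpos_of_le h) (Mathlib.Tactic.Linarith.sub_nonpos_of_le h3)]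
  have d1 : 0 < 16 * z ^ 2 - 32 * z + 30 := by linarith only [h, hz, hx, mul_pos_of_neg_of_neg (Mathlib.Tactic.Linarith.sub_neg_of_lt hx) (Mathlib.Tactic.Linarith.sub_neg_of_lt hx), mul_nonneg_of_nonpos_of_nonpos (le_of_lt (Mathlib.Tactic.Linarith.sub_neg_of_lt hx)) (Mathlib.Tactic.Linarith.sub_nonpos_of_le h), mul_nonneg_of_nonpos_of_nonpos (Mathlib.Tactic.Linarith.sub_nonpos_of_le hz) (Mathlib.Tactic.Linarith.sub_nonpos_of_le hz)]
  have d2 : 0 < 16 * (z + 2) ^ 2 - 32 * (z + 2) + 30 := by linarith only [hx, h, hz, d1]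
  refine h1.trans (h2.trans ?_)
  rw [div_sub_div _ _ d1.ne' d2.ne', div_le_div_iff₀ (by positivity) (mul_pos d1 d2)]
  linarith only [h, hz, hx, mul_pos_of_neg_of_neg (Mathlib.Tactic.Linarith.sub_neg_of_lt hx) (Mathlib.Tactic.Linarith.sub_neg_of_lt hx), mul_nonneg_of_nonpos_of_nonpos (le_of_lt (Mathlib.Tactic.Linarith.sub_neg_of_lt hx)) (Mathlib.Tactic.Linarith.sub_nonpos_of_le h), mul_nonneg_of_nonpos_of_nonpos (Mathlib.Tactic.Linarith.sub_nonpos_of_le hz) (Mathlib.Tactic.Linarith.sub_nonpos_of_le hz)]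

theorem WI_tot (hx : 0 < x) (h : x ≤ 1 / 4) {c s W B : ℝ} {j : ℕ} (hs : 0 ≤ s)
    (hc : s - 1 + 4 * x ≤ c * x) (hW : 0 ≤ W)
    (hI : ∀ k : ℕ, Integrable (fun σ => exp (c * σ) * σ ^ 2 * TT j x σ (k + 1) ^ 2) m0 ∧
      ∫ σ, exp (c * σ) * σ ^ 2 * TT j x σ (k + 1) ^ 2 ∂m0 ≤
        W * (x / (2 * (k + 1 : ℕ) + c * x) ^ 3))
    (hB : ∫ σ, exp (c * σ) * σ ^ 2 * TT j x σ 1 ^ 2 ∂m0 ≤ B) :
    Integrable (fun σ => exp (c * σ) * σ ^ 2 * ST j x σ) m0 ∧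
      Iw c j x ≤ B + W * (1 / (16 * (4 + s) ^ 2 - 32 * (4 + s) + 30)) := by
  have key := WI_sum (F := fun k σ => exp (c * σ) * σ ^ 2 * TT j x σ (k + 1) ^ 2)
    (u := fun k => W * (1 / (16 * (2 * k + 4 + s) ^ 2 - 32 * (2 * k + 4 + s) + 30))) (B := B)
    (fun k => by
      have := TT_cont j x (k + 1)
      exact Continuous.measurable (by fun_prop))
    (fun k => (hI k).1) (fun k σ => by positivity)
    (fun k => mul_nonneg hW (one_div_nonneg.2 (by linarith only [hx, h, sq_nonneg (2 * k + 3 + s : ℝ), sq_nonneg ((2 : ℝ) * ↑k + (3 : ℝ) + s)])))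
    hB fun k => by
      have k0 : (0 : ℝ) ≤ k := k.cast_nonneg
      have h1 := WI_tel hx h (z := 2 * k + 4 + s) (C := 2 * (k + 1 + 1 : ℕ) + c * x) (by linarith only [hs])
        (by push_cast; linarith only [hc])
      refine (hI (k + 1)).2.trans ((mul_le_mul_of_nonneg_left h1 hW).trans_eq ?_)
      push_cast
      ring
  simp only [tsum_mul_left, Nat.cast_zero, mul_zero, zero_add] at key
  exact key

theorem WI_sq {a b e : ℝ} (h0 : 0 ≤ a) (h1 : a ≤ e * b) : a ^ 2 ≤ e ^ 2 * b ^ 2 := by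
  rw [← mul_pow]
  exact pow_le_pow_left₀ h0 h1 2

theorem WI_r (hx : 0 < x) {c K : ℝ} (hc : 0 ≤ c) (hK : 0 < K) :
    0 ≤ K / (2 * K + c * x) ∧ K / (2 * K + c * x) ≤ 1 / 2 := by
  refine ⟨by positivity, ?_⟩
  rw [div_le_iff₀ (by positivity)]
  have := mul_nonneg hc hx.le
  linarith only [this]

theorem WI_zero (hx : 0 < x) (h : x ≤ 1 / 4) {c : ℝ} (hc : 0 ≤ c) (k : ℕ) :
    Integrable (fun σ => exp (c * σ) * σ ^ 2 * TT 0 x σ (k + 1) ^ 2) m0 ∧
      ∫ σ, exp (c * σ) * σ ^ 2 * TT 0 x σ (k + 1) ^ 2 ∂m0 ≤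
        8 * x ^ 4 * (x / (2 * (k + 1 : ℕ) + c * x) ^ 3) := by
  have hK : (0 : ℝ) < (k + 1 : ℕ) := by positivity
  obtain ⟨h1, h2⟩ := WI_term hx hc hK (TT_cont 0 x (k + 1)) (p₀ := 4 * x ^ 2) (p₁ := 0) (p₂ := 0)
    (p₃ := 0) (p₄ := 0) (fun σ y hσ hy =>
      (WI_sq (TT_nonneg hx hσ.le 0 k) (TT_le hx h hσ.le k hy).1).trans_eq (by ring)) rfl
  exact ⟨h1, h2.trans_eq (by ring)⟩

theorem WI_one (hx : 0 < x) (h : x ≤ 1 / 4) {c : ℝ} (hc : 0 ≤ c) (k : ℕ) {r : ℝ}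
    (hr : r = (k + 1 : ℕ) / (2 * (k + 1 : ℕ) + c * x)) :
    Integrable (fun σ => exp (c * σ) * σ ^ 2 * TT 1 x σ (k + 1) ^ 2) m0 ∧
      ∫ σ, exp (c * σ) * σ ^ 2 * TT 1 x σ (k + 1) ^ 2 ∂m0 ≤
        x ^ 3 / (2 * (k + 1 : ℕ) + c * x) ^ 3 * (8 + 48 * r + 96 * r ^ 2) := by
  have hK : (0 : ℝ) < (k + 1 : ℕ) := by positivity
  obtain ⟨h1, h2⟩ := WI_term hx hc hK (TT_cont 1 x (k + 1)) (p₀ := 4) (p₁ := 8) (p₂ := 4)
    (p₃ := 0) (p₄ := 0) (fun σ y hσ hy =>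
      (WI_sq (TT_nonneg hx hσ.le 1 k) (TT_le hx h hσ.le k hy).2.1).trans_eq (by ring)) hr
  exact ⟨h1, h2.trans_eq (by ring)⟩

theorem WI_one' (hx : 0 < x) (h : x ≤ 1 / 4) {c : ℝ} (hc : 0 ≤ c) (k : ℕ) :
    Integrable (fun σ => exp (c * σ) * σ ^ 2 * TT 1 x σ (k + 1) ^ 2) m0 ∧
      ∫ σ, exp (c * σ) * σ ^ 2 * TT 1 x σ (k + 1) ^ 2 ∂m0 ≤
        56 * x ^ 2 * (x / (2 * (k + 1 : ℕ) + c * x) ^ 3) := by
  have hK : (0 : ℝ) < (k + 1 : ℕ) := by positivity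
  obtain ⟨h1, h2⟩ := WI_one hx h hc k rfl
  obtain ⟨r0, r1⟩ := WI_r hx hc hK
  refine ⟨h1, h2.trans ?_⟩
  generalize ((k + 1 : ℕ) : ℝ) / (2 * (k + 1 : ℕ) + c * x) = r at r0 r1
  have h3 : 8 + 48 * r + 96 * r ^ 2 ≤ 56 := by (refine le_of_not_gt fun h_nl => ?_; linarith only [h_nl, r1, hx, h, r0, mul_pos_of_neg_of_neg (Mathlib.Tactic.Linarith.sub_neg_of_lt hx) (Mathlib.Tactic.Linarith.sub_neg_of_lt h_nl), mul_nonneg_of_nonpos_of_nonpos (Mathlib.Tactic.Linarith.sub_nonpos_of_le h) (le_of_lt (Mathlib.Tactic.Linarith.sub_neg_of_lt h_nl)), mul_nonneg_of_nonpos_of_nonpos (Mathlib.Tactic.Linarith.sub_nonpos_of_le r0) (Mathlib.Tactic.Linarith.sub_nonpos_of_le r1)])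
  exact (mul_le_mul_of_nonneg_left h3 (by positivity)).trans_eq (by ring)

theorem WI_two (hx : 0 < x) (h : x ≤ 1 / 4) {c : ℝ} (hc : 0 ≤ c) (k : ℕ) :
    Integrable (fun σ => exp (c * σ) * σ ^ 2 * TT 2 x σ (k + 1) ^ 2) m0 ∧
      ∫ σ, exp (c * σ) * σ ^ 2 * TT 2 x σ (k + 1) ^ 2 ∂m0 ≤
        740 * (x / (2 * (k + 1 : ℕ) + c * x) ^ 3) := by
  have hK : (0 : ℝ) < (k + 1 : ℕ) := by positivity
  have h16 : (16 : ℝ) ≤ 4 / x := by
    rw [le_div_iff₀ hx]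
    linarith only [h]
  obtain ⟨h1, h2⟩ := WI_term hx hc hK (TT_cont 2 x (k + 1)) (p₀ := 16 / x ^ 2) (p₁ := 32 / x ^ 2)
    (p₂ := 32 / x ^ 2) (p₃ := 16 / x ^ 2) (p₄ := 4 / x ^ 2) (fun σ y hσ hy => by
      have y0 : 0 ≤ y := hy ▸ WA_y hx hσ.le (k + 1)
      have h3 : 16 + 16 * y + 2 / x * y ^ 2 ≤ 4 / x + 4 / x * y + 2 / x * y ^ 2 := by
        gcongr
      refine (WI_sq (TT_nonneg hx hσ.le 2 k) ((TT_le hx h hσ.le k hy).2.2.trans
        (mul_le_mul_of_nonneg_left h3 (exp_pos _).le))).trans_eq ?_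
      ring) rfl
  obtain ⟨r0, r1⟩ := WI_r hx hc hK
  refine ⟨h1, h2.trans ?_⟩
  generalize ((k + 1 : ℕ) : ℝ) / (2 * (k + 1 : ℕ) + c * x) = r at r0 r1
  have h3 : 32 + 192 * r + 768 * r ^ 2 + 1920 * r ^ 3 + 2880 * r ^ 4 ≤ 740 := by
    have a2 := pow_le_pow_left₀ r0 r1 2
    have a3 := pow_le_pow_left₀ r0 r1 3
    have a4 := pow_le_pow_left₀ r0 r1 4
    linarith only [r1, a2, a3, a4]
  have hC : (0 : ℝ) < 2 * (k + 1 : ℕ) + c * x := by positivity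
  generalize (2 * (k + 1 : ℕ) + c * x : ℝ) = C at hC
  refine le_of_eq_of_le ?_ ((mul_le_mul_of_nonneg_left h3
    (show 0 ≤ x / C ^ 3 by positivity)).trans_eq (mul_comm _ _))
  field_simp
  ring

theorem WI_all (hx : 0 < x) (h : x ≤ 1 / 4) {c s C m₃ m₄ m₅ m₇ t : ℝ} (hc : 0 ≤ c) (hs : 0 ≤ s)
    (hcs : s - 1 + 4 * x ≤ c * x) (hC : C = 2 + c * x) (h3 : x / C ^ 3 ≤ m₃) (h4 : x / C ^ 4 ≤ m₄)
    (h5 : x / C ^ 5 ≤ m₅) (h7 : x / C ^ 7 ≤ m₇)
    (ht : t = 1 / (16 * (4 + s) ^ 2 - 32 * (4 + s) + 30)) :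
    Iw c 0 x ≤ (8 * m₃ + 8 * t) * x ^ 4 ∧
      Iw c 1 x ≤ (8 * m₃ + 48 * m₄ + 96 * m₅ + 56 * t) * x ^ 2 ∧ Iw c 2 x ≤ 2880 * m₇ + 740 * t := by
  have C0 : 0 < C := by rw [hC]; positivity
  have e : (2 * (0 + 1 : ℕ) + c * x : ℝ) = C := by rw [hC]; norm_num
  refine ⟨?_, ?_, ?_⟩
  · have h1 := (WI_zero hx h hc 0).2
    rw [e] at h1
    have h2 := (WI_tot hx h hs hcs (by positivity) (WI_zero hx h hc)
      (h1.trans (mul_le_mul_of_nonneg_left h3 (by positivity)))).2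
    rw [← ht] at h2
    exact h2.trans_eq (by ring)
  · have h1 := (WI_one hx h hc 0 (r := 1 / C) (by rw [e]; norm_num)).2
    rw [e] at h1
    have h6 : x ^ 3 / C ^ 3 * (8 + 48 * (1 / C) + 96 * (1 / C) ^ 2) ≤
        x ^ 2 * (8 * m₃ + 48 * m₄ + 96 * m₅) := by
      refine le_of_eq_of_le (b := x ^ 2 * (8 * (x / C ^ 3) + 48 * (x / C ^ 4) + 96 * (x / C ^ 5)))
        (by field_simp) ?_
      gcongr
    have h2 := (WI_tot hx h hs hcs (by positivity) (WI_one' hx h hc) (h1.trans h6)).2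
    rw [← ht] at h2
    exact h2.trans_eq (by ring)
  · have h1 := (WI_term hx hc one_pos (T := fun σ => TT 2 x σ 1) (TT_cont 2 x 1) (p₀ := 0)
      (p₁ := 0) (p₂ := 0) (p₃ := 0) (p₄ := 4 / x ^ 2) (fun σ y _ hy => by
        rw [(TT_first hx σ (y := y) (by rw [hy, one_mul])).2.2]
        exact le_of_eq (by ring)) rfl).2
    rw [mul_one, ← hC] at h1
    have h6 : x ^ 3 / C ^ 3 * (2 * 0 + 6 * 0 * (1 / C) + 24 * 0 * (1 / C) ^ 2 +
        120 * 0 * (1 / C) ^ 3 + 720 * (4 / x ^ 2) * (1 / C) ^ 4) ≤ 2880 * m₇ := by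
      refine le_of_eq_of_le (b := 2880 * (x / C ^ 7)) (by field_simp; ring) ?_
      gcongr
    have h2 := (WI_tot hx h hs hcs (by norm_num) (WI_two hx h hc) (h1.trans h6)).2
    rwa [← ht] at h2

theorem Iw_int (hx : 0 < x) (h : x ≤ 1 / 4) {c : ℝ} (hc : 0 ≤ c) (j : ℕ) :
    Integrable (fun σ => exp (c * σ) * σ ^ 2 * ST j x σ) m0 := by
  have hcs : 0 - 1 + 4 * x ≤ c * x := by
    have := mul_nonneg hc hx.le
    linarith only [h, this]
  rcases j with _ | _ | j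
  · exact (WI_tot hx h le_rfl hcs (by positivity) (WI_zero hx h hc) le_rfl).1
  · exact (WI_tot hx h le_rfl hcs (by positivity) (WI_one' hx h hc) le_rfl).1
  · have h1 := (WI_tot hx h le_rfl hcs (by positivity) (WI_two hx h hc) le_rfl).1
    simpa only [ST, TT_ge_two (show 2 ≤ j + 1 + 1 by omega)] using h1

theorem Iw_A (hx : 0 < x) (h : x ≤ 1 / 4) :
    Iw 2 0 x ≤ 17 / 100 * x ^ 4 ∧ Iw 2 1 x ≤ 24 / 25 * x ^ 2 ∧ Iw 2 2 x ≤ 49 / 10 := by
  have hC : 0 < 2 + 2 * x := by positivity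
  obtain ⟨h0, h1, h2⟩ := WI_all hx h (c := 2) (s := 1 / 2) (m₃ := 2 / 125) (m₄ := 4 / 625)
    (m₅ := 8 / 3125) (m₇ := 1 / 2200) (by norm_num) (by norm_num) (by linarith only [h]) rfl
    (WI_frac 3 (5 / 2) (by norm_num) hC (by norm_num) (by norm_num; linarith only [h]))
    (WI_frac 4 (5 / 2) (by norm_num) hC (by norm_num) (by norm_num; linarith only [h]))
    (WI_frac 5 (5 / 2) (by norm_num) hC (by norm_num) (by norm_num; linarith only []))
    (WI_frac 7 (7 / 3) (by norm_num) hC (by norm_num) (by norm_num; linarith only [hx])) rfl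
  refine ⟨h0.trans ?_, h1.trans ?_, h2.trans (by norm_num)⟩
  · exact mul_le_mul_of_nonneg_right (by norm_num) (by positivity)
  · exact mul_le_mul_of_nonneg_right (by norm_num) (by positivity)

theorem Iw_B (hx : 0 < x) (h : x ≤ 1 / 4) :
    Iw 4 0 x ≤ 21 / 200 * x ^ 4 ∧ Iw 4 1 x ≤ 57 / 100 * x ^ 2 ∧ Iw 4 2 x ≤ 7 / 2 := by
  have hC : 0 < 2 + 4 * x := by positivity
  obtain ⟨h0, h1, h2⟩ := WI_all hx h (c := 4) (s := 1) (m₃ := 1 / 108) (m₄ := 1 / 300)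
    (m₅ := 4 / 3125) (m₇ := 1 / 4400) (by norm_num) (by norm_num) (by linarith only []) rfl
    (WI_frac 3 3 (by norm_num) hC (by norm_num) (by norm_num; linarith only []))
    (WI_frac 4 (8 / 3) (by norm_num) hC (by norm_num) (by norm_num; linarith only [hx]))
    (WI_frac 5 (5 / 2) (by norm_num) hC (by norm_num) (by norm_num; linarith only []))
    (WI_frac 7 (7 / 3) (by norm_num) hC (by norm_num) (by norm_num; linarith only [hx])) rfl
  refine ⟨h0.trans ?_, h1.trans ?_, h2.trans (by norm_num)⟩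
  · exact mul_le_mul_of_nonneg_right (by norm_num) (by positivity)
  · exact mul_le_mul_of_nonneg_right (by norm_num) (by positivity)

theorem Iw_C (hx : 0 < x) (h : x ≤ 1 / 4) : Iw (4 + 1 / x) 0 x ≤ 13 / 250 * x ^ 4 ∧
    Iw (4 + 1 / x) 1 x ≤ 6 / 25 * x ^ 2 ∧ Iw (4 + 1 / x) 2 x ≤ 19 / 10 := by
  have hC : 0 < 3 + 4 * x := by positivity
  have e : (4 + 1 / x) * x = 4 * x + 1 := by field_simp
  obtain ⟨h0, h1, h2⟩ := WI_all hx h (c := 4 + 1 / x) (s := 2) (C := 3 + 4 * x) (m₃ := 1 / 256)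
    (m₄ := 1 / 1024) (m₅ := 1 / 3900) (m₇ := 1 / 50000) (by positivity) (by norm_num)
    (by linarith only [e]) (by linarith only [e])
    (WI_frac 3 4 (by norm_num) hC (by norm_num) (by norm_num; linarith only [h]))
    (WI_frac 4 4 (by norm_num) hC (by norm_num) (by norm_num; linarith only []))
    (WI_frac 5 (15 / 4) (by norm_num) hC (by norm_num) (by norm_num; linarith only [hx]))
    (WI_frac 7 (7 / 2) (by norm_num) hC (by norm_num) (by norm_num; linarith only [hx])) rfl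
  refine ⟨h0.trans ?_, h1.trans ?_, h2.trans (by norm_num)⟩
  · exact mul_le_mul_of_nonneg_right (by norm_num) (by positivity)
  · exact mul_le_mul_of_nonneg_right (by norm_num) (by positivity)

end Pool.Agent.Work.MP_267827_an.PS
end
end

-- merged part: Pool.Agent.Work.MP_267827_an.PS.WT
section
-- merged part: Pool.Agent.Work.MP_267827_an.PS.WO
section
/-! The weights as bounded forms on the energy space.

Let `a = -σ / x`, `y = exp (-a)`, `l = -log (1 - y)`, `m = a y / (1 - y)` (`Weight_l`, `Weight_m`,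
`Weight_U_der`, `Weight_U1_der`, `Weight_U1_abs` in Weight.lean).  `WW x x = exp (4 x U)` with
`U = Weight_U (cos (π t)) (σ / x)`, and `WT 1`, `WT 2` are the derivatives in `x` (`WW_eq`,
`WT0_der`, `WT1_der`, uniqueness of the derivative).  Since `4 x ≤ 1`, `WW ≤ 1 / (1 - y)`, and
* `|WT 0| ≤ 4 x y / (1 - y)` (Bernoulli for the exponent `4 x ≤ 1`),
* `|WT 1| ≤ 4 (l + m) / (1 - y)`,
* `|WT 2| ≤ (16 (l + m) ^ 2 + 4 a ^ 2 y / (x (1 - y) ^ 2)) / (1 - y)` (the second derivative of `U`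
  is the real part of `ζ / (1 - ζ) ^ 2`, or check `|Weight_U2| ≤ y / (1 - y) ^ 2`; a factor up to
  `2.5` in this term can be afforded).
For `j = 0, 1` use `u (σ, t) ^ 2 ≤ |σ| ∫ (ds u (., t)) ^ 2`, so that
`|nB Ω u w| ≤ (∫ exp (2 σ) |σ| sup |Ω|) √(Ds u) √(Ds w)`.
* `j = 0`: `4 x ^ 3 ∑ 1 / (k + 2 x) ^ 2 ≤ x ^ 2 ∑ 1 / (k + 1 / 2) ^ 2 ≤ x ^ 2 (4 / 9 + 4 / 25 + 1 / 3)`.
* `j = 1`: `a / (1 - y) ≤ 1 + a`, `l = ∑ y ^ k / k`, `m = ∑ a y ^ k`; with `C = k + 2 x` the bound is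
  `4 x ^ 2 ∑ ((1 / C + 1 / C ^ 2) / k + 1 / C ^ 2 + 2 / C ^ 3)`, at most `3.58 x` (`x / C ^ i`
  increases with `x ≤ 1 / 4` for `i ≤ 3`); `m ≤ exp (-a / 2)` gives `3.82 x`.
* `j = 2`: Hardy (`VV.hardy`): `4 sup exp (2 σ) σ ^ 2 |WT 2|`; `l ^ 2 ≤ y ^ 2 / (1 - y)`,
  `m ^ 2 ≤ y`, so the first term is at most `2 (1 + a) ^ 2 y ≤ 8 / e`; for the second use
  `4 x a exp (-2 x a) ≤ 2 / e` and `(1 + a) ^ 3 y ≤ 27 / e ^ 2`; the total is `22.6`. -/

set_option autoImplicit false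

namespace Pool.Agent.Work.MP_267827_an.PS

open MeasureTheory Set Filter Topology Real

variable {x : ℝ} {u w : ℝ × ℝ → ℝ}

theorem WO_form {G : ℝ → ℝ} (h0 : ∀ σ, σ < 0 → 0 ≤ G σ)
    (hI : ∀ V, VV V → Integrable (fun p : ℝ × ℝ => G p.1 * V p ^ 2) nu ∧
      ∫ p, G p.1 * V p ^ 2 ∂nu ≤ Ds V)
    {Ω : ℝ × ℝ → ℝ} {C : ℝ} (hC : 0 ≤ C)
    (hb : ∀ p : ℝ × ℝ, p.1 < 0 → exp (2 * p.1) * |Ω p| ≤ C * G p.1) (hu : VV u) (hw : VV w) :
    |nB Ω u w| ≤ C * (√(Ds u) * √(Ds w)) := by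
  obtain ⟨iu, bu⟩ := hI u hu
  obtain ⟨iw, bw⟩ := hI w hw
  have du := Ds_nonneg u
  have dw := Ds_nonneg w
  have key := discrim_le_zero (a := C * Ds u) (b := -2 * |nB Ω u w|) (c := C * Ds w) fun t => by
    rcases le_total t 0 with ht | ht
    · have h1 : 0 ≤ |nB Ω u w| * -t := mul_nonneg (abs_nonneg _) (by linarith)
      have h2 : 0 ≤ C * Ds u * (t * t) := mul_nonneg (mul_nonneg hC du) (mul_self_nonneg t)
      have h3 := mul_nonneg hC dw
      linarith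
    · have h2 : ‖∫ p, 2 * t * (exp (2 * p.1) * Ω p * (u p * w p)) ∂nu‖ ≤
          ∫ p, (C * t ^ 2 * (G p.1 * u p ^ 2) + C * (G p.1 * w p ^ 2)) ∂nu :=
        norm_integral_le_of_norm_le (iadd (iu.const_mul _) (iw.const_mul _))
          (ae_nu fun p hp _ => by
            clear * - p Ω C G hb hp t u w ht hC h0
            have a1 := hb p hp
            have a2 : 2 * t * (|u p| * |w p|) ≤ t ^ 2 * u p ^ 2 + w p ^ 2 := by
              rw [← sq_abs (u p), ← sq_abs (w p)]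
              linarith only [sq_nonneg (t * |u p| - |w p|), sq_nonneg (t * |u p| - |w p|)]
            have a3 : 0 ≤ 2 * t * (|u p| * |w p|) := by positivity
            rw [Real.norm_eq_abs, abs_mul, abs_mul, abs_mul, abs_mul, abs_mul,
              abs_of_pos (exp_pos _), abs_of_nonneg ht, abs_two]
            calc 2 * t * (exp (2 * p.1) * |Ω p| * (|u p| * |w p|))
                = exp (2 * p.1) * |Ω p| * (2 * t * (|u p| * |w p|)) := by ring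
              _ ≤ C * G p.1 * (t ^ 2 * u p ^ 2 + w p ^ 2) :=
                mul_le_mul a1 a2 a3 (mul_nonneg hC (h0 _ hp))
              _ = _ := by ring)
      rw [integral_add (iu.const_mul _) (iw.const_mul _), integral_const_mul, integral_const_mul,
        integral_const_mul, Real.norm_eq_abs, abs_mul, abs_of_nonneg (by positivity : 0 ≤ 2 * t)]
        at h2
      have h3 := mul_le_mul_of_nonneg_left bu (by positivity : 0 ≤ C * t ^ 2)
      have h4 := mul_le_mul_of_nonneg_left bw hC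
      rw [nB]
      clear * - C u t Ω w G h2 h3 h4
      linarith only [h2, h3, h4]
  rw [discrim] at key
  refine abs_le_of_sq_le_sq ?_ (by positivity)
  rw [mul_pow, mul_pow, sq_sqrt du, sq_sqrt dw, ← sq_abs]
  linarith only [key]

theorem WO_cosh (t : ℝ) (ht : 0 ≤ t) : t ^ 2 ≤ exp t + exp (-t) - 2 := by
  have h1 := self_le_sinh_iff.2 (show 0 ≤ t / 2 by linarith only [ht])
  rw [sinh_eq] at h1
  have e1 : exp (t / 2) * exp (t / 2) = exp t := by rw [← exp_add]; ring_nf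
  have e2 : exp (-(t / 2)) * exp (-(t / 2)) = exp (-t) := by rw [← exp_add]; ring_nf
  have e3 : exp (t / 2) * exp (-(t / 2)) = 1 := by rw [← exp_add]; simp
  linarith only [e1, e2, e3, ht, h1, mul_self_le_mul_self (by linarith : 0 ≤ t / 2) h1]

theorem WO_n {a : ℝ} (ha : a < 0) : a ^ 2 * exp a ≤ (1 - exp a) ^ 2 := by
  have h1 := WO_cosh (-a) (by linarith)
  rw [neg_neg] at h1
  have e : exp a * exp (-a) = 1 := by rw [← exp_add]; simp
  linarith only [e, h1, mul_le_mul_of_nonneg_left h1 (exp_pos a).le]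

theorem WO_expl {a : ℝ} (ha : a < 0) :
    exp (Weight_l a) * (1 - exp a) = 1 ∧ exp (-Weight_l a) = 1 - exp a := by
  have y0 : 0 < 1 - exp a := sub_pos.2 (Weight_r ha).2
  rw [Weight_l, neg_neg, exp_neg, exp_log y0]
  exact ⟨inv_mul_cancel₀ y0.ne', rfl⟩

theorem WO_l {a : ℝ} (ha : a < 0) : Weight_l a ^ 2 * (1 - exp a) ≤ exp a ^ 2 ∧
    Weight_l a * (1 - exp a) ≤ exp a - exp a ^ 2 / 2 := by
  have y0 : 0 < 1 - exp a := sub_pos.2 (Weight_r ha).2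
  obtain ⟨e1, e2⟩ := WO_expl ha
  have h1 := WO_cosh _ (Weight_l0 ha)
  have h2 := self_le_sinh_iff.2 (Weight_l0 ha)
  rw [sinh_eq] at h2
  rw [e2] at h1 h2
  constructor
  · linarith only [e1, h1, y0, mul_le_mul_of_nonneg_right h1 y0.le]
  · linarith only [e1, h2, y0, mul_le_mul_of_nonneg_right h2 y0.le]

theorem WO_U2 {k a : ℝ} (hk : |k| ≤ 1) (ha : a < 0) :
    |a ^ 2 * Weight_U2 k a| ≤ Weight_n a := by
  obtain ⟨r0, r1⟩ := Weight_r ha
  have D0 := Weight_D_pos hk ha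
  have y0 : 0 < 1 - exp a := sub_pos.2 r1
  rw [abs_mul, abs_of_nonneg (sq_nonneg a), Weight_n]
  refine mul_le_mul_of_nonneg_left ?_ (sq_nonneg a)
  have h1 := Weight_D_ge (a := a) hk
  have h3 : |Weight_U2 k a| ≤ exp a / Weight_D k a := by
    rw [Weight_U2, abs_div, abs_of_pos (pow_pos D0 2), div_le_iff₀ (pow_pos D0 2),
      show exp a / Weight_D k a * Weight_D k a ^ 2 = exp a * Weight_D k a by field_simp,
      show (k * exp a - 2 * exp a ^ 2) * Weight_D k a + 2 * (k * exp a - exp a ^ 2) ^ 2 =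
        exp a * (k * Weight_D k a - 2 * exp a * (1 - k ^ 2)) by unfold Weight_D; ring,
      abs_mul, abs_of_pos r0]
    refine mul_le_mul_of_nonneg_left ?_ r0.le
    obtain ⟨k1, k2⟩ := abs_le.1 hk
    have h4 : 0 ≤ exp a * ((1 - k) * (1 + k)) := by
      have : 0 ≤ 1 - k := by linarith
      have : 0 ≤ 1 + k := by linarith
      positivity
    have h5 : 0 ≤ (1 + k) * (1 - exp a) ^ 2 := mul_nonneg (by linarith) (sq_nonneg _)
    have h6 : 0 ≤ (1 - k) * Weight_D k a := mul_nonneg (by linarith) D0.le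
    rw [abs_le]
    constructor
    · unfold Weight_D
      clear * - k a h5
      linarith only [h5]
    · linarith only [h4, h6]
  refine h3.trans ?_
  gcongr

/-- the weight of the Riccati inequality -/
noncomputable def WOg (x σ : ℝ) : ℝ :=
  3 / 4 * (exp (σ / x) * (1 - 3 / 4 * exp (σ / x))) / (x ^ 2 * (1 - exp (σ / x)) ^ 2)

theorem WO_g0 (hx : 0 < x) {σ : ℝ} (hσ : σ < 0) : 0 ≤ WOg x σ ∧ WOg x σ ≤ (σ ^ 2)⁻¹ := by
  have ha := div_neg_of_neg_of_pos hσ hx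
  obtain ⟨r0, r1⟩ := Weight_r ha
  have y0 : 0 < 1 - exp (σ / x) := sub_pos.2 r1
  have y1 : 0 < 1 - 3 / 4 * exp (σ / x) := by linarith only [r0, r1]
  have s0 : 0 < σ ^ 2 := by have := hσ.ne; positivity
  refine ⟨by unfold WOg; positivity, ?_⟩
  have h1 := WO_n ha
  rw [div_pow, div_mul_eq_mul_div, div_le_iff₀ (by positivity)] at h1
  rw [WOg, ← one_div, div_le_div_iff₀ (by positivity) s0]
  have h2 : 0 ≤ σ ^ 2 * exp (σ / x) := by positivity
  have h3 : 0 ≤ σ ^ 2 * exp (σ / x) * exp (σ / x) := by positivity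
  clear * - σ x h1 h2 h3
  linarith only [h1, h2, h3]

theorem WO_gm (x : ℝ) : Measurable (WOg x) := by
  unfold WOg
  fun_prop

theorem WO_ric (hx : 0 < x) {f f' : ℝ → ℝ} (h : V1 f f') :
    ∫ σ, WOg x σ * f σ ^ 2 ∂m0 ≤ ∫ σ, f' σ ^ 2 ∂m0 := by
  have i1 : Integrable (fun σ => WOg x σ * f σ ^ 2) m0 :=
    h.intH.mono' ((WO_gm x).aestronglyMeasurable.mul h.b0.sq.1) (ae_m0 fun σ hσ => by
      rw [Real.norm_of_nonneg (mul_nonneg (WO_g0 hx hσ).1 (sq_nonneg _))]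
      exact mul_le_mul_of_nonneg_right (WO_g0 hx hσ).2 (sq_nonneg _))
  have := (h.riccati (g := fun σ => -(3 / 4 / x) * (exp (σ / x) / (1 - exp (σ / x))))
    (p := WOg x) (fun σ hσ => by
      have y0 : 0 < 1 - exp (σ / x) := sub_pos.2 (Weight_r (div_neg_of_neg_of_pos hσ hx)).2
      have d1 := ((hasDerivAt_id σ).div_const x).exp
      refine ((d1.div (d1.const_sub 1) y0.ne').const_mul (-(3 / 4 / x))).congr_deriv ?_
      simp only [id, WOg]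
      field_simp
      ring) i1 (C := 3 / 4) fun σ hσ => by
      have ha := div_neg_of_neg_of_pos hσ hx
      obtain ⟨r0, r1⟩ := Weight_r ha
      have y0 : 0 < 1 - exp (σ / x) := sub_pos.2 r1
      have h2 := (Weight_m0 ha).2
      rw [Weight_m] at h2
      rw [abs_mul, abs_neg, abs_of_pos (by positivity), abs_of_pos (by positivity), abs_of_neg hσ]
      calc _ = 3 / 4 * (-(σ / x) * (exp (σ / x) / (1 - exp (σ / x)))) := by ring
        _ ≤ _ := by linarith only [h2]).2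
  have n : 0 ≤ ∫ σ, (f' σ - -(3 / 4 / x) * (exp (σ / x) / (1 - exp (σ / x))) * f σ) ^ 2 ∂m0 :=
    integral_nonneg fun _ => sq_nonneg _
  linarith only [this, n]

theorem WO_ric2 (hx : 0 < x) (V : ℝ × ℝ → ℝ) (h : VV V) :
    Integrable (fun p : ℝ × ℝ => WOg x p.1 * V p ^ 2) nu ∧
      ∫ p, WOg x p.1 * V p ^ 2 ∂nu ≤ Ds V := by
  have i1 : Integrable (fun p : ℝ × ℝ => WOg x p.1 * V p ^ 2) nu :=
    h.int_H.mono' (((WO_gm x).comp measurable_fst).aestronglyMeasurable.mul h.b0.sq.1)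
      (ae_nu fun p hp _ => by
        rw [Real.norm_of_nonneg (mul_nonneg (WO_g0 hx hp).1 (sq_nonneg _))]
        exact mul_le_mul_of_nonneg_right (WO_g0 hx hp).2 (sq_nonneg _))
  exact ⟨i1, TwoD_mono i1 h.int_s fun t ht => WO_ric hx (h.slice (Ioo_subset_Icc_self ht))⟩

/-- the logarithm of the weight -/
noncomputable def WOx (k σ y : ℝ) : ℝ := 4 * y * Weight_U k (σ / y)

/-- its derivative -/
noncomputable def WOx1 (k σ y : ℝ) : ℝ :=
  4 * (Weight_U k (σ / y) - σ / y * Weight_U1 k (σ / y))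

theorem WO_der {k σ y : ℝ} (hk : |k| ≤ 1) (hσ : σ < 0) (hy : 0 < y) :
    HasDerivAt (WOx k σ) (WOx1 k σ y) y ∧
      HasDerivAt (WOx1 k σ) (4 * ((σ / y) ^ 2 * Weight_U2 k (σ / y)) / y) y := by
  have ha := div_neg_of_neg_of_pos hσ hy
  have h0 := Weight_a_der σ hy
  have h1 := (Weight_U_der hk ha).comp y h0
  have h3 := (Weight_U1_der hk ha).comp y h0
  constructor
  · refine HasDerivAt.congr_deriv (((hasDerivAt_id y).const_mul 4).mul h1) ?_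
    unfold WOx1
    simp only [id, Function.comp]
    field_simp
    ring
  · refine HasDerivAt.congr_deriv ((h1.sub (h0.mul h3)).const_mul 4) ?_
    simp only [Function.comp]
    field_simp
    ring

theorem WO_e0 (hx : 0 < x) (h : x ≤ 1 / 3) {p : ℝ × ℝ} (hp : p.1 < 0) :
    WT 0 x p = exp (WOx (cos (π * p.2)) p.1 x) - 1 := by
  have := WW_eq hx h hp
  rw [WW, xx, Weight_u1] at this
  rw [WOx, eq_sub_iff_add_eq', ← this]
  congr 1
  ring

theorem WO_e1 (hx : 0 < x) (h : x < 1 / 3) {p : ℝ × ℝ} (hp : p.1 < 0) :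
    WT 1 x p = exp (WOx (cos (π * p.2)) p.1 x) * WOx1 (cos (π * p.2)) p.1 x := by
  refine (WT0_der hx h hp).unique
    (((WO_der (abs_cos_le_one _) hp hx).1.exp.sub_const 1).congr_of_eventuallyEq ?_)
  filter_upwards [Ioo_mem_nhds hx h] with y hy using WO_e0 hy.1 hy.2.le hp

theorem WO_e2 (hx : 0 < x) (h : x < 1 / 3) {p : ℝ × ℝ} (hp : p.1 < 0) :
    WT 2 x p = exp (WOx (cos (π * p.2)) p.1 x) * (WOx1 (cos (π * p.2)) p.1 x ^ 2 +
      4 * ((p.1 / x) ^ 2 * Weight_U2 (cos (π * p.2)) (p.1 / x)) / x) := by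
  obtain ⟨d1, d2⟩ := WO_der (abs_cos_le_one (π * p.2)) hp hx
  refine ((WT1_der hx h hp).unique ((d1.exp.mul d2).congr_of_eventuallyEq ?_)).trans (by ring)
  filter_upwards [Ioo_mem_nhds hx h] with y hy using WO_e1 hy.1 hy.2 hp

theorem WO_bd {k σ : ℝ} (hk : |k| ≤ 1) (hσ : σ < 0) (hx : 0 < x) (h : x ≤ 1 / 4) :
    |exp (WOx k σ x) - 1| * (1 - exp (σ / x)) ≤ 4 * x * exp (σ / x) ∧
      exp (WOx k σ x) * (1 - exp (σ / x)) ≤ 1 ∧
      |WOx1 k σ x| ≤ 4 * (Weight_l (σ / x) + Weight_m (σ / x)) := by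
  have ha := div_neg_of_neg_of_pos hσ hx
  obtain ⟨r0, r1⟩ := Weight_r ha
  have y0 : 0 < 1 - exp (σ / x) := sub_pos.2 r1
  obtain ⟨a1, a2⟩ := abs_le.1 (Weight_U_abs hk ha)
  obtain ⟨a5, a6⟩ := abs_le.1 (Weight_U1_abs hk ha)
  have e1 := (WO_expl ha).1
  have c := convexOn_exp.2 (mem_univ (Weight_l (σ / x))) (mem_univ 0)
    (show 0 ≤ 4 * x by positivity) (show 0 ≤ 1 - 4 * x by linarith only [h]) (by ring)
  simp only [smul_eq_mul, mul_zero, add_zero, exp_zero, mul_one] at c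
  have b1 : WOx k σ x ≤ 4 * x * Weight_l (σ / x) :=
    mul_le_mul_of_nonneg_left a2 (by positivity)
  have b2 : -(4 * x * Weight_l (σ / x)) ≤ WOx k σ x := by
    have := mul_le_mul_of_nonneg_left a1 (by positivity : 0 ≤ 4 * x)
    unfold WOx Weight_l
    linarith only [this]
  have b3 := exp_le_exp.2 b1
  have b4 : |exp (WOx k σ x) - 1| ≤ 4 * x * exp (Weight_l (σ / x)) - 4 * x := by
    clear * - k σ x c b2 b3
    have := add_one_le_exp (WOx k σ x)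
    have := add_one_le_exp (4 * x * Weight_l (σ / x))
    rw [abs_le]
    constructor <;> linarith
  have b5 := mul_le_mul_of_nonneg_right b4 y0.le
  have b6 : |exp (WOx k σ x) - 1| * (1 - exp (σ / x)) ≤ 4 * x * exp (σ / x) := by
    refine b5.trans_eq ?_
    linear_combination 4 * x * e1
  refine ⟨b6, ?_, ?_⟩
  · have := mul_le_mul_of_nonneg_right (le_abs_self (exp (WOx k σ x) - 1)) y0.le
    clear * - k σ x b6 this h r0
    linarith only [b6, this, h, r0, mul_nonneg_of_nonpos_of_nonpos (Mathlib.Tactic.Linarith.sub_nonpos_of_le h) (le_of_lt (Mathlib.Tactic.Linarith.sub_neg_of_lt r0))]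
  · unfold WOx1 Weight_l
    rw [abs_le]
    constructor <;> linarith only [a1, a6, a2, a5]

theorem ww0 (hx : 0 < x) (h : x ≤ 1 / 4) (hu : VV u) (hw : VV w) :
    |nB (WT 0 x) u w| ≤ 47 / 50 * x ^ 2 * (√(Ds u) * √(Ds w)) := by
  refine WO_form (fun σ hσ => (WO_g0 hx hσ).1) (WO_ric2 hx) (by positivity) (fun p hp => ?_) hu hw
  obtain ⟨b1, -, -⟩ := WO_bd (abs_cos_le_one (π * p.2)) hp hx h
  rw [← WO_e0 hx (by linarith only [hx, h]) hp] at b1
  have ha := div_neg_of_neg_of_pos hp hx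
  obtain ⟨r0, r1⟩ := Weight_r ha
  have q0 := exp_pos (2 * p.1)
  have q1 : exp (2 * p.1) * (1 + 2 * x * (1 - exp (p.1 / x))) ≤ 1 := by
    have e : exp (2 * p.1) * exp (-(2 * p.1)) = 1 := by rw [← exp_add]; simp
    have h1 := add_one_le_exp (-(2 * p.1))
    have h2 := mul_le_mul_of_nonneg_left (add_one_le_exp (p.1 / x)) hx.le
    rw [mul_add, mul_div_cancel₀ _ hx.ne'] at h2
    exact (mul_le_mul_of_nonneg_left (by linarith only [h1, h2]) q0.le).trans_eq e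
  rw [WOg]
  generalize exp (p.1 / x) = y at *
  generalize exp (2 * p.1) = q at *
  have v0 : 0 < 1 - y := by linarith only [r1]
  have q2 : 4 * x * q * (1 + (1 - y) / 2) ≤ 1 := by linarith only [q1, h, q0, mul_nonneg_of_nonpos_of_nonpos (Mathlib.Tactic.Linarith.sub_nonpos_of_le h) (le_of_lt (Mathlib.Tactic.Linarith.sub_neg_of_lt q0))]
  have q3 : 4 * x * q * (1 - y) ≤ 47 / 50 * (3 / 4 * (1 - 3 / 4 * y)) := by
    clear * - y x q hx h r1 q2 v0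
    refine le_of_mul_le_mul_right ?_ (show 0 < 1 + (1 - y) / 2 by linarith only [hx, h, r1])
    linarith only [hx, h, r1, q2, v0, mul_le_mul_of_nonneg_right q2 v0.le, sq_nonneg (y - 1 / 4), sq_nonneg ((4 : ℝ) * y - (1 : ℝ) * (1 : ℝ))]
  rw [← mul_div_assoc, le_div_iff₀ (by positivity)]
  calc q * |WT 0 x p| * (x ^ 2 * (1 - y) ^ 2)
      = |WT 0 x p| * (1 - y) * (q * x ^ 2 * (1 - y)) := by ring
    _ ≤ 4 * x * y * (q * x ^ 2 * (1 - y)) := mul_le_mul_of_nonneg_right b1 (by positivity)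
    _ = 4 * x * q * (1 - y) * (x ^ 2 * y) := by ring
    _ ≤ 47 / 50 * (3 / 4 * (1 - 3 / 4 * y)) * (x ^ 2 * y) :=
      mul_le_mul_of_nonneg_right q3 (by positivity)
    _ = _ := by ring

theorem ww1 (hx : 0 < x) (h : x ≤ 1 / 4) (hu : VV u) (hw : VV w) :
    |nB (WT 1 x) u w| ≤ 4 * x * (√(Ds u) * √(Ds w)) := by
  refine WO_form (fun σ hσ => (WO_g0 hx hσ).1) (WO_ric2 hx) (by positivity) (fun p hp => ?_) hu hw
  obtain ⟨-, b2, b3⟩ := WO_bd (abs_cos_le_one (π * p.2)) hp hx h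
  have ha := div_neg_of_neg_of_pos hp hx
  obtain ⟨r0, r1⟩ := Weight_r ha
  have v0 : 0 < 1 - exp (p.1 / x) := by linarith only [r1]
  have q0 := exp_pos (2 * p.1)
  have q1 : exp (2 * p.1) ≤ 1 := exp_le_one' zero_le_two hp
  have q2 := Weight_y (show 2 * p.1 < 0 by linarith only [hp])
  have q3 : exp (p.1 / x) ≤ exp (2 * p.1) := by
    clear * - p x hx hp h
    refine exp_le_exp.2 ?_
    rw [div_le_iff₀ hx]
    linarith only [hp, h, mul_nonneg_of_nonpos_of_nonpos (Mathlib.Tactic.Linarith.sub_nonpos_of_le h) (le_of_lt (Mathlib.Tactic.Linarith.sub_neg_of_lt hp))]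
  have l0 := Weight_l0 ha
  have l1 := (WO_l ha).2
  have m0 := (Weight_m0 ha).1
  have m1 : x * Weight_m (p.1 / x) * (1 - exp (p.1 / x)) = -p.1 * exp (p.1 / x) := by
    rw [Weight_m]
    field_simp
  rw [WO_e1 hx (by linarith only [hx, h]) hp, abs_mul, abs_of_pos (exp_pos _), WOg]
  have E0 := exp_pos (WOx (cos (π * p.2)) p.1 x)
  have X0 := abs_nonneg (WOx1 (cos (π * p.2)) p.1 x)
  generalize exp (WOx (cos (π * p.2)) p.1 x) = E at *
  generalize |WOx1 (cos (π * p.2)) p.1 x| = X at *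
  generalize Weight_l (p.1 / x) = l at *
  generalize Weight_m (p.1 / x) = m at *
  generalize exp (p.1 / x) = y at *
  generalize exp (2 * p.1) = q at *
  have c1 : 4 * x * q * (l * (1 - y)) ≤ 1 * (y - y ^ 2 / 2) :=
    mul_le_mul (by clear * - x q h hx q1 l1; linarith only [h, hx, q1, mul_nonneg_of_nonpos_of_nonpos (le_of_lt (Mathlib.Tactic.Linarith.sub_neg_of_lt hx)) (Mathlib.Tactic.Linarith.sub_nonpos_of_le q1)]) l1 (by positivity) zero_le_one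
  have c2 : 4 * q * (x * m * (1 - y)) ≤ 2 * y * (1 - y) := by
    clear * - q x m y p m1 q2 r0 q3
    rw [m1]
    linarith only [q2, r0, q3, mul_le_mul_of_nonneg_left q2 r0.le, mul_le_mul_of_nonneg_left q3 r0.le]
  rw [← mul_div_assoc, le_div_iff₀ (by positivity)]
  calc q * (E * X) * (x ^ 2 * (1 - y) ^ 2) = E * (1 - y) * X * (q * x ^ 2 * (1 - y)) := by ring
    _ ≤ 1 * (4 * (l + m)) * (q * x ^ 2 * (1 - y)) :=
      mul_le_mul_of_nonneg_right (mul_le_mul b2 b3 X0 zero_le_one) (by positivity)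
    _ = x * (4 * x * q * (l * (1 - y)) + 4 * q * (x * m * (1 - y))) := by ring
    _ ≤ x * (3 * (y * (1 - 3 / 4 * y))) :=
      mul_le_mul_of_nonneg_left (by clear * - x q l y m c1 c2 hx; linarith only [c1, c2, sq_nonneg ((1 : ℝ) * y)]) hx.le
    _ = _ := by ring

theorem ww2 (hx : 0 < x) (h : x ≤ 1 / 4) (hu : VV u) (hw : VV w) :
    |nB (WT 2 x) u w| ≤ 43 * (√(Ds u) * √(Ds w)) := by
  refine WO_form (G := fun σ => 1 / 4 * (σ ^ 2)⁻¹) (fun σ _ => by positivity) (fun V hV => ?_)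
    (by positivity) (fun p hp => ?_) hu hw
  · simp only [mul_assoc, integral_const_mul]
    exact ⟨hV.int_H.const_mul _, by linarith only [hV, hV.hardy]⟩
  obtain ⟨-, b2, b3⟩ := WO_bd (abs_cos_le_one (π * p.2)) hp hx h
  have ha := div_neg_of_neg_of_pos hp hx
  obtain ⟨r0, r1⟩ := Weight_r ha
  have v0 : 0 < 1 - exp (p.1 / x) := by linarith only [r1]
  have q0 := exp_pos (2 * p.1)
  have q1 : exp (2 * p.1) ≤ 1 := exp_le_one' zero_le_two hp
  have q2 : -(4 * p.1) * exp (2 * p.1) ≤ 1 := by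
    clear * - p hp x hx h q0
    have e : exp (2 * p.1) * exp (-(2 * p.1)) = 1 := by rw [← exp_add]; simp
    have h1 := quadratic_le_exp_of_nonneg (show 0 ≤ -(2 * p.1) by linarith)
    rw [← e, mul_comm]
    exact mul_le_mul_of_nonneg_left (by linarith only [hx, h, h1, sq_nonneg (2 * p.1 + 1), sq_nonneg ((2 : ℝ) * p.1 + (1 : ℝ))]) q0.le
  have y1 := Weight_y ha
  have y2 : (1 - p.1 / x) ^ 3 * exp (p.1 / x) ≤ 8 := by
    clear * - p x ha hx h r0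
    have e : exp (-(p.1 / x)) * exp (p.1 / x) = 1 := by rw [← exp_add]; simp
    have h1 := Real.sum_le_exp_of_nonneg (x := -(p.1 / x)) (by linarith only [ha]) 4
    simp only [Finset.sum_range_succ, Finset.range_zero, Finset.sum_empty, Nat.factorial] at h1
    have h2 : 0 ≤ -(p.1 / x) := by linarith only [ha]
    have h3 : (1 - p.1 / x) ^ 3 ≤ 8 * exp (-(p.1 / x)) := by
      push_cast at h1
      linarith only [hx, h, ha, h1, h2, pow_nonneg h2 2, pow_nonneg h2 3, sq_nonneg (-((1 : ℝ) * (p.1 / x)))]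
    linarith only [e, h3, r0, mul_le_mul_of_nonneg_right h3 r0.le]
  have l0 := Weight_l0 ha
  have l1 := (WO_l ha).1
  have m0 := (Weight_m0 ha).1
  have n1 := WO_n ha
  have m1 : Weight_m (p.1 / x) * (1 - exp (p.1 / x)) = -(p.1 / x) * exp (p.1 / x) := by
    rw [Weight_m]
    field_simp
  have u2 := WO_U2 (abs_cos_le_one (π * p.2)) ha
  have n0 := Weight_n0 (p.1 / x)
  have n2 : Weight_n (p.1 / x) * (1 - exp (p.1 / x)) ^ 2 = (p.1 / x) ^ 2 * exp (p.1 / x) := by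
    rw [Weight_n]
    field_simp
  have E0 := exp_pos (WOx (cos (π * p.2)) p.1 x)
  have b4 : |WT 2 x p| ≤ exp (WOx (cos (π * p.2)) p.1 x) *
      ((4 * (Weight_l (p.1 / x) + Weight_m (p.1 / x))) ^ 2 + 4 * Weight_n (p.1 / x) / x) := by
    clear * - x p hx h hp E0 b3 u2
    rw [WO_e2 hx (by linarith only [hx, h]) hp, abs_mul, abs_of_pos E0]
    refine mul_le_mul_of_nonneg_left ((abs_add_le _ _).trans (add_le_add ?_ ?_)) E0.le
    · rw [abs_pow]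
      exact pow_le_pow_left₀ (abs_nonneg _) b3 2
    · rw [abs_div, abs_mul, abs_of_pos hx, abs_of_pos (by norm_num : (0 : ℝ) < 4)]
      gcongr
  obtain ⟨a, e⟩ : ∃ a, a = -(p.1 / x) := ⟨_, rfl⟩
  have e1 : p.1 = -(x * a) := by rw [e]; field_simp
  have a0 : 0 < a := by clear * - a p x ha e; linarith only [ha, e]
  have s0 : 0 < p.1 ^ 2 := by have := hp.ne; positivity
  generalize exp (WOx (cos (π * p.2)) p.1 x) = E at *
  generalize Weight_l (p.1 / x) = l at *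
  generalize Weight_m (p.1 / x) = m at *
  generalize Weight_n (p.1 / x) = n at *
  generalize exp (p.1 / x) = y at *
  generalize exp (2 * p.1) = q at *
  rw [show p.1 / x = -a by clear * - a e p x m1 n1 n2 y1 y2; linarith only [e]] at y1 y2 n1 m1 n2
  obtain ⟨v, ev⟩ : ∃ v, v = 1 - y := ⟨_, rfl⟩
  rw [← ev] at v0 b2 y1 l1 n1 m1 n2
  have c0 : m ^ 2 ≤ y := by
    clear * - v m y a m1 n1 r0 v0
    refine le_of_mul_le_mul_right ?_ (pow_pos v0 2)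
    rw [← mul_pow, m1]
    linarith only [n1, r0, mul_le_mul_of_nonneg_left n1 r0.le]
  have c1 : (l + m) ^ 2 * v ≤ 2 * y := by
    clear * - m v y c0 v0 l ev l1
    have := mul_le_mul_of_nonneg_right c0 v0.le
    have := mul_nonneg (sq_nonneg (l - m)) v0.le
    have : y * v = y - y ^ 2 := by rw [ev]; ring
    nlinarith
  have c2 : a ^ 2 * (l + m) ^ 2 ≤ 2 * v := by
    clear * - v a l m y n1 c1 v0
    refine le_of_mul_le_mul_right ?_ v0
    linarith only [n1, c1, mul_le_mul_of_nonneg_left c1 (sq_nonneg a), sq_nonneg a]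
  have c3 : a ≤ (1 + a) * v := by
    clear * - a v y ev y1
    have : a * v = a - a * y := by rw [ev]; ring
    nlinarith
  have c4 : a * n ≤ 8 * v := by
    refine le_of_mul_le_mul_right ?_ (pow_pos v0 2)
    have h1 := mul_le_mul_of_nonneg_right (pow_le_pow_left₀ a0.le c3 3) r0.le
    have h2 := mul_le_mul_of_nonneg_right y2 (pow_pos v0 3).le
    calc a * n * v ^ 2 = a * (n * v ^ 2) := by ring
      _ = a ^ 3 * y := by rw [n2]; ring
      _ ≤ ((1 + a) * v) ^ 3 * y := h1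
      _ = (1 - -a) ^ 3 * y * v ^ 3 := by ring
      _ ≤ 8 * v ^ 3 := h2
      _ = _ := by ring
  have c5 : 16 * x ^ 2 * q ≤ 1 := by clear * - x q h q1 hx; linarith only [h, q1, hx, mul_le_mul_of_nonneg_left q1 (sq_nonneg x), sq_nonneg x, mul_nonneg_of_nonpos_of_nonpos (le_of_lt (Mathlib.Tactic.Linarith.sub_neg_of_lt hx)) (Mathlib.Tactic.Linarith.sub_nonpos_of_le h)]
  have c6 : 4 * x * a * q ≤ 1 := by rw [e1] at q2; linarith only [q2]
  rw [← mul_assoc, ← div_eq_mul_inv, le_div_iff₀ s0]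
  calc q * |WT 2 x p| * p.1 ^ 2 ≤ q * (E * ((4 * (l + m)) ^ 2 + 4 * n / x)) * p.1 ^ 2 := by gcongr
    _ = E * (16 * x ^ 2 * q * (a ^ 2 * (l + m) ^ 2) + 4 * x * a * q * (a * n)) := by
      rw [e1]; field_simp; ring
    _ ≤ E * (1 * (2 * v) + 1 * (8 * v)) := by clear * - E x q a l m n v c5 c2 a0 c6 c4 n0 E0; gcongr
    _ ≤ _ := by linarith only [hx, h, b2]

end Pool.Agent.Work.MP_267827_an.PS
end

-- merged part: Pool.Agent.Work.MP_267827_an.PS.WR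
section
/-! The series for the area: numerical bounds.

`b0 x (k + 1) / x` and `b1 x k` increase with `x`, so `a1 x k / x ^ 2` increases with `x`; it is
enough to bound the sums at `x = 1 / 5` and `x = 1 / 4`.  The tails are bounded by telescoping with
`α * b0 * b1 + β * b0 ^ 2`. -/

set_option autoImplicit false

namespace Pool.Agent.Work.MP_267827_an.PS

open MeasureTheory Set Filter Topology Real

variable {x y : ℝ}

theorem WR_tel {f T : ℕ → ℝ} (K : ℕ) (h0 : ∀ k, 0 ≤ f k) (hT : ∀ k, 0 ≤ T k)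
    (h : ∀ k, K ≤ k → f k ≤ T k - T (k + 1)) :
    Summable f ∧ ∑' k, f k ≤ ∑ k ∈ Finset.range K, f k + T K := by
  have a1 : ∀ n, ∑ k ∈ Finset.range n, f (k + K) ≤ T K - T (n + K) := fun n => by
    induction n with
    | zero => simp
    | succ n ih =>
      rw [Finset.sum_range_succ, add_right_comm n 1 K]
      linarith [h (n + K) (Nat.le_add_left K n)]
  have a2 : ∀ n, ∑ k ∈ Finset.range n, f (k + K) ≤ T K := fun n => by linarith [a1 n, hT (n + K)]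
  have a3 : Summable f := (summable_nat_add_iff K).1 (summable_of_sum_range_le (fun _ => h0 _) a2)
  refine ⟨a3, ?_⟩
  rw [← a3.sum_add_tsum_nat_add K]
  linarith [Real.tsum_le_of_sum_range_le (fun _ => h0 _) a2]

theorem WR_q (hx : 0 < x) (h : x ≤ y) : ∀ k : ℕ, b0 x (k + 1) / x ≤ b0 y (k + 1) / y
  | 0 => by
    have := hx.trans_le h
    simp only [zero_add, b0_one]
    exact le_of_eq (by field_simp)
  | k + 1 => by
    have ih := WR_q hx h k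
    have hy := hx.trans_le h
    have := b0_nonneg hy.le (k + 1)
    rw [b0_succ x (k + 1), b0_succ y (k + 1), div_right_comm, div_right_comm _ _ y,
      mul_div_right_comm, mul_div_right_comm _ _ y]
    gcongr

theorem WR_b (hx : 0 ≤ x) (h : x ≤ y) : ∀ k : ℕ, b0 x k ≤ b0 y k ∧ b1 x k ≤ b1 y k
  | 0 => ⟨le_rfl, le_rfl⟩
  | k + 1 => by
    obtain ⟨i1, i2⟩ := WR_b hx h k
    have := b0_nonneg (hx.trans h) k
    have := b1_nonneg (hx.trans h) k
    rw [b0_succ, b0_succ, b1_succ, b1_succ]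
    constructor <;> gcongr

theorem WR_a0 (hx : 0 < x) (k : ℕ) : 0 ≤ a0 x k := by
  rw [a0]
  positivity

theorem WR_a1 (hx : 0 < x) (k : ℕ) : 0 ≤ a1 x k := by
  have := b0_nonneg hx.le k
  have := b1_nonneg hx.le k
  rw [a1]
  positivity

theorem WR_eq (hx : 0 < x) (k : ℕ) : a1 x k = x ^ 2 * (2 * (b0 x k / x) * b1 x k * (x / (x + k)) +
    (b0 x k / x) ^ 2 * (x / (x + k) * (2 - x / (x + k)))) := by
  rw [a1]
  field_simp
  ring

theorem WR_mono (hx : 0 < x) (h : x ≤ y) (k : ℕ) :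
    a1 x (k + 1) ≤ (x / y) ^ 2 * a1 y (k + 1) := by
  have hy := hx.trans_le h
  have i1 := WR_q hx h k
  have i2 := (WR_b hx.le h (k + 1)).2
  have i3 := b0_nonneg hx.le (k + 1)
  have i4 := b1_nonneg hx.le (k + 1)
  have i5 := b0_nonneg hy.le (k + 1)
  have i6 := b1_nonneg hy.le (k + 1)
  have k0 : (0 : ℝ) ≤ (k + 1 : ℕ) := Nat.cast_nonneg _
  have t1 : x / (x + (k + 1 : ℕ)) ≤ y / (y + (k + 1 : ℕ)) := by
    clear * - x k y hx hy h
    rw [div_le_div_iff₀ (by positivity) (by positivity)]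
    linarith only [h, mul_nonneg_of_nonpos_of_nonpos (Mathlib.Tactic.Linarith.sub_nonpos_of_le (Mathlib.Tactic.Linarith.natCast_nonneg ℝ (k + (1 : ℕ)))) (Mathlib.Tactic.Linarith.sub_nonpos_of_le h)]
  have t2 : y / (y + (k + 1 : ℕ)) ≤ 1 := div_le_one_of_le₀ (by linarith only []) (by positivity)
  have t3 : 0 ≤ x / (x + (k + 1 : ℕ)) := by positivity
  have t4 : x / (x + (k + 1 : ℕ)) * (2 - x / (x + (k + 1 : ℕ))) ≤
      y / (y + (k + 1 : ℕ)) * (2 - y / (y + (k + 1 : ℕ))) := by clear * - x k y t1 t2; linarith only [t1, t2, mul_nonneg_of_nonpos_of_nonpos (Mathlib.Tactic.Linarith.sub_nonpos_of_le t1) (Mathlib.Tactic.Linarith.sub_nonpos_of_le t1), mul_nonneg_of_nonpos_of_nonpos (Mathlib.Tactic.Linarith.sub_nonpos_of_le t1) (Mathlib.Tactic.Linarith.sub_nonpos_of_le t2)]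
  have t5 : 0 ≤ x / (x + (k + 1 : ℕ)) * (2 - x / (x + (k + 1 : ℕ))) :=
    mul_nonneg t3 (by linarith only [t1, t2])
  rw [WR_eq hx, WR_eq hy, ← mul_assoc ((x / y) ^ 2), ← mul_pow, div_mul_cancel₀ _ hy.ne']
  gcongr

theorem WR_step (hy : 0 < y) {α β : ℝ} (k : ℕ)
    (h1 : 2 * y ^ 2 * (k + 1) ^ 2 ≤ α * ((k + 1) ^ 2 - (2 * y + k) ^ 2) * (y + k))
    (h2 : (y ^ 2 + 2 * k * y) * (k + 1) ^ 2 ≤
      (β * ((k + 1) ^ 2 - (2 * y + k) ^ 2) - 2 * α * (2 * y + k)) * (y + k) ^ 2) :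
    a1 y k ≤ α * (b0 y k * b1 y k) + β * b0 y k ^ 2 -
      (α * (b0 y (k + 1) * b1 y (k + 1)) + β * b0 y (k + 1) ^ 2) := by
  have i1 := b0_nonneg hy.le k
  have i2 := b1_nonneg hy.le k
  rw [← div_le_div_iff₀ (by positivity) (by positivity)] at h1 h2
  have j1 := mul_le_mul_of_nonneg_left h1 (mul_nonneg i1 i2)
  have j2 := mul_le_mul_of_nonneg_left h2 (sq_nonneg (b0 y k))
  refine le_of_eq_of_le ?_ ((add_le_add j1 j2).trans_eq ?_)
  · rw [a1]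
    ring
  · rw [b0_succ, b1_succ]
    field_simp
    ring

theorem WR_sum (hy : 0 < y) {α β : ℝ} (hα : 0 ≤ α) (hβ : 0 ≤ β) (K : ℕ)
    (h1 : ∀ k : ℝ, K + 1 ≤ k →
      2 * y ^ 2 * (k + 1) ^ 2 ≤ α * ((k + 1) ^ 2 - (2 * y + k) ^ 2) * (y + k))
    (h2 : ∀ k : ℝ, K + 1 ≤ k → (y ^ 2 + 2 * k * y) * (k + 1) ^ 2 ≤
      (β * ((k + 1) ^ 2 - (2 * y + k) ^ 2) - 2 * α * (2 * y + k)) * (y + k) ^ 2) :
    Summable (fun k => a1 y (k + 1)) ∧ ∑' k, a1 y (k + 1) ≤ ∑ k ∈ Finset.range K, a1 y (k + 1) +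
      (α * (b0 y (K + 1) * b1 y (K + 1)) + β * b0 y (K + 1) ^ 2) :=
  WR_tel (T := fun k => α * (b0 y (k + 1) * b1 y (k + 1)) + β * b0 y (k + 1) ^ 2) K
    (fun k => WR_a1 hy _) (fun k => by
      have := b0_nonneg hy.le (k + 1)
      have := b1_nonneg hy.le (k + 1)
      positivity) fun k hk =>
    WR_step hy (k + 1) (h1 _ (by exact_mod_cast Nat.succ_le_succ hk))
      (h2 _ (by exact_mod_cast Nat.succ_le_succ hk))

theorem WR_four : Summable (fun k => a1 (1 / 4) (k + 1)) ∧ ∑' k, a1 (1 / 4) (k + 1) ≤ 1 / 2 := by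
  obtain ⟨h1, h2⟩ := WR_sum (y := 1 / 4) (α := 2 / 11) (β := 21 / 20) (by norm_num) (by norm_num)
    (by norm_num) 1 (fun k hk => by
      obtain ⟨t, ht, rfl⟩ : ∃ t, 0 ≤ t ∧ k = t + 2 := ⟨k - 2, by push_cast at hk; linarith, by ring⟩
      linarith only [ht, sq_nonneg t, sq_nonneg t]) fun k hk => by
      obtain ⟨t, ht, rfl⟩ : ∃ t, 0 ≤ t ∧ k = t + 2 := ⟨k - 2, by push_cast at hk; linarith, by ring⟩
      linarith only [ht, sq_nonneg t, pow_nonneg ht 3, sq_nonneg t]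
  refine ⟨h1, h2.trans ?_⟩
  norm_num [a1, b0, b1, Finset.sum_range_succ]

theorem WR_five : ∑' k, a1 (1 / 5) (k + 1) ≤ 49 / 250 := by
  obtain ⟨-, h2⟩ := WR_sum (y := 1 / 5) (α := 17 / 200) (β := 11 / 20) (by norm_num) (by norm_num)
    (by norm_num) 3 (fun k hk => by
      obtain ⟨t, ht, rfl⟩ : ∃ t, 0 ≤ t ∧ k = t + 4 := ⟨k - 4, by push_cast at hk; linarith, by ring⟩
      linarith only [ht, sq_nonneg t, sq_nonneg t]) fun k hk => by
      obtain ⟨t, ht, rfl⟩ : ∃ t, 0 ≤ t ∧ k = t + 4 := ⟨k - 4, by push_cast at hk; linarith, by ring⟩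
      linarith only [ht, sq_nonneg t, pow_nonneg ht 3, sq_nonneg t]
  refine h2.trans ?_
  norm_num [a1, b0, b1, Finset.sum_range_succ]

theorem WR_R : Summable (fun k : ℕ => b0 (1 / 5) (k + 2) ^ 2 / (k + 2)) ∧
    ∑' k : ℕ, b0 (1 / 5) (k + 2) ^ 2 / (k + 2) ≤ 241 / 2500 := by
  obtain ⟨h1, h2⟩ := WR_tel (f := fun k : ℕ => b0 (1 / 5) (k + 2) ^ 2 / (k + 2))
    (T := fun k => 111 / 100 * b0 (1 / 5) (k + 2) ^ 2) 2 (fun k => by positivity)
    (fun k => by positivity) fun k hk => by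
      have k2 : (2 : ℝ) ≤ k := by exact_mod_cast hk
      have h : 1 / ((k : ℝ) + 2) ≤ 111 / 100 * ((k + 3) ^ 2 - (k + 12 / 5) ^ 2) / (k + 3) ^ 2 := by
        rw [div_le_div_iff₀ (by positivity) (by positivity)]
        linarith only [k2, mul_nonneg_of_nonpos_of_nonpos (Mathlib.Tactic.Linarith.sub_nonpos_of_le (Mathlib.Tactic.Linarith.natCast_nonneg ℝ k)) (Mathlib.Tactic.Linarith.sub_nonpos_of_le k2)]
      refine le_of_eq_of_le ?_ ((mul_le_mul_of_nonneg_left h (sq_nonneg (b0 (1 / 5) (k + 2)))).trans_eq ?_)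
      · ring
      · rw [b0_succ _ (k + 2)]
        push_cast
        field_simp
        ring
  refine ⟨h1, h2.trans ?_⟩
  norm_num [b0, Finset.sum_range_succ]

theorem a1_summable (hx : 0 < x) (h : x ≤ 1 / 4) : Summable fun k => a1 x (k + 1) :=
  Summable.of_nonneg_of_le (fun _ => WR_a1 hx _) (WR_mono hx h) (WR_four.1.mul_left _)

theorem a0_summable (hx : 0 < x) (h : x ≤ 1 / 4) : Summable fun k => a0 x (k + 1) := by
  refine Summable.of_nonneg_of_le (fun _ => WR_a0 hx _) (fun k => ?_) (a1_summable hx h)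
  have i3 := b0_nonneg hx.le (k + 1)
  have i4 := b1_nonneg hx.le (k + 1)
  have k0 : (0 : ℝ) ≤ (k + 1 : ℕ) := Nat.cast_nonneg _
  rw [a0, a1]
  refine le_add_of_nonneg_of_le (by positivity) ?_
  rw [mul_div_assoc, mul_div_assoc]
  refine mul_le_mul_of_nonneg_left ?_ (sq_nonneg _)
  rw [sq (x + _), ← div_div]
  refine div_le_div_of_nonneg_right ?_ (by positivity)
  rw [le_div_iff₀ (by positivity)]
  (refine le_of_not_gt fun h_nl => ?_; linarith only [h_nl, k0, hx, h, mul_nonneg k0 hx.le, sq_nonneg x, mul_nonneg_of_nonpos_of_nonpos (Mathlib.Tactic.Linarith.sub_nonpos_of_le (sq_nonneg x)) (Mathlib.Tactic.Linarith.sub_nonpos_of_le h), mul_pos_of_neg_of_neg (Mathlib.Tactic.Linarith.sub_neg_of_lt hx) (Mathlib.Tactic.Linarith.sub_neg_of_lt hx), mul_pos_of_neg_of_neg (Mathlib.Tactic.Linarith.sub_neg_of_lt hx) (Mathlib.Tactic.Linarith.sub_neg_of_lt h_nl), mul_nonneg_of_nonpos_of_nonpos (Mathlib.Tactic.Linarith.sub_nonpos_of_le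 h) (le_of_lt (Mathlib.Tactic.Linarith.sub_neg_of_lt h_nl)), mul_nonneg_of_nonpos_of_nonpos (Mathlib.Tactic.Linarith.sub_nonpos_of_le h) (Mathlib.Tactic.Linarith.sub_nonpos_of_le (mul_nonneg k0 (LT.lt.le hx)))])

theorem a0_low (hx : 0 < x) (h : x ≤ 1 / 4) : 21 / 5 * x ^ 4 ≤ ∑' k, a0 x (k + 1) := by
  refine le_trans ?_ ((a0_summable hx h).sum_le_tsum (Finset.range 2) fun _ _ => WR_a0 hx _)
  simp only [Finset.sum_range_succ, Finset.sum_range_zero, zero_add, a0, b0_one,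
    Nat.reduceAdd, b0_two]
  push_cast
  rw [div_add_div _ _ (by positivity) (by positivity), le_div_iff₀ (by positivity)]
  have : 0 ≤ x ^ 4 * ((1 / 4 - x) * (12 / 5 - 24 / 5 * x - 4 * x ^ 2)) :=
    mul_nonneg (by positivity) (mul_nonneg (by linarith only [h]) (by linarith only [hx, h, mul_nonneg_of_nonpos_of_nonpos (le_of_lt (Mathlib.Tactic.Linarith.sub_neg_of_lt hx)) (Mathlib.Tactic.Linarith.sub_nonpos_of_le h)]))
  linarith only [this]

theorem a0_up (hx : 0 < x) (h : x ≤ 1 / 5) :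
    ∑' k, a0 x (k + 1) ≤ 13 / 2 * x ^ 4 ∧ ∑' k, a0 x (k + 1) ≤ 23 / 20 * x ^ 3 := by
  have s := a0_summable hx (by linarith only [hx, h])
  have h1 : ∑' k, a0 x (k + 1 + 1) ≤ 241 / 100 * x ^ 4 := by
    refine (((summable_nat_add_iff 1).2 s).tsum_le_tsum (fun k => ?_)
      (WR_R.1.mul_left (25 * x ^ 4))).trans ?_
    · have i1 := WR_q hx h (k + 1)
      have i2 := b0_nonneg hx.le (k + 1 + 1)
      calc a0 x (k + 1 + 1) = x ^ 4 * ((b0 x (k + 1 + 1) / x) ^ 2 / (x + (k + 2))) := by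
            rw [a0]
            push_cast
            field_simp
            ring
        _ ≤ x ^ 4 * ((b0 (1 / 5) (k + 1 + 1) / (1 / 5)) ^ 2 / (k + 2)) := by
            gcongr _ * (?_ ^ 2 / ?_)
            linarith only [hx]
        _ = _ := by ring
    · rw [tsum_mul_left]
      (refine le_of_not_gt fun h_nl => ?_; linarith only [h_nl, hx, h, WR_R.2, pow_pos hx 4, mul_pos_of_neg_of_neg (Mathlib.Tactic.Linarith.sub_neg_of_lt hx) (Mathlib.Tactic.Linarith.sub_neg_of_lt h_nl), mul_nonneg_of_nonpos_of_nonpos (Mathlib.Tactic.Linarith.sub_nonpos_of_le h) (le_of_lt (Mathlib.Tactic.Linarith.sub_neg_of_lt h_nl)), mul_nonneg_of_nonpos_of_nonpos (Mathlib.Tactic.Linarith.sub_nonpos_of_le WR_R.right) (le_of_lt (Mathlib.Tactic.Linarith.sub_neg_of_lt (pow_pos hx (4 : ℕ))))])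
  have h2 : a0 x (0 + 1) ≤ 4 * x ^ 4 ∧ a0 x (0 + 1) ≤ 2 / 3 * x ^ 3 := by
    simp only [zero_add, a0, b0_one, Nat.cast_one, div_le_iff₀ (show 0 < x + 1 by linarith only [hx, h])]
    constructor <;> linarith only [hx, h, pow_pos hx 5, pow_pos hx 3, mul_nonneg_of_nonpos_of_nonpos (Mathlib.Tactic.Linarith.sub_nonpos_of_le h) (le_of_lt (Mathlib.Tactic.Linarith.sub_neg_of_lt (pow_pos hx (3 : ℕ))))]
  rw [s.tsum_eq_zero_add]
  constructor <;> (refine le_of_not_gt fun h_nl => ?_; linarith only [h_nl, h1, h2, hx, h, pow_pos hx 4, pow_pos hx 3, mul_nonneg_of_nonpos_of_nonpos (le_of_lt (Mathlib.Tactic.Linarith.sub_neg_of_lt hx)) (Mathlib.Tactic.Linarith.sub_nonpos_of_le h1), mul_nonneg_of_nonpos_of_nonpos (le_of_lt (Mathlib.Tactic.Linarith.sub_neg_of_lt hx)) (Mathlib.Tactic.Linarith.sub_nonpos_of_le h2.right), mul_pos_of_neg_of_neg (Mathlib.Tactic.Linarith.sub_neg_of_lt hx) (Mathlib.Tactic.Linarith.sub_neg_of_lt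 h_nl), mul_pos_of_neg_of_neg (Mathlib.Tactic.Linarith.sub_neg_of_lt hx) (Mathlib.Tactic.Linarith.sub_neg_of_lt (pow_pos hx (4 : ℕ))), mul_nonneg_of_nonpos_of_nonpos (Mathlib.Tactic.Linarith.sub_nonpos_of_le h) (le_of_lt (Mathlib.Tactic.Linarith.sub_neg_of_lt (pow_pos hx (4 : ℕ))))])

theorem WR_low (hx : 0 < x) {c : ℝ} (k : ℕ) (h : c * (x + k) ^ 2 ≤
    2 * b0 x k * b1 x k * x ^ 2 * (x + k) + b0 x k ^ 2 * (x ^ 2 + 2 * k * x)) : c ≤ a1 x k := by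
  rw [← le_div_iff₀ (by positivity)] at h
  refine h.trans_eq ?_
  rw [a1]
  field_simp

theorem A1_bd (hx : 0 < x) (h : x ≤ 1 / 5) :
    1 + 18 * x ^ 3 ≤ A1 x ∧ A1 x ≤ 1 + 49 / 10 * x ^ 2 := by
  have s := a1_summable hx (by linarith only [hx, h])
  have x3 := pow_pos hx 3
  constructor
  · have h0 := s.sum_le_tsum (Finset.range 3) fun _ _ => WR_a1 hx _
    have h1 : x ^ 3 * (63 / 4 - 16 * x) ≤ a1 x 1 := WR_low hx 1 (by
      rw [b0_one, b1_one]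
      push_cast
      have : 0 ≤ 1 / 4 - 7 / 2 * x + 65 / 4 * x ^ 2 + 16 * x ^ 3 := by
        linarith only [h, x3, sq_nonneg (x - 1 / 10), sq_nonneg ((10 : ℝ) * x - (1 : ℝ) * (1 : ℝ))]
      linarith only [x3, this, mul_nonneg x3.le this])
    have h2 : x ^ 3 * (193 / 100 + 10 * x) ≤ a1 x 2 := WR_low hx 2 (by
      rw [b0_two, b1_two]
      push_cast
      have : 0 ≤ 2 * (1 + 2 * x) * (1 + 4 * x) * (x + 2) + (1 + 2 * x) ^ 2 * (x + 4) -
          (193 / 100 + 10 * x) * (x + 2) ^ 2 := by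
        linarith only [h, x3, hx, sq_nonneg (x - 1 / 10), sq_nonneg ((10 : ℝ) * x - (1 : ℝ) * (1 : ℝ)), mul_nonneg_of_nonpos_of_nonpos (Mathlib.Tactic.Linarith.sub_nonpos_of_le (sq_nonneg ((10 : ℝ) * x - (1 : ℝ) * (1 : ℝ)))) (le_of_lt (Mathlib.Tactic.Linarith.sub_neg_of_lt hx))]
      linarith only [x3, this, mul_nonneg x3.le this])
    have h3 : x ^ 3 * (9 / 20 + 6 * x) ≤ a1 x 3 := WR_low hx 3 (by
      rw [b1_succ, b0_succ, b0_two, b1_two]
      push_cast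
      have : 0 ≤ 2 * ((1 + 2 * x) * (2 * x + 2) / 3) * ((2 + 12 * x + 12 * x ^ 2) / 3) * (x + 3) +
          ((1 + 2 * x) * (2 * x + 2) / 3) ^ 2 * (x + 6) - (9 / 20 + 6 * x) * (x + 3) ^ 2 := by
        linarith only [hx, x3, sq_nonneg (x - 1 / 10), pow_pos hx 4, pow_pos hx 5, sq_nonneg ((10 : ℝ) * x - (1 : ℝ) * (1 : ℝ))]
      linarith only [x3, this, mul_nonneg x3.le this])
    simp only [Finset.sum_range_succ, Finset.sum_range_zero, zero_add, Nat.reduceAdd] at h0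
    rw [A1]
    linarith only [x3, h1, h2, h3, h0]
  · have h0 := s.tsum_le_tsum (WR_mono hx h) ((a1_summable (by norm_num) (by norm_num)).mul_left _)
    rw [tsum_mul_left] at h0
    rw [A1]
    linarith only [h0, WR_five, sq_nonneg x, mul_nonneg_of_nonpos_of_nonpos (Mathlib.Tactic.Linarith.sub_nonpos_of_le (sq_nonneg x)) (Mathlib.Tactic.Linarith.sub_nonpos_of_le WR_five)]

theorem A1_bd' (hx : 0 < x) (h : x ≤ 1 / 4) : 1 ≤ A1 x ∧ A1 x ≤ 3 / 2 := by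
  have h0 := (a1_summable hx h).tsum_le_tsum (WR_mono hx h) (WR_four.1.mul_left _)
  have h1 : 0 ≤ ∑' k, a1 x (k + 1) := tsum_nonneg fun _ => WR_a1 hx _
  have h2 : 0 ≤ ∑' k, a1 (1 / 4) (k + 1) := tsum_nonneg fun _ => WR_a1 (by norm_num) _
  rw [tsum_mul_left] at h0
  have h3 : (x / (1 / 4)) ^ 2 ≤ 1 := by linarith only [h, hx, mul_nonneg_of_nonpos_of_nonpos (le_of_lt (Mathlib.Tactic.Linarith.sub_neg_of_lt hx)) (Mathlib.Tactic.Linarith.sub_nonpos_of_le h)]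
  rw [A1]
  constructor <;> linarith only [h1, h0, h3, WR_four.2, mul_nonneg_of_nonpos_of_nonpos (Mathlib.Tactic.Linarith.sub_nonpos_of_le (sq_nonneg ((1 : ℝ) * x * ((1 : ℝ) * (4 : ℝ))))) (Mathlib.Tactic.Linarith.sub_nonpos_of_le WR_four.right)]

end Pool.Agent.Work.MP_267827_an.PS
end

-- merged part: Pool.Agent.Work.MP_267827_an.PS.WT
section
/-! The series for the area: convexity.

`b0 x (k + 1) = x * q k x` with `q k` nonnegative, increasing and convex on `x ≥ 0` (induction,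
`ConvexOn.mul`); `x ^ 2 / (x + k)` has the same properties.  Hence `a0 x k` and
`a0 x k / x ^ 2 = q ^ 2 * x ^ 2 / (x + k)` are convex and lie above their tangents (`a1` is the
derivative of `a0`, `b0_der`).  For `tan_A` the first four terms have second derivative at least
`49.9 x ^ 2 + 60 x ^ 3` on `(0, 1 / 4]`; write
`1 / (x + k) = 1 / k - x / k ^ 2 + x ^ 2 / k ^ 3 - x ^ 3 / k ^ 4 + x ^ 4 / (k ^ 4 (x + k))`, the last
part gives a convex function, the rest is a polynomial. -/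

set_option autoImplicit false

namespace Pool.Agent.Work.MP_267827_an.PS

open MeasureTheory Set Filter Topology Real

variable {x x₀ : ℝ}

/-- nonnegative, increasing and above the tangents on the half line -/
def WTt (f f' : ℝ → ℝ) : Prop :=
  ∀ y, 0 ≤ y → 0 ≤ f y ∧ 0 ≤ f' y ∧ ∀ x, 0 ≤ x → f' y * (x - y) ≤ f x - f y

theorem WTt.mul {f f' g g' : ℝ → ℝ} (hf : WTt f f') (hg : WTt g g') :
    WTt (fun x => f x * g x) (fun x => f' x * g x + f x * g' x) := by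
  intro y hy
  obtain ⟨f0, f1, f2⟩ := hf y hy
  obtain ⟨g0, g1, g2⟩ := hg y hy
  refine ⟨mul_nonneg f0 g0, add_nonneg (mul_nonneg f1 g0) (mul_nonneg f0 g1), fun x hx => ?_⟩
  obtain ⟨-, f3, f4⟩ := hf x hx
  obtain ⟨-, g3, g4⟩ := hg x hx
  have key : 0 ≤ (f x - f y) * (g x - g y) := by
    rcases le_total x y with h | h
    · have a := (mul_nonneg f3 (sub_nonneg.2 h)).trans (f4 y hy)
      have b := (mul_nonneg g3 (sub_nonneg.2 h)).trans (g4 y hy)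
      exact mul_nonneg_of_nonpos_of_nonpos (by linarith) (by linarith)
    · exact mul_nonneg ((mul_nonneg f1 (sub_nonneg.2 h)).trans (f2 x hx))
        ((mul_nonneg g1 (sub_nonneg.2 h)).trans (g2 x hx))
  have a := mul_le_mul_of_nonneg_left (f2 x hx) g0
  have b := mul_le_mul_of_nonneg_left (g2 x hx) f0
  simp only
  linarith only [key, a, b]

theorem WTt.congr {f f' g g' : ℝ → ℝ} (hf : WTt f f') (e : ∀ x, 0 ≤ x → g x = f x)
    (e' : ∀ x, 0 ≤ x → g' x = f' x) : WTt g g' := by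
  intro y hy
  obtain ⟨f0, f1, f2⟩ := hf y hy
  rw [e y hy, e' y hy]
  exact ⟨f0, f1, fun x hx => by rw [e x hx]; exact f2 x hx⟩

theorem WT_lin {a b : ℝ} (ha : 0 ≤ a) (hb : 0 ≤ b) : WTt (fun x => a * x + b) (fun _ => a) :=
  fun y hy => ⟨by positivity, ha, fun x _ => by simp only; linarith⟩

theorem WT_frac {k : ℝ} (hk : 0 < k) :
    WTt (fun x => x ^ 2 / (x + k)) (fun x => (x ^ 2 + 2 * k * x) / (x + k) ^ 2) := by
  intro y hy
  refine ⟨by positivity, by positivity, fun x hx => ?_⟩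
  have e : x ^ 2 / (x + k) - y ^ 2 / (y + k) - (y ^ 2 + 2 * k * y) / (y + k) ^ 2 * (x - y) =
      k ^ 2 * (x - y) ^ 2 / ((x + k) * (y + k) ^ 2) := by
    field_simp
    ring
  have : 0 ≤ k ^ 2 * (x - y) ^ 2 / ((x + k) * (y + k) ^ 2) := by positivity
  simp only
  linarith only [e, this]

theorem WT_b : ∀ k : ℕ, WTt (fun x => b0 x k) (fun x => b1 x k)
  | 0 => fun y _ => ⟨zero_le_one, le_rfl, fun x _ => by simp [b0, b1]⟩
  | k + 1 => ((WT_b k).mul (WT_lin (a := 2 / (k + 1)) (b := k / (k + 1)) (by positivity)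
      (by positivity))).congr (fun x _ => by rw [b0_succ]; ring) (fun x _ => by rw [b1_succ]; ring)

theorem WT_a (k : ℕ) : WTt (fun x => a0 x (k + 1)) (fun x => a1 x (k + 1)) :=
  (((WT_b (k + 1)).mul (WT_b (k + 1))).mul (WT_frac (k := (k + 1 : ℕ)) (by positivity))).congr
    (fun x _ => by rw [a0]; ring) (fun x _ => by rw [a1]; ring)

/-- the coefficients divided by `x` -/
noncomputable def WTq (x : ℝ) : ℕ → ℝ
  | 0 => 2
  | k + 1 => WTq x k * (2 * x + (k + 1)) / (k + 2)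

/-- their derivatives -/
noncomputable def WTr (x : ℝ) : ℕ → ℝ
  | 0 => 0
  | k + 1 => (WTr x k * (2 * x + (k + 1)) + 2 * WTq x k) / (k + 2)

theorem WT_q : ∀ k : ℕ, WTt (fun x => WTq x k) (fun x => WTr x k)
  | 0 => fun y _ => ⟨zero_le_two, le_rfl, fun x _ => by simp [WTq, WTr]⟩
  | k + 1 => ((WT_q k).mul (WT_lin (a := 2 / (k + 2)) (b := (k + 1) / (k + 2)) (by positivity)
      (by positivity))).congr (fun x _ => by rw [WTq]; ring) (fun x _ => by rw [WTr]; ring)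

theorem WT_bq (x : ℝ) : ∀ k : ℕ, b0 x (k + 1) = x * WTq x k ∧
    b1 x (k + 1) = WTq x k + x * WTr x k
  | 0 => by rw [b0_one, b1_one, WTq, WTr]; constructor <;> ring
  | k + 1 => by
    obtain ⟨e0, e1⟩ := WT_bq x k
    rw [b0_succ x (k + 1), b1_succ x (k + 1), e0, e1, WTq, WTr]
    push_cast
    constructor <;> ring

theorem WT_d (k : ℕ) (hx : 0 < x) (h0 : 0 < x₀) :
    0 ≤ a0 x (k + 1) / x ^ 2 - a0 x₀ (k + 1) / x₀ ^ 2 -
      (a1 x₀ (k + 1) / x₀ ^ 2 - 2 * a0 x₀ (k + 1) / x₀ ^ 3) * (x - x₀) := by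
  have hk : (0 : ℝ) < (k + 1 : ℕ) := by positivity
  have := ((((WT_q k).mul (WT_q k)).mul (WT_frac hk)) x₀ h0.le).2.2 x hx.le
  simp only [a0, a1, (WT_bq _ k).1, (WT_bq _ k).2] at this ⊢
  generalize ((k + 1 : ℕ) : ℝ) = m at *
  rw [← sub_nonneg] at this
  refine this.trans_eq ?_
  field_simp
  ring

theorem WT_four : WTt (fun x => x ^ 4) (fun x => 4 * x ^ 3) := by
  have l := WT_lin zero_le_one le_rfl
  exact ((l.mul l).mul (l.mul l)).congr (fun x _ => by ring) (fun x _ => by ring)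

/-- a term lies above its tangent by at least the tangent defect of a polynomial -/
theorem WT_term (k : ℕ) (hx : 0 ≤ x) (h0 : 0 ≤ x₀) {m : ℝ} (hm : m = k + 1) :
    b0 x (k + 1) ^ 2 * (m ^ 3 * x ^ 2 - m ^ 2 * x ^ 3 + m * x ^ 4 - x ^ 5) / m ^ 4 -
      b0 x₀ (k + 1) ^ 2 * (m ^ 3 * x₀ ^ 2 - m ^ 2 * x₀ ^ 3 + m * x₀ ^ 4 - x₀ ^ 5) / m ^ 4 -
      (2 * b0 x₀ (k + 1) * b1 x₀ (k + 1) *
          (m ^ 3 * x₀ ^ 2 - m ^ 2 * x₀ ^ 3 + m * x₀ ^ 4 - x₀ ^ 5) + b0 x₀ (k + 1) ^ 2 *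
          (2 * m ^ 3 * x₀ - 3 * m ^ 2 * x₀ ^ 2 + 4 * m * x₀ ^ 3 - 5 * x₀ ^ 4)) / m ^ 4 * (x - x₀) ≤
      a0 x (k + 1) - a0 x₀ (k + 1) - a1 x₀ (k + 1) * (x - x₀) := by
  have hk : 0 < m := by rw [hm]; positivity
  have := (((WT_a k).mul WT_four) x₀ h0).2.2 x hx
  rw [← sub_nonneg] at this ⊢
  have h2 := div_nonneg this (pow_pos hk 4).le
  simp only [a0, a1, Nat.cast_add, Nat.cast_one, ← hm] at h2 ⊢
  refine h2.trans_eq ?_
  generalize b0 x (k + 1) = u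
  generalize b0 x₀ (k + 1) = v
  generalize b1 x₀ (k + 1) = w
  field_simp
  ring

theorem WT_poly (c : ℕ → ℝ) (n : ℕ)
    (h : ∀ t ∈ Icc (0 : ℝ) (1 / 4), 0 ≤ ∑ j ∈ Finset.range n, c j * ((j + 2) * ((j + 1) * t ^ j)))
    (hx : x ∈ Icc (0 : ℝ) (1 / 4)) (h0 : x₀ ∈ Icc (0 : ℝ) (1 / 4)) :
    (∑ j ∈ Finset.range n, c j * ((j + 2) * x₀ ^ (j + 1))) * (x - x₀) ≤
      ∑ j ∈ Finset.range n, c j * x ^ (j + 2) - ∑ j ∈ Finset.range n, c j * x₀ ^ (j + 2) := by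
  have d1 : ∀ t : ℝ, HasDerivAt (fun t => ∑ j ∈ Finset.range n, c j * t ^ (j + 2))
      (∑ j ∈ Finset.range n, c j * ((j + 2) * t ^ (j + 1))) t := fun t =>
    HasDerivAt.fun_sum fun j _ => ((hasDerivAt_pow (j + 2) t).const_mul (c j)).congr_deriv (by
      push_cast; rfl)
  have d2 : ∀ t : ℝ, HasDerivAt (fun t => ∑ j ∈ Finset.range n, c j * ((j + 2) * t ^ (j + 1)))
      (∑ j ∈ Finset.range n, c j * ((j + 2) * ((j + 1) * t ^ j))) t := fun t =>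
    HasDerivAt.fun_sum fun j _ => (((hasDerivAt_pow (j + 1) t).const_mul
      ((j : ℝ) + 2)).const_mul (c j)).congr_deriv (by push_cast; rfl)
  have hc := convexOn_of_hasDerivWithinAt2_nonneg (convex_Icc (0 : ℝ) (1 / 4))
    (fun t _ => (d1 t).continuousAt.continuousWithinAt) (fun t _ => (d1 t).hasDerivWithinAt)
    (fun t _ => (d2 t).hasDerivWithinAt) (fun t ht => h t (interior_subset ht))
  rcases lt_trichotomy x x₀ with l | l | l
  · have := hc.slope_le_of_hasDerivAt hx h0 l (d1 x₀)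
    rw [slope_def_field, div_le_iff₀ (sub_pos.2 l)] at this
    linarith
  · simp [l]
  · have := hc.le_slope_of_hasDerivAt h0 hx l (d1 x₀)
    rwa [slope_def_field, le_div_iff₀ (sub_pos.2 l)] at this

/-- the coefficients of the polynomial part -/
noncomputable def WTc : ℕ → ℝ
  | 2 => 307 / 432
  | 3 => -20569 / 5184
  | 4 => 497707 / 62208
  | 5 => -1224865 / 746496
  | 6 => 201403 / 124416
  | 7 => 34799 / 746496
  | 8 => 1 / 72
  | 9 => -3101 / 93312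
  | 10 => -1 / 288
  | 11 => -1 / 576
  | _ => 0

theorem WT_num (t : ℝ) (ht : t ∈ Icc (0 : ℝ) (1 / 4)) :
    0 ≤ ∑ j ∈ Finset.range 12, WTc j * ((j + 2) * ((j + 1) * t ^ j)) := by
  obtain ⟨h0, h1⟩ := ht
  simp only [Finset.sum_range_succ, Finset.sum_range_zero, WTc]
  push_cast
  have h2 : t ≤ 1 := by linarith only [h1]
  have a1 : t ^ 9 ≤ t ^ 6 := pow_le_pow_of_le_one h0 h2 (by norm_num)
  have a2 : t ^ 10 ≤ t ^ 6 := pow_le_pow_of_le_one h0 h2 (by norm_num)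
  have a3 : t ^ 11 ≤ t ^ 6 := pow_le_pow_of_le_one h0 h2 (by norm_num)
  have a4 : 0 ≤ t ^ 4 * (1 / 4 - t) := mul_nonneg (by positivity) (by linarith only [h1])
  have a5 : 0 ≤ t ^ 2 * (t - 9 / 50) ^ 2 := by positivity
  have p2 : 0 ≤ t ^ 2 := by positivity
  have p4 : 0 ≤ t ^ 4 := by positivity
  have p6 : 0 ≤ t ^ 6 := by positivity
  have p7 : 0 ≤ t ^ 7 := by positivity
  have p8 : 0 ≤ t ^ 8 := by positivity
  have e4 : t ^ 4 * (1 / 4 - t) = t ^ 4 / 4 - t ^ 5 := by ring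
  have e5 : t ^ 2 * (t - 9 / 50) ^ 2 = t ^ 4 - 9 / 25 * t ^ 3 + 81 / 2500 * t ^ 2 := by ring
  rw [e4] at a4
  rw [e5] at a5
  clear * - t a1 a2 a3 a4 a5 p2 p4 p6 p7 p8
  linarith only [a1, a2, a3, a4, a5, p2, p4, p6, p7, p8]

theorem tan_a0 (hx : 0 < x) (h : x ≤ 1 / 4) (h0 : 0 < x₀) (h0' : x₀ ≤ 1 / 4) :
    (4 * (x ^ 2 + 2 * x * x₀ + 3 * x₀ ^ 2) +
        3 * (x ^ 3 + 2 * x ^ 2 * x₀ + 3 * x * x₀ ^ 2 + 4 * x₀ ^ 3)) * (x - x₀) ^ 2 ≤
      (∑' k, a0 x (k + 1)) - (∑' k, a0 x₀ (k + 1)) - (∑' k, a1 x₀ (k + 1)) * (x - x₀) := by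
  have hs := ((a0_summable hx h).hasSum.sub (a0_summable h0 h0').hasSum).sub
    ((a1_summable h0 h0').hasSum.mul_right (x - x₀))
  refine le_trans ?_ (sum_le_hasSum (Finset.range 4) (fun k _ => ?_) hs)
  · have t0 := WT_term 0 hx.le h0.le (m := 1) (by norm_num)
    have t1 := WT_term 1 hx.le h0.le (m := 2) (by norm_num)
    have t2 := WT_term 2 hx.le h0.le (m := 3) (by norm_num)
    have t3 := WT_term 3 hx.le h0.le (m := 4) (by norm_num)
    have p := WT_poly WTc 12 WT_num ⟨hx.le, h⟩ ⟨h0.le, h0'⟩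
    simp only [Finset.sum_range_succ, Finset.sum_range_zero, WTc] at p ⊢
    refine le_trans ?_ (add_le_add (add_le_add (add_le_add (add_le_add le_rfl t0) t1) t2) t3)
    simp only [b0, b1]
    push_cast at p ⊢
    rw [← sub_nonneg] at p ⊢
    refine p.trans_eq ?_
    ring
  · have := (WT_a k x₀ h0.le).2.2 x hx.le
    simp only at this
    linarith only [this]

theorem tan_d0 (hx : 0 < x) (h : x ≤ 1 / 4) (h0 : 0 < x₀) (h0' : x₀ ≤ 1 / 4) :
    0 ≤ (∑' k, a0 x (k + 1)) / x ^ 2 - (∑' k, a0 x₀ (k + 1)) / x₀ ^ 2 -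
      ((∑' k, a1 x₀ (k + 1)) / x₀ ^ 2 - 2 * (∑' k, a0 x₀ (k + 1)) / x₀ ^ 3) * (x - x₀) := by
  have s0 := (a0_summable h0 h0').hasSum
  exact ((((a0_summable hx h).hasSum.div_const (x ^ 2)).sub (s0.div_const (x₀ ^ 2))).sub
    ((((a1_summable h0 h0').hasSum.div_const (x₀ ^ 2)).sub
      ((s0.mul_left 2).div_const (x₀ ^ 3))).mul_right (x - x₀))).nonneg fun k => WT_d k hx h0

end Pool.Agent.Work.MP_267827_an.PS
end
end

-- merged part: Pool.Agent.Work.MP_267827_an.PS.WK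
section
-- merged part: Pool.Agent.Work.MP_267827_an.PS.WQ
section
/-! The three bounds for the weight and its two derivatives (Parseval is in WC.lean).

`E`: the mean of `Re (HT j)` over `t` vanishes, `JJ ≤ DD |σ|`, Cauchy-Schwarz, `Iw_A`.
`γ`: `|∫ 2 Re (HT j) w dt| ≤ √(2 ST j) √(∫ (dt w) ^ 2) / π` (`HT_pair_le`), so `γ ^ 2 = 2 Iw 4 j`.
`α`: `|nB (QT j) JV w| ≤ DD √(∫ exp (4 σ) σ ^ 4 QT j ^ 2) * 2 √(Ds w)` (Hardy), with
`σ ^ 2 ‖HT 0‖ ^ 2 ≤ 4 x ^ 4 exp (σ / x)` (`‖HT 0‖ ≤ 2 x y / (1 - y)`, `(a y / (1 - y)) ^ 2 ≤ y`) and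
`|σ| ‖HT 1‖ ≤ 4 x` (`∑ y ^ k (2 + 2 k a)`): `α₀ ^ 2 = 16 x ^ 4 IC₀`, `α₁ ^ 2 = 64 x ^ 4 IC₁`,
`α₂ = 4 (4 x √IB₁ + 2 x ^ 2 √IC₂)`. -/

set_option autoImplicit false

namespace Pool.Agent.Work.MP_267827_an.PS

open MeasureTheory Set Filter Topology Real

theorem WQ_cs {α : Type} [MeasurableSpace α] {μ : Measure α} {F P Q : α → ℝ}
    (hP : Integrable P μ) (hQ : Integrable Q μ)
    (h : ∀ᵐ a ∂μ, 0 ≤ P a ∧ 0 ≤ Q a ∧ F a ^ 2 ≤ P a * Q a) :
    |∫ a, F a ∂μ| ≤ √(∫ a, P a ∂μ) * √(∫ a, Q a ∂μ) := by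
  have e1 : (fun a => √(P a) ^ 2) =ᵐ[μ] P := h.mono fun a ha => sq_sqrt ha.1
  have e2 : (fun a => √(Q a) ^ 2) =ᵐ[μ] Q := h.mono fun a ha => sq_sqrt ha.2.1
  have i : Integrable (fun a => √(P a) * √(Q a)) μ :=
    (iadd hP hQ).mono' ((continuous_sqrt.comp_aestronglyMeasurable hP.1).mul
      (continuous_sqrt.comp_aestronglyMeasurable hQ.1)) (h.mono fun a ha => by
        rw [norm_of_nonneg (by positivity)]
        linarith only [ha, sq_sqrt ha.1, sq_sqrt ha.2.1, sq_nonneg (√(P a) - √(Q a)), ha.1, ha.2.1, sq_nonneg (√(P a) - √(Q a))])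
  have h1 := cs (hP.congr e1.symm) (hQ.congr e2.symm) i
  rw [integral_congr_ae e1, integral_congr_ae e2] at h1
  exact (norm_integral_le_of_norm_le (f := F) i
    (h.mono fun a ha => abs_le_sqrt_mul ha.1 ha.2.2)).trans ((le_abs_self _).trans
      (abs_le_sqrt_mul (integral_nonneg_of_ae (h.mono fun a ha => ha.1)) h1))

variable {x : ℝ} {w Ω : ℝ × ℝ → ℝ}

theorem WQ_J : VV JV := v1_JJ.toVV.1

theorem WQ_I (hx : 0 < x) (h : x ≤ 1 / 4) {c : ℝ} (hc : 0 < c) (j : ℕ) :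
    Integrable (fun p : ℝ × ℝ => exp (c * p.1) * p.1 ^ 2 * ‖HT j x p‖ ^ 2) nu ∧
    ∫ p, exp (c * p.1) * p.1 ^ 2 * ‖HT j x p‖ ^ 2 ∂nu = Iw c j x := by
  have h3 : x ≤ 1 / 3 := by linarith only [hx, h]
  have i : Integrable (fun p : ℝ × ℝ => exp (c * p.1) * p.1 ^ 2 * ‖HT j x p‖ ^ 2) nu :=
    TwoD_int (meas_nu (ContinuousOn.mul (by fun_prop) ((HT_cont hx h3 j).norm.pow 2)))
      ((int_exp hc).const_mul ((64 / x ^ 2) ^ 2)) fun p hp _ => by
        have := pow_le_pow_left₀ (by positivity) (HT_crude hx le_rfl h3 hp j) 2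
        rw [mul_pow, sq_abs] at this
        rw [abs_of_nonneg (by positivity)]
        linarith only [this, mul_le_mul_of_nonneg_left this (exp_pos (c * p.1)).le]
  refine ⟨i, ?_⟩
  rw [(nu_fub' i).2, Iw]
  refine integral_congr_ae (ae_m0 fun σ hσ => ?_)
  simp only
  rw [integral_const_mul, ST_eq hx h3 hσ]

theorem WQ_fub (hi : Integrable (fun p => exp (2 * p.1) * Ω p * (JV p * JV p)) nu) :
    nB Ω JV JV = ∫ σ, exp (2 * σ) * (∫ t, Ω (σ, t) ∂m1) * (JJ σ * JJ σ) ∂m0 := by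
  rw [nB, (nu_fub' hi).2]
  simp only [JV, integral_mul_const, integral_const_mul]

theorem WQ_mean (hx : 0 < x) (h : x ≤ 1 / 4) (j : ℕ) : nB (WT j x) JV JV = nB (QT j x) JV JV := by
  have h3 : x ≤ 1 / 3 := by linarith only [hx, h]
  rw [WQ_fub (WT_int hx h3 j WQ_J WQ_J), WQ_fub (QT_int hx h3 j WQ_J WQ_J)]
  exact integral_congr_ae (ae_m0 fun σ hσ => by simp only [WT_mean hx h3 hσ])

theorem JJ_sign (hx : 0 < x) (h : x ≤ 1 / 4) :
    0 ≤ nB (WT 0 x) JV JV ∧ 0 ≤ nB (WT 1 x) JV JV := by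
  have h3 : x ≤ 1 / 3 := by linarith only [hx, h]
  rw [WQ_mean hx h, WQ_mean hx h, WQ_fub (QT_int hx h3 0 WQ_J WQ_J),
    WQ_fub (QT_int hx h3 1 WQ_J WQ_J)]
  constructor <;> refine integral_nonneg_of_ae (ae_m0 fun σ hσ =>
    mul_nonneg (mul_nonneg (exp_pos _).le ?_) (mul_self_nonneg _))
  · exact (QT_mean hx h3 hσ).1.nonneg fun k => sq_nonneg _
  · exact (QT_mean hx h3 hσ).2.1.nonneg fun k => mul_nonneg zero_le_two
      (mul_nonneg (TT_nonneg hx hσ.le 0 k) (TT_nonneg hx hσ.le 1 k))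

theorem WQ_E (hx : 0 < x) (h : x ≤ 1 / 4) {j : ℕ} {a b c : ℝ} (hb : ∀ p, |QT j x p| ≤
      a * ‖HT 0 x p‖ ^ 2 + b * ‖HT 1 x p‖ ^ 2 + c * ‖HT 2 x p‖ ^ 2) {E : ℝ}
    (hE : a * Iw 2 0 x + b * Iw 2 1 x + c * Iw 2 2 x ≤ E) : |nB (WT j x) JV JV| ≤ E * DD ^ 2 := by
  obtain ⟨i0, v0⟩ := WQ_I hx h two_pos 0
  obtain ⟨i1, v1⟩ := WQ_I hx h two_pos 1
  obtain ⟨i2, v2⟩ := WQ_I hx h two_pos 2
  have a1 := iadd (i0.const_mul a) (i1.const_mul b)
  rw [WQ_mean hx h]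
  refine (norm_integral_le_of_norm_le (f := fun p => exp (2 * p.1) * QT j x p * (JV p * JV p))
    ((iadd a1 (i2.const_mul c)).mul_const (DD ^ 2)) (ae_nu fun p hp _ => ?_)).trans ?_
  · rw [norm_eq_abs, abs_mul, abs_mul, abs_of_pos (exp_pos _), abs_mul_self, JV, ← sq]
    refine (mul_le_mul (mul_le_mul_of_nonneg_left (hb p) (exp_pos _).le) (JJ_sq_le hp.le)
      (sq_nonneg _) (mul_nonneg (exp_pos _).le ((abs_nonneg _).trans (hb p)))).trans_eq ?_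
    ring
  · rw [integral_mul_const, integral_add a1 (i2.const_mul c),
      integral_add (i0.const_mul a) (i1.const_mul b), integral_const_mul, integral_const_mul,
      integral_const_mul, v0, v1, v2]
    exact mul_le_mul_of_nonneg_right hE (sq_nonneg _)

theorem WQ_al (hw : VV w) {P : ℝ × ℝ → ℝ} (hP : Integrable P nu)
    (hb : ∀ p : ℝ × ℝ, p.1 < 0 → (exp (2 * p.1) * p.1 ^ 2 * Ω p) ^ 2 ≤ P p) {α : ℝ} (α0 : 0 ≤ α)
    (hα : 4 * ∫ p, P p ∂nu ≤ α ^ 2) : |nB Ω JV w| ≤ DD * (α * √(Ds w)) := by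
  have D0 := DD_pos
  refine (WQ_cs (hP.const_mul (DD ^ 2)) hw.int_H (ae_nu fun p hp _ =>
    ⟨mul_nonneg (sq_nonneg _) ((sq_nonneg _).trans (hb p hp)), by positivity, ?_⟩)).trans ?_
  · have s0 := hp.ne
    have h1 := mul_le_mul_of_nonneg_left (JJ_sq_le hp.le)
      (sq_nonneg (exp (2 * p.1) * Ω p * w p))
    have h2 := mul_le_mul_of_nonneg_right (hb p hp)
      (show 0 ≤ DD ^ 2 * ((p.1 ^ 2)⁻¹ * w p ^ 2) by positivity)
    have e : (exp (2 * p.1) * p.1 ^ 2 * Ω p) ^ 2 * (DD ^ 2 * ((p.1 ^ 2)⁻¹ * w p ^ 2)) =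
        (exp (2 * p.1) * Ω p * w p) ^ 2 * (DD ^ 2 * p.1 ^ 2) := by field_simp
    rw [JV]
    linarith only [h1, h2, e]
  · have h1 : √(∫ p, DD ^ 2 * P p ∂nu) ≤ DD * (α / 2) := by
      rw [integral_const_mul]
      exact sqrt_le_iff.2 ⟨by positivity, by linarith only [hα, sq_nonneg DD, mul_nonneg_of_nonpos_of_nonpos (Mathlib.Tactic.Linarith.sub_nonpos_of_le (sq_nonneg DD)) (Mathlib.Tactic.Linarith.sub_nonpos_of_le hα)]⟩
    have h2 : √(∫ p, (p.1 ^ 2)⁻¹ * w p ^ 2 ∂nu) ≤ 2 * √(Ds w) :=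
      sqrt_le_iff.2 ⟨by positivity, by rw [mul_pow, sq_sqrt (Ds_nonneg w)]; linarith only [hw, hw.hardy]⟩
    exact (mul_le_mul h1 h2 (sqrt_nonneg _) (by positivity)).trans_eq (by ring)

theorem WQ_Jw (hx : 0 < x) (h : x ≤ 1 / 4) (hw : VV w) {j : ℕ} {α γ : ℝ}
    (hα : |nB (QT j x) JV w| ≤ DD * (α * √(Ds w))) (γ0 : 0 ≤ γ) (hγ : 2 * Iw 4 j x ≤ γ ^ 2) :
    |nB (WT j x) JV w| ≤ DD * (α * √(Ds w) + γ * (√(Dt w) / π)) := by
  have h3 : x ≤ 1 / 3 := by linarith only [hx, h]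
  have D0 := DD_pos
  have iQ := QT_int hx h3 j WQ_J hw
  have i : Integrable (fun p => 2 * exp (2 * p.1) * JJ p.1 * ((HT j x p).re * w p)) nu :=
    (isub (WT_int hx h3 j WQ_J hw) iQ).congr (Eventually.of_forall fun p => by
      simp only [WT, JV]; ring)
  have e : nB (WT j x) JV w = nB (QT j x) JV w +
      ∫ σ, 2 * exp (2 * σ) * JJ σ * (∫ t, (HT j x (σ, t)).re * w (σ, t) ∂m1) ∂m0 := by
    simp only [← integral_const_mul]
    rw [← (nu_fub' i).2, nB, nB, ← integral_add iQ i]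
    congr 1; ext p; simp only [WT, JV]; ring
  obtain ⟨it, vt⟩ := nu_fub' hw.int_t
  rw [e, mul_add]
  refine (abs_add_le _ _).trans (add_le_add hα ?_)
  refine (WQ_cs ((Iw_int hx h zero_le_four j).const_mul (2 * DD ^ 2)) (it.div_const (π ^ 2))
    (ae_m0 fun σ hσ => ?_)).trans (mul_le_mul_of_nonneg_right (c := DD * γ) ?_
      (sqrt_nonneg _) |>.trans_eq ?_)
  · have S0 : 0 ≤ ST j x σ := tsum_nonneg fun _ => sq_nonneg _
    have B0 : 0 ≤ (∫ t, dt w (σ, t) ^ 2 ∂m1) / π ^ 2 :=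
      div_nonneg (integral_nonneg fun _ => sq_nonneg _) (sq_nonneg _)
    refine ⟨by positivity, B0, ?_⟩
    obtain ⟨s, h1⟩ := HT_pair_le hx h3 hσ j (w := fun t => w (σ, t)) (w' := fun t => dt w (σ, t))
      (hw.cont.comp (by fun_prop) fun _ _ => hσ) (hw.cont_dt.comp (by fun_prop) fun _ _ => hσ)
      fun t _ => hw.der_t hσ t
    have h2 : ∑' k : ℕ, (TT j x σ (k + 1) / (k + 1)) ^ 2 ≤ ST j x σ :=
      s.tsum_le_tsum (fun k => pow_le_pow_left₀ (div_nonneg (TT_nonneg hx hσ.le j k) (WA_k k).le)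
        (div_le_self (TT_nonneg hx hσ.le j k) (by linarith only [k.cast_nonneg (α := ℝ)])) 2)
        (HT_parseval hx h3 hσ j).summable
    have h4 := mul_le_mul (JJ_sq_le hσ.le) (h1.trans (mul_le_mul_of_nonneg_right
      (div_le_div_of_nonneg_right h2 zero_le_two) B0)) (sq_nonneg _) (by positivity)
    have e4 : exp (4 * σ) = exp (2 * σ) ^ 2 := by rw [← exp_nat_mul]; congr 1; push_cast; ring
    rw [e4]
    linarith only [h4, mul_le_mul_of_nonneg_left h4 (sq_nonneg (2 * exp (2 * σ)))]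
  · rw [integral_const_mul]
    exact sqrt_le_iff.2 ⟨by positivity, by unfold Iw at hγ; linarith only [hγ, sq_nonneg DD, mul_nonneg_of_nonpos_of_nonpos (Mathlib.Tactic.Linarith.sub_nonpos_of_le (sq_nonneg DD)) (Mathlib.Tactic.Linarith.sub_nonpos_of_le hγ)]⟩
  · rw [integral_div, ← vt, sqrt_div' _ (sq_nonneg π), sqrt_sq pi_pos.le, mul_assoc, Dt]

theorem WQ_y {a : ℝ} (ha : 0 ≤ a) : a ^ 2 * exp (-a) ≤ (1 - exp (-a)) ^ 2 := by
  have h1 := self_le_sinh_iff.2 (show 0 ≤ a / 2 by positivity)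
  have e1 : exp (-a) = exp (-(a / 2)) ^ 2 := by rw [exp_sq]; congr 1; ring
  have e2 : exp (a / 2) * exp (-(a / 2)) = 1 := by rw [← exp_add]; simp
  have p := exp_pos (-(a / 2))
  rw [sinh_eq] at h1
  rw [e1, ← mul_pow]
  refine pow_le_pow_left₀ (by positivity) ?_ 2
  linarith only [e2, h1, p, mul_nonneg_of_nonpos_of_nonpos (Mathlib.Tactic.Linarith.sub_nonpos_of_le h1) (le_of_lt (Mathlib.Tactic.Linarith.sub_neg_of_lt p))]

theorem WQ_H (hx : 0 < x) (h : x ≤ 1 / 4) {p : ℝ × ℝ} (hp : p.1 < 0) :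
    p.1 ^ 2 * ‖HT 0 x p‖ ^ 2 ≤ 4 * x ^ 4 * exp (1 / x * p.1) ∧
    p.1 ^ 2 * ‖HT 1 x p‖ ^ 2 ≤ 16 * x ^ 2 := by
  have h3 : x ≤ 1 / 3 := by linarith only [hx, h]
  obtain ⟨a, ha⟩ : ∃ a, a = -(p.1 / x) := ⟨_, rfl⟩
  have a0 : 0 < a := ha ▸ neg_pos.2 (div_neg_of_neg_of_pos hp hx)
  have ep : p.1 = -(a * x) := by rw [ha]; field_simp
  have y0 := exp_pos (-a)
  have y1 : exp (-a) < 1 := exp_lt_one_iff.2 (by linarith only [a0])
  have z0 : 0 < 1 - exp (-a) := by linarith only [y1]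
  have ek : ∀ k : ℕ, -((k + 1 : ℕ) * p.1 / x) = (k + 1 : ℕ) * a := fun k => by rw [ha]; ring
  have ey : ∀ k : ℕ, exp (-((k + 1 : ℕ) * a)) = exp (-a) ^ (k + 1) := fun k => by
    rw [← exp_nat_mul, mul_neg]
  have s1 := WB_geo (σ := -a) 2 (by linarith only [a0])
  have s2 := (hasSum_nat_add_iff' 1).2 (hasSum_coe_mul_geometric_of_norm_lt_one
    (r := exp (-a)) (by rwa [norm_of_nonneg y0.le]))
  simp only [Finset.sum_range_one, Nat.cast_zero, zero_mul, sub_zero] at s2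
  have b0 : ‖HT 0 x p‖ ≤ x * (2 * (exp (-a) / (1 - exp (-a)))) :=
    (HT_norm_le hx h3 hp 0).trans (hasSum_le (fun k => (TT_le hx h hp.le k (ek k).symm).1.trans_eq
      (by rw [ey]; ring)) (TT_summable hx h3 hp 0).hasSum (s1.mul_left x))
  have b1 : ‖HT 1 x p‖ ≤ 2 * (exp (-a) / (1 - exp (-a))) +
      2 * a * (exp (-a) / (1 - exp (-a)) ^ 2) :=
    (HT_norm_le hx h3 hp 1).trans (hasSum_le (fun k =>
      (TT_le hx h hp.le k (ek k).symm).2.1.trans_eq (by rw [ey]; ring))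
      (TT_summable hx h3 hp 1).hasSum (s1.add (s2.mul_left (2 * a))))
  have c2 : a ^ 2 * (exp (-a) / (1 - exp (-a)) ^ 2) ≤ 1 := by
    rw [← mul_div_assoc, div_le_one (by positivity)]; exact WQ_y a0.le
  have c1 : (a * (exp (-a) / (1 - exp (-a)))) ^ 2 ≤ exp (-a) :=
    le_of_eq_of_le (by field_simp) (mul_le_of_le_one_right y0.le c2)
  have c0 : a * (exp (-a) / (1 - exp (-a))) ≤ 1 :=
    (abs_le_of_sq_le_sq' (c1.trans (by linarith only [y1])) zero_le_one).2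
  rw [show 1 / x * p.1 = -a by rw [ha]; ring, ep, neg_sq, ← mul_pow, ← mul_pow]
  constructor
  · refine (pow_le_pow_left₀ (by positivity) (mul_le_mul_of_nonneg_left b0 (by positivity))
      2).trans ?_
    linarith only [c1, hx, mul_le_mul_of_nonneg_left c1 (show 0 ≤ 4 * x ^ 4 by positivity)]
  · refine (pow_le_pow_left₀ (by positivity) (b := 4 * x) ?_ 2).trans_eq (by ring)
    refine (mul_le_mul_of_nonneg_left b1 (by positivity)).trans ?_
    linarith only [hx, c2, c0, mul_nonneg_of_nonpos_of_nonpos (le_of_lt (Mathlib.Tactic.Linarith.sub_neg_of_lt hx)) (Mathlib.Tactic.Linarith.sub_nonpos_of_le c2), mul_nonneg_of_nonpos_of_nonpos (le_of_lt (Mathlib.Tactic.Linarith.sub_neg_of_lt hx)) (Mathlib.Tactic.Linarith.sub_nonpos_of_le c0)]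

theorem WQ_e (c σ : ℝ) : exp ((4 + c) * σ) = exp (2 * σ) ^ 2 * exp (c * σ) ∧
    exp (4 * σ) = exp (2 * σ) ^ 2 := by
  rw [← exp_nat_mul, ← exp_add]
  constructor <;> congr 1 <;> push_cast <;> ring

theorem pair0 (hx : 0 < x) (h : x ≤ 1 / 4) :
    Pair (WT 0 x) (17 / 100 * x ^ 4) (23 / 25 * x ^ 4) (23 / 50 * x ^ 2) (47 / 50 * x ^ 2) := by
  refine ⟨fun U V => WT_int hx (by linarith only [hx, h]) 0, WQ_E hx h (a := 1) (b := 0) (c := 0)
    (fun p => by rw [(QT_abs x p).1]; linarith only []) (by linarith only [hx, h, (Iw_A hx h).1]), fun w hw => ?_,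
    fun u w => ww0 hx h⟩
  obtain ⟨i, v⟩ := WQ_I hx h (c := 4 + 1 / x) (by positivity) 0
  refine WQ_Jw hx h hw (WQ_al hw (i.const_mul (4 * x ^ 4)) (fun p hp => ?_) (by positivity) ?_)
    (by positivity) (by linarith only [hx, h, (Iw_B hx h).1, pow_pos hx 4, sq_nonneg ((1 : ℝ) * (23 : ℝ) * ((1 : ℝ) * ((1 : ℝ) * x) ^ (2 : ℕ)))])
  · rw [QT_zero, (WQ_e _ _).1]
    linarith only [hx, h, hp, mul_le_mul_of_nonneg_left (WQ_H hx h hp).1
      (show 0 ≤ exp (2 * p.1) ^ 2 * (p.1 ^ 2 * ‖HT 0 x p‖ ^ 2) by positivity)]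
  · rw [integral_const_mul, v]
    linarith only [hx, h, mul_le_mul_of_nonneg_left (Iw_C hx h).1 (pow_pos hx 4).le, pow_pos hx 8, sq_nonneg ((1 : ℝ) * (23 : ℝ) * ((1 : ℝ) * ((1 : ℝ) * x) ^ (4 : ℕ)))]

theorem pair1 (hx : 0 < x) (h : x ≤ 1 / 4) :
    Pair (WT 1 x) (81 / 100 * x ^ 3) (79 / 20 * x ^ 3) (107 / 100 * x) (4 * x) := by
  obtain ⟨A0, A1, -⟩ := Iw_A hx h
  have x0 := hx.ne'
  refine ⟨fun U V => WT_int hx (by linarith only [hx, h]) 1, WQ_E hx h (a := 12 / 5 / x) (b := 5 / 12 * x)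
    (c := 0) (fun p => (QT_abs x p).2.1.trans ?_) ?_, fun w hw => ?_, fun u w => ww1 hx h⟩
  · have e : 12 / 5 / x * (‖HT 0 x p‖ - 5 / 12 * x * ‖HT 1 x p‖) ^ 2 = 12 / 5 / x * ‖HT 0 x p‖ ^ 2 +
        5 / 12 * x * ‖HT 1 x p‖ ^ 2 - 2 * (‖HT 0 x p‖ * ‖HT 1 x p‖) := by field_simp; ring
    have : 0 ≤ 12 / 5 / x * (‖HT 0 x p‖ - 5 / 12 * x * ‖HT 1 x p‖) ^ 2 := by positivity
    linarith only [e, this]
  · have e : 12 / 5 / x * (17 / 100 * x ^ 4) = 51 / 125 * x ^ 3 := by field_simp; ring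
    linarith only [e, A0, hx, A1, mul_le_mul_of_nonneg_left A0 (show 0 ≤ 12 / 5 / x by positivity),
      mul_le_mul_of_nonneg_left A1 (show 0 ≤ 5 / 12 * x by positivity), pow_pos hx 3]
  obtain ⟨i, v⟩ := WQ_I hx h (c := 4 + 1 / x) (by positivity) 1
  refine WQ_Jw hx h hw (WQ_al hw (i.const_mul (16 * x ^ 4)) (fun p hp => ?_) (by positivity) ?_)
    (by positivity) (by linarith only [hx, h, (Iw_B hx h).2.1, pow_pos hx 2, sq_nonneg x])
  · have h1 := pow_le_pow_left₀ (abs_nonneg _) (QT_abs x p).2.1 2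
    rw [sq_abs] at h1
    rw [(WQ_e _ _).1]
    linarith only [hx, h, hp, h1, mul_le_mul_of_nonneg_left (WQ_H hx h hp).1
      (show 0 ≤ 4 * exp (2 * p.1) ^ 2 * (p.1 ^ 2 * ‖HT 1 x p‖ ^ 2) by positivity),
      mul_le_mul_of_nonneg_left h1 (sq_nonneg (exp (2 * p.1) * p.1 ^ 2))]
  · rw [integral_const_mul, v]
    linarith only [hx, h, mul_le_mul_of_nonneg_left (Iw_C hx h).2.1 (pow_pos hx 4).le, pow_pos hx 6, sq_nonneg ((1 : ℝ) * (79 : ℝ) * ((1 : ℝ) * ((1 : ℝ) * x) ^ (3 : ℕ)))]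

theorem pair2 (hx : 0 < x) (h : x ≤ 1 / 4) :
    Pair (WT 2 x) (15 / 4 * x ^ 2) (116 / 5 * x ^ 2) (53 / 20) 43 := by
  obtain ⟨A0, A1, A2⟩ := Iw_A hx h
  have x0 := hx.ne'
  refine ⟨fun U V => WT_int hx (by linarith only [hx, h]) 2, WQ_E hx h (a := 16 / 3 / x ^ 2) (b := 2)
    (c := 3 / 16 * x ^ 2) (fun p => (QT_abs x p).2.2.trans ?_) ?_, fun w hw => ?_,
    fun u w => ww2 hx h⟩
  · have e : 16 / 3 / x ^ 2 * (‖HT 0 x p‖ - 3 / 16 * x ^ 2 * ‖HT 2 x p‖) ^ 2 =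
        16 / 3 / x ^ 2 * ‖HT 0 x p‖ ^ 2 + 3 / 16 * x ^ 2 * ‖HT 2 x p‖ ^ 2 -
          2 * (‖HT 0 x p‖ * ‖HT 2 x p‖) := by field_simp; ring
    have : 0 ≤ 16 / 3 / x ^ 2 * (‖HT 0 x p‖ - 3 / 16 * x ^ 2 * ‖HT 2 x p‖) ^ 2 := by positivity
    linarith only [e, this]
  · have e : 16 / 3 / x ^ 2 * (17 / 100 * x ^ 4) = 68 / 75 * x ^ 2 := by field_simp; ring
    linarith only [A1, e, A0, hx, A2, mul_le_mul_of_nonneg_left A0 (show 0 ≤ 16 / 3 / x ^ 2 by positivity),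
      mul_le_mul_of_nonneg_left A2 (show 0 ≤ 3 / 16 * x ^ 2 by positivity), pow_pos hx 2]
  obtain ⟨i, v⟩ := WQ_I hx h (c := 4 + 1 / x) (by positivity) 2
  obtain ⟨i', v'⟩ := WQ_I hx h four_pos 1
  refine WQ_Jw hx h hw (WQ_al hw (iadd (i'.const_mul (1344 / 11 * x ^ 2))
    (i.const_mul (168 / 5 * x ^ 4))) (fun p hp => ?_) (by positivity) ?_)
    (by positivity) (by linarith only [hx, h, (Iw_B hx h).2.2])
  · have h1 := pow_le_pow_left₀ (abs_nonneg _) (QT_abs x p).2.2 2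
    rw [sq_abs] at h1
    have h2 : (2 * ‖HT 1 x p‖ ^ 2 + 2 * (‖HT 0 x p‖ * ‖HT 2 x p‖)) ^ 2 ≤
        84 / 11 * (‖HT 1 x p‖ ^ 2) ^ 2 + 42 / 5 * (‖HT 0 x p‖ * ‖HT 2 x p‖) ^ 2 := by
      linarith only [sq_nonneg (10 * ‖HT 1 x p‖ ^ 2 - 11 * (‖HT 0 x p‖ * ‖HT 2 x p‖)), sq_nonneg ((10 : ℝ) * ‖HT (1 : ℕ) x p‖ ^ (2 : ℕ) - (11 : ℝ) * (‖HT (0 : ℕ) x p‖ * ‖HT (2 : ℕ) x p‖))]
    rw [(WQ_e _ _).1, (WQ_e 0 _).2]
    linarith only [hx, h, hp, h1, h2, mul_le_mul_of_nonneg_left (WQ_H hx h hp).1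
      (show 0 ≤ 42 / 5 * exp (2 * p.1) ^ 2 * (p.1 ^ 2 * ‖HT 2 x p‖ ^ 2) by positivity),
      mul_le_mul_of_nonneg_left (WQ_H hx h hp).2
      (show 0 ≤ 84 / 11 * exp (2 * p.1) ^ 2 * (p.1 ^ 2 * ‖HT 1 x p‖ ^ 2) by positivity),
      mul_le_mul_of_nonneg_left (h1.trans h2) (sq_nonneg (exp (2 * p.1) * p.1 ^ 2))]
  · rw [integral_add (i'.const_mul _) (i.const_mul _), integral_const_mul, integral_const_mul, v,
      v']
    linarith only [hx, h, mul_le_mul_of_nonneg_left (Iw_C hx h).2.2 (pow_pos hx 4).le,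
      mul_le_mul_of_nonneg_left (Iw_B hx h).2.1 (pow_pos hx 2).le, pow_pos hx 4, sq_nonneg ((1 : ℝ) * (116 : ℝ) * ((1 : ℝ) * ((1 : ℝ) * x) ^ (2 : ℕ)))]

end Pool.Agent.Work.MP_267827_an.PS
end

-- merged part: Pool.Agent.Work.MP_267827_an.PS.WD
section
/-! Moments of the exponential and the series for the area (helper80). -/

set_option autoImplicit false

namespace Pool.Agent.Work.MP_267827_an.PS

open MeasureTheory Set Filter Topology Real

/-- moments of the exponential -/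
theorem int_pow_exp {a : ℝ} (ha : 0 < a) (n : ℕ) :
    Integrable (fun σ => (-σ) ^ n * exp (a * σ)) m0 ∧
    ∫ σ, (-σ) ^ n * exp (a * σ) ∂m0 = n.factorial / a ^ (n + 1) := by
  have bd : ∀ (n : ℕ) (σ : ℝ), σ < 0 →
      |(-σ) ^ n * exp (a * σ)| ≤ n.factorial / (a / 2) ^ n * exp (a / 2 * σ) := by
    intro n σ hσ
    have h1 := pow_div_factorial_le_exp (a / 2 * -σ) (by linarith only [ha, hσ, mul_pos_of_neg_of_neg (Mathlib.Tactic.Linarith.sub_neg_of_lt ha) (Mathlib.Tactic.Linarith.sub_neg_of_lt hσ)]) n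
    have h2 : exp (a * σ) = exp (a / 2 * σ) * exp (a / 2 * σ) := by
      rw [← exp_add]; congr 1; ring
    have h3 : exp (a / 2 * -σ) * exp (a / 2 * σ) = 1 := by rw [← exp_add]; simp
    have f0 : (0 : ℝ) < n.factorial := by positivity
    have s0 : 0 < -σ := by linarith only [hσ]
    rw [abs_of_pos (by positivity), h2, ← mul_assoc]
    refine mul_le_mul_of_nonneg_right ?_ (exp_pos _).le
    rw [div_le_iff₀ f0, mul_pow] at h1
    rw [le_div_iff₀ (by positivity)]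
    linarith only [h1, h3, mul_le_mul_of_nonneg_right h1 (exp_pos (a / 2 * σ)).le, Mathlib.Tactic.Linarith.mul_zero_eq (Mathlib.Tactic.Linarith.sub_nonpos_of_le (Mathlib.Tactic.Linarith.natCast_nonneg ℝ n.factorial)) (sub_eq_zero_of_eq h3)]
  have int : ∀ n : ℕ, Integrable (fun σ => (-σ) ^ n * exp (a * σ)) m0 := fun n =>
    int_of_cont (by fun_prop) (half_pos ha) (bd n)
  refine ⟨int n, ?_⟩
  induction n with
  | zero => simpa using integral_exp0 ha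
  | succ n ih =>
    have hb : Tendsto (fun σ => (-σ) ^ (n + 1) * exp (a * σ)) atBot (𝓝 0) := by
      have h1 : Tendsto (fun σ => ((n + 1).factorial : ℝ) / (a / 2) ^ (n + 1) * exp (a / 2 * σ))
          atBot (𝓝 0) := by
        simpa using (tendsto_exp_atBot.comp
          (tendsto_id.const_mul_atBot (half_pos ha))).const_mul
            (((n + 1).factorial : ℝ) / (a / 2) ^ (n + 1))
      refine squeeze_zero_norm' ?_ h1
      filter_upwards [eventually_lt_atBot 0] with σ hσ using bd (n + 1) σ hσ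
    have := ftc0 (Φ := fun σ => (-σ) ^ (n + 1) * exp (a * σ))
      (Φ' := fun σ => a * ((-σ) ^ (n + 1) * exp (a * σ)) - (n + 1) * ((-σ) ^ n * exp (a * σ)))
      (fun σ _ => (((hasDerivAt_neg σ).pow (n + 1)).mul (hasDerivAt_exp_mul a σ)).congr_deriv
        (by simp only [Pi.pow_apply, Nat.add_sub_cancel]; push_cast; ring))
      (isub ((int _).const_mul _) ((int _).const_mul _)) hb (tendsto_left (by fun_prop))
    rw [integral_sub ((int _).const_mul _) ((int _).const_mul _), integral_const_mul,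
      integral_const_mul, ih] at this
    rw [Nat.factorial_succ, eq_div_iff (by positivity)]
    have e : a ^ (n + 1) ≠ 0 := by positivity
    simp only [neg_zero, zero_pow n.succ_ne_zero, zero_mul, sub_zero] at this
    field_simp at this
    push_cast
    linear_combination this

theorem int_tsum {α : Type} [MeasurableSpace α] {μ : Measure α}
    {Φ : ℕ → α → ℝ} (h1 : ∀ i, Integrable (Φ i) μ) (h2 : Summable fun i => ∫ a, ‖Φ i a‖ ∂μ) :
    Integrable (fun a => ∑' i, Φ i a) μ := by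
  refine ⟨AEStronglyMeasurable.tsum fun i => (h1 i).1, ?_⟩
  calc ∫⁻ a, ‖∑' i, Φ i a‖ₑ ∂μ ≤ ∫⁻ a, ∑' i, ‖Φ i a‖ₑ ∂μ :=
        lintegral_mono fun a => enorm_tsum_le_tsum_enorm
    _ = ∑' i, ∫⁻ a, ‖Φ i a‖ₑ ∂μ := lintegral_tsum fun i => (h1 i).1.enorm
    _ = ∑' i, ENNReal.ofReal (∫ a, ‖Φ i a‖ ∂μ) :=
        tsum_congr fun i => (ofReal_integral_norm_eq_lintegral_enorm (h1 i)).symm
    _ = ENNReal.ofReal (∑' i, ∫ a, ‖Φ i a‖ ∂μ) :=
        (ENNReal.ofReal_tsum_of_nonneg (fun i => integral_nonneg fun a => norm_nonneg _) h2).symm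
    _ < ⊤ := ENNReal.ofReal_lt_top

variable {x : ℝ}

theorem WD_int (hx : 0 < x) (h : x ≤ 1 / 4) :
    Integrable (fun p : ℝ × ℝ => exp (2 * p.1) * WW x x p) nu ∧
    HasSum (fun k => a0 x (k + 1)) (AA x - x) := by
  have h3 : x ≤ 1 / 3 := by linarith only [hx, h]
  have tk : ∀ k : ℕ, Integrable (fun σ => exp (2 * σ) * TT 0 x σ (k + 1) ^ 2) m0 ∧
      2 * x * ∫ σ, exp (2 * σ) * TT 0 x σ (k + 1) ^ 2 ∂m0 = a0 x (k + 1) := fun k => by
    have e : ∀ σ, exp (2 * σ) * TT 0 x σ (k + 1) ^ 2 =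
        b0 x (k + 1) ^ 2 * exp ((2 + 2 * (k + 1 : ℕ) / x) * σ) := fun σ => by
      rw [TT_zero, mul_pow, ← exp_nat_mul, ← mul_assoc, ← exp_add, mul_comm]
      congr 2
      push_cast
      ring
    have p : 0 < 2 + 2 * ((k + 1 : ℕ) : ℝ) / x := by positivity
    simp only [e]
    refine ⟨(int_exp p).const_mul _, ?_⟩
    rw [integral_const_mul, integral_exp0 p, a0]
    field_simp
  have sm : Summable fun k => a0 x (k + 1) := by
    refine .of_nonneg_of_le (fun k => by unfold a0; positivity) (fun k => ?_)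
      (f := fun k => b0 x (k + 1) - b0 x (k + 2)) ?_
    · have b := b0_le hx.le (by linarith only [hx, h]) k
      have b' := b0_nonneg hx.le (k + 1)
      have k0 : (0 : ℝ) ≤ k := k.cast_nonneg
      have e : b0 x (k + 1) - b0 x (k + 2) = b0 x (k + 1) * ((1 - 2 * x) / (k + 2)) := by
        rw [b0_succ x (k + 1)]; push_cast; field_simp; ring
      rw [e, a0, sq, mul_assoc, mul_div_assoc]
      refine mul_le_mul_of_nonneg_left ?_ b'
      rw [div_le_div_iff₀ (by positivity) (by positivity)]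
      push_cast
      have : b0 x (k + 1) * x ^ 2 ≤ 1 / 32 := by linarith only [h, b, hx, sq_nonneg x, mul_nonneg_of_nonpos_of_nonpos (Mathlib.Tactic.Linarith.sub_nonpos_of_le (sq_nonneg x)) (Mathlib.Tactic.Linarith.sub_nonpos_of_le h), mul_nonneg_of_nonpos_of_nonpos (Mathlib.Tactic.Linarith.sub_nonpos_of_le (sq_nonneg x)) (Mathlib.Tactic.Linarith.sub_nonpos_of_le b), mul_nonneg_of_nonpos_of_nonpos (le_of_lt (Mathlib.Tactic.Linarith.sub_neg_of_lt hx)) (Mathlib.Tactic.Linarith.sub_nonpos_of_le h)]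
      linarith only [hx, h, this, mul_le_mul_of_nonneg_right this (show (0 : ℝ) ≤ k + 2 by positivity), mul_nonneg_of_nonpos_of_nonpos (Mathlib.Tactic.Linarith.sub_nonpos_of_le (Mathlib.Tactic.Linarith.natCast_nonneg ℝ k)) (Mathlib.Tactic.Linarith.sub_nonpos_of_le h), mul_nonneg_of_nonpos_of_nonpos (Mathlib.Tactic.Linarith.sub_nonpos_of_le (Mathlib.Tactic.Linarith.natCast_nonneg ℝ k)) (Mathlib.Tactic.Linarith.sub_nonpos_of_le this), mul_nonneg_of_nonpos_of_nonpos (le_of_lt (Mathlib.Tactic.Linarith.sub_neg_of_lt hx)) (Mathlib.Tactic.Linarith.sub_nonpos_of_le h)]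
    · refine summable_of_sum_range_le (c := 1)
        (fun k => sub_nonneg.2 (b0_anti hx.le (by linarith only [hx, h]) (k + 1))) fun n => ?_
      rw [Finset.sum_range_sub' (fun k => b0 x (k + 1))]
      linarith only [hx, h, b0_le_one hx.le (by linarith) (0 + 1), b0_nonneg hx.le (n + 1)]
  have e0 : ∀ k : ℕ, ∫ σ, ‖exp (2 * σ) * TT 0 x σ (k + 1) ^ 2‖ ∂m0 = a0 x (k + 1) / (2 * x) :=
    fun k => by
      rw [← (tk k).2, mul_div_cancel_left₀ _ (by positivity)]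
      congr 1; ext σ; exact norm_of_nonneg (by positivity)
  have s1 : Summable fun k => ∫ σ, ‖exp (2 * σ) * TT 0 x σ (k + 1) ^ 2‖ ∂m0 := by
    simp only [e0]; exact sm.div_const _
  have hs := hasSum_integral_of_summable_integral_norm (fun k => (tk k).1) s1
  have hi := int_tsum (fun k => (tk k).1) s1
  have mean : ∀ σ, σ < 0 → ∫ t, exp (2 * σ) * WW x x (σ, t) ∂m1 =
      exp (2 * σ) + ∑' k, exp (2 * σ) * TT 0 x σ (k + 1) ^ 2 := fun σ hσ => by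
    have c : Continuous fun t => WT 0 x (σ, t) :=
      (WT_cont hx h3 0).comp_continuous (by fun_prop) fun _ => hσ
    simp only [fun t => WW_eq hx h3 (p := (σ, t)) hσ]
    rw [integral_const_mul, integral_add (integrable_const _) (m1_int' c), WT_mean hx h3 hσ,
      tsum_mul_left, (QT_mean hx h3 hσ).1.tsum_eq]
    simp [mul_add]
  have hm : AEStronglyMeasurable (fun p : ℝ × ℝ => exp (2 * p.1) * WW x x p) nu :=
    ((by fun_prop : Measurable fun p : ℝ × ℝ => exp (2 * p.1)).mul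
      (WW_meas x x)).aestronglyMeasurable
  have hI : Integrable (fun p : ℝ × ℝ => exp (2 * p.1) * WW x x p) nu := by
    rw [TwoD_nu, integrable_prod_iff hm]
    refine ⟨ae_m0 fun σ hσ => ((WW_mean hx x hσ).1).const_mul (exp (2 * σ)),
      (iadd (int_exp two_pos) hi).congr (ae_m0 fun σ hσ => ?_)⟩
    simp only
    rw [← mean σ hσ]
    congr 1; ext t
    exact (norm_of_nonneg (mul_nonneg (exp_pos _).le (exp_pos _).le)).symm
  refine ⟨hI, ?_⟩
  have e1 : AA x - x = 2 * x * ∫ σ, ∑' k, exp (2 * σ) * TT 0 x σ (k + 1) ^ 2 ∂m0 := by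
    rw [AA, NA, (nu_fub' hI).2, integral_congr_ae (ae_m0 mean),
      integral_add (int_exp two_pos) hi, integral_exp0 two_pos]
    ring
  rw [e1]
  exact HasSum.congr_fun' (hs.mul_left (2 * x)) fun k => (tk k).2.symm

theorem NA_int (hx : 0 < x) (h : x ≤ 1 / 4) :
    Integrable (fun p : ℝ × ℝ => exp (2 * p.1) * WW x x p) nu := (WD_int hx h).1

theorem a0_hasSum (hx : 0 < x) (h : x ≤ 1 / 4) : HasSum (fun k => a0 x (k + 1)) (AA x - x) :=
  (WD_int hx h).2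

theorem AA_eq (hx : 0 < x) (h : x ≤ 1 / 4) : AA x = x + ∑' k, a0 x (k + 1) := by
  rw [(a0_hasSum hx h).tsum_eq]; ring

end Pool.Agent.Work.MP_267827_an.PS
end

-- merged part: Pool.Agent.Work.MP_267827_an.PS.WAA
section
/-! The series for the area. -/

set_option autoImplicit false

namespace Pool.Agent.Work.MP_267827_an.PS

open MeasureTheory Set Filter Topology Real

theorem AA_eq' {x : ℝ} (hx : 0 < x) (h : x ≤ 1 / 4) : AA x = x + ∑' k, a0 x (k + 1) :=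
  AA_eq hx h

end Pool.Agent.Work.MP_267827_an.PS
end

-- merged part: Pool.Agent.Work.MP_267827_an.PS.WK
section
/-! Algebra of the quadratic forms in the window. -/

set_option autoImplicit false

namespace Pool.Agent.Work.MP_267827_an.PS

open MeasureTheory Set Filter Topology Real

variable {x x₀ L : ℝ} {U V W w e : ℝ × ℝ → ℝ}

theorem vv_JV : VV JV := v1_JJ.toVV.1

theorem d_JV {p : ℝ × ℝ} (hp : p.1 < 0) : ds JV p = ZZ p.1 ∧ dt JV p = 0 := v1_JJ.toVV.2 p hp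

theorem Ds_JV : Ds JV = DD ^ 2 / 2 := by
  have h : Ds JV = _ := v1_JJ.Ds_eq.1
  rw [h, DJ_eq]
  linarith only [NJ_eq]

theorem Dt_JV : Dt JV = 0 := v1_JJ.Ds_eq.2

theorem N0_JV : N0 JV = NJ := nu_fst fun σ => exp (2 * σ) * JJ σ ^ 2

theorem ds_JV (h : VV w) :
    ∫ p, ds JV p * ds w p ∂nu = jj ^ 2 * ∫ p, exp (2 * p.1) * (JV p * w p) ∂nu := by
  have i1 := vv_JV.int_ss h
  have i2 := vv_JV.int_N h
  rw [(nu_fub i1).2, (nu_fub i2).2, ← integral_const_mul]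
  refine integral_congr_ae (TwoD_ae1 fun t ht => ?_)
  have k := (h.slice (Ioo_subset_Icc_self ht)).B_JJ
  simp only [JV]
  rw [← k]
  refine integral_congr_ae (ae_m0 fun σ hσ => ?_)
  have := (d_JV (p := (σ, t)) hσ).1
  simp only at this ⊢
  rw [this, mul_comm]

theorem Ort.ds (ho : Ort w) (h : VV w) : ∫ p, ds JV p * ds w p ∂nu = 0 := by
  rw [ds_JV h, ho, mul_zero]

theorem dt_JV (w : ℝ × ℝ → ℝ) : ∫ p, dt JV p * dt w p ∂nu = 0 := by
  rw [← integral_zero (ℝ × ℝ) ℝ (μ := nu)]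
  exact integral_congr_ae (ae_nu fun p hp _ => by simp [(d_JV hp).2])

theorem N_add (a : ℝ) (hU : VV U) (hV : VV V) (hW : VV W) :
    ∫ p, exp (2 * p.1) * (W p * (a * U p + V p)) ∂nu =
      a * (∫ p, exp (2 * p.1) * (W p * U p) ∂nu) + ∫ p, exp (2 * p.1) * (W p * V p) ∂nu := by
  rw [← integral_const_mul, ← integral_add ((hW.int_N hU).const_mul _) (hW.int_N hV)]
  exact integral_congr_ae (Eventually.of_forall fun p => by simp only; ring)

theorem Ort.lin (a : ℝ) (h1 : Ort e) (h2 : Ort w) (he : VV e) (hw : VV w) :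
    Ort fun p => a * e p + w p := by
  rw [Ort, N_add a he hw vv_JV, h1, h2, mul_zero, add_zero]

theorem decomp (h : VV V) :
    ∃ (y : ℝ) (w : ℝ × ℝ → ℝ), VV w ∧ Ort w ∧ V = fun p => y * JV p + w p := by
  obtain ⟨y, hy⟩ : ∃ y, y = (∫ p, exp (2 * p.1) * (JV p * V p) ∂nu) / NJ := ⟨_, rfl⟩
  refine ⟨y, fun p => -y * JV p + V p, VV.lin _ vv_JV h, ?_, funext fun p => by ring⟩
  have e : ∫ p, exp (2 * p.1) * (JV p * JV p) ∂nu = NJ := by
    simpa only [N0, sq] using N0_JV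
  rw [Ort, N_add _ vv_JV h vv_JV, e, hy]
  have := NJ_pos
  field_simp
  ring

theorem nB_comm (Ω U V : ℝ × ℝ → ℝ) : nB Ω U V = nB Ω V U := by
  simp only [nB, mul_comm (U _)]

theorem nB_add {Ω : ℝ × ℝ → ℝ} (hi : ∀ U V, VV U → VV V →
      Integrable (fun p => exp (2 * p.1) * Ω p * (U p * V p)) nu)
    (a : ℝ) (hU : VV U) (hV : VV V) (hW : VV W) :
    nB Ω (fun p => a * U p + V p) W = a * nB Ω U W + nB Ω V W := by
  rw [nB, nB, nB, ← integral_const_mul, ← integral_add ((hi _ _ hU hW).const_mul _) (hi _ _ hV hW)]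
  exact integral_congr_ae (Eventually.of_forall fun p => by simp only; ring)

theorem ss_add (a : ℝ) (hU : VV U) (hV : VV V) (hW : VV W) :
    ∫ p, ds (fun p => a * U p + V p) p * ds W p ∂nu =
      a * (∫ p, ds U p * ds W p ∂nu) + ∫ p, ds V p * ds W p ∂nu := by
  rw [← integral_const_mul, ← integral_add ((hU.int_ss hW).const_mul _) (hV.int_ss hW)]
  exact integral_congr_ae (ae_nu fun p hp _ => by simp only [(VV.d_lin a hU hV hp).1]; ring)

theorem tt_add (a : ℝ) (hU : VV U) (hV : VV V) (hW : VV W) :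
    ∫ p, dt (fun p => a * U p + V p) p * dt W p ∂nu =
      a * (∫ p, dt U p * dt W p ∂nu) + ∫ p, dt V p * dt W p ∂nu := by
  rw [← integral_const_mul, ← integral_add ((hU.int_tt hW).const_mul _) (hV.int_tt hW)]
  exact integral_congr_ae (ae_nu fun p hp _ => by simp only [(VV.d_lin a hU hV hp).2]; ring)

theorem BX_self (x L : ℝ) (V : ℝ × ℝ → ℝ) : BX x L V V = PX x L V := by
  simp only [BX, PX, Dx, Ds, Dt, NW_eq, sq]

theorem BX_comm (x L : ℝ) (U V : ℝ × ℝ → ℝ) : BX x L U V = BX x L V U := by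
  simp only [BX, nB_comm _ U V, mul_comm (ds U _), mul_comm (dt U _)]

theorem BX_add (hx : 0 < x) (h : x ≤ 1 / 4) (L a : ℝ) (hU : VV U) (hV : VV V) (hW : VV W) :
    BX x L (fun p => a * U p + V p) W = a * BX x L U W + BX x L V W := by
  rw [BX, BX, BX, ss_add a hU hV hW, tt_add a hU hV hW,
    nB_add (fun _ _ => WW_int hx (by linarith only [hx, h])) a hU hV hW]
  ring

theorem PX_add (hx : 0 < x) (h : x ≤ 1 / 4) (L a : ℝ) (hU : VV U) (hV : VV V) :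
    PX x L (fun p => a * U p + V p) = a ^ 2 * PX x L U + 2 * a * BX x L U V + PX x L V := by
  have k := VV.lin a hU hV
  rw [← BX_self, BX_add hx h L a hU hV k, BX_comm _ _ U, BX_comm _ _ V, BX_add hx h L a hU hV hU,
    BX_add hx h L a hU hV hV, BX_self, BX_self, BX_comm _ _ V U]
  ring

theorem HH_iff {M : ℝ} : HH x M ↔ ∀ V, VV V → 0 ≤ PX x M V := by
  simp only [HH, PX, sub_nonneg]

theorem BX_sq (hx : 0 < x) (h : x ≤ 1 / 4) (pos : HH x L) (hU : VV U) (hV : VV V) :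
    BX x L U V ^ 2 ≤ PX x L U * PX x L V := by
  have h1 := discrim_le_zero (a := PX x L U) (b := 2 * BX x L U V) (c := PX x L V) fun t => by
    have := HH_iff.1 pos _ (VV.lin t hU hV)
    rw [PX_add hx h L t hU hV] at this
    linarith only [this]
  rw [discrim] at h1
  linarith only [h1]

theorem NW_split (hx : 0 < x) (h : x ≤ 1 / 4) (hV : VV V) :
    NW x x V = N0 V + nB (WT 0 x) V V := by
  rw [NW_eq, nB_WW hx (by linarith only [hx, h]) hV hV]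
  simp only [N0, sq]

theorem BX_JV (hx : 0 < x) (h : x ≤ 1 / 4) (L : ℝ) (hw : VV w) (ho : Ort w) :
    BX x L JV w = -(L * jj ^ 2 * nB (WT 0 x) JV w) := by
  rw [BX, ho.ds hw, dt_JV, nB_WW hx (by linarith only [hx, h]) vv_JV hw, ho]
  ring

theorem PX_JV (hx : 0 < x) (h : x ≤ 1 / 4) (L : ℝ) :
    PX x L JV = (AA x - L) * (DD ^ 2 / 2) - L * jj ^ 2 * nB (WT 0 x) JV JV := by
  rw [PX, Dx, Ds_JV, Dt_JV, NW_split hx h vv_JV, N0_JV, ← NJ_eq]
  ring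

theorem NW_ort (hx : 0 < x) (h : x ≤ 1 / 4) (hw : VV w) (ho : Ort w) :
    jj ^ 2 * NW x x w ≤ (1 / 5 + 579 / 100 * (47 / 50) * x ^ 2) * Ds w +
      579 / 100 * (4 / 5) * x ^ 2 * (Dt w / (π ^ 2 * x ^ 2)) := by
  have h1 := coer hw ho
  have h2 := (abs_le.1 ((pair0 hx h).ww w w hw hw)).2
  rw [mul_self_sqrt (Ds_nonneg w)] at h2
  have j0 : 0 < jj ^ 2 := pow_pos jj_pos 2
  have j1 := jj_pos
  have e1 : jj ^ 2 * (Ds w / (5 * jj ^ 2)) = 1 / 5 * Ds w := by field_simp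
  have e2 : x ^ 2 * (Dt w / (π ^ 2 * x ^ 2)) = Dt w / π ^ 2 := by field_simp
  have p1 : 0 ≤ Dt w / π ^ 2 := div_nonneg (Dt_nonneg w) (sq_nonneg _)
  have p2 : 0 ≤ x ^ 2 * Ds w := mul_nonneg (sq_nonneg _) (Ds_nonneg w)
  have k1 := mul_le_mul_of_nonneg_left h1 j0.le
  have k2 := mul_le_mul_of_nonneg_left h2 j0.le
  have k3 := mul_le_mul_of_nonneg_right jj_sq_le p1
  have k4 := mul_le_mul_of_nonneg_right jj_sq_le p2
  rw [NW_split hx h hw, mul_assoc (579 / 100 * (4 / 5)), e2]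
  linarith only [e1, k1, k2, k3, k4]

theorem PX_ort (hx : 0 < x) (h : x ≤ 1 / 4) (hL : 0 ≤ L) (hw : VV w) (ho : Ort w) :
    (AA x - L * (1 / 5 + 579 / 100 * (47 / 50) * x ^ 2)) * Ds w +
      (AA x - L * (579 / 100 * (4 / 5) * x ^ 2)) * (Dt w / (π ^ 2 * x ^ 2)) ≤ PX x L w := by
  have := mul_le_mul_of_nonneg_left (NW_ort hx h hw ho) hL
  rw [PX, Dx]
  linarith only [this]

theorem vv_vs (h : VV e) : VV (vs e) := VV.lin 1 vv_JV h

theorem Ds_vs (h : VV e) (ho : Ort e) : Ds (vs e) = DD ^ 2 / 2 + Ds e := by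
  have := VV.Ds_add 1 vv_JV h
  rw [ho.ds h, Ds_JV] at this
  exact this.trans (by ring)

theorem Dt_vs (h : VV e) : Dt (vs e) = Dt e := by
  have := VV.TwoD_Dt_add 1 vv_JV h
  rw [dt_JV, Dt_JV] at this
  exact this.trans (by ring)

theorem N0_vs (h : VV e) (ho : Ort e) : N0 (vs e) = NJ + N0 e := by
  have := VV.N0_add 1 vv_JV h
  rw [ho, N0_JV] at this
  exact this.trans (by ring)

theorem Pair.vs_w {Ω : ℝ × ℝ → ℝ} {E α γ ω : ℝ} (h : Pair Ω E α γ ω) (hω : 0 ≤ ω) (he : Sm x₀ e)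
    (hw : VV w) : |nB Ω (vs e) w| ≤
      DD * ((α + ω * (31 / 10 * x₀ ^ 3)) * √(Ds w) + γ * (√(Dt w) / π)) := by
  have h1 : nB Ω (vs e) w = 1 * nB Ω JV w + nB Ω e w := nB_add h.int 1 vv_JV he.vv hw
  have h2 := h.Jw w hw
  have h3 := h.ww e w he.vv hw
  have h4 := mul_le_mul_of_nonneg_left
    (mul_le_mul_of_nonneg_right he.es (sqrt_nonneg (Ds w))) hω
  rw [h1, one_mul]
  refine (abs_add_le _ _).trans ?_
  linarith only [h2, h3, h4]

theorem Pair.vs_vs {Ω : ℝ × ℝ → ℝ} {E α γ ω : ℝ} (h : Pair Ω E α γ ω) (hα : 0 ≤ α) (hγ : 0 ≤ γ)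
    (hω : 0 ≤ ω) (he : Sm x₀ e) : |nB Ω (vs e) (vs e) - nB Ω JV JV| ≤
      DD ^ 2 * (2 * (α * (31 / 10 * x₀ ^ 3) + γ * (7 / 2 * x₀ ^ 4)) +
        ω * (31 / 10 * x₀ ^ 3) ^ 2) := by
  have h1 : nB Ω (vs e) (vs e) = 1 * nB Ω JV (vs e) + nB Ω e (vs e) :=
    nB_add h.int 1 vv_JV he.vv (vv_vs he.vv)
  have h2 : nB Ω (vs e) JV = 1 * nB Ω JV JV + nB Ω e JV := nB_add h.int 1 vv_JV he.vv vv_JV
  have h3 : nB Ω (vs e) e = 1 * nB Ω JV e + nB Ω e e := nB_add h.int 1 vv_JV he.vv he.vv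
  have e1 : nB Ω (vs e) (vs e) - nB Ω JV JV = 2 * nB Ω JV e + nB Ω e e := by
    rw [h1, nB_comm _ JV (vs e), nB_comm _ e (vs e), h2, h3, nB_comm _ e JV]
    ring
  have k1 := h.Jw e he.vv
  have k2 := h.ww e e he.vv he.vv
  have k3 := mul_le_mul_of_nonneg_left (add_le_add (mul_le_mul_of_nonneg_left he.es hα)
    (mul_le_mul_of_nonneg_left he.et hγ)) DD_pos.le
  have k4 := mul_le_mul_of_nonneg_left
    (mul_self_le_mul_self (sqrt_nonneg (Ds e)) he.es) hω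
  rw [e1]
  refine (abs_add_le _ _).trans ?_
  rw [abs_mul, abs_two]
  linarith only [k1, k2, k3, k4]

theorem AA_low (hx : 0 < x) (h : x ≤ 1 / 4) : x + 21 / 5 * x ^ 4 ≤ AA x := by
  rw [AA_eq' hx h]
  linarith only [hx, h, a0_low hx h]

theorem AA_pos (hx : 0 < x) (h : x ≤ 1 / 4) : 0 < AA x :=
  lt_of_lt_of_le (by positivity) (AA_low hx h)

theorem AA_up (hx : 0 < x) (h : x ≤ 1 / 5) :
    AA x ≤ x + 13 / 2 * x ^ 4 ∧ AA x ≤ x + 23 / 20 * x ^ 3 := by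
  rw [AA_eq' hx (by linarith only [hx, h])]
  exact ⟨by linarith only [hx, h, (a0_up hx h).1], by linarith only [hx, h, (a0_up hx h).2]⟩

theorem tan_A (hx : 0 < x) (h : x ≤ 1 / 4) (h0 : 0 < x₀) (h0' : x₀ ≤ 1 / 4) :
    (4 * (x ^ 2 + 2 * x * x₀ + 3 * x₀ ^ 2) +
        3 * (x ^ 3 + 2 * x ^ 2 * x₀ + 3 * x * x₀ ^ 2 + 4 * x₀ ^ 3)) * (x - x₀) ^ 2 ≤
      AA x - AA x₀ - A1 x₀ * (x - x₀) := by
  rw [AA_eq' hx h, AA_eq' h0 h0', A1]
  linarith only [hx, h, h0, h0', tan_a0 hx h h0 h0']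

theorem tan_d (hx : 0 < x) (h : x ≤ 1 / 4) (h0 : 0 < x₀) (h0' : x₀ ≤ 1 / 4) :
    0 ≤ AA x / x ^ 2 - AA x₀ / x₀ ^ 2 - (A1 x₀ - 2 * AA x₀ / x₀) / x₀ ^ 2 * (x - x₀) := by
  have h1 := tan_d0 hx h h0 h0'
  have h2 : 0 ≤ (x - x₀) ^ 2 / (x * x₀ ^ 2) := by positivity
  rw [AA_eq' hx h, AA_eq' h0 h0', A1]
  refine (add_nonneg h1 h2).trans_eq ?_
  field_simp
  ring

theorem AA_slope (hx : 0 < x) (h : x ≤ 1 / 4) (h0 : 0 < x₀) (h0' : x₀ ≤ 1 / 4) :
    ∃ a : ℝ, 1 ≤ a ∧ a ≤ 3 / 2 ∧ AA x - AA x₀ = a * (x - x₀) := by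
  have p : ∀ {x x₀ : ℝ}, 0 < x → x ≤ 1 / 4 → 0 < x₀ → x₀ ≤ 1 / 4 →
      A1 x₀ * (x - x₀) ≤ AA x - AA x₀ := fun hx h h0 h0' =>
    sub_nonneg.1 (le_trans (by positivity) (tan_A hx h h0 h0'))
  have h1 := p hx h h0 h0'
  have h2 := p h0 h0' hx h
  obtain ⟨a1, a2⟩ := A1_bd' hx h
  obtain ⟨b1, b2⟩ := A1_bd' h0 h0'
  rcases lt_trichotomy x x₀ with c | rfl | c
  · have s : x - x₀ < 0 := sub_neg.2 c
    refine ⟨(AA x - AA x₀) / (x - x₀), ?_, ?_, (div_mul_cancel₀ _ s.ne).symm⟩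
    · rw [le_div_iff_of_neg s]; (refine le_of_not_gt fun h_nl => ?_; linarith only [h_nl, h2, hx, h, a1, c, mul_pos_of_neg_of_neg (Mathlib.Tactic.Linarith.sub_neg_of_lt hx) (Mathlib.Tactic.Linarith.sub_neg_of_lt h_nl), mul_nonneg_of_nonpos_of_nonpos (Mathlib.Tactic.Linarith.sub_nonpos_of_le h) (le_of_lt (Mathlib.Tactic.Linarith.sub_neg_of_lt h_nl)), mul_nonneg_of_nonpos_of_nonpos (Mathlib.Tactic.Linarith.sub_nonpos_of_le a1) (le_of_lt (Mathlib.Tactic.Linarith.sub_neg_of_lt c))])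
    · rw [div_le_iff_of_neg s]; (refine le_of_not_gt fun h_nl => ?_; linarith only [h_nl, h1, hx, h, b2, c, mul_pos_of_neg_of_neg (Mathlib.Tactic.Linarith.sub_neg_of_lt hx) (Mathlib.Tactic.Linarith.sub_neg_of_lt h_nl), mul_nonneg_of_nonpos_of_nonpos (Mathlib.Tactic.Linarith.sub_nonpos_of_le h) (le_of_lt (Mathlib.Tactic.Linarith.sub_neg_of_lt h_nl)), mul_nonneg_of_nonpos_of_nonpos (Mathlib.Tactic.Linarith.sub_nonpos_of_le b2) (le_of_lt (Mathlib.Tactic.Linarith.sub_neg_of_lt c))])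
  · exact ⟨1, le_rfl, by norm_num, by simp⟩
  · have s : 0 < x - x₀ := sub_pos.2 c
    refine ⟨(AA x - AA x₀) / (x - x₀), ?_, ?_, (div_mul_cancel₀ _ s.ne').symm⟩
    · rw [le_div_iff₀ s]; (refine le_of_not_gt fun h_nl => ?_; linarith only [h_nl, h1, hx, h, b1, c, mul_pos_of_neg_of_neg (Mathlib.Tactic.Linarith.sub_neg_of_lt hx) (Mathlib.Tactic.Linarith.sub_neg_of_lt h_nl), mul_nonneg_of_nonpos_of_nonpos (Mathlib.Tactic.Linarith.sub_nonpos_of_le h) (le_of_lt (Mathlib.Tactic.Linarith.sub_neg_of_lt h_nl)), mul_nonneg_of_nonpos_of_nonpos (Mathlib.Tactic.Linarith.sub_nonpos_of_le b1) (le_of_lt (Mathlib.Tactic.Linarith.sub_neg_of_lt c))])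
    · rw [div_le_iff₀ s]; (refine le_of_not_gt fun h_nl => ?_; linarith only [h_nl, h2, hx, h, a2, c, mul_pos_of_neg_of_neg (Mathlib.Tactic.Linarith.sub_neg_of_lt hx) (Mathlib.Tactic.Linarith.sub_neg_of_lt h_nl), mul_nonneg_of_nonpos_of_nonpos (Mathlib.Tactic.Linarith.sub_nonpos_of_le h) (le_of_lt (Mathlib.Tactic.Linarith.sub_neg_of_lt h_nl)), mul_nonneg_of_nonpos_of_nonpos (Mathlib.Tactic.Linarith.sub_nonpos_of_le a2) (le_of_lt (Mathlib.Tactic.Linarith.sub_neg_of_lt c))])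

end Pool.Agent.Work.MP_267827_an.PS
end
end

-- merged part: Pool.Agent.Work.MP_267827_an.PS.WM
section
/-! Bounds for the slope and for the tangent line.

`G_bd`: let `v = vs e`, `D = Dx x₀ v ≥ DD ^ 2 / 2`, `b ^ 2 = Dt e / (π x₀) ^ 2`, `P = PX x₀ M₀ v ∈ [0, η]`.
`M₀ jj ^ 2 NW v = A D - P`, so `G (A D - P) = M₀ (A1 D - 2 A b ^ 2 / x₀ - M₀ jj ^ 2 n₁)`,
`n₁ = nB (WT 1 x₀) v v`, `-0.557 x₀ ^ 3 DD ^ 2 ≤ n₁ ≤ 1.368 x₀ ^ 3 DD ^ 2` (`Pair.vs_vs`, `pair1`,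
`JJ_sign`).  Lower bound `1 + (18 - 0.72 - 0.42 - 3.34) x₀ ^ 3`, upper bound
`1 + (4.9 + 0.272) x₀ ^ 2 + small`. -/

set_option autoImplicit false

namespace Pool.Agent.Work.MP_267827_an.PS

open MeasureTheory Set Filter Topology Real

variable {x x₀ M₀ G : ℝ} {e : ℝ × ℝ → ℝ}

theorem WM_alg {x A A' M d D B J N P n : ℝ} (hx : 0 < x) (h5 : x ≤ 1 / 5) (hA : x ≤ A)
    (hA2 : A ≤ x + 23 / 20 * x ^ 3) (a1 : 1 + 18 * x ^ 3 ≤ A') (a2 : A' ≤ 1 + 49 / 10 * x ^ 2)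
    (m1 : A * (1 - 3 * x ^ 4) ≤ M) (m2 : M ≤ A) (hd : 0 < d) (hD : d / 2 ≤ D) (b0 : 0 ≤ B)
    (b1 : B ≤ 49 / 4 * x ^ 6 * d) (j0 : 0 < J) (j1 : J ≤ 579 / 100) (hN : M * N = A * D - P)
    (p0 : 0 ≤ P) (p1 : P ≤ x ^ 2 * A * d / 200) (n0 : -(558 / 1000 * x ^ 3 * d) ≤ n)
    (n1 : n ≤ 1368 / 1000 * x ^ 3 * d) :
    0 < N ∧ 1 + 13 * x ^ 3 ≤ (A' * D - 2 * A / x * B - M * J * n) / N ∧
      (A' * D - 2 * A / x * B - M * J * n) / N ≤ 1 + 26 / 5 * x ^ 2 := by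
  have x2 : x ^ 2 ≤ 1 / 25 := by clear * - x h5 hx; linarith only [h5, hx, mul_nonneg_of_nonpos_of_nonpos (le_of_lt (Mathlib.Tactic.Linarith.sub_neg_of_lt hx)) (Mathlib.Tactic.Linarith.sub_nonpos_of_le h5)]
  have x3 : x ^ 3 ≤ 1 / 125 := by clear * - x x2 h5; linarith only [x2, h5, mul_nonneg_of_nonpos_of_nonpos (Mathlib.Tactic.Linarith.sub_nonpos_of_le (sq_nonneg ((1 : ℝ) * x))) (Mathlib.Tactic.Linarith.sub_nonpos_of_le h5)]
  have x4 : x ^ 4 ≤ 1 / 625 := by clear * - x x2; linarith only [x2, mul_nonneg_of_nonpos_of_nonpos (Mathlib.Tactic.Linarith.sub_nonpos_of_le (sq_nonneg ((1 : ℝ) * x))) (Mathlib.Tactic.Linarith.sub_nonpos_of_le x2)]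
  have q2 : 0 < x ^ 2 := by positivity
  have q3 : 0 < x ^ 3 := by positivity
  have A0 : 0 < A := hx.trans_le hA
  have D0 : 0 < D := by clear * - D d hd hD; linarith only [hd, hD]
  have A3 : A ≤ 1046 / 1000 * x := by linarith only [hA2, h5, hx, mul_nonneg_of_nonpos_of_nonpos (Mathlib.Tactic.Linarith.sub_nonpos_of_le (sq_nonneg ((1 : ℝ) * x))) (Mathlib.Tactic.Linarith.sub_nonpos_of_le h5), mul_nonneg_of_nonpos_of_nonpos (le_of_lt (Mathlib.Tactic.Linarith.sub_neg_of_lt hx)) (Mathlib.Tactic.Linarith.sub_nonpos_of_le h5)]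
  have M0 : 0 < M := lt_of_lt_of_le (mul_pos A0 (by clear * - x x3 x4 q3 A0 M m1; linarith only [x3, x4, q3])) m1
  have AD : 0 < A * D := mul_pos A0 D0
  have p2 : P ≤ x ^ 2 * (A * D) / 100 := by
    clear * - x A d D hD q2 A0 P p1
    have := mul_le_mul_of_nonneg_left hD (mul_pos q2 A0).le
    linarith only [p1, this]
  have N0 : 0 < N := by
    clear * - M N x A D x2 AD P hN p2 M0
    have : 0 < M * N := by
      have := mul_le_mul_of_nonneg_right x2 AD.le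
      linarith only [hN, AD, p2, this]
    exact (mul_pos_iff_of_pos_left M0).1 this
  have MJ0 : 0 < M * J := mul_pos M0 j0
  have MJ : M * J ≤ 60564 / 10000 * x := by
    clear * - M J x A m2 A3 j1 j0 hx
    have := mul_le_mul (m2.trans A3) j1 j0.le (by positivity)
    linarith only [hx, this]
  have xd : x ^ 3 * d ≤ 2 * (x ^ 3 * D) := by clear * - x d D A hx h5 hA hD hA2; (refine le_of_not_gt fun h_nl => ?_; linarith only [h_nl, hx, h5, hA, hD, hA2, mul_pos_of_neg_of_neg (Mathlib.Tactic.Linarith.sub_neg_of_lt hx) (Mathlib.Tactic.Linarith.sub_neg_of_lt h_nl), mul_nonneg_of_nonpos_of_nonpos (Mathlib.Tactic.Linarith.sub_nonpos_of_le h5) (le_of_lt (Mathlib.Tactic.Linarith.sub_neg_of_lt h_nl)), mul_nonneg_of_nonpos_of_nonpos (Mathlib.Tactic.Linarith.sub_nonpos_of_le hA) (Mathlib.Tactic.Linarith.sub_nonpos_of_le hD), mul_nonneg_of_nonpos_of_nonpos (Mathlib.Tactic.Linarith.sub_nonpos_of_le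 hA2) (Mathlib.Tactic.Linarith.sub_nonpos_of_le hD)])
  have xD : 0 < x ^ 3 * D := mul_pos q3 D0
  have c0 : 0 ≤ 2 * A / x * B := by positivity
  have c1 : 2 * A / x * B ≤ 411 / 1000 * (x ^ 3 * D) := by
    clear * - A x hx A3 B D d x3 xd q3 hd b1 b0 xD
    have e1 : 2 * A / x ≤ 2092 / 1000 := by
      rw [div_le_iff₀ hx]
      linarith only [A3]
    have e2 : B ≤ 196 / 1000 * (x ^ 3 * D) := by
      have e3 := mul_le_mul x3 xd (mul_pos q3 hd).le (by norm_num)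
      have e4 : x ^ 6 * d = x ^ 3 * (x ^ 3 * d) := by ring
      rw [mul_assoc, e4] at b1
      linarith only [b1, e3]
    have := mul_le_mul e1 e2 b0 (by norm_num)
    linarith only [xD, this]
  have c2 : M * J * n ≤ 332 / 100 * (x ^ 3 * D) := by
    clear * - n x D d n1 xd M J MJ0 h5 x3 q3 MJ xD
    have e1 : n ≤ 2736 / 1000 * (x ^ 3 * D) := by linarith only [n1, xd]
    have e2 := mul_le_mul_of_nonneg_left e1 MJ0.le
    have e3 : M * J ≤ 12113 / 10000 := by linarith only [h5, x3, q3, MJ]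
    have e4 := mul_le_mul_of_nonneg_right e3 xD.le
    linarith only [xD, e2, e4]
  have c3 : -(271 / 1000 * (x ^ 2 * D)) ≤ M * J * n := by
    clear * - x D n d n0 xd M J MJ0 MJ xD x2 q2 D0
    have e1 : -(1116 / 1000 * (x ^ 3 * D)) ≤ n := by linarith only [n0, xd]
    have e2 := mul_le_mul_of_nonneg_left e1 MJ0.le
    have e4 := mul_le_mul_of_nonneg_right MJ xD.le
    have e5 := mul_le_mul_of_nonneg_right x2 (mul_pos q2 D0).le
    have e6 : x * (x ^ 3 * D) = x ^ 2 * (x ^ 2 * D) := by ring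
    have e7 := mul_pos q2 D0
    linarith only [e2, e4, e5, e7]
  refine ⟨N0, ?_, ?_⟩
  · rw [le_div_iff₀ N0]
    have e1 : (1 + 1426 / 100 * x ^ 3) * D ≤ A' * D - 2 * A / x * B - M * J * n := by
      clear * - x D A' a1 D0 A B M J n xD c1 c2
      have := mul_le_mul_of_nonneg_right a1 D0.le
      linarith only [xD, c1, c2, this]
    refine le_trans ?_ e1
    refine le_of_mul_le_mul_left ?_ M0
    have e2 : 1 + 13 * x ^ 3 ≤ (1 - 3 * x ^ 4) * (1 + 1426 / 100 * x ^ 3) := by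
      clear * - x x4 q3 h5
      have e3 := mul_le_mul_of_nonneg_right x4 q3.le
      have e4 := mul_le_mul_of_nonneg_right h5 q3.le
      linarith only [q3, e3, e4]
    have e3 := mul_le_mul_of_nonneg_right m1
      (show 0 ≤ (1 + 1426 / 100 * x ^ 3) * D by positivity)
    have e4 := mul_le_mul_of_nonneg_right e2 AD.le
    have e5 : 0 ≤ (1 + 13 * x ^ 3) * P := by positivity
    calc M * ((1 + 13 * x ^ 3) * N) = (1 + 13 * x ^ 3) * (M * N) := by ring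
      _ = (1 + 13 * x ^ 3) * (A * D) - (1 + 13 * x ^ 3) * P := by rw [hN]; ring
      _ ≤ _ := by clear * - x A D P M e3 e4 e5; linarith only [e3, e4, e5]
  · rw [div_le_iff₀ N0]
    have e1 : A' * D - 2 * A / x * B - M * J * n ≤ (1 + 5171 / 1000 * x ^ 2) * D := by
      clear * - A' D x a2 D0 A B M J n c0 c3
      have := mul_le_mul_of_nonneg_right a2 D0.le
      linarith only [c0, c3, this]
    refine le_trans e1 ?_
    refine le_of_mul_le_mul_left ?_ M0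
    have e3 := mul_le_mul_of_nonneg_right m2
      (show 0 ≤ (1 + 5171 / 1000 * x ^ 2) * D by positivity)
    have e4 : (1 + 26 / 5 * x ^ 2) * P ≤ 2 * P := mul_le_mul_of_nonneg_right (by clear * - x x2 x3 q3 P p0; linarith only [x2, x3, q3]) p0
    have e5 := mul_pos q2 AD
    calc M * ((1 + 5171 / 1000 * x ^ 2) * D) ≤
          (1 + 26 / 5 * x ^ 2) * (A * D) - (1 + 26 / 5 * x ^ 2) * P := by clear * - M x D A P p2 e3 e4 e5; linarith only [p2, e3, e4, e5]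
      _ = (1 + 26 / 5 * x ^ 2) * (M * N) := by rw [hN]; ring
      _ = _ := by ring

theorem G_bd (h : Bt x₀ M₀) : ∃ η₀ : ℝ, 0 < η₀ ∧ ∀ η e, η ≤ η₀ → Nr x₀ M₀ η e → Sm x₀ e →
    0 < NW x₀ x₀ (vs e) ∧ 1 + 13 * x₀ ^ 3 ≤ Gv x₀ M₀ (vs e) ∧
      Gv x₀ M₀ (vs e) ≤ 1 + 26 / 5 * x₀ ^ 2 := by
  have hx := h.pos
  have h5 := h.le
  have h4 : x₀ ≤ 1 / 4 := by linarith only [hx, h5]
  have hd : 0 < DD ^ 2 := pow_pos DD_pos 2
  have A0 := AA_pos hx h4
  refine ⟨x₀ ^ 2 * AA x₀ * DD ^ 2 / 200, by positivity, fun η e hη hn hs => ?_⟩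
  have hv := vv_vs hs.vv
  have j0 : 0 < jj ^ 2 := pow_pos (lt_trans (by norm_num) lt_jj) 2
  have t0 : 0 ≤ Dt e := integral_nonneg fun _ => sq_nonneg _
  have s0 : 0 ≤ Ds e := integral_nonneg fun _ => sq_nonneg _
  have b0 : 0 ≤ Dt (vs e) / (π ^ 2 * x₀ ^ 2) := by
    rw [Dt_vs hs.vv]
    positivity
  have b1 : Dt (vs e) / (π ^ 2 * x₀ ^ 2) ≤ 49 / 4 * x₀ ^ 6 * DD ^ 2 := by
    have e1 := pow_le_pow_left₀ (by positivity) hs.et 2
    rw [div_pow, sq_sqrt t0] at e1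
    rw [Dt_vs hs.vv, ← div_div, div_le_iff₀ (by positivity)]
    exact e1.trans_eq (by ring)
  have hD : DD ^ 2 / 2 ≤ Dx x₀ (vs e) := by
    rw [Dx, Ds_vs hs.vv hs.ort]
    linarith only [s0, b0]
  have q := abs_le.1 ((pair1 hx h4).vs_vs (by positivity) (by positivity) (by positivity) hs)
  have r1 := (abs_le.1 (pair1 hx h4).JJ).2
  have r0 := (JJ_sign hx h4).2
  have w : 2 * (79 / 20 * x₀ ^ 3 * (31 / 10 * x₀ ^ 3) + 107 / 100 * x₀ * (7 / 2 * x₀ ^ 4)) +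
      4 * x₀ * (31 / 10 * x₀ ^ 3) ^ 2 ≤ 558 / 1000 * x₀ ^ 3 := by
    clear * - x₀ h5 hx
    have x2 : x₀ ^ 2 ≤ 1 / 25 := by linarith only [h5, hx, mul_nonneg_of_nonpos_of_nonpos (le_of_lt (Mathlib.Tactic.Linarith.sub_neg_of_lt hx)) (Mathlib.Tactic.Linarith.sub_nonpos_of_le h5)]
    have x3 : x₀ ^ 3 ≤ 1 / 125 := by linarith only [x2, h5, mul_nonneg_of_nonpos_of_nonpos (Mathlib.Tactic.Linarith.sub_nonpos_of_le (sq_nonneg ((1 : ℝ) * x₀))) (Mathlib.Tactic.Linarith.sub_nonpos_of_le h5)]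
    have x4 : x₀ ^ 4 ≤ 1 / 625 := by linarith only [x2, mul_nonneg_of_nonpos_of_nonpos (Mathlib.Tactic.Linarith.sub_nonpos_of_le (sq_nonneg ((1 : ℝ) * x₀))) (Mathlib.Tactic.Linarith.sub_nonpos_of_le x2)]
    have q3 : 0 ≤ x₀ ^ 3 := by positivity
    have e2 := mul_le_mul_of_nonneg_right x2 q3
    have e3 := mul_le_mul_of_nonneg_right x3 q3
    have e4 := mul_le_mul_of_nonneg_right x4 q3
    linarith only [e2, e3, e4, sq_nonneg ((1 : ℝ) * (31 : ℝ) * ((1 : ℝ) * ((1 : ℝ) * x₀) ^ (3 : ℕ)))]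
  have w' := mul_le_mul_of_nonneg_left w hd.le
  have key := WM_alg (A := AA x₀) (A' := A1 x₀) (M := M₀) (d := DD ^ 2) (D := Dx x₀ (vs e))
    (B := Dt (vs e) / (π ^ 2 * x₀ ^ 2)) (J := jj ^ 2) (N := jj ^ 2 * NW x₀ x₀ (vs e))
    (P := PX x₀ M₀ (vs e)) (n := nB (WT 1 x₀) (vs e) (vs e)) hx h5
    (le_trans (le_add_of_nonneg_right (by positivity)) (AA_low hx h4)) (AA_up hx h5).2
    (A1_bd hx h5).1 (A1_bd hx h5).2 h.low h.up hd hD b0 b1 j0 jj_sq_le (by rw [PX]; ring)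
    (HH_iff.1 h.hh _ hv) (hn.near.trans hη) (by clear * - x₀ e q r0 w' h hn hv hη; linarith only [q, r0, w', q.1]) (by clear * - x₀ e q r1 w' h hn hv hη; linarith only [q, r1, w', q.2])
  have e : Gv x₀ M₀ (vs e) = (A1 x₀ * Dx x₀ (vs e) -
      2 * AA x₀ / x₀ * (Dt (vs e) / (π ^ 2 * x₀ ^ 2)) -
      M₀ * jj ^ 2 * nB (WT 1 x₀) (vs e) (vs e)) / (jj ^ 2 * NW x₀ x₀ (vs e)) := by
    rw [Gv, Dx]
    congr 1
    ring
  rw [e]
  exact ⟨(mul_pos_iff_of_pos_left j0).1 key.1, key.2⟩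

theorem Dat.L_bd (h : Dat x₀ M₀ G x e) {ξ : ℝ} (h1 : x₀ / 2 ≤ ξ) (h2 : ξ ≤ 1 / 4) :
    0 ≤ M₀ + G * (ξ - x₀) ∧ M₀ + G * (ξ - x₀) ≤ 109 / 100 * ξ := by
  have hx := h.bt.pos
  have h5 := h.bt.le
  have h4 : x₀ ≤ 1 / 4 := by linarith only [hx, h5]
  have x2 : x₀ ^ 2 ≤ 1 / 25 := by linarith only [h5, hx, mul_nonneg_of_nonpos_of_nonpos (le_of_lt (Mathlib.Tactic.Linarith.sub_neg_of_lt hx)) (Mathlib.Tactic.Linarith.sub_nonpos_of_le h5)]
  have x4 : x₀ ^ 4 ≤ 1 / 625 := by linarith only [x2, mul_nonneg_of_nonpos_of_nonpos (Mathlib.Tactic.Linarith.sub_nonpos_of_le (sq_nonneg ((1 : ℝ) * x₀))) (Mathlib.Tactic.Linarith.sub_nonpos_of_le x2)]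
  have q2 : 0 < x₀ ^ 2 := by positivity
  have q3 : 0 < x₀ ^ 3 := by positivity
  have a0 : x₀ ≤ AA x₀ := le_trans (le_add_of_nonneg_right (by positivity)) (AA_low hx h4)
  have m1 : 99 / 100 * x₀ ≤ M₀ := by
    clear * - x₀ a0 x2 x4 q2 hx M₀ G x e h
    have := mul_le_mul a0 (show 99 / 100 ≤ 1 - 3 * x₀ ^ 4 by linarith only [x2, x4, q2]) (by norm_num)
      (hx.le.trans a0)
    linarith only [this, h, h.bt.low]
  have m2 : M₀ ≤ x₀ + 23 / 20 * x₀ ^ 3 := h.bt.up.trans (AA_up hx h5).2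
  have g1 := h.Glo
  have g2 := h.Ghi
  have x3 : x₀ ^ 3 ≤ x₀ / 25 := by linarith only [h5, hx, mul_nonneg_of_nonpos_of_nonpos (Mathlib.Tactic.Linarith.sub_nonpos_of_le (sq_nonneg x₀)) (Mathlib.Tactic.Linarith.sub_nonpos_of_le h5), mul_nonneg_of_nonpos_of_nonpos (le_of_lt (Mathlib.Tactic.Linarith.sub_neg_of_lt hx)) (Mathlib.Tactic.Linarith.sub_nonpos_of_le h5)]
  rcases le_total x₀ ξ with c | c
  · have s : 0 ≤ ξ - x₀ := sub_nonneg.2 c
    have e1 := mul_le_mul_of_nonneg_right g1 s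
    have e2 := mul_le_mul_of_nonneg_right g2 s
    refine ⟨by clear * - M₀ G ξ x₀ q3 m1 x3 c e1 x2 h1 hx h2; linarith only [q3, m1, x3, c, e1, x2, h1, hx, h2, mul_nonneg_of_nonpos_of_nonpos (Mathlib.Tactic.Linarith.sub_nonpos_of_le (sq_nonneg ((1 : ℝ) * x₀))) (Mathlib.Tactic.Linarith.sub_nonpos_of_le x2), mul_nonneg_of_nonpos_of_nonpos (Mathlib.Tactic.Linarith.sub_nonpos_of_le h1) (le_of_lt (Mathlib.Tactic.Linarith.sub_neg_of_lt hx)), mul_nonneg_of_nonpos_of_nonpos (Mathlib.Tactic.Linarith.sub_nonpos_of_le h1) (le_of_lt (Mathlib.Tactic.Linarith.sub_neg_of_lt q3)), mul_nonneg_of_nonpos_of_nonpos (Mathlib.Tactic.Linarith.sub_nonpos_of_le h2) (le_of_lt (Mathlib.Tactic.Linarith.sub_neg_of_lt hx))], ?_⟩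
    have e3 : 26 / 5 * x₀ ^ 2 * ξ - 81 / 20 * x₀ ^ 3 ≤ 9 / 100 * ξ := by
      clear * - x₀ ξ hx c q3 h2 x2
      rcases le_total (26 / 5 * x₀ ^ 2) (9 / 100) with k | k
      · have := mul_le_mul_of_nonneg_right k (hx.le.trans c)
        linarith only [q3, this]
      · have e4 := mul_le_mul_of_nonneg_left h2 (sub_nonneg.2 k)
        have e5 : 13 / 10 * x₀ ^ 2 - 81 / 20 * x₀ ^ 3 ≤ 9 / 400 := by
          linarith only [x2, q3, hx, mul_nonneg hx.le (sq_nonneg (x₀ - 1 / 5)), sq_nonneg (x₀ - 1 / 5), sq_nonneg ((5 : ℝ) * x₀ - (1 : ℝ) * (1 : ℝ)), sq_nonneg (x₀ - (1 / 5 : ℝ))]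
        linarith only [e4, e5]
    linarith only [m2, e2, e3]
  · have s : 0 ≤ x₀ - ξ := sub_nonneg.2 c
    have e1 := mul_le_mul_of_nonneg_right g1 s
    have e2 := mul_le_mul_of_nonneg_right (show G ≤ 3 / 2 by linarith only [h5, x2, q3, g2, x3]) s
    refine ⟨by clear * - M₀ G ξ x₀ h1 q3 m1 x3 e2; linarith only [h1, q3, m1, x3, e2], ?_⟩
    have e3 : 23 / 20 * x₀ ^ 3 - 13 * x₀ ^ 3 * (x₀ - ξ) ≤ 9 / 100 * ξ := by
      rcases le_total x₀ (19 / 100) with k | k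
      · have e4 : x₀ ^ 3 ≤ 361 / 10000 * x₀ := by linarith only [k, hx, mul_nonneg_of_nonpos_of_nonpos (Mathlib.Tactic.Linarith.sub_nonpos_of_le (sq_nonneg ((1 : ℝ) * x₀))) (Mathlib.Tactic.Linarith.sub_nonpos_of_le k), mul_nonneg_of_nonpos_of_nonpos (le_of_lt (Mathlib.Tactic.Linarith.sub_neg_of_lt hx)) (Mathlib.Tactic.Linarith.sub_nonpos_of_le k)]
        have := mul_nonneg q3.le s
        linarith only [h1, q3, e4, this]
      · have e4 : 6859 / 1000000 ≤ x₀ ^ 3 := by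
          have := pow_le_pow_left₀ (by norm_num) k 3
          linarith only [this]
        have := mul_le_mul_of_nonneg_right e4 s
        linarith only [h1, q3, x3, this]
    linarith only [m2, e1, e3]

end Pool.Agent.Work.MP_267827_an.PS
end

-- merged part: Pool.Agent.Work.MP_267827_an.PS.WX
section
-- merged part: Pool.Agent.Work.MP_267827_an.PS.WS
section
/-! The second order gain. -/

set_option autoImplicit false

namespace Pool.Agent.Work.MP_267827_an.PS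

open MeasureTheory Set Filter Topology Real

variable {x x₀ M₀ G : ℝ} {e : ℝ × ℝ → ℝ}

theorem WS_mono {f f' : ℝ → ℝ} {a b : ℝ} (d1 : ∀ ξ ∈ uIcc a b, HasDerivAt f (f' ξ) ξ)
    (h : ∀ ξ ∈ uIcc a b, 0 ≤ f' ξ) : MonotoneOn f (uIcc a b) :=
  monotoneOn_of_deriv_nonneg (convex_uIcc a b)
    (fun ξ hξ => (d1 ξ hξ).continuousAt.continuousWithinAt)
    (fun ξ hξ => (d1 ξ (interior_subset hξ)).differentiableAt.differentiableWithinAt)
    fun ξ hξ => by rw [(d1 ξ (interior_subset hξ)).deriv]; exact h ξ (interior_subset hξ)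

theorem WS_tan {f f' f'' : ℝ → ℝ} {a b : ℝ} (d1 : ∀ ξ ∈ uIcc a b, HasDerivAt f (f' ξ) ξ)
    (d2 : ∀ ξ ∈ uIcc a b, HasDerivAt f' (f'' ξ) ξ) (h : ∀ ξ ∈ uIcc a b, 0 ≤ f'' ξ) :
    0 ≤ f b - f a - f' a * (b - a) := by
  have m := WS_mono d2 h
  rcases le_total a b with c | c
  · have k := WS_mono (f := fun ξ => f ξ - f' a * ξ) (f' := fun ξ => f' ξ - f' a * 1) (a := a)
      (b := b) (fun ξ hξ => (d1 ξ hξ).sub ((hasDerivAt_id ξ).const_mul _)) fun ξ hξ => by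
        have := m left_mem_uIcc hξ (by rw [uIcc_of_le c] at hξ; exact hξ.1)
        linarith
    have := k left_mem_uIcc right_mem_uIcc c
    simp only at this
    linarith
  · have k := WS_mono (f := fun ξ => f' a * ξ - f ξ) (f' := fun ξ => f' a * 1 - f' ξ) (a := a)
      (b := b) (fun ξ hξ => ((hasDerivAt_id ξ).const_mul _).sub (d1 ξ hξ)) fun ξ hξ => by
        have := m hξ left_mem_uIcc (by rw [uIcc_of_ge c] at hξ; exact hξ.2)
        linarith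
    have := k right_mem_uIcc left_mem_uIcc c
    simp only at this
    linarith

theorem Dat.mem (h : Dat x₀ M₀ G x e) {ξ : ℝ} (hξ : ξ ∈ uIcc x₀ x) :
    0 < ξ ∧ x₀ / 2 ≤ ξ ∧ ξ ≤ 1 / 4 := by
  have h1 := h.bt.pos
  have h2 := h.bt.le
  have h3 := h.lo
  have h4 := h.hi
  rcases mem_uIcc.1 hξ with c | c <;> exact ⟨by linarith only [h1, c, h3, c.1], by linarith only [h1, c, h3, c.1], by linarith only [h4, c, h1, h2, c.2]⟩

theorem Dat.G_le (h : Dat x₀ M₀ G x e) : 1 ≤ G ∧ G ≤ 151 / 125 := by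
  have h1 := h.bt.pos
  have h2 := h.bt.le
  have h3 : 0 ≤ x₀ ^ 3 := by positivity
  exact ⟨by linarith only [h3, h, h.Glo], by linarith only [h2, h, h1, h.Ghi, mul_nonneg_of_nonpos_of_nonpos (le_of_lt (Mathlib.Tactic.Linarith.sub_neg_of_lt h1)) (Mathlib.Tactic.Linarith.sub_nonpos_of_le h2)]⟩

theorem WS_L (M₀ G x₀ ξ : ℝ) : HasDerivAt (fun ξ => M₀ + G * (ξ - x₀)) G ξ := by
  simpa using (((hasDerivAt_id ξ).sub_const x₀).const_mul G).const_add M₀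

theorem WS_num {ξ x₀ : ℝ} (hξ : 0 < ξ) (h0 : 0 < x₀) (h5 : x₀ ≤ 1 / 5) :
    579 / 100 * (2 * (151 / 125) * (81 / 100 * ξ ^ 3 + (2 * (79 / 20 * ξ ^ 3 * (31 / 10 * x₀ ^ 3) +
        107 / 100 * ξ * (7 / 2 * x₀ ^ 4)) + 4 * ξ * (31 / 10 * x₀ ^ 3) ^ 2)) +
      109 / 100 * ξ * (15 / 4 * ξ ^ 2 + (2 * (116 / 5 * ξ ^ 2 * (31 / 10 * x₀ ^ 3) +
        53 / 20 * (7 / 2 * x₀ ^ 4)) + 43 * (31 / 10 * x₀ ^ 3) ^ 2))) ≤
      451 / 10 * ξ ^ 3 + 350 * x₀ ^ 4 * ξ := by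
  have h3 : x₀ ^ 3 ≤ (1 / 5) ^ 3 := by gcongr
  have h2 : x₀ ^ 2 ≤ (1 / 5) ^ 2 := by gcongr
  have k3 := mul_le_mul_of_nonneg_left h3 (pow_pos hξ 3).le
  have k2 := mul_le_mul_of_nonneg_left h2 (by positivity : 0 ≤ x₀ ^ 4 * ξ)
  have p3 := pow_pos hξ 3
  have p2 : 0 ≤ x₀ ^ 4 * ξ := by positivity
  clear * - ξ x₀ k3 k2 p3 p2
  linarith only [k3, k2, p3, p2]

theorem Dat.two (h : Dat x₀ M₀ G x e) {ξ : ℝ} (hξ : ξ ∈ uIcc x₀ x) :
    jj ^ 2 * (2 * G * nB (WT 1 ξ) (vs e) (vs e) + (M₀ + G * (ξ - x₀)) * nB (WT 2 ξ) (vs e) (vs e)) ≤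
      DD ^ 2 * (451 / 10 * ξ ^ 3 + 350 * x₀ ^ 4 * ξ) := by
  obtain ⟨p, l, u⟩ := h.mem hξ
  obtain ⟨L0, L1⟩ := h.L_bd l u
  obtain ⟨G0, G1⟩ := h.G_le
  have x0 := h.bt.pos
  have a1 := (abs_le.1 ((pair1 p u).vs_vs (by positivity) (by positivity) (by positivity) h.sm)).2
  have a2 := (abs_le.1 ((pair2 p u).vs_vs (by positivity) (by positivity) (by positivity) h.sm)).2
  have b1 := (abs_le.1 (pair1 p u).JJ).2
  have b2 := (abs_le.1 (pair2 p u).JJ).2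
  obtain ⟨c1, hc1⟩ : ∃ c, c = 81 / 100 * ξ ^ 3 + (2 * (79 / 20 * ξ ^ 3 * (31 / 10 * x₀ ^ 3) +
    107 / 100 * ξ * (7 / 2 * x₀ ^ 4)) + 4 * ξ * (31 / 10 * x₀ ^ 3) ^ 2) := ⟨_, rfl⟩
  obtain ⟨c2, hc2⟩ : ∃ c, c = 15 / 4 * ξ ^ 2 + (2 * (116 / 5 * ξ ^ 2 * (31 / 10 * x₀ ^ 3) +
    53 / 20 * (7 / 2 * x₀ ^ 4)) + 43 * (31 / 10 * x₀ ^ 3) ^ 2) := ⟨_, rfl⟩
  have k := WS_num p x0 h.bt.le
  rw [← hc1, ← hc2] at k
  have p1 : 0 ≤ c1 := by rw [hc1]; positivity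
  have p2 : 0 ≤ c2 := by rw [hc2]; positivity
  have n1 : nB (WT 1 ξ) (vs e) (vs e) ≤ DD ^ 2 * c1 := by clear * - ξ e c1 x₀ hc1 a1 b1; rw [hc1]; linarith only [a1, b1]
  have n2 : nB (WT 2 ξ) (vs e) (vs e) ≤ DD ^ 2 * c2 := by clear * - ξ e c2 x₀ hc2 a2 b2; rw [hc2]; linarith only [a2, b2]
  calc _ ≤ jj ^ 2 * (2 * G * (DD ^ 2 * c1) + (M₀ + G * (ξ - x₀)) * (DD ^ 2 * c2)) := by clear * - G ξ e M₀ x₀ c1 c2 n1 G0 n2 L0; gcongr
    _ ≤ 579 / 100 * (2 * (151 / 125) * (DD ^ 2 * c1) + 109 / 100 * ξ * (DD ^ 2 * c2)) := by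
        clear * - G c1 M₀ ξ x₀ c2 G1 p1 L1 p2 G0 L0
        have := jj_sq_le
        gcongr
    _ = DD ^ 2 * (579 / 100 * (2 * (151 / 125) * c1 + 109 / 100 * ξ * c2)) := by ring
    _ ≤ _ := by gcongr

theorem Dat.second (h : Dat x₀ M₀ G x e) (h0 : 0 < NW x₀ x₀ (vs e)) :
    DD ^ 2 * (gain x₀ x * (x - x₀) ^ 2) ≤ PX x (M₀ + G * (x - x₀)) (vs e) := by
  have hv := vv_vs h.sm.vv
  have x0 := h.bt.pos
  have x4 : x₀ ≤ 1 / 4 := by linarith only [x0, h, h.bt.le]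
  have hx : 0 < x := by linarith only [x0, h, h.lo]
  have j0 := jj_pos
  have t := WS_tan (a := x₀) (b := x)
    (f := fun ξ => DD ^ 2 * (451 / 200 * ξ ^ 5 + 175 / 3 * x₀ ^ 4 * ξ ^ 3) -
      jj ^ 2 * ((M₀ + G * (ξ - x₀)) * nB (WT 0 ξ) (vs e) (vs e)))
    (f' := fun ξ => DD ^ 2 * (451 / 40 * ξ ^ 4 + 175 * x₀ ^ 4 * ξ ^ 2) -
      jj ^ 2 * (G * nB (WT 0 ξ) (vs e) (vs e) + (M₀ + G * (ξ - x₀)) * nB (WT 1 ξ) (vs e) (vs e)))
    (f'' := fun ξ => DD ^ 2 * (451 / 10 * ξ ^ 3 + 350 * x₀ ^ 4 * ξ) -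
      jj ^ 2 * (2 * G * nB (WT 1 ξ) (vs e) (vs e) +
        (M₀ + G * (ξ - x₀)) * nB (WT 2 ξ) (vs e) (vs e)))
    (fun ξ hξ => by
      obtain ⟨p, -, u⟩ := h.mem hξ
      refine (((((hasDerivAt_pow 5 ξ).const_mul _).add
        ((hasDerivAt_pow 3 ξ).const_mul _)).const_mul _).sub (((WS_L M₀ G x₀ ξ).mul
          (nB0_der p (by linarith only [x0, x4, u]) hv hv)).const_mul _)).congr_deriv ?_
      push_cast
      ring)
    (fun ξ hξ => by
      obtain ⟨p, -, u⟩ := h.mem hξ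
      refine (((((hasDerivAt_pow 4 ξ).const_mul _).add
        ((hasDerivAt_pow 2 ξ).const_mul _)).const_mul _).sub
          ((((nB0_der p (by linarith only [x0, x4, u]) hv hv).const_mul G).add ((WS_L M₀ G x₀ ξ).mul
            (nB1_der p (by linarith only [x0, x4, u]) hv hv))).const_mul _)).congr_deriv ?_
      push_cast
      ring)
    fun ξ hξ => sub_nonneg.2 (h.two hξ)
  simp only [sub_self, mul_zero, add_zero] at t
  have P0 := HH_iff.1 h.bt.hh _ hv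
  have Ge := h.Geq
  rw [Gv, eq_div_iff (by positivity)] at Ge
  have tA := tan_A hx h.hi x0 x4
  have tD := mul_nonneg (tan_d hx h.hi x0 x4) (div_nonneg (Dt_nonneg (vs e)) (sq_nonneg π))
  have dS : DD ^ 2 / 2 ≤ Ds (vs e) := by
    clear * - e x₀ M₀ G x h
    rw [Ds_vs h.sm.vv h.sm.ort]
    linarith only [Ds_nonneg e]
  have k := mul_le_mul tA dS (by positivity) (le_trans (by positivity) tA)
  have e1 : ∀ y : ℝ, Dt (vs e) / (π ^ 2 * y ^ 2) = (y ^ 2)⁻¹ * (Dt (vs e) / π ^ 2) := fun y => by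
    ring
  have Gs := congrArg (· * (x - x₀)) Ge
  simp only [PX, Dx, e1, NW_split x0 x4 hv, NW_split hx h.hi hv, div_eq_mul_inv _ (x ^ 2),
    div_eq_mul_inv _ (x₀ ^ 2)] at P0 Gs tD ⊢
  rw [gain]
  clear * - x x₀ e M₀ G t k P0 Gs tD
  linarith only [t, k, P0, Gs, tD]

end Pool.Agent.Work.MP_267827_an.PS
end

-- merged part: Pool.Agent.Work.MP_267827_an.PS.WX
section
/-! The cross term. -/

set_option autoImplicit false

namespace Pool.Agent.Work.MP_267827_an.PS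

open MeasureTheory Set Filter Topology Real

variable {x x₀ M₀ G : ℝ} {e w : ℝ × ℝ → ℝ}

theorem WX_lip {u u' F F' : ℝ → ℝ} {a b : ℝ} (d1 : ∀ ξ ∈ uIcc a b, HasDerivAt u (u' ξ) ξ)
    (d2 : ∀ ξ ∈ uIcc a b, HasDerivAt F (F' ξ) ξ) (h : ∀ ξ ∈ uIcc a b, |u' ξ| ≤ F' ξ) :
    |u b - u a| ≤ |F b - F a| := by
  have m1 := WS_mono (fun ξ hξ => (d2 ξ hξ).sub (d1 ξ hξ)) fun ξ hξ =>
    sub_nonneg.2 (abs_le.1 (h ξ hξ)).2
  have m2 := WS_mono (fun ξ hξ => (d2 ξ hξ).add (d1 ξ hξ)) fun ξ hξ => by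
    linarith [(abs_le.1 (h ξ hξ)).1]
  rcases le_total a b with c | c
  · have k1 := m1 left_mem_uIcc right_mem_uIcc c
    have k2 := m2 left_mem_uIcc right_mem_uIcc c
    simp only [Pi.sub_apply, Pi.add_apply] at k1 k2
    exact (abs_le.2 ⟨by linarith, by linarith⟩).trans (le_abs_self (F b - F a))
  · have k1 := m1 right_mem_uIcc left_mem_uIcc c
    have k2 := m2 right_mem_uIcc left_mem_uIcc c
    simp only [Pi.sub_apply, Pi.add_apply] at k1 k2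
    exact (abs_le.2 ⟨by linarith, by linarith⟩).trans (neg_le_abs (F b - F a))

theorem WX_cs (he : VV e) (hw : VV w) :
    |(∫ p, ds e p * ds w p ∂nu) - jj ^ 2 * ∫ p, exp (2 * p.1) * (e p * w p) ∂nu| ≤
      √(Ds e) * √(Ds w) := by
  have h1 := discrim_le_zero (a := Ds e - jj ^ 2 * N0 e) (b := 2 * ((∫ p, ds e p * ds w p ∂nu) -
    jj ^ 2 * ∫ p, exp (2 * p.1) * (e p * w p) ∂nu)) (c := Ds w - jj ^ 2 * N0 w) fun t => by
      have := (VV.lin t he hw).ground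
      rw [VV.Ds_add t he hw, VV.N0_add t he hw] at this
      linarith only [this]
  rw [discrim] at h1
  have p1 := mul_nonneg (sq_nonneg jj) (N0_nonneg e)
  have p2 := mul_nonneg (sq_nonneg jj) (N0_nonneg w)
  have k := mul_le_mul (by linarith : Ds e - jj ^ 2 * N0 e ≤ Ds e)
    (by linarith : Ds w - jj ^ 2 * N0 w ≤ Ds w) (sub_nonneg.2 hw.ground) (Ds_nonneg e)
  exact abs_le_sqrt_mul (Ds_nonneg e) (by linarith only [h1, k])

theorem Dat.one (h : Dat x₀ M₀ G x e) (hw : VV w) {ξ : ℝ} (hξ : ξ ∈ uIcc x₀ x) :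
    |jj ^ 2 * (G * nB (WT 0 ξ) (vs e) w + (M₀ + G * (ξ - x₀)) * nB (WT 1 ξ) (vs e) w)| ≤
      DD * ((63 / 2 * ξ ^ 4 + 32 * (31 / 10 * x₀ ^ 3) * ξ ^ 2) * √(Ds w) +
        10 * ξ ^ 2 * (√(Dt w) / π)) := by
  obtain ⟨p, l, u⟩ := h.mem hξ
  obtain ⟨L0, L1⟩ := h.L_bd l u
  obtain ⟨G0, G1⟩ := h.G_le
  have x0 := h.bt.pos
  have D0 := DD_pos
  have a0 := (pair0 p u).vs_w (by positivity) h.sm hw
  have a1 := (pair1 p u).vs_w (by positivity) h.sm hw
  obtain ⟨a, ha⟩ : ∃ a, a = √(Ds w) := ⟨_, rfl⟩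
  obtain ⟨b, hb⟩ : ∃ b, b = √(Dt w) / π := ⟨_, rfl⟩
  have pa : 0 ≤ a := by rw [ha]; positivity
  have pb : 0 ≤ b := by rw [hb]; positivity
  rw [← ha, ← hb] at a0 a1 ⊢
  rw [abs_mul, abs_of_nonneg (sq_nonneg jj)]
  calc _ ≤ jj ^ 2 * (G * |nB (WT 0 ξ) (vs e) w| +
        (M₀ + G * (ξ - x₀)) * |nB (WT 1 ξ) (vs e) w|) := by
        clear * - G ξ e w M₀ x₀ L0 p u G0
        refine mul_le_mul_of_nonneg_left ((abs_add_le _ _).trans_eq ?_) (sq_nonneg _)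
        rw [abs_mul, abs_mul, abs_of_nonneg L0, abs_of_nonneg (by linarith only [p, u, G0] : 0 ≤ G)]
    _ ≤ 579 / 100 * (151 / 125 * (DD * ((23 / 25 * ξ ^ 4 + 47 / 50 * ξ ^ 2 * (31 / 10 * x₀ ^ 3)) *
          a + 23 / 50 * ξ ^ 2 * b)) + 109 / 100 * ξ * (DD * ((79 / 20 * ξ ^ 3 +
          4 * ξ * (31 / 10 * x₀ ^ 3)) * a + 107 / 100 * ξ * b))) := by
        clear * - G ξ e w M₀ x₀ a b G1 a0 L1 a1 p G0 L0
        have := jj_sq_le
        gcongr
    _ ≤ _ := by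
        clear * - ξ a D0 p pa x₀ x0 b pb
        have q1 : 0 ≤ DD * (ξ ^ 4 * a) := by positivity
        have q2 : 0 ≤ DD * (x₀ ^ 3 * ξ ^ 2 * a) := by positivity
        have q3 : 0 ≤ DD * (ξ ^ 2 * b) := by positivity
        linarith only [q1, q2, q3]

theorem WX_kap {A A₀ a : ℝ} (h0 : 0 < x₀) (h5 : x₀ ≤ 1 / 5) (h1 : x₀ / 2 ≤ x) (a1 : 1 ≤ a)
    (a2 : a ≤ 3 / 2) (ha : A - A₀ = a * (x - x₀)) (l : x₀ ≤ A₀) (u : A₀ ≤ x₀ + 13 / 2 * x₀ ^ 4) :
    |A / x ^ 2 - A₀ / x₀ ^ 2| ≤ 29 / 25 * |x - x₀| / (x * x₀) := by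
  have hx : 0 < x := by linarith only [h0, h1]
  have e : A / x ^ 2 - A₀ / x₀ ^ 2 =
      (-(A₀ / x₀) + (a - A₀ / x₀) * (x₀ / x)) * (x - x₀) / (x * x₀) := by
    rw [show A = A₀ + a * (x - x₀) by linarith only [ha]]
    field_simp
    ring
  have r0 : 0 < x₀ / x := by positivity
  have r1 : x₀ / x ≤ 2 := by rw [div_le_iff₀ hx]; linarith only [h1]
  have q0 : 1 ≤ A₀ / x₀ := by rw [le_div_iff₀ h0]; linarith only [l]
  have q1 : A₀ / x₀ ≤ 263 / 250 := by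
    clear * - x₀ h0 h5 A₀ u
    have h3 : x₀ ^ 3 ≤ (1 / 5) ^ 3 := by gcongr
    rw [div_le_iff₀ h0]
    linarith only [u, h0, h3, mul_nonneg_of_nonpos_of_nonpos (le_of_lt (Mathlib.Tactic.Linarith.sub_neg_of_lt h0)) (Mathlib.Tactic.Linarith.sub_nonpos_of_le h3)]
  rw [e, abs_div, abs_mul, abs_of_pos (mul_pos hx h0)]
  gcongr
  exact abs_le.2 ⟨by clear * - A₀ x₀ a x h5 r1 q1 h0 a1 r0; (refine le_of_not_gt fun h_nl => ?_; linarith only [h_nl, h5, r1, q1, h0, a1, r0, mul_pos_of_neg_of_neg (Mathlib.Tactic.Linarith.sub_neg_of_lt h0) (Mathlib.Tactic.Linarith.sub_neg_of_lt h0), mul_nonneg_of_nonpos_of_nonpos (le_of_lt (Mathlib.Tactic.Linarith.sub_neg_of_lt h0)) (Mathlib.Tactic.Linarith.sub_nonpos_of_le h5), mul_pos_of_neg_of_neg (Mathlib.Tactic.Linarith.sub_neg_of_lt h0) (Mathlib.Tactic.Linarith.sub_neg_of_lt h_nl), mul_nonneg_of_nonpos_of_nonpos (Mathlib.Tactic.Linarith.sub_nonpos_of_le h5)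 (le_of_lt (Mathlib.Tactic.Linarith.sub_neg_of_lt h_nl)), mul_nonneg_of_nonpos_of_nonpos (Mathlib.Tactic.Linarith.sub_nonpos_of_le a1) (le_of_lt (Mathlib.Tactic.Linarith.sub_neg_of_lt r0)), mul_nonneg_of_nonpos_of_nonpos (le_of_lt (Mathlib.Tactic.Linarith.sub_neg_of_lt r0)) (Mathlib.Tactic.Linarith.sub_nonpos_of_le q1)]), by clear * - A₀ x₀ a x h5 a2 q0 h0 a1 r1 r0; (refine le_of_not_gt fun h_nl => ?_; linarith only [h_nl, h5, a2, q0, h0, a1, r1, r0, mul_pos_of_neg_of_neg (Mathlib.Tactic.Linarith.sub_neg_of_lt h0) (Mathlib.Tactic.Linarith.sub_neg_of_lt h0), mul_nonneg_of_nonpos_of_nonpos (le_of_lt (Mathlib.Tactic.Linarith.sub_neg_of_lt h0)) (Mathlib.Tactic.Linarith.sub_nonpos_of_le h5), mul_pos_of_neg_of_neg (Mathlib.Tactic.Linarith.sub_neg_of_lt h0) (Mathlib.Tactic.Linarith.sub_neg_of_lt h_nl), mul_nonneg_of_nonpos_of_nonpos (Mathlib.Tactic.Linarith.sub_nonpos_of_le h5) (le_of_lt (Mathlib.Tactic.Linarith.sub_neg_of_lt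 h_nl)), mul_nonneg_of_nonpos_of_nonpos (Mathlib.Tactic.Linarith.sub_nonpos_of_le a1) (Mathlib.Tactic.Linarith.sub_nonpos_of_le r1), mul_nonneg_of_nonpos_of_nonpos (le_of_lt (Mathlib.Tactic.Linarith.sub_neg_of_lt r0)) (Mathlib.Tactic.Linarith.sub_nonpos_of_le q0)])⟩

theorem Dat.cross (h : Dat x₀ M₀ G x e) (hw : VV w) (ho : Ort w) :
    |BX x (M₀ + G * (x - x₀)) (vs e) w - BX x₀ M₀ (vs e) w| ≤
      DD * |x - x₀| * (cpS x₀ x * √(Ds w) + cpT x₀ x * (√(Dt w) / (π * x))) := by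
  have he := h.sm.vv
  have hv := vv_vs he
  have x0 := h.bt.pos
  have x4 : x₀ ≤ 1 / 4 := by linarith only [x0, h, h.bt.le]
  have hx : 0 < x := by linarith only [x0, h, h.lo]
  have D0 := DD_pos
  obtain ⟨G0, G1⟩ := h.G_le
  have t := WX_lip (a := x₀) (b := x)
    (u := fun ξ => jj ^ 2 * ((M₀ + G * (ξ - x₀)) * nB (WT 0 ξ) (vs e) w))
    (F := fun ξ => DD * ((63 / 10 * ξ ^ 5 + 32 / 3 * (31 / 10 * x₀ ^ 3) * ξ ^ 3) * √(Ds w) +
      10 / 3 * ξ ^ 3 * (√(Dt w) / π)))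
    (fun ξ hξ => ((WS_L M₀ G x₀ ξ).mul
      (nB0_der (h.mem hξ).1 (by linarith only [x0, x4, h, hξ, (h.mem hξ).2.2]) hv hw)).const_mul _)
    (fun ξ hξ => ((((((hasDerivAt_pow 5 ξ).const_mul _).add
      ((hasDerivAt_pow 3 ξ).const_mul _)).mul_const _).add
        (((hasDerivAt_pow 3 ξ).const_mul _).mul_const _)).const_mul _).congr_deriv (by
          push_cast; ring))
    fun ξ hξ => h.one hw hξ
  simp only [sub_self, mul_zero, add_zero] at t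
  obtain ⟨a, a1, a2, ha⟩ := AA_slope hx h.hi x0 x4
  have kd := WX_kap x0 h.bt.le h.lo a1 a2 ha
    (le_trans (le_add_of_nonneg_right (by positivity)) (AA_low x0 x4)) (AA_up x0 h.bt.le).1
  have e1 : ∫ p, ds (vs e) p * ds w p ∂nu = ∫ p, ds e p * ds w p ∂nu :=
    (ss_add 1 vv_JV he hw).trans (by rw [ho.ds hw]; ring)
  have e2 : ∫ p, dt (vs e) p * dt w p ∂nu = ∫ p, dt e p * dt w p ∂nu :=
    (tt_add 1 vv_JV he hw).trans (by rw [dt_JV]; ring)
  have e3 : ∫ p, exp (2 * p.1) * (vs e p * w p) ∂nu = ∫ p, exp (2 * p.1) * (e p * w p) ∂nu := by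
    have := N_add 1 vv_JV he hw
    simp only [mul_comm (w _)] at this
    exact this.trans (by rw [ho]; ring)
  have c1 := he.cs_s hw
  have c2 := he.cs_t hw
  have c3 := WX_cs he hw
  have es := h.sm.es
  have et := h.sm.et
  rw [BX, BX, nB_WW hx (by clear * - x x₀ x0 x4 M₀ G e h e1 e2 e3 hv hw hx; linarith only [x0, x4, h, h.hi]) hv hw, nB_WW x0 (by clear * - x₀ x0 x4 e1 e2 e3 h hv hw hx; linarith only [x0, x4]) hv hw, e1, e2, e3]
  obtain ⟨S, hS⟩ : ∃ S, S = ∫ p, ds e p * ds w p ∂nu := ⟨_, rfl⟩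
  obtain ⟨T, hT⟩ : ∃ T, T = ∫ p, dt e p * dt w p ∂nu := ⟨_, rfl⟩
  obtain ⟨N, hN⟩ : ∃ N, N = ∫ p, exp (2 * p.1) * (e p * w p) ∂nu := ⟨_, rfl⟩
  rw [← hS] at c1 c3
  rw [← hT] at c2
  rw [← hN] at c3
  rw [← hS, ← hT, ← hN]
  have pa := sqrt_nonneg (Ds w)
  have pb := sqrt_nonneg (Dt w)
  have ps := abs_nonneg (x - x₀)
  have pp := pi_pos
  have k1 : |(x - x₀) * ((a - G) * S + G * (S - jj ^ 2 * N))| ≤
      |x - x₀| * (43 / 25 * (31 / 10 * x₀ ^ 3 * DD * √(Ds w))) := by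
    clear * - x x₀ a G S N w e es pa x0 x4 G1 a1 G0 a2 c1 c3 D0 ps
    rw [abs_mul]
    refine mul_le_mul_of_nonneg_left ((abs_add_le _ _).trans ?_) ps
    have m := mul_le_mul_of_nonneg_right es pa
    have q : |a - G| ≤ 1 / 2 := abs_le.2 ⟨by linarith only [x0, x4, G1, a1], by linarith only [G0, a2]⟩
    have m1 := mul_le_mul q (c1.trans m) (abs_nonneg _) (by norm_num)
    have m2 := mul_le_mul G1 (c3.trans m) (abs_nonneg _) (by norm_num)
    have m3 : 0 ≤ x₀ ^ 3 * DD * √(Ds w) := by positivity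
    rw [abs_mul, abs_mul, abs_of_nonneg (by linarith only [x0, x4, G0] : 0 ≤ G)]
    linarith only [m1, m2, m3]
  have k2 : |(AA x / x ^ 2 - AA x₀ / x₀ ^ 2) * (T / π ^ 2)| ≤
      29 / 25 * |x - x₀| / (x * x₀) * (7 / 2 * x₀ ^ 4 * DD * (√(Dt w) / π)) := by
    clear * - x x₀ T w kd pp e c2 et pb hx x0
    rw [abs_mul]
    refine mul_le_mul kd ?_ (abs_nonneg _) (by positivity)
    rw [abs_div, abs_of_pos (pow_pos pp 2)]
    refine (div_le_div_of_nonneg_right c2 (sq_nonneg _)).trans ?_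
    exact le_of_eq_of_le (by ring) (mul_le_mul_of_nonneg_right et (div_nonneg pb pp.le))
  have k3 := t.trans_eq (c := |x - x₀| * (DD * ((63 / 10 * (x ^ 4 + x ^ 3 * x₀ + x ^ 2 * x₀ ^ 2 +
      x * x₀ ^ 3 + x₀ ^ 4) + 32 / 3 * (31 / 10 * x₀ ^ 3) * (x ^ 2 + x * x₀ + x₀ ^ 2)) * √(Ds w) +
      10 / 3 * (x ^ 2 + x * x₀ + x₀ ^ 2) * (√(Dt w) / π)))) (by
    clear * - x x₀ w D0 hx x0 a
    conv_rhs => rw [← abs_of_nonneg (a := DD * _) (by positivity), ← abs_mul]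
    congr 1
    ring)
  have k4 := (abs_sub _ _).trans (add_le_add ((abs_add_le _ _).trans (add_le_add k1 k2)) k3)
  refine le_of_eq_of_le ?_ (k4.trans_eq ?_)
  · congr 1
    rw [show AA x = AA x₀ + a * (x - x₀) by clear * - x x₀ a ha; linarith only [ha]]
    ring
  · rw [cpS, cpT]
    field_simp
    ring

end Pool.Agent.Work.MP_267827_an.PS
end
end
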